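import Pool.Agent.Lib.DD.Blue
import Mathlib.LinearAlgebra.FreeAlgebra
import Mathlib.Data.ZMod.Basic

/-! The combinatorial core of the first statement modulo 2: definitions. -/

set_option autoImplicit false

noncomputable section

namespace Pool.Agent.DD.F

open Pool.Agent.DD.S39 FreeAlgebra

/-- The shift `y_1 ↦ y_1 + 1` on a word: a letter `y` is replaced by `y + 1` unless the letter
before it is `x` (the flag says that the previous letter is `x`). -/
def Sw : Bool → List Bool → FA (ZMod 2)
  | _, [] => 1
  | _, false :: w => lx _ * Sw true w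
  | true, true :: w => ly _ * Sw false w
  | false, true :: w => (ly _ + 1) * Sw false w

/-- The shift `y_1 ↦ y_1 + 1` as a linear map. -/
def Sop : FA (ZMod 2) →ₗ[ZMod 2] FA (ZMod 2) :=
  (basisFreeMonoid (ZMod 2) Bool).constr (ZMod 2) fun w => Sw false w.toList

/-- A Lie polynomial of depth `r`, fixed by the shift up to a power of `x`, without words that
avoid `y y`, vanishes. -/
def St_CORE65 : Prop := ∀ (f : FA (ZMod 2)) (r n : ℕ) (c : ZMod 2), IsLie f →
  (∀ w, co w f ≠ 0 → w.count true = r ∧ false ∈ w) →
  (∀ w, ¬ [true, true] <:+: w → co w f = 0) → Sop f = f + c • lx _ ^ n → f = 0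

/-- Forces the unfolding lemma of `Sw` to be generated once, in this file. -/
theorem rlz65 : True := by
  have := @Sw.eq_def
  trivial

end Pool.Agent.DD.F
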