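import Pool.Agent.Lib.DD.Blue
import Mathlib.LinearAlgebra.FreeAlgebra

set_option autoImplicit false

noncomputable section

namespace Pool.Agent.DD.F

open Pool.Agent.DR Pool.Agent.DD.S39

universe v

namespace CO

variable {K : Type v} [CommRing K]

theorem basis_eq (u : List Bool) :
    FreeAlgebra.basisFreeMonoid K Bool (FreeMonoid.ofList u) = wd (lx K) (ly K) u := by
  have e : FreeAlgebra.basisFreeMonoid K Bool (FreeMonoid.ofList u) =
      FreeMonoid.lift (FreeAlgebra.ι K) (FreeMonoid.ofList u) := by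
    simp [FreeAlgebra.basisFreeMonoid, FreeAlgebra.equivMonoidAlgebraFreeMonoid]
  rw [e, FreeMonoid.lift_apply, FreeMonoid.toList_ofList, wd]
  congr 2
  funext s
  cases s <;> rfl

theorem co_wd (u w : List Bool) :
    co w (wd (lx K) (ly K) u) = if u = w then (1 : K) else 0 := by
  classical
  rw [← basis_eq, co, Module.Basis.coord_apply, Module.Basis.repr_self, Finsupp.single_apply]
  simp

theorem wd_mem (u : List Bool) : wd (lx K) (ly K) u ∈ Hn K u.length :=
  Submodule.subset_span ⟨u, rfl, rfl⟩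

theorem ext_co {f g : FA K} (h : ∀ w, co w f = co w g) : f = g :=
  (FreeAlgebra.basisFreeMonoid K Bool).ext_elem fun w => h w.toList

theorem co_of_mem {n : ℕ} {ψ : FA K} (h : ψ ∈ Hn K n) {w : List Bool} (hw : w.length ≠ n) :
    co w ψ = 0 := by
  induction h using Submodule.span_induction with
  | mem f hf =>
    obtain ⟨u, hu, rfl⟩ := hf
    rw [co_wd, if_neg]
    rintro rfl
    exact hw hu
  | zero => simp
  | add f g _ _ hf hg => simp [hf, hg]
  | smul r f _ hf => simp [hf]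

theorem co_sum (n : ℕ) (c : List Bool → K) (w : List Bool) :
    co w (∑ u ∈ W n, c u • wd (lx K) (ly K) u) = if w.length = n then c w else 0 := by
  simp [map_sum, co_wd, mem_W]

theorem eq_sum_of {n : ℕ} {ψ : FA K} (h : ∀ w : List Bool, w.length ≠ n → co w ψ = 0) :
    ψ = ∑ u ∈ W n, co u ψ • wd (lx K) (ly K) u := by
  refine ext_co fun w => ?_
  rw [co_sum]
  split_ifs with hw
  · rfl
  · exact h w hw

theorem sum_mem (n : ℕ) (c : List Bool → K) : ∑ u ∈ W n, c u • wd (lx K) (ly K) u ∈ Hn K n :=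
  Submodule.sum_mem _ fun u hu => Submodule.smul_mem _ _ (mem_W.1 hu ▸ wd_mem u)

theorem mem_iff {n : ℕ} {ψ : FA K} : ψ ∈ Hn K n ↔ ∀ w : List Bool, w.length ≠ n → co w ψ = 0 :=
  ⟨fun h _ hw => co_of_mem h hw, fun h => eq_sum_of h ▸ sum_mem n _⟩

theorem eq_sum {n : ℕ} {ψ : FA K} (h : ψ ∈ Hn K n) :
    ψ = ∑ u ∈ W n, co u ψ • wd (lx K) (ly K) u := eq_sum_of (mem_iff.1 h)

theorem ev_wd {B : Type*} [Ring B] [Algebra K B] (p q : B) (u : List Bool) :
    ev p q (wd (lx K) (ly K) u) = wd p q u := by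
  rw [map_wd, ev_x, ev_y]

theorem coeff_ser_co {B : Type*} [Ring B] [Algebra K B] {n : ℕ} {ψ : FA K} (h : ψ ∈ Hn K n)
    (p q : B) (m : ℕ) :
    PowerSeries.coeff m (ser (fun w => co w ψ) p q) = if m = n then ev p q ψ else 0 := by
  rw [coeff_ser]
  split_ifs with hm
  · subst hm
    conv_rhs => rw [eq_sum h]
    simp [map_sum, ev_wd]
  · exact Finset.sum_eq_zero fun u hu => by rw [co_of_mem h (mem_W.1 hu ▸ hm), zero_smul]

theorem lpent_iff {n : ℕ} {ψ : FA K} (h : ψ ∈ Hn K n) :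
    S39.LPent ψ ↔ DD.LPent fun w => co w ψ := by
  refine ⟨fun hp B _ _ T => ?_, fun hp B _ _ T => ?_⟩
  · ext m
    simp only [map_add, coeff_ser_co h]
    split_ifs
    · exact hp B T
    · simp
  · simpa only [map_add, coeff_ser_co h, if_true] using congrArg (PowerSeries.coeff n) (hp B T)

theorem mul_mem {m n : ℕ} {f g : FA K} (hf : f ∈ Hn K m) (hg : g ∈ Hn K n) :
    f * g ∈ Hn K (m + n) := by
  rw [eq_sum hf, eq_sum hg, Finset.sum_mul_sum]
  refine Submodule.sum_mem _ fun u hu => Submodule.sum_mem _ fun w hw => ?_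
  rw [smul_mul_smul_comm, ← wd_append, ← mem_W.1 hu, ← mem_W.1 hw, ← List.length_append]
  exact Submodule.smul_mem _ _ (wd_mem _)

theorem lx_mem : lx K ∈ Hn K 1 := by simpa using wd_mem (K := K) [false]

theorem ly_mem : ly K ∈ Hn K 1 := by simpa using wd_mem (K := K) [true]

theorem D_wd {m : ℕ} {f : FA K} (hf : f ∈ Hn K m) (u : List Bool) :
    D f (wd (lx K) (ly K) u) ∈ Hn K (m + u.length) := by
  induction u with
  | nil => simp
  | cons s u ih =>
    have e : m + (s :: u).length = 1 + (m + u.length) := by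
      rw [List.length_cons]
      omega
    cases s
    · rw [wd_false, D_mul, D_x, zero_mul, zero_add, e]
      exact mul_mem lx_mem ih
    · rw [wd_true, D_mul, D_y]
      refine add_mem ?_ (e ▸ mul_mem ly_mem ih)
      rw [e, ← add_assoc]
      exact mul_mem (sub_mem (mul_mem ly_mem hf) (add_comm m 1 ▸ mul_mem hf ly_mem)) (wd_mem u)

theorem D_mem {m n : ℕ} {f g : FA K} (hf : f ∈ Hn K m) (hg : g ∈ Hn K n) :
    D f g ∈ Hn K (m + n) := by
  rw [eq_sum hg, map_sum]
  refine Submodule.sum_mem _ fun u hu => ?_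
  rw [map_smul, ← mem_W.1 hu]
  exact Submodule.smul_mem _ _ (D_wd hf u)

end CO

theorem st_CO : St_CO := fun _ _ =>
  ⟨CO.co_wd, fun _ _ => CO.mem_iff, fun _ _ => CO.eq_sum, fun _ _ => CO.lpent_iff,
    fun _ _ _ _ hf hg => ⟨CO.mul_mem hf hg, CO.D_mem hf hg⟩⟩

end Pool.Agent.DD.F
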