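import Pool.Agent.Lib.DD.DsMod64
import Pool.Agent.Lib.DD.A1D65
import Pool.Agent.Lib.DD.F_CO
import Mathlib.Data.Bool.Count

/-! The first statement modulo 2 follows from its combinatorial core. -/

set_option autoImplicit false

noncomputable section

namespace Pool.Agent.DD.F

open Pool.Agent.DR Pool.Agent.DD.S39 Pool.Agent.DD.DS Pool.Agent.DD.F64 TensorProduct FreeAlgebra
  Polynomial Module

attribute [local instance 100] LieRing.ofAssociativeRing

namespace B25

abbrev k2 : Type := ZMod 2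
abbrev A : Type := FA k2
abbrev E : Type := End k2 A
abbrev wo (w : List Bool) : A := wd (lx k2) (ly k2) w

theorem wo_eq (w : List Bool) : wo w = (w.map (ι k2)).prod := by
  rw [wo, ← CO.basis_eq, bas]

theorem two (u : A) : u + u = 0 := by
  rw [← two_smul k2, show (2 : k2) = 0 from rfl, zero_smul]

theorem onsup {N : Type*} [AddCommGroup N] [Module k2 N] (P : Submodule k2 N) (F : A →ₗ[k2] N)
    (f : A) (h : ∀ w, co w f ≠ 0 → F (wo w) ∈ P) : F f ∈ P := by
  rw [← (basisFreeMonoid k2 Bool).linearCombination_repr f, Finsupp.linearCombination_apply,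
    Finsupp.sum, map_sum]
  refine P.sum_mem fun w hw => ?_
  rw [map_smul, ← FreeMonoid.ofList_toList w, CO.basis_eq]
  exact P.smul_mem _ (h _ (Finsupp.mem_support_iff.1 hw))

theorem onsup' {N : Type*} [AddCommGroup N] [Module k2 N] (F G : A →ₗ[k2] N)
    (f : A) (h : ∀ w, co w f ≠ 0 → F (wo w) = G (wo w)) : F f = G f :=
  sub_eq_zero.1 (onsup ⊥ (F - G) f fun w hw => by simp [h w hw])

theorem piY_wo (w : List Bool) : piY (wo w) = yw k2 0 w := by rw [wo_eq, piY_word]

theorem ev_piY {N : Type*} [AddCommGroup N] [Module k2 N] (a b : End k2 N) (u : N) (h : a u = 0)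
    (φ : A) : ev a b φ u = lift k2 (fun k => a ^ k * b) (piY φ) u := by
  have : ∀ w k, (a ^ k) (ev a b (wo w) u) = lift k2 (fun k => a ^ k * b) (yw k2 k w) u := by
    intro w
    induction w with
    | nil => intro k; cases k <;> simp [yw, pow_succ, h]
    | cons s w ih =>
      intro k
      cases s
      · simp [yw, ← ih, pow_succ]
      · simp [yw, yy, ← ih]
  exact onsup' (LinearMap.applyₗ u ∘ₗ (ev a b).toLinearMap)
    (LinearMap.applyₗ u ∘ₗ (lift k2 fun k => a ^ k * b).toLinearMap ∘ₗ piY) φ fun w _ => by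
      simpa [piY_wo] using this w 0

/-- the component of depth `r` -/
def cp (r : ℕ) : A →ₗ[k2] A := GAM.pr (GAM.wB 0 1) r

theorem cp_wo (r : ℕ) (w : List Bool) : cp r (wo w) = if w.count true = r then wo w else 0 := by
  have h : (w.map (GAM.wB 0 1)).sum = w.count true := by
    induction w with
    | nil => rfl
    | cons s w ih => cases s <;> simp [GAM.wB, ih, add_comm]
  rw [wo_eq, ← h]
  exact GAM.pr_H r (GAM.wrd_H _ w)

theorem co_cp (r : ℕ) (w : List Bool) (ψ : A) :
    co w (cp r ψ) = if w.count true = r then co w ψ else 0 := by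
  refine (onsup' (co w ∘ₗ cp r) (if w.count true = r then co w else 0) ψ fun u _ => ?_).trans ?_
  · simp only [LinearMap.comp_apply, cp_wo]
    by_cases h : u = w
    · subst h; split_ifs <;> simp
    · split_ifs <;> simp [CO.co_wd, h]
  · split_ifs <;> rfl

theorem lie_cp {ψ : A} (h : IsLie ψ) (r : ℕ) : IsLie (cp r ψ) := by
  have h0 : IsLie (0 : A) := LieSubalgebra.zero_mem _
  refine h.ind (P := fun ψ => ∀ r, IsLie (cp r ψ)) (fun r => ?_) (fun r => ?_) (by simpa) ?_ ?_ ?_ r
  · have := cp_wo r [false]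
    simp only [wo, wd_false, wd_nil, mul_one] at this
    rw [this]; split_ifs; exacts [LieSubalgebra.subset_lieSpan (by simp), h0]
  · have := cp_wo r [true]
    simp only [wo, wd_true, wd_nil, mul_one] at this
    rw [this]; split_ifs; exacts [LieSubalgebra.subset_lieSpan (by simp), h0]
  · intro f g _ _ h1 h2 r
    rw [map_add]; exact LieSubalgebra.add_mem _ (h1 r) (h2 r)
  · intro c f _ h1 r
    rw [map_smul]; exact LieSubalgebra.smul_mem _ _ (h1 r)
  · intro f g _ _ h1 h2 r
    have e : ∀ f g : A, cp r (f * g) = ∑ p ∈ Finset.HasAntidiagonal.antidiagonal r, cp p.1 f * cp p.2 g :=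
      fun f g => by
        change (GAM.sc _ (f * g)).coeff r = _
        rw [map_mul, coeff_mul]; rfl
    rw [map_sub, e, e, ← Finset.Nat.sum_antidiagonal_swap (f := fun p => cp p.1 g * cp p.2 f),
      ← Finset.sum_sub_distrib]
    exact sum_mem fun p _ => S39.IsLie.lie (h1 _) (h2 _)

theorem co_Y2 {ψ : A} (h : ψ ∈ Y2 k2) (w : List Bool) (hw : ¬ [true, true] <:+: w) :
    co w ψ = 0 := by
  induction h using TwoSidedIdeal.span_induction generalizing w with
  | mem f hf =>
    have := CO.co_wd (K := k2) [true, true] w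
    simp only [wd_true, wd_nil, mul_one] at this
    rw [hf, this, if_neg]
    rintro rfl
    exact hw List.infix_rfl
  | zero => simp
  | add f g _ _ h1 h2 => simp [h1 w hw, h2 w hw]
  | neg f _ h1 => simp [h1 w hw]
  | left_absorb a f _ h1 =>
    refine onsup ⊥ (co w ∘ₗ LinearMap.mulRight k2 f) a fun u _ => ?_
    refine onsup ⊥ (co w ∘ₗ LinearMap.mulLeft k2 (wo u)) f fun v hv => ?_
    change co w (wo u * wo v) = 0
    rw [← wd_append, CO.co_wd, if_neg]
    rintro rfl
    exact hv (h1 v fun h => hw (h.trans (List.suffix_append u v).isInfix))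
  | right_absorb a f _ h1 =>
    refine onsup ⊥ (co w ∘ₗ LinearMap.mulLeft k2 f) a fun u _ => ?_
    refine onsup ⊥ (co w ∘ₗ LinearMap.mulRight k2 (wo u)) f fun v hv => ?_
    change co w (wo v * wo u) = 0
    rw [← wd_append, CO.co_wd, if_neg]
    rintro rfl
    exact hv (h1 v fun h => hw (h.trans (List.prefix_append v u).isInfix))

/-- the substitution `x ↦ 0` -/
def ka : A →ₐ[k2] A := ev 0 (ly k2)

theorem ka_wo (w : List Bool) : ka (wo w) = if false ∈ w then 0 else wo w := by
  induction w with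
  | nil => simp
  | cons s w ih => cases s <;> simp [ka] at ih ⊢; split_ifs <;> simp_all

theorem ka_Sw (b : Bool) (w : List Bool) (h : false ∈ w) : ka (Sw b w) = 0 := by
  induction w generalizing b with
  | nil => simp at h
  | cons s w ih =>
    cases s
    · cases b <;> simp [Sw, ka]
    · cases b <;> simp [Sw, ih _ (by simpa using h)]

theorem Sop_wo (w : List Bool) : Sop (wo w) = Sw false w := by
  rw [wo, ← CO.basis_eq, Sop, Basis.constr_basis]; rfl

theorem has_x {ψ : A} (h : IsLie ψ) {w : List Bool} (hl : 2 ≤ w.length) (hw : co w ψ ≠ 0) :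
    false ∈ w := by
  by_contra hx
  obtain ⟨c, e⟩ : ∃ c : k2, ka ψ = c • ly k2 := by
    refine h.ind (P := fun ψ => ∃ c : k2, ka ψ = c • ly k2) ⟨0, by simp [ka]⟩ ⟨1, by simp [ka]⟩
      ⟨0, by simp⟩ ?_ ?_ ?_
    · rintro f g - - ⟨c, e⟩ ⟨d, e'⟩; exact ⟨c + d, by simp [e, e', add_smul]⟩
    · rintro a f - ⟨c, e⟩; exact ⟨a * c, by simp [e, mul_smul]⟩
    · rintro f g - - ⟨c, e⟩ ⟨d, e'⟩
      exact ⟨0, by simp [e, e', smul_smul, mul_comm]⟩
  have e1 : co w (ka ψ) = co w ψ := onsup' (co w ∘ₗ ka.toLinearMap) (co w) ψ fun u _ => by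
    change co w (ka (wo u)) = _
    rw [ka_wo]
    split_ifs with hu
    · rw [map_zero, CO.co_wd, if_neg]; rintro rfl; exact hx hu
    · rfl
  have e2 := CO.co_wd (K := k2) [true] w
  simp only [wd_true, wd_nil, mul_one] at e2
  rw [← e1, e, map_smul, e2, if_neg, smul_zero] at hw
  · exact hw rfl
  · rintro rfl; simp at hl

abbrev Lx : E := LinearMap.mulLeft k2 (lx k2)
abbrev Ly : E := LinearMap.mulLeft k2 (ly k2)
abbrev Rx : E := LinearMap.mulRight k2 (lx k2)

/-- the letter `y_(k+1)` after the translation of `x` -/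
def Ao (k : ℕ) : E := (Lx + Rx) ^ k * Ly

theorem ev_zero {B : Type*} [Ring B] [Algebra k2 B] (s : B) {f : A}
    (h : ∀ w, co w f ≠ 0 → true ∈ w) : ev s 0 f = 0 := by
  refine onsup ⊥ (ev s (0 : B)).toLinearMap f fun w hw => ?_
  have := h w hw
  clear hw
  change ev s 0 (wo w) = 0
  induction w with
  | nil => simp at this
  | cons t w ih => cases t <;> simp_all

theorem cRx : Commute Rx Lx ∧ Commute Rx Ly := by
  constructor <;> (ext1 u; simp [mul_assoc])

theorem eqA {f : A} (hL : IsLie f) (h : ∀ w, co w f ≠ 0 → true ∈ w) :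
    lift k2 Ao (piY f) 1 = f := by
  have e := hL.add_ev (a := Lx) (b := Ly) (s := Rx) (t := 0) cRx.1 cRx.2 (by simp) (by simp)
  rw [ev_zero _ h, add_zero, add_zero] at e
  rw [show Ao = fun k => (Lx + Rx) ^ k * Ly from rfl, ← ev_piY _ _ _ (by simp [two]), e]
  have := map_ev (Algebra.lmul k2 A) (lx k2) (ly k2) f
  rw [ev_self] at this
  change ev (Algebra.lmul k2 A (lx k2)) (Algebra.lmul k2 A (ly k2)) f 1 = f
  rw [← this]; simp

def Xo : End k2 (A × A) := (Lx ∘ₗ LinearMap.snd _ _ _).prod (Lx ∘ₗ LinearMap.snd _ _ _)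
def Yo : End k2 (A × A) :=
  (LinearMap.mulLeft k2 (ly k2 + 1) ∘ₗ LinearMap.fst _ _ _).prod (Ly ∘ₗ LinearMap.fst _ _ _)
def To : End k2 (A × A) := LinearMap.prodMap Rx Rx

theorem XT_pow (k : ℕ) (p q : A) : ((Xo + To) ^ k) (p, q) =
    (((Lx + Rx) ^ k) q + (Rx ^ k) (p + q), ((Lx + Rx) ^ k) q) := by
  induction k with
  | zero => simp [add_comm p q, ← add_assoc, two]
  | succ k ih =>
    simp only [pow_succ', End.mul_apply, ih]
    simp [Xo, To, add_mul, add_assoc]

theorem eqS {f : A} (hL : IsLie f) (h : ∀ w, co w f ≠ 0 → true ∈ w) :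
    lift k2 (fun k => Rx ^ k + Ao k) (piY f) 1 = Sop f := by
  have e := hL.add_ev (a := Xo) (b := Yo) (s := To) (t := 0)
    (LinearMap.ext fun u => by simp [Xo, To, mul_assoc])
    (LinearMap.ext fun u => by simp [Yo, To, mul_assoc]) (by simp) (by simp)
  rw [ev_zero _ h, add_zero, add_zero] at e
  have e1 : ∀ (p : FN k2) (v : A × A), (lift k2 (fun k => (Xo + To) ^ k * Yo) p v).1 =
      lift k2 (fun k => Rx ^ k + Ao k) p v.1 := fun p => by
    induction p using FreeAlgebra.induction with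
    | grade0 r => simp
    | grade1 k =>
      intro v
      have : (ly k2 + 1) * v.1 + ly k2 * v.1 = v.1 := by
        rw [add_mul, add_right_comm, two, zero_add, one_mul]
      simp only [lift_ι_apply, End.mul_apply, Yo, LinearMap.prod_apply, Function.prod,
        LinearMap.comp_apply, LinearMap.fst_apply, LinearMap.mulLeft_apply, XT_pow, this, Ao,
        LinearMap.add_apply]
      exact add_comm _ _
    | mul f g h1 h2 => simp [h1, h2]
    | add f g h1 h2 => simp [h1, h2]
  have e2 : ∀ w, ev Xo Yo (wo w) (1, 1) = (Sw false w, Sw true w) := fun w => by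
    induction w with
    | nil => simp [Sw]
    | cons s w ih =>
      cases s <;> simp only [wo, wd_false, wd_true, map_mul, End.mul_apply, ih, ev_x, ev_y] <;> rfl
  rw [← e1 _ (1, 1), ← ev_piY _ _ _ (by simp [Xo, To, two]), e]
  exact onsup' (LinearMap.fst _ _ _ ∘ₗ LinearMap.applyₗ (1, 1) ∘ₗ (ev Xo Yo).toLinearMap) Sop f
    fun w _ => by simp [e2, Sop_wo]

theorem eqB (k : ℕ) (w : List Bool) (u : A) : ∃ c : k2,
    lift k2 (fun k => Rx ^ k) (yw k2 k w) u = c • (u * lx k2 ^ (k + w.count false)) := by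
  induction w generalizing k with
  | nil => by_cases h : k = 0; exacts [⟨1, by simp [yw, h]⟩, ⟨0, by simp [yw, h]⟩]
  | cons s w ih =>
    cases s
    · obtain ⟨c, e⟩ := ih (k + 1)
      exact ⟨c, by rw [yw, e]; simp [add_assoc, add_comm 1]⟩
    · obtain ⟨c, e⟩ := ih 0
      exact ⟨c, by
        rw [yw, yy, map_mul, End.mul_apply, e]; simp [mul_assoc, ← pow_add, add_comm k]⟩

theorem low (φ : FN k2 →ₐ[k2] E[X]) (T : ℕ → E)
    (h : ∀ k, ∃ p, φ (ι k2 k) = X * p ∧ p.coeff 0 = T k) {ψ : A} {r : ℕ}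
    (hr : ∀ w, co w ψ ≠ 0 → r ≤ w.count true) :
    (φ (piY ψ)).coeff r = lift k2 T (piY (cp r ψ)) := by
  have e : ∀ w k, ∃ p, φ (yw k2 k w) = X ^ w.count true * p ∧
      p.coeff 0 = lift k2 T (yw k2 k w) := fun w => by
    induction w with
    | nil => intro k; by_cases h : k = 0; exacts [⟨1, by simp [yw, h]⟩, ⟨0, by simp [yw, h]⟩]
    | cons s w ih =>
      intro k
      cases s
      · simpa [yw] using ih (k + 1)
      · obtain ⟨p, e, e'⟩ := ih 0
        obtain ⟨q, d, d'⟩ := h k
        refine ⟨q * p, ?_, by simp [yw, yy, e', d']⟩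
        simp only [yw, yy, map_mul, e, d, List.count_cons_self, pow_succ', mul_assoc]
        rw [← mul_assoc q, ← X_pow_mul, mul_assoc]
  let co' : E[X] →ₗ[k2] E := ⟨⟨fun p => p.coeff r, by simp⟩, by simp⟩
  refine onsup' (co' ∘ₗ φ.toLinearMap ∘ₗ piY) ((lift k2 T).toLinearMap ∘ₗ piY ∘ₗ cp r) ψ
    fun w hw => ?_
  obtain ⟨p, e, e'⟩ := e w 0
  change (φ (piY (wo w))).coeff r = lift k2 T (piY (cp r (wo w)))
  rw [piY_wo, e, cp_wo, coeff_X_pow_mul']
  have := hr w hw
  by_cases h : w.count true = r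
  · simp [h, e', piY_wo]
  · rw [if_neg (by omega), if_neg h]; simp

def al : FN k2 →ₐ[k2] E[X] := lift k2 fun k => X * C (Ao k)
def be : FN k2 →ₐ[k2] E[X] := lift k2 fun k => X * C (Rx ^ k)

theorem com {a : E[X]} {T : ℕ → E[X]} (h : ∀ k, Commute a (T k)) (p : FN k2) :
    Commute a (lift k2 T p) := by
  induction p using FreeAlgebra.induction with
  | grade0 r => rw [AlgHom.commutes]; exact (Algebra.commutes r a).symm
  | grade1 k => simpa using h k
  | mul f g h1 h2 => rw [map_mul]; exact h1.mul_right h2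
  | add f g h1 h2 => rw [map_add]; exact h1.add_right h2

theorem cXC {a b : E} (h : Commute a b) : Commute (C a) (X * C b) :=
  (commute_X _).symm.mul_right (h.map C)

theorem cba (p q : FN k2) : Commute (be p) (al q) :=
  com (fun _ => (com (fun j => ((commute_X _).mul_left (cXC
    ((((cRx.1.add_right (Commute.refl _)).pow_right _).mul_right cRx.2).pow_left j).symm))) p).symm) q

def ga : FN k2 ⊗[k2] FN k2 →ₐ[k2] E[X] := Algebra.TensorProduct.lift be al cba

theorem ga_jj (c : k2[X] ⊗[k2] k2[X]) :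
    Commute (C ka.toLinearMap) (ga (Algebra.TensorProduct.map jj jj c)) := by
  have h : ∀ (φ : FN k2 →ₐ[k2] E[X]) (p : k2[X]), Commute (C ka.toLinearMap) (φ (ι k2 0)) →
      Commute (C ka.toLinearMap) (φ (jj p)) := fun φ p h => by
    induction p using Polynomial.induction_on' with
    | add p q h1 h2 => simpa using h1.add_right h2
    | monomial n a =>
      simp only [jj, aeval_monomial, map_mul, AlgHom.commutes, map_pow]
      exact Commute.mul_right (Algebra.commutes a _).symm (h.pow_right n)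
  induction c using TensorProduct.induction_on with
  | zero => simp
  | add p q h1 h2 => simpa using h1.add_right h2
  | tmul p q =>
    simp only [ga, Algebra.TensorProduct.map_tmul, Algebra.TensorProduct.lift_tmul]
    refine (h be p ?_).mul_right (h al q ?_)
    · simpa only [be, lift_ι_apply] using cXC (by simp)
    · simp only [al, lift_ι_apply]
      exact cXC (LinearMap.ext fun u => by simp [Ao, ka])

theorem shift {n r : ℕ} {ψ : A} (h : D2 n ψ) (hr : ∀ w, co w ψ ≠ 0 → r ≤ w.count true)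
    (hx : ∀ w, co w (cp r ψ) ≠ 0 → w.count false = n - r ∧ true ∈ w ∧ false ∈ w)
    (hn : r < n) : ∃ c : k2, Sop (cp r ψ) = cp r ψ + c • lx k2 ^ (n - r) := by
  obtain ⟨c, e⟩ := h.st
  have hL := lie_cp h.lie r
  have e1 := low (ga.comp (dst k2)) (fun k => Rx ^ k + Ao k) (fun k => ⟨C (Rx ^ k) +
    ∑ p ∈ Finset.HasAntidiagonal.antidiagonal k, be (yy k2 p.1) * C (Ao p.2), ?_, ?_⟩) hr
  · have e2 := low al Ao (fun k => ⟨_, lift_ι_apply _ _, coeff_C_zero⟩) hr
    have e3 := low be (fun k => Rx ^ k) (fun k => ⟨_, lift_ι_apply _ _, coeff_C_zero⟩) hr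
    have e4 := congrArg (fun p => (ga p).coeff r 1) e
    have e5 := congrArg (fun p : E[X] => p.coeff r 1) (ga_jj c).eq
    simp only [coeff_C_mul, coeff_mul_C, End.mul_apply, AlgHom.toLinearMap_apply, map_one] at e5
    simp only [AlgHom.comp_apply] at e1
    simp only [e1, map_add, coeff_add, LinearMap.add_apply] at e4
    rw [show ga (piY ψ ⊗ₜ 1) = be (piY ψ) by simp [ga], show ga (1 ⊗ₜ piY ψ) = al (piY ψ) by
      simp [ga], e2, e3, eqS hL fun w hw => (hx w hw).2.1, eqA hL fun w hw => (hx w hw).2.1] at e4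
    obtain ⟨d, e6⟩ := Submodule.mem_span_singleton.1 (onsup (Submodule.span k2 {lx k2 ^ (n - r)})
      (LinearMap.applyₗ 1 ∘ₗ (lift k2 fun k => Rx ^ k).toLinearMap ∘ₗ piY) (cp r ψ) fun w hw => by
        obtain ⟨d, e⟩ := eqB 0 w 1
        rw [one_mul, zero_add, (hx w hw).1, ← piY_wo] at e
        exact Submodule.mem_span_singleton.2 ⟨d, e.symm⟩)
    change _ = lift k2 (fun k => Rx ^ k) (piY (cp r ψ)) 1 at e6
    rw [← e6] at e4
    have e7 := congrArg ka e4
    have e8 : ka (Sop (cp r ψ)) = 0 := onsup ⊥ (ka.toLinearMap ∘ₗ Sop) _ fun w hw => by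
      simp [Sop_wo, ka_Sw _ _ (hx w hw).2.2]
    have e9 : ka (cp r ψ) = 0 := onsup ⊥ ka.toLinearMap _ fun w hw => by
      simp [ka_wo, (hx w hw).2.2]
    rw [map_add, map_add, e5, e8, e9, map_smul, map_pow, show ka (lx k2) = 0 by simp [ka],
      zero_pow (by omega), smul_zero, zero_add, zero_add] at e7
    exact ⟨d, by rw [e4, ← e7, add_zero, add_comm]⟩
  · simp only [AlgHom.comp_apply, dst_ι, map_add, map_sum, ga, Algebra.TensorProduct.lift_tmul,
      map_one, mul_one, mul_add, Finset.mul_sum]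
    congr 1
    · exact lift_ι_apply _ _
    · refine Finset.sum_congr rfl fun p _ => ?_
      rw [al, lift_ι_apply, ← mul_assoc, ← X_mul, mul_assoc]
  · rw [coeff_add, coeff_C_zero, finsetSum_coeff, Finset.sum_eq_single (0, k)]
    · simp [yy]
    · rintro ⟨_ | i, j⟩ h1 h2
      · simp_all
      · simp [yy, be]
    · simp

end B25

open B25 in
theorem st_A1_of_core (hc : St_CORE65) : St_A1 := by
  intro n ψ hn h hY
  by_contra h0
  have hex : ∃ r, ∃ w : List Bool, co w ψ ≠ 0 ∧ w.count true = r := by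
    by_contra hh
    exact h0 (CO.ext_co fun w => by_contra fun hw => hh ⟨_, w, by simpa using hw, rfl⟩)
  classical
  obtain ⟨w₀, hw₀, hr⟩ := Nat.find_spec hex
  have hl : ∀ w, co w ψ ≠ 0 → w.length = n := fun w hw => by_contra fun e =>
    hw (CO.co_of_mem h.hom e)
  have hx : ∀ w, co w ψ ≠ 0 → false ∈ w := fun w hw => has_x h.lie (by rw [hl w hw]; omega) hw
  have hf : ∀ w, co w (cp (Nat.find hex) ψ) ≠ 0 → co w ψ ≠ 0 ∧ w.count true = Nat.find hex :=
    fun w hw => by
      rw [co_cp] at hw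
      split_ifs at hw with e
      exacts [⟨hw, e⟩, absurd rfl hw]
  obtain ⟨c, e⟩ := shift (r := Nat.find hex) h (fun w hw => Nat.find_min' hex ⟨w, hw, rfl⟩)
    (fun w hw => by
      obtain ⟨h1, h2⟩ := hf w hw
      have := w.count_false_add_count_true
      refine ⟨by have := hl w h1; omega, ?_, hx w h1⟩
      exact (by_contra fun hh => h1 (co_Y2 hY w hh) : [true, true] <:+: w).subset (by simp))
    (by
      have := w₀.count_false_add_count_true
      have := List.count_pos_iff.2 (hx w₀ hw₀)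
      have := hl w₀ hw₀
      omega)
  have := hc _ (Nat.find hex) _ c (lie_cp h.lie _) (fun w hw => ⟨(hf w hw).2, hx w (hf w hw).1⟩)
    (fun w hw => by rw [co_cp, co_Y2 hY w hw, ite_self]) e
  have e2 := co_cp (Nat.find hex) w₀ ψ
  rw [this, if_pos hr, map_zero] at e2
  exact hw₀ e2.symm

end Pool.Agent.DD.F
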