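import Pool.Agent.Lib.DD.F_CO
import Pool.Agent.Lib.DD.A1D65

/-! Blueprint: `St_CORE65` cut into rows (polynomials in the `y`-runs are evaluated on walks in
commutative rings of characteristic 2). -/

set_option autoImplicit false

noncomputable section

namespace Pool.Agent.DD.F.A1

open Pool.Agent.DR Pool.Agent.DD.S39 TensorProduct FreeAlgebra

abbrev F2 : Type := ZMod 2

abbrev P : Type := List ℕ →₀ F2

section walk

variable {A : Type} [CommRing A]

def mon : List ℕ → List A → A
  | [], [] => 1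
  | e :: es, s :: ss => s ^ e * mon es ss
  | _, _ => 0

def rho : ℕ → A → A
  | 0, _ => 1
  | e + 1, s => s ^ (e + 1) + s ^ e

/-- all slots twisted -/
def monE : List ℕ → List A → A
  | [], [] => 1
  | e :: es, s :: ss => rho e s * monE es ss
  | _, _ => 0

/-- all slots but the first twisted -/
def monH : List ℕ → List A → A
  | e :: es, s :: ss => s ^ e * monE es ss
  | _, _ => 0

/-- all slots but the last twisted -/
def monL : List ℕ → List A → A
  | [e], [s] => s ^ e
  | e :: e' :: es, s :: ss => rho e s * monL (e' :: es) ss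
  | _, _ => 0

/-- all slots but the first and the last twisted (at least two slots) -/
def monO : List ℕ → List A → A
  | e :: es, s :: ss => s ^ e * monL es ss
  | _, _ => 0

def Bit (t : List A) : Prop := ∀ a ∈ t, a = 0 ∨ a = 1

/-- the sums of positions along the lattice paths in `(a :: s) × (b :: t)`, without the starting
point `a + b` -/
def paths : A → List A → A → List A → List (List A)
  | a, [], _, t => [t.map (a + ·)]
  | _, a' :: s, b, [] => [(a' :: s).map (· + b)]
  | a, a' :: s, b, b' :: t =>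
    (paths a' s b (b' :: t)).map ((a' + b) :: ·) ++ (paths a (a' :: s) b' t).map ((a + b') :: ·)
termination_by _ s _ t => s.length + t.length

def psum (Φ : List A → A) (a : A) (s : List A) (b : A) (t : List A) : A :=
  ((paths a s b t).map Φ).sum

theorem psum_nil_left (Φ : List A → A) (a b : A) (t : List A) :
    psum Φ a [] b t = Φ (t.map (a + ·)) := by simp [psum, paths]

theorem psum_nil_right (Φ : List A → A) (a b : A) (s : List A) :
    psum Φ a s b [] = Φ (s.map (· + b)) := by cases s <;> simp [psum, paths]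

theorem psum_cons (Φ : List A → A) (a a' b b' : A) (s t : List A) :
    psum Φ a (a' :: s) b (b' :: t) = psum (fun w => Φ ((a' + b) :: w)) a' s b (b' :: t) +
      psum (fun w => Φ ((a + b') :: w)) a (a' :: s) b' t := by
  simp [psum, paths, Function.comp_def]

variable [Algebra F2 A]

/-- the value of a polynomial for a chosen kind of monomials -/
def vl (m : List ℕ → List A → A) (p : P) (s : List A) : A :=
  Finsupp.linearCombination F2 (fun e => m e s) p

theorem vl_eq (m : List ℕ → List A → A) (p : P) (s : List A) :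
    vl m p s = ∑ e ∈ p.support, p e • m e s := by
  rw [vl, Finsupp.linearCombination_apply, Finsupp.sum]

theorem two0 (a : A) : a + a = 0 := by
  rw [← two_smul F2, show (2 : F2) = 0 from rfl, zero_smul]

end walk

def ML (Q : List ℕ) : Prop := ∀ i ∈ Q, i ≤ 1

def Hom (p : P) (m r : ℕ) : Prop := ∀ e, p e ≠ 0 → e.length = m ∧ e.sum = r

def InvL (β : F2) (p : P) : Prop := ∀ (A : Type) [CommRing A] [Algebra F2 A] (s t : List A),
  t ≠ [] → Bit t → psum (vl monL p) (algebraMap F2 A β) s 0 t = 0

def InvO (g : P) : Prop := ∀ (A : Type) [CommRing A] [Algebra F2 A] (σ : A) (s t : List A),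
  t ≠ [] → Bit t → psum (fun w => vl monO g (σ :: w)) σ s 0 t = 0

/-- translation invariance -/
def Tr (p : P) : Prop := ∀ (A : Type) [CommRing A] [Algebra F2 A] (s : List A) (b : A),
  2 ≤ s.length → vl mon p (s.map (· + b)) = vl mon p s

/-- shuffle relations -/
def Sh (p : P) : Prop := ∀ (A : Type) [CommRing A] [Algebra F2 A] (a b : A) (s t : List A),
  s ≠ [] → t ≠ [] → psum (fun w => vl mon p ((a + b) :: w)) a s b t = 0

/-- the lengths of the runs of `y` -/
def runs : List Bool → List ℕ
  | [] => [0]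
  | false :: w => 0 :: runs w
  | true :: w => (runs w).modifyHead (· + 1)

def cY : FA F2 →ₗ[F2] P :=
  (basisFreeMonoid F2 Bool).constr F2 fun w => Finsupp.single (runs w.toList) 1

theorem cY_wd (w : List Bool) : cY (wd (lx F2) (ly F2) w) = Finsupp.single (runs w) 1 := by
  rw [← CO.basis_eq, cY, Module.Basis.constr_basis]; rfl

/-- naturality under ring maps -/
def St_NAT : Prop := ∀ (A B : Type) [CommRing A] [Algebra F2 A] [CommRing B] [Algebra F2 B]
  (φ : A →+* B),
  (∀ (p : P) (s : List A), φ (vl mon p s) = vl mon p (s.map φ) ∧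
    φ (vl monE p s) = vl monE p (s.map φ) ∧ φ (vl monL p s) = vl monL p (s.map φ) ∧
    φ (vl monO p s) = vl monO p (s.map φ)) ∧
  ∀ (Φ : List A → A) (Φ' : List B → B), (∀ w, φ (Φ w) = Φ' (w.map φ)) →
    ∀ (a b : A) (s t : List A), φ (psum Φ a s b t) = psum Φ' (φ a) (s.map φ) (φ b) (t.map φ)

/-- a small word is read off from the values at bit vectors -/
def St_MOB : Prop := ∀ (A : Type) [CommRing A] [Algebra F2 A] (Q : List ℕ), ML Q →
  ∃ T : List (List A), (∀ τ ∈ T, Bit τ ∧ τ.length = Q.length) ∧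
    ∀ e : List ℕ, (T.map (monE e)).sum = if e = Q then 1 else 0

def St_INJ : Prop := ∀ (p : P) (m : ℕ),
  (∀ (A : Type) [CommRing A] [Algebra F2 A] (s : List A), s.length = m → vl mon p s = 0) →
  ∀ e : List ℕ, e.length = m → p e = 0

def St_SH : Prop := ∀ f : FA F2, IsLie f → Tr (cY f) ∧ Sh (cY f)

def St_BAS : Prop := (∀ (f : FA F2) (w : List Bool), cY f (runs w) = co w f) ∧
  (∀ f : FA F2, cY f [] = 0) ∧ (∀ e : List ℕ, e ≠ [] → ∃ w, runs w = e) ∧
  (∀ w, (runs w).sum = w.count true ∧ (runs w).length = w.count false + 1) ∧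
  ∀ w, ML (runs w) → ¬ [true, true] <:+: w

def St_DEL : Prop := ∀ (A : Type) [CommRing A] [Algebra F2 A] (s : List A),
  (∀ f : FA F2, vl mon (cY (Sop f)) (s.map (· + 1)) = vl monH (cY f) s) ∧
  ∀ n : ℕ, vl mon (cY (lx F2 ^ n)) s = if s.length = n + 1 then 1 else 0

def St_REV : Prop := ∀ f : FA F2, IsLie f → ∀ (A : Type) [CommRing A] [Algebra F2 A] (s : List A),
  vl monL (cY f) s = vl monH (cY f) s.reverse ∧ vl mon (cY f) s.reverse = vl mon (cY f) s

def St_I0 : Prop := ∀ (β : F2) (m r : ℕ) (p : P), Hom p m r → InvL β p →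
  ∀ (Q : List ℕ) (e : ℕ), ML Q → p (Q ++ [e]) = 0

def St_I1 : Prop := ∀ (β : F2) (p g : P) (Q : List ℕ),
  (∀ e, p e ≠ 0 → Q.length + 2 ≤ e.length) → InvL β p →
  (∀ Q' e, ML Q' → Q'.length = Q.length + 1 → p (Q' ++ e) = 0) → ML Q →
  (∀ i e, g (i :: e) = p (Q ++ (i + 2) :: e)) → InvO g

def St_I2 : Prop := ∀ (g q : P) (i : ℕ), InvO g → (∀ i' e, i' < i → g (i' :: e) = 0) →
  (∀ e, q e = g (i :: e)) → InvL 0 q

def St_I : Prop := ∀ (m r : ℕ) (β : F2) (p : P), 1 ≤ m → Hom p m r → InvL β p → p = 0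

/-- the end of the proof, on coefficient functions -/
def St_END : Prop := ∀ (Ψ : P) (m r : ℕ) (κ : F2), 1 ≤ m → Tr Ψ → Sh Ψ →
  (∀ e, Ψ e ≠ 0 → e.sum = r) → (∀ Q, ML Q → Ψ Q = 0) →
  (∀ (A : Type) [CommRing A] [Algebra F2 A] (s : List A), s.length = m + 1 →
    vl monL Ψ s = vl mon Ψ s + algebraMap F2 A κ) →
  ∀ e : List ℕ, e.length = m + 1 → Ψ e = 0

theorem core_of (hS : St_SH) (hB : St_BAS) (hD : St_DEL) (hR : St_REV) (hE : St_END) :
    St_CORE65 := by
  intro f r n c hl hb hz hc
  obtain ⟨b1, b2, b3, b4, b5⟩ := hB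
  obtain ⟨hT, hSh⟩ := hS f hl
  have hrun : ∀ e, cY f e ≠ 0 → ∃ w, runs w = e ∧ co w f ≠ 0 := fun e he => by
    obtain ⟨w, rfl⟩ := b3 e (by rintro rfl; exact he (b2 f))
    exact ⟨w, rfl, b1 f w ▸ he⟩
  refine CO.ext_co fun w => ?_
  rw [map_zero]
  by_contra hw
  have h1 : 1 ≤ w.count false := List.count_pos_iff.2 (hb w hw).2
  refine hw (b1 f w ▸ hE (cY f) (w.count false) r (if w.count false = n then c else 0) h1 hT hSh
    (fun e he => ?_) (fun Q hQ => ?_) (fun A _ _ s hs => ?_) _ (b4 w).2)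
  · obtain ⟨u, rfl, hu⟩ := hrun e he
    rw [(b4 u).1, (hb u hu).1]
  · by_contra h
    obtain ⟨u, rfl, hu⟩ := hrun Q h
    exact hu (hz u (b5 u hQ))
  · have e1 := (hD A s.reverse).1 f
    have e2 := (hD A (s.reverse.map (· + 1))).2 n
    have e3 := hT A s.reverse 1 (by simp; omega)
    rw [(hR f hl A s).1, ← e1, hc, ← (hR f hl A s).2, ← e3]
    simp only [vl, map_add, map_smul] at e2 ⊢
    rw [e2]
    simp only [List.length_map, List.length_reverse, hs, Nat.add_right_cancel_iff]
    split_ifs <;> simp [Algebra.algebraMap_eq_smul_one]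

theorem rlz : True := by
  have := @mon.eq_def
  have := @rho.eq_def
  have := @monE.eq_def
  have := @monH.eq_def
  have := @monL.eq_def
  have := @monO.eq_def
  have := @paths.eq_def
  have := @runs.eq_def
  have := @Sw.eq_def
  have := @paths.induct
  have := @monL.induct
  have := @mon.induct
  have := @monE.induct
  have := @runs.induct
  trivial

end Pool.Agent.DD.F.A1
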