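import Pool.Agent.Lib.DD.A1C1b

/-! The combinatorial core of the first statement modulo 2, by a matrix representation. -/

set_option autoImplicit false

noncomputable section

namespace Pool.Agent.DD.C1

open Finsupp Pool.Agent.DD.F Pool.Agent.DD.S39 Pool.Agent.DD.F64 FreeAlgebra

abbrev M := Matrix (Fin 2) (Fin 2) B

def Ph : FA K →ₐ[K] M := ev !![g false, g true; g true, g false] !![Y + 1, Y; Y, Y]

def act (z : B × B) : M →ₗ[K] B × B where
  toFun m := (z.1 * m 0 0 + z.2 * m 1 0, z.1 * m 0 1 + z.2 * m 1 1)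
  map_add' u v := by ext <;> simp [mul_add] <;> abel
  map_smul' r u := by ext <;> simp

theorem act_ap (z : B × B) (m : M) :
    act z m = (z.1 * m 0 0 + z.2 * m 1 0, z.1 * m 0 1 + z.2 * m 1 1) := rfl

theorem act_mul (z : B × B) (m n : M) : act z (m * n) = act (act z m) n := by
  ext <;> simp [act_ap, Matrix.mul_apply, mul_add, add_mul, mul_assoc] <;> abel

theorem act_one (z : B × B) : act z 1 = z := by ext <;> simp [act_ap]

theorem act_x (z : B × B) : act z (Ph (lx K)) = mx z := by simp [act_ap, Ph, mx_ap]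

theorem act_y (z : B × B) : act z (Ph (ly K)) = my z + z := by
  rw [my_add]
  ext <;> simp [act_ap, Ph, mul_add, add_mul]
  abel

theorem act_y1 (z : B × B) : act z (Ph (ly K + 1)) = my z := by
  rw [map_add, map_add, map_one, act_y, act_one, add_assoc, two, add_zero]

def hd : List Bool → Bool
  | false :: _ => true
  | _ => false

theorem act_Sw (e : K) (w : List Bool) :
    ∀ u, act (W e u) (Ph (Sw (hd u) w)) = W e (w.reverse ++ u) := by
  induction w with
  | nil => intro u; simp [Sw, act_one]
  | cons s w ih =>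
    intro u
    rw [List.reverse_cons, List.append_assoc, ← ih]
    cases s
    · rw [Sw, map_mul, act_mul, act_x]; rfl
    · rcases u with _ | ⟨_ | _, u⟩
      · rw [show hd [] = false from rfl, Sw, map_mul, act_mul, act_y1]; rfl
      · rw [show hd (false :: u) = true from rfl, Sw, map_mul, act_mul, act_y]; rfl
      · rw [show hd (true :: u) = false from rfl, Sw, map_mul, act_mul, act_y1]; rfl

theorem prim_g (s : Bool) : Prim (g s) := by simp [Prim]
theorem prim_Y : Prim Y := by simp [Prim]
theorem prim_0 : Prim 0 := by simp [Prim]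

theorem lie_Ph {f : FA K} (h : IsLie f) : ∃ u v, Prim u ∧ Prim v ∧
    Ph f = !![u + v + ev (0 : K) 1 f • 1, v; v, u + v] := by
  refine h.ind (P := fun f => ∃ u v, Prim u ∧ Prim v ∧
    Ph f = !![u + v + ev (0 : K) 1 f • 1, v; v, u + v]) ?_ ?_ ?_ ?_ ?_ ?_
  · exact ⟨_, _, (prim_g false).add (prim_g true), prim_g true, by simp [Ph, add_assoc, two]⟩
  · exact ⟨_, _, prim_0, prim_Y, by simp [Ph]⟩
  · exact ⟨_, _, prim_0, prim_0, by ext i j; fin_cases i <;> fin_cases j <;> simp⟩
  · rintro f f' - - ⟨u, v, h1, h2, h3⟩ ⟨u', v', h4, h5, h6⟩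
    refine ⟨_, _, h1.add h4, h2.add h5, ?_⟩
    rw [map_add, h3, h6]
    ext i j; fin_cases i <;> fin_cases j <;> simp [add_smul] <;> abel
  · rintro r f - ⟨u, v, h1, h2, h3⟩
    refine ⟨_, _, h1.smul r, h2.smul r, ?_⟩
    rw [map_smul, h3]
    ext i j; fin_cases i <;> fin_cases j <;> simp [smul_smul]
  · rintro f f' - - ⟨u, v, h1, h2, h3⟩ ⟨u', v', h4, h5, h6⟩
    refine ⟨_, _, (h1.br h4).add ((h5.smul (ev (0 : K) 1 f)).add (h2.smul (ev (0 : K) 1 f'))),
      ((h1.br h5).add (h2.br h4)).add ((h5.smul (ev (0 : K) 1 f)).add (h2.smul (ev (0 : K) 1 f'))),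
      ?_⟩
    rw [map_sub, map_mul, map_mul, h3, h6, map_sub, map_mul, map_mul, mul_comm (ev 0 1 f'),
      sub_self]
    generalize ev (0 : K) 1 f = e
    generalize ev (0 : K) 1 f' = e'
    have n : ∀ a : B, -a = a := fun a => neg_eq_of_add_eq_zero_left (two a)
    ext i j
    fin_cases i <;> fin_cases j <;>
      simp [Matrix.mul_apply, mul_add, add_mul, sub_eq_add_neg, n, smul_smul, mul_comm e']
    · linear_combination (norm := abel) two (v * v') + two (v' * v) + two ((e * e') • (1 : B)) +
        two (e • u') + two (e' • u) + two (e • v') + two (e' • v) -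
        two (e • u') - two (e' • u) - two (e • v') - two (e' • v) + two (e • u') + two (e' • u)
    · linear_combination (norm := abel) two (v * v') + two (v' * v)
    · linear_combination (norm := abel) two (v * v') + two (v' * v)
    · linear_combination (norm := abel) two (v * v') + two (v' * v) - two (e • v') - two (e' • v)

theorem fext {N : Type*} [AddCommGroup N] [Module K N] (F : FA K →ₗ[K] N) (f : FA K)
    (h : ∀ l, co l f ≠ 0 → F (l.map (ι K)).prod = 0) : F f = 0 := by
  rw [← (basisFreeMonoid K Bool).linearCombination_repr f, linearCombination_apply, map_finsuppSum]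
  refine Finset.sum_eq_zero fun w hw => ?_
  beta_reduce
  rw [map_smul, ← FreeMonoid.ofList_toList w, bas, h w.toList (mem_support_iff.1 hw), smul_zero]

def toV : FA K →ₗ[K] V :=
  lmapDomain K K (fun w : FreeMonoid Bool => w.toList.reverse) ∘ₗ
    (basisFreeMonoid K Bool).repr.toLinearMap

theorem toV_ap (f : FA K) (l : List Bool) : toV f l = co l.reverse f := by
  have := mapDomain_apply (f := fun w : FreeMonoid Bool => w.toList.reverse)
    (List.reverse_injective.comp FreeMonoid.toList.injective) ((basisFreeMonoid K Bool).repr f)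
    (FreeMonoid.ofList l.reverse)
  simpa [toV, co] using this

theorem Sop_w (l : List Bool) : Sop (l.map (ι K)).prod = Sw false l := by
  rw [← bas, Sop, Module.Basis.constr_basis]; rfl

theorem WL_toV (e : K) (f : FA K) : WL e (toV f) = act (W e []) (Ph (Sop f)) :=
  LinearMap.congr_fun (lext (F := WL e ∘ₗ toV) (G := act (W e []) ∘ₗ Ph.toLinearMap ∘ₗ Sop)
    fun l => by
      have := act_Sw e l []
      simp only [LinearMap.comp_apply, Sop_w, AlgHom.toLinearMap_apply]
      rw [← bas]
      simpa [toV, hd] using this.symm) f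

theorem ev_Sw (w : List Bool) : ∀ b, [true, true] <:+: w → ev (1 : K) 1 (Sw b w) = 0 := by
  induction w with
  | nil => simp
  | cons s w ih =>
    intro b h
    have h2 : (1 : K) + 1 = 0 := rfl
    rcases List.infix_cons_iff.1 h with ⟨t, ht⟩ | h'
    · obtain ⟨rfl, rfl⟩ := List.cons.inj ht
      cases b <;> simp [Sw, h2]
    · cases s <;> cases b <;> simp [Sw, ih _ h']

theorem not_infix (Q : List Bool) : ¬ [true, true] <:+: pre Q := by
  induction Q with
  | nil => simp [pre]
  | cons s Q ih => cases s <;> simp [pre, List.infix_cons_iff, ih]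

theorem stCORE1 : St_CORE65 := by
  intro f r n c hL hr hZ hS
  have hyy : ∀ l, co l f ≠ 0 → [true, true] <:+: l := fun l hl => by
    by_contra h; exact hl (hZ l h)
  have e1 : ev (0 : K) 1 f = 0 := fext (ev (0 : K) 1).toLinearMap f fun l hl => by
    obtain ⟨a, b, rfl⟩ := List.append_of_mem (hr l hl).2
    simp [← lx.eq_1]
  have e2 : ev (1 : K) 0 f = 0 := fext (ev (1 : K) 0).toLinearMap f fun l hl => by
    obtain ⟨a, b, rfl⟩ := hyy l hl
    simp [← ly.eq_1]
  have e3 : ev (1 : K) 1 f = 0 := by
    simpa [e1, e2] using hL.add_ev (a := (1 : K)) (b := 0) (s := 0) (t := 1) (.all _ _) (.all _ _)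
      (.all _ _) (.all _ _)
  have e4 : ev (1 : K) 1 (Sop f) = 0 := fext ((ev (1 : K) 1).toLinearMap ∘ₗ Sop) f fun l hl => by
    simpa [Sop_w] using ev_Sw l false (hyy l hl)
  obtain rfl : c = 0 := by simpa [hS, e3] using e4
  obtain ⟨u, v, hu, -, h⟩ := lie_Ph hL
  rw [zero_smul, add_zero] at hS
  have h1 : ∀ i, cp i (WL 1 (toV f)) = u := fun i => by
    rw [WL_toV, hS, h]
    cases i <;> simp [act_ap, W, e1, add_assoc, two]
    rw [add_comm u, ← add_assoc, two, zero_add]
  have h0 : cp false (WL 0 (toV f)) + cp true (WL 0 (toV f)) = u := by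
    rw [WL_toV, hS, h]
    simp [act_ap, W, e1, add_assoc, two]
  have h2 := fun t => (trail 0 (LinearMap.ker ep.toLinearMap) t (toV f)).2 fun i Q _ => by
    cases i
    · refine (sext (ep.toLinearMap ∘ₗ cp false ∘ₗ WL 0) (lapply []) _ fun l _ => ?_).trans ?_
      · by_cases hl : l = [] <;> simp [ep_W1, hl]
      · simpa [toV_ap] using hZ _ fun h => not_infix Q (List.reverse_infix.1 h)
    · exact sext (ep.toLinearMap ∘ₗ cp true ∘ₗ WL 0) 0 _ fun l _ => by simp [ep_W2]
  have hz := core ((toV f).support.sup (·.count false) + 1) (toV f)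
    (fun l l' h1 h2 => by
      rw [toV_ap] at h1 h2
      simpa using (hr _ h1).1.trans (hr _ h2).1.symm)
    (fun l hl => Nat.lt_succ_of_le (Finset.le_sup (f := (·.count false)) (mem_support_iff.2 hl)))
    ⟨fun i w => by
      rw [h1, ← h0, map_add, map_add]
      exact (congrArg₂ _ (h2 _ false w rfl) (h2 _ true w rfl)).trans (add_zero _),
    fun w hw i => by
      simp only [h1] at hw ⊢
      simpa using hu.quot 0 w (by simpa using hw i)⟩
  refine fext LinearMap.id f fun l hl => absurd ?_ hl
  simpa [hz] using (toV_ap f l.reverse).symm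

end Pool.Agent.DD.C1

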