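import Mathlib.LinearAlgebra.FreeAlgebra
import Mathlib.RingTheory.TensorProduct.Basic
import Mathlib.Algebra.BigOperators.Finprod
import Mathlib.Algebra.BigOperators.NatAntidiagonal

set_option autoImplicit false

noncomputable section

namespace Pool.Agent.DD.DS

open FreeAlgebra TensorProduct

section ring

variable {K : Type*} [CommRing K]

variable (K) in
/-- The letters `y_n` (`n ≥ 1`) generate `FreeAlgebra K ℕ`, and `y_0 = 1`. -/
def yy : ℕ → FreeAlgebra K ℕ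
  | 0 => 1
  | n + 1 => ι K n

variable (K) in
/-- The coproduct `Δ(y_n) = ∑_{i + j = n} y_i ⊗ y_j`. -/
def dst : FreeAlgebra K ℕ →ₐ[K] FreeAlgebra K ℕ ⊗[K] FreeAlgebra K ℕ :=
  FreeAlgebra.lift K fun n => ∑ p ∈ Finset.antidiagonal (n + 1), yy K p.1 ⊗ₜ yy K p.2

variable (K) in
/-- The word `x ^ k w` (`false = x`, `true = y`) written in the `y_i = x ^ (i - 1) y`, and `0` if
it ends in `x`. -/
def yw : ℕ → List Bool → FreeAlgebra K ℕ
  | k, [] => if k = 0 then 1 else 0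
  | k, false :: w => yw (k + 1) w
  | k, true :: w => yy K (k + 1) * yw 0 w

/-- The coefficient `(ψ | w)`. -/
def cf (ψ : FreeAlgebra K Bool) (w : List Bool) : K :=
  (basisFreeMonoid K Bool).repr ψ (FreeMonoid.ofList w)

/-- The projection `π_y`. -/
def piY : FreeAlgebra K Bool →ₗ[K] FreeAlgebra K ℕ :=
  (basisFreeMonoid K Bool).constr K fun w => yw K 0 w.toList

/-- `θ(f)(x, y) = f(x, -y)`. -/
def theta : FreeAlgebra K Bool →ₐ[K] FreeAlgebra K Bool :=
  FreeAlgebra.lift K fun s => if s then -ι K true else ι K false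

end ring

variable {K : Type*} [Field K]

/-- `ψ_* = π_y ψ + ∑_{n ≥ 1} (-1) ^ (n - 1) / n * (ψ | x ^ (n - 1) y) y_1 ^ n`. -/
def star (ψ : FreeAlgebra K Bool) : FreeAlgebra K ℕ :=
  piY ψ + ∑ᶠ n : ℕ, ((-1) ^ n / (n + 1) * cf ψ (List.replicate n false ++ [true])) • yy K 1 ^ (n + 1)

/-- `ψ_*` is primitive. -/
def Stuffle (ψ : FreeAlgebra K Bool) : Prop := dst K (star ψ) = star ψ ⊗ₜ 1 + 1 ⊗ₜ star ψ

end Pool.Agent.DD.DS
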