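import Pool.Agent.Lib.DD.Fur64a
import Pool.Agent.Lib.DD.DsDefs64
import Mathlib.Algebra.DualNumber
import Mathlib.Algebra.Polynomial.Taylor

/-! The pentagon implies the stuffle relations for Lie polynomials (Furusho). -/

set_option autoImplicit false

noncomputable section

namespace Pool.Agent.DD.F64

open Pool.Agent.DD.S39 Pool.Agent.DD.DS Module FreeAlgebra TensorProduct Finset Polynomial

universe v

section ring

variable {K : Type v} [CommRing K]

theorem bas {X : Type} (l : List X) :
    basisFreeMonoid K X (FreeMonoid.ofList l) = (l.map (ι K)).prod := by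
  simp [basisFreeMonoid, equivMonoidAlgebraFreeMonoid, FreeMonoid.lift_ofList]

theorem lext {X : Type} {N : Type*} [AddCommGroup N] [Module K N] {F G : FreeAlgebra K X →ₗ[K] N}
    (h : ∀ l : List X, F (l.map (ι K)).prod = G (l.map (ι K)).prod) : F = G :=
  (basisFreeMonoid K X).ext fun w => by
    rw [← FreeMonoid.ofList_toList w, bas]; exact h _

/-- the linear map with `1 ↦ 0` and `ι k * q ↦ g k * φ q` -/
def fox {B : Type*} [Ring B] [Algebra K B] (φ : FreeAlgebra K ℕ →ₐ[K] B) (g : ℕ → B) :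
    FreeAlgebra K ℕ →ₗ[K] B :=
  (basisFreeMonoid K ℕ).constr K fun w => match w.toList with
    | [] => 0
    | k :: l => g k * φ (l.map (ι K)).prod

section
variable {B : Type*} [Ring B] [Algebra K B] (φ : FreeAlgebra K ℕ →ₐ[K] B) (g : ℕ → B)

@[simp] theorem fox_one : fox φ g 1 = 0 := by
  have := bas (K := K) ([] : List ℕ)
  rw [List.map_nil, List.prod_nil] at this
  rw [← this, fox, Basis.constr_basis]
  rfl

@[simp] theorem fox_mul (k : ℕ) (q : FreeAlgebra K ℕ) : fox φ g (ι K k * q) = g k * φ q :=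
  LinearMap.congr_fun (lext (F := fox φ g ∘ₗ LinearMap.mulLeft K (ι K k))
    (G := LinearMap.mulLeft K (g k) ∘ₗ φ.toLinearMap) fun l => by
      have := bas (K := K) (k :: l)
      rw [List.map_cons, List.prod_cons] at this
      simp only [LinearMap.comp_apply, LinearMap.mulLeft_apply]
      rw [← this, fox, Basis.constr_basis]
      rfl) q

end

theorem yext {N : Type*} [AddCommGroup N] [Module K N] {F G : FreeAlgebra K ℕ →ₗ[K] N}
    (h1 : F 1 = G 1) (h : ∀ k q, F (ι K k * q) = G (ι K k * q)) (u : FreeAlgebra K ℕ) : F u = G u :=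
  LinearMap.congr_fun (lext fun l => by cases l <;> simp [*]) u

/-- the action of the letter `x` -/
def sh : End K (FreeAlgebra K ℕ) := fox (AlgHom.id K _) fun k => ι K (k + 1)

@[simp] theorem sh_one : sh (1 : FreeAlgebra K ℕ) = 0 := fox_one _ _
@[simp] theorem sh_mul (k : ℕ) (q : FreeAlgebra K ℕ) : sh (ι K k * q) = ι K (k + 1) * q :=
  fox_mul _ _ _ _

theorem sh_yw (k : ℕ) (w : List Bool) : sh (yw K k w) = yw K (k + 1) w := by
  induction w generalizing k with
  | nil => simp only [yw]; split_ifs <;> simp_all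
  | cons s w ih => cases s <;> simp [yw, yy, ih]

theorem piY_word (w : List Bool) : piY (w.map (ι K)).prod = yw K 0 w := by
  rw [← bas, piY, Basis.constr_basis]; rfl

theorem piY_eq (φ : FreeAlgebra K Bool) : piY φ = ev sh (LinearMap.mulLeft K (ι K 0)) φ 1 :=
  LinearMap.congr_fun (lext (F := piY) (G := LinearMap.applyₗ (1 : FreeAlgebra K ℕ) ∘ₗ
    (ev sh (LinearMap.mulLeft K (ι K 0))).toLinearMap) fun l => by
      rw [piY_word]
      induction l with
      | nil => simp [yw]
      | cons s l ih => cases s <;> simp [yw, yy, ← sh_yw, ih, ev]) φ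

theorem piY_theta (ψ : FreeAlgebra K Bool) :
    piY (theta ψ) = ev sh (-LinearMap.mulLeft K (ι K 0)) ψ 1 := by
  rw [piY_eq]
  refine congrArg (fun S : End K (FreeAlgebra K ℕ) => S 1) ?_
  induction ψ using ind with
  | hx => simp [theta, lx, ev]
  | hy => simp [theta, ly, ev]
  | _ => simp [*]

theorem r_sh (k : ℕ) (b : FreeAlgebra K ℕ) (z : FreeAlgebra K ℕ ⊗[K] FreeAlgebra K ℕ) :
    sh.rTensor _ (ι K k ⊗ₜ b * z) = ι K (k + 1) ⊗ₜ b * z := by
  induction z using TensorProduct.induction_on <;> simp [mul_add, *]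

theorem l_sh (k : ℕ) (b : FreeAlgebra K ℕ) (z : FreeAlgebra K ℕ ⊗[K] FreeAlgebra K ℕ) :
    sh.lTensor _ (b ⊗ₜ ι K k * z) = b ⊗ₜ ι K (k + 1) * z := by
  induction z using TensorProduct.induction_on <;> simp [mul_add, *]

theorem dst_ι (k : ℕ) : dst K (ι K k) =
    ι K k ⊗ₜ 1 + ∑ p ∈ antidiagonal k, yy K p.1 ⊗ₜ ι K p.2 := by
  rw [dst, lift_ι_apply, Nat.sum_antidiagonal_succ']; rfl

/-- polynomials in `y_1` -/
def jj : K[X] →ₐ[K] FreeAlgebra K ℕ := aeval (ι K 0)

theorem defect {ψ : FreeAlgebra K Bool} (hL : IsLie ψ) (hp : LPent ψ) : ∃ c : K[X] ⊗[K] K[X],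
    dst K (piY (theta ψ)) = piY (theta ψ) ⊗ₜ 1 + 1 ⊗ₜ piY (theta ψ) +
      Algebra.TensorProduct.map jj jj c := by
  let e1 : End K (FreeAlgebra K ℕ ⊗[K] FreeAlgebra K ℕ) := -LinearMap.mulLeft K (ι K 0 ⊗ₜ 1)
  let f1 : End K (FreeAlgebra K ℕ ⊗[K] FreeAlgebra K ℕ) := -LinearMap.mulLeft K (1 ⊗ₜ ι K 0)
  have h := pent3 (e0 := sh.rTensor _) (e1 := e1) (f0 := sh.lTensor _) (f1 := f1)
    (o := 1 ⊗ₜ 1) (fun u => by induction u using TensorProduct.induction_on <;> simp [*])
    (fun u => by simp only [f1]; induction u using TensorProduct.induction_on <;> simp_all [mul_add])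
    (fun u => by simp only [e1]; induction u using TensorProduct.induction_on <;> simp_all [mul_add])
    (fun u => by
      simp only [e1, f1, LinearMap.neg_apply, map_neg]; simp [← mul_assoc])
    (by simp) (by simp) hL hp
  let G := fox (dst K) fun k => ι K k ⊗ₜ 1
  have i1 := itw (((dst K).toLinearMap - G).prod G) (a := sh) (b := -LinearMap.mulLeft K (ι K 0))
    (a' := T0 (sh.rTensor _) (sh.lTensor _) f1) (b' := T1 e1 f1)
    (yext (F := ((dst K).toLinearMap - G).prod G ∘ₗ sh)
      (G := T0 (sh.rTensor _) (sh.lTensor _) f1 ∘ₗ ((dst K).toLinearMap - G).prod G)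
      (by simp [G, Algebra.TensorProduct.one_def]) fun k q => by
      simp [G, f1, r_sh, dst_ι, add_mul, sum_mul, l_sh, Nat.sum_antidiagonal_succ', ← mul_assoc, yy,
        add_comm])
    (fun u => by simp [G, e1, f1, dst_ι, add_mul, yy]) ψ 1
  have i2 := itw ((TensorProduct.mk K _ _).flip 1) (a := sh) (b := -LinearMap.mulLeft K (ι K 0))
    (a' := sh.rTensor _) (b' := e1) (fun u => by simp) (fun u => by simp [e1]) ψ 1
  have i3 := itw (TensorProduct.mk K (FreeAlgebra K ℕ) _ 1) (a := sh)
    (b := -LinearMap.mulLeft K (ι K 0))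
    (a' := sh.lTensor _) (b' := f1) (fun u => by simp) (fun u => by simp [f1, tmul_neg]) ψ 1
  have i4 := itw (Algebra.TensorProduct.map (jj (K := K)) jj).toLinearMap
    (a := -LinearMap.mulLeft K (X ⊗ₜ 1)) (b := -LinearMap.mulLeft K (1 ⊗ₜ X)) (a' := e1) (b' := f1)
    (fun u => by simp [e1, jj, -Algebra.TensorProduct.toLinearMap_map])
    (fun u => by simp [f1, jj, -Algebra.TensorProduct.toLinearMap_map]) (dd 1 0 ψ) (-X ⊗ₜ 1)
  rw [← piY_theta] at i1 i2 i3
  refine ⟨_, Eq.trans ?_ (congrArg _ i4.symm)⟩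
  simp only [LinearMap.flip_apply, mk_apply, LinearMap.prod_apply, Function.prod_apply, G, fox_one,
    LinearMap.sub_apply, AlgHom.toLinearMap_apply, map_one, sub_zero,
    Algebra.TensorProduct.one_def] at i1 i2 i3
  rw [← i1, ← i2, ← i3] at h
  simpa [e1, jj, -Algebra.TensorProduct.toLinearMap_map] using h

/-- the character `1 + X t` -/
def r1 : FreeAlgebra K ℕ →ₐ[K] K[X] := FreeAlgebra.lift K fun k => if k = 0 then X else 0

/-- the character `1 + ε X t / (1 + X t)` -/
def ch : FreeAlgebra K ℕ →ₐ[K] DualNumber K[X] :=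
  FreeAlgebra.lift K fun k => .inr ((-1 : K) ^ k • X ^ (k + 1))

theorem r1_jj (g : K[X]) : r1 (jj g) = g := by simp [jj, ← aeval_algHom_apply, r1]

theorem dst_jj (g : K[X]) : dst K (jj g) =
    Algebra.TensorProduct.map jj jj (aeval (X ⊗ₜ 1 + 1 ⊗ₜ X : K[X] ⊗[K] K[X]) g) := by
  simp [jj, ← aeval_algHom_apply, dst_ι, yy]

theorem rep_eq (k n : ℕ) (w : List Bool) : List.replicate k false ++ true :: w =
    List.replicate n false ++ [true] ↔ k = n ∧ w = [] := by
  induction k generalizing n <;> cases n <;> simp_all [List.replicate_succ]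

theorem ch_yw (k n : ℕ) (w : List Bool) : (ch (yw K k w)).fst = (if k = 0 ∧ w = [] then 1 else 0) ∧
    (ch (yw K k w)).snd.coeff (n + 1) =
      if List.replicate k false ++ w = List.replicate n false ++ [true] then (-1) ^ n else 0 := by
  induction w generalizing k with
  | nil =>
    have : List.replicate k false ≠ List.replicate n false ++ [true] := fun h => by
      simpa using congrArg (true ∈ ·) h
    by_cases hk : k = 0 <;> simp_all [yw]
  | cons s w ih =>
    cases s
    · simpa [yw, List.replicate_succ'] using ih (k + 1)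
    · have e : ch (ι K k) = .inr ((-1 : K) ^ k • X ^ (k + 1)) := lift_ι_apply _ _
      rw [yw, yy, map_mul, e, TrivSqZeroExt.fst_mul, TrivSqZeroExt.snd_mul, (ih 0).1]
      simp only [rep_eq]
      by_cases hw : w = []
      · by_cases hk : k = n
        · simp [hw, hk]
        · simp [hw, hk, coeff_X_pow, Ne.symm hk]
      · simp [hw]

theorem ch_piY (n : ℕ) (φ : FreeAlgebra K Bool) : (ch (piY φ)).snd.coeff (n + 1) =
    (-1) ^ n * cf φ (List.replicate n false ++ [true]) :=
  LinearMap.congr_fun (lext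
    (F := lcoeff K (n + 1) ∘ₗ (TrivSqZeroExt.sndHom K[X] K[X]).restrictScalars K ∘ₗ
      ch.toLinearMap ∘ₗ piY)
    (G := ((-1 : K) ^ n) • (basisFreeMonoid K Bool).coord
      (FreeMonoid.ofList (List.replicate n false ++ [true]))) fun l => by
    have := (ch_yw (K := K) 0 n l).2
    simp only [LinearMap.comp_apply, piY_word]
    rw [← bas]
    simp only [LinearMap.smul_apply, Basis.coord_apply, Basis.repr_self]
    by_cases h : l = List.replicate n false ++ [true]
    · simpa [h] using this
    · rw [Finsupp.single_eq_of_ne' fun e => h (FreeMonoid.ofList.injective e)]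
      simpa [h] using this) φ

theorem newton {p : FreeAlgebra K ℕ} (h : dst K p = p ⊗ₜ 1 + 1 ⊗ₜ p) :
    derivative (r1 p) * X = (ch p).snd := by
  have e : (Algebra.TensorProduct.lift ((aeval (.inl X : DualNumber K[X])).comp r1) ch
      fun _ _ => Commute.all _ _).comp (dst K) =
      (aeval (.inl X + .inr X : DualNumber K[X])).comp r1 := by
    refine FreeAlgebra.hom_ext (funext fun k => ?_)
    cases k with
    | zero => simp [dst_ι, r1, ch, yy]
    | succ k =>
      simp only [Function.comp_apply, AlgHom.comp_apply, dst_ι, Nat.sum_antidiagonal_succ, map_add,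
        map_sum, Algebra.TensorProduct.lift_tmul]
      rw [sum_eq_single (0, k) (fun p hp h => by
        have : p.1 ≠ 0 := fun e => h (Prod.ext e (by simpa [e] using hp))
        simp [r1, yy, this]) (by simp)]
      ext1 <;> simp [r1, ch, yy, pow_succ, mul_comm]
  have i : ∀ g : K[X], aeval (.inl X : DualNumber K[X]) g = .inl g := fun g => by
    simpa using aeval_algHom_apply (TrivSqZeroExt.inlAlgHom K K[X] K[X]) X g
  have := AlgHom.congr_fun e p
  simp only [AlgHom.comp_apply, h, map_add, Algebra.TensorProduct.lift_tmul, map_one, mul_one,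
    one_mul] at this
  rw [aeval_add_of_sq_eq_zero _ _ _ (by simp [sq]), i, i] at this
  simpa [mul_comm] using (congrArg TrivSqZeroExt.snd this).symm

end ring

variable {K : Type v} [Field K]

/-- the character `exp (X t)` -/
def rx : FreeAlgebra K ℕ →ₐ[K] K[X] :=
  FreeAlgebra.lift K fun k => ((k + 1).factorial : K)⁻¹ • X ^ (k + 1)

theorem rx_jj (g : K[X]) : rx (jj g) = g := by simp [jj, ← aeval_algHom_apply, rx]

theorem rx_yy (n : ℕ) : rx (yy K n) = (n.factorial : K)⁻¹ • X ^ n := by cases n <;> simp [rx, yy]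

variable [CharZero K]

theorem rx_dst (p : FreeAlgebra K ℕ) : Algebra.TensorProduct.map rx rx (dst K p) =
    aeval (X ⊗ₜ 1 + 1 ⊗ₜ X : K[X] ⊗[K] K[X]) (rx p) := by
  refine AlgHom.congr_fun (FreeAlgebra.hom_ext (f := (Algebra.TensorProduct.map rx rx).comp (dst K))
    (g := (aeval (X ⊗ₜ 1 + 1 ⊗ₜ X : K[X] ⊗[K] K[X])).comp rx) (funext fun k => ?_)) p
  have := rx_yy (K := K) (k + 1)
  rw [yy] at this
  simp only [Function.comp_apply, AlgHom.comp_apply, dst, lift_ι_apply, map_sum, this, map_smul,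
    map_pow, aeval_X, Algebra.TensorProduct.map_tmul, rx_yy]
  rw [Commute.add_pow' (Commute.all _ _), smul_sum]
  refine sum_congr rfl fun p hp => ?_
  rw [← mem_antidiagonal.1 hp, ← Nat.cast_smul_eq_nsmul K, smul_smul, smul_tmul_smul,
    Nat.choose_symm_add, ← Nat.add_choose_mul_factorial_mul_factorial]
  have h1 : (p.1.factorial : K) ≠ 0 := by exact_mod_cast p.1.factorial_ne_zero
  have h2 : (p.2.factorial : K) ≠ 0 := by exact_mod_cast p.2.factorial_ne_zero
  have h3 : ((p.1 + p.2).choose p.2 : K) ≠ 0 := by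
    exact_mod_cast (Nat.choose_pos (Nat.le_add_left _ _)).ne'
  refine congrArg₂ _ (by push_cast; field_simp) (by simp)

/-- Furusho: the pentagon implies the stuffle relations. -/
theorem stuffle_theta {ψ : FreeAlgebra K Bool} (hL : IsLie ψ) (hp : LPent ψ) :
    Stuffle (theta ψ) := by
  obtain ⟨c, hc⟩ := defect hL hp
  have f1 : r1 (piY (theta ψ)) = 0 := by
    have := itw r1.toLinearMap (a := sh) (b := -LinearMap.mulLeft K (ι K 0)) (a' := 0 + 0)
      (b' := 0 + -LinearMap.mulLeft K X) (yext (F := r1.toLinearMap ∘ₗ sh)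
        (G := (0 + 0) ∘ₗ r1.toLinearMap) (by simp) fun k q => by simp [r1])
        (fun u => by simp [r1]) ψ 1
    rw [hp.shift hL (by simp) (by simp) (by simp) (by simp) (by simp), ev_dec 0 0 hL] at this
    simpa [piY_theta] using this
  have f0 : (rx (piY (theta ψ))).coeff 0 = 0 := by
    have := itw (lcoeff K 0 ∘ₗ rx.toLinearMap) (a := sh) (b := -LinearMap.mulLeft K (ι K 0))
      (a' := 0) (b' := 0) (yext (F := (lcoeff K 0 ∘ₗ rx.toLinearMap) ∘ₗ sh) (G := 0) (by simp)
        fun k q => by simp [rx]) (fun u => by simp [rx]) ψ 1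
    rw [ev_dec 0 0 hL] at this
    simpa [piY_theta] using this
  have hq := fun n => ch_piY n (theta ψ)
  unfold Stuffle DS.star
  generalize piY (theta ψ) = f at *
  have h1 := rx_dst f
  have h2 : Algebra.TensorProduct.map rx rx (Algebra.TensorProduct.map jj jj c) = c := by
    clear hc
    induction c using TensorProduct.induction_on <;> simp [rx_jj, *]
  rw [hc, map_add, map_add, h2] at h1
  have h3 : dst K (f - jj (rx f)) = (f - jj (rx f)) ⊗ₜ 1 + 1 ⊗ₜ (f - jj (rx f)) := by
    rw [map_sub, dst_jj, ← h1, hc]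
    simp only [map_add, Algebra.TensorProduct.map_tmul, map_one, sub_tmul, tmul_sub]
    abel
  have h4 := newton h3
  have h5 : (ch (jj (rx f))).snd = (rx f).coeff 1 • X := by
    rw [jj, ← aeval_algHom_apply, ← zero_add (ch _), aeval_add_of_sq_eq_zero _ _ _ (by simp [sq, ch])]
    simp [ch, ← coeff_zero_eq_aeval_zero', coeff_derivative, Algebra.smul_def,
      TrivSqZeroExt.algebraMap_eq_inl']
  rw [map_sub r1, map_sub ch, f1, r1_jj, TrivSqZeroExt.snd_sub, h5] at h4
  have h6 : ∀ n : ℕ, (-1) ^ n / (n + 1) * cf (theta ψ) (List.replicate n false ++ [true]) =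
      ((rx f).coeff 1 • X - rx f).coeff (n + 1) := fun n => by
    have := congrArg (coeff · (n + 1)) h4
    have hn : (n : K) + 1 ≠ 0 := by exact_mod_cast n.succ_ne_zero
    simp only [coeff_mul_X, zero_sub, map_neg, coeff_neg, coeff_derivative, coeff_sub, hq] at this
    rw [div_mul_eq_mul_div, div_eq_iff hn, coeff_sub]
    cases n <;> simp [coeff_X] at this ⊢ <;> linear_combination -this
  have h7 : ((rx f).coeff 1 • X - rx f).coeff 0 = 0 := by simp [f0]
  simp only [h6]
  have h8 : ∀ g : K[X], g.coeff 0 = 0 → ∑ᶠ n : ℕ, g.coeff (n + 1) • yy K 1 ^ (n + 1) = jj g :=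
    fun g hg => by
    rw [finsum_eq_sum_of_support_subset (s := range g.natDegree) _ fun n hn => by
      by_contra h
      exact hn (by simp [coeff_eq_zero_of_natDegree_lt (p := g) (n := n + 1)
        (by simpa [Nat.lt_succ_iff] using h)]), jj, aeval_eq_sum_range, sum_range_succ', hg]
    simp [yy]
  rw [h8 _ h7, map_sub, map_smul, ← add_sub_assoc, add_sub_right_comm, map_add, h3, map_smul]
  simp [jj, dst_ι, yy, add_tmul, tmul_add, smul_tmul']
  abel

end Pool.Agent.DD.F64
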