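import Pool.Agent.Lib.DD.A1D65
import Pool.Agent.Lib.DD.Fur64b

/-! Right quotients and shuffle invariance in the free algebra on `b, c, Y` over two elements. -/

set_option autoImplicit false

noncomputable section

namespace Pool.Agent.DD.C1

open Pool.Agent.DD.F64 FreeAlgebra TensorProduct

abbrev K := ZMod 2
abbrev B := FreeAlgebra K (Option Bool)

def Y : B := ι K none
def g (s : Bool) : B := ι K (some s)

theorem two {M : Type*} [AddCommGroup M] [Module K M] (u : M) : u + u = 0 := by
  rw [← two_smul K, show (2 : K) = 0 from rfl, zero_smul]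

/-- right quotient by a letter -/
def rq (s : Option Bool) : B →ₗ[K] B :=
  (basisFreeMonoid K (Option Bool)).constr K fun w =>
    if w.toList.getLast? = some s then (w.toList.dropLast.map (ι K)).prod else 0

theorem rq_one (s : Option Bool) : rq s 1 = 0 := by
  have := bas (K := K) ([] : List (Option Bool))
  rw [List.map_nil, List.prod_nil] at this
  rw [← this, rq, Module.Basis.constr_basis]
  simp

theorem rq_mul (s k : Option Bool) (u : B) : rq s (u * ι K k) = if k = s then u else 0 := by
  have := LinearMap.congr_fun (lext (F := rq s ∘ₗ LinearMap.mulRight K (ι K k))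
    (G := if k = s then LinearMap.id else 0) fun l => by
      have := bas (K := K) (l ++ [k])
      rw [List.map_append, List.prod_append, List.map_singleton, List.prod_singleton] at this
      simp only [LinearMap.comp_apply, LinearMap.mulRight_apply]
      rw [← this, rq, Module.Basis.constr_basis]
      by_cases h : k = s <;> simp [h]) u
  by_cases h : k = s <;> simpa [h] using this

theorem rext {N : Type*} [AddCommGroup N] [Module K N] {F G : B →ₗ[K] N}
    (h1 : F 1 = G 1) (h : ∀ k q, F (q * ι K k) = G (q * ι K k)) (u : B) : F u = G u :=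
  LinearMap.congr_fun (lext fun l => by
    rcases List.eq_nil_or_concat l with rfl | ⟨l, k, rfl⟩ <;> simp [*]) u

@[simp] theorem rq_gg (s k : Bool) (u : B) : rq (some s) (u * g k) = if k = s then u else 0 := by
  simp [g, rq_mul]
@[simp] theorem rq_gY (s : Bool) (u : B) : rq (some s) (u * Y) = 0 := by simp [Y, rq_mul]
@[simp] theorem rq_Yg (k : Bool) (u : B) : rq none (u * g k) = 0 := by simp [g, rq_mul]
@[simp] theorem rq_YY (u : B) : rq none (u * Y) = u := by simp [Y, rq_mul]
@[simp] theorem rq_alg (s : Option Bool) (r : K) : rq s (algebraMap K B r) = 0 := by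
  rw [Algebra.algebraMap_eq_smul_one, map_smul, rq_one, smul_zero]

/-- constant term -/
def ep : B →ₐ[K] K := FreeAlgebra.lift K fun _ => 0
/-- killing `Y` -/
def pr : B →ₐ[K] B := FreeAlgebra.lift K fun k => match k with
  | none => 0
  | some s => g s
/-- the coaction -/
def de : B →ₐ[K] B ⊗[K] B := FreeAlgebra.lift K fun k => match k with
  | none => 1 ⊗ₜ Y
  | some s => 1 ⊗ₜ g s + g s ⊗ₜ 1

@[simp] theorem ep_g (s : Bool) : ep (g s) = 0 := by simp [ep, g]
@[simp] theorem ep_Y : ep Y = 0 := by simp [ep, Y]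
@[simp] theorem pr_g (s : Bool) : pr (g s) = g s := by simp [pr, g]
@[simp] theorem pr_Y : pr Y = 0 := by simp [pr, Y]
@[simp] theorem de_g (s : Bool) : de (g s) = 1 ⊗ₜ g s + g s ⊗ₜ 1 := by simp [de, g]
@[simp] theorem de_Y : de Y = 1 ⊗ₜ Y := by simp [de, Y]

theorem rext' {N : Type*} [AddCommGroup N] [Module K N] {F G : B →ₗ[K] N}
    (h1 : F 1 = G 1) (hY : ∀ q, F (q * Y) = G (q * Y)) (h : ∀ k q, F (q * g k) = G (q * g k))
    (u : B) : F u = G u :=
  rext h1 (fun k q => by cases k; exacts [hY q, h _ q]) u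

/-- iterated quotient, the head of the list is the last letter -/
def Rv : List Bool → B →ₗ[K] B
  | [] => LinearMap.id
  | s :: v => Rv v ∘ₗ rq (some s)

@[simp] theorem Rv_nil (u : B) : Rv [] u = u := rfl
@[simp] theorem Rv_cons (s : Bool) (v : List Bool) (u : B) : Rv (s :: v) u = Rv v (rq (some s) u) := rfl

theorem ep_pr (u : B) : ep (pr u) = ep u :=
  rext' (F := ep.toLinearMap ∘ₗ pr.toLinearMap) (G := ep.toLinearMap) (by simp) (by simp) (by simp) u

theorem rq_pr (s : Bool) (u : B) : rq (some s) (pr u) = pr (rq (some s) u) :=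
  rext' (F := rq (some s) ∘ₗ pr.toLinearMap) (G := pr.toLinearMap ∘ₗ rq (some s)) (by simp [rq_one])
    (by simp) (fun k q => by by_cases h : k = s <;> simp [h]) u

theorem ep_Rv (v : List Bool) (u : B) : ep (Rv v (pr u)) = ep (Rv v u) := by
  induction v generalizing u with
  | nil => exact ep_pr u
  | cons s v ih => simp [rq_pr, ih]

theorem lT_left (f : B →ₗ[K] B) (z : B ⊗[K] B) (p : B) :
    f.lTensor B (z * p ⊗ₜ 1) = f.lTensor B z * p ⊗ₜ 1 := by
  induction z using TensorProduct.induction_on <;> simp_all [add_mul]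

theorem lT_right (s k : Option Bool) (z : B ⊗[K] B) :
    (rq s).lTensor B (z * 1 ⊗ₜ ι K k) = if k = s then z else 0 := by
  induction z using TensorProduct.induction_on with
  | zero => simp
  | tmul a b => by_cases h : k = s <;> simp [rq_mul, h]
  | add a b ha hb => by_cases h : k = s <;> simp_all [add_mul]

theorem ident (s : Option Bool) (u : B) : (rq s).lTensor B (de u) = de (rq s u) +
    ((rq s).lTensor B (de (rq (some false) u)) * g false ⊗ₜ 1 +
      (rq s).lTensor B (de (rq (some true) u)) * g true ⊗ₜ 1) := by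
  refine rext' (F := (rq s).lTensor B ∘ₗ de.toLinearMap) (G := de.toLinearMap ∘ₗ rq s +
    (LinearMap.mulRight K (g false ⊗ₜ 1) ∘ₗ (rq s).lTensor B ∘ₗ de.toLinearMap ∘ₗ rq (some false) +
      LinearMap.mulRight K (g true ⊗ₜ 1) ∘ₗ (rq s).lTensor B ∘ₗ de.toLinearMap ∘ₗ rq (some true)))
    ?_ ?_ ?_ u
  · simp [rq_one, Algebra.TensorProduct.one_def]
  · intro q
    have := lT_right s none (de q)
    have h2 := rq_mul s none q
    rw [← Y] at this h2
    by_cases h : none = s <;> simp_all
  · intro k q
    have := lT_right s (some k) (de q)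
    have h2 := rq_mul s (some k) q
    rw [← g] at this h2
    by_cases h : some k = s <;> cases k <;> simp_all [mul_add, lT_left]

theorem transfer (k : ℕ) : ∀ u : B, (∀ v : List Bool, k ≤ v.length → Rv v u = 0) →
    ∀ v : List Bool, k ≤ v.length + 1 →
      (rq none ∘ₗ Rv v).lTensor B (de u) = de (rq none (Rv v u)) := by
  induction k with
  | zero => intro u h v _; obtain rfl : u = 0 := h [] le_rfl; simp
  | succ k ih =>
    intro u h v hv
    have hq : ∀ s, ∀ v : List Bool, k ≤ v.length → Rv v (rq (some s) u) = 0 := fun s v hv =>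
      h (s :: v) (by simpa)
    have h2 : ∀ s, (rq none ∘ₗ Rv v).lTensor B (de (rq (some s) u)) = 0 := fun s => by
      rw [ih _ (hq s) v (by omega), hq s v (by omega), map_zero, map_zero]
    cases v with
    | nil =>
      simp only [Rv, LinearMap.comp_id] at h2 ⊢
      rw [ident, h2, h2]; simp
    | cons s v =>
      simp only [Rv, ← LinearMap.comp_assoc] at h2 ⊢
      simp only [LinearMap.lTensor_comp _ (rq none ∘ₗ Rv v), LinearMap.comp_apply] at h2 ⊢
      rw [ident, map_add, map_add, lT_left, lT_left, h2, h2,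
        ih _ (hq s) v (by simpa using hv)]
      simp

/-- invariant elements -/
def Inv : Submodule K B := LinearMap.eqLocus de.toLinearMap (TensorProduct.mk K B B 1)

theorem mem_Inv {u : B} : u ∈ Inv ↔ de u = 1 ⊗ₜ u := Iff.rfl

/-- invariant modulo words ending in `Y` -/
def InvV (u : B) : Prop := ∃ z, de u = 1 ⊗ₜ u + z * 1 ⊗ₜ Y

theorem invV_of {u s : B} (h : u + s * Y ∈ Inv) : InvV u := by
  refine ⟨de s + 1 ⊗ₜ s, ?_⟩
  rw [mem_Inv, map_add, map_mul, de_Y, tmul_add] at h
  rw [add_mul, Algebra.TensorProduct.tmul_mul_tmul, mul_one]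
  linear_combination (norm := abel) h - two (de s * 1 ⊗ₜ Y)

theorem inv_of {s : B} (h : s * Y ∈ Inv) : s ∈ Inv := by
  have := congrArg ((rq none).lTensor B) (mem_Inv.1 h)
  rw [map_mul, de_Y, Y, lT_right] at this
  simpa [rq_mul, mem_Inv] using this

theorem InvV.pure {u : B} (h : InvV u) (s : Bool) (v : List Bool) : ep (Rv (s :: v) u) = 0 := by
  obtain ⟨z, h⟩ := h
  let e : B ⊗[K] B →ₐ[K] B := Algebra.TensorProduct.lift (AlgHom.id K B)
    ((Algebra.ofId K B).comp ep) fun a b => (Algebra.commutes (ep b) a).symm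
  have ht : ∀ a b, e (a ⊗ₜ b) = a * algebraMap K B (ep b) := fun a b =>
    Algebra.TensorProduct.lift_tmul _ _ _ a b
  have he : ∀ u, e (de u) = pr u := AlgHom.congr_fun (FreeAlgebra.hom_ext (f := e.comp de)
    (g := pr) (funext fun k => by
      cases k
      · show e (de Y) = pr Y
        simp [ht]
      · show e (de (g _)) = pr (g _)
        simp [ht]))
  have := congrArg e h
  rw [he, map_add, map_mul] at this
  rw [← ep_Rv, this]
  simp [ht]

theorem InvV.quot {u : B} (h : InvV u) (s : Bool) (v : List Bool)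
    (hq : ∀ w : List Bool, v.length + 2 ≤ w.length → Rv w u = 0) :
    rq none (Rv (s :: v) u) ∈ Inv := by
  obtain ⟨z, h⟩ := h
  rw [mem_Inv, ← transfer _ u hq _ (by simp), h, Rv, ← LinearMap.comp_assoc,
    LinearMap.lTensor_comp, LinearMap.comp_apply, map_add, Y, lT_right]
  simp

/-- primitive elements -/
def Prim (u : B) : Prop := de u = 1 ⊗ₜ u + pr u ⊗ₜ 1

theorem Prim.add {u v : B} (hu : Prim u) (hv : Prim v) : Prim (u + v) := by
  simp only [Prim, map_add, tmul_add, add_tmul] at *
  rw [hu, hv]; abel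

theorem Prim.smul {u : B} (r : K) (hu : Prim u) : Prim (r • u) := by
  simp only [Prim, map_smul, tmul_smul, ← smul_tmul'] at *
  rw [hu, smul_add]

theorem Prim.br {u v : B} (hu : Prim u) (hv : Prim v) : Prim (u * v + v * u) := by
  simp only [Prim, map_add, map_mul, tmul_add, add_tmul] at *
  rw [hu, hv]
  simp only [mul_add, add_mul, Algebra.TensorProduct.tmul_mul_tmul, mul_one, one_mul]
  linear_combination (norm := abel) two (pr u ⊗ₜ[K] v) + two (pr v ⊗ₜ[K] u)

theorem Prim.quot {u : B} (h : Prim u) (e : K) (v : List Bool)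
    (hq : ∀ w : List Bool, v.length + 1 ≤ w.length → Rv w (u + algebraMap K B e) = 0) :
    rq none (Rv v (u + algebraMap K B e)) ∈ Inv := by
  have h1 : rq none (Rv v 1) = 0 := by cases v <;> simp [rq_one]
  rw [mem_Inv, ← transfer _ _ hq _ (by simp), map_add, h, AlgHom.commutes,
    Algebra.algebraMap_eq_smul_one, Algebra.algebraMap_eq_smul_one]
  simp [h1, Algebra.TensorProduct.one_def]

end Pool.Agent.DD.C1
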