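import Pool.Agent.Lib.DD.A1C1a

/-! The peeling argument on reversed words. -/

set_option autoImplicit false

noncomputable section

namespace Pool.Agent.DD.C1

open Finsupp

abbrev V := List Bool →₀ K

def mx : B × B →ₗ[K] B × B where
  toFun z := (z.1 * g false + z.2 * g true, z.1 * g true + z.2 * g false)
  map_add' u v := by ext <;> simp [add_mul] <;> abel
  map_smul' r u := by ext <;> simp

def my : B × B →ₗ[K] B × B where
  toFun z := ((z.1 + z.2) * Y, (z.1 + z.2) * Y + z.2)
  map_add' u v := by ext <;> simp [add_mul] <;> abel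
  map_smul' r u := by ext <;> simp [add_mul]

theorem mx_ap (z : B × B) :
    mx z = (z.1 * g false + z.2 * g true, z.1 * g true + z.2 * g false) := rfl
theorem my_ap (z : B × B) : my z = ((z.1 + z.2) * Y, (z.1 + z.2) * Y + z.2) := rfl

theorem my_add (z : B × B) : my z + z = ((z.1 + z.2) * Y + z.1, (z.1 + z.2) * Y) := by
  ext <;> simp [my_ap, add_assoc, two]

def cp (i : Bool) : B × B →ₗ[K] B := if i then LinearMap.snd K B B else LinearMap.fst K B B

@[simp] theorem cp_f (z : B × B) : cp false z = z.1 := rfl
@[simp] theorem cp_t (z : B × B) : cp true z = z.2 := rfl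

/-- the row of a twisted word -/
def W (e : K) : List Bool → B × B
  | [] => (1, algebraMap K B e)
  | false :: w => mx (W e w)
  | [true] => my (W e [])
  | true :: false :: w => my (W e (false :: w)) + W e (false :: w)
  | true :: true :: w => my (W e (true :: w))

/-- the row of a word whose last run is not twisted -/
def O : List Bool → B × B
  | [] => 0
  | false :: w => W 1 (false :: w)
  | true :: w => my (O w)

theorem rq_W2 (e : K) (s : Bool) : ∀ w, rq (some s) (W e (true :: w)).2 = 0
  | [] => by simp [W, my_ap]
  | false :: w => by rw [W, my_add]; simp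
  | true :: w => by rw [W, my_ap]; simp [rq_W2 e s w]

theorem ep_W2 (e : K) : ∀ w, ep (W e w).2 = if false ∈ w then 0 else e
  | [] => by simp [W]
  | false :: w => by simp [W, mx_ap]
  | [true] => by simp [W, my_ap]
  | true :: false :: w => by rw [W, my_add]; simp
  | true :: true :: w => by rw [W, my_ap]; simpa using ep_W2 e (true :: w)

theorem ep_W1 (e : K) : ∀ w, ep (W e w).1 = if w = [] then 1 else 0
  | [] => by simp [W]
  | false :: w => by simp [W, mx_ap]
  | [true] => by simp [W, my_ap]
  | true :: false :: w => by rw [W, my_add]; simp [W, mx_ap]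
  | true :: true :: w => by rw [W, my_ap]; simp

theorem W_yy : ∀ w, false ∈ w → W 1 (true :: true :: w) = ((O w).1 * Y, (O w).2 * Y)
  | [], h => by simp at h
  | false :: w, _ => by
    rw [W, W, my_add, my_ap, O]
    generalize W 1 (false :: w) = z
    ext
    · simp only; congr 1; linear_combination (norm := abel) two ((z.1 + z.2) * Y)
    · simp only [add_mul]
      linear_combination (norm := abel) two (z.1 * Y * Y) + two (z.2 * Y * Y) + two (z.1 * Y)
  | true :: w, h => by
    rw [W, W_yy w (by simpa using h), O, my_ap, my_ap]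
    simp [add_mul]

def D (u : List Bool) : V →ₗ[K] V := lcomapDomain (u ++ ·) (List.append_right_injective u)

@[simp] theorem D_ap (u l : List Bool) (p : V) : D u p l = p (u ++ l) := rfl
@[simp] theorem D_nil (p : V) : D [] p = p := by ext; simp
@[simp] theorem D_c0 (s : Bool) (u : List Bool) (c : K) : D (s :: u) (single [] c) = 0 := by
  ext; simp
@[simp] theorem D_cc (s k : Bool) (u l : List Bool) (c : K) :
    D (s :: u) (single (k :: l) c) = if k = s then D u (single l c) else 0 := by
  ext; by_cases h : k = s <;> simp [single_apply, h]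
theorem D_D (u v : List Bool) (p : V) : D v (D u p) = D (u ++ v) p := by ext; simp

def WL (e : K) : V →ₗ[K] B × B := linearCombination K (W e)
def OL : V →ₗ[K] B × B := linearCombination K O

@[simp] theorem WL_s (e : K) (l : List Bool) : WL e (single l 1) = W e l := by simp [WL]
@[simp] theorem OL_s (l : List Bool) : OL (single l 1) = O l := by simp [OL]

theorem sext {N : Type*} [AddCommGroup N] [Module K N] (F G : V →ₗ[K] N) (p : V)
    (h : ∀ l, p l ≠ 0 → F (single l 1) = G (single l 1)) : F p = G p := by
  rw [← sum_single p, map_finsuppSum, map_finsuppSum]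
  exact Finset.sum_congr rfl fun l hl => by
    beta_reduce
    rw [← smul_single_one, map_smul, map_smul, h l (mem_support_iff.1 hl)]

theorem id1 (e : K) (s : Bool) (p : V) : rq (some s) (WL e p).1 =
    cp s (WL e (D [false] p)) + cp s (WL e (D [true, false] p)) := by
  refine sext (rq (some s) ∘ₗ cp false ∘ₗ WL e)
    (cp s ∘ₗ WL e ∘ₗ D [false] + cp s ∘ₗ WL e ∘ₗ D [true, false]) p fun l _ => ?_
  rcases l with _ | ⟨_ | _, _ | ⟨_ | _, w⟩⟩ <;> cases s <;>
    simp [W, rq_one, mx_ap, my_ap, -one_mul]

theorem id2 (e : K) (s : Bool) (p : V) : rq (some s) (WL e p).2 = cp (!s) (WL e (D [false] p)) := by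
  refine sext (rq (some s) ∘ₗ cp true ∘ₗ WL e) (cp (!s) ∘ₗ WL e ∘ₗ D [false]) p fun l _ => ?_
  rcases l with _ | ⟨_ | _, w⟩
  · simp [W]
  · cases s <;> simp [W, mx_ap]
  · simp [rq_W2]

theorem id3 (p : V) : OL p = mx (WL 1 (D [false] p)) + my (OL (D [true] p)) := by
  refine sext OL (mx ∘ₗ WL 1 ∘ₗ D [false] + my ∘ₗ OL ∘ₗ D [true]) p fun l _ => ?_
  rcases l with _ | ⟨_ | _, w⟩ <;> simp [O, W]

def pre : List Bool → List Bool
  | [] => []
  | false :: Q => false :: pre Q
  | true :: Q => true :: false :: pre Q

theorem pre_app (P Q : List Bool) : pre (P ++ Q) = pre P ++ pre Q := by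
  induction P with
  | nil => rfl
  | cons s P ih => cases s <;> simp [pre, ih]

theorem count_pre (Q : List Bool) : (pre Q).count false = Q.length := by
  induction Q with
  | nil => rfl
  | cons s P ih => cases s <;> simp [pre, ih]

theorem trail (e : K) (S : Submodule K B) (t : ℕ) : ∀ p : V,
    (∀ i (v : List Bool), v.length = t → Rv v (cp i (WL e p)) ∈ S) ↔
      ∀ i (Q : List Bool), Q.length = t → cp i (WL e (D (pre Q) p)) ∈ S := by
  induction t with
  | zero => intro p; simp [pre]
  | succ t ih =>
    intro p
    constructor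
    · intro h
      have h0 : ∀ i (v : List Bool), v.length = t → Rv v (cp i (WL e (D [false] p))) ∈ S :=
        fun i v hv => by simpa [id2] using h true ((!i) :: v) (by simpa)
      have h1 : ∀ i (v : List Bool), v.length = t →
          Rv v (cp i (WL e (D [true, false] p))) ∈ S := fun i v hv => by
        have := h false (i :: v) (by simpa)
        rw [Rv_cons, cp_f, id1, map_add] at this
        exact (S.add_mem_iff_right (h0 i v hv)).1 this
      rintro i (_ | ⟨_ | _, Q⟩) hQ
      · simp at hQ
      · simpa [D_D, pre] using (ih _).1 h0 i Q (by simpa using hQ)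
      · simpa [D_D, pre] using (ih _).1 h1 i Q (by simpa using hQ)
    · intro h
      have h0 := (ih (D [false] p)).2 fun i Q hQ => by
        simpa [D_D, pre] using h i (false :: Q) (by simpa)
      have h1 := (ih (D [true, false] p)).2 fun i Q hQ => by
        simpa [D_D, pre] using h i (true :: Q) (by simpa)
      rintro (_ | _) (_ | ⟨s, v⟩) hv
      · simp at hv
      · rw [Rv_cons, cp_f, id1, map_add]
        exact S.add_mem (h0 s v (by simpa using hv)) (h1 s v (by simpa using hv))
      · simp at hv
      · rw [Rv_cons, cp_t, id2]; exact h0 _ v (by simpa using hv)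

def Hom (p : V) : Prop := ∀ l l', p l ≠ 0 → p l' ≠ 0 → l.count true = l'.count true
def Dg (m : ℕ) (p : V) : Prop := ∀ l, p l ≠ 0 → l.count false < m

theorem Hom.D {p : V} (h : Hom p) (u : List Bool) : Hom (D u p) := fun l l' h1 h2 => by
  simpa using h _ _ h1 h2

theorem Dg.D {m : ℕ} {p : V} (h : Dg m p) (u : List Bool) : Dg (m - u.count false) (D u p) :=
  fun l h1 => by have := h _ h1; simp at this; omega

structure J (p : V) : Prop where
  j1 : ∀ i v, ep (Rv v (cp i (WL 1 p))) = 0
  j2 : ∀ v : List Bool, (∀ i (w : List Bool), v.length + 1 ≤ w.length → Rv w (cp i (WL 1 p)) = 0) →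
    ∀ i, rq none (Rv v (cp i (WL 1 p))) ∈ Inv

theorem J_of {p : V} (h : InvV (mx (WL 1 p)).1) : J p := by
  have e : ∀ i, rq (some i) (mx (WL 1 p)).1 = cp i (WL 1 p) := fun i => by
    cases i <;> simp [mx_ap]
  refine ⟨fun i v => e i ▸ h.pure i v, fun v hv i => e i ▸ h.quot i v ?_⟩
  rintro (_ | ⟨s, w⟩) hw
  · simp at hw
  · rw [Rv_cons, e]; exact hv s w (by simpa using hw)

theorem pure_zero {p : V} (h : Hom p) (h0 : ep (WL 1 p).2 = 0) (l : List Bool) (hl : p l ≠ 0) :
    false ∈ l := by
  by_contra hf
  have rep : ∀ l : List Bool, false ∉ l → l = List.replicate (l.count true) true := fun l h => by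
    induction l with
    | nil => rfl
    | cons s l ih =>
      cases s
      · simp at h
      · rw [List.count_cons_self, List.replicate_succ, ← ih (by simpa using h)]
  refine hl ((sext (lapply l) (ep.toLinearMap ∘ₗ cp true ∘ₗ WL 1) p fun l' hl' => ?_).trans h0)
  by_cases h1 : false ∈ l'
  · have : l' ≠ l := fun e => hf (e ▸ h1)
    simp [ep_W2, h1, this]
  · have : l' = l := by rw [rep l hf, rep l' h1, h l l' hl hl']
    subst this
    simp [ep_W2, h1]

theorem core (m : ℕ) : ∀ p : V, Hom p → Dg m p → J p → p = 0 := by
  induction m with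
  | zero => intro p _ h _; ext l; by_contra hl; exact absurd (h l hl) (by simp)
  | succ m ih =>
    have hO : ∀ (l : List Bool) (p : V), Hom p → Dg (m + 1) p → (∀ w, p w ≠ 0 → false ∈ w) →
        (∀ i, cp i (OL p) ∈ Inv) → p l = 0 := by
      intro l
      induction l with
      | nil => intro p _ _ h _; by_contra hl; simpa using h _ hl
      | cons s l ihl =>
        intro p h1 h2 h3 h4
        have h5 : D [false] p = 0 := ih _ (h1.D _) (by simpa using h2.D [false])
          (J_of (invV_of (by have := h4 false; rw [id3, my_ap] at this; exact this)))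
        cases s
        · exact DFunLike.congr_fun h5 l
        · have h6 := h4 false
          have h7 := h4 true
          rw [id3, h5, map_zero, map_zero, zero_add, my_ap] at h6 h7
          have h8 := (Inv.add_mem_iff_right h6).1 h7
          refine ihl (D [true] p) (h1.D _) (by simpa using h2.D [true])
            (fun w hw => by simpa using h3 _ hw) ?_
          rintro (_ | _)
          exacts [(Inv.add_mem_iff_left h8).1 (inv_of h6), h8]
    intro p h1 h2 hJ
    have hK : ∀ t (Q : List Bool), m + 1 ≤ Q.length + t → D (pre Q) p = 0 := by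
      intro t
      induction t with
      | zero =>
        intro Q hQ
        ext l; by_contra hl
        have := h2.D _ l hl
        rw [count_pre] at this; omega
      | succ t iht =>
        intro Q hQ
        have h3 := (trail 1 (Inv.comap (rq none)) Q.length p).1 (fun i v hv => hJ.j2 v
          (fun i w hw => (trail 1 ⊥ w.length p).2 (fun i P hP => by
            rw [iht P (by omega)]; simp) i w rfl) i)
        have h4 := pure_zero (h1.D _) ((trail 1 (LinearMap.ker ep.toLinearMap) Q.length p).1
          (fun i v _ => hJ.j1 i v) true Q rfl)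
        have h5 := iht (Q ++ [false]) (by simp; omega)
        have h6 := iht (Q ++ [true]) (by simp; omega)
        rw [pre_app, ← D_D] at h5 h6
        have h7 := h2.D (pre Q)
        have h8 := h1.D (pre Q)
        replace h3 := fun i => h3 i Q rfl
        generalize D (pre Q) p = q at *
        have h9 : ∀ l, q l ≠ 0 → ∃ w, l = true :: true :: w ∧ false ∈ w := by
          rintro (_ | ⟨_ | _, w⟩) hl
          · simpa using h4 _ hl
          · exact absurd (DFunLike.congr_fun h5 w) hl
          · rcases w with _ | ⟨_ | _, w⟩
            · simpa using h4 _ hl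
            · exact absurd (DFunLike.congr_fun h6 w) hl
            · exact ⟨w, rfl, by simpa using h4 _ hl⟩
        ext l; by_contra hl
        obtain ⟨w, rfl, -⟩ := h9 l hl
        refine hl (hO w (D [true, true] q) (h8.D _) (fun l hl => ?_)
          (fun w hw => by simpa using h4 _ hw) fun i => ?_)
        · have := h7 _ hl; simp at this; omega
        · have := sext (rq none ∘ₗ cp i ∘ₗ WL 1) (cp i ∘ₗ OL ∘ₗ D [true, true]) q fun l hl => by
            obtain ⟨w, rfl, hw⟩ := h9 l hl
            cases i <;> simp [W_yy w hw]
          exact this ▸ h3 i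
    simpa [pre] using hK (m + 1) [] (by simp)

end Pool.Agent.DD.C1
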