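import Pool.Agent.Lib.DD.A1C65b
import Pool.Agent.Lib.DD.A1D65
import Pool.Agent.Lib.DD.Fur64b

/-! The combinatorial core of the first statement modulo 2. -/

set_option autoImplicit false

noncomputable section

namespace Pool.Agent.DD.F

open Pool.Agent.DD.S39 FreeAlgebra MulOpposite Module

namespace A65

def X : End F2 Fn where
  toFun F l := match l with
    | [] => 0
    | _ :: l => F l
  map_add' F G := by funext l; cases l <;> simp
  map_smul' z F := by funext l; cases l <;> simp

def Y : End F2 Fn where
  toFun F l := match l with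
    | [] => 0
    | s :: l => s * F (s :: l)
  map_add' F G := by funext l; cases l <;> simp [mul_add]
  map_smul' z F := by funext l; cases l <;> simp

@[simp] theorem X_nil (F : Fn) : X F [] = 0 := rfl
@[simp] theorem X_cons (F : Fn) (s : R) (l : List R) : X F (s :: l) = F l := rfl
@[simp] theorem Y_nil (F : Fn) : Y F [] = 0 := rfl
@[simp] theorem Y_cons (F : Fn) (s : R) (l : List R) : Y F (s :: l) = s * F (s :: l) := rfl

abbrev M : Type := List R → List F2 → R

def lf (A : End F2 Fn) : End F2 M where
  toFun G t e := A (fun t => G t e) t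
  map_add' F G := by funext t e; exact congrFun (A.map_add (fun t => F t e) fun t => G t e) t
  map_smul' z F := by funext t e; exact congrFun (A.map_smul z fun t => F t e) t

def X2 : End F2 M where
  toFun G t e := match e with
    | [] => 0
    | _ :: e => G t e
  map_add' F G := by funext t e; cases e <;> simp
  map_smul' z F := by funext t e; cases e <;> simp

def Y2 : End F2 M where
  toFun G t e := match e with
    | [] => 0
    | a :: e => c a * G t (a :: e)
  map_add' F G := by funext t e; cases e <;> simp [mul_add]
  map_smul' z F := by funext t e; cases e <;> simp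

def G0 : Fn →ₗ[F2] M where
  toFun F t e := match e with
    | [] => 0
    | a :: e => C t a e F
  map_add' F G := by funext t e; cases e; exacts [by simp, C_add _ _ _ _ _]
  map_smul' z F := by
    funext t e
    cases e
    · simp
    · refine Eq.trans ?_ ((C_mul t _ _ (c z) F).trans (Algebra.smul_def z _).symm)
      exact congrArg (C t _ _) (funext fun l => Algebra.smul_def z (F l))

def dl : Fn := vw true []

def G1 : Fn →ₗ[F2] M where
  toFun F t e := F t * dl (e.map c)
  map_add' F G := by funext t e; simp [add_mul]
  map_smul' z F := by funext t e; simp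

def G2 : Fn →ₗ[F2] M where
  toFun F t e := dl t * F (e.map c)
  map_add' F G := by funext t e; simp [mul_add]
  map_smul' z F := by funext t e; simp

theorem inter (Γ : Fn →ₗ[F2] M) {a b : End F2 M} (ha : ∀ F, F [] = 0 → Γ (X F) = a (Γ F))
    (hb : ∀ F, F [] = 0 → Γ (Y F) = b (Γ F)) (g : FA F2) (F : Fn) (hF : F [] = 0) :
    (ev (op X) (op Y) g).unop F [] = 0 ∧
      Γ ((ev (op X) (op Y) g).unop F) = (ev (op a) (op b) g).unop (Γ F) := by
  induction g using ind generalizing F with
  | h0 r => simp [hF]
  | hx => simp [ha F hF]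
  | hy => simp [hb F hF]
  | hm f g h1 h2 =>
    simp only [map_mul, unop_mul, End.mul_apply]
    exact ⟨(h2 _ (h1 F hF).1).1, by rw [(h2 _ (h1 F hF).1).2, (h1 F hF).2]⟩
  | ha f g h1 h2 => simp [h1 F hF, h2 F hF]

def U : FA F2 →ₗ[F2] Fn where
  toFun g := (ev (op X) (op Y) g).unop dl
  map_add' f g := by simp
  map_smul' z f := by simp

theorem U_one : U 1 = dl := by simp [U]
theorem U_x (g : FA F2) : U (g * lx _) = X (U g) := by simp [U]
theorem U_y (g : FA F2) : U (g * ly _) = Y (U g) := by simp [U]

theorem prim {f : FA F2} (h : IsLie f) (t : List R) (a : F2) (e : List F2) :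
    C t a e (U f) = U f t * dl ((a :: e).map c) + dl t * U f ((a :: e).map c) := by
  have cm : ∀ {A B : End F2 M}, (∀ G t e, A (B G) t e = B (A G) t e) → Commute (op A) (op B) :=
    fun k => Commute.op (LinearMap.ext fun G => funext fun t => funext (k G t))
  have k := h.add_ev (a := op (lf X)) (b := op (lf Y)) (s := op X2) (t := op Y2)
    (cm fun G t e => by cases t <;> cases e <;> rfl)
    (cm fun G t e => by cases t <;> cases e <;> simp [X2, lf])
    (cm fun G t e => by cases t <;> cases e <;> simp [Y2, lf])
    (cm fun G t e => by cases t <;> cases e <;> simp [Y2, lf, mul_left_comm])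
  have i0 := (inter G0 (a := lf X + X2) (b := lf Y + Y2) (fun F hF => ?_) (fun F hF => ?_)
    f dl rfl).2
  · have i1 := (inter G1 (a := lf X) (b := lf Y)
      (fun F _ => by funext t e; cases t <;> simp [G1, lf])
      (fun F _ => by funext t e; cases t <;> simp [G1, lf, mul_assoc]) f dl rfl).2
    have i2 := (inter G2 (a := X2) (b := Y2)
      (fun F _ => by funext t e; cases e <;> simp [G2, X2])
      (fun F _ => by funext t e; cases e <;> simp [G2, Y2, mul_left_comm]) f dl rfl).2
    have e1 : G0 dl = G1 dl := by
      funext t e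
      rcases e with _ | ⟨a, _ | ⟨b, e⟩⟩
      · simp [G0, G1, dl, vw]
      · simp [G0, G1, dl, vw, C_nil]
      · have z : ∀ (s : R) t a e (u : R), C (s :: t) a e (fun l => dl (u :: l)) = 0 :=
          fun s t a e u => (C_head (G := fun _ => 0) _ _ fun l => by simp [dl, vw]).trans
            (C_zero _ _ _)
        rcases t with _ | ⟨s, _ | ⟨s', t⟩⟩ <;> simp only [G0, LinearMap.coe_mk, AddHom.coe_mk]
        · simp [C_nc, G1, dl, vw]
        · rw [C_cc, C_nc, z]; simp [G1, dl, vw]
        · rw [C_cc, z, z]; simp [G1, dl, vw]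
    rw [op_add, op_add, k, unop_add, LinearMap.add_apply, e1, ← i1,
      show G1 dl = G2 dl from rfl, ← i2] at i0
    exact congrFun (congrFun i0 t) (a :: e)
  · funext t e
    rcases t with _ | ⟨s, t⟩ <;> rcases e with _ | ⟨a, _ | ⟨b, _ | ⟨b', e⟩⟩⟩ <;>
      simp [G0, lf, X2, C_nn, C_nc, C_cn, hF] <;> rw [C_cc] <;> simp [C_cn]
  · funext t e
    rcases e with _ | ⟨a, e⟩
    · cases t <;> simp [G0, lf, Y2]
    rcases t with _ | ⟨s, t⟩
    · cases e <;> simp [G0, lf, Y2, C_nn, C_nc, hF]
    · exact ((C_head (G := fun l => (s + c a) * F l) _ _ fun l => rfl).trans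
        (C_mul _ _ _ _ _)).trans (add_mul _ _ _)

theorem U_nil (g : FA F2) : U g [] = 0 :=
  (inter 0 (a := 0) (b := 0) (fun _ _ => rfl) (fun _ _ => rfl) g dl rfl).1

theorem Sw_snoc (b : Bool) (w : List Bool) : Sw b (w ++ [false]) = Sw b w * lx _ ∧
    Sw b (w ++ [true]) = Sw b w * if w.foldl (fun _ a => !a) b then ly _ else ly _ + 1 := by
  induction w generalizing b with
  | nil => cases b <;> simp [Sw]
  | cons a w ih => cases a <;> cases b <;> simp [Sw, ih, mul_assoc]

theorem U_Sw (u : List Bool) (l : List R) :
    U (Sw false u.reverse) (l.map (· + 1)) = vw true u l := by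
  induction u generalizing l with
  | nil => simp [Sw, U_one, dl, vw]
  | cons a u ih =>
    rcases l with _ | ⟨s, l⟩
    · rw [List.map_nil, U_nil, vw_nil]
    have k := ih (s :: l)
    rw [List.map_cons] at k
    rw [List.reverse_cons, List.map_cons]
    cases a
    · rw [(Sw_snoc _ _).1, U_x, X_cons, ih, vw]
    · have o : s + 1 + 1 = s := by rw [add_assoc, two, add_zero]
      have e : U (Sw false u.reverse * (ly _ + 1)) ((s + 1) :: l.map (· + 1)) =
          s * vw true u (s :: l) := by
        rw [mul_add, mul_one, map_add, U_y, Pi.add_apply, Y_cons, k, ← add_one_mul, o]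
      rw [(Sw_snoc _ _).2]
      rcases u with _ | ⟨_ | _, u⟩
      · rw [if_neg (by simp), e]
        cases l <;> simp [vw]
      · rw [if_pos (by simp), U_y, Y_cons, k]
        cases l <;> simp [vw, vw_nil]
      · rw [if_neg (by simp), e]
        simp [vw, mul_left_comm]

def rv : FA F2 →ₗ[F2] P :=
  (basisFreeMonoid F2 Bool).constr F2 fun w => Finsupp.single w.toList.reverse 1

theorem rv_app (g : FA F2) (u : List Bool) : rv g u = co u.reverse g :=
  LinearMap.congr_fun ((basisFreeMonoid F2 Bool).ext (f₁ := Finsupp.lapply u ∘ₗ rv)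
    (f₂ := co u.reverse) fun w => by
      simp only [rv, co, LinearMap.comp_apply, Basis.constr_basis, Finsupp.lapply_apply,
        Basis.coord_apply, Basis.repr_self]
      by_cases h : w.toList.reverse = u
      · subst h
        simp
      · rw [Finsupp.single_eq_of_ne' h, Finsupp.single_eq_of_ne']
        rintro rfl
        simp at h) g

theorem U_Sop (g : FA F2) (l : List R) : U (Sop g) (l.map (· + 1)) = V true (rv g) l :=
  LinearMap.congr_fun ((basisFreeMonoid F2 Bool).ext
    (f₁ := (LinearMap.proj (l.map (· + 1)) : Fn →ₗ[F2] R) ∘ₗ U ∘ₗ Sop)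
    (f₂ := (LinearMap.proj l : Fn →ₗ[F2] R) ∘ₗ V true ∘ₗ rv)
    fun w => by simpa [Sop, rv, V] using U_Sw w.toList.reverse l) g

def uw (u : List Bool) : Fn := U (u.reverse.map (ι F2)).prod

theorem uw_x (u : List Bool) : uw (false :: u) = X (uw u) := by
  simpa [uw, lx] using U_x (u.reverse.map (ι F2)).prod

theorem uw_y (u : List Bool) : uw (true :: u) = Y (uw u) := by
  simpa [uw, ly] using U_y (u.reverse.map (ι F2)).prod

theorem U_zero {g : FA F2} {l : List R} (h : ∀ u, rv g u ≠ 0 → uw u l = 0) : U g l = 0 := by
  have e : U g = Finsupp.linearCombination F2 uw (rv g) :=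
    LinearMap.congr_fun (F64.lext (F := U) (G := Finsupp.linearCombination F2 uw ∘ₗ rv)
      fun w => by
        rw [LinearMap.comp_apply, ← F64.bas, rv, Basis.constr_basis, F64.bas]
        simp [uw]) g
  rw [e, Finsupp.linearCombination_apply, Finsupp.sum, Finset.sum_apply]
  exact Finset.sum_eq_zero fun u hu => by
    rw [Pi.smul_apply, h u (Finsupp.mem_support_iff.1 hu), smul_zero]

theorem uw_one {u : List Bool} (h : false ∈ u) (s : R) : uw u [s] = 0 := by
  induction u with
  | nil => simp at h
  | cons a u ih =>
    cases a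
    · rw [uw_x]; exact U_nil _
    · rw [uw_y, Y_cons, ih (by simpa using h), mul_zero]

theorem uw_zero {u : List Bool} (h : true ∈ u) (n : ℕ) : uw u (List.replicate n 0) = 0 := by
  induction u generalizing n with
  | nil => simp at h
  | cons a u ih =>
    cases n
    · exact U_nil _
    cases a
    · rw [uw_x]; exact ih (by simpa using h) _
    · rw [uw_y, List.replicate_succ, Y_cons, zero_mul]

theorem U_pow (n : ℕ) : U (lx _ ^ n) (List.replicate (n + 1) 1) = 1 := by
  induction n with
  | zero => rw [pow_zero, U_one]; rfl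
  | succ n ih => rw [pow_succ, U_x]; exact ih

end A65

open A65 in
theorem stCORE65 : St_CORE65 := by
  intro f r n z hL hh hZ hS
  have hz : ∀ w, ¬ [true, true] <:+: w → rv f w = 0 := fun w hw => by
    rw [rv_app]
    exact hZ _ fun k => hw (List.reverse_infix.1 (by simpa using k))
  have T : ∀ l, U f (l.map (· + 1)) = U f l := fun l => by
    have := prim hL l 1 []
    rw [C_nil, U_zero (l := [1].map c) fun u hu => uw_one (by
      rw [rv_app] at hu; simpa using (hh _ hu).2) _] at this
    simpa [dl, vw] using this
  have E : ∀ l, V true (rv f) l = U f l + z • U (lx _ ^ n) (l.map (· + 1)) := fun l => by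
    rw [← U_Sop, hS, map_add, map_smul, Pi.add_apply, T, Pi.smul_apply]
  have z0 : z = 0 := by
    have k := short hz (List.replicate n 0)
    rw [List.map_replicate, c_zero, ← List.replicate_succ', E, List.map_replicate, zero_add,
      U_pow, U_zero fun u hu => uw_zero ((by_contra fun k => hu (hz u k) :
        [true, true] <:+: u).subset (by simp)) _, zero_add] at k
    exact (f2 z).resolve_right fun e => by simp [e] at k
  have E' : V true (rv f) = U f := funext fun l => by rw [E, z0, zero_smul, add_zero]
  have c1 : ∀ τ : List F2, U f (τ.map c ++ [1]) = 0 := fun τ => by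
    have k := short hz (τ.map (· + 1))
    rw [← T, ← k, E']
    simp [Function.comp_def, ← c_add, two]
  have c2 : ∀ τ : List F2, U f (τ.map c) = 0 := fun τ => by
    induction τ using List.reverseRecOn with
    | nil => exact U_nil _
    | append_singleton τ b =>
      rcases f2 b with rfl | rfl
      · simpa [E'] using short hz τ
      · simpa using c1 τ
  have p0 : rv f = 0 := by
    refine core (N := (rv f).support.sup List.length + 1) ⟨fun w hw => Nat.lt_succ_of_le
      (Finset.le_sup (f := List.length) (Finsupp.mem_support_iff.2 hw)), fun u w hu hw => ?_⟩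
      (fun t a ε => ?_) (by rwa [E'])
    · rw [rv_app] at hu hw
      rw [← List.count_reverse, (hh _ hu).1, ← (hh _ hw).1, List.count_reverse]
    · rw [E', prim hL, c2]
      simp [dl, vw]
  refine (basisFreeMonoid F2 Bool).ext_elem fun w => ?_
  have := rv_app f w.toList.reverse
  rw [p0, List.reverse_reverse] at this
  simpa [co] using this.symm

end Pool.Agent.DD.F
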