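import Mathlib.Algebra.MvPolynomial.CommRing
import Mathlib.Algebra.MvPolynomial.Rename
import Mathlib.Algebra.MvPolynomial.NoZeroDivisors
import Mathlib.Algebra.Field.ZMod
import Mathlib.Algebra.CharP.Two
import Mathlib.LinearAlgebra.Finsupp.LinearCombination
import Mathlib.Tactic.LinearCombination

/-! The combinatorial core of the first statement modulo 2: functions of paths. -/

set_option autoImplicit false

noncomputable section

namespace Pool.Agent.DD.F.A65

abbrev F2 : Type := ZMod 2
abbrev R : Type := MvPolynomial ℕ F2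
abbrev Fn : Type := List R → R
abbrev P : Type := List Bool →₀ F2

def c (a : F2) : R := algebraMap F2 R a

@[simp] theorem c_zero : c 0 = 0 := map_zero _
@[simp] theorem c_one : c 1 = 1 := map_one _
theorem c_add (a b : F2) : c a + c b = c (a + b) := (map_add _ _ _).symm
theorem two (z : R) : z + z = 0 := by
  rw [← two_smul F2 z, show (2 : F2) = 0 from rfl, zero_smul]
theorem f2 (a : F2) : a = 0 ∨ a = 1 := by revert a; decide

/-- the paths whose steps are shuffles of the steps of two paths -/
def sh : List R → F2 → List F2 → List (List R)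
  | [], _, [] => [[]]
  | [], _, _ :: _ => []
  | s :: t, σ, [] => (sh t σ []).map ((s + c σ) :: ·)
  | s :: t, σ, τ :: ε => (sh t σ (τ :: ε) ++ sh (s :: t) τ ε).map ((s + c σ) :: ·)
termination_by t _ ε => t.length + ε.length

def C (t : List R) (σ : F2) (ε : List F2) (F : Fn) : R := ((sh t σ ε).map F).sum

theorem C_nn (σ : F2) (F : Fn) : C [] σ [] F = F [] := by simp [C, sh]
theorem C_nc (σ τ : F2) (ε : List F2) (F : Fn) : C [] σ (τ :: ε) F = 0 := by simp [C, sh]
theorem C_cn (s : R) (t : List R) (σ : F2) (F : Fn) :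
    C (s :: t) σ [] F = C t σ [] fun l => F ((s + c σ) :: l) := by
  simp [C, sh, Function.comp_def]
theorem C_cc (s : R) (t : List R) (σ τ : F2) (ε : List F2) (F : Fn) :
    C (s :: t) σ (τ :: ε) F = (C t σ (τ :: ε) fun l => F ((s + c σ) :: l)) +
      C (s :: t) τ ε fun l => F ((s + c σ) :: l) := by
  rw [C, sh]
  simp [C, Function.comp_def]

theorem C_add (t : List R) (σ : F2) (ε : List F2) (F G : Fn) :
    C t σ ε (fun l => F l + G l) = C t σ ε F + C t σ ε G := List.sum_map_add
theorem C_mul (t : List R) (σ : F2) (ε : List F2) (z : R) (F : Fn) :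
    C t σ ε (fun l => z * F l) = z * C t σ ε F := List.sum_map_mul_left _ _ _
theorem C_zero (t : List R) (σ : F2) (ε : List F2) : C t σ ε (fun _ => 0) = 0 := by simp [C]

theorem C_head {s : R} (t : List R) {σ : F2} (ε : List F2) {F G : Fn}
    (h : ∀ l, F ((s + c σ) :: l) = G ((s + c σ) :: l)) : C (s :: t) σ ε F = C (s :: t) σ ε G := by
  cases ε <;> simp only [C_cn, C_cc, h]

theorem C_one (s : R) (σ : F2) (ε : List F2) (F : Fn) :
    C [s] σ ε F = F ((σ :: ε).map fun a => s + c a) := by
  induction ε generalizing σ F with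
  | nil => rw [C_cn, C_nn]; rfl
  | cons τ ε ih => rw [C_cc, C_nc, zero_add, ih]; rfl

theorem C_nil (t : List R) (σ : F2) (F : Fn) : C t σ [] F = F (t.map fun s => s + c σ) := by
  induction t generalizing F with
  | nil => exact C_nn _ _
  | cons s t ih => rw [C_cn, ih]; rfl

theorem sh_map (g : R →ₐ[F2] R) (t : List R) (σ : F2) (ε : List F2) :
    (sh t σ ε).map (List.map g) = sh (t.map g) σ ε := by
  have hc : ∀ a, g (c a) = c a := fun a => g.commutes a
  fun_induction sh t σ ε with
  | case1 => simp [sh]
  | case2 => simp [sh]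
  | case3 s t σ ih => simp [sh, ← ih, hc, Function.comp_def]
  | case4 s t σ τ ε ih1 ih2 =>
    rw [List.map_cons] at ih2 ⊢
    rw [sh, ← ih1, ← ih2]
    simp [hc, Function.comp_def]

/-- invariance -/
def Inv (F : Fn) : Prop := ∀ t a ε, C t 0 (a :: ε) F = 0

theorem cancel {F G : Fn} {h : R → R} (hF : ∀ (g : R →ₐ[F2] R) l, g (F l) = F (l.map g))
    (h0 : h (MvPolynomial.X 0) ≠ 0) (hG : ∀ s l, G (s :: l) = h s * F (s :: l)) (hi : Inv G) :
    Inv F := by
  rintro (_ | ⟨s, t⟩) a ε
  · exact C_nc _ _ _ _
  let g : R →ₐ[F2] R := MvPolynomial.aeval fun n => Nat.casesOn n s MvPolynomial.X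
  have k := hi (MvPolynomial.X 0 :: t.map (MvPolynomial.rename Nat.succ)) a ε
  rw [C_head (G := fun l => h (MvPolynomial.X 0) * F l) _ _ (fun l => by simp [hG]), C_mul] at k
  have k2 := congrArg g ((mul_eq_zero.1 k).resolve_left h0)
  have e : (MvPolynomial.X 0 :: t.map (MvPolynomial.rename Nat.succ)).map g = s :: t := by
    have : ∀ z : R, g (MvPolynomial.rename Nat.succ z) = z := fun z => by
      rw [MvPolynomial.aeval_rename]
      exact MvPolynomial.aeval_X_left_apply z
    simp [g, Function.comp_def, this]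
  rw [map_zero, C, map_list_sum, List.map_map] at k2
  rw [← e, C, ← sh_map, List.map_map, ← k2]
  exact congrArg List.sum (List.map_congr_left fun l _ => (hF g l).symm)

/-- the property after fixing the first `k` points in `{0, 1}` -/
def Rec (Φ : Fn → Prop) (k : ℕ) (F : Fn) : Prop :=
  ∀ τ : List F2, τ.length = k → Φ fun l => F (τ.map c ++ l)

theorem rec_succ {Φ : Fn → Prop} {k : ℕ} {F : Fn} :
    Rec Φ (k + 1) F ↔ ∀ a, Rec Φ k fun l => F (c a :: l) :=
  ⟨fun h a τ hτ => h (a :: τ) (by simp [hτ]), fun h τ hτ => by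
    cases τ with
    | nil => simp at hτ
    | cons a τ => exact h a τ (by simpa using hτ)⟩

theorem rec_zero {Φ : Fn → Prop} {F : Fn} : Rec Φ 0 F ↔ Φ F :=
  ⟨fun h => h [] rfl, fun h τ hτ => by rw [List.length_eq_zero_iff.1 hτ]; exact h⟩

def Z0 (F : Fn) : Prop := ∀ s l, F (s :: l) = 0

theorem z_mono {k : ℕ} {F : Fn} (h : Rec Z0 k F) : Rec Z0 (k + 1) F := by
  induction k generalizing F with
  | zero => exact rec_succ.2 fun a => rec_zero.2 fun s l => rec_zero.1 h _ _
  | succ k ih => exact rec_succ.2 fun a => ih (rec_succ.1 h a)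

theorem C_van (τ : List F2) (s : R) (t : List R) (σ : F2) (ε : List F2) {F : Fn}
    (h : Rec Z0 τ.length F) : C (τ.map c ++ s :: t) σ ε F = 0 := by
  induction τ generalizing σ ε F with
  | nil => exact (C_head (G := fun _ => 0) _ _ fun l => rec_zero.1 h _ _).trans (C_zero _ _ _)
  | cons a τ ih =>
    rw [List.map_cons, List.cons_append]
    induction ε generalizing σ F with
    | nil => rw [C_cn, c_add]; exact ih _ _ (rec_succ.1 h _)
    | cons b ε ih2 =>
      rw [C_cc, c_add, ih _ _ (rec_succ.1 h _), ih2 _ (z_mono (rec_succ.1 h _)), add_zero]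

theorem rec_inv {k : ℕ} {F : Fn} (hz : Rec Z0 (k + 1) F)
    (h : ∀ (τ : List F2) s t a ε, τ.length = k → C (τ.map c ++ s :: t) 0 (a :: ε) F = 0) :
    Rec Inv k F := by
  induction k generalizing F with
  | zero =>
    refine rec_zero.2 ?_
    rintro (_ | ⟨s, t⟩) a ε
    exacts [C_nc _ _ _ _, h [] s t a ε rfl]
  | succ k ih =>
    refine rec_succ.2 fun b => ih (rec_succ.1 hz b) fun τ s t a ε hτ => ?_
    have k1 := h (b :: τ) s t a ε (by simp [hτ])
    have k2 := C_van (b :: τ) s t a ε (F := fun l => F (c b :: l))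
      (by simpa [hτ] using rec_succ.1 hz b)
    rw [List.map_cons, List.cons_append] at k1 k2
    rwa [C_cc, c_zero, add_zero, k2, add_zero] at k1

/-- the value of a word (read from the end) on a path (read from the end) -/
def vw : Bool → List Bool → Fn
  | _, [], l => if l.length = 1 then 1 else 0
  | _, _ :: _, [] => 0
  | _, false :: w, _ :: l => vw true w l
  | b, true :: w, s :: l => (s + if b = true ∧ l ≠ [] then 1 else 0) * vw false w (s :: l)

theorem vw_nil (b : Bool) (w : List Bool) : vw b w [] = 0 := by cases w <;> simp [vw]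

theorem vw_map (g : R →ₐ[F2] R) (b : Bool) (w : List Bool) (l : List R) :
    g (vw b w l) = vw b w (l.map g) := by
  fun_induction vw b w l with
  | case1 b l h => simp [vw, h]
  | case2 b l h => simp [vw, h]
  | case3 => simp [vw]
  | case4 b w s l ih => simp [vw, ih]
  | case5 b w s l ih => simp [vw, ih, apply_ite g]

theorem vw_x {w : List Bool} (h : false ∈ w) (b : Bool) (s : R) : vw b w [s] = 0 := by
  induction w generalizing b with
  | nil => simp at h
  | cons a w ih =>
    cases a
    · exact vw_nil _ _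
    · rw [vw, ih (by simpa using h), mul_zero]

theorem vw_y {w : List Bool} (h : false ∉ w) (b : Bool) : vw b w [1] = 1 := by
  induction w generalizing b with
  | nil => rfl
  | cons a w ih =>
    cases a
    · simp at h
    · simp [vw, ih (by simpa using h)]

def V (b : Bool) : P →ₗ[F2] Fn := Finsupp.linearCombination F2 (vw b)

def D (a : Bool) : P →ₗ[F2] P := Finsupp.lcomapDomain (a :: ·) (List.cons_injective)

@[simp] theorem D_app (a : Bool) (p : P) (w : List Bool) : D a p w = p (a :: w) := rfl

theorem V_app (b : Bool) (p : P) (l : List R) :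
    V b p l = ∑ w ∈ p.support, c (p w) * vw b w l := by
  simp [V, Finsupp.linearCombination_apply, Finsupp.sum, c, Algebra.smul_def]

theorem V_nil (b : Bool) (p : P) : V b p [] = 0 := by simp [V_app, vw_nil]

theorem V_map (b : Bool) (p : P) (g : R →ₐ[F2] R) (l : List R) :
    g (V b p l) = V b p (l.map g) := by
  simp [V_app, vw_map, c]

theorem V_cons (b : Bool) (p : P) (s : R) (l : List R) :
    V b p (s :: l) = c (p []) * (if l = [] then 1 else 0) + V true (D false p) l +
      (s + if b = true ∧ l ≠ [] then 1 else 0) * V false (D true p) (s :: l) := by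
  induction p using Finsupp.induction_linear with
  | zero => simp
  | add p q hp hq =>
    simp only [map_add, Pi.add_apply, hp, hq, Finsupp.add_apply, ← c_add]
    ring
  | single w z =>
    have e1 : ∀ a, D a (Finsupp.single [] z) = 0 := fun a => by ext u; simp
    have e2 : ∀ a u, D a (Finsupp.single (a :: u) z) = Finsupp.single u z := fun a u => by
      ext v; simp [Finsupp.single_apply]
    have e3 : ∀ a u, D a (Finsupp.single ((!a) :: u) z) = 0 := fun a u => by
      ext v; cases a <;> simp
    rcases w with _ | ⟨_ | _, w⟩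
    · simp [e1, V, vw, c, Algebra.smul_def]
    · rw [e2, show D true (Finsupp.single (false :: w) z) = 0 from e3 true w]
      simp [V, vw]
    · rw [e2, show D false (Finsupp.single (true :: w) z) = 0 from e3 false w]
      simp [V, vw]

theorem V_step (p : P) (a : F2) (s : R) (l : List R) :
    V true p (c a :: s :: l) =
      V true (D false p) (s :: l) + (c a + 1) * V true (D false (D true p)) (s :: l) := by
  rw [V_cons, V_cons false]
  rcases f2 a with rfl | rfl <;> simp [two]

end Pool.Agent.DD.F.A65
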