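import Pool.Agent.Lib.DD.A1C65a

/-! The combinatorial core of the first statement modulo 2: the peeling lemma. -/

set_option autoImplicit false

noncomputable section

namespace Pool.Agent.DD.F.A65

/-- the property after removing `k` short runs -/
def All (A : P → Prop) : ℕ → P → Prop
  | 0, p => A p
  | k + 1, p => All A k (D false p) ∧ All A k (D false (D true p))

theorem All.mp {A B : P → Prop} {k : ℕ} {p : P} (h : All (fun q => A q → B q) k p)
    (h' : All A k p) : All B k p := by
  induction k generalizing p with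
  | zero => exact h h'
  | succ k ih => exact ⟨ih h.1 h'.1, ih h.2 h'.2⟩

theorem all_of {A : P → Prop} (h : ∀ q, A q → A (D false q) ∧ A (D false (D true q))) (k : ℕ)
    {p : P} (hp : A p) : All A k p := by
  induction k generalizing p with
  | zero => exact hp
  | succ k ih => exact ⟨ih (h p hp).1, ih (h p hp).2⟩

theorem all_true {A : P → Prop} (h : ∀ q, A q) (k : ℕ) (p : P) : All A k p :=
  all_of (fun _ _ => ⟨h _, h _⟩) k (h p)

theorem all_succ {A : P → Prop} {k : ℕ} {p : P} (h : All A (k + 1) p) :
    All (fun q => A (D false q) ∧ A (D false (D true q))) k p := by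
  induction k generalizing p with
  | zero => exact h
  | succ k ih => exact ⟨ih h.1, ih h.2⟩

section rec

variable {Φ : Fn → Prop} (hc : ∀ F G : Fn, (∀ s l, F (s :: l) = G (s :: l)) → Φ F → Φ G)
  (ha : ∀ F G : Fn, Φ F → Φ G → Φ fun l => F l + G l)
include hc

theorem rec_congr {k : ℕ} {F G : Fn} (e : ∀ s l, F (s :: l) = G (s :: l)) (h : Rec Φ k F) :
    Rec Φ k G := fun τ hτ => hc _ _ (fun s l => by cases τ <;> exact e _ _) (h τ hτ)

include ha

theorem rec_iff {k : ℕ} {p : P} : Rec Φ k (V true p) ↔ All (fun q => Φ (V true q)) k p := by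
  induction k generalizing p with
  | zero => exact rec_zero
  | succ k ih =>
    have ad : ∀ {F G : Fn}, Rec Φ k F → Rec Φ k G → Rec Φ k fun l => F l + G l :=
      fun h h' τ hτ => ha _ _ (h τ hτ) (h' τ hτ)
    rw [rec_succ, All, ← ih, ← ih]
    constructor
    · refine fun h => ⟨rec_congr hc (fun s l => ?_) (h 1),
        rec_congr hc (fun s l => ?_) (ad (h 0) (h 1))⟩
      · rw [V_step]; simp [two]
      · rw [V_step, V_step, c_zero, c_one, two, zero_add, one_mul, zero_mul, add_zero,
          add_right_comm, two, zero_add]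
    · intro h a
      rcases f2 a with rfl | rfl
      · exact rec_congr hc (fun s l => by rw [V_step]; simp) (ad h.1 h.2)
      · exact rec_congr hc (fun s l => by rw [V_step]; simp [two]) h.1

end rec

theorem inv_iff {k : ℕ} {p : P} : Rec Inv k (V true p) ↔ All (fun q => Inv (V true q)) k p := by
  refine rec_iff ?_ fun F G h h' t a ε => by rw [C_add, h, h', add_zero]
  rintro F G e h (_ | ⟨s, t⟩) a ε
  exacts [C_nc _ _ _ _, (C_head _ _ fun l => (e _ _).symm).trans (h _ _ _)]

theorem z_iff {k : ℕ} {p : P} : Rec Z0 k (V true p) ↔ All (fun q => Z0 (V true q)) k p :=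
  rec_iff (fun F G e h s l => (e s l).symm.trans (h s l)) fun F G h h' s l => by
    beta_reduce
    rw [h, h', add_zero]

theorem pt_iff (s : R) {k : ℕ} {p : P} :
    Rec (fun F => F [s] = 0) k (V true p) ↔ All (fun q => V true q [s] = 0) k p :=
  rec_iff (Φ := fun F => F [s] = 0) (fun F G e h => (e _ _).symm.trans h) fun F G h h' => by
    beta_reduce at h h' ⊢
    rw [h, h', add_zero]

/-- bounded length, constant depth -/
def Ok (N : ℕ) (p : P) : Prop :=
  (∀ w, p w ≠ 0 → w.length < N) ∧ ∀ u w, p u ≠ 0 → p w ≠ 0 → u.count true = w.count true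

/-- no power of `y` -/
def Pure (p : P) : Prop := ∀ w, false ∉ w → p w = 0

theorem Ok.d {N : ℕ} {p : P} (h : Ok (N + 1) p) (a : Bool) : Ok N (D a p) :=
  ⟨fun w hw => by simpa using h.1 _ hw, fun u w hu hw => by
    have := h.2 _ _ hu hw
    simp only [List.count_cons] at this
    omega⟩

theorem Ok.up {N : ℕ} {p : P} (h : Ok N p) : Ok (N + 1) p :=
  ⟨fun w hw => (h.1 w hw).trans (by omega), h.2⟩

theorem Ok.zero {p : P} (h : Ok 0 p) : p = 0 := by
  ext w
  by_contra hw
  exact absurd (h.1 w hw) (by omega)

theorem Ok.all {N : ℕ} {p : P} (h : Ok N p) : All (· = 0) N p := by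
  induction N generalizing p with
  | zero => exact h.zero
  | succ N ih => exact ⟨ih (h.d _), ih ((h.d _).up.d _)⟩

theorem Pure.val {p : P} (h : Pure p) (b : Bool) (s : R) : V b p [s] = 0 := by
  rw [V_app]
  refine Finset.sum_eq_zero fun w hw => ?_
  rw [vw_x (by_contra fun k => Finsupp.mem_support_iff.1 hw (h w k)), mul_zero]

theorem Ok.pure {N : ℕ} {p : P} (h : Ok N p) (h1 : V true p [1] = 0) : Pure p := by
  intro w hw
  by_contra hp
  have rep : ∀ u : List Bool, false ∉ u → u = List.replicate (u.count true) true := fun u hu => by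
    have : ∀ b ∈ u, b = true := fun b hb => by cases b; exacts [absurd hb hu, rfl]
    exact List.eq_replicate_iff.2 ⟨(List.count_eq_length.2 fun b hb => (this b hb).symm).symm, this⟩
  rw [V_app, Finset.sum_eq_single w, vw_y hw, mul_one, (f2 _).resolve_left hp, c_one] at h1
  · exact one_ne_zero h1
  · intro u hu hne
    rw [vw_x, mul_zero]
    by_contra k
    exact hne (by rw [rep u k, rep w hw, h.2 u w (Finsupp.mem_support_iff.1 hu) hp])
  · exact fun k => absurd (Finsupp.mem_support_iff.2 hp) k

theorem eq_zero {p : P} (h0 : p [] = 0) (h1 : D false p = 0) (h2 : D true p = 0) : p = 0 := by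
  ext w
  rcases w with _ | ⟨_ | _, w⟩
  exacts [h0, DFunLike.congr_fun h1 w, DFunLike.congr_fun h2 w]

theorem cube {N : ℕ} {p : P} (h : Ok N p) (hc : ∀ τ : List F2, V true p (τ.map c ++ [1]) = 0)
    (k : ℕ) : All Pure k p := by
  have ok : All (Ok (N + 1)) k p :=
    all_of (fun q hq => ⟨(hq.d _).up, ((hq.d _).up.d _).up⟩) k h.up
  exact ((all_true (fun q hq => hq.pure) k p).mp ok).mp ((pt_iff 1).1 fun τ _ => hc τ)

theorem main (N : ℕ) : (∀ p, Ok N p → Pure p → Inv (V false p) → p = 0) ∧
    ∀ p, Ok N p → (∀ k, All Pure k p) →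
      (∀ k, Rec Z0 (k + 1) (V true p) → Rec Inv k (V true p)) → p = 0 := by
  have x0 : (MvPolynomial.X 0 : R) ≠ 0 := MvPolynomial.X_ne_zero _
  have x1 : (MvPolynomial.X 0 + 1 : R) ≠ 0 := fun e => by
    simpa using congrArg MvPolynomial.constantCoeff e
  induction N with
  | zero => exact ⟨fun p h _ _ => h.zero, fun p h _ _ => h.zero⟩
  | succ N ih =>
    constructor
    · intro p h hp hi
      have p0 : p [] = 0 := hp _ (by simp)
      have J : ∀ t a ε, C t 0 (a :: ε) (V true (D false p)) +
          C (0 :: t) a ε (V true (D false p)) = 0 := fun t a ε => by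
        have := hi (0 :: t) a ε
        rwa [C_cc, show (fun l => V false p ((0 + c 0) :: l)) = V true (D false p) from
          funext fun l => by rw [V_cons]; simp [p0]] at this
      have h1 : D false p = 0 := by
        refine ih.2 _ (h.d _) (cube (h.d _) fun τ => ?_) fun k hz =>
          rec_inv hz fun τ s t a ε hτ => ?_
        · obtain ⟨a, ε, e⟩ : ∃ a ε, τ ++ [1] = a :: ε := by cases τ <;> simp
          have := J [] a ε
          rw [C_nc, zero_add, C_one, ← e] at this
          simpa using this
        · have k2 := C_van (0 :: τ) s t a ε (F := V true (D false p)) (by simpa [hτ] using hz)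
          have := J (τ.map c ++ s :: t) a ε
          rw [List.map_cons, List.cons_append, c_zero] at k2
          rwa [k2, add_zero] at this
      refine eq_zero p0 h1 (ih.1 _ (h.d _) (fun w hw => hp _ (by simpa using hw))
        (cancel (h := fun s => s) (V_map _ _) x0 (fun s l => ?_) hi))
      rw [V_cons]
      simp [p0, h1]
    · intro p h hp H
      have ok : ∀ k, All (Ok (N + 1)) k p := fun k =>
        all_of (fun q hq => ⟨(hq.d _).up, ((hq.d _).up.d _).up⟩) k h
      have step : ∀ k, All (· = 0) (k + 1) p → All (· = 0) k p := fun k hk => by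
        have hz : Rec Z0 (k + 1) (V true p) :=
          z_iff.2 ((all_true (fun q (hq : q = 0) s l => by simp [hq]) _ p).mp hk)
        refine ((((all_true (fun q (o : Ok (N + 1) q) (u : Pure q) (i : Inv (V true q))
          (z : D false q = 0 ∧ D false (D true q) = 0) => ?_) k p).mp (ok k)).mp (hp k)).mp
          (inv_iff.1 (H k hz))).mp (all_succ hk)
        have u2 : Pure (D true (D true q)) := fun w hw => u _ (by simpa using hw)
        have q0 : q [] = 0 := u _ (by simp)
        have q1 : q [true] = 0 := u _ (by simp)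
        refine eq_zero q0 z.1 (eq_zero q1 z.2 (ih.1 _ ((o.d _).up.d _) u2
          (cancel (h := fun s => (s + 1) * s) (V_map _ _) (mul_ne_zero x1 x0) (fun s l => ?_) i)))
        rw [V_cons, V_cons false]
        cases l with
        | nil => simp [q0, q1, z.1, z.2, u2.val]
        | cons s' l => simp [z.1, z.2, mul_assoc]
      have : ∀ k, All (· = 0) k p → p = 0 := fun k => by
        induction k with
        | zero => exact id
        | succ k ih => exact fun hk => ih (step k hk)
      exact this _ h.all

theorem short {p : P} (h : ∀ w, ¬ [true, true] <:+: w → p w = 0) (τ : List F2) :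
    V true p (τ.map c ++ [0]) = 0 := by
  have a : All (fun q => ∀ w, ¬ [true, true] <:+: w → q w = 0) τ.length p :=
    all_of (fun q hq => ⟨fun w hw => hq _ (by simpa [List.infix_cons_iff] using hw),
      fun w hw => hq _ (by simpa [List.infix_cons_iff] using hw)⟩) _ h
  refine (pt_iff 0).2 ((all_true (fun q hq => ?_) _ p).mp a) τ rfl
  rw [V_cons, hq [] (by simp), V_nil]
  simp

theorem core {N : ℕ} {p : P} (h : Ok N p) (hi : Inv (V true p))
    (hc : ∀ τ : List F2, V true p (τ.map c ++ [1]) = 0) : p = 0 :=
  (main N).2 p h (cube h hc) fun _ hz => rec_inv hz fun _ _ _ _ _ _ => hi _ _ _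

end Pool.Agent.DD.F.A65
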