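import Pool.Agent.Lib.DD.A1C94b

/-! The core of the first statement modulo 2, part three: the double induction. -/

set_option autoImplicit false

noncomputable section

namespace Pool.Agent.DD.F.C94

open Pool.Agent.DD.S39 FreeAlgebra TensorProduct LinearMap

theorem zo : ∀ c : K, c = 0 ∨ c = 1 := by decide

def PI (β : K) (m : ℕ) : Prop := ∀ (ι : Type) (s : Finset ι) (e : ι → ℕ) (a : ι → List ℕ) (n : ℕ),
  (∀ k ∈ s, (a k).length < m ∧ e k + (a k).sum = n) → (∀ k ∈ s, ∀ k' ∈ s, a k = a k' → k = k') →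
  InvV (∑ k ∈ s, we β (T (e k) (a k))) → s = ∅

def PO (m : ℕ) : Prop := ∀ (n : ℕ) (ι : Type) (s : Finset ι) (e : ι → ℕ) (a : ι → List ℕ)
  (i : ι → ℕ), (∀ k ∈ s, (a k).length < m ∧ e k + (a k).sum + i k = n) →
  (∀ k ∈ s, ∀ k' ∈ s, a k = a k' → i k = i k' → k = k') →
  wa (∑ k ∈ s, T (e k) (a k) * y ^ i k) ∈ Inv → wb (∑ k ∈ s, T (e k) (a k) * y ^ i k) ∈ Inv → s = ∅

theorem desc {γ : K} {m n : ℕ} (hI : PI γ m) {ι : Type} (s : Finset ι) (e : ι → ℕ)
    (a : ι → List ℕ) (i : ι → ℕ) (V U : ι → B)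
    (h : ∀ k ∈ s, (a k).length < m ∧ e k + (a k).sum + i k = n)
    (hi : ∀ k ∈ s, ∀ k' ∈ s, a k = a k' → i k = i k' → k = k')
    (hV : ∀ k, V k = if i k = 0 then T (e k) (a k) else U k * (y + γ • 1))
    (h0 : wa (∑ k ∈ s, V k) ∈ Inv) (h1 : wb (∑ k ∈ s, V k) ∈ Inv) :
    (∀ k ∈ s, i k ≠ 0) ∧ wa (∑ k ∈ s, U k) ∈ Inv ∧ wb (∑ k ∈ s, U k) ∈ Inv := by
  have hγ := zo γ
  have e1 : ∀ u, we γ (u * (y + γ • 1)) = wb u * Y := fun u => by
    rcases hγ with rfl | rfl <;> simp [we_eq, mul_add, wa_y, wb_y, add_assoc, two]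
  have h2 := add_mem h0 (Inv.smul_mem γ h1)
  simp only [hV] at h0 h1 h2
  rw [← we_eq, Finset.sum_ite, ← Finset.sum_mul, map_add, e1, map_sum] at h2
  have h3 := hI ι _ e a n (fun k hk => by
      have := Finset.mem_filter.1 hk
      have := h k this.1
      omega) (fun k hk k' hk' h => by
      rw [Finset.mem_filter] at hk hk'
      exact hi k hk.1 k' hk'.1 h (hk.2.trans hk'.2.symm)) (invV_of h2)
  have h4 := Finset.filter_eq_empty_iff.1 h3
  rw [Finset.sum_congr rfl fun k hk => if_neg (h4 hk), ← Finset.sum_mul] at h0 h1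
  refine ⟨fun k hk => h4 hk, ?_⟩
  rcases hγ with rfl | rfl
  · rw [zero_smul, add_zero] at h0 h1
    rw [wa_y] at h0
    rw [wb_y] at h1
    exact ⟨(add_mem_cancel_right (inv_div h0)).1 h1, inv_div h0⟩
  · rw [one_smul, mul_add, mul_one, map_add] at h0 h1
    rw [wb_y, add_assoc, two, add_zero] at h1
    rw [wa_y] at h0
    exact ⟨h1, inv_div ((add_mem_cancel_right h1).1 h0)⟩

theorem po_of {m : ℕ} (hI : PI 0 m) : PO m := fun n => by
  induction n using Nat.strong_induction_on with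
  | _ n ih =>
  intro ι s e a i h hi h0 h1
  obtain ⟨h2, h3, h4⟩ := desc hI s e a i _ (fun k => T (e k) (a k) * y ^ (i k - 1)) h hi
    (fun k => by rcases i k with _ | j <;> simp [pow_succ, mul_assoc]) h0 h1
  rcases s.eq_empty_or_nonempty with hs | ⟨k0, hk⟩
  · exact hs
  have := h k0 hk
  have := h2 k0 hk
  refine ih (n - 1) (by omega) ι s e a (fun k => i k - 1) (fun k hk => ?_)
    (fun k hk k' hk' h5 h6 => hi k hk k' hk' h5 ?_) h3 h4
  · have := h k hk
    have := h2 k hk
    omega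
  · have := h2 k hk
    have := h2 k' hk'
    omega

theorem split (a : List ℕ) :
    (∀ e ∈ a, e ≤ 1) ∨ ∃ p i Q, a = p ++ (i + 2) :: Q ∧ ∀ e ∈ Q, e ≤ 1 := by
  induction a with
  | nil => simp
  | cons e a ih =>
    rcases ih with h | ⟨p, i, Q, rfl, h⟩
    · by_cases he : e ≤ 1
      · exact .inl (by simpa [he] using h)
      · exact .inr ⟨[], e - 2, a, by simp; omega, h⟩
    · exact .inr ⟨e :: p, i, Q, rfl, h⟩

theorem pi_succ (β : K) {m : ℕ} (hO : PO m) : PI β (m + 1) := by
  classical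
  intro ι s e a n h hi hv
  have h1 : ∀ k ∈ s, ∃ p i Q, a k = p ++ (i + 2) :: Q ∧ ∀ e ∈ Q, e ≤ 1 := fun k hk =>
    (split (a k)).resolve_left fun hs => by
      have := lam_pi β (a k) hv
      rw [map_sum, Finset.sum_eq_single_of_mem k hk fun k' hk' hn => by
        rw [lam_T _ _ _ hs, if_neg fun h => hn (hi _ hk' _ hk h)], lam_T _ _ _ hs] at this
      simp at this
  choose! p i Q ha hQ using h1
  by_contra hs
  obtain ⟨k0, hk, hm⟩ := s.exists_max_image (fun k => (Q k).length) (Finset.nonempty_of_ne_empty hs)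
  rw [Finset.sum_congr rfl fun k hk => by rw [ha k hk, T_big, we_Y]] at hv
  have key := fun q => peel s (lam β (q :: Q k0)) (lam_Y β _) (Q k0).length.succ_pos
    (fun v hv => lam_len β v _ hv) _ _ _ _ (fun k hk =>
      ⟨DR_mono (Nat.succ_le_succ (hm k hk)) (DR_we β (hQ k hk)).1,
        DR_mono (Nat.succ_le_succ (hm k hk)) (DR_we β (hQ k hk)).2⟩) hv
  have k1 := key 1
  have k2 := key 0
  have t0 : ∀ a, x * rho a = T 0 a := fun a => by simp [T]
  have t1 : ∀ a, y * T 0 a = T 1 a := fun a => by simp [T, mul_assoc]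
  simp only [(lam_one β _ (hQ k0 hk)).1, (lam_one β _ (hQ k0 hk)).2, zero_smul, zero_add,
    ite_smul, one_smul, ← Finset.sum_filter, ← map_sum] at k1
  simp only [t0, t1, lam_T β _ _ (hQ k0 hk), ite_smul, one_smul, zero_smul, Finset.sum_add_distrib,
    ← Finset.sum_filter, ← map_sum] at k2
  have := hO (n - 2 - (Q k0).sum) ι _ e p i (fun k hk' => ?_) (fun k hk1 k' hk2 h1 h2 => ?_)
    ((add_mem_cancel_right k1).1 k2) k1
  · exact Finset.filter_eq_empty_iff.1 this hk rfl
  · rw [Finset.mem_filter] at hk'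
    have := h k hk'.1
    rw [ha k hk'.1, hk'.2] at this
    simp only [List.length_append, List.length_cons, List.sum_append, List.sum_cons] at this
    omega
  · rw [Finset.mem_filter] at hk1 hk2
    exact hi k hk1.1 k' hk2.1 (by rw [ha k hk1.1, ha k' hk2.1, h1, h2, hk1.2, hk2.2])

theorem pi_all (m : ℕ) : ∀ β, PI β m := by
  induction m with
  | zero => exact fun β ι s e a n h _ _ => Finset.eq_empty_of_forall_notMem fun k hk =>
      absurd (h k hk).1 (Nat.not_lt_zero _)
  | succ m ih => exact fun β => pi_succ β (po_of (ih 0))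

/-- primitive elements -/
def Pr (g : A) : Prop := C g = pi g ⊗ₜ 1 + 1 ⊗ₜ g

theorem Pr.add {g h : A} (hg : Pr g) (hh : Pr h) : Pr (g + h) := by
  rw [Pr, map_add, hg, hh, map_add, add_tmul, tmul_add]; abel

theorem Pr.lie {g h : A} (hg : Pr g) (hh : Pr h) : Pr (g * h - h * g) := by
  rw [Pr, map_sub, map_mul, map_mul, hg, hh]
  simp [mul_add, add_mul, sub_tmul, tmul_sub]
  abel

theorem Pr.smul {g : A} (c : K) (hg : Pr g) : Pr (c • g) := by
  rw [Pr, map_smul, hg, map_smul, smul_add, smul_tmul', tmul_smul]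

theorem lie_th {f : B} (h : IsLie f) :
    ∃ (c : K) (g g' : A), Pr g ∧ Pr g' ∧ th f = c • !![0, 1; Y, 1] + !![g, 0; g', g] := by
  have p0 : Pr 0 := by simp [Pr]
  have pG : ∀ s, Pr (G s) := fun s => by simp [Pr]
  have pY : Pr Y := by simp [Pr]
  refine h.ind (P := fun f => ∃ (c : K) (g g' : A), Pr g ∧ Pr g' ∧
    th f = c • !![0, 1; Y, 1] + !![g, 0; g', g]) ?_ ?_ ?_ ?_ ?_ ?_
  · exact ⟨0, _, _, pG false, (pG true).add (pG false), by simp [th_x]⟩
  · exact ⟨1, 0, 0, p0, p0, by simp [th_y]⟩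
  · exact ⟨0, 0, 0, p0, p0, by ext1 i j; fin_cases i <;> fin_cases j <;> simp⟩
  · rintro f g _ _ ⟨c, a, a', h1, h2, h3⟩ ⟨d, b, b', h4, h5, h6⟩
    refine ⟨c + d, _, _, h1.add h4, h2.add h5, ?_⟩
    rw [map_add, h3, h6]
    ext1 i j
    fin_cases i <;> fin_cases j <;> simp [add_smul] <;> abel
  · rintro r f _ ⟨c, a, a', h1, h2, h3⟩
    refine ⟨r * c, _, _, h1.smul r, h2.smul r, ?_⟩
    rw [map_smul, h3]
    ext1 i j
    fin_cases i <;> fin_cases j <;> simp [mul_smul]
  · rintro f g _ _ ⟨c, a, a', h1, h2, h3⟩ ⟨d, b, b', h4, h5, h6⟩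
    refine ⟨0, _, _, (h1.lie h4).add ((h5.smul c).add (h2.smul d)), ((h2.lie h4).add (h1.lie h5)).add
      ((((pY.lie h4).add h5).smul c).add (((pY.lie h1).add h2).smul d)), ?_⟩
    rw [map_sub, map_mul, map_mul, h3, h6]
    ext1 i j
    fin_cases i <;> fin_cases j <;> simp [mul_add, add_mul] <;> match_scalars <;>
      rcases zo c with rfl | rfl <;> rcases zo d with rfl | rfl <;> decide

/-- the translation `y ↦ y + 1` -/
def tau : B →ₐ[K] B := ev x (y + 1)

theorem tau_x : tau x = x := ev_x _ _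
theorem tau_y : tau y = y + 1 := ev_y _ _
theorem tau_y1 : tau (y + 1) = y := by rw [map_add, tau_y, map_one, add_assoc, two, add_zero]

theorem tau_lie {f : B} (h : IsLie f) : ∃ c : K, tau f = f + c • 1 := by
  refine h.ind (P := fun f => ∃ c : K, tau f = f + c • 1) ⟨0, by simp [tau_x]⟩
    ⟨1, by simp [tau_y]⟩ ⟨0, by simp⟩ ?_ ?_ ?_
  · rintro f g _ _ ⟨c, h1⟩ ⟨d, h2⟩
    exact ⟨c + d, by rw [map_add, h1, h2, add_smul]; abel⟩
  · rintro r f _ ⟨c, h1⟩
    exact ⟨r * c, by rw [map_smul, h1, smul_add, mul_smul]⟩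
  · rintro f g _ _ ⟨c, h1⟩ ⟨d, h2⟩
    refine ⟨0, ?_⟩
    rw [map_sub, map_mul, map_mul, h1, h2]
    simp [mul_add, add_mul, smul_smul, mul_comm c d]
    abel

/-- the runs of the letter `y` -/
def runs : List Bool → ℕ × List ℕ
  | [] => (0, [])
  | true :: w => ((runs w).1 + 1, (runs w).2)
  | false :: w => (0, (runs w).1 :: (runs w).2)

theorem runs_inj (w : List Bool) : ∀ w', runs w = runs w' → w = w' := by
  induction w with
  | nil => rintro (_ | ⟨_ | _, w'⟩) h <;> simp [runs] at h ⊢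
  | cons s w ih =>
    rintro (_ | ⟨_ | _, w'⟩) h <;> cases s <;> simp [runs] at h ⊢ <;>
      exact ih _ (Prod.ext h.1 h.2)

theorem runs_sum (w : List Bool) : (runs w).1 + (runs w).2.sum = w.count true := by
  induction w with
  | nil => rfl
  | cons s w ih => cases s <;> simp [runs, ← ih]; omega

theorem runs_ne (w : List Bool) (h : false ∈ w) : (runs w).2 ≠ [] := by
  induction w with
  | nil => simp at h
  | cons s w ih => cases s; exacts [by simp [runs], ih (by simpa using h)]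

def FF (a : List ℕ) : B := (a.map fun e => x * tw e).prod

theorem tau_Sw (w : List Bool) : tau (Sw false w) = y ^ (runs w).1 * FF (runs w).2 ∧
    tau (Sw true w) = tw (runs w).1 * FF (runs w).2 := by
  induction w with
  | nil => simp [Sw, runs, FF, tw]
  | cons s w ih =>
    cases s
    · simp [Sw, runs, FF, tw, ih.2, tau_x, mul_assoc]
    · simp only [Sw, runs, map_mul, tau_y1, tau_y, ih.1, tw, ← mul_assoc]
      simp only [mul_add, add_mul, ← pow_succ, ← pow_succ', one_mul, mul_one, and_self]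

theorem FF_app (a : List ℕ) (i : ℕ) : FF (a ++ [i]) = x * rho a * tw i := by
  induction a with
  | nil => simp [FF, rho]
  | cons e a ih =>
    rw [rho_cons, List.cons_append, FF, List.map_cons, List.prod_cons, ← FF, ih]
    simp only [mul_assoc]

theorem kill {R : Type} [Ring R] [Algebra K R] (ψ : B →ₐ[K] R) (h : ψ (y * (y + 1)) = 0)
    (w : List Bool) (hw : [true, true] <:+: w) : ψ (y * Sw false w) = 0 ∧ ψ (Sw true w) = 0 := by
  have h1 : ∀ w, ψ (y * Sw false (true :: w)) = 0 := fun w => by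
    rw [Sw, ← mul_assoc, map_mul, h, zero_mul]
  induction w with
  | nil => simp at hw
  | cons s w ih =>
    rw [List.infix_cons_iff] at hw
    cases s
    · have := (ih (hw.resolve_left (by simp))).2
      simp [Sw, this]
    · refine ⟨h1 w, ?_⟩
      rcases hw with ⟨t, ht⟩ | hw
      · obtain rfl : w = true :: t := by simpa using ht.symm
        exact h1 t
      · exact (ih hw).1

theorem core : St_CORE65 := by
  classical
  intro f r n c hL h1 h2 h3
  let b := basisFreeMonoid K Bool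
  let s := (b.repr f).support
  have hs : ∀ w ∈ s, co w.toList f ≠ 0 := fun w hw => Finsupp.mem_support_iff.1 hw
  have hy : ∀ w ∈ s, [true, true] <:+: w.toList := fun w hw =>
    by_contra fun h => hs w hw (h2 _ h)
  have hf : f = ∑ w ∈ s, b w := by
    conv_lhs => rw [← b.linearCombination_repr f, Finsupp.linearCombination_apply, Finsupp.sum]
    exact Finset.sum_congr rfl fun w hw => by
      rw [(zo _).resolve_left (Finsupp.mem_support_iff.1 hw), one_smul]
  have hS : Sop f = ∑ w ∈ s, Sw false w.toList := by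
    conv_lhs => rw [hf, map_sum]
    exact Finset.sum_congr rfl fun w _ => b.constr_basis _ _ w
  obtain ⟨c', h4⟩ := tau_lie hL
  have h5 := congrArg tau h3
  rw [map_add, map_smul, map_pow, tau_x, h4, add_assoc, hS, map_sum] at h5
  have h6 := congrArg (ev x (0 : B)) h5
  have h7 : ev x (0 : B) f = 0 := by
    rw [hf, map_sum]
    refine Finset.sum_eq_zero fun w hw => ?_
    obtain ⟨p, q, h⟩ := hy w hw
    rw [← FreeMonoid.ofList_toList w, ← h]
    simp [b, basisFreeMonoid, equivMonoidAlgebraFreeMonoid, ev]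
  rw [map_sum, Finset.sum_eq_zero fun w hw => by
    simpa [tau_y] using (kill ((ev x (0 : B)).comp tau) (by
      rw [AlgHom.comp_apply, map_mul tau, tau_y1]; simp) _ (hy w hw)).1,
    map_add, h7, zero_add, map_add, map_smul, map_smul, map_one, map_pow, ev_x] at h6
  rw [← h6, add_zero] at h5
  obtain ⟨d, g, g', p1, -, p2⟩ := lie_th hL
  have h8 : pi g = 0 := by
    have : (pi.mapMatrix.comp th) ((y + 1) * f) = 0 := by
      rw [← h5, Finset.mul_sum, map_sum]
      refine Finset.sum_eq_zero fun w hw => ?_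
      have := (kill ((pi.mapMatrix.comp th).comp tau) (by
        rw [AlgHom.comp_apply, map_mul tau, tau_y1, tau_y, add_mul, one_mul, ← mul_add_one,
          AlgHom.comp_apply, th_Y]
        ext1 i j
        fin_cases i <;> fin_cases j <;> simp) _ (hy w hw)).1
      rwa [AlgHom.comp_apply, map_mul tau, tau_y] at this
    have := congrFun (congrFun this 0) 1
    rw [AlgHom.comp_apply, map_mul, map_add, th_y, p2] at this
    simpa [Matrix.mul_apply, Matrix.one_apply, ← add_assoc, two] using this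
  rw [Pr, h8, zero_tmul, zero_add] at p1
  have ha : ∀ w ∈ s, ∃ a i, (runs w.toList).2 = a ++ [i] := fun w hw => by
    simpa using (List.eq_nil_or_concat _).resolve_left (runs_ne _ (h1 _ (hs w hw)).2)
  choose! a i ha using ha
  rw [Finset.sum_congr rfl fun w hw => by
    rw [(tau_Sw _).1, ha w hw, FF_app, ← mul_assoc, ← mul_assoc, ← T]] at h5
  have q1 : ∀ w ∈ s, (a w).length < s.sup (fun w => (a w).length) + 1 ∧
      (runs w.toList).1 + (a w).sum + i w = r := fun w hw =>
    ⟨Nat.lt_succ_of_le (Finset.le_sup (f := fun w => (a w).length) hw), by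
      rw [← (h1 _ (hs w hw)).1, ← runs_sum, ha w hw]; simp [add_assoc]⟩
  have q2 : ∀ k ∈ s, ∀ k' ∈ s, a k = a k' → i k = i k' → k = k' := fun k hk k' hk' e1 e2 =>
    FreeMonoid.toList.injective (runs_inj _ _ (Prod.ext (by
      have := q1 k hk
      have := q1 k' hk'
      rw [e1, e2] at *
      omega) (by rw [ha k hk, ha k' hk', e1, e2])))
  obtain ⟨q3, q4, q5⟩ := desc (pi_all _ 1) s _ a i
    (fun w => T (runs w.toList).1 (a w) * tw (i w))
    (fun w => T (runs w.toList).1 (a w) * y ^ (i w - 1)) q1 q2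
    (fun k => by rcases i k with _ | j <;> simp [tw, mul_assoc])
    (by rw [h5, wa_eq, p2]; simpa using mem_Inv.2 p1)
    (by rw [h5, wb_eq, p2]; simpa using Inv.smul_mem d (mem_Inv.2 (map_one C)))
  rw [hf, po_of (pi_all _ 0) (r - 1) _ s (fun w => (runs w.toList).1) a (fun w => i w - 1)
    (fun k hk => ⟨(q1 k hk).1, by
    have := q1 k hk
    have := q3 k hk
    omega⟩) (fun k hk k' hk' e1 e2 => q2 k hk k' hk' e1 (by
      have := q3 k hk
      have := q3 k' hk'
      omega)) q4 q5, Finset.sum_empty]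

end Pool.Agent.DD.F.C94
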