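import Pool.Agent.Lib.DD.A1D65
import Mathlib.RingTheory.TensorProduct.Basic
import Mathlib.Algebra.CharP.Two

/-! The core of the first statement modulo 2, part one: the coaction and the right quotients. -/

set_option autoImplicit false

noncomputable section

namespace Pool.Agent.DD.F.C94

open Pool.Agent.DD.S39 FreeAlgebra TensorProduct LinearMap

abbrev K : Type := ZMod 2
abbrev A : Type := FreeAlgebra K (Option Bool)

def Y : A := ι K none
def G (s : Bool) : A := ι K (some s)

/-- words without `Y` -/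
def gw (v : List Bool) : A := (v.map G).prod

theorem two {M : Type*} [AddCommGroup M] [Module K M] (a : M) : a + a = 0 := by
  rw [← two_smul K, show (2 : K) = 0 from rfl, zero_smul]

theorem gw_app (u v : List Bool) : gw (u ++ v) = gw u * gw v := by simp [gw]

/-- the coaction -/
def C : A →ₐ[K] A ⊗[K] A := FreeAlgebra.lift K fun o =>
  o.elim (1 ⊗ₜ Y) fun s => G s ⊗ₜ 1 + 1 ⊗ₜ G s

@[simp] theorem C_Y : C Y = 1 ⊗ₜ Y := by simp [C, Y]
@[simp] theorem C_G (s : Bool) : C (G s) = G s ⊗ₜ 1 + 1 ⊗ₜ G s := by simp [C, G]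

/-- invariant elements -/
def Inv : Submodule K A := eqLocus C.toLinearMap (TensorProduct.mk K A A 1)

theorem mem_Inv {u : A} : u ∈ Inv ↔ C u = 1 ⊗ₜ u := Iff.rfl

/-- invariant modulo the words that end in `Y` -/
def InvV (u : A) : Prop := ∃ τ, C u = 1 ⊗ₜ u + τ * 1 ⊗ₜ Y

theorem invV_of {u z : A} (h : u + z * Y ∈ Inv) : InvV u := by
  rw [mem_Inv, map_add, map_mul, C_Y, tmul_add] at h
  exact ⟨1 ⊗ₜ z - C z, by rw [sub_mul, ← add_sub_assoc, eq_sub_iff_add_eq, h]; simp⟩

theorem exR (l : A →ₗ[K] K) (hY : ∀ c d, l (c * Y * d) = 0) :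
    ∃ R : A →ₗ[K] A, ∀ c v, R (c * Y * gw v) = l (gw v) • c := by
  let T : A →ₐ[K] Module.End K (A × A) := FreeAlgebra.lift K fun o =>
    (mulLeft K (ι K o)).prodMap (mulLeft K (ι K o)) +
      o.elim (inr K A A ∘ₗ Algebra.linearMap K A ∘ₗ l ∘ₗ fst K A A) fun _ => 0
  have h1 : ∀ v, T (gw v) (1, 0) = (gw v, 0) := fun v => by
    induction v with
    | nil => simp [gw]
    | cons s v ih =>
      rw [← List.singleton_append, gw_app, map_mul, Module.End.mul_apply, ih]; simp [T, gw, G]
  have h2 : ∀ c u r, (∀ d, l (d * u) = 0) → T c (u, r) = (c * u, c * r) := fun c => by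
    induction c using FreeAlgebra.induction with
    | grade0 a => intro u r _; simp [Algebra.smul_def]
    | grade1 o => intro u r h; cases o <;> simp [T, show l u = 0 by simpa using h 1]
    | mul a b ha hb =>
      intro u r h
      rw [map_mul, Module.End.mul_apply, hb u r h, ha _ _ fun d => by rw [← mul_assoc, h]]
      simp [mul_assoc]
    | add a b ha hb => intro u r h; simp [ha u r h, hb u r h, add_mul]
  refine ⟨snd K A A ∘ₗ applyₗ ((1 : A), (0 : A)) ∘ₗ T.toLinearMap, fun c v => ?_⟩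
  have h3 : T Y (gw v, 0) = (Y * gw v, algebraMap K A (l (gw v))) := by simp [T, Y]
  change (T _ (1, 0)).2 = _
  rw [map_mul, map_mul, Module.End.mul_apply, Module.End.mul_apply, h1, h3,
    h2 _ _ _ fun d => by rw [← mul_assoc, hY]]
  simp [Algebra.smul_def, Algebra.commutes]

section R

variable {l : A →ₗ[K] K} {R : A →ₗ[K] A} (hR : ∀ c v, R (c * Y * gw v) = l (gw v) • c)
include hR

theorem RT (σ : A ⊗[K] A) (v : List Bool) :
    lTensor A R (σ * 1 ⊗ₜ (Y * gw v)) = l (gw v) • σ := by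
  induction σ using TensorProduct.induction_on with
  | zero => simp
  | tmul a b => simp [← mul_assoc, hR]
  | add a b ha hb => simp [add_mul, ha, hb]

theorem RC {j : ℕ} (hl : ∀ v, v.length < j → l (gw v) = 0) (v : List Bool) :
    ∀ (u : List Bool) (σ : A ⊗[K] A), u.length + v.length ≤ j →
      lTensor A R (σ * 1 ⊗ₜ (Y * gw u) * C (gw v)) = l (gw (u ++ v)) • σ := by
  induction v with
  | nil => intro u σ _; simpa [gw] using RT hR σ u
  | cons s v ih =>
    intro u σ h
    rw [List.length_cons] at h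
    have e : σ * 1 ⊗ₜ (Y * gw u) * C (gw (s :: v)) = σ * G s ⊗ₜ 1 * 1 ⊗ₜ (Y * gw u) * C (gw v) +
        σ * 1 ⊗ₜ (Y * gw (u ++ [s])) * C (gw v) := by
      simp [gw, mul_add, add_mul, mul_assoc, ← mul_assoc (_ ⊗ₜ _)]
    rw [e, map_add, ih u _ (by omega), ih (u ++ [s]) _ (by simp; omega), hl _ (by simp; omega)]
    simp

end R

theorem inv_div {z : A} (h : z * Y ∈ Inv) : z ∈ Inv := by
  obtain ⟨R, hR⟩ := exR (algebraMapInv (R := K)).toLinearMap (by simp [Y, algebraMapInv])
  have e := congrArg (lTensor A R) (mem_Inv.1 h)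
  have h1 := RT hR (C z) []
  have h2 := hR z []
  simp only [gw, List.map_nil, List.prod_nil, mul_one, map_one, AlgHom.toLinearMap_apply,
    one_smul] at h1 h2
  rwa [map_mul, C_Y, h1, lTensor_tmul, h2] at e

/-- words of length at most `j`, and words with a last run shorter than `j` -/
def DR (j : ℕ) : Submodule K A := Submodule.span K
  ({w | ∃ v, v.length ≤ j ∧ w = gw v} ∪ {w | ∃ c v, v.length < j ∧ w = c * Y * gw v})

theorem DR_mono {i j : ℕ} (h : i ≤ j) : DR i ≤ DR j :=
  Submodule.span_mono <| Set.union_subset_union (fun _ ⟨v, h1, h2⟩ => ⟨v, h1.trans h, h2⟩)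
    fun _ ⟨c, v, h1, h2⟩ => ⟨c, v, h1.trans_le h, h2⟩

theorem DR_G {j : ℕ} {w : A} (h : w ∈ DR j) (s : Bool) : w * G s ∈ DR (j + 1) := by
  induction h using Submodule.span_induction with
  | mem w h =>
    rcases h with ⟨v, h, rfl⟩ | ⟨c, v, h, rfl⟩
    · exact Submodule.subset_span (.inl ⟨v ++ [s], by simpa, by simp [gw]⟩)
    · exact Submodule.subset_span (.inr ⟨c, v ++ [s], by simpa, by simp [gw, mul_assoc]⟩)
  | zero => simp
  | add a b _ _ ha hb => rw [add_mul]; exact add_mem ha hb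
  | smul a b _ hb => rw [smul_mul_assoc]; exact Submodule.smul_mem _ _ hb

theorem DR_Y {j : ℕ} (hj : 0 < j) (c : A) (s : Bool) : c * Y * G s ∈ DR (j + 1) :=
  Submodule.subset_span (.inr ⟨c, [s], by simpa, by simp [gw]⟩)

theorem DR_one (s : Bool) : G s ∈ DR 1 :=
  Submodule.subset_span (.inl ⟨[s], by simp, by simp [gw]⟩)

/-- the quotient by the longest last runs -/
theorem peel {ι : Type} (s : Finset ι) (l : A →ₗ[K] K) (hY : ∀ c d, l (c * Y * d) = 0) {j : ℕ}
    (hj : 0 < j) (hl : ∀ v, v.length < j → l (gw v) = 0) (c c' w w' : ι → A)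
    (hw : ∀ k ∈ s, w k ∈ DR j ∧ w' k ∈ DR j)
    (h : InvV (∑ k ∈ s, (c k * Y * w k + c' k * Y * w' k))) :
    ∑ k ∈ s, (l (w k) • c k + l (w' k) • c' k) ∈ Inv := by
  obtain ⟨R, hR⟩ := exR l hY
  have key : ∀ w ∈ DR j, ∀ c, R (c * Y * w) = l w • c ∧
      lTensor A R (C (c * Y * w)) = l w • C c := fun w hw => by
    have h0 : ∀ c v, v.length ≤ j → lTensor A R (C (c * Y * gw v)) = l (gw v) • C c :=
      fun c v h => by simpa [gw] using RC hR hl v [] (C c) (by simpa)
    induction hw using Submodule.span_induction with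
    | mem w h =>
      intro c
      rcases h with ⟨v, h, rfl⟩ | ⟨d, v, h, rfl⟩
      · exact ⟨hR c v, h0 c v h⟩
      · rw [hY, ← mul_assoc, ← mul_assoc, hR, h0 _ _ h.le, hl v h]; simp
    | zero => simp
    | add a b _ _ ha hb => intro c; simp only [mul_add, map_add, ha c, hb c, add_smul, and_self]
    | smul a b _ hb =>
      intro c; simp only [mul_smul_comm, map_smul, hb c, smul_eq_mul, mul_smul, and_self]
  obtain ⟨τ, h⟩ := h
  have e := congrArg (lTensor A R) h
  have h1 := RT hR τ []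
  rw [hl [] hj, zero_smul, show Y * gw [] = Y by simp [gw]] at h1
  rw [map_add, h1, add_zero, lTensor_tmul, map_sum, map_sum, map_sum] at e
  rw [mem_Inv, map_sum]
  refine (Finset.sum_congr rfl fun k hk => ?_).trans (e.trans (congrArg _
    (Finset.sum_congr rfl fun k hk => ?_)))
  · simp only [map_add, map_smul, (key _ (hw k hk).1 _).2, (key _ (hw k hk).2 _).2]
  · simp only [map_add, (key _ (hw k hk).1 _).1, (key _ (hw k hk).2 _).1]

/-- kill `Y` -/
def pi : A →ₐ[K] A := FreeAlgebra.lift K fun o => o.elim 0 G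

@[simp] theorem pi_Y : pi Y = 0 := by simp [pi, Y]
@[simp] theorem pi_G (s : Bool) : pi (G s) = G s := by simp [pi, G]

theorem InvV.pi {u : A} (h : InvV u) : ∃ a, pi u = algebraMap K A a := by
  let pe : A ⊗[K] A →ₐ[K] A := Algebra.TensorProduct.lift (AlgHom.id K A)
    ((Algebra.ofId K A).comp algebraMapInv) fun a b =>
      Algebra.commute_algebraMap_right (R := K) (algebraMapInv b) a
  have e : pe.comp C = C94.pi := FreeAlgebra.hom_ext (funext fun o => by
    cases o <;> simp [pe, C, C94.pi, Y, G, algebraMapInv])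
  obtain ⟨τ, h⟩ := h
  refine ⟨algebraMapInv u, ?_⟩
  rw [← e, AlgHom.comp_apply, h]
  simp [pe, Y, algebraMapInv, Algebra.ofId_apply]

end Pool.Agent.DD.F.C94
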