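import Pool.Agent.Lib.DD.A1C94a

/-! The core of the first statement modulo 2, part two: normal form and dual basis. -/

set_option autoImplicit false

noncomputable section

namespace Pool.Agent.DD.F.C94

open Pool.Agent.DD.S39 FreeAlgebra TensorProduct LinearMap

abbrev B : Type := FA K
abbrev x : B := lx K
abbrev y : B := ly K

/-- right multiplication in the basis `1, y` -/
def th : B →ₐ[K] Matrix (Fin 2) (Fin 2) A :=
  ev !![G false, 0; G true + G false, G false] !![0, 1; Y, 1]

def wa : B →ₗ[K] A := Matrix.entryLinearMap K _ 0 0 ∘ₗ th.toLinearMap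
def wb : B →ₗ[K] A := Matrix.entryLinearMap K _ 0 1 ∘ₗ th.toLinearMap
def we (β : K) : B →ₗ[K] A := wa + β • wb

theorem wa_eq (u : B) : wa u = th u 0 0 := rfl
theorem wb_eq (u : B) : wb u = th u 0 1 := rfl
theorem we_eq (β : K) (u : B) : we β u = wa u + β • wb u := rfl
theorem th_x : th x = !![G false, 0; G true + G false, G false] := ev_x _ _
theorem th_y : th y = !![0, 1; Y, 1] := ev_y _ _

theorem wa_x (u : B) : wa (u * x) = wa u * G false + wb u * (G true + G false) := by
  simp [wa_eq, wb_eq, th_x, Matrix.mul_apply]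
theorem wb_x (u : B) : wb (u * x) = wb u * G false := by
  simp [wb_eq, th_x, Matrix.mul_apply]
theorem wa_y (u : B) : wa (u * y) = wb u * Y := by simp [wa_eq, wb_eq, th_y, Matrix.mul_apply]
theorem wb_y (u : B) : wb (u * y) = wa u + wb u := by simp [wa_eq, wb_eq, th_y, Matrix.mul_apply]

theorem th_Y : th (y * (y + 1)) = !![Y, 0; 0, Y] := by
  ext1 i j
  fin_cases i <;> fin_cases j <;> simp [th_y, Matrix.mul_apply, Matrix.one_apply, two]

theorem we_Y (β : K) (u v : B) :
    we β (u * (y * (y + 1)) * v) = wa u * Y * we β v + wb u * Y * we β (y * v) := by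
  simp only [we_eq, wa_eq, wb_eq, map_mul th _ v, map_mul th u, th_Y, th_y]
  simp [Matrix.mul_apply, mul_add]
  abel

/-- the twisted powers of `y` -/
def tw : ℕ → B
  | 0 => 1
  | e + 1 => y ^ e * (y + 1)

def rho (a : List ℕ) : B := (a.map fun e => tw e * x).prod

def T (e : ℕ) (a : List ℕ) : B := y ^ e * x * rho a

theorem rho_cons (e : ℕ) (a : List ℕ) : rho (e :: a) = tw e * x * rho a := by simp [rho]

theorem T_big (e i : ℕ) (p Q : List ℕ) :
    T e (p ++ (i + 2) :: Q) = T e p * y ^ i * (y * (y + 1)) * (x * rho Q) := by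
  simp [T, rho, tw, pow_succ, mul_assoc]

theorem DR_rho (a : List ℕ) : ∀ (u : B) (j : ℕ), (∀ e ∈ a, e ≤ 1) → 0 < j → wa u ∈ DR j →
    wb u ∈ DR j → wa (u * rho a) ∈ DR (j + a.length) ∧ wb (u * rho a) ∈ DR (j + a.length) := by
  induction a with
  | nil => intro u j _ _ h1 h2; simpa [rho] using ⟨h1, h2⟩
  | cons e a ih =>
    intro u j h hj h1 h2
    rw [rho_cons, ← mul_assoc, ← mul_assoc, List.length_cons, add_comm _ 1, ← add_assoc]
    have h3 := h e (by simp)
    refine ih _ _ (fun e he => h e (by simp [he])) j.succ_pos ?_ ?_ <;> interval_cases e <;>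
      simp only [tw, mul_one, pow_zero, one_mul, mul_add, map_add, wa_x, wb_x, wa_y, wb_y, add_mul]
    · exact add_mem (DR_G h1 _) (add_mem (DR_G h2 _) (DR_G h2 _))
    · refine add_mem (add_mem (DR_Y hj _ _) ?_) ?_ <;>
        repeat first | exact DR_G h1 _ | exact DR_G h2 _ | refine add_mem ?_ ?_
    · exact DR_G h2 _
    · exact add_mem (add_mem (DR_G h1 _) (DR_G h2 _)) (DR_G h2 _)

theorem DR_we (β : K) {Q : List ℕ} (h : ∀ e ∈ Q, e ≤ 1) :
    we β (x * rho Q) ∈ DR (Q.length + 1) ∧ we β (y * (x * rho Q)) ∈ DR (Q.length + 1) := by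
  have h1 := DR_rho Q x 1 h one_pos (by simpa [wa_eq, th_x] using DR_one _) (by simp [wb_eq, th_x])
  have h2 := DR_rho Q (y * x) 1 h one_pos
    (by simpa [wa_eq, th_x, th_y, Matrix.mul_apply] using add_mem (DR_one _) (DR_one _))
    (by simpa [wb_eq, th_x, th_y, Matrix.mul_apply] using DR_one _)
  rw [add_comm] at h1 h2
  rw [← mul_assoc]
  exact ⟨add_mem h1.1 (Submodule.smul_mem _ _ h1.2), add_mem h2.1 (Submodule.smul_mem _ _ h2.2)⟩

abbrev M : Type := List ℕ → K

def cx : Module.End K M where
  toFun f l := match l with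
    | 0 :: l => f l
    | _ => 0
  map_add' f g := by funext l; simp only [Pi.add_apply]; split <;> simp
  map_smul' a f := by funext l; simp only [Pi.smul_apply]; split <;> simp

def cy (β : K) : Module.End K M where
  toFun f l := match l with
    | [] => β * f []
    | e :: l => if e ≤ 1 then f (0 :: l) else 0
  map_add' f g := by
    funext l; rcases l with _ | ⟨e, l⟩ <;> simp [mul_add]; split_ifs <;> simp
  map_smul' a f := by
    funext l; rcases l with _ | ⟨e, l⟩ <;> simp [mul_left_comm]

@[simp] theorem cx_nil (f : M) : cx f [] = 0 := rfl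
@[simp] theorem cx_zero (f : M) (l : List ℕ) : cx f (0 :: l) = f l := rfl
@[simp] theorem cx_succ (f : M) (e : ℕ) (l : List ℕ) : cx f ((e + 1) :: l) = 0 := rfl
@[simp] theorem cy_nil (β : K) (f : M) : cy β f [] = β * f [] := rfl
@[simp] theorem cy_cons (β : K) (f : M) (e : ℕ) (l : List ℕ) :
    cy β f (e :: l) = if e ≤ 1 then f (0 :: l) else 0 := rfl

theorem cy_cy (β : K) : cy β * cy β = cy β := by
  have : β * β = β := by revert β; decide
  ext1 f; funext l
  rcases l with _ | ⟨e, l⟩ <;> simp [← mul_assoc, this]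

def La (β : K) : A →ₐ[K] Module.End K M := FreeAlgebra.lift K fun o =>
  o.elim 0 fun s => if s then cy β * cx + cx * cy β + cx else cx

@[simp] theorem La_Y (β : K) : La β Y = 0 := by simp [La, Y]
theorem La_G (β : K) (s : Bool) :
    La β (G s) = if s then cy β * cx + cx * cy β + cx else cx := by simp [La, G]

theorem sg_eq (β : K) (u : B) :
    ev cx (cy β) u = La β (th u 0 0) + La β (th u 0 1) * cy β ∧
      cy β * ev cx (cy β) u = La β (th u 1 0) + La β (th u 1 1) * cy β := by
  induction u using ind with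
  | h0 r => simp [Matrix.algebraMap_matrix_apply, Algebra.commutes]
  | hx =>
    simp only [th_x, ev_x]
    simp [La_G, add_assoc, two, add_comm (cx * cy β)]
  | hy => simp only [th_y, ev_y]; simp [cy_cy]
  | hm f g hf hg =>
    rw [map_mul, ← mul_assoc, hf.2, map_mul]
    nth_rw 1 [hf.1]
    simp only [add_mul, mul_assoc, hg.2, Matrix.mul_apply, Fin.sum_univ_two, map_add, map_mul]
    simp only [hg.1, mul_add]
    constructor <;> abel
  | ha f g hf hg =>
    simp only [map_add, mul_add, hf.2, hg.2, Matrix.add_apply, add_mul]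
    rw [hf.1, hg.1]
    constructor <;> abel

def d0 : M := fun l => if l = [] then 1 else 0

/-- the dual basis -/
def lam (β : K) (P : List ℕ) : A →ₗ[K] K := proj P ∘ₗ applyₗ d0 ∘ₗ (La β).toLinearMap

theorem lam_eq (β : K) (P : List ℕ) (w : A) : lam β P w = La β w d0 P := rfl

theorem lam_Y (β : K) (P : List ℕ) (c d : A) : lam β P (c * Y * d) = 0 := by simp [lam_eq]

theorem lam_we (β : K) (P : List ℕ) (u : B) : lam β P (we β u) = ev cx (cy β) u d0 P := by
  have : cy β d0 = β • d0 := by funext l; rcases l with _ | ⟨e, l⟩ <;> simp [d0]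
  simp [(sg_eq β u).1, lam_eq, we_eq, wa_eq, wb_eq, this]

theorem lam_len (β : K) (v : List Bool) : ∀ P, v.length < P.length → lam β P (gw v) = 0 := by
  simp only [lam_eq]
  induction v with
  | nil => intro P h; rcases P with _ | ⟨e, l⟩ <;> simp [gw, d0] at h ⊢
  | cons s v ih =>
    have hx : ∀ (f : M) (j : ℕ), (∀ P, j < P.length → f P = 0) →
        ∀ P, j + 1 < P.length → cx f P = 0 := by
      rintro f j h (_ | ⟨_ | e, l⟩) hP
      exacts [rfl, h l (by simpa using hP), rfl]
    have hy : ∀ (f : M) (j : ℕ), (∀ P, j < P.length → f P = 0) →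
        ∀ P, j < P.length → cy β f P = 0 := by
      rintro f j h (_ | ⟨e, l⟩) hP
      · simp at hP
      · simp [h (0 :: l) hP]
    intro P hP
    rw [← List.singleton_append, gw_app, map_mul, show gw [s] = G s by simp [gw], La_G]
    cases s
    · exact hx _ _ ih P hP
    · simp [hy _ _ (hx _ _ ih) P hP, hx _ _ (hy _ _ ih) P hP, hx _ _ ih P hP]

theorem sg_rho (β : K) (a : List ℕ) : ∀ Q : List ℕ, (∀ e ∈ Q, e ≤ 1) →
    ev cx (cy β) (rho a) d0 Q = if a = Q then 1 else 0 := by
  induction a with
  | nil => intro Q _; simp [rho, d0, eq_comm]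
  | cons e a ih =>
    intro Q h
    have h2 : ∀ k, ev cx (cy β) (tw (k + 2)) = 0 := fun k => by
      simp [tw, pow_succ, mul_assoc, mul_add, cy_cy, two]
    rw [rho_cons]
    rcases Q with _ | ⟨q, Q⟩
    · rcases e with _ | _ | e
      · simp [tw]
      · simp [tw]
      · simp [h2]
    · have h3 := ih Q fun e he => h e (by simp [he])
      have h4 := h q (by simp)
      rcases e with _ | _ | e
      · interval_cases q <;> simp [tw, h3]
      · interval_cases q <;> simp [tw, h3, two]
      · rw [if_neg (by simp; omega)]; simp [h2]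

theorem lam_T (β : K) (e : ℕ) (a : List ℕ) {Q : List ℕ} (h : ∀ e ∈ Q, e ≤ 1) :
    lam β (0 :: Q) (we β (T e a)) = if a = Q then 1 else 0 := by
  rw [lam_we, ← sg_rho β a Q h, T]
  induction e with
  | zero => simp
  | succ e ih => simpa [pow_succ'] using ih

theorem lam_one (β : K) (a : List ℕ) {Q : List ℕ} (h : ∀ e ∈ Q, e ≤ 1) :
    lam β (1 :: Q) (we β (x * rho a)) = 0 ∧
      lam β (1 :: Q) (we β (y * (x * rho a))) = if a = Q then 1 else 0 := by
  simp [lam_we, ← sg_rho β a Q h]

theorem lam_pi (β : K) (Q : List ℕ) {u : A} (h : InvV u) : lam β (0 :: Q) u = 0 := by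
  obtain ⟨a, h⟩ := h.pi
  have e : (La β).comp pi = La β := FreeAlgebra.hom_ext (funext fun o => by
    cases o <;> simp [La, pi, G])
  rw [lam_eq, ← e, AlgHom.comp_apply, h]
  simp [d0]

end Pool.Agent.DD.F.C94
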