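import Pool.Agent.Lib.DD.A1C65
import Pool.Agent.Lib.DD.A1B25

/-! The first statement modulo 2. -/

namespace Pool.Agent.DD.F

theorem st_A1 : St_A1 := st_A1_of_core stCORE65

end Pool.Agent.DD.F
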