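import Mathlib.Algebra.Polynomial.Roots
import Mathlib.Algebra.CharP.Two
import Mathlib.LinearAlgebra.Pi
import Mathlib.LinearAlgebra.Basis.Basic
import Mathlib.Tactic.Ring
import Mathlib.Tactic.LinearCombination

/-! Twisted evaluation of coefficient functions along walks, over a field of characteristic 2. -/

set_option autoImplicit false

noncomputable section

namespace Pool.Agent.DD.W63

open Finset

variable {K : Type} [Field K]

/-- `ρ_0 = 1`, `ρ_(a+1) (s) = (s + η) s ^ a` -/
def rho (η : K) : ℕ → K → K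
  | 0, _ => 1
  | a + 1, s => (s + η) * s ^ a

/-- evaluation with every slot twisted -/
def Ev (N : ℕ) (η : K) : List K → (List ℕ → K) →ₗ[K] K
  | [] => LinearMap.proj []
  | s :: ss => ∑ a ∈ range N, rho η a s • (Ev N η ss ∘ₗ LinearMap.funLeft K K (a :: ·))

/-- evaluation with the first slot untwisted -/
def Eu (N : ℕ) (η : K) : List K → (List ℕ → K) →ₗ[K] K
  | [] => 0
  | s :: ss => ∑ a ∈ range N, s ^ a • (Ev N η ss ∘ₗ LinearMap.funLeft K K (a :: ·))

/-- positions of the walk with the given steps and end point `z` -/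
def pos (z : K) : List K → List K
  | [] => []
  | t :: w => (t + w.sum + z) :: pos z w

/-- sum over the shuffles -/
def Sh : List K → List K → (List K → K) →ₗ[K] K
  | [], w => LinearMap.proj w
  | a :: g, [] => LinearMap.proj (a :: g)
  | a :: g, b :: w => Sh g (b :: w) ∘ₗ LinearMap.funLeft K K (a :: ·) +
      Sh (a :: g) w ∘ₗ LinearMap.funLeft K K (b :: ·)
termination_by g w => g.length + w.length

variable {N : ℕ} {η : K}

@[simp] theorem Ev_nil (p : List ℕ → K) : Ev N η [] p = p [] := rfl

theorem Ev_cons (s : K) (ss : List K) (p : List ℕ → K) :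
    Ev N η (s :: ss) p = ∑ a ∈ range N, rho η a s * Ev N η ss fun l => p (a :: l) := by
  rw [Ev, LinearMap.sum_apply]; rfl

theorem Eu_cons (s : K) (ss : List K) (p : List ℕ → K) :
    Eu N η (s :: ss) p = ∑ a ∈ range N, s ^ a * Ev N η ss fun l => p (a :: l) := by
  rw [Eu, LinearMap.sum_apply]; rfl

@[simp] theorem Sh_nil (w : List K) (F : List K → K) : Sh [] w F = F w := by rw [Sh]; rfl

@[simp] theorem Sh_nil' (g : List K) (F : List K → K) : Sh g [] F = F g := by
  cases g with
  | nil => simp
  | cons a g => rw [Sh]; rfl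

theorem Sh_cons (a b : K) (g w : List K) (F : List K → K) :
    Sh (a :: g) (b :: w) F = Sh g (b :: w) (fun u => F (a :: u)) +
      Sh (a :: g) w fun u => F (b :: u) := by
  rw [Sh]; rfl

theorem Sh_congr (g w : List K) (F G : List K → K) (h : ∀ u, u.Perm (g ++ w) → F u = G u) :
    Sh g w F = Sh g w G := by
  induction g generalizing w F G with
  | nil => simpa using h w (by simp)
  | cons a g ih =>
    induction w generalizing F G with
    | nil => simpa using h _ (by simp)
    | cons b w ih' =>
      rw [Sh_cons, Sh_cons, ih _ _ _ fun u hu => h _ (hu.cons a),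
        ih' _ _ fun u hu => h _ ((hu.cons b).trans List.perm_middle.symm)]

theorem Sh_zero (g w : List K) (F : List K → K) (h : ∀ u, u.Perm (g ++ w) → F u = 0) :
    Sh g w F = 0 := (Sh_congr g w F 0 h).trans (map_zero _)

theorem Ev_zero (s : List K) (p : List ℕ → K) (h : ∀ l, p l = 0) : Ev N η s p = 0 := by
  rw [show p = 0 from funext h, map_zero]

theorem Eu_zero (s : List K) (p : List ℕ → K) (h : ∀ l, l ≠ [] → p l = 0) : Eu N η s p = 0 := by
  cases s with
  | nil => rfl
  | cons s ss =>
    rw [Eu_cons]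
    exact sum_eq_zero fun a _ => by rw [Ev_zero _ _ fun l => h _ (by simp), mul_zero]

theorem Ev_append (s s' : List K) (p : List ℕ → K) :
    Ev N η (s ++ s') p = Ev N η s fun l => Ev N η s' fun l' => p (l ++ l') := by
  induction s generalizing p with
  | nil => rfl
  | cons a s ih => simp only [List.cons_append, Ev_cons, ih]

theorem Eu_append (s s' : List K) (hs : s ≠ []) (p : List ℕ → K) :
    Eu N η (s ++ s') p = Eu N η s fun l => Ev N η s' fun l' => p (l ++ l') := by
  obtain ⟨a, s, rfl⟩ := List.exists_cons_of_ne_nil hs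
  simp only [List.cons_append, Eu_cons, Ev_append]

theorem Ev_comm {ι : Type} (Λ : (ι → K) →ₗ[K] K) (s : List K) (P : List ℕ → ι → K) :
    Λ (fun i => Ev N η s fun l => P l i) = Ev N η s fun l => Λ (P l) := by
  induction s generalizing P with
  | nil => rfl
  | cons a s ih =>
    simp only [Ev_cons, ← ih, ← smul_eq_mul, ← map_smul, ← map_sum]
    congr 1
    funext i
    simp

theorem pos_append (z : K) (u v : List K) : pos z (u ++ v) = pos (v.sum + z) u ++ pos z v := by
  induction u with
  | nil => rfl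
  | cons a u ih => simp [pos, ih, add_assoc]

theorem pos_length (z : K) (u : List K) : (pos z u).length = u.length := by
  induction u <;> simp [pos, *]

/-- polynomial functions -/
def IsP (f : K → K) : Prop := ∃ q : Polynomial K, ∀ z, q.eval z = f z

theorem IsP.const (c : K) : IsP fun _ => c := ⟨.C c, by simp⟩
theorem IsP.lin (c : K) : IsP fun z => c + z := ⟨.C c + .X, by simp⟩
theorem IsP.add {f g : K → K} (hf : IsP f) (hg : IsP g) : IsP fun z => f z + g z := by
  obtain ⟨p, hp⟩ := hf
  obtain ⟨q, hq⟩ := hg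
  exact ⟨p + q, by simp [hp, hq]⟩
theorem IsP.mul {f g : K → K} (hf : IsP f) (hg : IsP g) : IsP fun z => f z * g z := by
  obtain ⟨p, hp⟩ := hf
  obtain ⟨q, hq⟩ := hg
  exact ⟨p * q, by simp [hp, hq]⟩
theorem IsP.pow {f : K → K} (hf : IsP f) (n : ℕ) : IsP fun z => f z ^ n := by
  obtain ⟨p, hp⟩ := hf
  exact ⟨p ^ n, by simp [hp]⟩
theorem IsP.sum {f : ℕ → K → K} (hf : ∀ i, IsP (f i)) (n : ℕ) :
    IsP fun z => ∑ i ∈ range n, f i z := by
  choose q hq using hf
  exact ⟨∑ i ∈ range n, q i, by simp [Polynomial.eval_finsetSum, hq]⟩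

theorem IsP.zero [Infinite K] {f : K → K} (hf : IsP f) (S : Finset K) (h : ∀ z ∉ S, f z = 0)
    (z : K) : f z = 0 := by
  obtain ⟨q, hq⟩ := hf
  have : q = 0 := q.eq_zero_of_infinite_isRoot
    (S.finite_toSet.infinite_compl.mono fun z hz => (hq z).trans (h z hz))
  rw [← hq, this, Polynomial.eval_zero]

theorem coef_zero [Infinite K] (c : ℕ → K) (S : Finset K)
    (h : ∀ z ∉ S, ∑ i ∈ range N, z ^ i * c i = 0) (i : ℕ) (hi : i < N) : c i = 0 := by
  classical
  induction N generalizing c S i with
  | zero => omega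
  | succ N ih =>
    have h0 : c 0 = 0 := by
      simpa [sum_range_succ'] using (IsP.sum (fun i =>
        (((IsP.lin 0).pow i).mul (.const (c i)))) (N + 1)).zero S (by simpa using h) 0
    cases i with
    | zero => exact h0
    | succ i =>
      refine ih (fun i => c (i + 1)) (insert 0 S) (fun z hz => ?_) i (by omega)
      rw [mem_insert, not_or] at hz
      have := h z hz.2
      rw [sum_range_succ', h0, mul_zero, add_zero] at this
      refine (mul_eq_zero.1 ?_).resolve_left hz.1
      rw [mul_sum, ← this]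
      exact sum_congr rfl fun i _ => by ring

theorem isP_Ev (u : List K) (p : List ℕ → K) : IsP fun z => Ev N η (pos z u) p := by
  induction u generalizing p with
  | nil => exact .const _
  | cons a u ih =>
    simp only [pos, Ev_cons]
    refine IsP.sum (fun i => IsP.mul ?_ (ih _)) N
    cases i with
    | zero => exact .const _
    | succ i => exact ((IsP.lin _).add (.const _)).mul ((IsP.lin _).pow _)

theorem isP_Eu (u : List K) (p : List ℕ → K) : IsP fun z => Eu N η (pos z u) p := by
  cases u with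
  | nil => exact .const _
  | cons a u =>
    simp only [pos, Eu_cons]
    exact IsP.sum (fun i => ((IsP.lin _).pow _).mul (isP_Ev _ _)) N

theorem isP_Sh (g w : List K) (F : K → List K → K) (h : ∀ u, IsP fun z => F z u) :
    IsP fun z => Sh g w (F z) := by
  induction g generalizing w F with
  | nil => simpa using h w
  | cons a g ih =>
    induction w generalizing F with
    | nil => simpa using h _
    | cons b w ih' =>
      simp only [Sh_cons]
      exact (ih _ _ fun u => h _).add (ih' _ fun u => h _)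

theorem sum2 (s : K) (X : ℕ → K) (h0 : X 0 = 0) (h1 : X 1 = 0) (hN : ∀ e, N ≤ e → X e = 0) :
    ∑ e ∈ range N, rho η e s * X e = (s + η) * s * ∑ i ∈ range N, s ^ i * X (i + 2) := by
  have : ∑ e ∈ range (N + 2), rho η e s * X e = ∑ e ∈ range N, rho η e s * X e := by
    rw [sum_range_succ, sum_range_succ, hN N le_rfl, hN (N + 1) (by omega)]; simp
  rw [← this, sum_range_succ', sum_range_succ', h0, h1, mul_sum]
  simp only [rho, mul_zero, add_zero]
  exact sum_congr rfl fun i _ => by ring

/-- all entries lie in `{0, η}` -/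
def Sm (η : K) (g : List K) : Prop := ∀ a ∈ g, a = 0 ∨ a = η

/-- all exponents are at most one -/
def Sl (l : List ℕ) : Prop := ∀ e ∈ l, e ≤ 1

theorem Sm.nil : Sm η [] := by simp [Sm]
theorem sm_cons {a : K} {g : List K} : Sm η (a :: g) ↔ (a = 0 ∨ a = η) ∧ Sm η g := by simp [Sm]
theorem sl_cons {a : ℕ} {g : List ℕ} : Sl (a :: g) ↔ a ≤ 1 ∧ Sl g := by simp [Sl]

theorem cutR (g w τ : List K) (c : K) (F : List K → K) (hg : Sm η g) (hτ : Sm η τ)
    (hF : ∀ u v, Sm η v → τ.length < v.length → F (u ++ c :: v) = 0) :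
    Sh g (w ++ c :: τ) F = Sh g w fun u => F (u ++ c :: τ) := by
  induction g generalizing w F with
  | nil => simp
  | cons a g ih =>
    have hg' := (sm_cons.1 hg).2
    induction w generalizing F with
    | nil =>
      have := ih [] (fun u => F (a :: u)) hg' fun u v => hF (a :: u) v
      rw [List.nil_append] at this ⊢
      rw [Sh_cons, this, Sh_zero (a :: g) τ (fun u => F (c :: u)) fun u hu => hF [] u
        (fun x hx => (List.mem_append.1 (hu.subset hx)).elim (hg x) (hτ x))
        (by simp [hu.length_eq])]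
      simp
    | cons b w ih' =>
      rw [List.cons_append, Sh_cons, Sh_cons, ← List.cons_append,
        ih _ _ hg' fun u v => hF (a :: u) v, ih' _ fun u v => hF (b :: u) v]
      rfl

variable [CharP K 2]

theorem sm_add {a b : K} (ha : a = 0 ∨ a = η) (hb : b = 0 ∨ b = η) : a + b = 0 ∨ a + b = η := by
  rcases ha with rfl | rfl <;> rcases hb with h | h <;> simp [h, CharTwo.add_self_eq_zero]

theorem Sm.sum {g : List K} (hg : Sm η g) : g.sum = 0 ∨ g.sum = η := by
  induction g with
  | nil => simp
  | cons a g ih => exact sm_add (sm_cons.1 hg).1 (ih (sm_cons.1 hg).2)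

theorem Sm.pos {g : List K} (hg : Sm η g) {z : K} (hz : z = 0 ∨ z = η) : Sm η (pos z g) := by
  induction g with
  | nil => exact .nil
  | cons a g ih => exact sm_cons.2 ⟨sm_add hg.sum hz, ih (sm_cons.1 hg).2⟩

theorem Ev_eta (hN : 2 ≤ N) (ss : List K) (p : List ℕ → K) :
    Ev N η (η :: ss) p = Ev N η ss fun l => p (0 :: l) := by
  obtain ⟨M, rfl⟩ : ∃ M, N = M + 1 := ⟨N - 1, by omega⟩
  simp [Ev_cons, sum_range_succ', rho, CharTwo.add_self_eq_zero]

omit [CharP K 2] in
theorem Ev_nul (hN : 2 ≤ N) (ss : List K) (p : List ℕ → K) :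
    Ev N η (0 :: ss) p = Ev N η ss (fun l => p (0 :: l)) + η * Ev N η ss fun l => p (1 :: l) := by
  obtain ⟨M, rfl⟩ : ∃ M, N = M + 2 := ⟨N - 2, by omega⟩
  simp [Ev_cons, sum_range_succ', rho, add_comm]

theorem van (hN : 2 ≤ N) (σ : List K) (hσ : Sm η σ) (q : List ℕ → K)
    (h : ∀ l, Sl l → l.length = σ.length → q l = 0) : Ev N η σ q = 0 := by
  induction σ generalizing q with
  | nil => exact h [] (by simp [Sl]) rfl
  | cons a σ ih =>
    obtain ⟨ha, h'⟩ := sm_cons.1 hσ
    have e : ∀ e ≤ 1, Ev N η σ (fun l => q (e :: l)) = 0 := fun e he =>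
      ih h' _ fun l hl hn => h _ (sl_cons.2 ⟨he, hl⟩) (by simp [hn])
    rcases ha with rfl | rfl
    · rw [Ev_nul hN, e 0 (by omega), e 1 le_rfl]; simp
    · rw [Ev_eta hN, e 0 (by omega)]

theorem ind (hN : 2 ≤ N) (hη : η ≠ 0) (l : List ℕ) (hl : Sl l) (q : List ℕ → K)
    (h : ∀ σ, Sm η σ → σ.length = l.length → Ev N η σ q = 0) : q l = 0 := by
  induction l generalizing q with
  | nil => exact h [] .nil rfl
  | cons e l ih =>
    obtain ⟨he, h'⟩ := sl_cons.1 hl
    have e0 : ∀ σ, Sm η σ → σ.length = l.length → Ev N η σ (fun l => q (0 :: l)) = 0 :=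
      fun σ hσ hn => by rw [← Ev_eta hN, h _ (sm_cons.2 ⟨.inr rfl, hσ⟩) (by simp [hn])]
    obtain rfl | rfl : e = 0 ∨ e = 1 := by omega
    · exact ih h' _ e0
    · refine ih h' (fun l => q (1 :: l)) fun σ hσ hn => ?_
      have := h _ (sm_cons.2 ⟨.inl rfl, hσ⟩) (by simp [hn])
      rw [Ev_nul hN, e0 σ hσ hn, zero_add] at this
      exact (mul_eq_zero.1 this).resolve_left hη

theorem steps (σ : List K) (hσ : Sm η σ) (a : K) (ha : a = 0 ∨ a = η) :
    ∃ P b, Sm η P ∧ (b = 0 ∨ b = η) ∧ P.length = σ.length ∧ P.sum + b = a ∧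
      ∀ s, pos s (P ++ [b + s]) = a :: σ := by
  induction σ generalizing a with
  | nil => exact ⟨[], a, .nil, ha, rfl, by simp, by simp [pos, CharTwo.add_self_eq_zero, add_assoc]⟩
  | cons c σ ih =>
    obtain ⟨hc, h'⟩ := sm_cons.1 hσ
    obtain ⟨P, b, h1, h2, h3, h4, h5⟩ := ih h' c hc
    have e : a + c + (P.sum + b) = a := by rw [h4, add_assoc, CharTwo.add_self_eq_zero, add_zero]
    refine ⟨(a + c) :: P, b, sm_cons.2 ⟨sm_add ha hc, h1⟩, h2, by simp [h3],
      by simpa [add_assoc] using e, fun s => ?_⟩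
    rw [List.cons_append, pos, h5]
    simpa [add_assoc, CharTwo.add_self_eq_zero] using e

theorem steps0 (σ : List K) (hσ : Sm η σ) {β : K} (hβ : β = 0 ∨ β = η) :
    ∃ τ, Sm η τ ∧ τ.length = σ.length ∧ pos β τ = σ := by
  cases σ with
  | nil => exact ⟨[], .nil, rfl, rfl⟩
  | cons a σ =>
    obtain ⟨P, b, h1, h2, h3, -, h5⟩ := steps σ (sm_cons.1 hσ).2 a (sm_cons.1 hσ).1
    refine ⟨P ++ [b + β], fun x hx => ?_, by simp [h3], h5 β⟩
    rcases List.mem_append.1 hx with hx | hx
    · exact h1 x hx
    · rw [List.mem_singleton.1 hx]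
      exact sm_add h2 hβ

/-- support in length `m` and exponents `< N` -/
def Supp (N m : ℕ) (p : List ℕ → K) : Prop := ∀ a, p a ≠ 0 → a.length = m ∧ ∀ e ∈ a, e < N

/-- the statement `I_m` -/
def II (N m : ℕ) (β : K → K) : Prop := ∀ p : List ℕ → K, Supp N m p →
  (∀ η : K, η ≠ 0 → ∀ g w, g ≠ [] → Sm η g →
    Sh g w (fun u => Eu N η (pos (β η) u) p) = 0) → ∀ a, a ≠ [] → p a = 0

variable [Infinite K]

omit [CharP K 2] in
theorem OO {m : ℕ} (hI : II N m fun _ : K => 0) (M : ℕ) (p : ℕ → List ℕ → K) (hs : ∀ i, Supp N m (p i))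
    (h : ∀ η : K, η ≠ 0 → ∀ g w, g ≠ [] → Sm η g → ∃ S : Finset K, ∀ z ∉ S,
      ∑ i ∈ range M, z ^ i * Sh g w (fun u => Eu N η (pos z u) (p i)) = 0) :
    ∀ i < M, ∀ a, a ≠ [] → p i a = 0 := by
  classical
  induction M generalizing p with
  | zero => omega
  | succ M ih =>
    have h0 : ∀ a, a ≠ [] → p 0 a = 0 := hI _ (hs 0) fun η hη g w hg hm => by
      obtain ⟨S, hS⟩ := h η hη g w hg hm
      simpa [sum_range_succ'] using (IsP.sum (fun i => (((IsP.lin 0).pow i).mul
        (isP_Sh g w _ fun u => isP_Eu (N := N) (η := η) u (p i)))) (M + 1)).zero S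
        (by simpa using hS) 0
    intro i hi
    cases i with
    | zero => exact h0
    | succ i =>
      refine ih (fun i => p (i + 1)) (fun i => hs _) (fun η hη g w hg hm => ?_) i (by omega)
      obtain ⟨S, hS⟩ := h η hη g w hg hm
      refine ⟨insert 0 S, fun z hz => ?_⟩
      rw [mem_insert, not_or] at hz
      have := hS z hz.2
      rw [sum_range_succ', Sh_zero g w _ fun u _ => Eu_zero _ _ h0, mul_zero, add_zero] at this
      refine (mul_eq_zero.1 ?_).resolve_left hz.1
      rw [mul_sum, ← this]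
      exact sum_congr rfl fun i _ => by ring

theorem base (hN : 2 ≤ N) (p : List ℕ → K) (τ : List ℕ) (hτ : Sl τ)
    (h : ∀ η : K, η ≠ 0 → ∀ σ, Sm η σ → σ.length = τ.length → Eu N η (η :: σ) p = 0)
    (e : ℕ) (he : e < N) : p (e :: τ) = 0 := by
  refine coef_zero (fun e => p (e :: τ)) {0} (fun η hη => ?_) e he
  rw [mem_singleton] at hη
  refine ind hN hη τ hτ (fun l => ∑ i ∈ range N, η ^ i * p (i :: l)) fun σ hσ hn => ?_
  rw [← h η hη σ hσ hn, Eu_cons]
  simp only [← smul_eq_mul, ← map_smul, ← map_sum]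
  congr 1
  funext i
  simp

theorem lemI (hN : 2 ≤ N) (m : ℕ) (β : K → K) (hβ : ∀ η, β η = 0 ∨ β η = η) : II N m β := by
  classical
  induction m using Nat.strong_induction_on generalizing β with
  | _ m IH =>
  intro p hs h
  have B : ∀ τ, Sl τ → ∀ e, p (e :: τ) = 0 := fun τ hτ e => by
    by_contra hne
    refine hne (base hN p τ hτ (fun η hη σ hσ _ => ?_) e ((hs _ hne).2 e (by simp)))
    obtain ⟨g, h1, h2, h3⟩ := steps0 (η :: σ) (sm_cons.2 ⟨.inr rfl, hσ⟩) (hβ η)
    simpa [h3] using h η hη g [] (by rintro rfl; simp at h2) h1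
  have H : ∀ k (l τ : List ℕ), l ≠ [] → Sl τ → m ≤ τ.length + k → p (l ++ τ) = 0 := by
    intro k
    induction k with
    | zero =>
      intro l τ hl _ hm
      by_contra hne
      have := (hs _ hne).1
      have := List.length_pos_iff.2 hl
      simp at *; omega
    | succ k ih =>
      intro l τ hl hτ hm
      obtain ⟨l, e, rfl⟩ : ∃ l' e, l = l' ++ [e] := ⟨_, _, (List.dropLast_append_getLast hl).symm⟩
      rw [List.append_assoc, List.singleton_append]
      by_cases hl0 : l = []
      · subst hl0; exact B τ hτ e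
      by_cases he : e ≤ 1
      · exact ih l _ hl0 (sl_cons.2 ⟨he, hτ⟩) (by simp; omega)
      obtain ⟨i, rfl⟩ : ∃ i, e = i + 2 := ⟨e - 2, by omega⟩
      by_contra hne
      have hlen := (hs _ hne).1
      have hi := (hs _ hne).2 (i + 2) (by simp)
      rw [List.length_append, List.length_cons] at hlen
      refine hne (OO (IH l.length (by omega) _ fun _ => .inl rfl) N (fun i l => p (l ++ (i + 2) :: τ))
        (fun j a ha => ⟨?_, fun e he => (hs _ ha).2 e (by simp [he])⟩)
        (fun η hη g w hg hm' => ⟨{0, η}, fun z hz => ?_⟩) i (by omega) l hl0)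
      · have := (hs _ ha).1
        rw [List.length_append, List.length_cons] at this
        omega
      simp only [mem_insert, mem_singleton, not_or] at hz
      let Λ : (List ℕ → K) →ₗ[K] K := Sh g w ∘ₗ LinearMap.pi fun u => Eu N η (pos z u)
      have hΛ : ∀ q, Λ q = Sh g w fun u => Eu N η (pos z u) q := fun _ => rfl
      have key := ind hN hη τ hτ
        (fun τ' => ∑ e ∈ range N, rho η e z * Λ fun l => p (l ++ e :: τ')) fun σ hσ hn => by
          obtain ⟨t, h1, h2, h3⟩ := steps0 σ hσ (hβ η)
          have e1 := h η hη g (w ++ (z + (t.sum + β η)) :: t) hg hm'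
          rw [cutR g w t _ _ hm' h1 fun u v hv hl => by
            rw [List.append_cons, pos_append,
              Eu_append _ _ (by simp [← List.length_pos_iff, pos_length])]
            exact Eu_zero _ _ fun l hl' => van hN _ (hv.pos (hβ η)) _ fun l' h1 h2 =>
              ih l l' hl' h1 (by rw [pos_length] at h2; omega),
            Sh_congr g w _ (fun u => Eu N η (pos z u) fun l => Ev N η (z :: σ)
              fun l' => p (l ++ l')) fun u hu => by
            rw [pos_append, Eu_append _ _ (by
              have := List.length_pos_iff.2 hg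
              simp [← List.length_pos_iff, pos_length, hu.length_eq]; omega)]
            have e2 : z + (t.sum + β η) + t.sum + β η = z := by
              rw [add_assoc _ t.sum, add_assoc z, CharTwo.add_self_eq_zero, add_zero]
            rw [pos, List.sum_cons, e2, h3], ← hΛ, Ev_comm, Ev_cons] at e1
          rw [← e1]
          simp only [← smul_eq_mul, ← map_smul (Ev N η σ), ← map_sum]
          congr 1
          funext i
          simp
      have z0 : ∀ e ≤ 1, Λ (fun l => p (l ++ e :: τ)) = 0 := fun e he =>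
        Sh_zero g w _ fun u _ => Eu_zero _ _ fun l hl =>
          ih l _ hl (sl_cons.2 ⟨he, hτ⟩) (by simp; omega)
      rw [sum2 z _ (z0 0 (by omega)) (z0 1 le_rfl) fun e he => by
        rw [show (fun l => p (l ++ e :: τ)) = 0 from funext fun l => by
          by_contra hne
          exact absurd ((hs _ hne).2 e (by simp)) (by omega), map_zero]] at key
      exact (mul_eq_zero.1 key).resolve_left
        (mul_ne_zero (fun h => hz.2 (CharTwo.add_eq_zero.1 h)) hz.1)
  exact fun a ha => by simpa using H m a [] ha (by simp [Sl]) (by simp)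

omit [CharP K 2] in
theorem inj (m : ℕ) (p : List ℕ → K) (hs : Supp N m p) (h : ∀ s, Ev N 0 s p = 0) (a : List ℕ) :
    p a = 0 := by
  induction m generalizing p a with
  | zero =>
    by_contra hne
    rw [List.length_eq_zero_iff.1 (hs _ hne).1] at hne
    exact hne (h [])
  | succ m ih =>
    by_contra hne
    obtain ⟨e, a, rfl⟩ := List.exists_cons_of_length_eq_add_one (hs _ hne).1
    refine hne (ih (fun l => p (e :: l)) (fun l hl => ⟨by simpa using (hs _ hl).1,
      fun x hx => (hs _ hl).2 x (by simp [hx])⟩) (fun s => ?_) a)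
    refine coef_zero (fun e => Ev N 0 s fun l => p (e :: l)) ∅ (fun z _ => ?_) e
      ((hs _ hne).2 e (by simp))
    refine Eq.trans ?_ (h (z :: s))
    rw [Ev_cons]
    exact sum_congr rfl fun i _ => by cases i <;> simp [rho, pow_succ']

omit [CharP K 2] [Infinite K] in
theorem pos_map (c : K) (u : List K) : (pos 0 u).map (· + c) = pos c u := by
  induction u <;> simp [pos, *]

/-- harmonic, translation invariant, alternal in the steps and without multilinear monomial
forces zero -/
theorem core (hN : 2 ≤ N) (D : ℕ) (Φ : List ℕ → K) (hs : Supp N (D + 1) Φ)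
    (hH : ∀ η s, Eu N η s Φ = Ev N (0 : K) s Φ)
    (hT : ∀ c s, Ev N 0 (s.map (· + c)) Φ = Ev N (0 : K) s Φ)
    (hA : ∀ g w, g ≠ [] → w ≠ [] → Sh g w (fun u => Ev N 0 (pos 0 u ++ [0]) Φ) = 0)
    (hZ : ∀ l, Sl l → Φ l = 0) (a : List ℕ) : Φ a = 0 := by
  have h0 := lemI hN D id (fun _ => .inr rfl) (fun l => Φ (l ++ [0])) (fun l hl =>
    ⟨by simpa using (hs _ hl).1, fun e he => (hs _ hl).2 e (by simp [he])⟩) fun η _ g w hg hm => by
      rw [Sh_congr g w _ (fun u => Ev N 0 (pos 0 u ++ [0]) Φ) fun u hu => by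
        rw [← hT η, ← hH η, List.map_append, pos_map, Eu_append _ _ (by
          have := List.length_pos_iff.2 hg
          simp [← List.length_pos_iff, pos_length, hu.length_eq]; omega)]
        simp [Ev_eta hN]]
      by_cases hw : w = []
      · obtain ⟨b, g, rfl⟩ := List.exists_cons_of_ne_nil hg
        have h1 := hm.sum
        obtain ⟨M, rfl⟩ : ∃ M, N = M + 1 := ⟨N - 1, by omega⟩
        rw [hw, Sh_nil', ← hT (b :: g).sum, ← hH η, pos, List.cons_append, List.map_cons, add_zero,
          ← List.sum_cons (a := b), CharTwo.add_self_eq_zero, Eu_cons, sum_range_succ',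
          van hN _ _ (fun l => Φ (0 :: l)) fun l hl _ => hZ _ (sl_cons.2 ⟨by omega, hl⟩)]
        · simp
        rw [List.map_append, pos_map]
        intro x hx
        rcases List.mem_append.1 hx with hx | hx
        · exact (sm_cons.1 hm).2.pos h1 x hx
        · simp only [List.map_singleton, zero_add, List.mem_singleton] at hx
          exact hx ▸ h1
      · exact hA g w hg hw
  refine inj _ Φ hs (fun s => ?_) a
  rcases s.eq_nil_or_concat with rfl | ⟨s, c, rfl⟩
  · exact hZ [] (by simp [Sl])
  rw [← hT c, List.concat_eq_append, List.map_append, List.map_singleton,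
    CharTwo.add_self_eq_zero, Ev_append]
  refine Ev_zero _ _ fun l => ?_
  rw [Ev_eta hN]
  by_cases hl : l = []
  · exact hZ _ (by simp [hl, Sl])
  · exact h0 l hl

end Pool.Agent.DD.W63
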