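import Pool.Agent.Lib.DD.A2Blue
import Pool.Agent.Lib.DD.A1D65

/-! Reduction of `St_A1` to the combinatorial core. -/

set_option autoImplicit false

noncomputable section

namespace Pool.Agent.DD.F

namespace A1R

open Pool.Agent.DR Pool.Agent.DD.S39 Pool.Agent.DD.DS Pool.Agent.DD.F64 Pool.Agent.DD.F.GAM
  Pool.Agent.DD.F.A2 TensorProduct FreeAlgebra Polynomial

attribute [local instance 100] LieRing.ofAssociativeRing

abbrev En : Type := Module.End K2 (FA K2)

def Lx : En := LinearMap.mulLeft K2 (lx K2)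
def Ly : En := LinearMap.mulLeft K2 (ly K2)
def Rx : En := LinearMap.mulRight K2 (lx K2)

@[simp] theorem Lx_ap (u : FA K2) : Lx u = lx K2 * u := rfl
@[simp] theorem Ly_ap (u : FA K2) : Ly u = ly K2 * u := rfl
@[simp] theorem Rx_ap (u : FA K2) : Rx u = u * lx K2 := rfl

theorem cx : Commute Rx Lx := LinearMap.ext fun u => by simp [mul_assoc]
theorem cy : Commute Rx Ly := LinearMap.ext fun u => by simp [mul_assoc]

def aa (k : ℕ) : En := (Lx + Rx) ^ k * Ly

theorem ca (j k : ℕ) : Commute (aa j) (Rx ^ k) :=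
  ((((cx.add_right (Commute.refl _)).pow_right j).mul_right cy).pow_left k).symm

def A0 : FN K2 →ₐ[K2] En := lift K2 aa
def Ch : FN K2 →ₐ[K2] En := lift K2 fun k => Rx ^ k
def A1 : FN K2 →ₐ[K2] En := lift K2 fun k => aa k + Rx ^ k

/-! the shift -/

def Sb (b : Bool) : En := (basisFreeMonoid K2 Bool).constr K2 fun w => Sw b w.toList

theorem Sb_wrd (b : Bool) (w : List Bool) : Sb b (wrd K2 w) = Sw b w := by
  rw [wrd, ← bas, Sb, Module.Basis.constr_basis]; rfl

theorem eext {F G : En} (h : ∀ l, F (wrd K2 l) = G (wrd K2 l)) : F = G := LinearMap.ext (wext h)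

theorem xw (l : List Bool) : lx K2 * wrd K2 l = wrd K2 (false :: l) := (wrd_cons _ _).symm
theorem yw' (l : List Bool) : ly K2 * wrd K2 l = wrd K2 (true :: l) := (wrd_cons _ _).symm

theorem S_x (b : Bool) : Sb b * Lx = Lx * Sb true := eext fun l => by
  cases b <;> simp only [Module.End.mul_apply, Lx_ap, xw, Sb_wrd, Sw]

theorem S_y1 : Sb true * Ly = Ly * Sb false := eext fun l => by
  simp only [Module.End.mul_apply, Ly_ap, yw', Sb_wrd, Sw]

theorem S_y0 : Sb false * Ly = (Ly + 1) * Sb false := eext fun l => by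
  simp only [Module.End.mul_apply, LinearMap.add_apply, Ly_ap, yw', Sb_wrd,
    Sw, add_mul, one_mul]

theorem Sw_x (b : Bool) (l : List Bool) : Sw b (l ++ [false]) = Sw b l * lx K2 := by
  induction l generalizing b with
  | nil => cases b <;> simp [Sw]
  | cons s l ih => cases b <;> cases s <;> simp [Sw, ih, mul_assoc]

theorem S_R (b : Bool) : Sb b * Rx = Rx * Sb b := eext fun l => by
  have : wrd K2 l * lx K2 = wrd K2 (l ++ [false]) := by simp [wrd_append, lx]
  simp only [Module.End.mul_apply, Rx_ap, this, Sb_wrd, Sw_x]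

theorem aa_succ (k : ℕ) : aa (k + 1) = Lx * aa k + Rx * aa k := by
  rw [aa, pow_succ', mul_assoc, add_mul]; rfl

theorem S1_a (k : ℕ) : Sb true * aa k = aa k * Sb false := by
  induction k with
  | zero => simp [aa, S_y1]
  | succ k ih =>
    rw [aa_succ, mul_add, ← mul_assoc, ← mul_assoc, S_x, S_R, mul_assoc, mul_assoc, ih, add_mul,
      mul_assoc, mul_assoc]

theorem S0_a (k : ℕ) : Sb false * aa k = (aa k + Rx ^ k) * Sb false := by
  induction k with
  | zero => simp [aa, S_y0]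
  | succ k ih =>
    rw [aa_succ, mul_add, ← mul_assoc, ← mul_assoc, S_x, S_R, mul_assoc, mul_assoc, ih, S1_a,
      pow_succ']
    noncomm_ring

theorem S0_A (p : FN K2) : Sb false * A0 p = A1 p * Sb false := by
  induction p using FreeAlgebra.induction with
  | grade0 r => simp [Algebra.commutes]
  | grade1 k => simp [A0, A1, S0_a]
  | mul p q h1 h2 => rw [map_mul, map_mul, ← mul_assoc, h1, mul_assoc, h2, mul_assoc]
  | add p q h1 h2 => rw [map_add, map_add, mul_add, add_mul, h1, h2]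

/-! killing the letter `x` or `y` -/

def kx : FA K2 →ₐ[K2] FA K2 := ev 0 (ly K2)

theorem kx_wrd (l : List Bool) : kx (wrd K2 l) = if false ∈ l then 0 else wrd K2 l := by
  induction l with
  | nil => simp
  | cons s l ih =>
    rw [wrd_cons, map_mul, ih]
    cases s
    · simp [kx, S39.ev]
    · by_cases h : false ∈ l <;> simp [kx, S39.ev, h, ly]

theorem kx_Sw (b : Bool) (l : List Bool) (h : false ∈ l) : kx (Sw b l) = 0 := by
  induction l generalizing b with
  | nil => simp at h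
  | cons s l ih => cases b <;> cases s <;> simp_all [Sw, kx]

theorem ev_y0 (a : En) (l : List Bool) (h : true ∈ l) : ev a 0 (wrd K2 l) = 0 := by
  induction l with
  | nil => simp at h
  | cons s l ih => cases s <;> simp_all [S39.ev]

theorem ad_one (k : ℕ) : ((Lx + Rx) ^ (k + 1)) 1 = 0 := by
  rw [pow_succ, Module.End.mul_apply]; simp [two]

theorem ev_A0 (w : List Bool) (k : ℕ) :
    ((Lx + Rx) ^ k) (ev (Lx + Rx) Ly (wrd K2 w) 1) = A0 (yw K2 k w) 1 := by
  induction w generalizing k with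
  | nil => cases k <;> simp [yw, ad_one]
  | cons s w ih =>
    cases s
    · rw [yw, ← ih, pow_succ, ← xw, map_mul, ev_x]; rfl
    · rw [yw, map_mul, Module.End.mul_apply, ← ih, ← yw', map_mul, ev_y]
      simp [A0, yy, aa]

theorem ev_L (f u : FA K2) : ev Lx Ly f u = f * u := by
  induction f using S39.ind generalizing u with
  | h0 r => simp [Algebra.smul_def]
  | hx => simp
  | hy => simp
  | hm f g h1 h2 => simp [h1, h2, mul_assoc]
  | ha f g h1 h2 => simp [h1, h2, add_mul]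

theorem A0_piY {f : FA K2} (hf : IsLie f) (h : f ∈ Sp K2 fun l => true ∈ l) :
    A0 (piY f) 1 = f := by
  have h1 := hf.add_ev (a := Lx) (b := Ly) (s := Rx) (t := 0) cx cy (by simp) (by simp)
  have h2 : ev Rx 0 f = 0 := Sp_ext (ev Rx 0).toLinearMap 0 (fun l hl => ev_y0 _ l hl) h
  rw [add_zero, h2, add_zero] at h1
  have h3 := wext (F := LinearMap.applyₗ 1 ∘ₗ A0.toLinearMap ∘ₗ piY)
    (G := LinearMap.applyₗ 1 ∘ₗ (ev (Lx + Rx) Ly).toLinearMap) (fun l => by
      simpa [wrd, piY_word] using (ev_A0 l 0).symm) f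
  simpa [h1, ev_L] using h3

theorem Ch_yw (w : List Bool) (k : ℕ) :
    Ch (yw K2 k w) 1 ∈ Submodule.span K2 {lx K2 ^ (k + w.count false)} := by
  induction w generalizing k with
  | nil => cases k <;> simp [yw, Submodule.mem_span_singleton_self]
  | cons s w ih =>
    cases s
    · simpa [yw, add_assoc, add_comm 1] using ih (k + 1)
    · obtain ⟨c, h⟩ := Submodule.mem_span_singleton.1 (ih 0)
      refine Submodule.mem_span_singleton.2 ⟨c, ?_⟩
      rw [yw, map_mul, Module.End.mul_apply, ← h]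
      simp [Ch, yy, Rx, LinearMap.pow_mulRight, ← pow_add, add_comm]

/-! the lowest depth part of the stuffle relations -/

theorem low (Φ : FN K2 →ₐ[K2] En[X]) (Φ0 : FN K2 →ₐ[K2] En)
    (h : ∀ k, ∃ q, Φ (ι K2 k) = X * (C (Φ0 (ι K2 k)) + X * q)) (l : List ℕ) :
    ∃ q, Φ (wrd K2 l) = X ^ l.length * (C (Φ0 (wrd K2 l)) + X * q) := by
  induction l with
  | nil => exact ⟨0, by simp⟩
  | cons k l ih =>
    obtain ⟨q, e⟩ := ih
    obtain ⟨q', e'⟩ := h k
    refine ⟨q' * C (Φ0 (wrd K2 l)) + (C (Φ0 (ι K2 k)) + X * q') * q, ?_⟩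
    rw [wrd_cons, map_mul, map_mul, e, e', List.length_cons, pow_succ', mul_assoc, mul_assoc,
      ← mul_assoc _ (X ^ _), ← X_pow_mul, mul_assoc, ← mul_assoc X (X ^ _), ← mul_assoc X (X ^ _),
      mul_add (_ + _), ← mul_assoc (_ + _) X, ← X_mul (p := C _ + _), map_mul]
    noncomm_ring

abbrev wy : Bool → ℕ := wB 0 1

theorem wy_sum (l : List Bool) : (l.map wy).sum = l.count true := by
  induction l with
  | nil => rfl
  | cons s l ih => cases s <;> simp [wB, ih, add_comm]

theorem yw_Sp (w : List Bool) (k : ℕ) : yw K2 k w ∈ Sp K2 fun l => l.length = w.count true := by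
  induction w generalizing k with
  | nil => rw [yw]; split_ifs; exacts [wrd_Sp (l := []) rfl, zero_mem _]
  | cons s w ih =>
    cases s
    · simpa [yw] using ih (k + 1)
    · refine Sp_mul (p := fun l => l.length = 1) (fun l m h1 h2 => ?_) ?_ (ih 0)
      · simp [h1, h2, add_comm]
      · simpa [yy] using wrd_Sp (K := K2) (p := fun l => l.length = 1) (l := [k]) rfl

theorem low' (Φ : FN K2 →ₐ[K2] En[X]) (Φ0 : FN K2 →ₐ[K2] En)
    (h : ∀ k, ∃ q, Φ (ι K2 k) = X * (C (Φ0 (ι K2 k)) + X * q)) {r : ℕ} {ψ : FA K2}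
    (hψ : ψ ∈ Sp K2 fun l => r ≤ l.count true) :
    (Φ (piY ψ)).coeff r = Φ0 (piY (pr wy r ψ)) := by
  refine Sp_ext ((lcoeff En r).restrictScalars K2 ∘ₗ Φ.toLinearMap ∘ₗ piY)
    (Φ0.toLinearMap ∘ₗ piY ∘ₗ pr wy r) (fun w hw => ?_) hψ
  have h1 := Sp_ext ((lcoeff En r).restrictScalars K2 ∘ₗ Φ.toLinearMap)
    (if w.count true = r then Φ0.toLinearMap else 0) (fun l hl => ?_) (yw_Sp w 0)
  · simp only [LinearMap.comp_apply] at h1 ⊢
    rw [pr_H r (wrd_H wy w), wy_sum, wrd, piY_word, h1]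
    split_ifs
    · rw [piY_word]
    · simp
  · obtain ⟨q, e⟩ := low Φ Φ0 h l
    simp only [LinearMap.comp_apply, AlgHom.toLinearMap_apply, e, hl, LinearMap.restrictScalars_apply,
      lcoeff_apply, coeff_X_pow_mul']
    split_ifs with h2 h3 h3
    · simp [h3]
    · omega
    · omega
    · rfl

def Tl : FN K2 →ₐ[K2] En[X] := lift K2 fun k => X * C (aa k)
def Tr : FN K2 →ₐ[K2] En[X] := lift K2 fun k => X * C (Rx ^ k)

theorem cm {B : Type} [Ring B] [Algebra K2 B] (f g : FN K2 →ₐ[K2] B)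
    (h : ∀ j k, Commute (f (ι K2 j)) (g (ι K2 k))) (u v : FN K2) : Commute (f u) (g v) := by
  have : ∀ (g : FN K2 →ₐ[K2] B) (z : B), (∀ k, Commute z (g (ι K2 k))) → ∀ v, Commute z (g v) := by
    intro g z hz v
    induction v using FreeAlgebra.induction with
    | grade0 r => rw [AlgHom.commutes]; exact (Algebra.commutes r z).symm
    | grade1 k => exact hz k
    | mul p q h1 h2 => rw [map_mul]; exact h1.mul_right h2
    | add p q h1 h2 => rw [map_add]; exact h1.add_right h2
  exact this g _ (fun k => (this f _ (fun j => (h j k).symm) u).symm) v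

theorem cC {a b : En} (h : Commute a b) : Commute (C a) (X * C b) :=
  (commute_X _).symm.mul_right (h.map C)

def Th : FN K2 ⊗[K2] FN K2 →ₐ[K2] En[X] :=
  Algebra.TensorProduct.lift Tl Tr (cm _ _ fun j k => by
    simpa [Tl, Tr] using (commute_X _).mul_left (cC (ca j k)))

theorem Th_tmul (u v : FN K2) : Th (u ⊗ₜ v) = Tl u * Tr v := by simp [Th]

theorem Th_dst (k : ℕ) : ∃ q, Th (dst K2 (ι K2 k)) = X * (C (A1 (ι K2 k)) + X * q) := by
  rw [dst_ι, map_add, Th_tmul]
  cases k with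
  | zero => exact ⟨0, by simp [Th_tmul, yy, Tl, Tr, A1, mul_add]⟩
  | succ k =>
    refine ⟨∑ p ∈ Finset.HasAntidiagonal.antidiagonal k, C (aa p.1) * C (Rx ^ p.2), ?_⟩
    rw [Finset.Nat.sum_antidiagonal_succ]
    simp only [map_add, map_sum, Th_tmul, yy, Tl, Tr, A1, lift_ι_apply, map_one, mul_add, one_mul,
      mul_one, Finset.mul_sum, add_assoc]
    congr 2
    refine Finset.sum_congr rfl fun p _ => ?_
    rw [mul_assoc, ← mul_assoc (C _), ← X_mul, mul_assoc]

theorem Th_jj (c : K2[X] ⊗[K2] K2[X]) :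
    Commute (C (kx.toLinearMap : En)) (Th (Algebra.TensorProduct.map jj jj c)) := by
  have h : ∀ (T : FN K2 →ₐ[K2] En[X]), Commute (C (kx.toLinearMap : En)) (T (ι K2 0)) → ∀ g,
      Commute (C (kx.toLinearMap : En)) (T (jj g)) := fun T hT g => by
    induction g using Polynomial.induction_on' with
    | add p q h1 h2 => rw [map_add, map_add]; exact h1.add_right h2
    | monomial n a =>
      rw [jj, aeval_monomial, map_mul, map_pow, AlgHom.commutes]
      exact Commute.mul_right (Algebra.commutes a _).symm (hT.pow_right n)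
  induction c using TensorProduct.induction_on with
  | zero => simp
  | add u v h1 h2 => rw [map_add, map_add]; exact h1.add_right h2
  | tmul u v =>
    rw [Algebra.TensorProduct.map_tmul, Th_tmul]
    refine (h _ ?_ u).mul_right (h _ ?_ v)
    · rw [Tl, lift_ι_apply]
      exact cC (LinearMap.ext fun u => by simp [aa, kx])
    · rw [Tr, lift_ι_apply]
      exact cC (by simp)

theorem shift {r D : ℕ} {ψ : FA K2} (hψ : ψ ∈ Sp K2 fun l => r ≤ l.count true)
    (hs : Stf (piY ψ)) (hf : IsLie (pr wy r ψ))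
    (h : pr wy r ψ ∈ Sp K2 fun l => true ∈ l ∧ false ∈ l ∧ l.count false = D + 1) :
    ∃ c : K2, Sop (pr wy r ψ) = pr wy r ψ + c • lx K2 ^ (D + 1) := by
  obtain ⟨c, hc⟩ := hs
  have h1 := congrArg (fun z => (Th z).coeff r 1) hc
  have e1 := low' (Th.comp (dst K2)) A1 Th_dst hψ
  have e2 := low' Tl A0 (fun k => ⟨0, by simp [Tl, A0]⟩) hψ
  have e3 := low' Tr Ch (fun k => ⟨0, by simp [Tr, Ch]⟩) hψ
  have e4 := congrArg (fun z => z.coeff r 1) (Th_jj c).eq
  set f := pr wy r ψ
  have e5 := A0_piY hf (Sp_mono (fun _ h => h.1) h)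
  have e6 := congrArg (fun z : En => z 1) (S0_A (piY f))
  obtain ⟨d, e7⟩ := Submodule.mem_span_singleton.1 (Sp_map (Submodule.span K2 {lx K2 ^ (D + 1)})
    (LinearMap.applyₗ 1 ∘ₗ Ch.toLinearMap ∘ₗ piY) (fun l hl => by
      simpa [wrd, piY_word, hl.2.2] using Ch_yw l 0) h)
  have e8 : kx (Sb false f) = 0 := Sp_ext (kx.toLinearMap ∘ₗ Sb false) 0 (fun l hl => by
    simp [Sb_wrd, kx_Sw _ _ hl.2.1]) h
  have e9 : kx f = 0 := Sp_ext kx.toLinearMap 0 (fun l hl => by simp [kx_wrd, hl.2.1]) h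
  have e0 : Sb false 1 = 1 := Sb_wrd false []
  simp only [AlgHom.comp_apply, map_add, Th_tmul, map_one, mul_one, one_mul, coeff_add,
    LinearMap.add_apply, coeff_C_mul, coeff_mul_C, Module.End.mul_apply, AlgHom.toLinearMap_apply,
    LinearMap.comp_apply, LinearMap.applyₗ_apply_apply] at h1 e1 e4 e6 e7
  rw [e1, e2, e3, e5, ← e7] at h1
  rw [e5, e0, h1] at e6
  rw [e6, map_add, map_add, e9, e4, map_smul, map_pow, kx, ev_x] at e8
  simp only [zero_add, ne_eq, Nat.add_eq_zero_iff, one_ne_zero, and_false, not_false_eq_true,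
    zero_pow, smul_zero] at e8
  rw [e8, add_zero] at e6
  exact ⟨d, e6⟩

theorem lie_pr (wt : Bool → ℕ) {ψ : FA K2} (h : IsLie ψ) : ∀ r, IsLie (pr wt r ψ) := by
  have hl : ∀ s r, IsLie (ι K2 s) → IsLie (pr wt r (ι K2 s)) := fun s r h => by
    rw [pr_H r (H_ι wt s)]; split_ifs; exacts [h, LieSubalgebra.zero_mem _]
  refine h.ind (P := fun f => ∀ r, IsLie (pr wt r f)) (fun r => hl _ r D64.lie_x)
    (fun r => hl _ r D64.lie_y) (fun r => ?_) (fun f g _ _ h1 h2 r => ?_) (fun c f _ h1 r => ?_)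
    fun f g _ _ h1 h2 r => ?_
  · rw [map_zero]; exact LieSubalgebra.zero_mem _
  · rw [map_add]; exact LieSubalgebra.add_mem _ (h1 r) (h2 r)
  · rw [map_smul]; exact LieSubalgebra.smul_mem _ _ (h1 r)
  · have : pr wt r (f * g - g * f) = ∑ p ∈ Finset.HasAntidiagonal.antidiagonal r,
        (pr wt p.1 f * pr wt p.2 g - pr wt p.2 g * pr wt p.1 f) := by
      rw [Finset.sum_sub_distrib, ← Finset.Nat.sum_antidiagonal_swap
        (f := fun p => pr wt p.2 g * pr wt p.1 f)]
      change (sc wt (f * g - g * f)).coeff r = _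
      rw [map_sub, map_mul, map_mul, coeff_sub, coeff_mul, coeff_mul]; rfl
    rw [this]
    exact sum_mem fun p _ => LieSubalgebra.lie_mem _ (h1 _) (h2 _)

theorem Y2_Sp {ψ : FA K2} (h : ψ ∈ Y2 K2) : ψ ∈ Sp K2 fun l => [true, true] <:+: l := by
  have t : ∀ a : FA K2, a ∈ Sp K2 fun _ => True := fun a => mem_Sp.2 fun _ _ => trivial
  induction h using TwoSidedIdeal.span_induction with
  | mem _ hx =>
    rw [hx]
    simpa [ly] using wrd_Sp (K := K2) (p := fun l => [true, true] <:+: l) (List.infix_refl _)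
  | zero => exact zero_mem _
  | add _ _ _ _ h1 h2 => exact add_mem h1 h2
  | neg _ _ h1 => exact neg_mem h1
  | left_absorb a _ _ h1 =>
    exact Sp_mul (fun l m _ h => h.trans (List.suffix_append l m).isInfix) (t a) h1
  | right_absorb a _ _ h1 =>
    exact Sp_mul (fun l m h _ => h.trans (List.prefix_append l m).isInfix) h1 (t a)

theorem has_x {n : ℕ} (hn : 2 ≤ n) {ψ : FA K2} (h : IsLie ψ) (h' : ψ ∈ Hn K2 n) {w : List Bool}
    (hw : cw w ψ ≠ 0) : false ∈ w := by
  by_contra e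
  obtain ⟨c, hc⟩ : ∃ c : K2, kx ψ = c • ly K2 := by
    refine h.ind (P := fun f => ∃ c : K2, kx f = c • ly K2) ⟨0, by simp [kx]⟩ ⟨1, by simp [kx]⟩
      ⟨0, by simp⟩ ?_ ?_ ?_
    · rintro f g - - ⟨a, h1⟩ ⟨b, h2⟩; exact ⟨a + b, by rw [map_add, h1, h2, add_smul]⟩
    · rintro r f - ⟨a, h1⟩; exact ⟨r * a, by rw [map_smul, h1, mul_smul]⟩
    · rintro f g - - ⟨a, h1⟩ ⟨b, h2⟩
      exact ⟨0, by simp [h1, h2, smul_smul, mul_comm]⟩
  have h1 : cw w (kx ψ) = cw w ψ := wext (F := cw w ∘ₗ kx.toLinearMap) (fun l => by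
    simp only [LinearMap.comp_apply, AlgHom.toLinearMap_apply, kx_wrd]
    split_ifs with h
    · rw [map_zero, cw_wrd, if_neg fun e' => e (by rwa [← e'])]
    · rfl) ψ
  have h2 : w.length = n := by_contra fun e => hw (CO.co_of_mem h' e)
  have h3 : ly K2 = wrd K2 [true] := by simp [ly]
  rw [hc, map_smul, h3, cw_wrd, if_neg (by rintro rfl; simp at h2; omega), smul_zero] at h1
  exact hw h1.symm

end A1R

open A1R A2 GAM in
theorem a1_of_core (hc : St_CORE65) : St_A1 := by
  classical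
  intro n ψ hn h hY
  by_contra h0
  have ex : ∃ r, ∃ w : List Bool, cw w ψ ≠ 0 ∧ w.count true = r := by
    by_contra e
    exact h0 (ext_cw fun w => by_contra fun e' => e ⟨_, w, by simpa using e', rfl⟩)
  obtain ⟨w, hw, hr⟩ := Nat.find_spec ex
  set r := Nat.find ex
  have k : ∀ v, cw v (pr wy r ψ) ≠ 0 → cw v ψ ≠ 0 ∧ v.count true = r := fun v hv => by
    rw [cw_pr, wy_sum] at hv
    split_ifs at hv with e
    exacts [⟨hv, e⟩, absurd rfl hv]
  have hx : ∀ v, cw v ψ ≠ 0 → false ∈ v := fun v => has_x (by omega) h.lie h.hom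
  have hl : ∀ v, cw v ψ ≠ 0 → v.count true + v.count false = n := fun v hv => by
    rw [List.count_true_add_count_false]
    exact by_contra fun e => hv (CO.co_of_mem h.hom e)
  have hy := mem_Sp.1 (Y2_Sp hY)
  obtain ⟨c, e⟩ := shift (r := r) (D := w.count false - 1)
    (mem_Sp.2 fun v hv => Nat.find_min' ex ⟨v, hv, rfl⟩) h.st (lie_pr _ h.lie r)
    (mem_Sp.2 fun v hv => by
      obtain ⟨h1, h2⟩ := k v hv
      have := hl v h1
      have := hl w hw
      have := List.count_pos_iff.2 (hx w hw)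
      exact ⟨(hy v h1).subset (by simp), hx v h1, by omega⟩)
  have := hc _ r _ c (lie_pr _ h.lie r) (fun v hv => ⟨(k v hv).2, hx v (k v hv).1⟩)
    (fun v hv => by_contra fun e => hv (hy v (k v e).1)) e
  refine hw ?_
  rw [← if_pos (c := (w.map wy).sum = r) (by rw [wy_sum, hr]) (t := cw w ψ) (e := 0), ← cw_pr,
    this, map_zero]

end Pool.Agent.DD.F
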