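import Pool.Agent.Lib.DD.DsMod64

/-! Section 0 of A1: the lowest depth part and its harmonicity. -/

set_option autoImplicit false

noncomputable section

namespace Pool.Agent.DD.F.S0

open Pool.Agent.DR Pool.Agent.DD.S39 Pool.Agent.DD.DS Pool.Agent.DD.F64 TensorProduct FreeAlgebra
  Polynomial GAM

attribute [local instance 100] LieRing.ofAssociativeRing

variable {K : Type} [CommRing K]

theorem wd_wrd (u : List Bool) : wd (lx K) (ly K) u = wrd K u := H56.wd_eq u

theorem wB_count (u : List Bool) : (u.map (wB 0 1)).sum = u.count true := by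
  induction u with
  | nil => simp
  | cons s u ih => cases s <;> simp [wB, ← ih, add_comm]

/-- the part of depth `r` -/
def low (r : ℕ) : FA K →ₗ[K] FA K := pr (wB 0 1) r

theorem low_wd (r : ℕ) (u : List Bool) :
    low r (wd (lx K) (ly K) u) = if u.count true = r then wd (lx K) (ly K) u else 0 := by
  rw [low, wd_wrd, pr_H r (wrd_H _ u), wB_count]

theorem co_low (r : ℕ) (u : List Bool) (f : FA K) :
    co u (low r f) = if u.count true = r then co u f else 0 := by
  have := LinearMap.congr_fun (lext (F := co u ∘ₗ low r)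
    (G := if u.count true = r then co (K := K) u else 0) fun l => by
      rw [← H56.wd_eq, LinearMap.comp_apply, low_wd]
      by_cases h : l = u
      · subst h; split_ifs <;> simp
      · split_ifs <;> simp [CO.co_wd, h]) f
  rw [LinearMap.comp_apply] at this
  rw [this]; split_ifs <;> rfl

theorem lie_pr (w : Bool → ℕ) {f : FA K} (h : IsLie f) : ∀ m, IsLie (pr w m f) := by
  refine h.ind (P := fun f => ∀ m, IsLie (pr w m f)) (fun m => ?_) (fun m => ?_) (fun m => ?_)
    (fun f g _ _ h1 h2 m => ?_) (fun r f _ h1 m => ?_) (fun f g _ _ h1 h2 m => ?_)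
  · rw [lx, pr_H m (H_ι w false)]; split_ifs; exacts [D64.lie_x, zero_mem _]
  · rw [ly, pr_H m (H_ι w true)]; split_ifs; exacts [D64.lie_y, zero_mem _]
  · rw [map_zero]; exact zero_mem _
  · rw [map_add]; exact add_mem (h1 m) (h2 m)
  · rw [map_smul]; exact LieSubalgebra.smul_mem _ r (h1 m)
  · have e : pr w m (f * g - g * f) =
        ∑ p ∈ Finset.HasAntidiagonal.antidiagonal m, ⁅pr w p.1 f, pr w p.2 g⁆ := by
      change (sc w (f * g - g * f)).coeff m = _
      rw [map_sub, map_mul, map_mul, coeff_sub, coeff_mul, coeff_mul,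
        ← Finset.Nat.sum_antidiagonal_swap (f := fun p => (sc w g).coeff p.1 * (sc w f).coeff p.2),
        ← Finset.sum_sub_distrib]
      rfl
    rw [e]
    exact sum_mem fun p _ => (h1 _).lie (h2 _)

section prim
variable {B : Type} [Ring B] [Algebra K B]

theorem lead (Φ : FN K →ₐ[K] B[X]) (a : ℕ → B)
    (h : ∀ k, ∃ g, Φ (ι K k) = X * (C (a k) + X * g)) (k : ℕ) (w : List Bool) :
    ∃ g, Φ (yw K k w) = X ^ w.count true * (C (lift K a (yw K k w)) + X * g) := by
  induction w generalizing k with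
  | nil => exact ⟨0, by simp only [yw]; split_ifs <;> simp⟩
  | cons s w ih =>
    cases s
    · simpa [yw] using ih (k + 1)
    · obtain ⟨g, e⟩ := h k
      obtain ⟨g', e'⟩ := ih 0
      refine ⟨C (a k) * g' + g * (C (lift K a (yw K 0 w)) + X * g'), ?_⟩
      have h1 : ∀ p : B[X], p * X = X * p := fun p => (commute_X p).symm.eq
      have h2 : ∀ p : B[X], p * X ^ w.count true = X ^ w.count true * p :=
        fun p => (commute_X_pow p _).symm.eq
      simp only [yw, yy, map_mul, lift_ι_apply, e, e', List.count_cons_self, pow_succ]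
      rw [mul_assoc, ← mul_assoc (C (a k) + X * g), h2, ← mul_assoc, ← mul_assoc, h2, mul_assoc]
      congr 1
      rw [add_mul, mul_add (C (a k)), ← mul_assoc (C (a k)), h1, mul_add X, mul_assoc, mul_assoc,
        add_assoc]

theorem coeff_low (Φ : FN K →ₐ[K] B[X]) (a : ℕ → B)
    (h : ∀ k, ∃ g, Φ (ι K k) = X * (C (a k) + X * g)) {n r : ℕ} {ψ : FA K} (hn : ψ ∈ Hn K n)
    (hr : ∀ u, u.count true < r → co u ψ = 0) :
    (Φ (piY ψ)).coeff r = lift K a (piY (low r ψ)) := by
  rw [CO.eq_sum hn]
  simp only [map_sum, map_smul, finsetSum_coeff, coeff_smul, low_wd]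
  refine Finset.sum_congr rfl fun u _ => ?_
  rcases lt_or_ge (u.count true) r with h1 | h1
  · simp [hr u h1]
  congr 1
  obtain ⟨g, e⟩ := lead Φ a h 0 u
  rw [H56.wd_eq, piY_word, e, coeff_X_pow_mul']
  split_ifs with h2 h3 h3
  · simp [h3, piY_word]
  · omega
  · omega
  · simp

end prim

/-- the coproduct with primitive letters -/
def D0 (K : Type) [CommRing K] : FN K →ₐ[K] FN K ⊗[K] FN K :=
  lift K fun k => ι K k ⊗ₜ 1 + 1 ⊗ₜ ι K k

theorem comm_lift {B : Type} [Ring B] [Algebra K B] {a s : ℕ → B}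
    (h : ∀ i j, Commute (a i) (s j)) (u v : FN K) : Commute (lift K a u) (lift K s v) := by
  have h1 : ∀ (c : ℕ → B) (z : B), (∀ j, Commute z (c j)) → ∀ v : FN K, Commute z (lift K c v) :=
    fun c z hz v => by
      induction v using FreeAlgebra.induction with
      | grade0 r => rw [AlgHom.commutes]; exact (Algebra.commutes r z).symm
      | grade1 j => simpa using hz j
      | mul f g hf hg => simpa using hf.mul_right hg
      | add f g hf hg => simpa using hf.add_right hg
  exact (h1 a _ (fun i => (h1 s _ (h i) v).symm) u).symm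

theorem r1_yw (k : ℕ) (w : List Bool) (h : k ≠ 0 ∨ false ∈ w) : r1 (yw K k w) = 0 := by
  induction w generalizing k with
  | nil => simp_all [yw]
  | cons s w ih =>
    cases s
    · exact ih _ (.inl k.succ_ne_zero)
    · rcases h with h | h
      · simp [yw, yy, r1, h]
      · simp [yw, ih 0 (.inr (by simpa using h))]

theorem prim {n r : ℕ} {ψ : FA K} (h : D2 n ψ) (hr : ∀ u, u.count true < r → co u ψ = 0)
    (hn : r < n) : D0 K (piY (low r ψ)) = piY (low r ψ) ⊗ₜ 1 + 1 ⊗ₜ piY (low r ψ) := by
  obtain ⟨c, hc⟩ := h.st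
  let a : ℕ → FN K ⊗[K] FN K := fun k => ι K k ⊗ₜ 1
  let s : ℕ → FN K ⊗[K] FN K := fun k => 1 ⊗ₜ ι K k
  let P := fun a : ℕ → FN K ⊗[K] FN K => lift K fun k => (X * C (a k) : (FN K ⊗[K] FN K)[X])
  have hcm : ∀ u v, Commute (P a u) (P s v) := comm_lift (K := K)
      (a := fun k => X * C (a k)) (s := fun k => X * C (s k)) fun i j => by
    have : Commute (a i) (s j) := by simp [a, s, Commute, SemiconjBy]
    exact ((commute_X _).mul_left ((commute_X _).symm.mul_right (this.map C))).symm.symm
  let T := Algebra.TensorProduct.lift (P a) (P s) hcm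
  have hP : ∀ a k, ∃ g, P a (ι K k) = X * (C (a k) + X * g) := fun a k => ⟨0, by simp [P]⟩
  have hy : ∀ a k, ∃ g, P a (yy K (k + 1)) = X * g := fun a k => ⟨C (a k), by simp [P, yy]⟩
  have hT : ∀ k, ∃ g, (T.comp (dst K)) (ι K k) = X * (C ((a + s) k) + X * g) := fun k => by
    choose g hg using hy a
    refine ⟨∑ p ∈ Finset.HasAntidiagonal.antidiagonal (k - 1), if k = 0 then 0 else g p.1 * C (s p.2), ?_⟩
    rw [AlgHom.comp_apply, dst_ι]
    cases k with
    | zero => simp [T, P, yy, mul_add]
    | succ k =>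
      rw [Finset.Nat.sum_antidiagonal_succ]
      simp only [map_add, map_sum, T, Algebra.TensorProduct.lift_tmul, hg, map_one, mul_one]
      simp only [P, lift_ι_apply, yy, map_one, one_mul, Pi.add_apply, map_add, mul_add,
        Finset.mul_sum, add_assoc, Nat.succ_ne_zero, if_false, Nat.add_sub_cancel]
      congr 2
      refine Finset.sum_congr rfl fun p _ => ?_
      rw [mul_assoc, ← mul_assoc (g p.1), (commute_X (g p.1)).symm.eq, mul_assoc]
  have e1 := coeff_low _ _ hT h.hom hr
  rw [AlgHom.comp_apply, hc] at e1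
  simp only [map_add, T, Algebra.TensorProduct.lift_tmul, map_one, mul_one, one_mul, coeff_add,
    coeff_low _ _ (hP _) h.hom hr] at e1
  have ea : ∀ p : FN K, lift K a p = p ⊗ₜ 1 := AlgHom.congr_fun (FreeAlgebra.hom_ext
    (g := Algebra.TensorProduct.includeLeft) (funext fun k => by simp [a]))
  have es : ∀ p : FN K, lift K s p = 1 ⊗ₜ p := AlgHom.congr_fun (FreeAlgebra.hom_ext
    (g := Algebra.TensorProduct.includeRight) (funext fun k => by simp [s]))
  rw [ea, es] at e1
  change _ = D0 K _ at e1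
  have h0 : r1 (piY (low r ψ)) = 0 := by
    rw [CO.eq_sum h.hom]
    simp only [map_sum, map_smul, low_wd]
    refine Finset.sum_eq_zero fun u hu => ?_
    split_ifs with h1
    · rw [H56.wd_eq, piY_word, r1_yw, smul_zero]
      refine .inr (by_contra fun h2 => ?_)
      have : u.count true = u.length := List.count_eq_length.2 fun b hb => by
        cases b; exacts [absurd hb h2, rfl]
      have := mem_W.1 hu
      omega
    · simp
  have hD : ∀ p : FN K, M64.PP K (D0 K p) = D0 K (jj (r1 p)) := AlgHom.congr_fun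
    (FreeAlgebra.hom_ext (f := (M64.PP K).comp (D0 K)) (g := (D0 K).comp (jj.comp r1))
      (funext fun k => by cases k <;> simp [M64.PP, D0, r1, jj]))
  have hz : ∀ m, M64.PP K ((T (Algebra.TensorProduct.map jj jj c)).coeff m) =
      (T (Algebra.TensorProduct.map jj jj c)).coeff m := fun m => by
    rw [← coeff_mapAlgHom_apply]
    congr 1
    refine AlgHom.congr_fun (φ₁ := (mapAlgHom (M64.PP K)).comp (T.comp
      (Algebra.TensorProduct.map jj jj))) (φ₂ := T.comp (Algebra.TensorProduct.map jj jj)) ?_ c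
    ext <;> simp [T, P, a, s, jj, M64.PP, r1]
  have e2 := congrArg (M64.PP K) e1
  rw [hD, h0, map_add, hz] at e2
  simp only [M64.PP, map_add, Algebra.TensorProduct.map_tmul, AlgHom.comp_apply, h0, map_zero,
    zero_tmul, tmul_zero, zero_add] at e2
  rw [← e1, e2, add_zero]

theorem co_pow {n : ℕ} {ψ : FA K} (hL : IsLie ψ) (hh : ψ ∈ Hn K n) (hn : 2 ≤ n) :
    co (List.replicate n true) ψ = 0 := by
  have e := H56.ev_comm (Commute.zero_left (1 : K)) ((H56.isLie_iff ψ).1 hL) (H56.Hn_le_Ge hn hh)
  change ev (0 : K) 1 ψ = 0 at e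
  rw [CO.eq_sum hh, map_sum, Finset.sum_eq_single (List.replicate n true)] at e
  · simpa [CO.ev_wd, wd] using e
  · intro u hu h
    rw [map_smul, CO.ev_wd, wd, List.prod_eq_zero, smul_zero]
    refine List.mem_map.2 ⟨false, by_contra fun h2 => h (List.eq_replicate_iff.2
      ⟨mem_W.1 hu, fun b hb => ?_⟩), rfl⟩
    cases b; exacts [absurd hb h2, rfl]
  · exact fun h => absurd (mem_W.2 (by simp)) h

/-- the lowest depth part -/
theorem low_ex {n : ℕ} {ψ : FA K} (hn : 2 ≤ n) (h : D2 n ψ) (h0 : ψ ≠ 0) :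
    ∃ (f : FA K) (r : ℕ), f ≠ 0 ∧ IsLie f ∧ f ∈ Hn K n ∧ r < n ∧
      (∀ w, co w f = if w.count true = r then co w ψ else 0) ∧
      (∀ w, co w f ≠ 0 → w.count true = r ∧ w.count false = n - r ∧ false ∈ w) ∧
      lift K (fun k => ι K k ⊗ₜ[K] (1 : FN K) + (1 : FN K) ⊗ₜ[K] ι K k) (piY f) =
        piY f ⊗ₜ 1 + 1 ⊗ₜ piY f := by
  classical
  have hex : ∃ m, ∃ u : List Bool, u.count true = m ∧ co u ψ ≠ 0 := by
    by_contra hc
    exact h0 (CO.ext_co fun w => by_contra fun e => hc ⟨_, w, rfl, by simpa using e⟩)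
  obtain ⟨u, hu, hu0⟩ := Nat.find_spec hex
  have hr : ∀ w, w.count true < Nat.find hex → co w ψ = 0 := fun w hw =>
    by_contra fun e => Nat.find_min hex hw ⟨w, rfl, e⟩
  have hl : ∀ w, co w ψ ≠ 0 → w.length = n := fun w e => by_contra fun e' =>
    e (CO.co_of_mem h.hom e')
  have hlt : Nat.find hex < n := by
    by_contra hc
    have h1 := hl u hu0
    have h2 : u.count true = u.length := le_antisymm List.count_le_length (by omega)
    have h3 : u = List.replicate n true :=
      List.eq_replicate_iff.2 ⟨h1, fun b hb => (List.count_eq_length.1 h2 b hb).symm⟩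
    exact hu0 (h3 ▸ co_pow h.lie h.hom hn)
  refine ⟨low (Nat.find hex) ψ, Nat.find hex, fun e => hu0 ?_, lie_pr _ h.lie _,
    CO.mem_iff.2 fun w hw => ?_, hlt, fun w => co_low _ w ψ, fun w hw => ?_, prim h hr hlt⟩
  · have := co_low (Nat.find hex) u ψ
    rwa [e, map_zero, if_pos hu, eq_comm] at this
  · rw [co_low, CO.co_of_mem h.hom hw, ite_self]
  · rw [co_low] at hw
    split_ifs at hw with h1
    · have h2 := hl w hw
      have h3 : w.count false + w.count true = w.length := List.count_false_add_count_true w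
      exact ⟨h1, by omega, List.count_pos_iff.1 (by omega)⟩
    · exact absurd rfl hw

end Pool.Agent.DD.F.S0
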