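import Pool.Agent.Lib.DD.A1Blue

/-! Basic facts on the runs of `y` in a word. -/

set_option autoImplicit false

noncomputable section

namespace Pool.Agent.DD.F.A1

open Pool.Agent.DR Pool.Agent.DD.S39 TensorProduct FreeAlgebra

namespace BAS

theorem runs_cons (w : List Bool) : ∃ a l, runs w = a :: l := by
  induction w with
  | nil => exact ⟨0, [], rfl⟩
  | cons s w ih =>
    obtain ⟨a, l, h⟩ := ih
    cases s
    · exact ⟨0, runs w, rfl⟩
    · exact ⟨a + 1, l, by rw [runs, h]; rfl⟩

theorem runs_ne (w : List Bool) : runs w ≠ [] := by
  obtain ⟨a, l, h⟩ := runs_cons w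
  rw [h]
  exact List.cons_ne_nil _ _

theorem runs_true {w : List Bool} {a : ℕ} {l : List ℕ} (h : runs w = a :: l) :
    runs (true :: w) = (a + 1) :: l := by
  rw [runs, h]; rfl

theorem runs_inj : ∀ u w : List Bool, runs u = runs w → u = w := by
  intro u
  induction u with
  | nil =>
    intro w h
    cases w with
    | nil => rfl
    | cons s w =>
      obtain ⟨a, l, e⟩ := runs_cons w
      cases s
      · have h' : [0] = 0 :: runs w := h
        exact absurd (List.cons.inj h').2.symm (runs_ne w)
      · rw [runs_true e] at h
        have h' : [0] = (a + 1) :: l := h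
        exact absurd (List.cons.inj h').1 (by omega)
  | cons s u ih =>
    intro w h
    obtain ⟨a, l, e⟩ := runs_cons u
    cases w with
    | nil =>
      cases s
      · have h' : 0 :: runs u = [0] := h
        exact absurd (List.cons.inj h').2 (runs_ne u)
      · rw [runs_true e] at h
        have h' : (a + 1) :: l = [0] := h
        exact absurd (List.cons.inj h').1 (by omega)
    | cons t w =>
      obtain ⟨b, m, e'⟩ := runs_cons w
      cases s <;> cases t
      · have h' : 0 :: runs u = 0 :: runs w := h
        rw [ih w (List.cons.inj h').2]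
      · rw [runs_true e'] at h
        have h' : 0 :: runs u = (b + 1) :: m := h
        exact absurd (List.cons.inj h').1 (by omega)
      · rw [runs_true e] at h
        have h' : (a + 1) :: l = 0 :: runs w := h
        exact absurd (List.cons.inj h').1 (by omega)
      · rw [runs_true e, runs_true e'] at h
        have h1 : a = b := by have := (List.cons.inj h).1; omega
        rw [ih w (by rw [e, e', h1, (List.cons.inj h).2])]

theorem cY_runs (f : FA F2) (w : List Bool) : cY f (runs w) = co w f := by
  have : (Finsupp.lapply (runs w)).comp cY = co (K := F2) w := by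
    refine (basisFreeMonoid F2 Bool).ext fun u => ?_
    have hu : basisFreeMonoid F2 Bool u = wd (lx F2) (ly F2) u.toList := CO.basis_eq u.toList
    rw [hu, LinearMap.comp_apply, cY_wd, CO.co_wd, Finsupp.lapply_apply, Finsupp.single_apply]
    exact if_congr ⟨runs_inj _ _, fun h => by rw [h]⟩ rfl rfl
  exact LinearMap.congr_fun this f

theorem cY_nil (f : FA F2) : cY f [] = 0 := by
  have : (Finsupp.lapply ([] : List ℕ)).comp cY = (0 : FA F2 →ₗ[F2] F2) := by
    refine (basisFreeMonoid F2 Bool).ext fun u => ?_
    have hu : basisFreeMonoid F2 Bool u = wd (lx F2) (ly F2) u.toList := CO.basis_eq u.toList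
    rw [hu, LinearMap.comp_apply, cY_wd, Finsupp.lapply_apply, Finsupp.single_apply,
      if_neg (runs_ne _), LinearMap.zero_apply]
  exact LinearMap.congr_fun this f

theorem head_surj (l : List ℕ) (h : ∃ w, runs w = 0 :: l) (a : ℕ) : ∃ w, runs w = a :: l := by
  induction a with
  | zero => exact h
  | succ a ih =>
    obtain ⟨w, hw⟩ := ih
    exact ⟨true :: w, runs_true hw⟩

theorem runs_surj (l : List ℕ) : ∀ a : ℕ, ∃ w, runs w = a :: l := by
  induction l with
  | nil => exact head_surj [] ⟨[], rfl⟩
  | cons b l ih =>
    obtain ⟨w, hw⟩ := ih b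
    exact head_surj _ ⟨false :: w, by rw [← hw]; rfl⟩

theorem runs_sum (w : List Bool) :
    (runs w).sum = w.count true ∧ (runs w).length = w.count false + 1 := by
  induction w with
  | nil => exact ⟨rfl, rfl⟩
  | cons s w ih =>
    cases s
    · have e : runs (false :: w) = 0 :: runs w := rfl
      rw [e]
      simp [ih.1, ih.2]
    · obtain ⟨a, l, h⟩ := runs_cons w
      rw [runs_true h]
      rw [h] at ih
      simp only [List.sum_cons, List.length_cons] at ih ⊢
      simp [← ih.1, ih.2]
      omega

theorem ml_tail {s : Bool} {w : List Bool} (h : ML (runs (s :: w))) : ML (runs w) := by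
  cases s
  · exact fun i hi => h i (List.mem_cons_of_mem _ hi)
  · obtain ⟨a, l, e⟩ := runs_cons w
    rw [runs_true e] at h
    rw [e]
    intro i hi
    rcases List.mem_cons.1 hi with rfl | hi
    · have := h (i + 1) List.mem_cons_self
      omega
    · exact h i (List.mem_cons_of_mem _ hi)

theorem no_yy (w : List Bool) : ML (runs w) → ¬ [true, true] <:+: w := by
  induction w with
  | nil => intro _ h; simp at h
  | cons s w ih =>
    intro h hi
    rcases List.infix_cons_iff.1 hi with hp | hi
    · obtain ⟨t, ht⟩ := hp
      obtain ⟨a, l, e⟩ := runs_cons t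
      rw [← ht] at h
      have e2 : runs ([true, true] ++ t) = (a + 1 + 1) :: l := runs_true (runs_true e)
      rw [e2] at h
      have := h _ List.mem_cons_self
      omega
    · exact ih (ml_tail h) hi

end BAS

theorem st_BAS : St_BAS :=
  ⟨BAS.cY_runs, BAS.cY_nil, fun e he => by
    cases e with
    | nil => exact absurd rfl he
    | cons a l => exact BAS.runs_surj l a, BAS.runs_sum, BAS.no_yy⟩

end Pool.Agent.DD.F.A1
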