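import Pool.Agent.Lib.DD.A1Blue

/-! The shift operator on run polynomials. -/

set_option autoImplicit false

noncomputable section

namespace Pool.Agent.DD.F.A1

open Pool.Agent.DR Pool.Agent.DD.S39 TensorProduct FreeAlgebra

namespace DEL

variable {A : Type} [CommRing A] [Algebra F2 A]

/-- evaluation as a linear map -/
def V (m : List ℕ → List A → A) (s : List A) : FA F2 →ₗ[F2] A :=
  (Finsupp.linearCombination F2 fun e => m e s).comp cY

theorem V_wd (m : List ℕ → List A → A) (s : List A) (w : List Bool) :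
    V m s (wd (lx F2) (ly F2) w) = m (runs w) s := by
  simp [V, cY_wd]

theorem wext {F G : FA F2 →ₗ[F2] A}
    (h : ∀ w, F (wd (lx F2) (ly F2) w) = G (wd (lx F2) (ly F2) w)) (u : FA F2) : F u = G u :=
  LinearMap.congr_fun ((basisFreeMonoid F2 Bool).ext fun w => by
    have := h w.toList
    rwa [← CO.basis_eq] at this) u

theorem runs_ex (w : List Bool) : ∃ e es, runs w = e :: es := by
  induction w with
  | nil => exact ⟨0, [], rfl⟩
  | cons b w ih =>
    obtain ⟨e, es, h⟩ := ih
    cases b
    · exact ⟨0, _, rfl⟩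
    · exact ⟨e + 1, es, by simp [runs, h]⟩

theorem V_nil (u : FA F2) : V (A := A) mon [] u = 0 :=
  wext (G := 0) (fun w => by
    obtain ⟨e, es, h⟩ := runs_ex w
    rw [V_wd, h]; rfl) u

theorem V_x (a : A) (s : List A) (u : FA F2) : V mon (a :: s) (lx F2 * u) = V mon s u :=
  wext (F := (V mon (a :: s)).comp (LinearMap.mulLeft F2 (lx F2))) (fun w => by
    rw [LinearMap.comp_apply, LinearMap.mulLeft_apply, ← wd_false, V_wd, V_wd]
    simp [runs, mon]) u

theorem V_y (a : A) (s : List A) (u : FA F2) :
    V mon (a :: s) (ly F2 * u) = a * V mon (a :: s) u :=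
  wext (F := (V mon (a :: s)).comp (LinearMap.mulLeft F2 (ly F2)))
    (G := (LinearMap.mulLeft F2 a).comp (V mon (a :: s))) (fun w => by
    obtain ⟨e, es, h⟩ := runs_ex w
    rw [LinearMap.comp_apply, LinearMap.mulLeft_apply, ← wd_true, V_wd, LinearMap.comp_apply,
      V_wd, LinearMap.mulLeft_apply]
    simp [runs, mon, h, pow_succ', mul_assoc]) u

theorem V_one (s : List A) : V mon s (1 : FA F2) = mon [0] s := V_wd mon s []

theorem both (w : List Bool) : ∀ s : List A,
    V mon (s.map (· + 1)) (Sw false w) = monH (runs w) s ∧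
      V mon (s.map (· + 1)) (Sw true w) = monE (runs w) s := by
  induction w with
  | nil =>
    intro s
    simp only [Sw, V_one, runs]
    rcases s with _ | ⟨a, _ | ⟨b, s⟩⟩ <;> simp [mon, monH, monE, rho]
  | cons b w ih =>
    obtain ⟨e, es, h⟩ := runs_ex w
    rintro (_ | ⟨a, s⟩)
    · obtain ⟨e', es', h'⟩ := runs_ex (b :: w)
      simp [V_nil, h', monH, monE]
    · have h1 := (ih (a :: s)).1
      rw [List.map_cons, h] at h1
      cases b
      · simp only [Sw, List.map_cons, V_x, (ih s).2, runs, monH, monE, rho, pow_zero, one_mul,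
          and_self]
      · simp only [Sw, List.map_cons, add_mul, one_mul, map_add, V_y, h1, runs, h,
          List.modifyHead_cons, monH, monE, rho]
        refine ⟨?_, by ring⟩
        rw [add_assoc, two0]
        ring

theorem V_pow (n : ℕ) : ∀ s : List A,
    V mon s (lx F2 ^ n) = if s.length = n + 1 then 1 else 0 := by
  induction n with
  | zero =>
    intro s
    rw [pow_zero, V_one]
    rcases s with _ | ⟨a, _ | ⟨b, s⟩⟩ <;> simp [mon]
  | succ n ih =>
    rintro (_ | ⟨a, s⟩)
    · simp [V_nil]
    · rw [pow_succ', V_x, ih]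
      simp

end DEL

open DEL

theorem st_DEL : St_DEL := fun A _ _ s =>
  ⟨fun f => wext (F := (V mon (s.map (· + 1))).comp Sop) (G := V monH s) (fun w => by
    rw [V_wd, LinearMap.comp_apply, ← CO.basis_eq, Sop, Module.Basis.constr_basis]
    exact (both w s).1) f, fun n => V_pow n s⟩

end Pool.Agent.DD.F.A1
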