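import Pool.Agent.Lib.DD.A1Blue

/-! The end of the proof on coefficient functions. -/

set_option autoImplicit false

noncomputable section

namespace Pool.Agent.DD.F.A1

open Pool.Agent.DR Pool.Agent.DD.S39 TensorProduct FreeAlgebra

namespace END

variable {A : Type} [CommRing A]

theorem mon_len : ∀ (e : List ℕ) (s : List A), e.length ≠ s.length → mon e s = 0
  | [], [], h => (h rfl).elim
  | [], _ :: _, _ => rfl
  | _ :: _, [], _ => rfl
  | _ :: e, _ :: s, h => by rw [mon, mon_len e s (by simpa using h), mul_zero]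

theorem monL_cons (j : ℕ) (e : List ℕ) (a : A) {s : List A} (hs : s ≠ []) :
    monL (j :: e) (a :: s) = rho j a * monL e s := by
  obtain ⟨b, s, rfl⟩ := List.exists_cons_of_ne_nil hs
  cases e <;> simp [monL]

theorem monL_len : ∀ (e : List ℕ) (s : List A), e.length ≠ s.length → monL e s = 0
  | [], _, _ => by simp [monL]
  | [_], [], _ => by simp [monL]
  | _ :: _ :: _, [], _ => by simp [monL]
  | [_], [_], h => (h rfl).elim
  | [_], _ :: _ :: _, _ => by simp [monL]
  | _ :: j :: e, _ :: s, h => by rw [monL, monL_len (j :: e) s (by simpa using h), mul_zero]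

theorem ml_cons {j : ℕ} {e : List ℕ} (h : ¬ ML (j :: e)) : (∃ i, j = i + 2) ∨ ¬ ML e := by
  by_cases hj : j ≤ 1
  · exact Or.inr fun h' => h (List.forall_mem_cons.2 ⟨hj, h'⟩)
  · exact Or.inl ⟨j - 2, by omega⟩

theorem mon_zero (k : ℕ) : ∀ e : List ℕ, ¬ ML e → mon e (List.replicate k (0 : A)) = 0 := by
  induction k with
  | zero => rintro (_ | ⟨j, e⟩) h; exacts [(h (by simp [ML])).elim, rfl]
  | succ k ih =>
    rintro (_ | ⟨j, e⟩) h
    · rfl
    · rw [List.replicate_succ, mon]
      rcases ml_cons h with ⟨i, rfl⟩ | h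
      · simp
      · rw [ih e h, mul_zero]

theorem paths_len (a : A) (s : List A) (b : A) (t : List A) :
    ∀ w ∈ paths a s b t, w.length = s.length + t.length := by
  induction a, s, b, t using paths.induct with
  | case1 => simp [paths]
  | case2 => simp [paths]
  | case3 a a' s b b' t h1 h2 =>
    intro w hw
    rw [paths, List.mem_append, List.mem_map, List.mem_map] at hw
    rcases hw with ⟨u, hu, rfl⟩ | ⟨u, hu, rfl⟩
    · simp [h1 u hu]; omega
    · simp [h2 u hu]; omega

theorem psum_congr {Φ Φ' : List A → A} (a : A) (s : List A) (b : A) (t : List A)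
    (h : ∀ w, w.length = s.length + t.length → Φ w = Φ' w) : psum Φ a s b t = psum Φ' a s b t := by
  rw [psum, psum, List.map_congr_left fun w hw => h w (paths_len a s b t w hw)]

variable [Algebra F2 A]

theorem monL_bit (t : List A) (ht : Bit t) : ∀ e : List ℕ, ¬ ML e → monL e (t ++ [0]) = 0 := by
  induction t with
  | nil =>
    rintro (_ | ⟨j, _ | ⟨j', e⟩⟩) h
    · simp [monL]
    · rcases ml_cons h with ⟨i, rfl⟩ | h
      · simp [monL]
      · exact (h (by simp [ML])).elim
    · exact monL_len _ _ (by simp)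
  | cons a t ih =>
    rintro (_ | ⟨j, e⟩) h
    · simp [monL]
    · rw [List.cons_append, monL_cons j e a (by simp)]
      rcases ml_cons h with ⟨i, rfl⟩ | h
      · rcases ht a (by simp) with rfl | rfl
        · simp [rho]
        · simp [rho, two0]
      · rw [ih (fun x hx => ht x (List.mem_cons_of_mem _ hx)) e h, mul_zero]

theorem vl_zero {m : List ℕ → List A → A} {p : P} {s : List A}
    (h : ∀ e, p e ≠ 0 → m e s = 0) : vl m p s = 0 := by
  rw [vl_eq]
  exact Finset.sum_eq_zero fun e he => by rw [h e (Finsupp.mem_support_iff.1 he), smul_zero]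

theorem bit_add {t : List A} (ht : Bit t) : Bit (t.map (· + 1)) := by
  intro a ha
  obtain ⟨b, hb, rfl⟩ := List.mem_map.1 ha
  rcases ht b hb with rfl | rfl
  · simp
  · exact Or.inl (two0 _)

theorem vl_one {Ψ p : P} {m : ℕ} (hm : 1 ≤ m)
    (hp : ∀ e, p e = if e.length = m then Ψ (0 :: e) else 0) {s : List A} (hs : s.length = m) :
    vl monL p s = vl monL Ψ (1 :: s) := by
  have h0 : s ≠ [] := by rintro rfl; simp at hs; omega
  have hq : ∀ e, p e ≠ 0 → p e = Ψ (0 :: e) := fun e he => by
    rw [hp] at he ⊢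
    split_ifs at he ⊢ with h
    · rfl
    · exact (he rfl).elim
  rw [vl_eq, vl_eq]
  refine Finset.sum_of_injOn (0 :: ·) (fun _ _ _ _ h => (List.cons.inj h).2) (fun e he => ?_)
    ?_ fun e he => ?_
  · have := Finsupp.mem_support_iff.1 he
    exact Finsupp.mem_support_iff.2 (hq e this ▸ this)
  · rintro (_ | ⟨_ | j, e⟩) he hn
    · simp [monL]
    · rw [monL_cons _ _ _ h0, monL_len e s, mul_zero, smul_zero]
      intro hl
      refine hn ⟨e, Finsupp.mem_support_iff.2 ?_, rfl⟩
      rw [hp, if_pos (hl.trans hs)]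
      exact Finsupp.mem_support_iff.1 he
    · simp [monL_cons _ _ _ h0, rho, two0]
  · rw [hq e (Finsupp.mem_support_iff.1 he), monL_cons _ _ _ h0, rho, one_mul]

end END

open END in
theorem st_END (hM : St_INJ) (hI : St_I) : St_END := by
  intro Ψ m r κ hm hT hS hr hz hκ
  have z1 : ∀ (A : Type) [CommRing A] [Algebra F2 A] (t : List A), Bit t →
      vl monL Ψ (t ++ [0]) = 0 := fun A _ _ t ht =>
    vl_zero fun e he => monL_bit t ht e fun h => he (hz e h)
  obtain rfl : κ = 0 := by
    have h := hκ F2 (List.replicate (m + 1) 0) (by simp)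
    rw [vl_zero (m := mon) fun e he => mon_zero _ e fun h => he (hz e h), List.replicate_succ',
      z1 F2 _ fun a ha => Or.inl (List.eq_of_mem_replicate ha)] at h
    simpa using h.symm
  simp only [map_zero, add_zero] at hκ
  have cube : ∀ (A : Type) [CommRing A] [Algebra F2 A] (s : List A), Bit s → s.length = m + 1 →
      vl mon Ψ s = 0 := fun A _ _ s hb hs => by
    obtain rfl | ⟨t, a, rfl⟩ := List.eq_nil_or_concat' s
    · simp at hs
    have ht : Bit t := fun x hx => hb x (List.mem_append_left _ hx)
    rcases hb a (by simp) with rfl | rfl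
    · rw [← hκ A _ hs, z1 A t ht]
    · rw [← hT A _ 1 (by omega), ← hκ A _ (by simpa using hs), List.map_append, List.map_singleton,
        two0, z1 A _ (bit_add ht)]
  let p : P := (Finsupp.comapDomain (0 :: ·) Ψ fun _ _ _ _ h => (List.cons.inj h).2).filter
    fun e => e.length = m
  have hp : ∀ e, p e = if e.length = m then Ψ (0 :: e) else 0 := fun e => by
    simp [p, Finsupp.filter_apply]
  have hH : Hom p m r := fun e he => by
    rw [hp] at he
    split_ifs at he with h
    · exact ⟨h, by simpa using hr _ he⟩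
    · exact (he rfl).elim
  have p0 : p = 0 := hI m r 1 p hm hH fun A _ _ s t ht hb => by
    rw [map_one]
    by_cases hl : s.length + t.length = m
    · rw [psum_congr (Φ' := fun w => vl mon Ψ ((1 + 0) :: w)) _ _ _ _ fun w hw => by
        rw [vl_one hm hp (hw.trans hl), hκ A _ (by simp [hw, hl]), add_zero]]
      by_cases hs : s = []
      · subst hs
        rw [psum_nil_left]
        refine cube A _ (List.forall_mem_cons.2 ⟨by simp, ?_⟩) (by simpa using hl)
        simp only [add_comm (1 : A)]
        exact bit_add hb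
      · exact hS A 1 0 s t hs ht
    · rw [psum_congr (Φ' := fun _ => 0) _ _ _ _ fun w hw =>
        vl_zero fun e he => monL_len e w (by rw [(hH e he).1, hw]; exact fun h => hl h.symm)]
      simp [psum]
  refine hM Ψ (m + 1) fun A _ _ s hs => ?_
  obtain ⟨a, s, rfl⟩ := List.exists_cons_of_ne_nil (l := s) (by rintro rfl; simp at hs)
  rw [← hT A _ a (by omega), List.map_cons, two0]
  refine vl_zero ?_
  rintro (_ | ⟨_ | j, e⟩) he
  · rfl
  · rw [mon, mon_len, mul_zero]
    intro hl
    have := hp e
    rw [p0, if_pos (by simpa [hl] using hs)] at this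
    exact he this.symm
  · simp [mon]

end Pool.Agent.DD.F.A1
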