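import Pool.Agent.Lib.DD.A1Blue

/-! The peeling induction. -/

set_option autoImplicit false

noncomputable section

namespace Pool.Agent.DD.F.A1

open Pool.Agent.DR Pool.Agent.DD.S39 TensorProduct FreeAlgebra

namespace I

theorem ex_tail (g : P) (i : ℕ) : ∃ q : P, ∀ e, q e = g (i :: e) :=
  ⟨Finsupp.comapDomain (i :: ·) g (List.cons_injective.injOn), fun _ => rfl⟩

theorem ex_shift (p : P) (Q : List ℕ) : ∃ g : P, ∀ i e, g (i :: e) = p (Q ++ (i + 2) :: e) := by
  refine ⟨Finsupp.comapDomain (fun l => Q ++ l.modifyHead (· + 2)) p fun a _ b _ h => ?_,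
    fun _ _ => rfl⟩
  have h' := List.append_cancel_left h
  cases a <;> cases b <;> simp_all

end I

theorem st_I (h0 : St_I0) (h1 : St_I1) (h2 : St_I2) : St_I := by
  intro m
  induction m using Nat.strong_induction_on with
  | _ m ih =>
  intro r β p hm hH hp
  have key : ∀ d j, j + d + 1 = m → ∀ Q e, ML Q → Q.length = j → p (Q ++ e) = 0 := by
    intro d
    induction d with
    | zero =>
      intro j hj Q e hQ hl
      by_contra hne
      have h3 := (hH _ hne).1
      rw [List.length_append] at h3
      obtain ⟨i, rfl⟩ := List.length_eq_one_iff.1 (show e.length = 1 by omega)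
      exact hne (h0 β m r p hH hp Q i hQ)
    | succ d ihd =>
      intro j hj Q e hQ hl
      have ihd' := ihd (j + 1) (by omega)
      obtain ⟨g, hg⟩ := I.ex_shift p Q
      have hO : InvO g := h1 β p g Q (fun e he => by rw [(hH e he).1]; omega) hp
        (fun Q' e h3 h4 => ihd' Q' e h3 (by omega)) hQ hg
      have hz : ∀ i e, g (i :: e) = 0 := by
        intro i
        induction i using Nat.strong_induction_on with
        | _ i ihi =>
        obtain ⟨q, hq⟩ := I.ex_tail g i
        have h3 : q = 0 := ih (d + 1) (by omega) (r - (Q.sum + (i + 2))) 0 q (by omega)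
          (fun e he => by
            rw [hq, hg] at he
            have h4 := hH _ he
            simp only [List.length_append, List.length_cons, List.sum_append, List.sum_cons] at h4
            omega) (h2 g q i hO (fun i' e h => ihi i' h e) hq)
        intro e
        rw [← hq, h3]; rfl
      cases e with
      | nil =>
        by_contra hne
        have h3 := (hH _ hne).1
        rw [List.append_nil] at h3
        omega
      | cons i e =>
        by_cases hi : i ≤ 1
        · rw [List.append_cons]
          refine ihd' _ e (fun a ha => ?_) (by simp [hl])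
          rcases List.mem_append.1 ha with h | h
          · exact hQ a h
          · rw [List.mem_singleton.1 h]; exact hi
        · obtain ⟨k, rfl⟩ : ∃ k, i = k + 2 := ⟨i - 2, by omega⟩
          rw [← hg, hz]
  ext e
  exact key (m - 1) 0 (by omega) [] e (fun _ h => by simp at h) rfl

end Pool.Agent.DD.F.A1
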