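import Pool.Agent.Lib.DD.A1Blue

set_option autoImplicit false

noncomputable section

namespace Pool.Agent.DD.F.A1

open Pool.Agent.DR Pool.Agent.DD.S39 TensorProduct FreeAlgebra

namespace I0

variable {A : Type} [CommRing A]

theorem monL_nil (l : List ℕ) : monL l ([] : List A) = 0 := by
  rcases l with _ | ⟨e, _ | ⟨e', l⟩⟩ <;> simp [monL]

theorem monL_cons (e : ℕ) (l : List ℕ) (hl : l ≠ []) (s : A) (t : List A) :
    monL (e :: l) (s :: t) = rho e s * monL l t := by
  rcases l with _ | ⟨e', l⟩
  · exact (hl rfl).elim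
  · simp [monL]

theorem monL_snoc (e1 : List ℕ) (i : ℕ) (τ : List A) (a : A) :
    monL (e1 ++ [i]) (τ ++ [a]) = monE e1 τ * a ^ i := by
  induction e1 generalizing τ with
  | nil =>
    rcases τ with _ | ⟨s, _ | ⟨s', τ⟩⟩ <;> simp [monL, monE]
  | cons e es ih =>
    rcases τ with _ | ⟨s, τ⟩
    · rw [List.cons_append, List.nil_append, monL_cons _ _ (by simp), monL_nil]
      simp [monE]
    · rw [List.cons_append, List.cons_append, monL_cons _ _ (by simp), ih, monE, mul_assoc]

theorem sum_vl (p : P) (T : List (List F2)) (g : List F2 → List F2) :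
    (T.map fun τ => vl monL p (g τ)).sum =
      ∑ e ∈ p.support, p e • (T.map fun τ => monL e (g τ)).sum := by
  induction T with
  | nil => simp
  | cons τ T ih =>
    simp only [List.map_cons, List.sum_cons, ih, smul_add, Finset.sum_add_distrib]
    rw [vl_eq]

theorem bit : ∀ a : F2, a = 0 ∨ a = 1 := by decide

theorem twice : ∀ a b : F2, a + (a + b) = b := by decide

end I0

theorem st_I0 (hM : St_MOB) : St_I0 := by
  intro β m r p hp hI Q e hQ
  by_contra hne
  obtain ⟨T, -, hT⟩ := hM F2 Q hQ
  have h0 : ∀ τ : List F2, vl monL p (τ ++ [1]) = 0 := fun τ => by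
    have := hI F2 [] ((τ ++ [1]).map (β + ·)) (by simp) fun a _ => I0.bit a
    rw [psum_nil_left, List.map_map] at this
    have e1 : ((fun x => algebraMap F2 F2 β + x) ∘ fun x => β + x) = id :=
      funext fun x => I0.twice β x
    rwa [e1, List.map_id] at this
  have h1 := I0.sum_vl p T fun τ => τ ++ [1]
  rw [Finset.sum_eq_single (Q ++ [e])] at h1
  · simp only [h0, I0.monL_snoc, one_pow, mul_one] at h1
    have h2 := hT Q
    rw [if_pos rfl] at h2
    rw [show (T.map fun τ => monE Q τ) = T.map (monE Q) from rfl, h2] at h1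
    exact hne (by simpa using h1.symm)
  · intro l hl hl'
    rcases List.eq_nil_or_concat l with rfl | ⟨e1, i, rfl⟩
    · have : ∀ τ : List F2, monL [] (τ ++ [1]) = 0 := fun τ => by simp [monL]
      simp [this]
    · rw [List.concat_eq_append] at hl hl' ⊢
      simp only [I0.monL_snoc, one_pow, mul_one]
      rw [show (T.map fun τ => monE e1 τ) = T.map (monE e1) from rfl, hT e1, if_neg, smul_zero]
      rintro rfl
      have a1 := (hp _ (Finsupp.mem_support_iff.1 hl)).2
      have a2 := (hp _ hne).2
      simp only [List.sum_append, List.sum_singleton] at a1 a2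
      exact hl' (by rw [show i = e by omega])
  · intro h
    exact (h (Finsupp.mem_support_iff.2 hne)).elim

end Pool.Agent.DD.F.A1
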