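import Pool.Agent.Lib.DD.A1Blue

/-! Row `I1` of the blueprint `A1Blue`: from `InvL` to `InvO` after reading off a small initial word. -/

set_option autoImplicit false

noncomputable section

namespace Pool.Agent.DD.F.A1

open Pool.Agent.DR Pool.Agent.DD.S39 TensorProduct FreeAlgebra

namespace I1

variable {A : Type} [CommRing A]

theorem monL_cons (e : ℕ) (es : List ℕ) (h : es ≠ []) (s : A) (ss : List A) :
    monL (e :: es) (s :: ss) = rho e s * monL es ss := by
  cases es with
  | nil => exact absurd rfl h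
  | cons e' es => rw [monL]

theorem monL_append (e' : List ℕ) (h : e' ≠ []) (w : List A) :
    ∀ (Q : List ℕ) (u : List A), Q.length = u.length →
      monL (Q ++ e') (u ++ w) = monE Q u * monL e' w
  | [], [], _ => by simp [monE]
  | [], _ :: _, hl => by simp at hl
  | _ :: _, [], hl => by simp at hl
  | q :: Q, x :: u, hl => by
    rw [List.cons_append, List.cons_append, monL_cons _ _ (by simp [h]),
      monL_append e' h w Q u (by simpa using hl), monE, mul_assoc]

theorem psum_zero (a b : A) (s t : List A) : psum (fun _ => (0 : A)) a s b t = 0 := by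
  simp [psum]

theorem psum_mul (c : A) (Φ : List A → A) (a b : A) (s t : List A) :
    psum (fun w => c * Φ w) a s b t = c * psum Φ a s b t := by
  simp [psum, List.sum_map_mul_left]

theorem psum_sum {ι : Type} (T : List ι) (Φ : ι → List A → A) (a b : A) (s t : List A) :
    psum (fun w => (T.map fun τ => Φ τ w).sum) a s b t =
      (T.map fun τ => psum (Φ τ) a s b t).sum := by
  induction T with
  | nil => simp [psum]
  | cons τ T ih =>
    simp only [List.map_cons, List.sum_cons]
    rw [← ih]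
    simp [psum, List.sum_map_add]

theorem bit_cons {a : A} {u : List A} (ha : a = 0 ∨ a = 1) (hu : Bit u) : Bit (a :: u) := by
  intro x hx
  rcases List.mem_cons.1 hx with rfl | hx
  · exact ha
  · exact hu x hx

variable [Algebra F2 A]

theorem bit_add {a b : A} (ha : a = 0 ∨ a = 1) (hb : b = 0 ∨ b = 1) : a + b = 0 ∨ a + b = 1 := by
  rcases ha with rfl | rfl <;> rcases hb with rfl | rfl <;> simp [two0]

theorem rho_bit {a : A} (ha : a = 0 ∨ a = 1) (e : ℕ) : rho (e + 2) a = 0 := by
  rcases ha with rfl | rfl <;> simp [rho, two0]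

theorem monE_bit : ∀ (Q : List ℕ) (u : List A), Bit u → ¬ ML Q → monE Q u = 0
  | [], _, _, h => absurd (fun _ hi => by simp at hi) h
  | _ :: _, [], _, _ => by simp [monE]
  | q :: Q, x :: u, hu, h => by
    rw [monE]
    by_cases hq : q ≤ 1
    · rw [monE_bit Q u (fun y hy => hu y (List.mem_cons_of_mem _ hy)) (fun hQ => h fun i hi => by
        rcases List.mem_cons.1 hi with rfl | hi
        · exact hq
        · exact hQ i hi), mul_zero]
    · obtain ⟨e, rfl⟩ : ∃ e, q = e + 2 := ⟨q - 2, by omega⟩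
      rw [rho_bit (hu x List.mem_cons_self), zero_mul]

/-- paths that start with `n` bits -/
theorem psum_bits (r : List A) : ∀ (n : ℕ) (Ψ : List A → A) (τ : List A) (a b : A) (t : List A),
    n ≤ τ.length → (∀ u w, Bit u → u.length = n → Ψ (u ++ w) = 0) → Bit τ → (a = 0 ∨ a = 1) →
    (b = 0 ∨ b = 1) → Bit t → psum Ψ a (τ ++ r) b t = 0
  | 0, Ψ, τ, a, b, t, _, h, _, _, _, _ => by
    have : Ψ = fun _ => 0 := funext fun w => h [] w (fun _ hx => by simp at hx) rfl
    rw [this, psum_zero]
  | _ + 1, _, [], _, _, _, hn, _, _, _, _, _ => by simp at hn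
  | n + 1, Ψ, a' :: τ, a, b, t, hn, h, hτ, ha, hb, ht => by
    have ha' := hτ a' List.mem_cons_self
    have hτ' : Bit τ := fun y hy => hτ y (List.mem_cons_of_mem _ hy)
    have key : ∀ c : A, (c = 0 ∨ c = 1) → ∀ u w, Bit u → u.length = n → Ψ (c :: (u ++ w)) = 0 :=
      fun c hc u w hu hl => h (c :: u) w (bit_cons hc hu) (by simp [hl])
    have h1 := psum_bits r n (fun w => Ψ ((a' + b) :: w)) τ a' b t (by simpa using hn)
      (key _ (bit_add ha' hb)) hτ' ha' hb ht
    cases t with
    | nil =>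
      rw [psum_nil_right] at h1 ⊢
      simpa using h1
    | cons b' t =>
      have hb' := ht b' List.mem_cons_self
      have h2 := psum_bits r n (fun w => Ψ ((a + b') :: w)) (a' :: τ) a b' t (by omega)
        (key _ (bit_add ha hb')) hτ ha hb' (fun y hy => ht y (List.mem_cons_of_mem _ hy))
      rw [List.cons_append] at h2 ⊢
      rw [psum_cons, h1, h2, add_zero]

theorem psum_pre (σ : A) (s t : List A) (h0 : t ≠ []) (ht : Bit t) :
    ∀ (τ : List A) (Φ : List A → A) (a : A),
      (∀ u w, Bit u → u.length = τ.length + 1 → Φ (u ++ w) = 0) → Bit τ → (a = 0 ∨ a = 1) →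
      psum Φ a (τ ++ σ :: s) 0 t = psum (fun w => Φ (τ ++ σ :: w)) σ s 0 t := by
  obtain ⟨b', t, rfl⟩ := List.exists_cons_of_ne_nil h0
  have hb' := ht b' List.mem_cons_self
  have ht' : Bit t := fun y hy => ht y (List.mem_cons_of_mem _ hy)
  have side : ∀ (τ : List A) (Φ : List A → A) (a : A),
      (∀ u w, Bit u → u.length = τ.length + 1 → Φ (u ++ w) = 0) → Bit τ → (a = 0 ∨ a = 1) →
      psum (fun w => Φ ((a + b') :: w)) a (τ ++ σ :: s) b' t = 0 := fun τ Φ a h hτ ha =>
    psum_bits _ τ.length _ τ a b' t le_rfl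
      (fun u w hu hl => h ((a + b') :: u) w (bit_cons (bit_add ha hb') hu) (by simp [hl]))
      hτ ha hb' ht'
  intro τ
  induction τ with
  | nil =>
    intro Φ a h hτ ha
    have h2 := side [] Φ a h hτ ha
    rw [List.nil_append] at h2 ⊢
    rw [psum_cons, h2, add_zero, add_zero]
    rfl
  | cons a' τ ih =>
    intro Φ a h hτ ha
    have h2 := side (a' :: τ) Φ a h hτ ha
    have ha' := hτ a' List.mem_cons_self
    rw [List.cons_append] at h2 ⊢
    rw [psum_cons, h2, add_zero, add_zero, ih (fun w => Φ (a' :: w)) a'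
      (fun u w hu hl => h (a' :: u) w (bit_cons ha' hu) (by simp [hl]))
      (fun y hy => hτ y (List.mem_cons_of_mem _ hy)) ha']
    rfl

theorem split (e : List ℕ) (n : ℕ) (h : n + 1 ≤ e.length) :
    ∃ Q e', e = Q ++ e' ∧ Q.length = n ∧ e' ≠ [] :=
  ⟨e.take n, e.drop n, (List.take_append_drop n e).symm, by simp; omega, by simp; omega⟩

theorem vl_bits (p : P) (j : ℕ) (hlen : ∀ e, p e ≠ 0 → j + 2 ≤ e.length)
    (hz : ∀ Q' e, ML Q' → Q'.length = j + 1 → p (Q' ++ e) = 0) (u w : List A) (hu : Bit u)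
    (hl : u.length = j + 1) : vl monL p (u ++ w) = 0 := by
  rw [vl_eq]
  refine Finset.sum_eq_zero fun e he => ?_
  have he' := Finsupp.mem_support_iff.1 he
  obtain ⟨Q1, e', rfl, h1, h2⟩ := split e (j + 1) (hlen e he')
  rw [monL_append e' h2 w Q1 u (by omega), monE_bit Q1 u hu (fun hQ => he' (hz Q1 e' hQ h1)),
    zero_mul, smul_zero]

omit [Algebra F2 A] in
theorem sum_comm' {ι κ : Type} (T : List ι) (S : Finset κ) (F : ι → κ → A) :
    (T.map fun τ => ∑ e ∈ S, F τ e).sum = ∑ e ∈ S, (T.map fun τ => F τ e).sum := by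
  induction T with
  | nil => simp
  | cons τ T ih => simp [ih, Finset.sum_add_distrib]

theorem read (p g : P) (Q : List ℕ) (hlen : ∀ e, p e ≠ 0 → Q.length + 2 ≤ e.length)
    (hz : ∀ Q' e, ML Q' → Q'.length = Q.length + 1 → p (Q' ++ e) = 0) (hQ : ML Q)
    (hg : ∀ i e, g (i :: e) = p (Q ++ (i + 2) :: e)) (T : List (List A))
    (hT : ∀ τ ∈ T, τ.length = Q.length)
    (hs : ∀ e : List ℕ, (T.map (monE e)).sum = if e = Q then 1 else 0) (σ : A) (w : List A) :
    (T.map fun τ => vl monL p (τ ++ σ :: w)).sum = (σ ^ 2 + σ) * vl monO g (σ :: w) := by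
  classical
  have one : ∀ (Q1 : List ℕ) (e : List ℕ), Q1.length = Q.length → e ≠ [] → ∀ c : F2,
      (T.map fun τ => c • monL (Q1 ++ e) (τ ++ σ :: w)).sum =
        if Q1 = Q then c • monL e (σ :: w) else 0 := fun Q1 e h1 h2 c => by
    have : (T.map fun τ => c • monL (Q1 ++ e) (τ ++ σ :: w)) =
        T.map fun τ => monE Q1 τ * (c • monL e (σ :: w)) :=
      List.map_congr_left fun τ hτ => by
        rw [monL_append e h2 _ Q1 τ (h1.trans (hT τ hτ).symm), mul_smul_comm]
    rw [this, List.sum_map_mul_right, hs]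
    split_ifs <;> simp
  simp only [vl_eq]
  rw [sum_comm', Finset.mul_sum,
    ← Finset.sum_filter_of_ne (s := g.support) (p := fun e => e ≠ []) (fun e _ he => by
      rintro rfl
      simp [monO] at he)]
  symm
  refine Finset.sum_of_injOn (fun e => Q ++ e.modifyHead (· + 2)) ?_ ?_ ?_ ?_
  · intro e he e' he' h
    obtain ⟨i, e, rfl⟩ := List.exists_cons_of_ne_nil (Finset.mem_filter.1 he).2
    obtain ⟨i', e', rfl⟩ := List.exists_cons_of_ne_nil (Finset.mem_filter.1 he').2
    simpa using h
  · intro e he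
    obtain ⟨h1, h2⟩ := Finset.mem_filter.1 he
    obtain ⟨i, e, rfl⟩ := List.exists_cons_of_ne_nil h2
    have := Finsupp.mem_support_iff.1 h1
    rw [hg] at this
    simpa using this
  · intro e he hne
    have he' := Finsupp.mem_support_iff.1 he
    obtain ⟨Q1, e', rfl, h1, h2⟩ := split e Q.length (by have := hlen e he'; omega)
    rw [one Q1 e' h1 h2]
    split_ifs with hq
    · subst hq
      obtain ⟨i, e', rfl⟩ := List.exists_cons_of_ne_nil h2
      by_cases hi : i ≤ 1
      · refine absurd ?_ he'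
        have := hz (Q1 ++ [i]) e' (fun x hx => by
          rcases List.mem_append.1 hx with hx | hx
          · exact hQ x hx
          · rw [List.mem_singleton.1 hx]; exact hi) (by simp)
        simpa using this
      · obtain ⟨i, rfl⟩ : ∃ k, i = k + 2 := ⟨i - 2, by omega⟩
        refine absurd ⟨i :: e', ?_, rfl⟩ hne
        refine Finset.mem_coe.2 (Finset.mem_filter.2 ⟨Finsupp.mem_support_iff.2 ?_, by simp⟩)
        rw [hg]; exact he'
    · rfl
  · intro e he
    obtain ⟨h1, h2⟩ := Finset.mem_filter.1 he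
    obtain ⟨i, e, rfl⟩ := List.exists_cons_of_ne_nil h2
    have h3 := Finsupp.mem_support_iff.1 h1
    rw [hg] at h3
    have h4 : e ≠ [] := by
      rintro rfl
      have := hlen _ h3
      simp at this
    rw [List.modifyHead_cons, one Q _ rfl (by simp), if_pos rfl, monL_cons _ _ h4, hg, monO,
      mul_smul_comm, rho]
    refine congrArg _ ?_
    ring

theorem mul_zero' (hM : St_MOB) (β : F2) (p g : P) (Q : List ℕ)
    (hlen : ∀ e, p e ≠ 0 → Q.length + 2 ≤ e.length) (hI : InvL β p)
    (hz : ∀ Q' e, ML Q' → Q'.length = Q.length + 1 → p (Q' ++ e) = 0) (hQ : ML Q)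
    (hg : ∀ i e, g (i :: e) = p (Q ++ (i + 2) :: e)) (σ : A) (s t : List A) (h0 : t ≠ [])
    (ht : Bit t) : (σ ^ 2 + σ) * psum (fun w => vl monO g (σ :: w)) σ s 0 t = 0 := by
  obtain ⟨T, hT, hs⟩ := hM A Q hQ
  have hβ : algebraMap F2 A β = 0 ∨ algebraMap F2 A β = 1 := by
    have : ∀ x : F2, x = 0 ∨ x = 1 := by decide
    rcases this β with rfl | rfl <;> simp
  rw [← psum_mul]
  have e1 : (fun w => (σ ^ 2 + σ) * vl monO g (σ :: w)) =
      fun w => (T.map fun τ => vl monL p (τ ++ σ :: w)).sum :=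
    funext fun w => (read p g Q hlen hz hQ hg T (fun τ h => (hT τ h).2) hs σ w).symm
  rw [e1, psum_sum]
  refine List.sum_eq_zero fun x hx => ?_
  obtain ⟨τ, hτ, rfl⟩ := List.mem_map.1 hx
  rw [← psum_pre σ s t h0 ht τ (vl monL p) (algebraMap F2 A β)
    (fun u w hu hl => vl_bits p Q.length hlen hz u w hu (by rw [hl, (hT τ hτ).2])) (hT τ hτ).1 hβ]
  exact hI A _ t h0 ht

end I1

theorem st_I1 (hN : St_NAT) (hM : St_MOB) : St_I1 := by
  intro β p g Q hlen hI hz hQ hg A _ _ σ s t h0 ht
  have h1 := I1.mul_zero' (A := Polynomial A) hM β p g Q hlen hI hz hQ hg Polynomial.X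
    (s.map Polynomial.C) (t.map Polynomial.C) (by simpa using h0) (fun x hx => by
      obtain ⟨y, hy, rfl⟩ := List.mem_map.1 hx
      rcases ht y hy with rfl | rfl <;> simp)
  have hm : (Polynomial.X ^ 2 + Polynomial.X : Polynomial A).Monic := by
    have : (Polynomial.X ^ 2 + Polynomial.X : Polynomial A) =
        Polynomial.X * (Polynomial.X + Polynomial.C 1) := by
      rw [Polynomial.C_1]; ring
    rw [this]
    exact Polynomial.monic_X.mul (Polynomial.monic_X_add_C 1)
  have h2 := hm.isRegular.left (h1.trans (mul_zero _).symm)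
  obtain ⟨n1, n2⟩ := hN (Polynomial A) A (Polynomial.evalRingHom σ)
  have h3 := n2 (fun w => vl monO g (Polynomial.X :: w)) (fun w => vl monO g (σ :: w))
    (fun w => by rw [(n1 g _).2.2.2]; simp) Polynomial.X 0 (s.map Polynomial.C)
    (t.map Polynomial.C)
  rw [h2] at h3
  simpa [Function.comp_def] using h3.symm

end Pool.Agent.DD.F.A1
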