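import Pool.Agent.Lib.DD.A1_NAT

/-! Row `I2` of the blueprint `A1Blue`: the lowest coefficient in the first slot. -/

set_option autoImplicit false

noncomputable section

namespace Pool.Agent.DD.F.A1

open Polynomial

namespace I2

variable {A : Type} [CommRing A]

/-- monomials divided by a power of the first point -/
def mq (i : ℕ) : List ℕ → List A[X] → A[X]
  | [], _ => 0
  | k :: e, w => X ^ (k - i) * monL e w

variable [Algebra F2 A]

theorem fac {g : P} {i : ℕ} (h : ∀ i' e, i' < i → g (i' :: e) = 0) (w : List A[X]) :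
    vl monO g (X :: w) = X ^ i * vl (mq i) g w := by
  rw [vl_eq, vl_eq, Finset.mul_sum]
  refine Finset.sum_congr rfl fun e he => ?_
  rcases e with _ | ⟨k, e⟩
  · simp [monO, mq]
  · have hk : i ≤ k := not_lt.1 fun hk => Finsupp.mem_support_iff.1 he (h k e hk)
    rw [monO, mq, mul_smul_comm, ← mul_assoc, ← pow_add, Nat.add_sub_cancel' hk]

theorem ev0 {g q : P} {i : ℕ} (h : ∀ i' e, i' < i → g (i' :: e) = 0) (hq : ∀ e, q e = g (i :: e))
    (w : List A[X]) : evalRingHom 0 (vl (mq i) g w) = vl monL q (w.map (evalRingHom 0)) := by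
  rw [vl_eq, vl_eq, map_sum]
  refine (Finset.sum_of_injOn (fun e => i :: e) (fun a _ b _ hab => (List.cons.inj hab).2)
    (fun e he => ?_) (fun e he hn => ?_) fun e _ => ?_).symm
  · exact Finsupp.mem_support_iff.2 (hq e ▸ Finsupp.mem_support_iff.1 he)
  · rw [NAT.map_sm]
    rcases e with _ | ⟨k, e⟩
    · simp [mq]
    · have h0 := Finsupp.mem_support_iff.1 he
      have hk : i ≤ k := not_lt.1 fun hk => h0 (h k e hk)
      have hne : k ≠ i := by
        rintro rfl
        exact hn ⟨e, Finsupp.mem_support_iff.2 (by rwa [hq]), rfl⟩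
      have : k - i ≠ 0 := by omega
      simp [mq, this]
  · rw [NAT.map_sm, mq, map_mul, NAT.map_monL, hq, Nat.sub_self, pow_zero, map_one, one_mul]

end I2

theorem st_I2 (hN : St_NAT) : St_I2 := by
  intro g q i hg h hq A _ _ s t ht hb
  have h1 := hg A[X] X (s.map C) (t.map C) (by simpa using ht) (by
    intro a ha
    obtain ⟨b, hb', rfl⟩ := List.mem_map.1 ha
    rcases hb b hb' with rfl | rfl <;> simp)
  simp only [I2.fac h] at h1
  rw [psum, List.sum_map_mul_left, (monic_X_pow i).mul_right_eq_zero_iff] at h1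
  have h2 := (hN A[X] A (evalRingHom 0)).2 (vl (I2.mq i) g) (vl monL q) (I2.ev0 h hq) X 0
    (s.map C) (t.map C)
  have e : ∀ l : List A, (l.map C).map (evalRingHom (0 : A)) = l := fun l => by
    simp [List.map_map, Function.comp_def]
  rw [e, e, map_zero, show psum (vl (I2.mq i) g) X (s.map C) 0 (t.map C) = 0 from h1,
    map_zero] at h2
  rw [map_zero]
  simpa using h2.symm

end Pool.Agent.DD.F.A1
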