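import Pool.Agent.Lib.DD.A1Blue

/-! Row INJ: a polynomial that vanishes at all points of all rings has zero coefficients. -/

set_option autoImplicit false

noncomputable section

namespace Pool.Agent.DD.F.A1

open Pool.Agent.DR Pool.Agent.DD.S39 TensorProduct FreeAlgebra

namespace INJ

/-- the exponent vector of a list, starting at the variable `k` -/
def fs : ℕ → List ℕ → (ℕ →₀ ℕ)
  | _, [] => 0
  | k, i :: e => Finsupp.single k i + fs (k + 1) e

theorem fs_lt : ∀ (e : List ℕ) (k j : ℕ), j < k → fs k e j = 0
  | [], _, _, _ => rfl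
  | i :: e, k, j, h => by
    rw [fs, Finsupp.add_apply, fs_lt e (k + 1) j (by omega), Finsupp.single_eq_of_ne (by omega)]

theorem fs_inj : ∀ (e e' : List ℕ) (k : ℕ), e.length = e'.length → fs k e = fs k e' → e = e'
  | [], [], _, _, _ => rfl
  | [], _ :: _, _, h, _ => by simp at h
  | _ :: _, [], _, h, _ => by simp at h
  | i :: e, i' :: e', k, h, h' => by
    have h1 := DFunLike.congr_fun h' k
    simp only [fs, Finsupp.add_apply, fs_lt _ (k + 1) k (by omega), Finsupp.single_eq_same,
      add_zero] at h1
    subst h1
    rw [fs_inj e e' (k + 1) (by simpa using h) (add_left_cancel h')]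

theorem mon_X : ∀ (e : List ℕ) (m k : ℕ),
    mon e ((List.range' k m).map (MvPolynomial.X : ℕ → MvPolynomial ℕ F2)) =
      if e.length = m then MvPolynomial.monomial (fs k e) 1 else 0
  | [], 0, _ => by simp [mon, fs]
  | [], m + 1, _ => by simp [mon, List.range'_succ]
  | _ :: _, 0, _ => by simp [mon]
  | i :: e, m + 1, k => by
    rw [List.range'_succ, List.map_cons, mon, mon_X e m (k + 1), fs, MvPolynomial.X_pow_eq_monomial]
    simp only [List.length_cons, Nat.add_right_cancel_iff]
    split_ifs
    · rw [MvPolynomial.monomial_mul, one_mul]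
    · rw [mul_zero]

end INJ

open INJ in
theorem st_INJ : St_INJ := by
  intro p m h e he
  have h1 := congrArg (MvPolynomial.coeff (fs 0 e))
    (h (MvPolynomial ℕ F2) ((List.range' 0 m).map MvPolynomial.X) (by simp))
  rw [vl_eq, MvPolynomial.coeff_sum, MvPolynomial.coeff_zero, Finset.sum_eq_single e] at h1
  · simpa [mon_X, he] using h1
  · intro e' _ hne
    rw [mon_X]
    split_ifs with hl
    · rw [MvPolynomial.coeff_smul, MvPolynomial.coeff_monomial,
        if_neg fun h' => hne (fs_inj _ _ 0 (hl.trans he.symm) h'), smul_zero]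
    · simp
  · intro h0
    simp [Finsupp.notMem_support_iff.1 h0]

end Pool.Agent.DD.F.A1
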