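import Pool.Agent.Lib.DD.A1Blue

/-! Row MOB of the blueprint for `St_CORE65`. -/

set_option autoImplicit false

noncomputable section

namespace Pool.Agent.DD.F.A1

open Pool.Agent.DR Pool.Agent.DD.S39 TensorProduct FreeAlgebra

namespace MOB

variable {A : Type} [CommRing A]

theorem sum_nil (a : A) (T : List (List A)) : ((T.map (a :: ·)).map (monE [])).sum = 0 := by
  induction T with
  | nil => rfl
  | cons t T ih => simpa [monE] using ih

theorem sum_cons (a : A) (T : List (List A)) (j : ℕ) (es : List ℕ) :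
    ((T.map (a :: ·)).map (monE (j :: es))).sum = rho j a * (T.map (monE es)).sum := by
  induction T with
  | nil => simp
  | cons t T ih =>
    simp only [List.map_cons, List.sum_cons, monE, mul_add] at ih ⊢
    rw [ih]

theorem bit {T : List (List A)} {m : ℕ} (h : ∀ τ ∈ T, Bit τ ∧ τ.length = m) {a : A}
    (ha : a = 0 ∨ a = 1) : ∀ τ ∈ T.map (a :: ·), Bit τ ∧ τ.length = m + 1 := by
  intro τ hτ
  obtain ⟨t, ht, rfl⟩ := List.mem_map.1 hτ
  refine ⟨fun b hb => ?_, by simp [(h t ht).2]⟩
  rcases List.mem_cons.1 hb with rfl | hb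
  · exact ha
  · exact (h t ht).1 b hb

end MOB

theorem st_MOB : St_MOB := by
  intro A _ _ Q hQ
  induction Q with
  | nil =>
    refine ⟨[[]], by simp [Bit], fun e => ?_⟩
    cases e <;> simp [monE]
  | cons q Q ih =>
    obtain ⟨T, h1, h2⟩ := ih fun i hi => hQ i (List.mem_cons_of_mem _ hi)
    have hq := hQ q List.mem_cons_self
    have r1 : ∀ j, rho (j + 1) (1 : A) = 0 := fun j => by simpa [rho] using two0 (1 : A)
    interval_cases q
    · refine ⟨T.map (1 :: ·), MOB.bit h1 (Or.inr rfl), fun e => ?_⟩
      rcases e with _ | ⟨j, es⟩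
      · simp only [MOB.sum_nil, reduceCtorEq, if_false]
      · rw [MOB.sum_cons, h2]
        rcases j with _ | j
        · simp [rho]
        · simp [r1]
    · refine ⟨T.map (0 :: ·) ++ T.map (1 :: ·), fun τ hτ => (List.mem_append.1 hτ).elim
        (MOB.bit h1 (Or.inl rfl) τ) (MOB.bit h1 (Or.inr rfl) τ), fun e => ?_⟩
      rw [List.map_append, List.sum_append]
      rcases e with _ | ⟨j, es⟩
      · simp only [MOB.sum_nil, reduceCtorEq, if_false, add_zero]
      · rw [MOB.sum_cons, MOB.sum_cons, h2]
        rcases j with _ | _ | j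
        · simpa [rho] using two0 (if es = Q then (1 : A) else 0)
        · rw [r1]
          simp [rho]
        · rw [r1]
          simp [rho]

end Pool.Agent.DD.F.A1
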