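import Pool.Agent.Lib.DD.A1Blue

/-! Row `NAT` of the blueprint `A1Blue`: naturality under ring maps. -/

set_option autoImplicit false

noncomputable section

namespace Pool.Agent.DD.F.A1

open Pool.Agent.DR Pool.Agent.DD.S39 TensorProduct FreeAlgebra

namespace NAT

variable {A B : Type} [CommRing A] [CommRing B] (φ : A →+* B)

theorem map_rho (e : ℕ) (s : A) : φ (rho e s) = rho e (φ s) := by
  cases e <;> simp [rho]

theorem map_mon : ∀ (e : List ℕ) (s : List A), φ (mon e s) = mon e (s.map φ)
  | [], [] => by simp [mon]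
  | [], _ :: _ => by simp [mon]
  | _ :: _, [] => by simp [mon]
  | e :: es, s :: ss => by simp [mon, map_mon es ss]

theorem map_monE : ∀ (e : List ℕ) (s : List A), φ (monE e s) = monE e (s.map φ)
  | [], [] => by simp [monE]
  | [], _ :: _ => by simp [monE]
  | _ :: _, [] => by simp [monE]
  | e :: es, s :: ss => by simp [monE, map_monE es ss, map_rho]

theorem map_monL : ∀ (e : List ℕ) (s : List A), φ (monL e s) = monL e (s.map φ)
  | [], _ => by simp [monL]
  | [_], [] => by simp [monL]
  | [_], [_] => by simp [monL]
  | [_], _ :: _ :: _ => by simp [monL]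
  | _ :: _ :: _, [] => by simp [monL]
  | e :: e' :: es, s :: ss => by simp [monL, map_monL (e' :: es) ss, map_rho]

theorem map_monO : ∀ (e : List ℕ) (s : List A), φ (monO e s) = monO e (s.map φ)
  | [], _ => by simp [monO]
  | _ :: _, [] => by simp [monO]
  | e :: es, s :: ss => by simp [monO, map_monL φ es ss]

variable [Algebra F2 A] [Algebra F2 B]

theorem map_sm (c : F2) (x : A) : φ (c • x) = c • φ x := by
  have h : c = 0 ∨ c = 1 := by revert c; decide
  rcases h with rfl | rfl <;> simp

theorem map_vl (m : List ℕ → List A → A) (m' : List ℕ → List B → B)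
    (h : ∀ e s, φ (m e s) = m' e (s.map φ)) (p : P) (s : List A) :
    φ (vl m p s) = vl m' p (s.map φ) := by
  rw [vl_eq, vl_eq, map_sum]
  exact Finset.sum_congr rfl fun e _ => by rw [map_sm, h]

omit [Algebra F2 A] [Algebra F2 B] in
theorem map_psum : ∀ (n : ℕ) (Φ : List A → A) (Φ' : List B → B), (∀ w, φ (Φ w) = Φ' (w.map φ)) →
    ∀ (a b : A) (s t : List A), s.length + t.length = n →
      φ (psum Φ a s b t) = psum Φ' (φ a) (s.map φ) (φ b) (t.map φ) := by
  intro n
  induction n with
  | zero =>
    intro Φ Φ' h a b s t hn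
    obtain rfl : s = [] := List.length_eq_zero_iff.1 (by omega)
    rw [List.map_nil, psum_nil_left, psum_nil_left, h]
    simp [List.map_map, Function.comp_def]
  | succ n ih =>
    intro Φ Φ' h a b s t hn
    cases s with
    | nil =>
      rw [List.map_nil, psum_nil_left, psum_nil_left, h]
      simp [List.map_map, Function.comp_def]
    | cons a' s =>
      cases t with
      | nil =>
        rw [List.map_nil, psum_nil_right, psum_nil_right, h]
        simp [List.map_map, Function.comp_def]
      | cons b' t =>
        simp only [List.length_cons] at hn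
        rw [List.map_cons, List.map_cons, psum_cons, psum_cons, map_add,
          ih _ (fun w => Φ' ((φ a' + φ b) :: w)) (fun w => by rw [h]; simp) a' b s (b' :: t)
            (by simp; omega),
          ih _ (fun w => Φ' ((φ a + φ b') :: w)) (fun w => by rw [h]; simp) a b' (a' :: s) t
            (by simp; omega)]
        simp

end NAT

theorem st_NAT : St_NAT := by
  intro A B _ _ _ _ φ
  exact ⟨fun p s => ⟨NAT.map_vl φ _ _ (NAT.map_mon φ) p s, NAT.map_vl φ _ _ (NAT.map_monE φ) p s,
    NAT.map_vl φ _ _ (NAT.map_monL φ) p s, NAT.map_vl φ _ _ (NAT.map_monO φ) p s⟩,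
    fun Φ Φ' h a b s t => NAT.map_psum φ _ Φ Φ' h a b s t rfl⟩

end Pool.Agent.DD.F.A1
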