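import Pool.Agent.Lib.DD.A1Blue

set_option autoImplicit false

noncomputable section

namespace Pool.Agent.DD.F.A1

open Pool.Agent.DR Pool.Agent.DD.S39 TensorProduct FreeAlgebra

namespace REV

theorem runs_ne (w : List Bool) : runs w ≠ [] := by
  induction w with
  | nil => simp [runs]
  | cons s w ih => cases s <;> simp [runs, ih]

theorem runs_false (w : List Bool) : runs (w ++ [false]) = runs w ++ [0] := by
  induction w with
  | nil => simp [runs]
  | cons s w ih =>
    obtain ⟨a, l, h⟩ := List.exists_cons_of_ne_nil (runs_ne w)
    cases s <;> simp [runs, ih, h]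

theorem runs_true (w : List Bool) : ∀ (l : List ℕ) (a : ℕ), runs w = l ++ [a] →
    runs (w ++ [true]) = l ++ [a + 1] := by
  induction w with
  | nil => intro l a h; cases l <;> simp_all [runs]
  | cons s w ih =>
    intro l a h
    obtain ⟨l', a', h'⟩ := (List.eq_nil_or_concat' (runs w)).resolve_left (runs_ne w)
    have := ih l' a' h'
    cases s
    · cases l with
      | nil => simp [runs, h'] at h
      | cons b l =>
        simp only [runs, h', List.cons_append, List.cons.injEq, List.append_singleton_inj] at h
        simp [runs, this, ← h.1, h.2.1, h.2.2]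
    · cases l' with
      | nil =>
        cases l with
        | nil => simp_all [runs]
        | cons b l => simp [runs, h'] at h
      | cons b' l' =>
        cases l with
        | nil => simp [runs, h'] at h
        | cons b l =>
          simp only [runs, h', List.cons_append, List.modifyHead_cons, List.cons.injEq,
            List.append_singleton_inj] at h
          simp [runs, this, ← h.1, h.2.1, h.2.2]

theorem runs_rev (w : List Bool) : runs w.reverse = (runs w).reverse := by
  induction w with
  | nil => simp [runs]
  | cons s w ih =>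
    cases s
    · simp [runs, runs_false, ih]
    · obtain ⟨a, l, h⟩ := List.exists_cons_of_ne_nil (runs_ne w)
      rw [List.reverse_cons, runs_true _ l.reverse a (by simp [ih, h])]
      simp [runs, h]

theorem neg2 (f : FA F2) : -f = f := by
  rw [neg_eq_iff_add_eq_zero, ← two_smul F2, show (2 : F2) = 0 from rfl, zero_smul]

theorem sg_wd (w : List Bool) :
    sg (wd (lx F2) (ly F2) w) = wd (lx F2) (ly F2) w.reverse := by
  induction w with
  | nil => simp [sg]
  | cons s w ih => cases s <;> simp [ih, wd_append, neg2]

variable {A : Type} [CommRing A]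

theorem mon_app (i : ℕ) (a : A) : ∀ (e : List ℕ) (s : List A),
    mon (e ++ [i]) (s ++ [a]) = mon e s * a ^ i
  | [], [] => by simp [mon]
  | [], _ :: s => by cases s <;> simp [mon]
  | _ :: e, [] => by cases e <;> simp [mon]
  | _ :: e, _ :: s => by simp [mon, mon_app i a e s, mul_assoc]

theorem monE_app (i : ℕ) (a : A) : ∀ (e : List ℕ) (s : List A),
    monE (e ++ [i]) (s ++ [a]) = monE e s * rho i a
  | [], [] => by simp [monE]
  | [], _ :: s => by cases s <;> simp [monE]
  | _ :: e, [] => by cases e <;> simp [monE]
  | _ :: e, _ :: s => by simp [monE, monE_app i a e s, mul_assoc]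

theorem monL_nil : ∀ e : List ℕ, monL e ([] : List A) = 0
  | [] => by simp [monL]
  | [_] => by simp [monL]
  | _ :: _ :: _ => by simp [monL]

theorem monL_app (i : ℕ) (a : A) : ∀ (e : List ℕ) (s : List A),
    monL (e ++ [i]) (s ++ [a]) = monE e s * a ^ i
  | [], [] => by simp [monL, monE]
  | [], _ :: s => by cases s <;> simp [monL, monE]
  | _ :: e, [] => by cases e <;> simp [monL, monE, monL_nil]
  | j :: e, b :: s => by
    have := monL_app i a e s
    cases e <;> simp_all [monL, monE, mul_assoc]

theorem mon_rev : ∀ (e : List ℕ) (s : List A), mon e.reverse s.reverse = mon e s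
  | [], [] => rfl
  | [], _ :: s => by cases h : s.reverse <;> simp [mon, h]
  | _ :: e, [] => by cases h : e.reverse <;> simp [mon, h]
  | _ :: e, _ :: s => by simp [mon, mon_app, mon_rev e s, mul_comm]

theorem monE_rev : ∀ (e : List ℕ) (s : List A), monE e.reverse s.reverse = monE e s
  | [], [] => rfl
  | [], _ :: s => by cases h : s.reverse <;> simp [monE, h]
  | _ :: e, [] => by cases h : e.reverse <;> simp [monE, h]
  | _ :: e, _ :: s => by simp [monE, monE_app, monE_rev e s, mul_comm]

theorem monL_rev : ∀ (e : List ℕ) (s : List A), monL e.reverse s.reverse = monH e s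
  | [], _ => by simp [monL, monH]
  | _ :: e, [] => by simp [monH, monL_nil]
  | _ :: e, _ :: s => by simp [monH, monL_app, monE_rev e s, mul_comm]

variable [Algebra F2 A]

theorem vl_sg (m m' : List ℕ → List A → A) (s s' : List A) (h : ∀ e, m e.reverse s = m' e s')
    (f : FA F2) : vl m (cY (sg f)) s = vl m' (cY f) s' := by
  have hs : ∀ (r : F2) (g : FA F2), sg (r • g) = r • sg g := fun r g => by
    rw [Algebra.smul_def, sg_mul, sg_c, Algebra.smul_def, Algebra.commutes]
  have := (basisFreeMonoid F2 Bool).mem_span f
  induction this using Submodule.span_induction with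
  | mem g hg =>
    obtain ⟨w, rfl⟩ := hg
    have e := CO.basis_eq (K := F2) w.toList
    rw [FreeMonoid.ofList_toList] at e
    simp [e, sg_wd, cY_wd, vl, runs_rev, h]
  | zero => simp [vl, sg]
  | add f g _ _ hf hg => simp only [vl, sg_add, map_add] at hf hg ⊢; rw [hf, hg]
  | smul r f _ hf => simp only [vl, hs, map_smul] at hf ⊢; rw [hf]

end REV

theorem st_REV : St_REV := fun f hf A _ _ s => by
  have e : sg f = f := hf.sg.trans (REV.neg2 f)
  refine ⟨?_, ?_⟩
  · rw [← REV.vl_sg monL monH s s.reverse (fun e => by simpa using REV.monL_rev e s.reverse) f, e]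
  · rw [← REV.vl_sg mon mon s.reverse s (fun e => REV.mon_rev e s) f, e]

end Pool.Agent.DD.F.A1
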