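import Pool.Agent.Lib.DD.A1Blue

/-! Translation invariance and shuffle relations for Lie polynomials. -/

set_option autoImplicit false

noncomputable section

namespace Pool.Agent.DD.F.A1

open Pool.Agent.DR Pool.Agent.DD.S39 TensorProduct FreeAlgebra

namespace SH

theorem ind {p : FA F2 → Prop} (hw : ∀ w, p (wd (lx F2) (ly F2) w)) (h0 : p 0)
    (ha : ∀ f g, p f → p g → p (f + g)) (f : FA F2) : p f := by
  have hf : f ∈ Submodule.span F2 (Set.range (basisFreeMonoid F2 Bool)) := by
    rw [Module.Basis.span_eq]; trivial
  induction hf using Submodule.span_induction with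
  | mem f hf =>
    obtain ⟨w, rfl⟩ := hf
    exact CO.basis_eq (K := F2) w.toList ▸ hw w.toList
  | zero => exact h0
  | add f g _ _ h1 h2 => exact ha f g h1 h2
  | smul c f _ h =>
    rcases (by decide : ∀ c : ZMod 2, c = 0 ∨ c = 1) c with rfl | rfl
    · rwa [zero_smul]
    · rwa [one_smul]

variable {A : Type} [CommRing A]

theorem mon_nil (w : List Bool) : mon (runs w) ([] : List A) = 0 := by
  have : ∀ w, runs w ≠ [] := fun w => by
    induction w with
    | nil => simp [runs]
    | cons c w ih => cases c <;> simp [runs, ih]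
  obtain ⟨e, l, h⟩ := List.exists_cons_of_ne_nil (this w)
  rw [h, mon]
  all_goals simp

theorem mon_mod (l : List ℕ) (a : A) (s : List A) :
    mon (l.modifyHead (· + 1)) (a :: s) = a * mon l (a :: s) := by
  cases l with
  | nil => simp [mon]
  | cons e l => simp only [List.modifyHead, mon]; ring

theorem mon_zero (l : List ℕ) (a : A) (s : List A) : mon (0 :: l) (a :: s) = mon l s := by
  simp [mon]

variable [Algebra F2 A]

abbrev M (A : Type) : Type := List A → List A → A

def xo (G : List A → A) : List A → A
  | [] => 0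
  | _ :: s => G s

def yo (G : List A → A) : List A → A
  | [] => 0
  | a :: s => a * G (a :: s)

def X1 : Module.End F2 (M A) where
  toFun G s t := xo (fun s => G s t) s
  map_add' G H := by funext s t; cases s <;> simp [xo]
  map_smul' c G := by funext s t; cases s <;> simp [xo]

def Y1 : Module.End F2 (M A) where
  toFun G s t := yo (fun s => G s t) s
  map_add' G H := by funext s t; cases s <;> simp [yo, mul_add]
  map_smul' c G := by funext s t; cases s <;> simp [yo]

def X2 : Module.End F2 (M A) where
  toFun G s t := xo (G s) t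
  map_add' G H := by funext s t; cases t <;> simp [xo]
  map_smul' c G := by funext s t; cases t <;> simp [xo]

def Y2 : Module.End F2 (M A) where
  toFun G s t := yo (G s) t
  map_add' G H := by funext s t; cases t <;> simp [yo, mul_add]
  map_smul' c G := by funext s t; cases t <;> simp [yo]

def d : M A := fun s t => if s.length = 1 ∧ t.length = 1 then 1 else 0

theorem split {f : FA F2} (hf : IsLie f) :
    ev (X1 + X2) (Y1 + Y2) f = ev X1 Y1 f + (ev X2 Y2 f : Module.End F2 (M A)) := by
  refine hf.add_ev ?_ ?_ ?_ ?_ <;> refine LinearMap.ext fun G => ?_ <;> funext s t <;>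
    cases s <;> cases t <;> simp [X1, X2, Y1, Y2, xo, yo, mul_left_comm]

theorem wdc {B : Type} [Ring B] (p q : B) (c : Bool) (w : List Bool) :
    wd p q (c :: w) = (if c then q else p) * wd p q w := by
  cases c <;> simp [wd]

theorem w1 (w : List Bool) (s t : List A) :
    wd X1 Y1 w d s t = if t.length = 1 then mon (runs w) s else 0 := by
  induction w generalizing s with
  | nil => rcases s with _ | ⟨a, _ | ⟨a', s⟩⟩ <;> simp [d, runs, mon]
  | cons c w ih =>
    rw [wdc, Module.End.mul_apply]
    cases s with
    | nil => rw [mon_nil]; cases c <;> simp [X1, Y1, xo, yo]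
    | cons a s =>
      cases c
      · rw [runs, mon_zero, ← ih]; rfl
      · rw [runs, mon_mod, ← mul_zero a, ← mul_ite, ← ih]; rfl

theorem w2 (w : List Bool) (s t : List A) :
    wd X2 Y2 w d s t = if s.length = 1 then mon (runs w) t else 0 := by
  induction w generalizing t with
  | nil => rcases t with _ | ⟨a, _ | ⟨a', t⟩⟩ <;> simp [d, runs, mon]
  | cons c w ih =>
    rw [wdc, Module.End.mul_apply]
    cases t with
    | nil => rw [mon_nil]; cases c <;> simp [X2, Y2, xo, yo]
    | cons a t =>
      cases c
      · rw [runs, mon_zero, ← ih]; rfl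
      · rw [runs, mon_mod, ← mul_zero a, ← mul_ite, ← ih]; rfl

theorem w0 (w : List Bool) (s : List A) :
    wd (X1 + X2 : Module.End F2 (M A)) (Y1 + Y2) w d [] s = 0 ∧
      wd (X1 + X2 : Module.End F2 (M A)) (Y1 + Y2) w d s [] = 0 := by
  induction w generalizing s with
  | nil => simp [d]
  | cons c w ih =>
    rw [wdc, Module.End.mul_apply]
    generalize wd (X1 + X2 : Module.End F2 (M A)) (Y1 + Y2) w (d : M A) = G at ih ⊢
    cases c <;> cases s <;> simp [X1, X2, Y1, Y2, xo, yo, ih]

theorem w3 (w : List Bool) (a b : A) (s t : List A) :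
    wd (X1 + X2 : Module.End F2 (M A)) (Y1 + Y2) w d (a :: s) (b :: t) =
      psum (fun u => mon (runs w) ((a + b) :: u)) a s b t := by
  induction w generalizing a b s t with
  | nil =>
    cases s <;> cases t <;> simp only [psum_nil_left, psum_nil_right, psum_cons] <;>
      simp [d, runs, mon, psum]
  | cons c w ih =>
    have h0 := w0 (A := A) w
    rw [wdc, Module.End.mul_apply]
    generalize wd (X1 + X2 : Module.End F2 (M A)) (Y1 + Y2) w (d : M A) = G at ih h0 ⊢
    cases c
    · change G s (b :: t) + G (a :: s) t = _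
      simp only [runs, mon_zero]
      cases s <;> cases t <;>
        simp [psum_nil_left, psum_nil_right, psum_cons, ih, h0, mon_nil]
    · change a * G (a :: s) (b :: t) + b * G (a :: s) (b :: t) = _
      simp only [runs, mon_mod]
      rw [← add_mul, ih, psum, psum, List.sum_map_mul_left]

theorem vl_wd (w : List Bool) (s : List A) :
    vl mon (cY (wd (lx F2) (ly F2) w)) s = mon (runs w) s := by
  simp [cY_wd, vl]

theorem main {f : FA F2} (hf : IsLie f) (a b : A) (s t : List A) :
    psum (fun u => vl mon (cY f) ((a + b) :: u)) a s b t =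
      (if t = [] then vl mon (cY f) (a :: s) else 0) +
        if s = [] then vl mon (cY f) (b :: t) else 0 := by
  have e3 : ∀ f : FA F2, ev (X1 + X2 : Module.End F2 (M A)) (Y1 + Y2) f d (a :: s) (b :: t) =
      psum (fun u => vl mon (cY f) ((a + b) :: u)) a s b t := ind
    (fun w => by simp only [CO.ev_wd, w3, vl_wd]) (by simp [vl, psum])
    fun f g h1 h2 => by
      simp only [vl, psum, map_add, LinearMap.add_apply, Pi.add_apply, h1, h2, List.sum_map_add]
  have e1 : ∀ f : FA F2, ev X1 Y1 f d (a :: s) (b :: t) =
      if t = [] then vl mon (cY f) (a :: s) else 0 := ind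
    (fun w => by simp [CO.ev_wd, w1, vl_wd]) (by simp [vl])
    fun f g h1 h2 => by
      simp only [vl, map_add, LinearMap.add_apply, Pi.add_apply, h1, h2]
      split_ifs <;> simp
  have e2 : ∀ f : FA F2, ev X2 Y2 f d (a :: s) (b :: t) =
      if s = [] then vl mon (cY f) (b :: t) else 0 := ind
    (fun w => by simp [CO.ev_wd, w2, vl_wd]) (by simp [vl])
    fun f g h1 h2 => by
      simp only [vl, map_add, LinearMap.add_apply, Pi.add_apply, h1, h2]
      split_ifs <;> simp
  rw [← e3, ← e1, ← e2, split hf]
  rfl

end SH

theorem st_SH : St_SH := by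
  refine fun f hf => ⟨fun A _ _ s b hs => ?_, fun A _ _ a b s t hs ht => ?_⟩
  · rcases s with _ | ⟨a, _ | ⟨a', s⟩⟩
    · simp at hs
    · simp at hs
    · simpa [psum_nil_right] using SH.main hf a b (a' :: s) []
  · rw [SH.main hf, if_neg hs, if_neg ht, add_zero]

end Pool.Agent.DD.F.A1
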