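import Pool.Agent.Lib.DD.A1B25
import Pool.Agent.Lib.DD.A1_NAT
import Pool.Agent.Lib.DD.A1_MOB
import Pool.Agent.Lib.DD.A1_INJ
import Pool.Agent.Lib.DD.A1_SH
import Pool.Agent.Lib.DD.A1_BAS
import Pool.Agent.Lib.DD.A1_DEL
import Pool.Agent.Lib.DD.A1_REV
import Pool.Agent.Lib.DD.A1_I0
import Pool.Agent.Lib.DD.A1_I1
import Pool.Agent.Lib.DD.A1_I2
import Pool.Agent.Lib.DD.A1_I
import Pool.Agent.Lib.DD.A1_END

set_option autoImplicit false

namespace Pool.Agent.DD.F.A1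

theorem stCORE83 : St_CORE65 :=
  core_of st_SH st_BAS st_DEL st_REV
    (st_END st_INJ (st_I (st_I0 st_MOB) (st_I1 st_NAT st_MOB) (st_I2 st_NAT)))

theorem stA1 : St_A1 := st_A1_of_core stCORE83

end Pool.Agent.DD.F.A1
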