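import Pool.Agent.Lib.DD.Blue
import Mathlib.Algebra.Polynomial.AlgebraMap
import Mathlib.LinearAlgebra.FreeAlgebra

set_option autoImplicit false

noncomputable section

namespace Pool.Agent.DD.F.GAM

open Pool.Agent.DR Pool.Agent.DD.S39 Pool.Agent.DD.H56 FreeAlgebra

attribute [local instance 100] LieRing.ofAssociativeRing

section gen
variable {K : Type} [CommRing K] {S T : Type}

def wrd (K : Type) [CommRing K] (l : List S) : FreeAlgebra K S := (l.map (ι K)).prod

@[simp] theorem wrd_nil : wrd K ([] : List S) = 1 := rfl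
@[simp] theorem wrd_cons (s : S) (l : List S) : wrd K (s :: l) = ι K s * wrd K l := by simp [wrd]
theorem wrd_append (l m : List S) : wrd K (l ++ m) = wrd K l * wrd K m := by simp [wrd]

/-- elements of weight `n` for the letter weights `w` -/
def H (K : Type) [CommRing K] (w : S → ℕ) (n : ℕ) : Submodule K (FreeAlgebra K S) :=
  Submodule.span K (wrd K '' {l | (l.map w).sum = n})

theorem wrd_H (w : S → ℕ) (l : List S) : wrd K l ∈ H K w (l.map w).sum :=
  Submodule.subset_span ⟨l, rfl, rfl⟩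

theorem H_map {w : S → ℕ} {n : ℕ} {M : Type} [AddCommGroup M] [Module K M] (P : Submodule K M)
    (f : FreeAlgebra K S →ₗ[K] M) (h : ∀ l, (l.map w).sum = n → f (wrd K l) ∈ P)
    {v : FreeAlgebra K S} (hv : v ∈ H K w n) : f v ∈ P := by
  have : H K w n ≤ P.comap f := Submodule.span_le.2 (by rintro _ ⟨l, hl, rfl⟩; exact h l hl)
  exact this hv

theorem H_mul {w : S → ℕ} {m n : ℕ} {u v : FreeAlgebra K S} (hu : u ∈ H K w m)
    (hv : v ∈ H K w n) : u * v ∈ H K w (m + n) := by
  refine H_map _ (LinearMap.mulRight K v) (fun l hl => ?_) hu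
  refine H_map _ (LinearMap.mulLeft K (wrd K l)) (fun l' hl' => ?_) hv
  have := wrd_H (K := K) w (l ++ l')
  rwa [wrd_append, List.map_append, List.sum_append, hl, hl'] at this

theorem H_one (w : S → ℕ) : (1 : FreeAlgebra K S) ∈ H K w 0 := wrd_H w []
theorem H_ι (w : S → ℕ) (s : S) : ι K s ∈ H K w (w s) := by simpa using wrd_H (K := K) w [s]

theorem H_br {w : S → ℕ} {m n : ℕ} {u v : FreeAlgebra K S} (hu : u ∈ H K w m)
    (hv : v ∈ H K w n) : u * v - v * u ∈ H K w (m + n) :=
  Submodule.sub_mem _ (H_mul hu hv) (add_comm m n ▸ H_mul hv hu)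

theorem H_hom {w : S → ℕ} {w' : T → ℕ} (f : FreeAlgebra K S →ₐ[K] FreeAlgebra K T)
    (h : ∀ s, f (ι K s) ∈ H K w' (w s)) {n : ℕ} {v : FreeAlgebra K S} (hv : v ∈ H K w n) :
    f v ∈ H K w' n := by
  refine H_map _ f.toLinearMap (fun l hl => ?_) hv
  subst hl
  clear hv
  induction l with
  | nil => simpa using H_one w'
  | cons s l ih => simpa using H_mul (h s) ih

def sc (w : S → ℕ) : FreeAlgebra K S →ₐ[K] Polynomial (FreeAlgebra K S) :=
  lift K fun s => Polynomial.monomial (w s) (ι K s)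

/-- the weight `n` component -/
def pr (w : S → ℕ) (n : ℕ) : FreeAlgebra K S →ₗ[K] FreeAlgebra K S where
  toFun v := (sc w v).coeff n
  map_add' u v := by simp
  map_smul' c v := by simp

theorem sc_wrd (w : S → ℕ) (l : List S) :
    sc w (wrd K l) = Polynomial.monomial (l.map w).sum (wrd K l) := by
  induction l with
  | nil => simp
  | cons s l ih => rw [wrd_cons, map_mul, ih]; simp [sc, Polynomial.monomial_mul_monomial]

theorem pr_H {w : S → ℕ} {m : ℕ} (n : ℕ) {v : FreeAlgebra K S} (hv : v ∈ H K w m) :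
    pr w n v = if m = n then v else 0 := by
  have h := H_map ⊥ (pr w n - if m = n then LinearMap.id else 0) (fun l hl => ?_) hv
  · rw [Submodule.mem_bot, LinearMap.sub_apply, sub_eq_zero] at h
    rw [h]; split_ifs <;> rfl
  · rw [Submodule.mem_bot, LinearMap.sub_apply, sub_eq_zero]
    change (sc w (wrd K l)).coeff n = _
    rw [sc_wrd, Polynomial.coeff_monomial, hl]; split_ifs <;> rfl

theorem Mon_H {w : S → ℕ} {n : ℕ} {u : FreeAlgebra K S} (h : Mon w (ι K) n u) : u ∈ H K w n := by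
  induction h with
  | of x => exact H_ι w x
  | br _ _ h1 h2 => exact H_br h1 h2

theorem lie_H {w : S → ℕ} {n : ℕ} {v : FreeAlgebra K S}
    (h : v ∈ LieSubalgebra.lieSpan K _ (Set.range (ι K))) (hv : v ∈ H K w n) :
    v ∈ Submodule.span K {u | Mon w (ι K) n u} := by
  have h1 : Submodule.span K {v | ∃ n, Mon w (ι K) n v} ≤
      (Submodule.span K {u | Mon w (ι K) n u}).comap (pr w n) := by
    refine Submodule.span_le.2 ?_
    rintro u ⟨m, hu⟩
    change pr w n u ∈ Submodule.span K {u | Mon w (ι K) n u}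
    rw [pr_H n (Mon_H hu)]
    split_ifs with e
    · exact Submodule.subset_span (e ▸ hu)
    · exact Submodule.zero_mem _
  have h2 : pr w n v ∈ Submodule.span K {u | Mon w (ι K) n u} := h1 ((mem_lieSpan_iff w _ v).1 h)
  rwa [pr_H n hv, if_pos rfl] at h2

def dm (f : S → FreeAlgebra K S) :
    FreeAlgebra K S →ₐ[K] Matrix (Fin 2) (Fin 2) (FreeAlgebra K S) :=
  lift K fun s => !![ι K s, f s; 0, ι K s]

theorem dm_sh (f : S → FreeAlgebra K S) (v : FreeAlgebra K S) :
    dm f v 0 0 = v ∧ dm f v 1 0 = 0 ∧ dm f v 1 1 = v := by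
  induction v using FreeAlgebra.induction with
  | grade0 r => simp [Matrix.algebraMap_matrix_apply]
  | grade1 s => simp [dm]
  | mul a b ha hb => simp [Matrix.mul_apply, ha, hb]
  | add a b ha hb => simp [ha, hb]

/-- the derivation with prescribed values on the letters -/
def der (f : S → FreeAlgebra K S) : Module.End K (FreeAlgebra K S) :=
  (Matrix.entryLinearMap K _ 0 1).comp (dm f).toLinearMap

@[simp] theorem der_ι (f : S → FreeAlgebra K S) (s : S) : der f (ι K s) = f s := by simp [der, dm]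
@[simp] theorem der_alg (f : S → FreeAlgebra K S) (r : K) : der f (algebraMap K _ r) = 0 := by
  simp [der, Matrix.algebraMap_matrix_apply]
@[simp] theorem der_one (f : S → FreeAlgebra K S) : der f 1 = 0 := by simpa using der_alg f 1
theorem der_mul (f : S → FreeAlgebra K S) (u v : FreeAlgebra K S) :
    der f (u * v) = der f u * v + u * der f v := by
  simp [der, Matrix.mul_apply, dm_sh, add_comm]

theorem der_H {w : S → ℕ} {k : ℕ} (f : S → FreeAlgebra K S) (h : ∀ s, f s ∈ H K w (w s + k))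
    {n : ℕ} {v : FreeAlgebra K S} (hv : v ∈ H K w n) : der f v ∈ H K w (n + k) := by
  refine H_map _ (der f) (fun l hl => ?_) hv
  subst hl
  clear hv
  induction l with
  | nil => simp
  | cons s l ih =>
    rw [wrd_cons, der_mul, der_ι, List.map_cons, List.sum_cons]
    refine Submodule.add_mem _ ?_ ?_
    · rw [add_right_comm]; exact H_mul (h s) (wrd_H w l)
    · rw [add_assoc]; exact H_mul (H_ι w s) ih

theorem LN_ind {p : FN K → Prop} (hι : ∀ s, p (ι K s)) (h0 : p 0)
    (ha : ∀ u v, p u → p v → p (u + v)) (hs : ∀ (c : K) v, p v → p (c • v))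
    (hl : ∀ u v, u ∈ LN K → v ∈ LN K → p u → p v → p (u * v - v * u)) {v : FN K}
    (hv : v ∈ LN K) : p v := by
  induction hv using LieSubalgebra.lieSpan_induction with
  | mem x hx => obtain ⟨s, rfl⟩ := hx; exact hι s
  | zero => exact h0
  | add x y _ _ hx hy => exact ha _ _ hx hy
  | smul c x _ hx => exact hs c x hx
  | lie x y hx hy h1 h2 => exact hl _ _ hx hy h1 h2

theorem LN_hom {B : Type} [Ring B] [Algebra K B] (P : LieSubalgebra K B) (f : FN K →ₐ[K] B)
    (h : ∀ s, f (ι K s) ∈ P) {v : FN K} (hv : v ∈ LN K) : f v ∈ P := by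
  refine LN_ind (p := fun v => f v ∈ P) h (by simp) ?_ ?_ ?_ hv
  · intro u v hu hv; rw [map_add]; exact add_mem hu hv
  · intro c v hv; rw [map_smul]; exact P.smul_mem c hv
  · intro u v _ _ hu hv
    rw [map_sub, map_mul, map_mul]; exact P.lie_mem hu hv

theorem ι_LN (k : ℕ) : ι K k ∈ LN K := LieSubalgebra.subset_lieSpan ⟨k, rfl⟩

/-! elimination of the letter `y` -/

def DN (K : Type) [CommRing K] : Module.End K (FN K) := der fun i => ι K (i + 1)

theorem DN_LN {v : FN K} (hv : v ∈ LN K) : DN K v ∈ LN K := by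
  refine LN_ind (p := fun v => DN K v ∈ LN K) (fun s => ?_) (by simp) ?_ ?_ ?_ hv
  · simpa [DN] using ι_LN (s + 1)
  · intro u v hu hv; rw [map_add]; exact add_mem hu hv
  · intro c v hv; rw [map_smul]; exact (LN K).smul_mem c hv
  · intro u v h1 h2 hu hv
    have e : DN K (u * v - v * u) = ⁅DN K u, v⁆ + ⁅u, DN K v⁆ := by
      simp only [Ring.lie_def, map_sub, DN, der_mul]; abel
    rw [e]
    exact add_mem ((LN K).lie_mem hu h2) ((LN K).lie_mem h1 hv)

def E (K : Type) [CommRing K] : ℕ → FA K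
  | 0 => lx K
  | i + 1 => ly K * E K i - E K i * ly K

def upp (K : Type) [CommRing K] : FN K →ₐ[K] FA K := lift K (E K)

def rho (K : Type) [CommRing K] : FA K →ₐ[K] Module.End K (FN K) :=
  ev (LinearMap.mulLeft K (ι K 0)) (DN K)

def r (K : Type) [CommRing K] : FA K →ₗ[K] FN K :=
  (LinearMap.applyₗ (1 : FN K)).comp (rho K).toLinearMap

theorem r_apply (v : FA K) : r K v = rho K v 1 := rfl

theorem rho_E (i : ℕ) (m : FN K) : rho K (E K i) m = ι K i * m := by
  induction i generalizing m with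
  | zero => simp [E, rho]
  | succ i ih =>
    have : rho K (ly K) = DN K := ev_y _ _
    simp [E, this, ih, DN, der_mul]

theorem rho_upp (w m : FN K) : rho K (upp K w) m = w * m := by
  induction w using FreeAlgebra.induction generalizing m with
  | grade0 c => simp [Algebra.smul_def]
  | grade1 s => simp [upp, rho_E]
  | mul a b ha hb => simp [ha, hb, mul_assoc]
  | add a b ha hb => simp [ha, hb, add_mul]

theorem r_upp (w : FN K) : r K (upp K w) = w := by rw [r_apply, rho_upp, mul_one]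

theorem upp_DN (w : FN K) : upp K (DN K w) = ly K * upp K w - upp K w * ly K := by
  induction w using FreeAlgebra.induction with
  | grade0 c => simp [DN, Algebra.commutes]
  | grade1 s => simp [upp, DN, E]
  | mul a b ha hb =>
    rw [DN, der_mul, map_add, map_mul, map_mul, map_mul, ← DN, ha, hb]; noncomm_ring
  | add a b ha hb => simp only [map_add, ha, hb]; noncomm_ring

theorem elim {v : FA K} (hv : IsLie v) : r K v ∈ LN K ∧ ∃ c : K, v = c • ly K + upp K (r K v) := by
  have h : ∃ (c : K) (w : FN K), w ∈ LN K ∧ v = c • ly K + upp K w := by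
    refine hv.ind (P := fun v => ∃ (c : K) (w : FN K), w ∈ LN K ∧ v = c • ly K + upp K w)
      ⟨0, ι K 0, ι_LN 0, by simp [upp, E]⟩ ⟨1, 0, zero_mem _, by simp⟩
      ⟨0, 0, zero_mem _, by simp⟩ ?_ ?_ ?_
    · rintro f g _ _ ⟨c, w, hw, rfl⟩ ⟨c', w', hw', rfl⟩
      exact ⟨c + c', w + w', add_mem hw hw', by rw [map_add, add_smul]; abel⟩
    · rintro a f _ ⟨c, w, hw, rfl⟩
      exact ⟨a * c, a • w, (LN K).smul_mem a hw, by rw [map_smul, smul_add, mul_smul]⟩
    · rintro f g _ _ ⟨c, w, hw, rfl⟩ ⟨c', w', hw', rfl⟩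
      refine ⟨0, c • DN K w' - c' • DN K w + ⁅w, w'⁆, add_mem (sub_mem
        ((LN K).smul_mem c (DN_LN hw')) ((LN K).smul_mem c' (DN_LN hw))) ((LN K).lie_mem hw hw'), ?_⟩
      simp only [Ring.lie_def, map_add, map_sub, map_smul, map_mul, upp_DN, mul_add, add_mul,
        smul_mul_assoc, mul_smul_comm, smul_sub, smul_add, zero_smul, smul_comm c c']
      abel
  obtain ⟨c, w, hw, rfl⟩ := h
  have e : r K (c • ly K + upp K w) = w := by
    rw [map_add, map_smul, r_upp, r_apply, rho, ev_y]; simp [DN]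
  rw [e]; exact ⟨hw, c, rfl⟩

def wB (a b : ℕ) (s : Bool) : ℕ := if s then b else a

theorem r_H {a b n : ℕ} {v : FA K} (hv : v ∈ H K (wB a b) n) :
    r K v ∈ H K (fun i => a + i * b) n := by
  refine H_map _ (r K) (fun l hl => ?_) hv
  subst hl
  clear hv
  induction l with
  | nil => simpa [r_apply] using H_one _
  | cons s l ih =>
    rw [wrd_cons, r_apply, map_mul, Module.End.mul_apply, ← r_apply, List.map_cons, List.sum_cons]
    cases s
    · have := H_mul (H_ι (fun i => a + i * b) 0) ih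
      simpa [rho, ev, wB] using this
    · have := der_H (k := b) (fun i => ι K (i + 1)) (fun s => by
        simpa [add_mul, add_assoc] using H_ι (K := K) (fun i => a + i * b) (s + 1)) ih
      rw [add_comm]
      simpa [rho, ev, wB, DN] using this

theorem upp_H {a b n : ℕ} {v : FN K} (hv : v ∈ H K (fun i => a + i * b) n) :
    upp K v ∈ H K (wB a b) n := by
  refine H_hom _ (fun i => ?_) hv
  rw [upp, lift_ι_apply]
  induction i with
  | zero => simpa [E, wB, lx] using H_ι (K := K) (wB a b) false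
  | succ i ih =>
    have := H_br (H_ι (K := K) (wB a b) true) ih
    rwa [show wB a b true + (a + i * b) = a + (i + 1) * b by simp [wB]; ring] at this

theorem elim' {a b n : ℕ} {v : FA K} (hv : IsLie v) (h : v ∈ H K (wB a b) n) (hn : n ≠ b) :
    v = upp K (r K v) := by
  obtain ⟨c, hc⟩ := (elim hv).2
  have h1 : c • ly K ∈ H K (wB a b) n := by
    rw [eq_sub_of_add_eq hc.symm]; exact sub_mem h (upp_H (r_H h))
  have h2 : c • ly K ∈ H K (wB a b) b := Submodule.smul_mem _ c (H_ι (wB a b) true)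
  have h3 := (pr_H b h2).symm.trans (pr_H b h1)
  rw [if_pos rfl, if_neg hn] at h3
  rwa [h3, zero_add] at hc

/-! the three homomorphisms -/

def pf (K : Type) [CommRing K] : ℕ → FA K
  | 0 => lx K
  | 1 => ly K
  | _ + 2 => 0

def kf (K : Type) [CommRing K] : ℕ → FN K
  | 0 => 0
  | k + 1 => ι K k

def pi (K : Type) [CommRing K] : FN K →ₐ[K] FA K := lift K (pf K)
def ka (K : Type) [CommRing K] : FN K →ₐ[K] FN K := lift K (kf K)
def sh (K : Type) [CommRing K] : FN K →ₐ[K] FN K := lift K fun k => ι K (k + 1)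
def inc (K : Type) [CommRing K] : FA K →ₐ[K] FN K := ev (ι K 0) (ι K 1)

theorem ka_sh (g : FN K) : ka K (sh K g) = g := by
  induction g using FreeAlgebra.induction <;> simp_all [ka, sh, kf]

theorem pi_inc (f : FA K) : pi K (inc K f) = f := by
  induction f using ind <;> simp_all [pi, inc, pf]

/-- first step -/
def G1 (K : Type) [CommRing K] : FA K →ₗ[K] FA K := (pi K).toLinearMap.comp (r K)

def Gam (K : Type) [CommRing K] : FA K →ₗ[K] FN K :=
  (ka K).toLinearMap.comp ((r K).comp (G1 K))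

theorem Gam_apply (v : FA K) : Gam K v = ka K (r K (G1 K v)) := rfl

theorem G1_sig (f : FA K) : G1 K (upp K (inc K f)) = f := by
  change pi K (r K _) = f
  rw [r_upp, pi_inc]

theorem G1_lie {v : FA K} (hv : IsLie v) : IsLie (G1 K v) := by
  refine LN_hom _ (pi K) (fun s => ?_) (elim hv).1
  rw [pi, lift_ι_apply]
  match s with
  | 0 => exact LieSubalgebra.subset_lieSpan (Or.inl rfl)
  | 1 => exact LieSubalgebra.subset_lieSpan (Or.inr rfl)
  | _ + 2 => exact zero_mem _

theorem G1_H {n : ℕ} {v : FA K} (hv : v ∈ Hn K n) : G1 K v ∈ H K (wB 1 2) n := by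
  have h : v ∈ H K (wB 1 1) n := by
    refine Submodule.span_mono ?_ hv
    rintro _ ⟨u, hu, rfl⟩
    refine ⟨u, ?_, ?_⟩
    · have : wB 1 1 = fun _ => 1 := by funext s; cases s <;> rfl
      simpa [this] using hu
    · rw [wrd, wd]; congr 1; refine List.map_congr_left fun s _ => ?_; cases s <;> rfl
  refine H_hom (pi K) (fun s => ?_) (r_H h)
  rw [pi, lift_ι_apply]
  match s with
  | 0 => exact H_ι (wB 1 2) false
  | 1 => exact H_ι (wB 1 2) true
  | _ + 2 => exact zero_mem _

theorem Gam_LW {n : ℕ} {v : FA K} (h : v ∈ Hn K n) (hv : IsLie v) : Gam K v ∈ LW K n := by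
  refine lie_H (LN_hom _ (ka K) (fun s => ?_) (elim (G1_lie hv)).1)
    (H_hom (ka K) (fun s => ?_) (r_H (G1_H h)))
  · rw [ka, lift_ι_apply]
    cases s with
    | zero => exact zero_mem _
    | succ k => exact ι_LN k
  · rw [ka, lift_ι_apply]
    cases s with
    | zero => exact zero_mem _
    | succ k =>
      have := H_ι (K := K) (fun k => 2 * k + 3) k
      rwa [show 2 * k + 3 = 1 + (k + 1) * 2 by ring] at this

def dA (K : Type) [CommRing K] : Module.End K (FA K) := der fun s => if s then 0 else ly K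

theorem pi_DN (m : FN K) : pi K (DN K m) = dA K (pi K m) := by
  induction m using FreeAlgebra.induction with
  | grade0 c => simp [DN, dA]
  | grade1 s =>
    match s with
    | 0 => simp [DN, dA, pi, pf, lx]
    | 1 => simp [DN, dA, pi, pf, ly]
    | _ + 2 => simp [DN, pi, pf]
  | mul a b ha hb =>
    rw [DN, der_mul, map_add, map_mul, map_mul, map_mul, ← DN, ha, hb, dA, der_mul]
  | add a b ha hb => simp [ha, hb]

def rho1 (K : Type) [CommRing K] : FA K →ₐ[K] Module.End K (FA K) :=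
  ev (LinearMap.mulLeft K (lx K)) (dA K)

theorem pi_rho (v : FA K) (m : FN K) : pi K (rho K v m) = rho1 K v (pi K m) := by
  induction v using ind generalizing m with
  | h0 c => simp
  | hx => simp [rho, rho1, pi, pf]
  | hy => simp [rho, rho1, pi_DN]
  | hm f g hf hg => simp [hf, hg]
  | ha f g hf hg => simp [hf, hg]

theorem dA_dA (m : FA K) : ∃ h, dA K (dA K m) = h + h := by
  induction m using ind with
  | h0 c => exact ⟨0, by simp [dA]⟩
  | hx => exact ⟨0, by simp [dA, lx, ly]⟩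
  | hy => exact ⟨0, by simp [dA, ly]⟩
  | hm f g hf hg =>
    obtain ⟨a, ha⟩ := hf
    obtain ⟨b, hb⟩ := hg
    refine ⟨a * g + dA K f * dA K g + f * b, ?_⟩
    rw [dA, der_mul, map_add, der_mul, der_mul, ← dA, ha, hb]; noncomm_ring
  | ha f g hf hg =>
    obtain ⟨a, ha⟩ := hf
    obtain ⟨b, hb⟩ := hg
    exact ⟨a + b, by rw [map_add, map_add, ha, hb]; abel⟩

theorem sh_DN (g : FN K) : DN K (sh K g) = sh K (DN K g) := by
  induction g using FreeAlgebra.induction with
  | grade0 c => simp [DN]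
  | grade1 s => simp [DN, sh]
  | mul a b ha hb =>
    rw [map_mul, DN, der_mul, der_mul, map_add, map_mul, map_mul, ← DN, ha, hb]
  | add a b ha hb => simp [ha, hb]

end gen

theorem G1_J {j : FA ℤ} (hj : j ∈ J) : ∃ h, G1 ℤ j = h + h := by
  have key : ∀ m, ∃ h, rho1 ℤ j m = h + h := by
    induction hj using TwoSidedIdeal.span_induction with
    | mem x hx =>
      intro m
      rcases hx with rfl | rfl
      · exact ⟨m, by rw [← one_add_one_eq_two, map_add, map_one]; rfl⟩
      · rw [map_mul, rho1, ev_y]; exact dA_dA m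
    | zero => exact fun m => ⟨0, by simp⟩
    | add x y _ _ hx hy =>
      intro m
      obtain ⟨a, ha⟩ := hx m
      obtain ⟨b, hb⟩ := hy m
      exact ⟨a + b, by rw [map_add, LinearMap.add_apply, ha, hb]; abel⟩
    | neg x _ hx =>
      intro m
      obtain ⟨a, ha⟩ := hx m
      exact ⟨-a, by rw [map_neg, LinearMap.neg_apply, ha]; abel⟩
    | left_absorb a x _ hx =>
      intro m
      obtain ⟨b, hb⟩ := hx m
      exact ⟨rho1 ℤ a b, by rw [map_mul, Module.End.mul_apply, hb, map_add]⟩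
    | right_absorb a x _ hx => intro m; rw [map_mul, Module.End.mul_apply]; exact hx _
  change ∃ h, pi ℤ (rho ℤ j 1) = h + h
  rw [pi_rho]; exact key _

def sig : FA ℤ →ₐ[ℤ] FA ℤ := (upp ℤ).comp (inc ℤ)

theorem sig_x : sig (lx ℤ) = lx ℤ := by simp [sig, inc, upp, E]
theorem sig_y : sig (ly ℤ) = aa := by simp [sig, inc, upp, E, aa]

theorem evb_eq (g : FN ℤ) : evb g = sig (upp ℤ (sh ℤ g)) := by
  have h : ∀ k, sig (E ℤ (k + 1)) = bb k := by
    intro k
    induction k with
    | zero => simp [E, bb, sig_x, sig_y]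
    | succ k ih => rw [E, map_sub, map_mul, map_mul, ih, sig_y, bb]
  induction g using FreeAlgebra.induction with
  | grade0 c => simp only [AlgHom.commutes]
  | grade1 s => simp only [evb, upp, sh, lift_ι_apply, h]
  | mul a b ha hb => simp only [map_mul, ha, hb]
  | add a b ha hb => simp only [map_add, ha, hb]

theorem Gam_evb (g : FN ℤ) : Gam ℤ (evb g) = g := by
  rw [evb_eq, Gam_apply, sig, AlgHom.comp_apply, G1_sig, r_upp, ka_sh]

theorem clos {u : FA ℤ} (hu : u ∈ Subring.closure {aa, bb 0}) :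
    ∃ f, sig f = u ∧ ∀ g, ∃ g', rho ℤ f (sh ℤ g) = sh ℤ g' := by
  induction hu using Subring.closure_induction with
  | mem x hx =>
    rcases hx with rfl | rfl
    · exact ⟨ly ℤ, sig_y, fun g => ⟨DN ℤ g, by rw [rho, ev_y, sh_DN]⟩⟩
    · refine ⟨E ℤ 1, by simp [E, bb, sig_x, sig_y], fun g => ⟨ι ℤ 0 * g, ?_⟩⟩
      rw [rho_E, map_mul, sh, lift_ι_apply]
  | zero => exact ⟨0, map_zero _, fun g => ⟨0, by simp⟩⟩
  | one => exact ⟨1, map_one _, fun g => ⟨g, by simp⟩⟩
  | add x y _ _ hx hy =>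
    obtain ⟨a, rfl, ha⟩ := hx
    obtain ⟨b, rfl, hb⟩ := hy
    refine ⟨a + b, map_add _ _ _, fun g => ?_⟩
    obtain ⟨p, hp⟩ := ha g
    obtain ⟨q, hq⟩ := hb g
    exact ⟨p + q, by rw [map_add, LinearMap.add_apply, hp, hq, map_add]⟩
  | neg x _ hx =>
    obtain ⟨a, rfl, ha⟩ := hx
    refine ⟨-a, map_neg _ _, fun g => ?_⟩
    obtain ⟨p, hp⟩ := ha g
    exact ⟨-p, by rw [map_neg, LinearMap.neg_apply, hp, map_neg]⟩
  | mul x y _ _ hx hy =>
    obtain ⟨a, rfl, ha⟩ := hx
    obtain ⟨b, rfl, hb⟩ := hy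
    refine ⟨a * b, map_mul _ _ _, fun g => ?_⟩
    obtain ⟨q, hq⟩ := hb g
    obtain ⟨p, hp⟩ := ha q
    exact ⟨p, by rw [map_mul, Module.End.mul_apply, hq, hp]⟩

theorem dbl_J (h : FA ℤ) : h + h ∈ J := by
  rw [← two_mul]
  exact J.mul_mem_right _ _ (TwoSidedIdeal.subset_span (Or.inl rfl))

end Pool.Agent.DD.F.GAM

namespace Pool.Agent.DD.F

open GAM Pool.Agent.DD.S39

theorem st_GAM : St_GAM := by
  refine ⟨Gam ℤ, fun n ψ _ h hl => Gam_LW h hl, fun g ψ h => ?_, ?_⟩
  · obtain ⟨a, ha⟩ := G1_J h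
    refine ⟨ka ℤ (r ℤ a), ?_⟩
    have e : Gam ℤ (ψ - evb g) = ka ℤ (r ℤ a) + ka ℤ (r ℤ a) := by
      rw [Gam_apply, ha, map_add, map_add]
    rw [map_sub, Gam_evb] at e
    rw [two_smul, ← e]; abel
  · rintro n ψ hn h ⟨m, hm, hl⟩ ⟨u, hu, hj⟩
    obtain ⟨f, rfl, hf⟩ := clos hu
    obtain ⟨a, ha⟩ := G1_J hj
    obtain ⟨g, hg⟩ := hf 1
    rw [map_one, ← r_apply] at hg
    have e1 : G1 ℤ ψ = f + (a + a) := by
      rw [← ha, map_sub, sig, AlgHom.comp_apply, G1_sig]; abel
    have e2 : G1 ℤ ψ = upp ℤ (r ℤ (G1 ℤ ψ)) := by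
      have h1 := elim' (G1_lie hl) (G1_H ((Hn ℤ n).smul_mem m h)) (by omega)
      rw [map_smul, map_smul, map_smul] at h1
      exact smul_right_injective _ hm h1
    have e3 : Gam ℤ ψ = g + (ka ℤ (r ℤ a) + ka ℤ (r ℤ a)) := by
      rw [Gam_apply, e1, map_add, map_add, hg, ka_sh, map_add, map_add]
    have e4 : f = upp ℤ (sh ℤ g) + (upp ℤ (r ℤ a) + upp ℤ (r ℤ a)) - (a + a) := by
      rw [e1, map_add, map_add, hg, map_add, map_add] at e2
      exact eq_sub_of_add_eq e2
    have e5 : ψ - evb (Gam ℤ ψ) = (ψ - sig f) + ((sig (upp ℤ (r ℤ a)) - sig a -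
        evb (ka ℤ (r ℤ a))) + (sig (upp ℤ (r ℤ a)) - sig a - evb (ka ℤ (r ℤ a)))) := by
      rw [e3, map_add, map_add, evb_eq g]
      conv_rhs => rw [e4]
      simp only [map_add, map_sub]
      abel
    have e6 := J.add_mem hj (dbl_J (sig (upp ℤ (r ℤ a)) - sig a - evb (ka ℤ (r ℤ a))))
    rw [← e5] at e6
    exact e6

end Pool.Agent.DD.F
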