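import Pool.Agent.Lib.DD.DsMod64
import Pool.Agent.Lib.DD.F_GAM

/-! Blueprint for `St_A2`.  Everything is over `K2 = ZMod 2`.

* `A = FA K2` is used with the letters `a = lx`, `x = ly` (as in `GAM`: `upp (ι j) = ad_x ^ j a`,
  `rho x = DN`, `rho a = left multiplication by ι 0`, `r u = rho u 1`).
* `D = FA K2` is used with the letters `Q = lx` (`false`), `C = ly` (`true`). -/

set_option autoImplicit false

noncomputable section

namespace Pool.Agent.DD.F.A2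

open Pool.Agent.DR Pool.Agent.DD.S39 Pool.Agent.DD.DS Pool.Agent.DD.F64 Pool.Agent.DD.F.GAM
  TensorProduct FreeAlgebra Polynomial

attribute [local instance 100] LieRing.ofAssociativeRing

abbrev K2 : Type := ZMod 2
abbrev M2 (B : Type) : Type := Matrix (Fin 2) (Fin 2) B

theorem two {M : Type} [AddCommGroup M] [Module K2 M] (u : M) : u + u = 0 := by
  rw [← two_smul K2, show (2 : K2) = 0 from rfl, zero_smul]

theorem neg2 {M : Type} [AddCommGroup M] [Module K2 M] (u : M) : -u = u :=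
  neg_eq_of_add_eq_zero_left (two u)

theorem sub2 {M : Type} [AddCommGroup M] [Module K2 M] (u v : M) : u - v = u + v := by
  rw [sub_eq_add_neg, neg2]

/-! words and coefficients -/

section words

variable {K S : Type} [CommRing K]

/-- the coefficient of a word -/
def cw (w : List S) : FreeAlgebra K S →ₗ[K] K := (basisFreeMonoid K S).coord (FreeMonoid.ofList w)

/-- the span of the words with the property `p` -/
def Sp (K : Type) [CommRing K] (p : List S → Prop) : Submodule K (FreeAlgebra K S) :=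
  Submodule.span K (wrd K '' {l | p l})

theorem H_eq (w : S → ℕ) (n : ℕ) : H K w n = Sp K fun l => (l.map w).sum = n := rfl

theorem cw_wrd [DecidableEq S] (w l : List S) :
    cw w (wrd K l) = if l = w then (1 : K) else 0 := by
  classical
  rw [wrd, ← bas, cw, Module.Basis.coord_apply, Module.Basis.repr_self, Finsupp.single_apply]
  simp

theorem ext_cw {f g : FreeAlgebra K S} (h : ∀ w, cw w f = cw w g) : f = g :=
  (basisFreeMonoid K S).ext_elem fun w => h w.toList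

theorem wext {N : Type} [AddCommGroup N] [Module K N] {F G : FreeAlgebra K S →ₗ[K] N}
    (h : ∀ l, F (wrd K l) = G (wrd K l)) (v : FreeAlgebra K S) : F v = G v :=
  LinearMap.congr_fun (lext h) v

theorem wrd_Sp {p : List S → Prop} {l : List S} (h : p l) : wrd K l ∈ Sp K p :=
  Submodule.subset_span ⟨l, h, rfl⟩

theorem Sp_map {p : List S → Prop} {M : Type} [AddCommGroup M] [Module K M] (P : Submodule K M)
    (f : FreeAlgebra K S →ₗ[K] M) (h : ∀ l, p l → f (wrd K l) ∈ P)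
    {v : FreeAlgebra K S} (hv : v ∈ Sp K p) : f v ∈ P := by
  have : Sp K p ≤ P.comap f := Submodule.span_le.2 (by rintro _ ⟨l, hl, rfl⟩; exact h l hl)
  exact this hv

theorem Sp_ext {p : List S → Prop} {M : Type} [AddCommGroup M] [Module K M]
    (f g : FreeAlgebra K S →ₗ[K] M) (h : ∀ l, p l → f (wrd K l) = g (wrd K l))
    {v : FreeAlgebra K S} (hv : v ∈ Sp K p) : f v = g v :=
  sub_eq_zero.1 (Sp_map ⊥ (f - g) (fun l hl => by simp [h l hl]) hv)

theorem mem_Sp {p : List S → Prop} {v : FreeAlgebra K S} :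
    v ∈ Sp K p ↔ ∀ w, cw w v ≠ 0 → p w := by
  classical
  refine ⟨fun h w hw => by_contra fun hn => hw ?_, fun h => ?_⟩
  · exact Sp_ext (cw w) 0 (fun l hl => by
      rw [cw_wrd, if_neg (fun e => hn (by rwa [← e]))]; rfl) h
  · refine Submodule.span_mono ?_ (Module.Basis.mem_span_repr_support (basisFreeMonoid K S) v)
    rintro _ ⟨w, hw, rfl⟩
    exact ⟨w.toList, h _ (Finsupp.mem_support_iff.1 hw), (bas _).symm⟩

theorem Sp_mono {p q : List S → Prop} (h : ∀ l, p l → q l) {v : FreeAlgebra K S}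
    (hv : v ∈ Sp K p) : v ∈ Sp K q := mem_Sp.2 fun w hw => h w (mem_Sp.1 hv w hw)

theorem Sp_and {p q : List S → Prop} {v : FreeAlgebra K S} (hp : v ∈ Sp K p) (hq : v ∈ Sp K q) :
    v ∈ Sp K fun l => p l ∧ q l := mem_Sp.2 fun w hw => ⟨mem_Sp.1 hp w hw, mem_Sp.1 hq w hw⟩

theorem Sp_mul {p q s : List S → Prop} (h : ∀ l m, p l → q m → s (l ++ m)) {u v : FreeAlgebra K S}
    (hu : u ∈ Sp K p) (hv : v ∈ Sp K q) : u * v ∈ Sp K s := by
  refine Sp_map _ (LinearMap.mulRight K v) (fun l hl => ?_) hu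
  refine Sp_map _ (LinearMap.mulLeft K (wrd K l)) (fun m hm => ?_) hv
  have := wrd_Sp (K := K) (h l m hl hm)
  rwa [wrd_append] at this

theorem cw_pr (wt : S → ℕ) (n : ℕ) (w : List S) (v : FreeAlgebra K S) :
    cw w (pr wt n v) = if (w.map wt).sum = n then cw w v else 0 := by
  classical
  have := wext (F := cw w ∘ₗ pr wt n) (G := if (w.map wt).sum = n then cw w else 0)
    (fun l => ?_) v
  · rw [LinearMap.comp_apply] at this
    rw [this]; split_ifs <;> rfl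
  · rw [LinearMap.comp_apply, pr_H n (wrd_H wt l)]
    by_cases e : l = w
    · subst e; split_ifs <;> simp
    · split_ifs <;> simp [cw_wrd, e]

end words

/-- every letter has depth one -/
def dep : ℕ → ℕ := fun _ => 1

theorem dep_sum (l : List ℕ) : (l.map dep).sum = l.length := by
  induction l <;> simp_all [dep, add_comm]

/-- all letters are `0` or `1` -/
def Sm (l : List ℕ) : Prop := ∀ e ∈ l, e ≤ 1

/-- Lie polynomials plus constants -/
def LC : Submodule K2 (FN K2) := (LN K2).toSubmodule ⊔ Submodule.span K2 {1}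

theorem mem_LC {v : FN K2} : v ∈ LC ↔ ∃ F ∈ LN K2, ∃ c : K2, v = F + algebraMap K2 _ c := by
  simp only [LC, Submodule.mem_sup, Submodule.mem_span_singleton, Algebra.algebraMap_eq_smul_one]
  constructor
  · rintro ⟨F, hF, _, ⟨c, rfl⟩, rfl⟩; exact ⟨F, hF, c, rfl⟩
  · rintro ⟨F, hF, c, rfl⟩; exact ⟨F, hF, _, ⟨c, rfl⟩, rfl⟩

/-! the representation of the letters `x`, `y` -/

/-- the values `a ↦ η a`, `x ↦ a` of the derivation `d = der (dl η)` -/
def dl (η : K2) : Bool → FA K2 := fun s => if s then lx K2 else η • lx K2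

def Ym (η : K2) : M2 (FA K2) := !![algebraMap K2 _ η, 0; 1, 0]

def Ph (η : K2) : FA K2 →ₐ[K2] M2 (FA K2) := ev (dm (dl η) (ly K2)) (Ym η)

/-- `a ↦ [y, x]`, `x ↦ x` -/
def sg : FA K2 →ₐ[K2] FA K2 := ev (a2 K2) (lx K2)

/-- `y_(j+1) ↦ (d + η) x ^ j` -/
def Yh (η : K2) : FN K2 →ₐ[K2] FA K2 :=
  lift K2 fun j => der (dl η) (ly K2 ^ j) + η • ly K2 ^ j

/-- `(x + η) x ^ e` -/
def gx (η : K2) (e : ℕ) : FA K2 := (ly K2 + algebraMap K2 _ η) * ly K2 ^ e

/-- `ρ_e = d ((x + η) x ^ e)` -/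
def ro (η : K2) : ℕ → FA K2
  | 0 => lx K2
  | e + 1 => ly K2 * ro η e + lx K2 * gx η e

def rh (η : K2) : FN K2 →ₐ[K2] FA K2 := lift K2 (ro η)

def Zh (η : K2) : FN K2 →ₐ[K2] FA K2 := lift K2 fun e => ro η e + η • gx η e

/-- the hypothesis `D2.st` -/
def Stf (p : FN K2) : Prop := ∃ c : K2[X] ⊗[K2] K2[X],
  dst K2 p = p ⊗ₜ 1 + 1 ⊗ₜ p + Algebra.TensorProduct.map jj jj c

/-! the matrices of Lemma K -/

def xh : M2 (FA K2) := !![1, 0; 1, lx K2]
def yh : M2 (FA K2) := !![0, 1 + ly K2; 0, 0]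
def ah : M2 (FA K2) := xh * yh + yh * xh
def R2 : FA K2 →ₐ[K2] M2 (FA K2) := ev ah xh
def R4 : FA K2 →ₐ[K2] M2 (M2 (FA K2)) := ev !![ah, 1; 1, ah] !![xh, 0; 0, xh + 1]

def Mm : ℕ → M2 (FA K2)
  | 0 => !![ly K2, 0; (1 + ly K2) * lx K2, ly K2]
  | e + 1 => !![lx K2 ^ (e + 1) * ly K2 + lx K2 ^ (e + 2) + lx K2 * (1 + lx K2) ^ (e + 1),
      lx K2 ^ (e + 1) + lx K2 * (1 + lx K2) ^ e;
      (1 + ly K2) * (lx K2 * (1 + lx K2) ^ (e + 1)), (1 + ly K2) * (lx K2 * (1 + lx K2) ^ e)]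

def Mh : FN K2 →ₐ[K2] M2 (FA K2) := lift K2 Mm
def Nh : FN K2 →ₐ[K2] FA K2 := lift K2 fun e => lx K2 ^ e * (1 + ly K2)

/-- the entry `0 0` -/
def al : FN K2 →ₗ[K2] FA K2 := (Matrix.entryLinearMap K2 _ 0 0).comp Mh.toLinearMap

theorem al_apply (p : FN K2) : al p = Mh p 0 0 := rfl

/-- `0 ↦ C`, everything else `↦ Q` -/
def om (g : List ℕ) : List Bool := g.map fun e => decide (e = 0)

def HE (E : ℕ) (p : FN K2) : Prop :=
  ∀ o : List Bool, o.count false < E → cw (o ++ [true]) (al p) = 0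

/-! the rows -/

def St_RED1 : Prop := ∀ (η : K2) (ψ : FA K2), IsLie ψ →
  ∃ (f : FA K2) (c : K2), IsLie f ∧ Ph η ψ = dm (dl η) f + c • Ym η

def St_RED2 : Prop := ∀ w : FA K2, w - sg (Ph 0 w 0 0) - ly K2 * sg (Ph 0 w 1 0) ∈ Y2 K2

def St_YW : Prop := ∀ (η : K2) (w : FA K2), r K2 (Ph η w 0 0) = r K2 (Yh η (piY w))

def St_STF : Prop := ∀ (η : K2) (p : FN K2), Stf p →
  ∃ c : K2, Zh η (ka K2 p) = Yh η p + algebraMap K2 _ c

def St_HOM : Prop := ∀ n (ψ : FA K2), ψ ∈ Hn K2 n → ka K2 (piY ψ) ∈ H K2 (fun e => e + 2) n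

def St_TOP : Prop := ∀ (η : K2) (R : ℕ) (g : FN K2), g ∈ Sp K2 (fun l => l.length ≤ R) →
  r K2 (Zh η g) ∈ LC → r K2 (rh η (pr dep R g)) ∈ LC

def St_KMAT : Prop := ∀ p : FN K2,
  R4 (rh 1 p) 0 0 1 1 + R4 (rh 1 p) 1 0 1 1 = al p ∧ R2 (rh 1 p) 1 1 = Nh p

def St_KLIE : Prop := ∀ u : FA K2, r K2 u ∈ LC → ∃ (c : K2) (d : FA K2),
  R4 u 0 0 1 1 + R4 u 1 0 1 1 = R2 u 1 1 + algebraMap K2 _ c + d * lx K2

def St_KHE : Prop := ∀ (E : ℕ) (p : FN K2) (c : K2) (d : FA K2), p ∈ Sp K2 (fun l => l.sum = E) →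
  al p = Nh p + algebraMap K2 _ c + d * lx K2 → HE E p

def St_KA : Prop := ∀ (w : List ℕ) (e : ℕ) (o : List Bool),
  cw (o ++ List.replicate e false ++ [true]) (al (wrd K2 (w ++ [e]))) = cw o (al (wrd K2 w)) ∧
  (cw (o ++ [true]) (al (wrd K2 (w ++ [e]))) ≠ 0 → ∃ o', o = o' ++ List.replicate e false)

def St_KB : Prop := ∀ w : List ℕ, al (wrd K2 w) ∈ Sp K2 fun o => w.length ≤ o.length

def St_KC : Prop := ∀ g : List ℕ, Sm g →
  al (wrd K2 g) ∈ Sp K2 (fun o => o.count false = g.sum) ∧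
  ∀ (g0 : List ℕ) (e : ℕ), Sm g0 → g0.length = g.length → 2 ≤ e →
    cw (om g0 ++ [false]) (al (wrd K2 (g ++ [e]))) = if g = g0 then 1 else 0

def St_KIND : Prop := St_KA → St_KB → St_KC → ∀ (R E : ℕ) (p : FN K2),
  p ∈ Sp K2 (fun l => l.length = R ∧ l.sum = E) → HE E p → p ∈ Sp K2 fun l => Sm l.dropLast

def St_LAST : Prop := ∀ p : FN K2, p ∈ Sp K2 (fun l => Sm l.dropLast) → r K2 (rh 0 p) = p

def St_PAL : Prop := ∀ F ∈ LN K2, ∀ w : List ℕ, cw w.reverse F = cw w F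

def St_SMALL : Prop := ∀ (η : K2), ∀ F ∈ LN K2, F ∈ Sp K2 Sm → r K2 (Zh η F) ∈ LC

def St_DEP1 : Prop := ∀ p : FN K2, Stf p → ∀ m : ℕ,
  cw [m + 2] (ka K2 p) = cw [0, m] (ka K2 p) + cw [m, 0] (ka K2 p)

def St_SUB : Prop := ∀ g ∈ Sp K2 Sm, sg (upp K2 g) ∈ Subring.closure {a2 K2, b2 K2}

def St_LIN : Prop := ∀ n (ψ u : FA K2) (c c' : K2), 2 ≤ n → ψ ∈ Hn K2 n →
  u ∈ Subring.closure {a2 K2, b2 K2} → ψ - u - c • lx K2 - c' • ly K2 ∈ Y2 K2 → c = 0 ∧ c' = 0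

/-- Lemma K -/
def St_K : Prop := ∀ (R E : ℕ) (p : FN K2), p ∈ Sp K2 (fun l => l.length = R ∧ l.sum = E) →
  r K2 (rh 1 p) ∈ LC → p ∈ Sp K2 fun l => Sm l.dropLast

def Desc : Prop := ∀ (n : ℕ) (g : FN K2), g ∈ H K2 (fun e => e + 2) n →
  (∀ η, r K2 (Zh η g) ∈ LC) → ∀ R, 2 ≤ R → pr dep R g ∈ LN K2 ∧ pr dep R g ∈ Sp K2 Sm

def St_DESC : Prop := St_TOP → St_K → St_LAST → St_PAL → St_SMALL → Desc

theorem k_of (h1 : St_KMAT) (h2 : St_KLIE) (h3 : St_KHE) (ha : St_KA) (hb : St_KB) (hc : St_KC)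
    (h4 : St_KIND) : St_K := by
  intro R E p hp hr
  obtain ⟨c, d, e⟩ := h2 _ hr
  rw [(h1 p).1, (h1 p).2] at e
  exact h4 ha hb hc R E p hp (h3 E p c d (Sp_mono (fun _ h => h.2) hp) e)

theorem rlz : True := by
  have := @ro.eq_def
  have := @Mm.eq_def
  have := @yw.eq_def.{0}
  have := @yy.eq_def.{0}
  have := @GAM.E.eq_def
  have := @GAM.kf.eq_def
  trivial

end Pool.Agent.DD.F.A2
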