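import Pool.Agent.Lib.DD.A2Blue

/-! The stuffle relation for two letters. -/

set_option autoImplicit false

noncomputable section

namespace Pool.Agent.DD.F.A2

open Pool.Agent.DR Pool.Agent.DD.S39 Pool.Agent.DD.DS Pool.Agent.DD.F64 Pool.Agent.DD.F.GAM
  TensorProduct FreeAlgebra Polynomial

namespace DEP1

theorem ka_wrd (l : List ℕ) : (∃ l' : List ℕ, l = l'.map Nat.succ ∧ ka K2 (wrd K2 l) = wrd K2 l') ∨
    (0 ∈ l ∧ ka K2 (wrd K2 l) = 0) := by
  induction l with
  | nil => exact Or.inl ⟨[], rfl, by simp⟩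
  | cons k l ih =>
    rcases k with _ | k
    · exact Or.inr ⟨by simp, by simp [GAM.ka, kf]⟩
    · rcases ih with ⟨l', e, h⟩ | ⟨e, h⟩
      · exact Or.inl ⟨k :: l', by simp [e], by rw [wrd_cons, map_mul, h]; simp [GAM.ka, kf]⟩
      · exact Or.inr ⟨by simp [e], by rw [wrd_cons, map_mul, h, mul_zero]⟩

theorem cw_ka (w : List ℕ) (p : FN K2) : cw w (ka K2 p) = cw (w.map Nat.succ) p := by
  refine wext (F := cw w ∘ₗ (ka K2).toLinearMap) (fun l => ?_) p
  rw [LinearMap.comp_apply, AlgHom.toLinearMap_apply, cw_wrd]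
  rcases ka_wrd l with ⟨l', e, h⟩ | ⟨e, h⟩
  · rw [h, cw_wrd, e]
    simp only [(List.map_injective_iff.2 Nat.succ_injective).eq_iff]
  · rw [h, map_zero, if_neg]
    rintro rfl
    simp at e

/-- two commuting infinitesimals -/
abbrev B : Type := DualNumber (DualNumber K2)

/-- the element `a ε₁ + b ε₂ + c ε₁ ε₂` -/
def el (a b c : K2) : B := (((0, a), (b, c)) : DualNumber K2 × DualNumber K2)

/-- the coefficient of `ε₁ ε₂` -/
def tp : B →ₗ[K2] K2 where
  toFun x := x.snd.snd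
  map_add' _ _ := rfl
  map_smul' _ _ := rfl

theorem tp_el (a b c : K2) : tp (el a b c) = c := rfl

theorem el_mul (a b c a' b' c' : K2) : el a b c * el a' b' c' = el 0 0 (a * b' + b * a') := by
  refine TrivSqZeroExt.ext (TrivSqZeroExt.ext ?_ ?_) (TrivSqZeroExt.ext ?_ ?_) <;>
    simp [el, mul_comm]

theorem el_add (a b c a' b' c' : K2) :
    el a b c + el a' b' c' = el (a + a') (b + b') (c + c') := by
  refine TrivSqZeroExt.ext (TrivSqZeroExt.ext ?_ ?_) (TrivSqZeroExt.ext ?_ ?_) <;> simp [el]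

theorem el_zero : el 0 0 0 = 0 := rfl

/-- indicator -/
def ic (k i : ℕ) : K2 := if k = i then 1 else 0

theorem tp_wrd (f : FN K2 →ₐ[K2] B) (a b c : ℕ → K2) (h : ∀ k, f (ι K2 k) = el (a k) (b k) (c k))
    (l : List ℕ) : tp (f (wrd K2 l)) = match l with
      | [k] => c k
      | [k, k'] => a k * b k' + b k * a k'
      | _ => 0 := by
  rcases l with _ | ⟨k, _ | ⟨k', _ | ⟨k'', l⟩⟩⟩
  · rw [wrd_nil, map_one]; rfl
  · rw [wrd_cons, wrd_nil, mul_one, h, tp_el]
  · rw [wrd_cons, wrd_cons, wrd_nil, mul_one, map_mul, h, h, el_mul, tp_el]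
  · rw [wrd_cons, wrd_cons, wrd_cons, map_mul f, map_mul f, map_mul f, h, h, h, ← mul_assoc,
      ← mul_assoc, el_mul, el_mul, zero_mul, zero_mul, add_zero, el_zero, zero_mul, map_zero]

def f1 : FN K2 →ₐ[K2] B := lift K2 fun k => el (ic k 1) 0 0
def f2 (m : ℕ) : FN K2 →ₐ[K2] B := lift K2 fun k => el 0 (ic k (m + 1)) 0

theorem tp_f1 (p : FN K2) : tp (f1 p) = 0 :=
  wext (F := tp ∘ₗ f1.toLinearMap) (G := 0) (fun l => by
    refine (tp_wrd f1 (fun k => ic k 1) 0 0 (fun k => by simp [f1]) l).trans ?_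
    split <;> simp) p

theorem tp_f2 (m : ℕ) (p : FN K2) : tp (f2 m p) = 0 :=
  wext (F := tp ∘ₗ (f2 m).toLinearMap) (G := 0) (fun l => by
    refine (tp_wrd (f2 m) 0 (fun k => ic k (m + 1)) 0 (fun k => by simp [f2]) l).trans ?_
    split <;> simp) p

theorem f_jj (f : FN K2 →ₐ[K2] B) (h : f (ι K2 0) = 0) (q : K2[X]) :
    f (jj q) = algebraMap K2 B (q.coeff 0) := by
  rw [jj, ← aeval_algHom_apply, h, aeval_def, eval₂_at_zero]

theorem el_sum (s : Finset ℕ) (c : ℕ → K2) : ∑ i ∈ s, el 0 0 (c i) = el 0 0 (∑ i ∈ s, c i) := by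
  induction s using Finset.induction_on with
  | empty => rfl
  | insert i s hi ih => rw [Finset.sum_insert hi, Finset.sum_insert hi, ih, el_add, add_zero]

def pm (m : ℕ) : FN K2 ⊗[K2] FN K2 →ₐ[K2] B :=
  Algebra.TensorProduct.lift f1 (f2 m) fun _ _ => mul_comm (G := B) _ _

theorem pm_tmul (m : ℕ) (u v : FN K2) : pm m (u ⊗ₜ v) = f1 u * f2 m v :=
  Algebra.TensorProduct.lift_tmul _ _ _ _ _

def FF (m : ℕ) : FN K2 →ₐ[K2] B := (pm m).comp (dst K2)

theorem FF_ι (m k : ℕ) : FF m (ι K2 k) = el (ic k 1) (ic k (m + 1)) (ic k (m + 3)) := by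
  rw [FF, AlgHom.comp_apply, dst, lift_ι_apply, map_sum, Finset.Nat.antidiagonal_succ,
    Finset.sum_cons, Finset.sum_map]
  rcases k with _ | k
  · simp [yy, pm_tmul, f1, f2, ic, el_zero]
  · rw [Finset.Nat.antidiagonal_succ', Finset.sum_cons, Finset.sum_map,
      Finset.Nat.sum_antidiagonal_eq_sum_range_succ_mk]
    simp only [Function.Embedding.prodMap, Function.Embedding.coeFn_mk, Prod.map,
      Function.Embedding.refl_apply, Nat.succ_eq_add_one, yy, pm_tmul, map_one, one_mul, mul_one,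
      f1, f2, lift_ι_apply, el_mul, el_sum, el_add, zero_mul, add_zero, zero_add]
    congr 1
    rw [Finset.sum_eq_single 1 (fun i _ hi => by simp [ic, hi]) (fun h => ?_)]
    · simp only [ic, if_true, one_mul]
      exact if_congr (by omega) rfl rfl
    · rw [Finset.mem_range] at h
      rw [ic, ic, if_neg (show ¬ k - 1 = m + 1 by omega), mul_zero]

theorem tp_jj (m : ℕ) (c : K2[X] ⊗[K2] K2[X]) :
    tp (pm m (Algebra.TensorProduct.map jj jj c)) = 0 := by
  induction c using TensorProduct.induction_on with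
  | zero => simp
  | tmul q q' =>
    rw [Algebra.TensorProduct.map_tmul, pm_tmul, f_jj f1 (by simp [f1, ic, el_zero]),
      f_jj (f2 m) (by simp [f2, ic, el_zero]), ← map_mul]
    rfl
  | add u v hu hv => rw [map_add, map_add, map_add, hu, hv, add_zero]

theorem tp_FF (m : ℕ) (p : FN K2) :
    tp (FF m p) = cw [m + 3] p + (cw [1, m + 1] p + cw [m + 1, 1] p) := by
  have := wext (F := tp ∘ₗ (FF m).toLinearMap) (G := cw [m + 3] + (cw [1, m + 1] + cw [m + 1, 1]))
    (fun l => by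
      refine (tp_wrd _ _ _ _ (FF_ι m) l).trans ?_
      simp only [LinearMap.add_apply, cw_wrd]
      rcases l with _ | ⟨k, _ | ⟨k', _ | ⟨k'', l⟩⟩⟩
      · simp
      · simp [ic]
      · simp only [ic, ite_zero_mul_ite_zero, mul_one]
        simp
      · simp) p
  rwa [LinearMap.add_apply, LinearMap.add_apply] at this

end DEP1

open DEP1 in
theorem st_DEP1 : St_DEP1 := by
  rintro p ⟨c, hc⟩ m
  have h1 : tp (FF m p) = 0 := by
    rw [FF, AlgHom.comp_apply, hc]
    simp only [map_add, pm_tmul, map_one, mul_one, one_mul, tp_f1, tp_f2, tp_jj, add_zero]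
  rw [cw_ka, cw_ka, cw_ka]
  exact (eq_neg_of_add_eq_zero_left ((tp_FF m p).symm.trans h1)).trans (neg2 _)

end Pool.Agent.DD.F.A2
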