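import Pool.Agent.Lib.DD.A2Blue

/-! The descent in the depth, and the glue. -/

set_option autoImplicit false

noncomputable section

namespace Pool.Agent.DD.F.A2

open Pool.Agent.DR Pool.Agent.DD.S39 Pool.Agent.DD.DS Pool.Agent.DD.F64 Pool.Agent.DD.F.GAM
  TensorProduct FreeAlgebra Polynomial

attribute [local instance 100] LieRing.ofAssociativeRing

namespace DESC

theorem sum2 (l : List ℕ) : (l.map fun e => e + 2).sum = l.sum + 2 * l.length := by
  induction l with
  | nil => rfl
  | cons e l ih => simp only [List.map_cons, List.sum_cons, List.length_cons, ih]; omega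

theorem cw_dep (R : ℕ) (w : List ℕ) (v : FN K2) :
    cw w (pr dep R v) = if w.length = R then cw w v else 0 := by rw [cw_pr, dep_sum]

theorem cw_alg {w : List ℕ} (hw : w ≠ []) (c : K2) : cw w (algebraMap K2 (FN K2) c) = 0 := by
  rw [Algebra.algebraMap_eq_smul_one, map_smul, ← wrd_nil, cw_wrd, if_neg hw.symm, smul_zero]

/-- a constant is killed or kept -/
theorem lie_of {R : ℕ} (hR : 1 ≤ R) {p : FN K2} (hp : p ∈ Sp K2 fun l => l.length = R)
    (h : p ∈ LC) : p ∈ LN K2 := by
  obtain ⟨F, hF, c, rfl⟩ := mem_LC.1 h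
  have h0 : cw [] F = 0 := by
    have e : ∀ v : FN K2, cw [] v = (lift K2 (fun _ : ℕ => (0 : K2))).toLinearMap v :=
      wext fun l => by rw [cw_wrd]; cases l <;> simp
    rw [e]
    refine LN_ind (p := fun v => (lift K2 (fun _ : ℕ => (0 : K2))).toLinearMap v = 0)
      (by simp) (by simp) ?_ ?_ ?_ hF
    · intro u v hu hv; rw [map_add, hu, hv, add_zero]
    · intro c v hv; rw [map_smul, hv, smul_zero]
    · intro u v _ _ _ _; simp [mul_comm]
  have h1 : cw [] (F + algebraMap K2 _ c) = 0 := by
    by_contra hn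
    have := mem_Sp.1 hp _ hn
    simp at this; omega
  rw [map_add, h0, zero_add, Algebra.algebraMap_eq_smul_one, map_smul, ← wrd_nil, cw_wrd] at h1
  simp only [if_true, smul_eq_mul, mul_one] at h1
  simpa [h1] using hF

theorem sm_of {l : List ℕ} (hl : 2 ≤ l.length) (h1 : Sm l.dropLast) (h2 : Sm l.reverse.dropLast) :
    Sm l := by
  intro e he
  match l, hl with
  | a :: b :: t, _ =>
    rcases List.mem_cons.1 he with rfl | he'
    · exact h1 e (by simp [List.dropLast])
    · refine h2 e ?_
      rw [List.dropLast_reverse, List.mem_reverse]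
      exact he'

end DESC

open DESC

theorem st_DESC : St_DESC := by
  intro top hK last pal small n g hg hz
  have key : ∀ (m : ℕ) (g : FN K2), g ∈ H K2 (fun e => e + 2) n → (∀ η, r K2 (Zh η g) ∈ LC) →
      g ∈ Sp K2 (fun l => l.length ≤ m) → ∀ R, 2 ≤ R →
      pr dep R g ∈ LN K2 ∧ pr dep R g ∈ Sp K2 Sm := by
    intro m
    induction m with
    | zero =>
      intro g _ _ hl R hR
      have : pr dep R g = 0 := ext_cw fun w => by
        rw [cw_dep, map_zero]
        split_ifs with e
        · by_contra hn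
          have := mem_Sp.1 hl w hn
          omega
        · rfl
      rw [this]; exact ⟨zero_mem _, zero_mem _⟩
    | succ m ih =>
      intro g hg hz hl R hR
      by_cases hm : m = 0
      · have : pr dep R g = 0 := ext_cw fun w => by
          rw [cw_dep, map_zero]
          split_ifs with e
          · by_contra hn
            have := mem_Sp.1 hl w hn
            omega
          · rfl
        rw [this]; exact ⟨zero_mem _, zero_mem _⟩
      set p := pr dep (m + 1) g with hp
      have c1 : ∀ w, cw w p ≠ 0 → w.length = m + 1 ∧ cw w g ≠ 0 := fun w hw => by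
        rw [hp, cw_dep] at hw
        split_ifs at hw with e
        exacts [⟨e, hw⟩, absurd rfl hw]
      have p1 : p ∈ Sp K2 fun l => l.length = m + 1 ∧ l.sum = n - 2 * (m + 1) :=
        mem_Sp.2 fun w hw => by
          have h2 := mem_Sp.1 (H_eq (K := K2) _ n ▸ hg) w (c1 w hw).2
          rw [sum2, (c1 w hw).1] at h2
          exact ⟨(c1 w hw).1, by omega⟩
      have p2 := hK _ _ p p1 (top 1 _ g hl (hz 1))
      have p3 : p ∈ LN K2 := by
        have := top 0 _ g hl (hz 0)
        rw [last p p2] at this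
        exact lie_of (by omega) (Sp_mono (fun _ h => h.1) p1) this
      have p4 : p ∈ Sp K2 Sm := mem_Sp.2 fun w hw =>
        sm_of (by have := (c1 w hw).1; omega) (mem_Sp.1 p2 w hw)
          (mem_Sp.1 p2 _ (by rwa [pal p p3]))
      by_cases e : R = m + 1
      · subst e; exact ⟨p3, p4⟩
      have c2 : ∀ w, cw w (g - p) = if w.length = m + 1 then 0 else cw w g := fun w => by
        rw [map_sub, hp, cw_dep]; split_ifs <;> simp
      have c3 : ∀ w, cw w (g - p) ≠ 0 → w.length ≠ m + 1 ∧ cw w g ≠ 0 := fun w hw => by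
        rw [c2] at hw
        split_ifs at hw with e
        exacts [absurd rfl hw, ⟨e, hw⟩]
      have e2 : pr dep R g = pr dep R (g - p) := ext_cw fun w => by
        rw [cw_dep, cw_dep, c2]
        split_ifs with e1 e3
        · omega
        · rfl
        · rfl
      rw [e2]
      refine ih (g - p) ?_ (fun η => ?_) (mem_Sp.2 fun w hw => ?_) R hR
      · exact mem_Sp.2 fun w hw => mem_Sp.1 (H_eq (K := K2) _ n ▸ hg) w (c3 w hw).2
      · rw [map_sub, map_sub]; exact sub_mem (hz η) (small η p p3 p4)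
      · have := mem_Sp.1 hl w (c3 w hw).2
        have := (c3 w hw).1
        omega
  refine key n g hg hz (mem_Sp.2 fun w hw => ?_)
  have := mem_Sp.1 (H_eq (K := K2) _ n ▸ hg) w hw
  rw [sum2] at this
  omega

theorem a2_of (red1 : St_RED1) (red2 : St_RED2) (yw : St_YW) (stf : St_STF) (hom : St_HOM)
    (desc : Desc) (last : St_LAST) (pal : St_PAL) (dep1 : St_DEP1) (sub : St_SUB)
    (lin : St_LIN) : St_A2 := by
  intro n ψ hn hD
  have hs : Stf (piY ψ) := hD.st
  set g := ka K2 (piY ψ) with hg
  have key : ∀ η, ∃ (f : FA K2) (c k : K2), IsLie f ∧ Ph η ψ = dm (dl η) f + c • Ym η ∧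
      r K2 (Zh η g) = r K2 f + algebraMap K2 _ k := fun η => by
    obtain ⟨f, c, hf, e⟩ := red1 η ψ hD.lie
    obtain ⟨k, e2⟩ := stf η _ hs
    have ra : ∀ t : K2, r K2 (algebraMap K2 _ t) = algebraMap K2 _ t := fun t => by
      simp [r_apply, Algebra.algebraMap_eq_smul_one]
    refine ⟨f, c, c * η + k, hf, e, ?_⟩
    have e3 : (dm (dl η) f + c • Ym η) 0 0 = f + algebraMap K2 _ (c * η) := by
      rw [map_mul, ← Algebra.smul_def]; simp [(dm_sh _ _).1, Ym]
    rw [hg, e2, map_add, ← yw, e, ra, e3, map_add, ra, map_add, add_assoc]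
  have hd := desc n g (hom n ψ hD.hom) fun η => by
    obtain ⟨f, c, k, hf, -, e⟩ := key η
    exact mem_LC.2 ⟨_, (elim hf).1, k, e⟩
  have hsm : g ∈ Sp K2 Sm := mem_Sp.2 fun w hw => by
    match w, hw with
    | [], _ => intro e he; simp at he
    | [0], _ => intro e he; simp_all
    | [1], _ => intro e he; simp_all
    | [m + 2], hw =>
      exfalso
      have h2 := pal _ (hd 2 le_rfl).1 [m, 0]
      rw [cw_dep, cw_dep] at h2
      simp only [List.reverse_cons, List.reverse_nil, List.nil_append, List.singleton_append,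
        List.length_cons, List.length_nil, if_true] at h2
      exact hw (by rw [hg, dep1 _ hs m, ← hg, h2, two])
    | a :: b :: t, hw =>
      refine mem_Sp.1 (hd (a :: b :: t).length (by simp)).2 _ ?_
      rwa [cw_dep, if_pos rfl]
  obtain ⟨f, c, k, hf, e, e2⟩ := key 0
  have z0 : Zh 0 = rh 0 := by simp [Zh, rh]
  rw [z0, last g (Sp_mono (fun l h e he => h e (List.mem_of_mem_dropLast he)) hsm)] at e2
  obtain ⟨c', e3⟩ := (elim hf).2
  have e4 : r K2 f = g + algebraMap K2 _ k := by rw [e2, add_assoc, two, add_zero]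
  have hu : sg (upp K2 (r K2 f)) ∈ Subring.closure {a2 K2, b2 K2} := by
    rw [e4, map_add, map_add, AlgHom.commutes, AlgHom.commutes]
    refine add_mem (sub g hsm) ?_
    have : ∀ k : K2, k = 0 ∨ k = 1 := by decide
    rcases this k with rfl | rfl
    · rw [map_zero]; exact zero_mem _
    · rw [map_one]; exact one_mem _
  have h5 := red2 ψ
  have e00 : Ph 0 ψ 0 0 = f := by simp [e, (dm_sh _ _).1, Ym]
  have e10 : Ph 0 ψ 1 0 = c • 1 := by simp [e, (dm_sh _ _).2.1, Ym]
  have sy : sg (ly K2) = lx K2 := ev_y _ _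
  have h6 : ψ - sg (upp K2 (r K2 f)) - c' • lx K2 - c • ly K2 ∈ Y2 K2 := by
    have e5 : sg f = c' • lx K2 + sg (upp K2 (r K2 f)) := by
      rw [← sy, ← map_smul, ← map_add, ← e3]
    rw [e00, e10, e5, map_smul, map_one, mul_smul_comm, mul_one] at h5
    rwa [sub_sub ψ, add_comm]
  obtain ⟨rfl, rfl⟩ := lin n ψ _ c' c (by omega) hD.hom hu h6
  exact ⟨_, hu, by simpa using h6⟩

end Pool.Agent.DD.F.A2
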