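import Pool.Agent.Lib.DD.A2Blue

/-! The row `HOM` of the blueprint for `St_A2`. -/

set_option autoImplicit false

noncomputable section

namespace Pool.Agent.DD.F.A2

open Pool.Agent.DR Pool.Agent.DD.S39 Pool.Agent.DD.DS Pool.Agent.DD.F64 Pool.Agent.DD.F.GAM
  TensorProduct FreeAlgebra Polynomial

namespace HOM

theorem gen (w : ℕ → ℕ) (k : ℕ) : ι K2 k ∈ H K2 w (w k) := by
  simpa using wrd_H (K := K2) w [k]

theorem yw_H (w : List Bool) : ∀ k, yw K2 k w ∈ H K2 (fun e => e + 1) (k + w.length) := by
  induction w with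
  | nil =>
    intro k
    rcases k with _ | k
    · simpa [yw] using wrd_H (K := K2) (fun e : ℕ => e + 1) []
    · simp [yw]
  | cons s w ih =>
    intro k
    cases s with
    | false => simpa [yw, add_assoc, add_comm 1] using ih (k + 1)
    | true =>
      have := H_mul (gen (fun e => e + 1) k) (ih 0)
      simpa [yw, yy, add_assoc, add_comm 1] using this

theorem wd_eq (u : List Bool) : wd (lx K2) (ly K2) u = (u.map (ι K2)).prod := by
  rw [wd]
  congr 2
  funext s
  cases s <;> rfl

end HOM

theorem st_HOM : St_HOM := by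
  intro n ψ hψ
  have h1 : Hn K2 n ≤ (H K2 (fun e => e + 1) n).comap piY := Submodule.span_le.2 (by
    rintro _ ⟨u, hu, rfl⟩
    have := HOM.yw_H u 0
    rw [zero_add, show u.length = n from hu, ← piY_word, ← HOM.wd_eq] at this
    exact this)
  refine H_hom (GAM.ka K2) (fun s => ?_) (h1 hψ)
  rcases s with _ | s
  · simp [GAM.ka, kf]
  · simpa [GAM.ka, kf] using HOM.gen (fun e => e + 2) s

end Pool.Agent.DD.F.A2
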