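import Pool.Agent.Lib.DD.K15

/-! Lemma K: the representation and the conclusion. -/

set_option autoImplicit false

noncomputable section

namespace Pool.Agent.DD.K15

open Matrix

section gen

variable {E E' : Type*} [Ring E] [Ring E']

/-- The derivative of `x ^ e` when the derivative of `x` is `a`. -/
def dd (x a : E) : ℕ → E
  | 0 => 0
  | e + 1 => a * x ^ e + x * dd x a e

/-- The derivative of `(x + 1) x ^ e`. -/
def rho (x a : E) (e : ℕ) : E := dd x a (e + 1) + dd x a e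

theorem map_dd {Φ : Type*} [FunLike Φ E E'] [RingHomClass Φ E E'] (φ : Φ) (x a : E) (e : ℕ) :
    φ (dd x a e) = dd (φ x) (φ a) e := by
  induction e with
  | zero => simp [dd]
  | succ e ih => simp [dd, ih]

theorem map_rho {Φ : Type*} [FunLike Φ E E'] [RingHomClass Φ E E'] (φ : Φ) (x a : E) (e : ℕ) :
    φ (rho x a e) = rho (φ x) (φ a) e := by
  simp [rho, map_dd]

theorem dd_inner (h2 : ∀ z : E, z + z = 0) (x y : E) (e : ℕ) :
    dd x (x * y + y * x) e = y * x ^ e + x ^ e * y := by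
  induction e with
  | zero => simp [dd, h2]
  | succ e ih =>
    have : (x * y + y * x) * x ^ e + x * (y * x ^ e + x ^ e * y) =
        y * (x * x ^ e) + x * x ^ e * y + (x * y * x ^ e + x * y * x ^ e) := by noncomm_ring
    rw [dd, ih, this, h2, add_zero, ← pow_succ']

theorem rho_inner (h2 : ∀ z : E, z + z = 0) (x y : E) (e : ℕ) :
    rho x (x * y + y * x) e = y * (x ^ (e + 1) + x ^ e) + (x ^ (e + 1) + x ^ e) * y := by
  rw [rho, dd_inner h2, dd_inner h2]; noncomm_ring

end gen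

abbrev M2 (E : Type) : Type := Matrix (Fin 2) (Fin 2) E

theorem two2 {E : Type} [Ring E] (h2 : ∀ z : E, z + z = 0) (z : M2 E) : z + z = 0 := by
  ext i j; exact h2 _

theorem add2 {E : Type} [Ring E] (a b c d a' b' c' d' : E) :
    !![a, b; c, d] + !![a', b'; c', d'] = !![a + a', b + b'; c + c', d + d'] := by
  ext i j; fin_cases i <;> fin_cases j <;> rfl

def xh : M2 D := !![1, 0; 1, Q]
def yh : M2 D := !![0, 1 + C; 0, 0]
def ah : M2 D := xh * yh + yh * xh
def XX : M2 (M2 D) := !![xh, 0; 0, xh + 1]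
def YY : M2 (M2 D) := !![yh + 1, 1; 1, yh + 1]

theorem z2 (d : D) : (2 : ℤ) • d = 0 := by rw [two_smul, two]
theorem n2 (d : D) : (2 : ℕ) • d = 0 := by rw [two_smul, two]

theorem XY : XX * YY + YY * XX = !![ah, 1; 1, ah] := by
  have h := two2 two
  have e1 : xh * (yh + 1) + (yh + 1) * xh = ah + (xh + xh) := by unfold ah; noncomm_ring
  have e2 : (xh + 1) * (yh + 1) + (yh + 1) * (xh + 1) =
      ah + (xh + xh) + (yh + yh) + (1 + 1) := by unfold ah; noncomm_ring
  have e3 : xh + (xh + 1) = 1 := by rw [← add_assoc, h, zero_add]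
  have e4 : xh + 1 + xh = 1 := by rw [add_comm, e3]
  rw [h, add_zero] at e1
  rw [h, h, h, add_zero, add_zero, add_zero] at e2
  rw [XX, YY]
  simp only [Matrix.mul_fin_two, add2, mul_zero, zero_mul, add_zero, zero_add,
    mul_one, one_mul, e1, e2, e3, e4]

theorem XX_pow (e : ℕ) : XX ^ e = !![xh ^ e, 0; 0, (xh + 1) ^ e] := by
  induction e with
  | zero => rw [pow_zero, pow_zero, pow_zero, Matrix.one_fin_two]
  | succ e ih => rw [pow_succ, ih, XX]; simp [pow_succ]

theorem x1 : xh + 1 = !![0, 0; 1, 1 + Q] := by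
  ext i j : 2
  fin_cases i <;> fin_cases j <;> simp [xh, two, add_comm]

theorem G0 (e : ℕ) : xh ^ (e + 1) + xh ^ e = !![0, 0; Q ^ e, Q ^ e * (1 + Q)] := by
  induction e with
  | zero => simp [x1]
  | succ e ih =>
    rw [pow_succ' xh (e + 1), pow_succ' xh e, ← mul_add, ← pow_succ', ih, xh]
    simp [pow_succ', mul_assoc]

theorem G1 (e : ℕ) : (xh + 1) ^ (e + 1 + 1) + (xh + 1) ^ (e + 1) =
    !![0, 0; (1 + Q) ^ e * Q, (1 + Q) ^ e * (1 + Q) * Q] := by
  induction e with
  | zero =>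
    have h : (xh + 1) ^ (0 + 1 + 1) + (xh + 1) ^ (0 + 1) = (xh + 1) * xh + (xh + 1 + (xh + 1)) := by
      noncomm_ring
    rw [h, two2 two, add_zero, x1, xh]
    simp only [Matrix.mul_fin_two, mul_zero, zero_mul, add_zero, zero_add, mul_one, one_mul,
      pow_zero, ← add_assoc, two]
  | succ e ih =>
    rw [pow_succ' (xh + 1) (e + 1 + 1), pow_succ' (xh + 1) (e + 1), ← mul_add, ← pow_succ', ih, x1]
    simp only [Matrix.mul_fin_two, mul_zero, zero_mul, add_zero, zero_add, pow_succ', mul_assoc]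

/-- The projection of the image of the start vector. -/
def P (N : M2 (M2 D)) : Fin 2 → D :=
  ![N 0 0 1 1 + N 1 0 1 1, N 0 0 0 1 + N 1 0 0 1 + (1 + C) * N 1 0 1 1]

theorem step (e : ℕ) (N : M2 (M2 D)) : P (rho XX !![ah, 1; 1, ah] e * N) = M e *ᵥ P N := by
  have hy : yh + 1 = !![1, 1 + C; 0, 1] := by
    ext i j : 2
    fin_cases i <;> fin_cases j <;> simp [yh]
  rw [← XY, rho_inner (two2 (two2 two)), XX_pow, XX_pow, add2, G0, YY, hy]
  cases e with
  | zero =>
    have : (xh + 1) ^ (0 + 1) + (xh + 1) ^ 0 = xh := by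
      rw [zero_add, pow_one, pow_zero, add_assoc, two2 two, add_zero]
    rw [this, xh, M, Matrix.one_fin_two]
    simp only [Matrix.mul_fin_two, add2, mul_zero, zero_mul, add_zero, zero_add, mul_one, one_mul,
      pow_zero]
    funext i
    fin_cases i <;>
    · simp [P, Matrix.mul_apply, Fin.sum_univ_two, Matrix.mulVec, Matrix.vecMul, dotProduct]
      simp only [mul_add, add_mul, mul_assoc, one_mul, mul_one]
      rw [← one_smul (ZMod 2) (_ + _)]
      match_scalars <;> decide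
  | succ e =>
    rw [G1, M, Mg, Matrix.one_fin_two]
    generalize Q ^ (e + 1) = p
    generalize (1 + Q) ^ e = q
    simp only [Matrix.mul_fin_two, add2, mul_zero, zero_mul, add_zero, zero_add, mul_one, one_mul]
    funext i
    fin_cases i <;>
    · simp [P, Matrix.mul_apply, Fin.sum_univ_two, Matrix.mulVec, Matrix.vecMul, dotProduct]
      simp only [mul_add, add_mul, mul_assoc, one_mul, mul_one]
      rw [← one_smul (ZMod 2) (_ + _)]
      match_scalars <;> decide

theorem P_prod (l : List ℕ) :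
    P (l.map (rho XX !![ah, 1; 1, ah])).prod = (l.map M).prod *ᵥ ![1, 0] := by
  induction l with
  | nil => funext i; fin_cases i <;> simp [P]
  | cons e l ih => rw [List.map_cons, List.prod_cons, step, ih, Matrix.mulVec_mulVec]; rfl

theorem P_zero (l : List ℕ) : (l.map (rho XX !![ah, 1; 1, ah])).prod 0 0 1 1 +
    (l.map (rho XX !![ah, 1; 1, ah])).prod 1 0 1 1 = r l.reverse 0 := by
  have := congrFun (P_prod l) 0
  simpa [P, r, Matrix.mulVec, dotProduct] using this

theorem row1 (e : ℕ) (N : M2 D) : (rho xh ah e * N) 1 1 = Q ^ e * (1 + C) * N 1 1 := by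
  rw [ah, rho_inner (two2 two), G0, yh]
  simp [Matrix.mul_apply, Fin.sum_univ_two]

theorem hom_prod (l : List ℕ) : ∀ (n : ℕ) (d : D), Hom n d →
    Hom (n + l.sum) (d * (l.map (rho xh ah)).prod 1 1) := by
  induction l with
  | nil => intro n d h; simpa using h
  | cons e l ih =>
    intro n d h
    rw [List.map_cons, List.prod_cons, row1, List.sum_cons, ← add_assoc, ← mul_assoc, ← mul_assoc]
    exact ih _ _ (h.Qp e).C1

/-- Lemma K in the representation. -/
theorem K_rep (R E : ℕ) (S : Finset (List ℕ)) (hS : ∀ w ∈ S, w.length = R ∧ w.sum = E)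
    (c0 c1 : ZMod 2) (u0 u1 : M2 D)
    (h0 : (∑ w ∈ S, (w.map (rho XX !![ah, 1; 1, ah])).prod) 0 0 =
      ∑ w ∈ S, (w.map (rho xh ah)).prod + algebraMap _ _ c0 + u0 * xh)
    (h1 : (∑ w ∈ S, (w.map (rho XX !![ah, 1; 1, ah])).prod) 1 0 = algebraMap _ _ c1 + u1 * xh) :
    ∀ w ∈ S, ∀ e ∈ w.dropLast, e ≤ 1 := by
  intro w hw
  rcases R with _ | n
  · rw [List.length_eq_zero_iff.1 (hS w hw).1]; simp
  have h := comb n E (S.map ⟨List.reverse, List.reverse_injective⟩) (fun v hv => by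
    obtain ⟨v', hv', rfl⟩ := Finset.mem_map.1 hv
    simpa using hS v' hv') (fun om ho => ?_) w.reverse (Finset.mem_map_of_mem _ hw)
  · intro e he
    exact h e (by rwa [List.tail_reverse, List.mem_reverse])
  have a0 := congrFun (congrFun h0 1) 1
  have a1 := congrFun (congrFun h1 1) 1
  have hu : ∀ u : M2 D, (u * xh) 1 1 = u 1 1 * Q := fun u => by
    simp [xh, Matrix.mul_apply, Fin.sum_univ_two]
  have hc : ∀ c : ZMod 2, (algebraMap (ZMod 2) (M2 D) c) 1 1 = c • 1 := fun c => by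
    simp [Algebra.algebraMap_eq_smul_one]
  simp only [Matrix.sum_apply, Matrix.add_apply, hu, hc] at a0 a1
  rw [Finset.sum_map, ← cf_sum]
  simp only [Function.Embedding.coeFn_mk, ← P_zero]
  rw [Finset.sum_add_distrib, a0, a1]
  simp only [cf_add, cf_smul, cf_one_cons, cf_Q_f, mul_zero, add_zero, cf_sum]
  refine Finset.sum_eq_zero fun v hv => ?_
  have := hom_prod v 0 1 hom_one (false :: om) (by rw [(hS v hv).2]; simp; omega)
  rwa [one_mul] at this

/-- Lemma K in any algebra that maps to the representation. -/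
theorem K_map {A : Type} [Ring A] [Algebra (ZMod 2) A] (x a : A) (φ : A →ₐ[ZMod 2] M2 D)
    (hx : φ x = xh) (ha : φ a = ah) (R E : ℕ) (S : Finset (List ℕ))
    (hS : ∀ w ∈ S, w.length = R ∧ w.sum = E) (c0 c1 : ZMod 2) (u0 u1 : A)
    (h0 : (∑ w ∈ S, (w.map (rho !![x, 0; 0, x + 1] !![a, 1; 1, a])).prod) 0 0 =
      ∑ w ∈ S, (w.map (rho x a)).prod + algebraMap _ _ c0 + u0 * x)
    (h1 : (∑ w ∈ S, (w.map (rho !![x, 0; 0, x + 1] !![a, 1; 1, a])).prod) 1 0 =
      algebraMap _ _ c1 + u1 * x) :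
    ∀ w ∈ S, ∀ e ∈ w.dropLast, e ≤ 1 := by
  have e1 : φ.mapMatrix !![x, 0; 0, x + 1] = XX := by
    ext i j : 2
    fin_cases i <;> fin_cases j <;> simp [XX, hx]
  have e2 : φ.mapMatrix !![a, 1; 1, a] = !![ah, 1; 1, ah] := by
    ext i j : 2
    fin_cases i <;> fin_cases j <;> simp [ha]
  have e3 : φ.mapMatrix (∑ w ∈ S, (w.map (rho !![x, 0; 0, x + 1] !![a, 1; 1, a])).prod) =
      ∑ w ∈ S, (w.map (rho XX !![ah, 1; 1, ah])).prod := by
    simp only [map_sum, map_list_prod, List.map_map, Function.comp_def, map_rho, e1, e2]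
  refine K_rep R E S hS c0 c1 (φ u0) (φ u1) ?_ ?_
  · rw [← e3, AlgHom.mapMatrix_apply, Matrix.map_apply, h0]
    simp only [map_add, map_mul, map_sum, map_list_prod, List.map_map, Function.comp_def, map_rho,
      hx, ha, AlgHom.commutes]
  · rw [← e3, AlgHom.mapMatrix_apply, Matrix.map_apply, h1]
    simp only [map_add, map_mul, hx, AlgHom.commutes]

/-- The coefficient of a word in the free algebra on the natural numbers. -/
def cn (p : FreeAlgebra (ZMod 2) ℕ) (w : List ℕ) : ZMod 2 :=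
  (FreeAlgebra.basisFreeMonoid (ZMod 2) ℕ).repr p (FreeMonoid.ofList w)

/-- The words that occur. -/
def sp (p : FreeAlgebra (ZMod 2) ℕ) : Finset (List ℕ) :=
  ((FreeAlgebra.basisFreeMonoid (ZMod 2) ℕ).repr p).support.map FreeMonoid.toList.toEmbedding

theorem mem_sp {p : FreeAlgebra (ZMod 2) ℕ} {w : List ℕ} : w ∈ sp p ↔ cn p w ≠ 0 := by
  simp only [sp, cn, Finset.mem_map_equiv, Finsupp.mem_support_iff]; rfl

theorem bas (l : List ℕ) : FreeAlgebra.basisFreeMonoid (ZMod 2) ℕ (FreeMonoid.ofList l) =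
    (l.map (FreeAlgebra.ι (ZMod 2))).prod := by
  simp [FreeAlgebra.basisFreeMonoid, FreeAlgebra.equivMonoidAlgebraFreeMonoid,
    FreeMonoid.lift_ofList]

theorem lift_eq {B : Type} [Ring B] [Algebra (ZMod 2) B] (f : ℕ → B) (p : FreeAlgebra (ZMod 2) ℕ) :
    FreeAlgebra.lift (ZMod 2) f p = ∑ w ∈ sp p, (w.map f).prod := by
  conv_lhs => rw [← (FreeAlgebra.basisFreeMonoid (ZMod 2) ℕ).linearCombination_repr p]
  rw [Finsupp.linearCombination_apply, Finsupp.sum, map_sum, sp, Finset.sum_map]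
  refine Finset.sum_congr rfl fun w hw => ?_
  have h1 : ∀ c : ZMod 2, c ≠ 0 → c = 1 := by decide
  rw [h1 _ (Finsupp.mem_support_iff.1 hw), one_smul, ← FreeMonoid.ofList_toList w, bas,
    map_list_prod]
  simp [Function.comp_def]

/-- Lemma K over the free algebra on `x` and `a`. -/
theorem K_free (x a : FreeAlgebra (ZMod 2) Bool) (hx : x = FreeAlgebra.ι _ false)
    (ha : a = FreeAlgebra.ι _ true) (R E : ℕ) (p : FreeAlgebra (ZMod 2) ℕ)
    (hp : ∀ w, cn p w ≠ 0 → w.length = R ∧ w.sum = E) (c0 c1 : ZMod 2)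
    (u0 u1 : FreeAlgebra (ZMod 2) Bool)
    (h0 : FreeAlgebra.lift (ZMod 2) (rho !![x, 0; 0, x + 1] !![a, 1; 1, a]) p 0 0 =
      FreeAlgebra.lift (ZMod 2) (rho x a) p + algebraMap _ _ c0 + u0 * x)
    (h1 : FreeAlgebra.lift (ZMod 2) (rho !![x, 0; 0, x + 1] !![a, 1; 1, a]) p 1 0 =
      algebraMap _ _ c1 + u1 * x) :
    ∀ w, cn p w ≠ 0 → ∀ e ∈ w.dropLast, e ≤ 1 := by
  rw [lift_eq] at h0 h1
  rw [lift_eq] at h0
  exact fun w hw => K_map x a (FreeAlgebra.lift (ZMod 2) fun s => if s then ah else xh)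
    (by simp [hx]) (by simp [ha]) R E (sp p) (fun v hv => hp v (mem_sp.1 hv)) c0 c1 u0 u1 h0 h1 w
    (mem_sp.2 hw)

end Pool.Agent.DD.K15
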