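import Pool.Agent.Lib.DD.A2Blue
import Pool.Agent.Lib.DD.K15b

/-! Lemma K in the form of the blueprint. -/

set_option autoImplicit false

noncomputable section

namespace Pool.Agent.DD.F.A2

open Pool.Agent.DR Pool.Agent.DD.S39 Pool.Agent.DD.F.GAM FreeAlgebra

attribute [local instance 100] LieRing.ofAssociativeRing

namespace KK

theorem univ (u : FA K2) : ∃ t, u = upp K2 (r K2 u) + t * ly K2 := by
  have h : ∀ l : List Bool, ∃ t, wrd K2 l = upp K2 (r K2 (wrd K2 l)) + t * ly K2 := by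
    intro l
    induction l with
    | nil => exact ⟨0, by simp [r_apply]⟩
    | cons s l ih =>
      obtain ⟨t, e⟩ := ih
      cases s
      · have e1 : r K2 (lx K2 * wrd K2 l) = ι K2 0 * r K2 (wrd K2 l) := by
          simp [r_apply, GAM.rho]
        refine ⟨lx K2 * t, ?_⟩
        rw [wrd_cons, ← lx, e1, map_mul, upp, lift_ι_apply, ← upp, E, mul_assoc, ← mul_add, ← e]
      · have e1 : r K2 (ly K2 * wrd K2 l) = DN K2 (r K2 (wrd K2 l)) := by
          simp [r_apply, GAM.rho]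
        refine ⟨ly K2 * t + upp K2 (r K2 (wrd K2 l)), ?_⟩
        rw [wrd_cons, ← ly, e1, upp_DN]
        linear_combination (norm := noncomm_ring) ly K2 * e
  have := Sp_map (p := fun _ => True) (LinearMap.range (LinearMap.mulRight K2 (ly K2)))
    (LinearMap.id - (upp K2).toLinearMap ∘ₗ r K2) (fun l _ => by
      obtain ⟨t, e⟩ := h l
      exact ⟨t, eq_sub_of_add_eq' e.symm⟩) (v := u) (mem_Sp.2 fun _ _ => trivial)
  obtain ⟨t, e⟩ := this
  exact ⟨t, eq_add_of_sub_eq' e.symm⟩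

theorem upp_lie {G : FN K2} (h : G ∈ LN K2) : IsLie (upp K2 G) := by
  refine LN_hom _ (upp K2) (fun s => ?_) h
  rw [upp, lift_ι_apply]
  induction s with
  | zero => exact LieSubalgebra.subset_lieSpan (Or.inl rfl)
  | succ s ih => exact LieSubalgebra.lie_mem _ (LieSubalgebra.subset_lieSpan (Or.inr rfl)) ih

def Tq : FA K2 →ₐ[K2] M2 (FA K2) := ev !![lx K2, 1; 1, lx K2] !![ly K2, 0; 0, ly K2 + 1]

theorem Tq_lie {f : FA K2} (h : IsLie f) : ∃ c0 c1 : K2,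
    Tq f 0 0 = f + algebraMap K2 _ c0 ∧ Tq f 1 0 = algebraMap K2 _ c1 := by
  let Dg : FA K2 →ₐ[K2] M2 (FA K2) := Matrix.scalarAlgHom (Fin 2) K2
  let Sc : M2 K2 →ₐ[K2] M2 (FA K2) := (Algebra.ofId K2 (FA K2)).mapMatrix
  have hc : ∀ m u, Commute (Sc m) (Dg u) := fun m u => by
    ext i j
    simp [Sc, Dg, Matrix.mul_diagonal, Matrix.diagonal_mul, Algebra.ofId_apply, Algebra.commutes]
  have e := h.add_ev (hc !![0, 1; 1, 0] (lx K2)) (hc _ (ly K2)) (hc !![0, 0; 0, 1] _) (hc _ _)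
  rw [← map_ev, ← map_ev, ev_self] at e
  have e1 : Dg (lx K2) + Sc !![0, 1; 1, 0] = !![lx K2, 1; 1, lx K2] := by
    ext i j; fin_cases i <;> fin_cases j <;> simp [Sc, Dg]
  have e2 : Dg (ly K2) + Sc !![0, 0; 0, 1] = !![ly K2, 0; 0, ly K2 + 1] := by
    ext i j; fin_cases i <;> fin_cases j <;> simp [Sc, Dg]
  rw [e1, e2, ← Tq] at e
  exact ⟨_, _, by rw [e]; simp [Sc, Dg, Algebra.ofId_apply]; rfl,
    by rw [e]; simp [Sc, Dg, Algebra.ofId_apply]; rfl⟩

theorem ro_eq (e : ℕ) : ro 1 e = K15.rho (ly K2) (lx K2) e := by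
  induction e with
  | zero => simp [ro, K15.rho, K15.dd]
  | succ e ih =>
    rw [ro, ih, K15.rho, K15.rho, K15.dd, K15.dd, K15.dd, gx, map_one, pow_succ']
    noncomm_ring

end KK

open KK

theorem st_K : St_K := by
  intro R E p hp hr
  obtain ⟨G, hG, c, e⟩ := mem_LC.1 hr
  obtain ⟨t, e1⟩ := univ (rh 1 p)
  obtain ⟨c0, c1, e2, e3⟩ := Tq_lie (upp_lie hG)
  rw [e, map_add, AlgHom.commutes] at e1
  have r1 : rh 1 p = ∑ w ∈ K15.sp p, (w.map (K15.rho (ly K2) (lx K2))).prod := by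
    rw [← K15.lift_eq, rh, funext ro_eq]
  have r2 : Tq (rh 1 p) = ∑ w ∈ K15.sp p,
      (w.map (K15.rho !![ly K2, 0; 0, ly K2 + 1] !![lx K2, 1; 1, lx K2])).prod := by
    rw [← K15.lift_eq, ← AlgHom.comp_apply]
    refine AlgHom.congr_fun (FreeAlgebra.hom_ext (funext fun s => ?_)) p
    simp [rh, ro_eq, K15.map_rho, Tq]
  have ty : Tq (ly K2) = !![ly K2, 0; 0, ly K2 + 1] := ev_y _ _
  refine mem_Sp.2 fun w hw => K15.K_map (ly K2) (lx K2) (ev K15.ah K15.xh) (ev_y _ _) (ev_x _ _)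
    R E (K15.sp p) (fun v hv => mem_Sp.1 hp v (K15.mem_sp.1 hv)) c0 c1 (Tq t 0 0 - t) (Tq t 1 0)
    ?_ ?_ w (K15.mem_sp.2 hw)
  · rw [← r1, ← r2, e1]
    simp [e2, ty, Matrix.mul_apply, Matrix.algebraMap_matrix_apply]
    noncomm_ring
  · rw [← r2, e1]
    simp [e3, ty, Matrix.mul_apply, Matrix.algebraMap_matrix_apply]

end Pool.Agent.DD.F.A2
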