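import Pool.Agent.Lib.DD.A2Blue

/-! The last slot at `η = 0`. -/

set_option autoImplicit false

noncomputable section

namespace Pool.Agent.DD.F.A2

open Pool.Agent.DR Pool.Agent.DD.S39 Pool.Agent.DD.DS Pool.Agent.DD.F64 Pool.Agent.DD.F.GAM
  TensorProduct FreeAlgebra Polynomial

namespace LAST

theorem rho_y : rho K2 (ly K2) = DN K2 := ev_y _ _

theorem r_mul (u v : FA K2) : r K2 (u * v) = rho K2 u (r K2 v) := by
  rw [r_apply, map_mul, Module.End.mul_apply, ← r_apply]

theorem r_gx (e : ℕ) : r K2 (gx 0 e) = 0 := by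
  rw [gx, map_zero, add_zero, ← pow_succ', pow_succ, r_mul, r_apply, rho_y, DN, der_one, map_zero]

theorem r_ro (e : ℕ) : r K2 (ro 0 e) = ι K2 e := by
  induction e with
  | zero => exact (rho_E 0 1).trans (mul_one _)
  | succ e ih => rw [ro, map_add, r_mul, r_mul, r_gx, map_zero, add_zero, ih, rho_y, DN, der_ι]

theorem rho_ro {s : ℕ} (hs : s ≤ 1) (m : FN K2) : rho K2 (ro 0 s) m = ι K2 s * m := by
  rw [← rho_E]
  obtain rfl | rfl : s = 0 ∨ s = 1 := by omega
  · rfl
  · simp only [ro, E, gx, map_zero, add_zero, pow_zero, mul_one, sub2]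

theorem word (l : List ℕ) (h : Sm l.dropLast) : r K2 (rh 0 (wrd K2 l)) = wrd K2 l := by
  induction l with
  | nil => simp [r_apply]
  | cons s l ih =>
    rw [wrd_cons, map_mul, rh, lift_ι_apply, ← rh]
    cases l with
    | nil => rw [wrd_nil, map_one, mul_one, mul_one, r_ro]
    | cons t l =>
      rw [List.dropLast_cons_cons] at h
      rw [r_mul, ih fun e he => h e (List.mem_cons_of_mem _ he), rho_ro (h s List.mem_cons_self)]

end LAST

theorem st_LAST : St_LAST := fun _ hp =>
  Sp_ext (r K2 ∘ₗ (rh 0).toLinearMap) LinearMap.id LAST.word hp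

end Pool.Agent.DD.F.A2
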