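import Pool.Agent.Lib.DD.A2Blue

/-! Lie polynomials in characteristic two are palindromic. -/

set_option autoImplicit false

noncomputable section

namespace Pool.Agent.DD.F.A2

open Pool.Agent.DR Pool.Agent.DD.S39 Pool.Agent.DD.DS Pool.Agent.DD.F64 Pool.Agent.DD.F.GAM
  TensorProduct FreeAlgebra Polynomial

attribute [local instance 100] LieRing.ofAssociativeRing

namespace PAL

/-- reversal of words -/
def rev : FN K2 →ₗ[K2] FN K2 :=
  (MulOpposite.opLinearEquiv K2 (M := FN K2)).symm.toLinearMap ∘ₗ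
    (lift K2 fun s : ℕ => MulOpposite.op (ι K2 s)).toLinearMap

theorem rev_mul (u v : FN K2) : rev (u * v) = rev v * rev u := by simp [rev]

theorem rev_ι (s : ℕ) : rev (ι K2 s) = ι K2 s := by simp [rev]

theorem rev_wrd (l : List ℕ) : rev (wrd K2 l) = wrd K2 l.reverse := by
  induction l with
  | nil => simp [rev]
  | cons s l ih => rw [wrd_cons, rev_mul, ih, rev_ι, List.reverse_cons, wrd_append]; simp

theorem cw_rev (w : List ℕ) (v : FN K2) : cw w.reverse (rev v) = cw w v :=
  wext (F := cw w.reverse ∘ₗ rev) (G := cw w) (fun l => by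
    rw [LinearMap.comp_apply, rev_wrd, cw_wrd, cw_wrd]
    simp only [List.reverse_inj]) v

theorem rev_lie {F : FN K2} (hF : F ∈ LN K2) : rev F = F := by
  refine LN_ind (p := fun v => rev v = v) rev_ι (map_zero _) ?_ ?_ ?_ hF
  · intro u v hu hv; rw [map_add, hu, hv]
  · intro c v hv; rw [map_smul, hv]
  · intro u v _ _ hu hv
    rw [map_sub, rev_mul, rev_mul, hu, hv, sub2, sub2, add_comm]

end PAL

theorem st_PAL : St_PAL := fun F hF w => by
  rw [← PAL.cw_rev w F, PAL.rev_lie hF]

end Pool.Agent.DD.F.A2
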