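import Pool.Agent.Lib.DD.A2Blue

/-! Row `RED1` of the blueprint for `St_A2`. -/

set_option autoImplicit false

noncomputable section

namespace Pool.Agent.DD.F.A2

open Pool.Agent.DR Pool.Agent.DD.S39 Pool.Agent.DD.DS Pool.Agent.DD.F64 Pool.Agent.DD.F.GAM
  TensorProduct FreeAlgebra Polynomial

attribute [local instance 100] LieRing.ofAssociativeRing

namespace RED1

variable (η : K2)

theorem d_x : der (dl η) (lx K2) = η • lx K2 := der_ι _ _

theorem d_y : der (dl η) (ly K2) = lx K2 := der_ι _ _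

theorem d_d (v : FA K2) : der (dl η) (der (dl η) v) = η • der (dl η) v := by
  refine S39.ind (P := fun v => der (dl η) (der (dl η) v) = η • der (dl η) v) (fun r => by simp)
    (by rw [d_x, map_smul, d_x]) (by rw [d_y, d_x]) (fun f g h1 h2 => ?_) (fun f g h1 h2 => ?_) v
  · rw [der_mul, map_add, der_mul, der_mul, h1, h2, add_assoc, ← add_assoc (der _ f * _), two,
      zero_add, smul_add, smul_mul_assoc, mul_smul_comm]
  · rw [map_add, map_add, h1, h2, smul_add]

theorem y_dm (v : FA K2) : Ym η * dm (dl η) v + dm (dl η) v * Ym η = dm (dl η) (der (dl η) v) := by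
  have e : ∀ v, dm (dl η) v 0 1 = der (dl η) v := fun _ => rfl
  ext i j
  fin_cases i <;> fin_cases j <;>
    simp [Ym, Matrix.mul_apply, Matrix.vecMul, dotProduct, dm_sh, e, d_d, two,
      Algebra.algebraMap_eq_smul_one, ← add_assoc]

theorem lie_d {f : FA K2} (h : IsLie f) : IsLie (der (dl η) f) := by
  have hx : IsLie (lx K2) := LieSubalgebra.subset_lieSpan (by simp)
  refine h.ind (P := fun f => IsLie (der (dl η) f)) ?_ ?_ ?_ ?_ ?_ ?_
  · rw [d_x]; exact LieSubalgebra.smul_mem _ _ hx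
  · rw [d_y]; exact hx
  · rw [map_zero]; exact zero_mem _
  · intro f g _ _ h1 h2; rw [map_add]; exact add_mem h1 h2
  · intro r f _ h1; rw [map_smul]; exact LieSubalgebra.smul_mem _ r h1
  · intro f g hf hg h1 h2
    rw [show der (dl η) (f * g - g * f) = ⁅der (dl η) f, g⁆ + ⁅f, der (dl η) g⁆ by
      rw [map_sub, der_mul, der_mul, Ring.lie_def, Ring.lie_def]; abel]
    exact add_mem (h1.lie hg) (hf.lie h2)

end RED1

open RED1 in
theorem st_RED1 : St_RED1 := by
  intro η ψ h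
  refine h.ind (P := fun ψ => ∃ (f : FA K2) (c : K2), IsLie f ∧ Ph η ψ = dm (dl η) f + c • Ym η)
    ⟨ly K2, 0, LieSubalgebra.subset_lieSpan (by simp), by simp [Ph]⟩
    ⟨0, 1, zero_mem _, by simp [Ph]⟩ ⟨0, 0, zero_mem _, by simp⟩ ?_ ?_ ?_
  · rintro _ _ - - ⟨f, c, hf, e⟩ ⟨g, c', hg, e'⟩
    exact ⟨f + g, c + c', add_mem hf hg, by rw [map_add, map_add, e, e', add_smul]; abel⟩
  · rintro r _ - ⟨f, c, hf, e⟩
    exact ⟨r • f, r * c, LieSubalgebra.smul_mem _ r hf, by
      rw [map_smul, map_smul, e, smul_add, mul_smul]⟩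
  · rintro _ _ - - ⟨f, c, hf, e⟩ ⟨g, c', hg, e'⟩
    refine ⟨⁅f, g⁆ + c • der (dl η) g - c' • der (dl η) f, 0, sub_mem (add_mem (hf.lie hg)
      (LieSubalgebra.smul_mem _ _ (lie_d η hg))) (LieSubalgebra.smul_mem _ _ (lie_d η hf)), ?_⟩
    simp only [Ring.lie_def, map_sub, map_add, map_mul, map_smul, e, e', ← y_dm, ← sub2 (Ym η * _),
      mul_add, add_mul, smul_mul_assoc, mul_smul_comm, smul_sub, smul_add, zero_smul,
      smul_comm c' c]
    abel

end Pool.Agent.DD.F.A2
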