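import Pool.Agent.Lib.DD.A2Blue

/-! Row `RED2` of the blueprint for `St_A2`. -/

set_option autoImplicit false

noncomputable section

namespace Pool.Agent.DD.F.A2

open Pool.Agent.DR Pool.Agent.DD.S39 Pool.Agent.DD.DS Pool.Agent.DD.F64 Pool.Agent.DD.F.GAM
  TensorProduct FreeAlgebra Polynomial

namespace RED2

theorem ph_x : Ph 0 (lx K2) = !![ly K2, lx K2; 0, ly K2] := by
  rw [Ph, ev_x]; simp [dm, dl, ly]

theorem ph_y : Ph 0 (ly K2) = !![0, 0; 1, 0] := by
  rw [Ph, ev_y]; simp [Ym]

theorem word (l : List Bool) :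
    wrd K2 l - sg (Ph 0 (wrd K2 l) 0 0) - ly K2 * sg (Ph 0 (wrd K2 l) 1 0) ∈ Y2 K2 := by
  induction l with
  | nil => simp
  | cons s l ih =>
    rw [wrd_cons, map_mul]
    cases s
    · have h := (Y2 K2).mul_mem_left (lx K2) _ ih
      have e : lx K2 * ly K2 = ly K2 * lx K2 + a2 K2 := by
        rw [a2, ← sub2]; abel
      rw [show ι K2 false = lx K2 from rfl, ph_x]
      simp only [Matrix.mul_apply, Fin.sum_univ_two, Matrix.of_apply, Matrix.cons_val',
        Matrix.cons_val_zero, Matrix.cons_val_one, Matrix.cons_val_fin_one, zero_mul, zero_add,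
        map_add, map_mul, sg, ev_x, ev_y] at h ⊢
      rw [mul_sub, mul_sub, ← mul_assoc, e, add_mul] at h
      rw [← mul_assoc]
      exact (congrArg (· ∈ Y2 K2) (by abel)).mp h
    · have h := (Y2 K2).add_mem ((Y2 K2).mul_mem_left (ly K2) _ ih)
        ((Y2 K2).mul_mem_right _ (sg (Ph 0 (wrd K2 l) 1 0))
          (TwoSidedIdeal.subset_span (s := {ly K2 * ly K2}) rfl))
      rw [show ι K2 true = ly K2 from rfl, ph_y]
      simp only [Matrix.mul_apply, Fin.sum_univ_two, Matrix.of_apply, Matrix.cons_val',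
        Matrix.cons_val_zero, Matrix.cons_val_one, Matrix.cons_val_fin_one, zero_mul, add_zero,
        map_zero, one_mul, sub_zero]
      rwa [mul_sub, mul_sub, ← mul_assoc, sub_add_cancel] at h

end RED2

theorem st_RED2 : St_RED2 := by
  intro w
  have hw : w ∈ Sp K2 fun _ => True := mem_Sp.2 fun _ _ => trivial
  induction hw using Submodule.span_induction with
  | mem x hx => obtain ⟨l, -, rfl⟩ := hx; exact RED2.word l
  | zero => simp
  | add x y _ _ hx hy =>
    have := (Y2 K2).add_mem hx hy
    simp only [map_add, Matrix.add_apply, mul_add]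
    exact (congrArg (· ∈ Y2 K2) (by abel)).mp this
  | smul c x _ hx =>
    have := (Y2 K2).mul_mem_left (algebraMap K2 _ c) _ hx
    rw [← Algebra.smul_def] at this
    simpa only [map_smul, Matrix.smul_apply, mul_smul_comm, smul_sub] using this

end Pool.Agent.DD.F.A2
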