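import Pool.Agent.Lib.DD.A2Blue

/-! Row `SMALL` of the blueprint for `St_A2`. -/

set_option autoImplicit false

noncomputable section

namespace Pool.Agent.DD.F.A2

open Pool.Agent.DR Pool.Agent.DD.S39 Pool.Agent.DD.DS Pool.Agent.DD.F64 Pool.Agent.DD.F.GAM
  TensorProduct FreeAlgebra Polynomial

attribute [local instance 100] LieRing.ofAssociativeRing

namespace SMALL

/-- kills the letters larger than one -/
def ret : FN K2 →ₐ[K2] FN K2 := lift K2 fun j => if j ≤ 1 then ι K2 j else 0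

theorem ret_wrd (l : List ℕ) (h : Sm l) : ret (wrd K2 l) = wrd K2 l := by
  induction l with
  | nil => simp
  | cons e l ih =>
    rw [wrd_cons, map_mul, ih fun a ha => h a (List.mem_cons_of_mem _ ha), ret, lift_ι_apply,
      if_pos (h e List.mem_cons_self)]

theorem ret_Sm {F : FN K2} (h : F ∈ Sp K2 Sm) : ret F = F :=
  Sp_ext ret.toLinearMap LinearMap.id (fun l hl => ret_wrd l hl) h

theorem upp_DN2 (w : FN K2) :
    upp K2 (DN K2 (DN K2 w)) = ly K2 * ly K2 * upp K2 w - upp K2 w * (ly K2 * ly K2) := by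
  have h1 := two (ly K2 * upp K2 w * ly K2)
  have h2 := two (upp K2 w * (ly K2 * ly K2))
  have e : upp K2 (DN K2 (DN K2 w)) = ly K2 * ly K2 * upp K2 w - upp K2 w * (ly K2 * ly K2) +
      (upp K2 w * (ly K2 * ly K2) + upp K2 w * (ly K2 * ly K2)) -
      (ly K2 * upp K2 w * ly K2 + ly K2 * upp K2 w * ly K2) := by
    rw [upp_DN, upp_DN]; noncomm_ring
  rw [e, h1, h2, add_zero, sub_zero]

/-- Lie polynomials in the `ad_x ^ j a` plus polynomials of degree at most two in `x` -/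
def LL : LieSubalgebra K2 (FA K2) where
  carrier := {u | ∃ G ∈ LN K2, ∃ c0 c1 c2 : K2,
    u = upp K2 G + c0 • (1 : FA K2) + c1 • ly K2 + c2 • (ly K2 * ly K2)}
  add_mem' := by
    rintro _ _ ⟨G, hG, c0, c1, c2, rfl⟩ ⟨G', hG', d0, d1, d2, rfl⟩
    refine ⟨G + G', add_mem hG hG', c0 + d0, c1 + d1, c2 + d2, ?_⟩
    simp only [map_add, add_smul]; abel
  zero_mem' := ⟨0, zero_mem _, 0, 0, 0, by simp⟩
  smul_mem' := by
    rintro a _ ⟨G, hG, c0, c1, c2, rfl⟩
    refine ⟨a • G, (LN K2).smul_mem a hG, a * c0, a * c1, a * c2, ?_⟩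
    simp only [map_smul, smul_add, mul_smul]
  lie_mem' := by
    rintro _ _ ⟨G, hG, c0, c1, c2, rfl⟩ ⟨G', hG', d0, d1, d2, rfl⟩
    refine ⟨⁅G, G'⁆ + (c1 • DN K2 G' + c2 • DN K2 (DN K2 G')) -
      (d1 • DN K2 G + d2 • DN K2 (DN K2 G)), sub_mem (add_mem ((LN K2).lie_mem hG hG')
        (add_mem ((LN K2).smul_mem _ (DN_LN hG')) ((LN K2).smul_mem _ (DN_LN (DN_LN hG')))))
        (add_mem ((LN K2).smul_mem _ (DN_LN hG)) ((LN K2).smul_mem _ (DN_LN (DN_LN hG)))),
      0, 0, 0, ?_⟩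
    simp only [Ring.lie_def, map_add, map_sub, map_smul, map_mul, upp_DN2]
    simp only [upp_DN, mul_add, add_mul, smul_mul_assoc, mul_smul_comm, one_mul, mul_one, smul_sub,
      smul_add, zero_smul, add_zero, smul_smul, mul_assoc, mul_comm c0, mul_comm c1, mul_comm c2]
    abel

theorem r_LL {u : FA K2} (h : u ∈ LL) : r K2 u ∈ LC := by
  obtain ⟨G, hG, c0, c1, c2, rfl⟩ := h
  have h0 : r K2 1 = 1 := by simp [r_apply]
  have hy : rho K2 (ly K2) = DN K2 := ev_y _ _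
  have h1 : r K2 (ly K2) = 0 := by rw [r_apply, hy]; simp [DN]
  have h2 : r K2 (ly K2 * ly K2) = 0 := by rw [r_apply, map_mul, hy]; simp [DN]
  refine mem_LC.2 ⟨G, hG, c0, ?_⟩
  simp only [map_add, map_smul, r_upp, h0, h1, h2, smul_zero, add_zero,
    Algebra.algebraMap_eq_smul_one]

theorem zh0 (η : K2) : Zh η (ι K2 0) ∈ LL := by
  refine ⟨ι K2 0, ι_LN 0, η * η, η, 0, ?_⟩
  simp only [Zh, upp, lift_ι_apply, ro, gx, E, pow_zero, mul_one, Algebra.algebraMap_eq_smul_one,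
    smul_add, smul_smul, zero_smul, add_zero]
  abel

theorem zh1 (η : K2) : Zh η (ι K2 1) ∈ LL := by
  refine ⟨ι K2 1 + η • ι K2 0, add_mem (ι_LN 1) ((LN K2).smul_mem _ (ι_LN 0)), 0, η * η, η, ?_⟩
  simp only [Zh, upp, map_add, map_smul, lift_ι_apply, ro, gx, E, pow_zero, pow_one, mul_one,
    Algebra.algebraMap_eq_smul_one, smul_add, smul_smul, zero_smul, add_zero, mul_add, add_mul,
    smul_mul_assoc, mul_smul_comm, one_mul, sub2]
  abel

end SMALL

open SMALL in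
theorem st_SMALL : St_SMALL := by
  intro η F hF hS
  rw [← ret_Sm hS]
  refine r_LL (LN_hom LL ((Zh η).comp ret) (fun s => ?_) hF)
  rw [AlgHom.comp_apply, ret, lift_ι_apply]
  match s with
  | 0 => exact zh0 η
  | 1 => exact zh1 η
  | k + 2 => rw [if_neg (by omega), map_zero]; exact zero_mem _

end Pool.Agent.DD.F.A2
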