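import Pool.Agent.Lib.DD.A2Blue

/-! The row `STF`: the stuffle relation evaluated on a character. -/

set_option autoImplicit false

noncomputable section

namespace Pool.Agent.DD.F.A2

open Pool.Agent.DR Pool.Agent.DD.S39 Pool.Agent.DD.DS Pool.Agent.DD.F64 Pool.Agent.DD.F.GAM
  TensorProduct FreeAlgebra Polynomial

namespace STF

def chi (η : K2) : FN K2 →ₐ[K2] K2 := lift K2 fun k => if k = 0 then η else 0

def Phi (η : K2) : FN K2 ⊗[K2] FN K2 →ₐ[K2] FA K2 :=
  Algebra.TensorProduct.lift ((Algebra.ofId K2 (FA K2)).comp (chi η)) (Yh η)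
    fun x y => Algebra.commutes (chi η x) (Yh η y)

theorem Phi_tmul (η : K2) (u v : FN K2) : Phi η (u ⊗ₜ v) = chi η u • Yh η v :=
  (Algebra.TensorProduct.lift_tmul _ _ _ u v).trans (Algebra.smul_def (chi η u) (Yh η v)).symm

theorem gx_succ (η : K2) (e : ℕ) : gx η (e + 1) = ly K2 * gx η e := by
  rw [gx, gx, ← mul_assoc, mul_add, ← Algebra.commutes, ← add_mul, mul_assoc, pow_succ']

theorem ro_eq (η : K2) (e : ℕ) : ro η e = der (dl η) (gx η e) := by
  induction e with
  | zero => simp [ro, gx, ly, dl]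
  | succ e ih =>
    rw [gx_succ, der_mul, ← ih, ro, add_comm]
    simp [ly, dl]

theorem Yh_zero (η : K2) : Yh η (ι K2 0) = algebraMap K2 _ η := by
  simp [Yh, Algebra.algebraMap_eq_smul_one]

theorem Phi_dst (η : K2) (p : FN K2) : Phi η (dst K2 p) = Zh η (ka K2 p) := by
  refine AlgHom.congr_fun (FreeAlgebra.hom_ext (f := (Phi η).comp (dst K2))
    (g := (Zh η).comp (ka K2)) (funext fun n => ?_)) p
  have h : Phi η (dst K2 (ι K2 n)) = Yh η (ι K2 n) + η • Yh η (yy K2 n) := by
    rw [dst, lift_ι_apply, map_sum, Finset.Nat.sum_antidiagonal_succ, Phi_tmul]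
    cases n with
    | zero => simp [Phi_tmul, yy, chi]
    | succ n => simp [Finset.Nat.sum_antidiagonal_succ, Phi_tmul, yy, chi]
  change Phi η (dst K2 (ι K2 n)) = Zh η (ka K2 (ι K2 n))
  rw [h, GAM.ka, lift_ι_apply]
  cases n with
  | zero =>
    rw [Yh_zero, yy, kf, map_one, map_zero, Algebra.algebraMap_eq_smul_one, two]
  | succ e =>
    rw [yy, kf, Zh, lift_ι_apply, ro_eq, gx, add_mul, ← pow_succ', ← Algebra.smul_def, Yh,
      lift_ι_apply, lift_ι_apply, map_add, map_smul, smul_add, smul_add]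
    abel

theorem Phi_jj (η : K2) (c : K2[X] ⊗[K2] K2[X]) :
    ∃ d : K2, Phi η (Algebra.TensorProduct.map jj jj c) = algebraMap K2 _ d := by
  induction c using TensorProduct.induction_on with
  | zero => exact ⟨0, by simp⟩
  | tmul a b =>
    refine ⟨chi η (jj a) * eval η b, ?_⟩
    rw [Algebra.TensorProduct.map_tmul, Phi_tmul, jj, ← aeval_algHom_apply (Yh η), Yh_zero,
      aeval_algebraMap_apply_eq_algebraMap_eval, Algebra.smul_def, map_mul]
  | add a b ha hb =>
    obtain ⟨d, hd⟩ := ha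
    obtain ⟨d', hd'⟩ := hb
    exact ⟨d + d', by rw [map_add, map_add, hd, hd', map_add]⟩

end STF

open STF in
theorem st_STF : St_STF := by
  rintro η p ⟨c, h⟩
  obtain ⟨d, hd⟩ := Phi_jj η c
  refine ⟨chi η p + d, ?_⟩
  rw [← Phi_dst, h, map_add, map_add, hd, Phi_tmul, Phi_tmul, map_one, map_one, one_smul, map_add,
    Algebra.algebraMap_eq_smul_one (chi η p)]
  abel

end Pool.Agent.DD.F.A2
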