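import Pool.Agent.Lib.DD.A2Blue

set_option autoImplicit false

noncomputable section

namespace Pool.Agent.DD.F.A2

open Pool.Agent.DR Pool.Agent.DD.S39 Pool.Agent.DD.DS Pool.Agent.DD.F64 Pool.Agent.DD.F.GAM
  TensorProduct FreeAlgebra Polynomial

namespace SUB

theorem k2 : ∀ c : K2, c = 0 ∨ c = 1 := by decide

theorem gen {e : ℕ} (he : e ≤ 1) :
    sg (upp K2 (ι K2 e)) ∈ Subring.closure {a2 K2, b2 K2} := by
  have ha : a2 K2 ∈ Subring.closure {a2 K2, b2 K2} := Subring.subset_closure (by simp)
  have hb : b2 K2 ∈ Subring.closure {a2 K2, b2 K2} := Subring.subset_closure (by simp)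
  interval_cases e
  · have : sg (upp K2 (ι K2 0)) = a2 K2 := by simp [upp, E, sg]
    rwa [this]
  · have : sg (upp K2 (ι K2 1)) = -b2 K2 := by simp [upp, E, sg, b2]
    rw [this]
    exact neg_mem hb

theorem word (l : List ℕ) (hl : Sm l) :
    sg (upp K2 (wrd K2 l)) ∈ Subring.closure {a2 K2, b2 K2} := by
  induction l with
  | nil => simp
  | cons e l ih =>
    rw [wrd_cons, map_mul, map_mul]
    exact mul_mem (gen (hl e List.mem_cons_self)) (ih fun x hx => hl x (List.mem_cons_of_mem _ hx))

end SUB

theorem st_SUB : St_SUB := by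
  intro g hg
  induction hg using Submodule.span_induction with
  | mem x hx =>
    obtain ⟨l, hl, rfl⟩ := hx
    exact SUB.word l hl
  | zero => simp
  | add x y _ _ hx hy =>
    rw [map_add, map_add]
    exact add_mem hx hy
  | smul c x _ hx =>
    rcases SUB.k2 c with rfl | rfl
    · simp
    · rwa [one_smul]

end Pool.Agent.DD.F.A2
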