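import Pool.Agent.Lib.DD.A2Blue

/-! The top depth part. -/

set_option autoImplicit false

noncomputable section

namespace Pool.Agent.DD.F.A2

open Pool.Agent.DR Pool.Agent.DD.S39 Pool.Agent.DD.DS Pool.Agent.DD.F64 Pool.Agent.DD.F.GAM
  Pool.Agent.DD.H56 TensorProduct FreeAlgebra Polynomial

attribute [local instance 100] LieRing.ofAssociativeRing

namespace TOP

theorem lx_H : lx K2 ∈ H K2 (wB 1 0) 1 := H_ι (wB 1 0) false

theorem ly_H : ly K2 ∈ H K2 (wB 1 0) 0 := H_ι (wB 1 0) true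

theorem gx_H (η : K2) (e : ℕ) : gx η e ∈ H K2 (wB 1 0) 0 := by
  have h : ly K2 ^ e ∈ H K2 (wB 1 0) 0 := by
    induction e with
    | zero => simpa using H_one (wB 1 0)
    | succ e ih =>
      have := H_mul ih ly_H
      rwa [← pow_succ, add_zero] at this
  have h2 : algebraMap K2 (FA K2) η ∈ H K2 (wB 1 0) 0 := by
    rw [Algebra.algebraMap_eq_smul_one]
    exact Submodule.smul_mem _ _ (H_one _)
  have := H_mul (add_mem ly_H h2) h
  rwa [add_zero] at this

theorem ro_H (η : K2) (e : ℕ) : ro η e ∈ H K2 (wB 1 0) 1 := by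
  induction e with
  | zero => exact lx_H
  | succ e ih =>
    have h1 := H_mul ly_H ih
    have h2 := H_mul lx_H (gx_H η e)
    rw [zero_add] at h1
    rw [add_zero] at h2
    rw [ro]
    exact add_mem h1 h2

theorem key (η : K2) (w : List ℕ) : rh η (wrd K2 w) ∈ H K2 (wB 1 0) w.length ∧
    Zh η (wrd K2 w) - rh η (wrd K2 w) ∈ Sp K2 fun o => (o.map (wB 1 0)).sum < w.length := by
  induction w with
  | nil => exact ⟨by simpa using H_one (wB 1 0), by simp⟩
  | cons s w ih =>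
    have e1 : rh η (wrd K2 (s :: w)) = ro η s * rh η (wrd K2 w) := by simp [rh]
    have e2 : Zh η (wrd K2 (s :: w)) = (ro η s + η • gx η s) * Zh η (wrd K2 w) := by simp [Zh]
    have e3 : ∀ a b z y : FA K2, (a + b) * z - a * y = a * (z - y) + (b * (z - y) + b * y) :=
      fun a b z y => by noncomm_ring
    have hg : η • gx η s ∈ H K2 (wB 1 0) 0 := Submodule.smul_mem _ _ (gx_H η s)
    rw [e1, e2, e3, List.length_cons]
    refine ⟨add_comm 1 w.length ▸ H_mul (ro_H η s) ih.1, add_mem ?_ (add_mem ?_ ?_)⟩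
    · exact Sp_mul (fun l m hl hm => by
        rw [List.map_append, List.sum_append]; omega) (H_eq (K := K2) _ _ ▸ ro_H η s) ih.2
    · exact Sp_mul (fun l m hl hm => by
        rw [List.map_append, List.sum_append]; omega) (H_eq (K := K2) _ _ ▸ hg) ih.2
    · exact Sp_mul (fun l m hl hm => by
        rw [List.map_append, List.sum_append]; omega) (H_eq (K := K2) _ _ ▸ hg)
        (H_eq (K := K2) _ _ ▸ ih.1)

theorem pr_r (R : ℕ) (v : FA K2) : pr dep R (r K2 v) = r K2 (pr (wB 1 0) R v) := by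
  refine wext (F := pr dep R ∘ₗ r K2) (G := r K2 ∘ₗ pr (wB 1 0) R) (fun l => ?_) v
  have h := r_H (K := K2) (wrd_H (wB 1 0) l)
  rw [show (fun i : ℕ => 1 + i * 0) = dep from rfl] at h
  rw [LinearMap.comp_apply, LinearMap.comp_apply, pr_H R h, pr_H R (wrd_H (wB 1 0) l)]
  split_ifs <;> simp

theorem pr_Zh (η : K2) (R : ℕ) {g : FN K2} (hg : g ∈ Sp K2 fun l => l.length ≤ R) :
    pr (wB 1 0) R (Zh η g) = rh η (pr dep R g) := by
  refine Sp_ext (pr (wB 1 0) R ∘ₗ (Zh η).toLinearMap) ((rh η).toLinearMap ∘ₗ pr dep R)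
    (fun l hl => ?_) hg
  have h0 : pr (wB 1 0) R (Zh η (wrd K2 l) - rh η (wrd K2 l)) = 0 :=
    Sp_ext (pr (wB 1 0) R) 0 (fun o ho => by
      rw [pr_H R (wrd_H (wB 1 0) o), if_neg (by omega)]; rfl) (key η l).2
  rw [map_sub, sub_eq_zero] at h0
  change pr (wB 1 0) R (Zh η (wrd K2 l)) = rh η (pr dep R (wrd K2 l))
  rw [h0, pr_H R (key η l).1, pr_H R (wrd_H dep l), dep_sum]
  split_ifs <;> simp

theorem pr_LN (R : ℕ) {v : FN K2} (hv : v ∈ LN K2) : pr dep R v ∈ LN K2 := by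
  have h1 : Submodule.span K2 {v | ∃ n, Mon dep (ι K2) n v} ≤
      (LN K2).toSubmodule.comap (pr dep R) := by
    refine Submodule.span_le.2 ?_
    rintro u ⟨m, hu⟩
    change pr dep R u ∈ LN K2
    rw [pr_H R (Mon_H hu)]
    split_ifs
    · exact hu.mem
    · exact zero_mem _
  exact h1 ((mem_lieSpan_iff dep _ v).1 hv)

theorem pr_LC (R : ℕ) {v : FN K2} (hv : v ∈ LC) : pr dep R v ∈ LC := by
  obtain ⟨F, hF, c, rfl⟩ := mem_LC.1 hv
  rw [map_add, Algebra.algebraMap_eq_smul_one, map_smul, pr_H R (H_one dep)]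
  refine add_mem (mem_LC.2 ⟨_, pr_LN R hF, 0, by simp⟩) (Submodule.smul_mem _ _ ?_)
  split_ifs
  · exact mem_LC.2 ⟨0, zero_mem _, 1, by simp⟩
  · exact zero_mem _

end TOP

theorem st_TOP : St_TOP := fun η R g hg h => by
  rw [← TOP.pr_Zh η R hg, ← TOP.pr_r]
  exact TOP.pr_LC R h

end Pool.Agent.DD.F.A2
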