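import Pool.Agent.Lib.DD.A2Blue

/-! Row `YW` of the blueprint for `St_A2`. -/

set_option autoImplicit false

noncomputable section

namespace Pool.Agent.DD.F.A2

open Pool.Agent.DR Pool.Agent.DD.S39 Pool.Agent.DD.DS Pool.Agent.DD.F64 Pool.Agent.DD.F.GAM
  TensorProduct FreeAlgebra Polynomial

attribute [local instance 100] LieRing.ofAssociativeRing

namespace YW

theorem r_mul (u v : FA K2) : r K2 (u * v) = GAM.rho K2 u (r K2 v) := by
  rw [r_apply, r_apply, map_mul]; rfl

theorem r_pow (k : ℕ) : r K2 (ly K2 ^ (k + 1)) = 0 := by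
  have : r K2 (ly K2) = 0 := by rw [r_apply, GAM.rho, ev_y]; simp [DN]
  rw [pow_succ, r_mul, this, map_zero]

theorem Ph_x (η : K2) : Ph η (ι K2 false) = dm (dl η) (ly K2) := ev_x _ _
theorem Ph_y (η : K2) : Ph η (ι K2 true) = Ym η := ev_y _ _

theorem key (η : K2) (w : List Bool) : ∀ k : ℕ,
    r K2 ((dm (dl η) (ly K2 ^ k) * Ph η (wrd K2 w)) 0 0) = r K2 (Yh η (yw K2 k w)) := by
  induction w with
  | nil =>
    intro k
    rw [wrd_nil, map_one, mul_one, (dm_sh _ _).1, yw]
    cases k with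
    | zero => simp
    | succ k => simp [r_pow]
  | cons s w ih =>
    intro k
    cases s with
    | false => rw [wrd_cons, map_mul, Ph_x, ← mul_assoc, ← map_mul, ← pow_succ, ih, yw]
    | true =>
      have h0 := ih 0
      rw [pow_zero, map_one, one_mul] at h0
      have h1 : (dm (dl η) (ly K2 ^ k) * (Ym η * Ph η (wrd K2 w))) 0 0 =
          Yh η (yy K2 (k + 1)) * Ph η (wrd K2 w) 0 0 := by
        have e : dm (dl η) (ly K2 ^ k) 0 1 = der (dl η) (ly K2 ^ k) := rfl
        rw [← mul_assoc, Matrix.mul_apply, Fin.sum_univ_two, Matrix.mul_apply, Matrix.mul_apply,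
          Fin.sum_univ_two, Fin.sum_univ_two, (dm_sh _ _).1, e]
        simp [Ym, Yh, yy, Algebra.smul_def, Algebra.commutes, add_comm]
      rw [wrd_cons, map_mul, Ph_y, h1, yw, map_mul (Yh η), r_mul, r_mul, h0]

end YW

theorem st_YW : St_YW := by
  intro η w
  refine wext (F := r K2 ∘ₗ (Matrix.entryLinearMap K2 _ 0 0) ∘ₗ (Ph η).toLinearMap)
    (G := r K2 ∘ₗ (Yh η).toLinearMap ∘ₗ piY) (fun l => ?_) w
  have h := YW.key η l 0
  rw [pow_zero, map_one, one_mul, ← piY_word] at h
  exact h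

end Pool.Agent.DD.F.A2
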