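import Pool.Agent.Lib.DD.A2_DESC
import Pool.Agent.Lib.DD.A2_K
import Pool.Agent.Lib.DD.A2_RED1
import Pool.Agent.Lib.DD.A2_RED2
import Pool.Agent.Lib.DD.A2_YW
import Pool.Agent.Lib.DD.A2_STF
import Pool.Agent.Lib.DD.A2_HOM
import Pool.Agent.Lib.DD.A2_TOP
import Pool.Agent.Lib.DD.A2_LAST
import Pool.Agent.Lib.DD.A2_PAL
import Pool.Agent.Lib.DD.A2_SMALL
import Pool.Agent.Lib.DD.A2_DEP1
import Pool.Agent.Lib.DD.A2_SUB
import Pool.Agent.Lib.DD.A2_LIN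

/-! The statement `St_A2`. -/

namespace Pool.Agent.DD.F

open A2 in
theorem st_A2 : St_A2 :=
  a2_of st_RED1 st_RED2 st_YW st_STF st_HOM (st_DESC st_TOP st_K st_LAST st_PAL st_SMALL) st_LAST
    st_PAL st_DEP1 st_SUB st_LIN

end Pool.Agent.DD.F
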