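import Pool.Agent.Lib.DD.A2Blue
import Pool.Agent.Lib.DD.K15b

/-! Lemma K in the form of the blueprint. -/

set_option autoImplicit false

noncomputable section

namespace Pool.Agent.DD.F.A2

open Pool.Agent.DR Pool.Agent.DD.S39 Pool.Agent.DD.DS Pool.Agent.DD.F64 Pool.Agent.DD.F.GAM
  TensorProduct FreeAlgebra Polynomial

attribute [local instance 100] LieRing.ofAssociativeRing

namespace KB15

theorem univ (u : FA K2) : ∃ t, u = upp K2 (r K2 u) + t * ly K2 := by
  have h : ∀ u : FA K2, ∀ v t, v = upp K2 (r K2 v) + t * ly K2 →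
      ∃ t', u * v = upp K2 (r K2 (u * v)) + t' * ly K2 := by
    intro u
    induction u using S39.ind with
    | h0 c =>
      intro v t e
      refine ⟨c • t, ?_⟩
      rw [← Algebra.smul_def, map_smul, map_smul, smul_mul_assoc, ← smul_add, ← e]
    | hx =>
      intro v t e
      refine ⟨lx K2 * t, ?_⟩
      have : r K2 (lx K2 * v) = ι K2 0 * r K2 v := by simp [r_apply, GAM.rho]
      rw [this, map_mul, mul_assoc]
      have e0 : upp K2 (ι K2 0) = lx K2 := by simp [upp, E]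
      rw [e0, ← mul_add, ← e]
    | hy =>
      intro v t e
      refine ⟨upp K2 (r K2 v) + ly K2 * t, ?_⟩
      have : r K2 (ly K2 * v) = DN K2 (r K2 v) := by simp [r_apply, GAM.rho]
      rw [this, upp_DN]
      conv_lhs => rw [e]
      noncomm_ring
    | hm f g h1 h2 =>
      intro v t e
      obtain ⟨t', e'⟩ := h2 v t e
      rw [mul_assoc]; exact h1 _ t' e'
    | ha f g h1 h2 =>
      intro v t e
      obtain ⟨t1, e1⟩ := h1 v t e
      obtain ⟨t2, e2⟩ := h2 v t e
      refine ⟨t1 + t2, ?_⟩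
      rw [add_mul, map_add, map_add, add_mul, add_add_add_comm, ← e1, ← e2]
  simpa using h u 1 0 (by simp [r_apply])

/-- The tensor product with the two-dimensional module. -/
def TT : FA K2 →ₐ[K2] M2 (FA K2) :=
  ev !![lx K2, 1; 1, lx K2] !![ly K2, 0; 0, ly K2 + 1]

theorem lie_T {f : FA K2} (hf : IsLie f) : ∃ c00 c01 c10 c11 : K2,
    TT f = !![f + algebraMap _ _ c00, algebraMap _ _ c01; algebraMap _ _ c10,
      f + algebraMap _ _ c11] := by
  refine hf.ind (P := fun f => ∃ c00 c01 c10 c11 : K2, TT f = !![f + algebraMap _ _ c00,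
    algebraMap _ _ c01; algebraMap _ _ c10, f + algebraMap _ _ c11]) ?_ ?_ ?_ ?_ ?_ ?_
  · exact ⟨0, 1, 1, 0, by simp [TT]⟩
  · exact ⟨0, 0, 0, 1, by simp [TT]⟩
  · exact ⟨0, 0, 0, 0, by ext i j : 1; fin_cases i <;> fin_cases j <;> simp⟩
  · rintro f g - - ⟨a, b, c, d, e⟩ ⟨a', b', c', d', e'⟩
    refine ⟨a + a', b + b', c + c', d + d', ?_⟩
    rw [map_add, e, e', K15.add2]
    simp only [map_add, add_add_add_comm]
  · rintro s f - ⟨a, b, c, d, e⟩
    refine ⟨s * a, s * b, s * c, s * d, ?_⟩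
    rw [map_smul, e]
    ext i j : 1
    fin_cases i <;> fin_cases j <;> simp [Algebra.smul_def, mul_add]
  · rintro f g - - ⟨a, b, c, d, e⟩ ⟨a', b', c', d', e'⟩
    refine ⟨b * c' - b' * c, a * b' + b * d' - (a' * b + b' * d), c * a' + d * c' - (c' * a + d' * c),
      c * b' - c' * b, ?_⟩
    rw [map_sub, map_mul, map_mul, e, e', Matrix.mul_fin_two, Matrix.mul_fin_two]
    ext i j : 1
    fin_cases i <;> fin_cases j <;>
    · simp [Algebra.algebraMap_eq_smul_one, mul_add, add_mul, smul_smul]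
      module

theorem lie_E (i : ℕ) : IsLie (E K2 i) := by
  induction i with
  | zero => exact D64.lie_x
  | succ i ih => exact LieSubalgebra.lie_mem _ D64.lie_y ih

theorem ro_eq (e : ℕ) : ro 1 e = K15.rho (ly K2) (lx K2) e := by
  induction e with
  | zero => simp [ro, K15.rho, K15.dd]
  | succ e ih =>
    rw [ro, ih, gx, map_one]
    simp only [K15.rho, K15.dd, pow_succ' (ly K2) e]
    noncomm_ring

end KB15

theorem st_K15 : St_K := by
  intro R E p hp hr
  obtain ⟨G, hG, c, e⟩ := mem_LC.1 hr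
  obtain ⟨t, ht⟩ := KB15.univ (rh 1 p)
  obtain ⟨c00, c01, c10, c11, hT⟩ := KB15.lie_T (f := upp K2 G)
    (LN_hom _ (upp K2) (fun s => by rw [upp, lift_ι_apply]; exact KB15.lie_E s) hG)
  rw [e, map_add, AlgHom.commutes] at ht
  have h1 : rh 1 p = ∑ w ∈ K15.sp p, (w.map (K15.rho (ly K2) (lx K2))).prod := by
    rw [rh, funext KB15.ro_eq, K15.lift_eq]
  have h2 : KB15.TT (rh 1 p) = ∑ w ∈ K15.sp p,
      (w.map (K15.rho !![ly K2, 0; 0, ly K2 + 1] !![lx K2, 1; 1, lx K2])).prod := by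
    rw [h1]
    simp only [map_sum, map_list_prod, List.map_map, Function.comp_def, K15.map_rho, KB15.TT, ev_x,
      ev_y]
  have h3 : KB15.TT (ly K2) = !![ly K2, 0; 0, ly K2 + 1] := ev_y _ _
  refine mem_Sp.2 fun w hw => K15.K_map (ly K2) (lx K2) (ev K15.ah K15.xh) (ev_y _ _) (ev_x _ _) R E
    (K15.sp p) (fun v hv => mem_Sp.1 hp v (K15.mem_sp.1 hv)) c00 c10 (t + KB15.TT t 0 0)
    (KB15.TT t 1 0) ?_ ?_ w (K15.mem_sp.2 hw)
  · rw [← h2, ← h1, ht, map_add, map_add, map_mul, hT, h3, AlgHom.commutes]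
    simp [Matrix.mul_apply, Matrix.algebraMap_matrix_apply, add_mul]
    rw [← zero_add (KB15.TT t 0 0 * ly K2), ← two (t * ly K2)]
    simp only [← add_assoc]
    abel
  · rw [← h2, ht, map_add, map_add, map_mul, hT, h3, AlgHom.commutes]
    simp [Matrix.mul_apply, Matrix.algebraMap_matrix_apply]

end Pool.Agent.DD.F.A2
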