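import Pool.Agent.Lib.DD.A2Blue

/-! Row `KC`: leading terms of the entry `0 0` on small words. -/

set_option autoImplicit false

noncomputable section

namespace Pool.Agent.DD.F.A2

open Pool.Agent.DR Pool.Agent.DD.S39 Pool.Agent.DD.DS Pool.Agent.DD.F64 Pool.Agent.DD.F.GAM
  TensorProduct FreeAlgebra Polynomial

attribute [local instance 100] LieRing.ofAssociativeRing

namespace KC

/-- `u` is the word `l` plus longer words -/
def Ld (u : FA K2) (l : List Bool) : Prop :=
  u - wrd K2 l ∈ Sp K2 fun o : List Bool => l.length + 1 ≤ o.length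

theorem Ld.mem {u : FA K2} {l : List Bool} (h : Ld u l) :
    u ∈ Sp K2 fun o : List Bool => l.length ≤ o.length := by
  have := Submodule.add_mem _ (Sp_mono (q := fun o : List Bool => l.length ≤ o.length)
    (fun o ho => Nat.le_of_succ_le ho) h) (wrd_Sp (l := l) le_rfl)
  rwa [sub_add_cancel] at this

theorem Ld.mul {u v : FA K2} {l m : List Bool} (hu : Ld u l) (hv : Ld v m) :
    Ld (u * v) (l ++ m) := by
  have e : u * v - wrd K2 (l ++ m) = (u - wrd K2 l) * v + wrd K2 l * (v - wrd K2 m) := by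
    rw [wrd_append]; noncomm_ring
  unfold Ld
  rw [e]
  refine Submodule.add_mem _ (Sp_mul (fun a b ha hb => ?_) hu hv.mem)
    (Sp_mul (p := fun o : List Bool => l.length ≤ o.length) (fun a b ha hb => ?_)
      (wrd_Sp le_rfl) hv)
  all_goals simp only [List.length_append]; omega

theorem Ld.cw {u : FA K2} {l w : List Bool} (h : Ld u l) (hw : w.length ≤ l.length) :
    cw w u = if l = w then 1 else 0 := by
  have : A2.cw w (u - wrd K2 l) = 0 := by
    by_contra hn
    have := mem_Sp.1 h w hn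
    omega
  rw [map_sub, sub_eq_zero] at this
  rw [this, cw_wrd]

theorem Ld.add {u v : FA K2} {l : List Bool} (h : Ld u l)
    (hv : v ∈ Sp K2 fun o : List Bool => l.length + 1 ≤ o.length) : Ld (v + u) l := by
  unfold Ld
  rw [add_sub_assoc]
  exact Submodule.add_mem _ hv h

theorem ld_wrd (l : List Bool) : Ld (wrd K2 l) l := by
  unfold Ld
  rw [sub_self]
  exact Submodule.zero_mem _

theorem lx_eq : lx K2 = wrd K2 [false] := by simp [lx]

theorem ly_eq : ly K2 = wrd K2 [true] := by simp [ly]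

theorem lx_pow (k : ℕ) : lx K2 ^ k = wrd K2 (List.replicate k false) := by
  induction k with
  | zero => simp
  | succ k ih => rw [pow_succ', ih, List.replicate_succ, wrd_cons]; rfl

theorem ld_pow (k : ℕ) : Ld ((1 + lx K2) ^ k) [] := by
  induction k with
  | zero => exact ld_wrd []
  | succ k ih =>
    rw [pow_succ]
    refine ih.mul (m := []) ?_
    rw [add_comm, lx_eq]
    exact (ld_wrd []).add (wrd_Sp (by simp))

theorem ld_Mm (e : ℕ) : Ld (Mm (e + 1) 0 0) [false] := by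
  have e1 : Mm (e + 1) 0 0 =
      lx K2 ^ (e + 1) * ly K2 + lx K2 ^ (e + 2) + lx K2 * (1 + lx K2) ^ (e + 1) := rfl
  rw [e1]
  have a : Ld (lx K2 * (1 + lx K2) ^ (e + 1)) ([false] ++ []) :=
    Ld.mul (by rw [lx_eq]; exact ld_wrd _) (ld_pow _)
  refine Ld.add a (Submodule.add_mem _ ?_ ?_)
  · rw [lx_pow, ly_eq, ← wrd_append]
    exact wrd_Sp (by simp)
  · rw [lx_pow]
    exact wrd_Sp (by simp)

theorem Mm_01 {e : ℕ} (he : e ≤ 1) : Mm e 0 1 = 0 := by
  rcases e with _ | _ | e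
  · rfl
  · have e1 : Mm (0 + 1) 0 1 = lx K2 ^ (0 + 1) + lx K2 * (1 + lx K2) ^ 0 := rfl
    rw [e1, zero_add, pow_one, pow_zero, mul_one, two]
  · omega

theorem Mm_00 {e : ℕ} (he : e ≤ 1) :
    Ld (Mm e 0 0) [decide (e = 0)] ∧ Mm e 0 0 ∈ Sp K2 fun o : List Bool => o.count false = e := by
  rcases e with _ | _ | e
  · have e1 : Mm 0 0 0 = wrd K2 [true] := ly_eq
    rw [e1]
    exact ⟨ld_wrd _, wrd_Sp (by simp)⟩
  · refine ⟨ld_Mm 0, ?_⟩
    have e1 : Mm (0 + 1) 0 0 =
      lx K2 ^ (0 + 1) * ly K2 + lx K2 ^ (0 + 2) + lx K2 * (1 + lx K2) ^ (0 + 1) := rfl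
    have e2 : Mm (0 + 1) 0 0 = lx K2 * ly K2 + lx K2 + (lx K2 * lx K2 + lx K2 * lx K2) := by
      rw [e1]; noncomm_ring
    rw [e2, two, add_zero, lx_eq, ly_eq, ← wrd_append]
    exact Submodule.add_mem _ (wrd_Sp (by simp)) (wrd_Sp (by simp))
  · omega

theorem Mh_cons (e : ℕ) (g : List ℕ) : Mh (wrd K2 (e :: g)) = Mm e * Mh (wrd K2 g) := by
  rw [wrd_cons, map_mul, Mh, lift_ι_apply]

theorem row (g : List ℕ) (hg : Sm g) : Mh (wrd K2 g) 0 1 = 0 ∧ Ld (Mh (wrd K2 g) 0 0) (om g) ∧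
    Mh (wrd K2 g) 0 0 ∈ Sp K2 fun o : List Bool => o.count false = g.sum := by
  induction g with
  | nil =>
    rw [wrd_nil, map_one, Matrix.one_apply_eq, Matrix.one_apply_ne (by decide)]
    exact ⟨rfl, ld_wrd [], wrd_Sp (l := []) rfl⟩
  | cons e g ih =>
    have he : e ≤ 1 := hg e List.mem_cons_self
    obtain ⟨h1, h2, h3⟩ := ih fun a ha => hg a (List.mem_cons_of_mem _ ha)
    simp only [Mh_cons, Matrix.mul_apply, Fin.sum_univ_two, Mm_01 he, h1, zero_mul, mul_zero,
      add_zero, true_and]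
    refine ⟨(Mm_00 he).1.mul h2, Sp_mul (fun a b ha hb => ?_) (Mm_00 he).2 h3⟩
    rw [List.count_append, ha, hb, List.sum_cons]

theorem om_inj {g g0 : List ℕ} (hg : Sm g) (h0 : Sm g0) (h : om g = om g0) : g = g0 := by
  induction g generalizing g0 with
  | nil => simpa [om] using h
  | cons a g ih =>
    rcases g0 with _ | ⟨b, g0⟩
    · simp [om] at h
    · have ha : a ≤ 1 := hg a List.mem_cons_self
      have hb : b ≤ 1 := h0 b List.mem_cons_self
      simp only [om, List.map_cons, List.cons.injEq, decide_eq_decide] at h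
      rw [ih (fun c hc => hg c (List.mem_cons_of_mem _ hc))
        (fun c hc => h0 c (List.mem_cons_of_mem _ hc)) h.2, show a = b by omega]

end KC

open KC in
theorem st_KC : St_KC := by
  intro g hg
  obtain ⟨h1, h2, h3⟩ := row g hg
  refine ⟨h3, fun g0 e h0 hl he => ?_⟩
  obtain ⟨e, rfl⟩ : ∃ e', e = e' + 1 := ⟨e - 1, by omega⟩
  have e1 : al (wrd K2 (g ++ [e + 1])) = Mh (wrd K2 g) 0 0 * Mm (e + 1) 0 0 := by
    rw [al_apply, wrd_append, map_mul, Mh_cons, wrd_nil, map_one, mul_one, Matrix.mul_apply,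
      Fin.sum_univ_two, h1, zero_mul, add_zero]
  rw [e1, (h2.mul (ld_Mm e)).cw (by simp [om, hl])]
  by_cases h : g = g0
  · rw [if_pos h, if_pos (by rw [h])]
  · rw [if_neg h, if_neg fun h' => h (om_inj hg h0 (List.append_cancel_right h'))]

end Pool.Agent.DD.F.A2
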