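import Pool.Agent.Lib.DD.A2Blue

/-! The induction of Lemma K. -/

set_option autoImplicit false

noncomputable section

namespace Pool.Agent.DD.F.A2

open Pool.Agent.DR Pool.Agent.DD.S39 Pool.Agent.DD.DS Pool.Agent.DD.F64 Pool.Agent.DD.F.GAM
  TensorProduct FreeAlgebra Polynomial

namespace KIND

/-- the right quotient by the letter `k` -/
def qt (k : ℕ) : FN K2 →ₗ[K2] FN K2 :=
  (basisFreeMonoid K2 ℕ).constr K2 fun w =>
    if w.toList.getLast? = some k then wrd K2 w.toList.dropLast else 0

theorem qt_wrd (k : ℕ) (l : List ℕ) :
    qt k (wrd K2 l) = if l.getLast? = some k then wrd K2 l.dropLast else 0 := by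
  rw [wrd, ← bas, qt, Module.Basis.constr_basis]; rfl

theorem qt_cat (k j : ℕ) (w : List ℕ) :
    qt k (wrd K2 (w ++ [j])) = if j = k then wrd K2 w else 0 := by
  simp [qt_wrd]

theorem cw_qt (k : ℕ) (g : List ℕ) (p : FN K2) : cw g (qt k p) = cw (g ++ [k]) p :=
  wext (F := cw g ∘ₗ qt k) (G := cw (g ++ [k])) (fun l => by
    rcases l.eq_nil_or_concat with rfl | ⟨w, j, rfl⟩
    · rw [LinearMap.comp_apply, qt_wrd, cw_wrd]; simp
    · simp only [List.concat_eq_append, LinearMap.comp_apply, qt_cat, cw_wrd]
      by_cases h : j = k <;> simp [h, cw_wrd]) p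

theorem cnt {g : List ℕ} (h : Sm g) : (om g).count false = g.sum := by
  induction g with
  | nil => rfl
  | cons e g ih =>
    have h1 := h e (by simp)
    have h2 := ih fun x hx => h x (by simp [hx])
    simp only [om] at h2
    interval_cases e <;> simp [om, h2, add_comm]

theorem van (ha : St_KA) (hc : St_KC) {w : List ℕ} {j : ℕ} {o : List Bool} (hw : Sm w)
    (ho : o.count false < w.sum + j) : cw (o ++ [true]) (al (wrd K2 (w ++ [j]))) = 0 := by
  by_contra h
  obtain ⟨o', rfl⟩ := (ha w j o).2 h
  rw [(ha w j o').1] at h
  have := mem_Sp.1 (hc w hw).1 _ h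
  simp at ho
  omega

theorem tail {a b : List Bool} {k j : ℕ}
    (h : a ++ [true] ++ List.replicate k false = b ++ List.replicate j false) : j ≤ k := by
  by_contra hn
  obtain ⟨i, rfl⟩ : ∃ i, j = i + 1 + k := ⟨j - k - 1, by omega⟩
  rw [List.replicate_add, List.replicate_add, ← List.append_assoc, ← List.append_assoc] at h
  have := List.append_cancel_right h
  simpa using (List.append_inj' this rfl).2

end KIND

open KIND in
theorem st_KIND : St_KIND := by
  intro ha hb hc R
  induction R with
  | zero =>
    intro E p hp _
    exact Sp_mono (fun l h => by rw [List.length_eq_zero_iff.1 h.1]; simp [Sm]) hp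
  | succ n ih =>
    intro E p hp hE
    have key : ∀ k w, cw (w ++ [k]) p ≠ 0 → Sm w := by
      intro k
      induction k using Nat.strong_induction_on with
      | _ k ik =>
      have hP : ∀ l, cw l p ≠ 0 → ∃ w j, l = w ++ [j] ∧ w.length = n ∧ w.sum + j = E ∧
          (j < k → Sm w) := fun l hl => by
        have := mem_Sp.1 hp l hl
        rcases l.eq_nil_or_concat with rfl | ⟨w, j, rfl⟩
        · simp at this
        · rw [List.concat_eq_append] at *
          exact ⟨w, j, rfl, by simpa using this.1, by simpa using this.2, fun h => ik j h w hl⟩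
      have h1 : qt k p ∈ Sp K2 fun l => Sm l.dropLast := by
        refine ih (E - k) _ (mem_Sp.2 fun w hw => ?_) fun o ho => ?_
        · rw [cw_qt] at hw
          have := mem_Sp.1 hp _ hw
          simp at this
          omega
        · rw [← hE (o ++ [true] ++ List.replicate k false) (by simp; omega)]
          refine Sp_ext (cw _ ∘ₗ al ∘ₗ qt k) (cw _ ∘ₗ al) ?_ (mem_Sp.2 hP)
          rintro _ ⟨w, j, rfl, -, h2, h3⟩
          simp only [LinearMap.comp_apply, qt_cat]
          split_ifs with e
          · rw [e, (ha _ _ _).1]
          · rw [map_zero, map_zero]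
            by_contra h
            obtain ⟨o', e'⟩ := (ha _ _ _).2 (Ne.symm h)
            have := tail e'
            exact h (van ha hc (h3 (by omega)) (by simp; omega)).symm
      intro w0 hw0
      have h4 := mem_Sp.1 h1 w0 (by rwa [cw_qt])
      rcases w0.eq_nil_or_concat with rfl | ⟨g0, e0, rfl⟩
      · simp [Sm]
      rw [List.concat_eq_append] at *
      rw [List.dropLast_concat] at h4
      by_cases he : e0 ≤ 1
      · intro x hx
        rcases List.mem_append.1 hx with h | h
        · exact h4 x h
        · rwa [List.mem_singleton.1 h]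
      have h5 := mem_Sp.1 hp _ hw0
      simp at h5
      have h6 : (om g0 ++ [false] ++ List.replicate k false).count false < E := by
        simp [cnt h4]; omega
      refine absurd ?_ hw0
      rw [← hE _ h6]
      refine Sp_ext (cw _) (cw _ ∘ₗ al) ?_ (mem_Sp.2 fun l hl => (⟨hP l hl, hl⟩ : _ ∧ cw l p ≠ 0))
      rintro _ ⟨⟨w, j, rfl, h1', h2, h3⟩, hl⟩
      rw [LinearMap.comp_apply, cw_wrd]
      rcases lt_trichotomy j k with h | rfl | h
      · rw [van ha hc (h3 h) (by omega), if_neg fun q => by
          have := (List.append_inj' q rfl).2; simp at this; omega]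
      · rw [(ha _ _ _).1]
        have h7 := mem_Sp.1 h1 w (by rwa [cw_qt])
        rcases w.eq_nil_or_concat with rfl | ⟨g, e, rfl⟩
        · simp at h1'; omega
        rw [List.concat_eq_append] at *
        rw [List.dropLast_concat] at h7
        simp at h1' h2
        by_cases h8 : e ≤ 1
        · rw [if_neg fun q => by
            have := (List.append_inj' (List.append_cancel_right q) rfl).2; simp at this; omega,
            ← (ha _ j _).1, van ha hc _ (by simp at h6 ⊢; omega)]
          intro x hx
          rcases List.mem_append.1 hx with h | h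
          · exact h7 x h
          · rwa [List.mem_singleton.1 h]
        · rw [(hc g h7).2 g0 e h4 (by omega) (by omega)]
          congr 1
          simp only [List.append_cancel_right_eq, eq_iff_iff]
          refine ⟨fun h => (List.append_inj' h rfl).1, fun h => ?_⟩
          subst h
          congr 2
          omega
      · rw [if_neg fun q => by have := (List.append_inj' q rfl).2; simp at this; omega]
        by_contra h9
        obtain ⟨o', e'⟩ := (ha _ _ _).2 (Ne.symm h9)
        rw [e', (ha _ _ _).1] at h9
        have h10 := mem_Sp.1 (hb w) _ (Ne.symm h9)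
        have := congrArg List.length e'
        simp [om] at this
        omega
    refine mem_Sp.2 fun l hl => ?_
    rcases l.eq_nil_or_concat with rfl | ⟨w, j, rfl⟩
    · simp [Sm]
    · rw [List.concat_eq_append] at *
      simpa using key j w hl

end Pool.Agent.DD.F.A2
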