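import Pool.Agent.Lib.DD.A2Blue

/-! The linear part of a homogeneous element of degree at least two vanishes. -/

set_option autoImplicit false

noncomputable section

namespace Pool.Agent.DD.F.A2

open Pool.Agent.DR Pool.Agent.DD.S39 Pool.Agent.DD.DS Pool.Agent.DD.F64 Pool.Agent.DD.F.GAM
  TensorProduct FreeAlgebra Polynomial

attribute [local instance 100] LieRing.ofAssociativeRing

namespace LIN

/-- evaluation in the dual numbers -/
def f (s t : K2) : FA K2 →ₐ[K2] TrivSqZeroExt K2 K2 :=
  S39.ev (TrivSqZeroExt.inr s) (TrivSqZeroExt.inr t)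

theorem f_x (s t : K2) : f s t (lx K2) = TrivSqZeroExt.inr s := S39.ev_x _ _

theorem f_y (s t : K2) : f s t (ly K2) = TrivSqZeroExt.inr t := S39.ev_y _ _

theorem f_H (s t : K2) {n : ℕ} (hn : 2 ≤ n) {ψ : FA K2} (h : ψ ∈ Hn K2 n) : f s t ψ = 0 := by
  refine (Submodule.span_le (p := LinearMap.ker (f s t).toLinearMap)).2 ?_ h
  rintro _ ⟨u, hu, rfl⟩
  have hl : 2 ≤ u.length := hn.trans_eq (Eq.symm hu)
  match u, hl with
  | [], hl => exact absurd hl (by decide)
  | [_], hl => exact absurd hl (by simp)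
  | p :: q :: l, _ =>
    have e : f s t (if p then ly K2 else lx K2) * f s t (if q then ly K2 else lx K2) = 0 := by
      cases p <;> cases q <;> simp [f_x, f_y]
    show f s t (wd _ _ _) = 0
    rw [wd, List.map_cons, List.map_cons, List.prod_cons, List.prod_cons, map_mul, map_mul,
      ← mul_assoc, e, zero_mul]

theorem f_Y (s t : K2) {g : FA K2} (h : g ∈ Y2 K2) : f s t g = 0 := by
  refine (TwoSidedIdeal.mem_ker _).1
    ((TwoSidedIdeal.span_le (I := TwoSidedIdeal.ker (f s t))).2 ?_ h)
  rintro _ rfl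
  exact (TwoSidedIdeal.mem_ker _).2 (by simp [f_y])

theorem f_S (s t : K2) {u : FA K2} (h : u ∈ Subring.closure {a2 K2, b2 K2}) :
    (f s t u).snd = 0 := by
  induction h using Subring.closure_induction with
  | mem g hg =>
    rcases hg with rfl | rfl
    · simp [a2, f_x, f_y]
    · simp [b2, a2, f_x, f_y]
  | zero => simp
  | one => simp
  | add g h _ _ hg hh => simp [hg, hh]
  | neg g _ hg => simp [hg]
  | mul g h _ _ hg hh => simp [hg, hh]

end LIN

open LIN in
theorem st_LIN : St_LIN := by
  intro n ψ u c c' hn hψ hu h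
  have e (s t : K2) : c * s + c' * t = 0 := by
    have := congrArg TrivSqZeroExt.snd (f_Y s t h)
    simp only [map_sub, map_smul, f_H s t hn hψ, f_x, f_y, TrivSqZeroExt.snd_sub,
      TrivSqZeroExt.snd_smul, TrivSqZeroExt.snd_inr, f_S s t hu, TrivSqZeroExt.snd_zero,
      smul_eq_mul] at this
    linear_combination -this
  exact ⟨by simpa using e 1 0, by simpa using e 0 1⟩

end Pool.Agent.DD.F.A2
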