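import Pool.Agent.Lib.DD.A2Blue

/-! The part of top depth. -/

set_option autoImplicit false

noncomputable section

namespace Pool.Agent.DD.F.A2

open Pool.Agent.DR Pool.Agent.DD.S39 Pool.Agent.DD.DS Pool.Agent.DD.F64 Pool.Agent.DD.F.GAM
  TensorProduct FreeAlgebra Polynomial

attribute [local instance 100] LieRing.ofAssociativeRing

namespace TOP2

theorem ry {n : ℕ} {v : FN K2} (hv : v ∈ H K2 dep n) : rho K2 (ly K2) v ∈ H K2 dep n := by
  rw [show rho K2 (ly K2) = DN K2 from ev_y _ _]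
  exact der_H (k := 0) _ (fun s => H_ι dep (s + 1)) hv

theorem rx {n : ℕ} {v : FN K2} (hv : v ∈ H K2 dep n) : rho K2 (lx K2) v ∈ H K2 dep (n + 1) := by
  rw [show rho K2 (lx K2) = LinearMap.mulLeft K2 (ι K2 0) from ev_x _ _, add_comm]
  exact H_mul (H_ι dep 0) hv

theorem rg (η : K2) (e : ℕ) {n : ℕ} {v : FN K2} (hv : v ∈ H K2 dep n) :
    rho K2 (gx η e) v ∈ H K2 dep n := by
  have h : rho K2 (ly K2 ^ e) v ∈ H K2 dep n := by
    induction e with
    | zero => simpa using hv
    | succ e ih => rw [pow_succ', map_mul]; exact ry ih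
  rw [gx, map_mul, map_add, Module.End.mul_apply, LinearMap.add_apply, AlgHom.commutes]
  exact add_mem (ry h) (Submodule.smul_mem _ η h)

theorem rr (η : K2) (e : ℕ) {n : ℕ} {v : FN K2} (hv : v ∈ H K2 dep n) :
    rho K2 (ro η e) v ∈ H K2 dep (n + 1) := by
  induction e with
  | zero => exact rx hv
  | succ e ih =>
    rw [ro, map_add, map_mul, map_mul]
    exact add_mem (ry ih) (rx (rg η e hv))

theorem lt_of {n m : ℕ} {v : FN K2} (hv : v ∈ H K2 dep n) (h : n < m) :
    v ∈ Sp K2 fun l => l.length < m :=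
  Sp_mono (fun l hl => by rw [dep_sum] at hl; omega) (H_eq (K := K2) dep n ▸ hv)

theorem wd (η : K2) (l : List ℕ) : r K2 (rh η (wrd K2 l)) ∈ H K2 dep l.length ∧
    r K2 (Zh η (wrd K2 l)) - r K2 (rh η (wrd K2 l)) ∈ Sp K2 fun m => m.length < l.length := by
  induction l with
  | nil => simpa [r_apply] using H_one _
  | cons e l ih =>
    simp only [r_apply, wrd_cons, map_mul, Module.End.mul_apply] at ih ⊢
    rw [show rh η (ι K2 e) = ro η e from lift_ι_apply .., show Zh η (ι K2 e) = ro η e + η • gx η e from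
      lift_ι_apply ..]
    refine ⟨rr η e ih.1, ?_⟩
    have hw := fun m : List ℕ => dep_sum m ▸ wrd_H (K := K2) dep m
    have h1 := Sp_map (Sp K2 fun m => m.length < l.length + 1) (rho K2 (ro η e))
      (fun m hm => lt_of (rr η e (hw m)) (by omega)) ih.2
    have h2 := Sp_map (Sp K2 fun m => m.length < l.length + 1) (rho K2 (gx η e))
      (fun m hm => lt_of (rg η e (hw m)) (by omega)) ih.2
    have h3 := lt_of (rg η e ih.1) l.length.lt_succ_self
    have h4 := add_mem h1 (Submodule.smul_mem _ η (add_mem h2 h3))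
    simp only [map_add, map_sub, map_smul, LinearMap.add_apply, LinearMap.smul_apply,
      sub_add_cancel] at h4 ⊢
    rw [add_sub_right_comm]
    exact h4

theorem pr_LN {R : ℕ} {v : FN K2} (h : v ∈ LN K2) : pr dep R v ∈ LN K2 := by
  refine LN_ind (p := fun v => ∀ m, pr dep m v ∈ LN K2) (fun s m => ?_) (fun m => ?_)
    (fun f g h1 h2 m => ?_) (fun r f h1 m => ?_) (fun f g _ _ h1 h2 m => ?_) h R
  · rw [pr_H m (H_ι dep s)]; split_ifs; exacts [ι_LN s, zero_mem _]
  · rw [map_zero]; exact zero_mem _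
  · rw [map_add]; exact add_mem (h1 m) (h2 m)
  · rw [map_smul]; exact LieSubalgebra.smul_mem _ r (h1 m)
  · have e : pr dep m (f * g - g * f) =
        ∑ p ∈ Finset.HasAntidiagonal.antidiagonal m, ⁅pr dep p.1 f, pr dep p.2 g⁆ := by
      change (sc dep (f * g - g * f)).coeff m = _
      rw [map_sub, map_mul, map_mul, coeff_sub, coeff_mul, coeff_mul,
        ← Finset.Nat.sum_antidiagonal_swap (f := fun p => (sc dep g).coeff p.1 * (sc dep f).coeff p.2),
        ← Finset.sum_sub_distrib]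
      rfl
    rw [e]
    exact sum_mem fun p _ => (LN K2).lie_mem (h1 _) (h2 _)

end TOP2

open TOP2 in
theorem st_TOP2 : St_TOP := by
  intro η R g hg h
  have e : pr dep R (r K2 (Zh η g)) = r K2 (rh η (pr dep R g)) := by
    refine Sp_ext (pr dep R ∘ₗ r K2 ∘ₗ (Zh η).toLinearMap)
      (r K2 ∘ₗ (rh η).toLinearMap ∘ₗ pr dep R) (fun l hl => ?_) hg
    simp only [LinearMap.comp_apply, AlgHom.toLinearMap_apply]
    have h1 : pr dep R (r K2 (Zh η (wrd K2 l)) - r K2 (rh η (wrd K2 l))) = 0 :=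
      Sp_ext (pr dep R) 0 (fun m hm => by
        rw [pr_H R (wrd_H dep m), dep_sum, if_neg (by omega)]; rfl) (wd η l).2
    rw [map_sub, sub_eq_zero] at h1
    rw [h1, pr_H R (wd η l).1, pr_H R (wrd_H dep l), dep_sum]
    split_ifs <;> simp
  obtain ⟨F, hF, c, hc⟩ := mem_LC.1 h
  rw [← e, hc, map_add, Algebra.algebraMap_eq_smul_one, map_smul, pr_H R (H_one dep)]
  refine add_mem (mem_LC.2 ⟨_, pr_LN (R := R) hF, 0, by simp⟩) (Submodule.smul_mem _ _ ?_)
  split_ifs
  · exact mem_LC.2 ⟨0, zero_mem _, 1, by simp⟩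
  · exact zero_mem _

end Pool.Agent.DD.F.A2
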