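import Pool.Agent.Lib.DD.Spec39
import Mathlib.Algebra.DualNumber

/-! The derivation of the braid algebra attached to an element of `grt`; closure under the Ihara
bracket. -/

set_option autoImplicit false

noncomputable section

namespace Pool.Agent.DD.S39

open Pool.Agent.DR TrivSqZeroExt

attribute [local instance 100] LieRing.ofAssociativeRing

universe v

variable {K : Type v} [CommRing K]

/-- the defining relations of `grt` -/
structure Gr (ψ : FreeAlgebra K Bool) : Prop where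
  lie : IsLie ψ
  pent : LPent ψ
  anti : ψ + ev (ly K) (lx K) ψ = 0
  hex : ψ + ev (ly K) (-lx K - ly K) ψ + ev (-lx K - ly K) (lx K) ψ = 0

section dn
variable {B : Type*} [Ring B]

/-- the dual number `a + d ε` -/
def dn (a d : B) : DualNumber B := inl a + inr d

@[simp] theorem fst_dn (a d : B) : (dn a d).fst = a := by simp [dn]
@[simp] theorem snd_dn (a d : B) : (dn a d).snd = d := by simp [dn]
theorem dn_add (a d a' d' : B) : dn a d + dn a' d' = dn (a + a') (d + d') := by ext <;> simp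
theorem dn_neg (a d : B) : -dn a d = dn (-a) (-d) := by ext <;> simp
theorem dn_mul (a d a' d' : B) : dn a d * dn a' d' = dn (a * a') (a * d' + d * a') := by
  ext <;> simp

theorem cmt {a b d d' : B} (U : B) (h : Commute a b) (h1 : d = ⁅a, U⁆) (h2 : d' = ⁅b, U⁆) :
    Commute (dn a d) (dn b d') := by
  show _ = _
  rw [dn_mul, dn_mul, h1, h2, h.eq]
  congr 1
  simp only [Ring.lie_def]
  linear_combination (norm := noncomm_ring) h.eq * U - U * h.eq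

theorem lie0 {a b : B} (h : Commute a b) : ⁅a, b⁆ = 0 := sub_eq_zero.2 h.eq

/-- six relations are enough -/
def mkBr (a0 a1 c b0 b1 : B) (h1 : Commute b0 (a0 + c)) (h3 : Commute c (a0 + b0))
    (h4 : Commute c (a1 + b1)) (h6 : Commute a1 (c + b1)) (h7 : Commute b0 a1)
    (h8 : Commute a0 b1) : Br B :=
  ⟨a0, a1, c, b0, b1, h1, by
    show _ = _
    linear_combination (norm := noncomm_ring) -h1.eq - h3.eq, h3, h4, by
    show _ = _
    linear_combination (norm := noncomm_ring) -h4.eq - h6.eq, h6, h7, h8⟩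

end dn

/-- the derivation `D_ψ` -/
def Dp (ψ : FreeAlgebra K Bool) : FreeAlgebra K Bool →ₗ[K] FreeAlgebra K Bool :=
  ((sndHom _ _).restrictScalars K).comp (ev (dn (lx K) 0) (dn (ly K) ⁅ly K, ψ⁆)).toLinearMap

theorem fst_ev {B : Type*} [Ring B] [Algebra K B] (a b d d' : B) (f : FreeAlgebra K Bool) :
    (ev (dn a d) (dn b d') f).fst = ev a b f := by
  simpa using map_ev (fstHom K B B) (dn a d) (dn b d') f

@[simp] theorem Dp_x (ψ : FreeAlgebra K Bool) : Dp ψ (lx K) = 0 := by simp [Dp]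
@[simp] theorem Dp_y (ψ : FreeAlgebra K Bool) : Dp ψ (ly K) = ⁅ly K, ψ⁆ := by simp [Dp]
@[simp] theorem Dp_c (ψ : FreeAlgebra K Bool) (r : K) : Dp ψ (algebraMap K _ r) = 0 := by
  simp [Dp, algebraMap_eq_inl']
theorem Dp_mul (ψ f g : FreeAlgebra K Bool) : Dp ψ (f * g) = f * Dp ψ g + Dp ψ f * g := by
  simp [Dp, fst_ev, ev_self]

theorem Dp_uniq {ψ : FreeAlgebra K Bool} (D : FreeAlgebra K Bool → FreeAlgebra K Bool)
    (hc : ∀ r, D (algebraMap K _ r) = 0) (hx : D (lx K) = 0) (hy : D (ly K) = ⁅ly K, ψ⁆)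
    (hm : ∀ f g, D (f * g) = f * D g + D f * g) (ha : ∀ f g, D (f + g) = D f + D g)
    (f : FreeAlgebra K Bool) : D f = Dp ψ f := by
  induction f using ind <;> simp [Dp_mul, *]

theorem IsLie.lie {f g : FreeAlgebra K Bool} (h : IsLie f) (h' : IsLie g) : IsLie ⁅f, g⁆ :=
  LieSubalgebra.lie_mem _ h h'

theorem IsLie.Dp {ψ φ : FreeAlgebra K Bool} (h : IsLie ψ) (h' : IsLie φ) : IsLie (Dp ψ φ) := by
  refine h'.ind (P := fun φ => IsLie (S39.Dp ψ φ)) ?_ ?_ ?_ ?_ ?_ ?_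
  · rw [Dp_x]; exact zero_mem _
  · rw [Dp_y]; exact IsLie.lie (LieSubalgebra.subset_lieSpan (by simp)) h
  · rw [map_zero]; exact zero_mem _
  · intro f g _ _ h1 h2; rw [map_add]; exact add_mem h1 h2
  · intro r f _ h1; rw [map_smul]; exact LieSubalgebra.smul_mem _ r h1
  · intro f g hf hg h1 h2
    rw [show S39.Dp ψ (f * g - g * f) = ⁅f, S39.Dp ψ g⁆ + ⁅S39.Dp ψ f, g⁆ by
      simp only [map_sub, Dp_mul, Ring.lie_def]; abel]
    exact add_mem (hf.lie h2) (h1.lie hg)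

/-- the edge lemma -/
theorem edge {B : Type*} [Ring B] [Algebra K B] (ψ : FreeAlgebra K Bool) {a b d d' : B} (U : B)
    (h1 : d = ⁅a, U⁆) (h2 : d' = ⁅b, U + ev a b ψ⁆) (f : FreeAlgebra K Bool) :
    (ev (dn a d) (dn b d') f).snd = ev a b (Dp ψ f) + ⁅ev a b f, U⁆ := by
  induction f using ind with
  | h0 r => simp [algebraMap_eq_inl', Ring.lie_def, Algebra.commutes]
  | hx => simp [h1]
  | hy => simp [h2, Ring.lie_def, mul_add, add_mul]; abel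
  | hm f g i1 i2 =>
    simp only [map_mul, DualNumber.snd_mul, i1, i2, fst_ev, Dp_mul, map_add, Ring.lie_def]
    noncomm_ring
  | ha f g i1 i2 => simp only [map_add, snd_add, i1, i2, add_lie]; abel

section pot
variable {B : Type v} [Ring B] [Algebra K B] (ψ : FreeAlgebra K Bool) (T : Br B)

/-- the potentials at the vertices of the pentagon -/
def U1 : B := ev (T.a0 + T.c) T.a1 ψ
def U2 : B := U1 ψ T + ev T.b0 (T.c + T.b1) ψ
def U3 : B := ev T.b0 T.c ψ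
def U4 : B := U3 ψ T + ev (T.a0 + T.b0) (T.a1 + T.b1) ψ

/-- the values of the derivation -/
def dc : B := ⁅T.c, U3 ψ T⁆
def da1 : B := ⁅T.a1, U1 ψ T⁆
def db1 : B := ⁅T.c + T.b1 + T.a1, U2 ψ T⁆ - dc ψ T - da1 ψ T

theorem cu0 : Commute (T.a0 + T.b0 + T.c) T.b0 := by
  rw [add_right_comm]; exact T.h1.symm.add_left (Commute.refl _)
theorem cu1 : Commute (T.a0 + T.b0 + T.c) T.c := T.h3.symm.add_left (Commute.refl _)
theorem cu2 : Commute (T.a0 + T.b0 + T.c) T.a0 := by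
  rw [add_assoc]; exact (Commute.refl _).add_left T.h2.symm
theorem cv0 : Commute (T.c + T.b1 + T.a1) T.a1 := T.h6.symm.add_left (Commute.refl _)
theorem cv1 : Commute (T.c + T.b1 + T.a1) T.c := by
  rw [add_assoc, add_comm T.b1]; exact (Commute.refl _).add_left T.h4.symm
theorem cv2 : Commute (T.c + T.b1 + T.a1) T.b1 := by
  rw [add_right_comm]; exact T.h5.symm.add_left (Commute.refl _)

theorem p1 : (0 : B) = ⁅T.b0, U1 ψ T⁆ := (lie0 (comm_ev T.h1 T.h7 ψ)).symm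
theorem p2 : da1 ψ T = ⁅T.a1, U2 ψ T⁆ := by
  rw [U2, lie_add, lie0 (comm_ev T.h7.symm T.h6 ψ), add_zero, da1]
theorem p3 : dc ψ T + db1 ψ T = ⁅T.c + T.b1, U2 ψ T⁆ := by
  rw [db1, p2, add_lie _ T.a1]; abel
theorem p4 : -dc ψ T + 0 = ⁅T.a0 + T.b0, U3 ψ T⁆ := by
  have h := lie0 (comm_ev (cu0 T) (cu1 T) ψ)
  rw [add_lie] at h
  rw [add_zero, dc, U3, neg_eq_iff_add_eq_zero, add_comm, h]
theorem p5 : dc ψ T = ⁅T.c, U4 ψ T⁆ := by
  rw [U4, lie_add, lie0 (comm_ev T.h3 T.h4 ψ), add_zero, dc]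

variable {ψ}

theorem p6 (hp : LPent ψ) : U2 ψ T = U4 ψ T + ev T.c T.a1 ψ := by
  have h := hp B T
  unfold U2 U4 U1 U3
  linear_combination (norm := abel1) h
theorem p7 (hp : LPent ψ) : da1 ψ T + db1 ψ T = ⁅T.a1 + T.b1, U4 ψ T⁆ := by
  rw [db1, p5, p6 T hp, lie_add, lie0 (comm_ev (cv1 T) (cv0 T) ψ)]
  simp only [add_lie]; abel

theorem Gr.anti' (h : Gr ψ) (a b : B) : ev a b ψ + ev b a ψ = 0 := by
  simpa [map_ev] using congrArg (ev a b) h.anti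

theorem Gr.sh (h : Gr ψ) {a b s : B} (h1 : Commute s a) (h2 : Commute s b) :
    ev (a + s) b ψ = ev a b ψ ∧ ev a (b + s) ψ = ev a b ψ ∧ ev (a + s) (b + s) ψ = ev a b ψ := by
  have e1 := h.pent.shift h.lie (t := 0) h1 h2 (by simp) (by simp) (by simp)
  have e2 := h.pent.shift h.lie (s := 0) (by simp) (by simp) h1 h2 (by simp)
  rw [add_zero] at e1 e2
  exact ⟨e1, e2, h.pent.shift h.lie h1 h2 h1 h2 (Commute.refl _)⟩

theorem Gr.hex' (h : Gr ψ) {a b c s : B} (h1 : Commute s a) (h2 : Commute s b)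
    (hc : c = -a - b + s) : ev a b ψ + ev b c ψ + ev c a ψ = 0 := by
  have h3 := h1.neg_right.sub_right h2
  rw [hc, (h.sh h2 h3).2.1, (h.sh h3 h1).1]
  simpa [map_ev] using congrArg (ev a b) h.hex

theorem Gr.pent' (h : Gr ψ) {u v : B} (hu : u = T.a0 + T.b0 + T.c) (hv : v = T.c + T.b1 + T.a1) :
    ev T.b0 v ψ + ev u T.a1 ψ = ev T.c T.a1 ψ + ev u v ψ + ev T.b0 T.c ψ := by
  have e := h.pent B T
  rw [← (h.sh T.h7.symm T.h6).2.1, ← (h.sh T.h1 T.h7).1, ← (h.sh T.h3 T.h4).2.2] at e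
  rw [hu, hv]
  rwa [add_right_comm T.a0 T.c, show T.a1 + T.b1 + T.c = T.c + T.b1 + T.a1 by abel] at e

variable [Algebra ℚ K]

theorem Gr.spec (h : Gr ψ) {a b c s : B} (h1 : Commute s a) (h2 : Commute s b)
    (hc : c = -a - b + s) : ⁅b, ev a b ψ⁆ + ⁅c, ev a c ψ⁆ = 0 := by
  have h3 := h1.neg_right.sub_right h2
  rw [hc, (h.sh h1 h3).2.1, add_lie, lie0 (comm_ev h1 h3 ψ), add_zero]
  simpa [map_ev, Ring.lie_def] using congrArg (ev a b) (special h.lie h.pent h.anti h.hex)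

theorem Gr.c8 (h : Gr ψ) : Commute (dn T.a0 (-dc ψ T)) (dn T.b1 (db1 ψ T)) := by
  obtain ⟨u, hu⟩ : ∃ u, u = T.a0 + T.b0 + T.c := ⟨_, rfl⟩
  obtain ⟨v, hv⟩ : ∃ v, v = T.c + T.b1 + T.a1 := ⟨_, rfl⟩
  obtain ⟨z, hz⟩ : ∃ z, z = -(T.a0 + T.c + T.a1) := ⟨_, rfl⟩
  refine cmt (ev T.b0 T.a0 ψ + ev u T.b1 ψ) T.h8 ?_ ?_
  · have e := h.spec (c := T.a0) (cu0 T) (cu1 T) (by abel)
    rw [lie_add, lie0 (comm_ev (hu ▸ (cu2 T).symm) T.h8 ψ), add_zero, dc, U3,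
      neg_eq_iff_add_eq_zero, e]
  have e1 := h.pent' ⟨LIFT.ee T, T.a0, T.b0, T.b1, T.c, LIFT.sw (LIFT.e2 T), LIFT.sw (LIFT.e3 T),
    LIFT.e1 T, T.h1, LIFT.sw T.h3, T.h2, T.h8.symm, LIFT.e7 T⟩ (u := z) (v := u)
    (by simp only [hz, LIFT.ee]; abel) (by simp only [hu]; abel)
  have e2 := h.pent' ⟨LIFT.ee T, T.a1, T.b1, T.b0, T.c, LIFT.e1 T, LIFT.e3 T,
    LIFT.sw (LIFT.e2 T), LIFT.sw T.h5, LIFT.sw T.h4, LIFT.sw T.h6, T.h7, LIFT.e7 T⟩ (u := z)
    (v := v) (by simp only [hz, LIFT.ee]; abel) (by simp only [hv]; abel)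
  have e3 := h.hex' (a := u) (b := T.a1) (c := z) (s := T.b0) (hu ▸ (cu0 T).symm) T.h7
    (by rw [hu, hz]; abel)
  have e4 := h.hex' (a := v) (b := T.a0) (c := z) (s := T.b1) (hv ▸ (cv2 T).symm) T.h8.symm
    (by rw [hv, hz]; abel)
  have e5 : U2 ψ T = ev u T.a1 ψ + ev T.b0 v ψ := by
    rw [U2, U1, hu, hv, (h.sh T.h7.symm T.h6).2.1, add_right_comm T.a0, (h.sh T.h1 T.h7).1]
  have e6 : ev T.b0 T.a0 ψ + ev u T.b1 ψ = U2 ψ T + ev T.a1 T.b1 ψ + ev v T.a0 ψ := by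
    simp only at e1 e2
    linear_combination (norm := abel1) -e1 - e2 - e3 - e4 - e5 + h.anti' u T.b1 -
      h.anti' T.a1 T.b1 + h.anti' T.a1 z + h.anti' T.a0 z - h.anti' T.b0 T.b1
  have e7 := h.spec (c := T.b1) (cv0 T) (cv1 T) (by abel)
  have e8 := p7 T h.pent
  have e9 : U4 ψ T = U2 ψ T + ev T.a1 T.c ψ := by
    linear_combination (norm := abel1) -p6 T h.pent - h.anti' T.a1 T.c
  have e10 := p3 ψ T
  rw [p5, e9, lie_add, add_lie] at e10
  rw [e6, lie_add, lie0 (comm_ev (hv ▸ (cv2 T).symm) T.h8.symm ψ), add_zero, lie_add]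
  linear_combination (norm := abel1) e10 - e7

/-- the deformed tuple -/
def Gr.df (h : Gr ψ) : Br (DualNumber B) :=
  mkBr (dn T.a0 (-dc ψ T)) (dn T.a1 (da1 ψ T)) (dn T.c (dc ψ T)) (dn T.b0 0) (dn T.b1 (db1 ψ T))
    (by rw [dn_add]; exact cmt 0 T.h1 (by simp) (by simp))
    (by rw [dn_add]; exact cmt _ T.h3 rfl (p4 ψ T))
    (by rw [dn_add]; exact cmt _ T.h4 (p5 ψ T) (p7 T h.pent))
    (by rw [dn_add]; exact cmt _ T.h6 (p2 ψ T) (p3 ψ T))
    (cmt _ T.h7 (p1 ψ T) rfl) (h.c8 T)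

theorem Gr.pentD (h : Gr ψ) {φ : FreeAlgebra K Bool} (hφ : LPent φ) :
    ev T.b0 (T.c + T.b1) (Dp ψ φ) + ⁅ev T.b0 (T.c + T.b1) φ, U1 ψ T⁆ +
      ev (T.a0 + T.c) T.a1 (Dp ψ φ) =
    ev T.c T.a1 (Dp ψ φ) + ⁅ev T.c T.a1 φ, U4 ψ T⁆ + (ev (T.a0 + T.b0) (T.a1 + T.b1) (Dp ψ φ) +
      ⁅ev (T.a0 + T.b0) (T.a1 + T.b1) φ, U3 ψ T⁆) + ev T.b0 T.c (Dp ψ φ) := by
  have e := congrArg snd (hφ _ (h.df T))
  simp only [Gr.df, mkBr, dn_add, snd_add] at e
  rw [edge ψ _ (p1 ψ T) (p3 ψ T), edge ψ 0 (by simp) (by rw [zero_add]; rfl),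
    edge ψ _ (p5 ψ T) (by rw [← p6 T h.pent]; exact p2 ψ T), edge ψ _ (p4 ψ T) (p7 T h.pent),
    edge ψ 0 (by simp) (by rw [zero_add]; rfl)] at e
  simpa using e

end pot

/-- the Ihara bracket -/
def ih (ψ φ : FreeAlgebra K Bool) : FreeAlgebra K Bool := ⁅ψ, φ⁆ + Dp ψ φ - Dp φ ψ

theorem Gr.cyc [Algebra ℚ K] {ψ φ : FreeAlgebra K Bool} (h : Gr ψ) (h' : Gr φ) :
    (Dp ψ φ + (ev (ly K) (lx K) (Dp ψ φ) + ⁅ev (ly K) (lx K) φ, ψ⁆) = 0) ∧
    Dp ψ φ + (ev (ly K) (-lx K - ly K) (Dp ψ φ) + ⁅ev (ly K) (-lx K - ly K) φ, ψ⁆) +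
      (ev (-lx K - ly K) (lx K) (Dp ψ φ) +
        ⁅ev (-lx K - ly K) (lx K) φ, -ev (-lx K - ly K) (lx K) ψ⁆) = 0 := by
  have e1 := congrArg snd (h'.anti' (dn (lx K) 0) (dn (ly K) ⁅ly K, ψ⁆))
  have e2 := congrArg snd (h'.hex' (a := dn (lx K) 0) (b := dn (ly K) ⁅ly K, ψ⁆) (s := 0)
    (c := dn (-lx K - ly K) (-⁅ly K, ψ⁆)) (by simp) (by simp) (by ext <;> simp))
  have e3 := special h.lie h.pent h.anti h.hex
  have e4 := eq_neg_of_add_eq_zero_left (h.anti' (lx K) (-lx K - ly K))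
  rw [e4] at e3
  have e5 : ψ + ev (ly K) (-lx K - ly K) ψ = -ev (-lx K - ly K) (lx K) ψ :=
    eq_neg_of_add_eq_zero_left h.hex
  simp only [snd_add, snd_zero] at e1 e2
  rw [edge ψ ψ rfl (by rw [h.anti, lie_zero])] at e1
  rw [edge ψ ψ rfl (by rw [e5]; exact neg_eq_of_add_eq_zero_right e3),
    edge ψ _ (neg_eq_of_add_eq_zero_right e3) (by simp)] at e2
  exact ⟨e1, e2⟩

/-- `grt` is closed under the Ihara bracket -/
theorem Gr.ih [Algebra ℚ K] {ψ φ : FreeAlgebra K Bool} (h : Gr ψ) (h' : Gr φ) : Gr (ih ψ φ) where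
  lie := sub_mem (add_mem (h.lie.lie h'.lie) (h.lie.Dp h'.lie)) (h'.lie.Dp h.lie)
  pent B _ _ T := by
    have e1 := h.pentD T h'.pent
    have e2 := h'.pentD T h.pent
    have e3 := h.pent B T
    have e4 := h'.pent B T
    simp only [S39.ih, U1, U3, U4, Ring.lie_def, map_sub, map_add, map_mul] at e1 e2 ⊢
    linear_combination (norm := noncomm_ring) e1 - e2 +
      e3 * (ev T.b0 (T.c + T.b1) φ + ev (T.a0 + T.c) T.a1 φ) -
      (ev T.b0 (T.c + T.b1) φ + ev (T.a0 + T.c) T.a1 φ) * e3 +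
      (ev T.c T.a1 ψ + ev (T.a0 + T.b0) (T.a1 + T.b1) ψ + ev T.b0 T.c ψ) * e4 -
      e4 * (ev T.c T.a1 ψ + ev (T.a0 + T.b0) (T.a1 + T.b1) ψ + ev T.b0 T.c ψ)
  anti := by
    have e1 := (h.cyc h').1
    have e2 := (h'.cyc h).1
    have e3 := eq_neg_of_add_eq_zero_right h.anti
    have e4 := eq_neg_of_add_eq_zero_right h'.anti
    simp only [S39.ih, Ring.lie_def, map_sub, map_add, map_mul, e3, e4] at e1 e2 ⊢
    linear_combination (norm := noncomm_ring) e1 - e2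
  hex := by
    have e1 := (h.cyc h').2
    have e2 := (h'.cyc h).2
    have e3 := eq_neg_of_add_eq_zero_right h.hex
    have e4 := eq_neg_of_add_eq_zero_right h'.hex
    simp only [S39.ih, Ring.lie_def, map_sub, map_add, map_mul, e3, e4] at e1 e2 ⊢
    linear_combination (norm := noncomm_ring) e1 - e2

/-! the derivation of the enveloping algebra -/

theorem tt_diag (i : Fin 4) : tt K i i = 0 := by
  simpa [tt] using RingQuot.mkAlgHom_rel K (Rel.diag (R := K) i)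
theorem tt_symm (i j : Fin 4) : tt K i j = tt K j i := RingQuot.mkAlgHom_rel K (Rel.symm i j)
theorem tt_tri (i j k : Fin 4) (h : [i, j, k].Nodup) :
    Commute (tt K i j) (tt K i k + tt K j k) := by
  show _ = _
  simpa [tt] using RingQuot.mkAlgHom_rel K (Rel.tri (R := K) i j k h)
theorem tt_far (i j k l : Fin 4) (h : [i, j, k, l].Nodup) : Commute (tt K i j) (tt K k l) := by
  show _ = _
  simpa [tt] using RingQuot.mkAlgHom_rel K (Rel.far (R := K) i j k l h)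

/-- the tautological tuple -/
def T0 (K : Type v) [CommRing K] : Br (RingQuot (Rel K)) :=
  mkBr (tt K 0 2) (tt K 2 3) (tt K 1 2) (tt K 0 1) (tt K 1 3) (tt_tri 0 1 2 (by decide))
    (by rw [tt_symm 0 2, tt_symm 0 1, add_comm]; exact tt_tri 1 2 0 (by decide))
    (by rw [add_comm]; exact tt_tri 1 2 3 (by decide))
    (by rw [tt_symm 1 2, tt_symm 1 3]; exact tt_tri 2 3 1 (by decide))
    (tt_far 0 1 2 3 (by decide)) (tt_far 0 2 1 3 (by decide))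

theorem indU {P : RingQuot (Rel K) → Prop} (h0 : ∀ r, P (algebraMap K _ r))
    (h1 : ∀ i j, P (tt K i j)) (hm : ∀ f g, P f → P g → P (f * g))
    (ha : ∀ f g, P f → P g → P (f + g)) (f : RingQuot (Rel K)) : P f := by
  obtain ⟨r, rfl⟩ := RingQuot.mkAlgHom_surjective K (Rel K) f
  induction r using FreeAlgebra.induction with
  | grade0 r => rw [AlgHom.commutes]; exact h0 r
  | grade1 p => exact h1 p.1 p.2
  | mul f g => rw [map_mul]; exact hm _ _ ‹_› ‹_›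
  | add f g => rw [map_add]; exact ha _ _ ‹_› ‹_›

/-- the central element -/
def zz (K : Type v) [CommRing K] : RingQuot (Rel K) := tt K 0 3 - LIFT.ee (T0 K)

theorem zz_tt (i j k l : Fin 4) (h : [i, j, k, l].Nodup)
    (e : zz K = tt K i j + (tt K i k + tt K j k) + (tt K i l + tt K j l) + tt K k l) :
    Commute (zz K) (tt K i j) := by
  have h1 : [i, j, k].Nodup := h.sublist (by simp)
  have h2 : [i, j, l].Nodup := h.sublist (by simp)
  rw [e]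
  exact ((((Commute.refl _).add_right (tt_tri i j k h1)).add_right (tt_tri i j l h2)).add_right
    (tt_far i j k l h)).symm

theorem zz_comm (f : RingQuot (Rel K)) : Commute (zz K) f := by
  have e : zz K = tt K 0 1 + tt K 0 2 + tt K 0 3 + tt K 1 2 + tt K 1 3 + tt K 2 3 := by
    simp only [zz, LIFT.ee, T0, mkBr]; abel
  have a1 := zz_tt (K := K) 0 1 2 3 (by decide) (by rw [e]; abel)
  have a2 := zz_tt (K := K) 0 2 1 3 (by decide) (by rw [e, tt_symm 2 1]; abel)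
  have a3 := zz_tt (K := K) 0 3 1 2 (by decide) (by rw [e, tt_symm 3 1, tt_symm 3 2]; abel)
  have a4 := zz_tt (K := K) 1 2 0 3 (by decide) (by rw [e, tt_symm 1 0, tt_symm 2 0]; abel)
  have a5 := zz_tt (K := K) 1 3 0 2 (by decide)
    (by rw [e, tt_symm 1 0, tt_symm 3 0, tt_symm 3 2]; abel)
  have a6 := zz_tt (K := K) 2 3 0 1 (by decide)
    (by rw [e, tt_symm 2 0, tt_symm 3 0, tt_symm 2 1, tt_symm 3 1]; abel)
  induction f using indU with
  | h0 r => exact (Algebra.commutes r _).symm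
  | h1 i j =>
    fin_cases i <;> fin_cases j <;>
      first
      | exact a1 | exact a2 | exact a3 | exact a4 | exact a5 | exact a6
      | (rw [tt_diag]; exact Commute.zero_right _)
      | (rw [tt_symm]; first | exact a1 | exact a2 | exact a3 | exact a4 | exact a5 | exact a6)
  | hm f g h1 h2 => exact h1.mul_right h2
  | ha f g h1 h2 => exact h1.add_right h2

/-- multiplicity of the central element -/
def ka (i j : Fin 4) : ℕ := if i.val + j.val = 3 ∧ i.val * j.val = 0 then 1 else 0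

theorem tm_T0 (i j : Fin 4) : LIFT.tm (T0 K) i j + ka i j • zz K = tt K i j := by
  fin_cases i <;> fin_cases j <;>
    simp [LIFT.tm, ka, zz, tt_diag, T0, mkBr, tt_symm (K := K) 1 0, tt_symm (K := K) 2 0,
      tt_symm (K := K) 3 0, tt_symm (K := K) 2 1, tt_symm (K := K) 3 1, tt_symm (K := K) 3 2]

theorem zc (x : DualNumber (RingQuot (Rel K))) (n : ℕ) : Commute x (n • dn (zz K) 0) := by
  refine Commute.smul_right ?_ n
  show _ = _
  ext <;> simp [(zz_comm _).eq]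

section der
variable [Algebra ℚ K] {ψ : FreeAlgebra K Bool} (h : Gr ψ)

/-- the deformation of the identity -/
def Gr.gd : RingQuot (Rel K) →ₐ[K] DualNumber (RingQuot (Rel K)) :=
  RingQuot.liftAlgHom K ⟨FreeAlgebra.lift K fun p : Fin 4 × Fin 4 =>
      LIFT.tm (h.df (T0 K)) p.1 p.2 + ka p.1 p.2 • dn (zz K) 0, by
    intro x y r
    cases r with
    | diag i => fin_cases i <;> simp [LIFT.tm_diag, ka]
    | symm i j => simp [LIFT.tm_symm _ i j, ka, add_comm, or_comm]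
    | tri i j k r =>
      simp only [map_mul, map_add, FreeAlgebra.lift_ι_apply]
      rw [add_add_add_comm, ← add_smul]
      exact (((LIFT.tm_tri _ i j k r).add_left (zc _ _).symm).add_right (zc _ _)).eq
    | far i j k l r =>
      simp only [map_mul, FreeAlgebra.lift_ι_apply]
      exact (((LIFT.tm_far _ i j k l r).add_left (zc _ _).symm).add_right (zc _ _)).eq⟩

theorem Gr.gd_tt (i j : Fin 4) :
    h.gd (tt K i j) = LIFT.tm (h.df (T0 K)) i j + ka i j • dn (zz K) 0 := by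
  simp [Gr.gd, tt]

theorem Gr.gd_fst (f : RingQuot (Rel K)) : (h.gd f).fst = f := by
  induction f using indU with
  | h0 r => simp [algebraMap_eq_inl']
  | h1 i j =>
    rw [h.gd_tt, ← tm_T0 i j]
    fin_cases i <;> fin_cases j <;> simp [LIFT.tm, ka, LIFT.ee, Gr.df, mkBr]
  | hm f g h1 h2 => simp [h1, h2]
  | ha f g h1 h2 => simp [h1, h2]

/-- the derivation of `U(t₄)` attached to `ψ` -/
def Gr.D : RingQuot (Rel K) →ₗ[K] RingQuot (Rel K) :=
  ((sndHom _ _).restrictScalars K).comp h.gd.toLinearMap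

theorem Gr.D_mul (f g : RingQuot (Rel K)) : h.D (f * g) = f * h.D g + h.D f * g := by
  simp [Gr.D, h.gd_fst]

theorem Gr.D_one : h.D 1 = 0 := by simp [Gr.D]

theorem Gr.D_tt : h.D (tt K 0 1) = 0 ∧ h.D (tt K 0 2) = -dc ψ (T0 K) ∧
    h.D (tt K 1 2) = dc ψ (T0 K) ∧ h.D (tt K 1 3) = db1 ψ (T0 K) ∧
    h.D (tt K 2 3) = da1 ψ (T0 K) := by
  simp [Gr.D, h.gd_tt, LIFT.tm, ka, Gr.df, mkBr]

theorem Gr.D_ev {a b : RingQuot (Rel K)} (U : RingQuot (Rel K)) (h1 : h.D a = ⁅a, U⁆)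
    (h2 : h.D b = ⁅b, U + ev a b ψ⁆) (f : FreeAlgebra K Bool) :
    h.D (ev a b f) = ev a b (Dp ψ f) + ⁅ev a b f, U⁆ := by
  rw [← edge ψ U h1 h2 f, show dn a (h.D a) = h.gd a by ext <;> simp [Gr.D, h.gd_fst],
    show dn b (h.D b) = h.gd b by ext <;> simp [Gr.D, h.gd_fst], ← map_ev]
  rfl

/-- the edge conditions: `(a, b, U_s, U_t)` for the five edges -/
theorem Gr.D_edges : ∃ V1 V2 V3 V4 : RingQuot (Rel K),
    (h.D (tt K 0 1) = ⁅tt K 0 1, V1⁆ ∧ h.D (tt K 1 2 + tt K 1 3) = ⁅tt K 1 2 + tt K 1 3, V2⁆ ∧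
      V2 = V1 + ev (tt K 0 1) (tt K 1 2 + tt K 1 3) ψ) ∧
    (h.D (tt K 0 2 + tt K 1 2) = ⁅tt K 0 2 + tt K 1 2, (0 : RingQuot (Rel K))⁆ ∧
      h.D (tt K 2 3) = ⁅tt K 2 3, V1⁆ ∧ V1 = 0 + ev (tt K 0 2 + tt K 1 2) (tt K 2 3) ψ) ∧
    (h.D (tt K 1 2) = ⁅tt K 1 2, V4⁆ ∧ h.D (tt K 2 3) = ⁅tt K 2 3, V2⁆ ∧
      V2 = V4 + ev (tt K 1 2) (tt K 2 3) ψ) ∧
    (h.D (tt K 0 1 + tt K 0 2) = ⁅tt K 0 1 + tt K 0 2, V3⁆ ∧
      h.D (tt K 1 3 + tt K 2 3) = ⁅tt K 1 3 + tt K 2 3, V4⁆ ∧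
      V4 = V3 + ev (tt K 0 1 + tt K 0 2) (tt K 1 3 + tt K 2 3) ψ) ∧
    (h.D (tt K 0 1) = ⁅tt K 0 1, (0 : RingQuot (Rel K))⁆ ∧ h.D (tt K 1 2) = ⁅tt K 1 2, V3⁆ ∧
      V3 = 0 + ev (tt K 0 1) (tt K 1 2) ψ) := by
  obtain ⟨d1, d2, d3, d4, d5⟩ := h.D_tt
  refine ⟨U1 ψ (T0 K), U2 ψ (T0 K), U3 ψ (T0 K), U4 ψ (T0 K), ?_⟩
  rw [add_comm (tt K 0 1)]
  simp only [map_add, d1, d2, d3, d4, d5, lie_zero, zero_add]
  rw [add_comm (tt K 1 3), add_comm (db1 ψ _)]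
  exact ⟨⟨p1 ψ (T0 K), p3 ψ (T0 K), rfl⟩, ⟨neg_add_cancel _, rfl, rfl⟩,
    ⟨p5 ψ (T0 K), p2 ψ (T0 K), p6 (T0 K) h.pent⟩, ⟨p4 ψ (T0 K), p7 (T0 K) h.pent, rfl⟩,
    trivial, rfl, rfl⟩

end der

end Pool.Agent.DD.S39
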