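import Pool.Agent.Lib.DD.Exp2
import Pool.Agent.Lib.DD.Der39

/-! Elements of the Grothendieck-Teichmueller Lie algebra act on solutions of the pentagon. -/

set_option autoImplicit false

noncomputable section

namespace Pool.Agent.DD.E2

open Pool.Agent.DR Pool.Agent.DD.S39 Finset

universe v

variable {K : Type v} [CommRing K] [Algebra ℚ K]

theorem der_of {ψ : FreeAlgebra K Bool} (h : S39.Gr ψ) : Der ψ := by
  obtain ⟨V1, V2, V3, V4, e1, e2, e3, e4, e5⟩ := h.D_edges
  refine ⟨h.D, V1, 0, V2, V3, V4, fun z z' => by rw [h.D_mul, add_comm],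
    ⟨e1.1, e1.2.1, ?_⟩, ⟨e2.1, e2.2.1, ?_⟩, ⟨e3.1, e3.2.1, ?_⟩, ⟨e4.1, e4.2.1, ?_⟩,
    ⟨e5.1, e5.2.1, ?_⟩⟩
  · rw [e1.2.2, add_sub_cancel_left]
  · rw [e2.2.2, add_sub_cancel_left]
  · rw [e3.2.2, add_sub_cancel_left]
  · rw [e4.2.2, add_sub_cancel_left]
  · rw [e5.2.2, add_sub_cancel_left]

omit [Algebra ℚ K] in
theorem pure_zero_lin {n : ℕ} {c : List Bool → K} (h : LPent (cmp c n)) :
    c (List.replicate n false) = 0 := by
  have e := h K ⟨0, 0, 0, 1, 0, by simp, by simp, by simp, by simp, by simp, by simp, by simp,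
    by simp⟩
  have e1 : ∀ u : List Bool, wd (1 : K) 0 u = if u = List.replicate u.length false then 1 else 0 := by
    intro u
    induction u with
    | nil => simp
    | cons s u ih => cases s <;> simp [ih, List.replicate_succ]
  simp only [add_zero, zero_add] at e
  have e4 : ev (1 : K) 0 (cmp c n) = 0 := by linear_combination -e
  rw [cmp, map_sum, sum_eq_single (List.replicate n false)] at e4
  · simpa [map_wd, e1] using e4
  · intro u hu hne
    rw [map_smul, map_wd, ev_x, ev_y, e1, mem_W.1 hu, if_neg hne, smul_zero]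
  · simp [mem_W]

/-- An element of degree `n` of the Lie algebra corrects a solution of the pentagon in degree `n`,
keeps the lower degrees and the other coefficients of depth at most one. -/
theorem act_pent {n : ℕ} (hn : 0 < n) {c : List Bool → K} (h : S39.Gr (cmp c n))
    {Φ : List Bool → K} (hΦ : Pentagon Φ) (h1 : Φ [] = 1) :
    ∃ Φ' : List Bool → K, Pentagon Φ' ∧ (∀ u, u.length < n → Φ' u = Φ u) ∧
      (∀ u, u.length = n → Φ' u = Φ u + c u) ∧
      ∀ u, u.count true ≤ 1 → u.length ≠ n → Φ' u = Φ u :=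
  exp_pent hn (pure_zero_lin h.pent) (der_of h) hΦ h1

end Pool.Agent.DD.E2
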