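import Pool.Agent.Lib.DD.Blue
import Mathlib.RingTheory.Nakayama
import Mathlib.Data.Set.Finite.List

set_option autoImplicit false

noncomputable section

namespace Pool.Agent.DD.F

open Pool.Agent.DR Pool.Agent.DD.S39 Pool.Agent.DD.H56

attribute [local instance 100] LieRing.ofAssociativeRing

def GS (n : ℕ) : Submodule ℚ (FA ℚ) where
  carrier := {ψ | G n ψ}
  zero_mem' := ⟨LieSubalgebra.zero_mem _, zero_mem _, fun B _ _ T => by simp⟩
  add_mem' {f g} hf hg := ⟨LieSubalgebra.add_mem _ hf.lie hg.lie, add_mem hf.hom hg.hom,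
    fun B _ _ T => by
      have h1 := hf.pent B T
      have h2 := hg.pent B T
      simp only [map_add]
      linear_combination (norm := abel1) h1 + h2⟩
  smul_mem' c f hf := ⟨LieSubalgebra.smul_mem _ c hf.lie, Submodule.smul_mem _ c hf.hom,
    fun B _ _ T => by simp only [map_smul, ← smul_add, hf.pent B T]⟩

def LZ (n : ℕ) : Submodule ℤ (FA ℤ) := ((GS n).restrictScalars ℤ).comap up.toLinearMap

theorem mem_LZ (hL : St_LAT) {n : ℕ} {ψ : FA ℤ} : ψ ∈ LZ n ↔ GZ n ψ := (hL.2.1 n ψ).symm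

theorem LZ_sat {n : ℕ} {ψ : FA ℤ} {m : ℤ} (hm : m ≠ 0) (h : m • ψ ∈ LZ n) : ψ ∈ LZ n := by
  have h1 : (m : ℚ) • up ψ ∈ GS n := by
    rw [Int.cast_smul_eq_zsmul, ← map_zsmul]
    exact h
  exact ((GS n).smul_mem_iff (by exact_mod_cast hm : (m : ℚ) ≠ 0)).1 h1

theorem LZ_ih (hL : St_LAT) (hC : St_CL) {m n : ℕ} {f g : FA ℤ} (hm : 3 ≤ m) (hn : 3 ≤ n)
    (hf : f ∈ LZ m) (hg : g ∈ LZ n) : ih f g ∈ LZ (m + n) := by
  change G (m + n) (up (ih f g))
  rw [hL.2.2.2.1]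
  exact hC ℚ m n _ _ hm hn hf hg

theorem LZ_fg (hL : St_LAT) (n : ℕ) : (LZ n).FG := by
  refine Submodule.FG.of_le (T := Hn ℤ n) ?_ fun ψ h => ((mem_LZ hL).1 h).hom
  exact Submodule.fg_span ((List.finite_length_eq Bool n).image _)

theorem pent_x {ψ : FA ℤ} (h : S39.LPent ψ) : ev (lx ℤ) 0 ψ = 0 := by
  have e1 := h (FA ℤ) ⟨0, 0, 0, lx ℤ, 0, by simp, by simp, by simp, by simp, by simp, by simp,
    by simp, by simp⟩
  simp only [add_zero, zero_add] at e1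
  linear_combination (norm := abel1) -e1

def Sat {M : Type} [AddCommGroup M] (P : Submodule ℤ M) : Submodule ℤ M where
  carrier := {g | ∃ m : ℤ, m ≠ 0 ∧ m • g ∈ P}
  zero_mem' := ⟨1, one_ne_zero, by simp⟩
  add_mem' := by
    rintro f g ⟨m, hm, hf⟩ ⟨n, hn, hg⟩
    refine ⟨m * n, mul_ne_zero hm hn, ?_⟩
    rw [smul_add, mul_smul m n g, mul_comm, mul_smul]
    exact add_mem (P.smul_mem _ hf) (P.smul_mem _ hg)
  smul_mem' := by
    rintro c f ⟨m, hm, hf⟩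
    exact ⟨m, hm, smul_comm c m f ▸ P.smul_mem c hf⟩

abbrev MonZ : ℕ → FN ℤ → Prop := Mon (fun k => 2 * k + 3) (FreeAlgebra.ι ℤ)

theorem monG (hL : St_LAT) (hC : St_CL) (hP : St_PHI) (s : ℕ → FA ℤ) {M : ℕ} {u : FN ℤ}
    (h : MonZ M u) (hs : ∀ k, 2 * k + 3 ≤ M → s k ∈ LZ (2 * k + 3)) :
    phi s u ∈ LZ M ∧ 3 ≤ M := by
  induction h with
  | of k => exact ⟨by rw [(hP ℤ s).1]; exact hs k le_rfl, by omega⟩
  | @br m n u v hu hv iu iv =>
    obtain ⟨a1, a2⟩ := iu fun k hk => hs k (by omega)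
    obtain ⟨b1, b2⟩ := iv fun k hk => hs k (by omega)
    refine ⟨?_, by omega⟩
    rw [Ring.lie_def, (hP ℤ s).2 u (hu.mem (K := ℤ)) v (hv.mem (K := ℤ))]
    exact LZ_ih hL hC a2 b2 a1 b1

def BW (N : ℕ) : Submodule ℤ (FN ℤ) :=
  Submodule.span ℤ {u | ∃ m n p q, m + n = N ∧ MonZ m p ∧ MonZ n q ∧ u = p * q - q * p}

theorem brG (hL : St_LAT) (hC : St_CL) (hP : St_PHI) (hD : St_DEP) (s : ℕ → FA ℤ) {N : ℕ}
    (hs : ∀ k, 2 * k + 3 < N → s k ∈ LZ (2 * k + 3)) {u : FN ℤ} (h : u ∈ Sat (BW N)) :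
    phi s u ∈ LZ N ∧ co (d1 N) (phi s u) = 0 := by
  have key : ∀ u ∈ BW N, phi s u ∈ LZ N ∧ co (d1 N) (phi s u) = 0 := fun u h => by
    induction h using Submodule.span_induction with
    | mem u hu =>
      obtain ⟨m, n, p, q, rfl, hp, hq, rfl⟩ := hu
      have m0 := hp.pos fun k => by omega
      have n0 := hq.pos fun k => by omega
      obtain ⟨a1, a2⟩ := monG hL hC hP s hp fun k hk => hs k (by omega)
      obtain ⟨b1, b2⟩ := monG hL hC hP s hq fun k hk => hs k (by omega)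
      rw [(hP ℤ s).2 p (hp.mem (K := ℤ)) q (hq.mem (K := ℤ))]
      exact ⟨LZ_ih hL hC a2 b2 a1 b1, hD ℤ _ _ _ (pent_x ((mem_LZ hL).1 a1).pent)
        (pent_x ((mem_LZ hL).1 b1).pent)⟩
    | zero => simp
    | add p q _ _ hp hq => simp [add_mem hp.1 hq.1, hp.2, hq.2]
    | smul c p _ hp => 
      rw [map_smul, map_smul, hp.2, smul_zero]
      exact ⟨Submodule.smul_mem _ c hp.1, rfl⟩
  obtain ⟨m, hm, h⟩ := h
  obtain ⟨h1, h2⟩ := key _ h
  rw [map_smul] at h1 h2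
  rw [map_smul] at h2
  exact ⟨LZ_sat hm h1, (smul_eq_zero.1 h2).resolve_left hm⟩

def elA (n : ℕ) : FN ℤ →ₐ[ℤ] DualNumber ℤ :=
  FreeAlgebra.lift ℤ fun k => if k = n then DualNumber.eps else 0

def el (n : ℕ) : FN ℤ →ₗ[ℤ] ℤ :=
  (AddMonoidHom.mk' (fun g => (elA n g).snd) fun a b => by simp).toIntLinearMap

theorem el_br (n : ℕ) (p q : FN ℤ) : el n (p * q - q * p) = 0 := by
  change (elA n _).snd = 0
  rw [map_sub, map_mul, map_mul, mul_comm, sub_self]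
  rfl

theorem el_of (n : ℕ) : el n (FreeAlgebra.ι ℤ n) = 1 := by
  change (elA n _).snd = 1
  simp [elA]

theorem el_dec (n : ℕ) {g : FN ℤ} (h : g ∈ Sat (LW ℤ (2 * n + 3))) :
    g - el n g • FreeAlgebra.ι ℤ n ∈ Sat (BW (2 * n + 3)) := by
  have key : ∀ g ∈ LW ℤ (2 * n + 3), g - el n g • FreeAlgebra.ι ℤ n ∈ BW (2 * n + 3) :=
    fun g h => by
    induction h using Submodule.span_induction with
    | mem u hu =>
      have : ∀ M u, MonZ M u → M = 2 * n + 3 → u - el n u • FreeAlgebra.ι ℤ n ∈ BW M := by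
        intro M u hu hM
        cases hu with
        | of k =>
          obtain rfl : k = n := by omega
          simp [el_of]
        | br hp hq =>
          rw [Ring.lie_def, el_br, zero_smul, sub_zero]
          exact Submodule.subset_span ⟨_, _, _, _, rfl, hp, hq, rfl⟩
      exact this _ u hu rfl
    | zero => simp
    | add p q _ _ hp hq =>
      rw [map_add, add_smul, add_sub_add_comm]
      exact add_mem hp hq
    | smul c p _ hp =>
      have := Submodule.smul_mem _ c hp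
      rwa [smul_sub, smul_smul, ← smul_eq_mul c, ← map_smul] at this
  obtain ⟨m, hm, h⟩ := h
  refine ⟨m, hm, ?_⟩
  rw [smul_sub, smul_smul, ← smul_eq_mul m, ← map_smul]
  exact key _ h

theorem two_J (f : FA ℤ) : (2 : ℤ) • f ∈ J := by
  have : (2 : FA ℤ) ∈ J := TwoSidedIdeal.subset_span (by simp)
  simpa [two_smul, two_mul] using J.mul_mem_right _ f this

section
variable (hL : St_LAT) (hC : St_CL) (hE : St_EX) (hD : St_DEP) (hR : St_DROP) (hS : St_STAR)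
  (hG : St_GAM) (hP : St_PHI) (hM : St_MOD)

include hL hS hG in
theorem gam : ∃ Γ : FA ℤ →ₗ[ℤ] FN ℤ, (∀ n, 3 ≤ n → ∀ ψ ∈ LZ n, Γ ψ ∈ Sat (LW ℤ n) ∧
    ψ - evb (Γ ψ) ∈ J) ∧ ∀ g, evb g ∈ J → ∃ h, g = (2 : ℤ) • h := by
  obtain ⟨Γ, h1, h2, h3⟩ := hG
  refine ⟨Γ, fun n hn ψ h => ?_, fun g hg => ?_⟩
  · have h := (mem_LZ hL).1 h
    obtain ⟨m, hm, hl⟩ := h.lie
    exact ⟨⟨m, hm, map_smul Γ m ψ ▸ h1 n _ hn (Submodule.smul_mem _ m h.hom) hl⟩,
      h3 n ψ hn h.hom h.lie (hS n ψ (by omega) h)⟩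
  · obtain ⟨h, e⟩ := h2 g 0 (by simpa using J.neg_mem hg)
    exact ⟨-h, by rw [smul_neg, eq_neg_iff_add_eq_zero, ← e, map_zero]⟩

include hL hR in
theorem half {n : ℕ} (hn : 3 ≤ n) {ψ : FA ℤ} (h : ψ ∈ LZ n) (hJ : ψ ∈ J) :
    ∃ χ ∈ LZ n, ψ = (2 : ℤ) • χ := by
  obtain ⟨χ, rfl⟩ := hR n ψ (by omega) ((mem_LZ hL).1 h) hJ
  exact ⟨χ, LZ_sat two_ne_zero h, rfl⟩

include hL hC hE hD hR hS hG hP hM in
theorem gens (n : ℕ) : ∃ σ ∈ LZ (2 * n + 3), σ - bb n ∈ J := by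
  obtain ⟨Γ, h1, -⟩ := gam hL hS hG
  induction n using Nat.strong_induction_on with
  | _ n ih =>
  choose! t ht1 ht2 using ih
  let s : ℕ → FA ℤ := fun k => if k < n then t k else bb k
  have s1 : ∀ k, 2 * k + 3 < 2 * n + 3 → s k ∈ LZ (2 * k + 3) := fun k hk => by
    simpa [s, show k < n by omega] using ht1 k (by omega)
  have s2 : ∀ k, s k - bb k ∈ J := fun k => by
    by_cases hk : k < n
    · simpa [s, hk] using ht2 k hk
    · simp [s, hk]
  have key : ∀ ψ ∈ LZ (2 * n + 3), ∃ σ ∈ LZ (2 * n + 3), ∃ c : ℤ, σ - c • bb n ∈ J ∧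
      co (d1 (2 * n + 3)) σ = co (d1 (2 * n + 3)) ψ := fun ψ h => by
    obtain ⟨a1, a2⟩ := h1 _ (by omega) ψ h
    obtain ⟨b1, b2⟩ := brG hL hC hP hD s s1 (el_dec n a1)
    refine ⟨_, sub_mem h b1, el n (Γ ψ), ?_, by rw [map_sub, b2, sub_zero]⟩
    have := J.sub_mem a2 (hM s s2 (Γ ψ - el n (Γ ψ) • FreeAlgebra.ι ℤ n))
    rw [map_sub evb, map_smul, show evb (FreeAlgebra.ι ℤ n) = bb n by simp [evb]] at this
    rwa [sub_sub_sub_comm, sub_sub_cancel] at this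
  by_contra hne
  have ev : ∀ ψ ∈ LZ (2 * n + 3), ∃ χ ∈ LZ (2 * n + 3),
      co (d1 (2 * n + 3)) ψ = 2 * co (d1 (2 * n + 3)) χ := fun ψ h => by
    obtain ⟨σ, a1, c, a2, a3⟩ := key ψ h
    obtain ⟨d, rfl | rfl⟩ := Int.even_or_odd' c
    · have := J.add_mem a2 (two_J (d • bb n))
      rw [mul_smul, sub_add_cancel] at this
      obtain ⟨χ, b1, rfl⟩ := half hL hR (by omega) a1 this
      exact ⟨χ, b1, by rw [← a3, map_smul, smul_eq_mul]⟩
    · refine (hne ⟨σ, a1, ?_⟩).elim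
      have := J.add_mem a2 (two_J (d • bb n))
      rwa [add_smul, mul_smul, one_smul, add_comm _ (bb n), ← sub_sub, sub_add_cancel] at this
  have z : ∀ r : ℕ, ∀ ψ ∈ LZ (2 * n + 3), (co (d1 (2 * n + 3)) ψ).natAbs = r → r = 0 := fun r => by
    induction r using Nat.strong_induction_on with
    | _ r ih =>
    intro ψ h e
    obtain ⟨χ, b1, b2⟩ := ev ψ h
    by_contra hr
    have := ih _ (by omega) χ b1 rfl
    omega
  obtain ⟨ψ, a1, a2⟩ := hE n
  obtain ⟨m, hm, φ, e⟩ := hL.2.2.1 ψ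
  have hφ : φ ∈ LZ (2 * n + 3) := by
    change up φ ∈ GS _
    rw [e]
    exact zsmul_mem (show ψ ∈ GS _ from a1) m
  have h0 := Int.natAbs_eq_zero.1 (z _ φ hφ rfl)
  have h2 := hL.2.2.2.2.1 (d1 (2 * n + 3)) φ
  rw [e, h0, map_zsmul] at h2
  simp [hm, a2] at h2

include hL hC hE hD hR hS hG hP hM in
theorem st_CORE : St_CORE := by
  obtain ⟨Γ, h1, h2⟩ := gam hL hS hG
  choose s s1 s2 using gens hL hC hE hD hR hS hG hP hM
  obtain ⟨u1, -, u3, -, -, u6, u7, u8⟩ := id hL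
  refine ⟨fun k => up (s k), s1, ?_, fun n ψ hn hψ => ?_⟩
  · rw [injective_iff_map_eq_zero]
    have key : ∀ g, phi s g = 0 → ∃ h, phi s h = 0 ∧ g = (2 : ℤ) • h := fun g hg => by
      obtain ⟨h, rfl⟩ := h2 g (by simpa [hg] using J.neg_mem (hM s s2 g))
      rw [map_smul] at hg
      exact ⟨h, (smul_eq_zero.1 hg).resolve_left two_ne_zero, rfl⟩
    have z : ∀ (l : FN ℤ →ₗ[ℤ] ℤ) (r : ℕ) (g), phi s g = 0 → (l g).natAbs = r → r = 0 :=
      fun l r => by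
      induction r using Nat.strong_induction_on with
      | _ r ih =>
      intro g h e
      obtain ⟨χ, b1, rfl⟩ := key g h
      rw [map_smul, smul_eq_mul] at e
      by_contra hr
      have := ih _ (by omega) χ b1 rfl
      omega
    intro g hg
    obtain ⟨m, hm, g', e⟩ := u7 g
    have : g' = 0 := (FreeAlgebra.basisFreeMonoid ℤ ℕ).forall_coord_eq_zero_iff.1 fun i =>
      Int.natAbs_eq_zero.1 (z _ _ g' (u1 (by rw [u6, e, map_zsmul, hg, smul_zero, map_zero])) rfl)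
    rw [this, map_zero, ← Int.cast_smul_eq_zsmul ℚ] at e
    exact (smul_eq_zero.1 e.symm).resolve_left (by exact_mod_cast hm)
  · have hle : LZ n ≤ (Sat (LN ℤ).toSubmodule).map (phi s) ⊔ Ideal.span {(2 : ℤ)} • LZ n := by
      intro φ h
      obtain ⟨⟨m, hm, a1⟩, a2⟩ := h1 n hn φ h
      have b1 : ∀ g ∈ LW ℤ n, phi s g ∈ LZ n ∧ g ∈ LN ℤ := fun g hg => by
        induction hg using Submodule.span_induction with
        | mem u hu => exact ⟨(monG hL hC hP s hu fun k _ => s1 k).1, hu.mem⟩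
        | zero => simp
        | add p q _ _ hp hq => exact ⟨map_add (phi s) p q ▸ add_mem hp.1 hq.1, add_mem hp.2 hq.2⟩
        | smul c p _ hp =>
          exact ⟨map_smul (phi s) c p ▸ Submodule.smul_mem _ c hp.1, (LN ℤ).smul_mem c hp.2⟩
      obtain ⟨c1, c2⟩ := b1 _ a1
      rw [map_smul] at c1
      obtain ⟨χ, d1, d2⟩ := half hL hR hn (sub_mem h (LZ_sat hm c1))
        (by simpa using J.sub_mem a2 (hM s s2 (Γ φ)))
      rw [sub_eq_iff_eq_add'.1 d2]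
      exact Submodule.add_mem_sup ⟨_, ⟨m, hm, c2⟩, rfl⟩
        (Submodule.smul_mem_smul (Ideal.mem_span_singleton_self _) d1)
    obtain ⟨r, hr, hr2⟩ := Submodule.exists_sub_one_mem_and_smul_le_of_fg_of_le_sup (LZ_fg hL n)
      le_rfl hle
    have r0 : r ≠ 0 := by
      rintro rfl
      rw [Ideal.mem_span_singleton] at hr
      omega
    obtain ⟨m, hm, φ, e⟩ := u3 ψ
    have hφ : φ ∈ LZ n := by
      change up φ ∈ GS _
      rw [e]
      exact zsmul_mem (show ψ ∈ GS _ from hψ) m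
    obtain ⟨g, ⟨m', hm', hg⟩, e2⟩ := hr2 (Submodule.smul_mem_pointwise_smul φ r _ hφ)
    refine ⟨((m' * r * m : ℤ) : ℚ)⁻¹ • upN (m' • g), (LN ℚ).smul_mem _ (u8 _ hg), ?_⟩
    rw [map_smul, ← u6, map_smul, e2, map_zsmul, map_zsmul, e, smul_smul, smul_smul,
      ← Int.cast_smul_eq_zsmul ℚ, smul_smul, inv_mul_cancel₀, one_smul]
    exact_mod_cast mul_ne_zero (mul_ne_zero hm' r0) hm

end

end Pool.Agent.DD.F
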