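import Pool.Agent.Lib.DD.F_CO
import Mathlib.Algebra.Polynomial.Coeff

set_option autoImplicit false

noncomputable section

namespace Pool.Agent.DD.F

open Pool.Agent.DR Pool.Agent.DD.S39 Polynomial

universe v

namespace DEP39

variable {K : Type v} [CommRing K]

/-- the representation that reads the depth one part -/
def tau (K : Type v) [CommRing K] : FA K →ₐ[K] Matrix (Fin 2) (Fin 2) K[X] :=
  ev !![X, 0; 0, 0] !![0, 1; 0, 0]

theorem tau_sh (f : FA K) :
    tau K f 0 0 = ev X 0 f ∧ tau K f 1 0 = 0 ∧ tau K f 1 1 = ev 0 0 f := by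
  induction f using ind with
  | h0 r => simp [Matrix.algebraMap_matrix_apply]
  | hx => simp [tau]
  | hy => simp [tau]
  | hm f g hf hg => simp [Matrix.mul_apply, hf, hg]
  | ha f g hf hg => simp [hf, hg]

theorem tau_mul (f g : FA K) :
    tau K (f * g) 0 1 = ev X 0 f * tau K g 0 1 + tau K f 0 1 * ev 0 0 g := by
  simp [Matrix.mul_apply, tau_sh]

theorem tau_x : tau K (lx K) 0 1 = 0 := by simp [tau]
theorem tau_y : tau K (ly K) 0 1 = 1 := by simp [tau]

theorem ev00 (u : List Bool) :
    ev (0 : K[X]) 0 (wd (lx K) (ly K) u) = if u = [] then 1 else 0 := by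
  rcases u with _ | ⟨s, u⟩
  · simp
  · cases s <;> simp

theorem tau_wd (u : List Bool) (k : ℕ) : (tau K (wd (lx K) (ly K) u) 0 1).coeff k =
    if u = List.replicate k false ++ [true] then 1 else 0 := by
  induction u generalizing k with
  | nil => simp
  | cons s u ih =>
    cases s
    · rw [wd_false, tau_mul, tau_x, ev_x, zero_mul, add_zero]
      cases k with
      | zero => simp
      | succ k => rw [coeff_X_mul, ih]; simp [List.replicate_succ]
    · rw [wd_true, tau_mul, tau_y, ev_y, zero_mul, zero_add, one_mul, ev00]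
      cases k with
      | zero => split_ifs <;> simp_all
      | succ k => split_ifs <;> simp_all [List.replicate_succ, coeff_one]

theorem co_d1 (n : ℕ) (f : FA K) : co (d1 n) f = (tau K f 0 1).coeff (n - 1) := by
  have e : co (d1 n) = (lcoeff K (n - 1)).comp
      ((Matrix.entryLinearMap K K[X] (0 : Fin 2) (1 : Fin 2)).comp (tau K).toLinearMap) :=
    (FreeAlgebra.basisFreeMonoid K Bool).ext fun w => by
      have := CO.basis_eq (K := K) w.toList
      rw [FreeMonoid.ofList_toList] at this
      rw [this, CO.co_wd]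
      exact (tau_wd _ _).symm
  rw [e]
  rfl

theorem ev_zero {f : FA K} (h : ev (lx K) 0 f = 0) (a : K[X]) : ev a 0 f = 0 := by
  simpa [map_ev] using congrArg (ev a (0 : K[X])) h

theorem tau_D {f : FA K} (h : ev (lx K) 0 f = 0) (g : FA K) : tau K (D f g) = 0 := by
  induction g using ind with
  | h0 r => simp
  | hx => simp
  | hy =>
    rw [D_y, map_sub]
    ext1 i j
    fin_cases i <;> fin_cases j <;> simp [Matrix.mul_apply, tau_sh, tau_y, ev_zero h]
  | hm g g' h1 h2 => simp [D_mul, h1, h2]
  | ha g g' h1 h2 => simp [h1, h2]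

end DEP39

theorem st_DEP39 : St_DEP := fun K _ n f g hf hg => by
  rw [DEP39.co_d1, F.ih]
  simp [DEP39.tau_D hf, DEP39.tau_D hg, Matrix.mul_apply, DEP39.tau_sh, DEP39.ev_zero hf, DEP39.ev_zero hg]

end Pool.Agent.DD.F
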