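import Pool.Agent.Lib.DD.F_FU

set_option autoImplicit false

noncomputable section

namespace Pool.Agent.DD.F

open Pool.Agent.DR Pool.Agent.DD.S39 Pool.Agent.DD.H56

attribute [local instance 100] LieRing.ofAssociativeRing

namespace H56

universe v

theorem isLie_D {K : Type v} [CommRing K] {ψ f : FA K} (hψ : IsLie ψ) (hf : IsLie f) :
    IsLie (D ψ f) := by
  have hy : IsLie (ly K) := LieSubalgebra.subset_lieSpan (by simp)
  refine hf.ind (P := fun f => IsLie (D ψ f)) ?_ ?_ ?_ ?_ ?_ ?_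
  · rw [D_x]; exact zero_mem _
  · rw [D_y]; exact hy.lie hψ
  · rw [map_zero]; exact zero_mem _
  · intro f g _ _ h1 h2
    rw [map_add]; exact add_mem h1 h2
  · intro r f _ h1
    rw [map_smul]; exact LieSubalgebra.smul_mem _ r h1
  · intro f g h1 h2 h3 h4
    have e : D ψ (f * g - g * f) = ⁅D ψ f, g⁆ + ⁅f, D ψ g⁆ := by
      simp only [map_sub, D_mul, LieRing.of_associative_ring_bracket]; abel
    rw [e]
    exact add_mem (h3.lie h2) (h1.lie h4)

theorem isLie_iff_range {K : Type v} [CommRing K] (f : FA K) :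
    IsLie f ↔ ∃ u, iota K Bool u = f := by
  rw [isLie_iff, mem_range_iota]

theorem iota_x : iota ℚ Bool x = lx ℚ := iota_of _ _ _

theorem iota_y : iota ℚ Bool y = ly ℚ := iota_of _ _ _

end H56

theorem st_DL : St_DL := by
  have hinj := iota_injective ℚ Bool
  obtain ⟨r, hr⟩ := LinearMap.exists_leftInverse_of_injective (iota ℚ Bool).toLinearMap
    (LinearMap.ker_eq_bot.2 hinj)
  have hr1 : ∀ u, r (iota ℚ Bool u) = u := fun u => LinearMap.congr_fun hr u
  have hr2 : ∀ ψ f : L, iota ℚ Bool (r (D (iota ℚ Bool ψ) (iota ℚ Bool f))) =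
      D (iota ℚ Bool ψ) (iota ℚ Bool f) := by
    intro ψ f
    obtain ⟨u, hu⟩ := (H56.isLie_iff_range _).1
      (H56.isLie_D ((H56.isLie_iff_range _).2 ⟨ψ, rfl⟩) ((H56.isLie_iff_range _).2 ⟨f, rfl⟩))
    rw [← hu, hr1]
  let Dl : L → LieDerivation ℚ L L := fun ψ =>
    { toLinearMap := r ∘ₗ D (iota ℚ Bool ψ) ∘ₗ (iota ℚ Bool).toLinearMap
      leibniz' := fun a b => by
        apply hinj
        simp only [LinearMap.comp_apply, LieHom.coe_toLinearMap, map_sub, LieHom.map_lie, hr2]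
        rw [← LieHom.map_lie, hr2]
        simp only [LieHom.map_lie, LieRing.of_associative_ring_bracket, map_sub, D_mul]
        abel }
  have hD : ∀ ψ f, iota ℚ Bool (Dl ψ f) = D (iota ℚ Bool ψ) (iota ℚ Bool f) := hr2
  refine ⟨Dl, fun ψ => ⟨hinj ?_, hinj ?_⟩, hD⟩
  · rw [hD, H56.iota_x, D_x, map_zero]
  · rw [hD, LieHom.map_lie, H56.iota_y, D_y, LieRing.of_associative_ring_bracket]

end Pool.Agent.DD.F
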