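import Pool.Agent.Lib.DR.Defs

set_option autoImplicit false

namespace Pool.Agent.DD

/-- Zagier's numbers `d_0 = 1`, `d_1 = 0`, `d_2 = 1`, `d_n = d_{n-2} + d_{n-3}`. -/
def zag : ℕ → ℕ
  | 0 => 1
  | 1 => 0
  | 2 => 1
  | n + 3 => zag (n + 1) + zag n

end Pool.Agent.DD
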