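import Pool.Agent.Lib.DD.Nak12
import Pool.Agent.Lib.DD.HofDefs
import Pool.Agent.Lib.DR.Glue2
import Pool.Agent.Lib.DR.B_UNI
import Pool.Agent.Lib.DR.B_FAM
import Pool.Agent.Lib.DR.B_VAN
import Pool.Agent.Lib.DR.B_AB
import Pool.Agent.Lib.DR.B_ETA
import Pool.Agent.Lib.DR.B_LIFT
import Pool.Agent.Lib.DR.B_CONV
import Pool.Agent.Lib.DR.B_FLAT
import Pool.Agent.Lib.DR.B_BND
import Pool.Agent.Lib.DR.B_DIAG
import Pool.Agent.Lib.DR.B_ARR
import Pool.Agent.Lib.DR.B_CHAIN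
import Pool.Agent.Lib.DR.B_MAT
import Pool.Agent.Lib.DR.B_QQ
import Pool.Agent.Lib.DR.B_PROD
import Pool.Agent.Lib.DR.B_REC
import Pool.Agent.Lib.DR.B_SPAN
import Pool.Agent.Lib.DR.B_MSW
import Pool.Agent.Lib.DR.B_INJ

set_option autoImplicit false

noncomputable section

namespace Pool.Agent.DD

open Pool.Agent.DR Finset Pointwise

universe v

namespace N12

/-- Hoffman indices of weight `n` -/
def HG : ℕ → Finset (List ℕ)
  | 0 => {[]}
  | 1 => ∅
  | 2 => {[2]}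
  | n + 3 => ((HG (n + 1)).map ⟨List.cons 2, List.cons_injective⟩).disjUnion
      ((HG n).map ⟨List.cons 3, List.cons_injective⟩) (by simp [disjoint_left])

theorem card_HG : ∀ n, (HG n).card = zag n
  | 0 => rfl
  | 1 => rfl
  | 2 => rfl
  | n + 3 => by rw [HG, card_disjUnion, card_map, card_map, card_HG (n + 1), card_HG n, zag]

theorem mem_HG : ∀ (k : List ℕ) (n : ℕ), k ∈ HG n ↔ (∀ j ∈ k, j = 2 ∨ j = 3) ∧ k.sum = n
  | [], 0 => by simp [HG]
  | [], 1 => by simp [HG]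
  | [], 2 => by simp [HG]
  | [], n + 3 => by simp [HG]
  | j :: k, 0 => by
    simp only [HG, mem_singleton, reduceCtorEq, List.forall_mem_cons, List.sum_cons, false_iff]
    omega
  | j :: k, 1 => by
    simp only [HG, notMem_empty, List.forall_mem_cons, List.sum_cons, false_iff]
    omega
  | j :: k, 2 => by
    have := mem_HG k 0
    simp only [HG, mem_singleton, List.cons.injEq, List.forall_mem_cons, List.sum_cons] at this ⊢
    rw [this]
    constructor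
    · rintro ⟨rfl, a, b⟩
      exact ⟨⟨Or.inl rfl, a⟩, by omega⟩
    · rintro ⟨⟨a, b⟩, c⟩
      exact ⟨by omega, b, by omega⟩
  | j :: k, n + 3 => by
    have h1 := mem_HG k (n + 1)
    have h2 := mem_HG k n
    simp only [HG, mem_disjUnion, mem_map, Function.Embedding.coeFn_mk, List.cons.injEq,
      List.forall_mem_cons, List.sum_cons]
    constructor
    · rintro (⟨_, a, rfl, rfl⟩ | ⟨_, a, rfl, rfl⟩)
      · exact ⟨⟨Or.inl rfl, (h1.1 a).1⟩, by have := (h1.1 a).2; omega⟩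
      · exact ⟨⟨Or.inr rfl, (h2.1 a).1⟩, by have := (h2.1 a).2; omega⟩
    · rintro ⟨⟨rfl | rfl, b⟩, c⟩
      · exact Or.inl ⟨k, h1.2 ⟨b, by omega⟩, rfl, rfl⟩
      · exact Or.inr ⟨k, h2.2 ⟨b, by omega⟩, rfl, rfl⟩

theorem drop {R : Type v} [CommRing R] {Φ : List Bool → R} (h : Pent Φ) (h1 : Φ [] = 1)
    (w : List Bool) : Φ w ∈ Submodule.span ℤ (Φ '' {u | Good u ∧ u.length = w.length}) := by
  obtain ⟨a, ha⟩ := adm_ex.{v} st_UNIV st_FOX st_UNI st_FAM st_VAN st_AB st_ETA st_TENS st_CONV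
    (t_CHAIN st_FLAT st_BND st_DIAG st_ARR) (t_SPAN (t_REC st_MAT st_QQ st_PROD)) st_MSW st_INJ
  refine Submodule.span_le.2 ?_ (st_SH2 R Φ (st_SH1 R Φ h h1) w)
  rintro _ ⟨u, ⟨hA, hl⟩, rfl⟩
  rcases u with _ | ⟨_ | _, u⟩
  · exact Submodule.subset_span ⟨[], ⟨⟨[], by simp, rfl⟩, hl⟩, rfl⟩
  · obtain ⟨h2, -, h3⟩ := ha u hA.1
    rw [h3 R Φ h h1]
    refine Submodule.sum_mem _ fun t ht => ?_
    by_cases h0 : a (false :: u) t = 0
    · simp [h0]
    · exact Submodule.smul_mem _ _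
        (Submodule.subset_span ⟨t, ⟨h2 t h0, (mem_W.1 ht).trans hl⟩, rfl⟩)
  · exact absurd hA.2 (by simp)

theorem hoff {R : Type} [CommRing R] {Φ : List Bool → R} (h : Pent Φ) (h1 : Φ [] = 1) (n : ℕ) :
    ∃ d : ℤ, Odd d ∧ ∀ w : List Bool, w.length = n →
      d • Φ w ∈ Submodule.span ℤ ((fun k => Φ (idx k)) '' HG n) := by
  obtain ⟨d, hd, e⟩ := Submodule.exists_sub_one_mem_and_smul_le_of_fg_of_le_sup
    (I := Ideal.span {(2 : ℤ)}) (N := Submodule.span ℤ ((fun k => Φ (idx k)) '' HG n))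
    (N' := La Φ n) (P := La Φ n)
    (Submodule.fg_span ((List.finite_length_eq Bool n).image _)) le_rfl (by
      refine Submodule.span_le.2 ?_
      rintro _ ⟨w, rfl, rfl⟩
      refine Submodule.span_le.2 ?_ (drop h h1 w)
      rintro _ ⟨_, ⟨⟨k, hk, rfl⟩, hl⟩, rfl⟩
      by_cases h4 : ∃ j ∈ k, 4 ≤ j
      · obtain ⟨z, hz, e⟩ := half h h1 k hk h4
        rw [e]
        exact Submodule.mem_sup_right
          (Submodule.smul_mem_smul (Ideal.subset_span rfl) (hl ▸ hz))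
      · refine Submodule.mem_sup_left (Submodule.subset_span ⟨k, (mem_HG k _).2 ⟨fun j hj => ?_,
          by rw [← length_idx k hk, hl]⟩, rfl⟩)
        have := hk j hj
        have : ¬4 ≤ j := fun h => h4 ⟨j, hj, h⟩
        omega)
  obtain ⟨m, hm⟩ := Ideal.mem_span_singleton'.1 hd
  exact ⟨d, ⟨m, by omega⟩, fun w hw =>
    e (Submodule.smul_mem_pointwise_smul _ _ _ (Submodule.subset_span ⟨w, hw, rfl⟩))⟩

end N12

open N12 in
/-- the Hoffman coefficients span, with a universal odd denominator -/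
theorem st_HOF (n : ℕ) : ∃ (G : Finset (List ℕ)) (d : ℤ) (c : List Bool → List ℕ → ℤ),
    (∀ k, k ∈ G ↔ (∀ j ∈ k, j = 2 ∨ j = 3) ∧ k.sum = n) ∧ G.card = zag n ∧ Odd d ∧
    ∀ (R : Type v) [CommRing R] (Φ : List Bool → R), Φ [] = 1 → Pent Φ →
      ∀ w : List Bool, w.length = n → d • Φ w = ∑ k ∈ G, c w k • Φ (idx k) := by
  obtain ⟨O, _, Ψ, h1, h, hu⟩ := univ_sol.{v}
  obtain ⟨d, hd, e⟩ := hoff h h1 n
  simp only [Submodule.mem_span_image_finset_iff_exists_fun'] at e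
  choose! c hc using e
  refine ⟨HG n, d, c, fun k => mem_HG k n, card_HG n, hd, fun R _ Φ g1 g w hw => ?_⟩
  obtain ⟨f, hf⟩ := hu R Φ g1 g
  simpa only [map_zsmul, map_sum, hf] using congrArg f (hc w hw).symm

end Pool.Agent.DD
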