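import Pool.Agent.Lib.DD.Blue
import Pool.Agent.Lib.DD.Hof12

set_option autoImplicit false

noncomputable section

namespace Pool.Agent.DD.F

open Pool.Agent.DR Pool.Agent.DD.S39 Finset TrivSqZeroExt

namespace DROP

theorem words {K : Type} [CommRing K] (f : FA K) :
    f ∈ Submodule.span K (Set.range (wd (lx K) (ly K))) := by
  induction f using S39.ind with
  | h0 r =>
    rw [Algebra.algebraMap_eq_smul_one]
    exact Submodule.smul_mem _ _ (Submodule.subset_span ⟨[], rfl⟩)
  | hx => exact Submodule.subset_span ⟨[false], by simp⟩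
  | hy => exact Submodule.subset_span ⟨[true], by simp⟩
  | hm f g hf hg =>
    have h := Submodule.mul_mem_mul hf hg
    rw [Submodule.span_mul_span] at h
    refine Submodule.span_mono ?_ h
    rintro _ ⟨_, ⟨u, rfl⟩, _, ⟨v, rfl⟩, rfl⟩
    exact ⟨u ++ v, wd_append _ _ _ _⟩
  | ha f g hf hg => exact add_mem hf hg

theorem not_NY (v' : List Bool) : ∀ v, ¬ S12.NY (v ++ true :: true :: v')
  | [] => by simp [S12.NY]
  | false :: v => not_NY v' v
  | true :: v => fun h => not_NY v' v h.2

theorem even_co (hCO : St_CO) {u : List Bool} (hu : S12.NY u) {ψ : FA ℤ} (h : ψ ∈ J) :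
    (2 : ℤ) ∣ co u ψ := by
  have key : ∀ a b : FA ℤ, (2 : ℤ) ∣ co u (a * ψ * b) := by
    induction h using TwoSidedIdeal.span_induction with
    | mem x hx =>
      intro a b
      rcases hx with rfl | rfl
      · have : a * 2 * b = (2 : ℤ) • (a * b) := by rw [mul_two, add_mul, two_smul]
        rw [this, map_smul]
        exact Dvd.intro _ rfl
      · induction words a using Submodule.span_induction with
        | mem a ha =>
          induction words b using Submodule.span_induction with
          | mem b hb =>
            obtain ⟨v, rfl⟩ := ha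
            obtain ⟨v', rfl⟩ := hb
            have : wd (lx ℤ) (ly ℤ) v * (ly ℤ * ly ℤ) * wd (lx ℤ) (ly ℤ) v' =
                wd (lx ℤ) (ly ℤ) (v ++ true :: true :: v') := by simp [wd_append, mul_assoc]
            rw [this, (hCO ℤ).1, if_neg fun h => not_NY v' v (by rw [h]; exact hu)]
            exact dvd_zero _
          | zero => simp
          | add b c _ _ hb hc => rw [mul_add, map_add]; exact dvd_add hb hc
          | smul r b _ hb => rw [mul_smul_comm, map_smul]; exact hb.mul_left r
        | zero => simp
        | add a c _ _ ha hc => rw [add_mul, add_mul, map_add]; exact dvd_add ha hc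
        | smul r a _ ha => rw [smul_mul_assoc, smul_mul_assoc, map_smul]; exact ha.mul_left r
    | zero => simp
    | add x y _ _ hx hy =>
      intro a b
      rw [mul_add, add_mul, map_add]
      exact dvd_add (hx a b) (hy a b)
    | neg x _ hx =>
      intro a b
      rw [mul_neg, neg_mul, map_neg]
      exact (dvd_neg).2 (hx a b)
    | left_absorb c x _ hx => intro a b; simpa only [mul_assoc] using hx (a * c) b
    | right_absorb c x _ hx => intro a b; simpa only [mul_assoc] using hx a (c * b)
  simpa using key 1 1

end DROP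

theorem st_DROP (hCO : St_CO) : St_DROP := by
  intro n ψ hn h hJ
  obtain ⟨-, c2, c3, c4, -⟩ := hCO ℤ
  have hp := ((c4 n ψ h.hom).1 h.pent).pent
  have h0 : co [] ψ = 0 := (c2 n ψ).1 h.hom [] (by simp; omega)
  have h1 : lin (fun w => co w ψ) [] = 1 := by ext <;> simp [h0]
  have ev : ∀ w, (2 : ℤ) ∣ co w ψ := fun w => by
    have hw := N12.drop hp h1 w
    rw [← snd_lin (fun w => co w ψ) w]
    generalize lin (fun w => co w ψ) w = z at hw
    induction hw using Submodule.span_induction with
    | mem z hz =>
      obtain ⟨u, ⟨⟨k, hk, rfl⟩, -⟩, rfl⟩ := hz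
      rw [snd_lin]
      exact DROP.even_co hCO (S12.idx_facts k hk).1 hJ
    | zero => simp
    | add a b _ _ ha hb => rw [snd_add]; exact dvd_add ha hb
    | smul r a _ ha => rw [snd_smul]; exact ha.mul_left r
  choose c hc using ev
  refine ⟨∑ u ∈ W n, c u • wd (lx ℤ) (ly ℤ) u, (c3 n ψ h.hom).trans ?_⟩
  rw [smul_sum]
  exact sum_congr rfl fun u _ => by rw [hc u]; exact mul_smul _ _ _

end Pool.Agent.DD.F
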