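import Pool.Agent.Lib.DD.FU56

set_option autoImplicit false

noncomputable section

namespace Pool.Agent.DD.H56

attribute [local instance 100] LieRing.ofAssociativeRing

open Pool.Agent.DR TensorProduct

section Basic

variable {K : Type*} [CommRing K] {B : Type*} [Ring B] [Algebra K B]

theorem PentA.ev_zero_right {ψ : FreeAlgebra K Bool} (h : PentA (tt K) ψ) (x : B) :
    ev x 0 ψ = 0 := by
  let t : Fin 4 → Fin 4 → B := ![![0, x, 0, 0], ![x, 0, 0, 0], ![0, 0, 0, 0], ![0, 0, 0, 0]]
  have ht : Braid t := by
    refine ⟨fun i => ?_, fun i j => ?_, fun i j k h => ?_, fun i j k l h => ?_⟩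
    · fin_cases i <;> rfl
    · fin_cases i <;> fin_cases j <;> rfl
    · fin_cases i <;> fin_cases j <;> fin_cases k <;>
        first
        | exact absurd h (by decide)
        | simp [t]
    · fin_cases i <;> fin_cases j <;> fin_cases k <;> fin_cases l <;>
        first
        | exact absurd h (by decide)
        | simp [t]
  have := h.univ ht
  change ev x (0 + 0) ψ + ev (0 + 0) 0 ψ = ev 0 0 ψ + ev (x + 0) (0 + 0) ψ + ev x 0 ψ at this
  simp only [add_zero] at this
  linear_combination (norm := abel) -this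

theorem PentA.ev_zero_left {ψ : FreeAlgebra K Bool} (h : PentA (tt K) ψ) (y : B) :
    ev 0 y ψ = 0 := by
  let t : Fin 4 → Fin 4 → B := ![![0, 0, 0, 0], ![0, 0, 0, 0], ![0, 0, 0, y], ![0, 0, y, 0]]
  have ht : Braid t := by
    refine ⟨fun i => ?_, fun i j => ?_, fun i j k h => ?_, fun i j k l h => ?_⟩
    · fin_cases i <;> rfl
    · fin_cases i <;> fin_cases j <;> rfl
    · fin_cases i <;> fin_cases j <;> fin_cases k <;>
        first
        | exact absurd h (by decide)
        | simp [t]
    · fin_cases i <;> fin_cases j <;> fin_cases k <;> fin_cases l <;>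
        first
        | exact absurd h (by decide)
        | simp [t]
  have := h.univ ht
  change ev 0 (0 + 0) ψ + ev (0 + 0) y ψ = ev 0 y ψ + ev (0 + 0) (0 + y) ψ + ev 0 0 ψ at this
  simp only [add_zero, zero_add] at this
  linear_combination (norm := abel) -this

/-- A solution of the linear pentagon is additive on commuting pairs. -/
theorem PentA.add_ev {ψ : FreeAlgebra K Bool} (h : PentA (tt K) ψ) {x y x' y' : B}
    (h1 : Commute x x') (h2 : Commute x y') (h3 : Commute y x') (h4 : Commute y y') :
    ev (x + x') (y + y') ψ = ev x y ψ + ev x' y' ψ := by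
  let t : Fin 4 → Fin 4 → B :=
    ![![0, x, x', -x - x' - y - y'], ![x, 0, 0, y], ![x', 0, 0, y'], ![-x - x' - y - y', y, y', 0]]
  have ht : Braid t := by
    refine ⟨fun i => ?_, fun i j => ?_, fun i j k h => ?_, fun i j k l h => ?_⟩
    · fin_cases i <;> rfl
    · fin_cases i <;> fin_cases j <;> rfl
    · fin_cases i <;> fin_cases j <;> fin_cases k <;>
        first
        | exact absurd h (by decide)
        | (simp only [t, LieRing.of_associative_ring_bracket, Fin.mk_one, Fin.zero_eta,
            Fin.reduceFinMk, Matrix.cons_val, Matrix.cons_val_zero, Matrix.cons_val_one, mul_add,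
            add_mul, mul_sub, sub_mul, mul_neg, neg_mul, mul_zero, zero_mul, h1.eq, h2.eq, h3.eq,
            h4.eq]
           abel)
    · fin_cases i <;> fin_cases j <;> fin_cases k <;> fin_cases l <;>
        first
        | exact absurd h (by decide)
        | simp [t, LieRing.of_associative_ring_bracket, h2.eq, h3.eq]
  have := h.univ ht
  change ev x (0 + y) ψ + ev (x' + 0) y' ψ = ev 0 y' ψ + ev (x + x') (y + y') ψ + ev x 0 ψ at this
  rw [h.ev_zero_left, h.ev_zero_right] at this
  simpa using this.symm

/-- A solution of the linear pentagon is primitive (any commutative ring). -/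
theorem PentA.prim {ψ : FreeAlgebra K Bool} (h : PentA (tt K) ψ) :
    cop K Bool ψ = ψ ⊗ₜ 1 + 1 ⊗ₜ ψ := by
  let L : FreeAlgebra K Bool →ₐ[K] FreeAlgebra K Bool ⊗[K] FreeAlgebra K Bool :=
    Algebra.TensorProduct.includeLeft
  let R : FreeAlgebra K Bool →ₐ[K] FreeAlgebra K Bool ⊗[K] FreeAlgebra K Bool :=
    Algebra.TensorProduct.includeRight
  have hc : ∀ a b, Commute (L a) (R b) := fun a b => by
    simp [L, R, Commute, SemiconjBy]
  have h1 := h.add_ev (hc (FreeAlgebra.ι K false) (FreeAlgebra.ι K false))
    (hc (FreeAlgebra.ι K false) (FreeAlgebra.ι K true))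
    (hc (FreeAlgebra.ι K true) (FreeAlgebra.ι K false))
    (hc (FreeAlgebra.ι K true) (FreeAlgebra.ι K true))
  rw [← map_ev, ← map_ev, ev_self] at h1
  have h2 : cop K Bool = ev (L (FreeAlgebra.ι K false) + R (FreeAlgebra.ι K false))
      (L (FreeAlgebra.ι K true) + R (FreeAlgebra.ι K true)) := by
    apply FreeAlgebra.hom_ext
    funext s
    cases s <;> simp [L, R]
  rw [h2, h1]
  rfl

end Basic

/-- A solution of the linear pentagon over a field of characteristic zero is a Lie polynomial. -/
theorem PentA.lie {K : Type*} [Field K] [CharZero K] {ψ : FreeAlgebra K Bool}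
    (h : PentA (tt K) ψ) : ψ ∈ Lie2 K :=
  lie_of_prim h.prim

/-- The pentagon alone gives all the equations of `grt`. -/
theorem PentA.grt {K : Type*} [Field K] [CharZero K] {ψ : FreeAlgebra K Bool}
    (h : PentA (tt K) ψ) (h3 : ψ ∈ Ge K 3) :
    ψ ∈ Lie2 K ∧ ψ + ev (FreeAlgebra.ι K true) (FreeAlgebra.ι K false) ψ = 0 ∧
      ψ + ev (FreeAlgebra.ι K true) (-FreeAlgebra.ι K false - FreeAlgebra.ι K true) ψ +
        ev (-FreeAlgebra.ι K false - FreeAlgebra.ι K true) (FreeAlgebra.ι K false) ψ = 0 := by
  refine ⟨h.lie, ?_, ?_⟩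
  · have := two_cycle h.lie (Ge.mono (by norm_num) h3) h (FreeAlgebra.ι K false)
      (FreeAlgebra.ι K true)
    rwa [ev_self] at this
  · have := three_cycle h.lie h3 h (FreeAlgebra.ι K false) (FreeAlgebra.ι K true)
    rwa [ev_self] at this

end Pool.Agent.DD.H56
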