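import Pool.Agent.Lib.DD.Blue
import Pool.Agent.Lib.DD.PL56
import Pool.Agent.Lib.DD.Der39

set_option autoImplicit false

noncomputable section

namespace Pool.Agent.DD.F.H56

open Pool.Agent.DR Pool.Agent.DD.S39

attribute [local instance 100] LieRing.ofAssociativeRing

universe v

variable {K : Type v} [CommRing K]

theorem range_ι : Set.range (FreeAlgebra.ι K : Bool → FA K) = {lx K, ly K} := by
  ext f
  simp only [Set.mem_range, Bool.exists_bool, lx, ly, Set.mem_insert_iff, Set.mem_singleton_iff,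
    eq_comm]

theorem isLie_iff (ψ : FA K) : IsLie ψ ↔ ψ ∈ DD.H56.Lie2 K := by
  rw [IsLie, DD.H56.Lie2, range_ι]

theorem wd_eq (u : List Bool) : wd (lx K) (ly K) u = (u.map (FreeAlgebra.ι K)).prod := by
  induction u with
  | nil => simp
  | cons s u ih => cases s <;> simp [ih] <;> rfl

theorem Hn_le_Ge {m n : ℕ} (h : m ≤ n) : Hn K n ≤ DD.H56.Ge K m := by
  refine Submodule.span_mono ?_
  rintro _ ⟨u, hu, rfl⟩
  exact ⟨u, h.trans (le_of_eq hu.symm), wd_eq u⟩

theorem lpent_iff (ψ : FA K) : S39.LPent ψ ↔ DD.H56.PentA (tt K) ψ := by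
  refine ⟨fun h => ?_, fun h => lpent_of h⟩
  have := h _ (T0 K)
  change S39.ev (tt K 0 1) (tt K 1 2 + tt K 1 3) ψ + S39.ev (tt K 0 2 + tt K 1 2) (tt K 2 3) ψ =
    S39.ev (tt K 1 2) (tt K 2 3) ψ + S39.ev (tt K 0 2 + tt K 0 1) (tt K 2 3 + tt K 1 3) ψ +
      S39.ev (tt K 0 1) (tt K 1 2) ψ at this
  rw [add_comm (tt K 0 2) (tt K 0 1), add_comm (tt K 2 3) (tt K 1 3)] at this
  exact this

/-- The linear pentagon forces a polynomial to be Lie (characteristic zero). -/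
theorem isLie_of_lpent {K : Type v} [Field K] [CharZero K] {ψ : FA K} (h : S39.LPent ψ) :
    IsLie ψ :=
  (isLie_iff ψ).2 ((lpent_iff ψ).1 h).lie

/-- The linear pentagon in degree at least three gives all the relations. -/
theorem gr_of_lpent {K : Type v} [Field K] [CharZero K] {n : ℕ} (hn : 3 ≤ n) {ψ : FA K}
    (h1 : ψ ∈ Hn K n) (h : S39.LPent ψ) : S39.Gr ψ :=
  have h2 := ((lpent_iff ψ).1 h).grt (Hn_le_Ge hn h1)
  ⟨isLie_of_lpent h, h, h2.2.1, h2.2.2⟩

end Pool.Agent.DD.F.H56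

namespace Pool.Agent.DD.F

theorem st_FU : St_FU := fun _ _ _ _ _ hn h =>
  have h2 := H56.gr_of_lpent hn h.hom h.pent
  ⟨h2.anti, h2.hex⟩

end Pool.Agent.DD.F
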