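import Pool.Agent.Lib.DD.F_CO
import Pool.Agent.Lib.DD.F_FU
import Pool.Agent.Lib.DD.Act2
import Pool.Agent.Lib.KZ.All
import Mathlib.RingTheory.TensorProduct.Basic
import Mathlib.LinearAlgebra.Dual.Lemmas

/-! Elements of every odd degree with a nonzero coefficient of depth one. -/

set_option autoImplicit false

noncomputable section

namespace Pool.Agent.DD.F

open Pool.Agent.DR Pool.Agent.DD.S39 Finset PowerSeries TensorProduct

namespace H19

section ser
variable {B : Type*} [Ring B]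

/-- constant term one and no odd component below `n` -/
def Ev (n : ℕ) (F : PowerSeries B) : Prop :=
  coeff 0 F = 1 ∧ ∀ i, i < n → Odd i → coeff i F = 0

theorem Ev.coeff_mul {n m : ℕ} {F G : PowerSeries B} (hF : Ev n F) (hG : Ev n G) (hm : m ≤ n)
    (ho : Odd m) : coeff m (F * G) = coeff m F + coeff m G := by
  have h0 : m ≠ 0 := by
    rintro rfl
    simp at ho
  rw [PowerSeries.coeff_mul, sum_eq_add (m, 0) (0, m) (by simp [h0])]
  · rw [hF.1, hG.1, mul_one, one_mul]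
  · rintro ⟨i, j⟩ hij hne
    have e : i + j = m := mem_antidiagonal.1 hij
    have h1 : j ≠ 0 := by
      rintro rfl
      exact hne.1 (by simpa using e)
    have h2 : i ≠ 0 := by
      rintro rfl
      exact hne.2 (by simpa using e)
    rcases Nat.even_or_odd i with hi | hi
    · have hj : Odd j := by
        rw [← e] at ho
        exact (Nat.odd_add'.1 ho).2 hi
      rw [hG.2 j (by omega) hj, mul_zero]
    · rw [hF.2 i (by omega) hi, zero_mul]
  · simp
  · simp

theorem Ev.mul {n : ℕ} {F G : PowerSeries B} (hF : Ev n F) (hG : Ev n G) : Ev n (F * G) := by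
  refine ⟨by simp [PowerSeries.coeff_mul, hF.1, hG.1], fun i hi ho => ?_⟩
  rw [hF.coeff_mul hG hi.le ho, hF.2 i hi ho, hG.2 i hi ho, add_zero]

end ser

variable {K : Type} [CommRing K]

theorem ev_cmp {B : Type*} [Ring B] [Algebra K B] (c : List Bool → K) (n : ℕ) (p q : B) :
    ev p q (E2.cmp c n) = ∑ u ∈ W n, c u • wd p q u := by
  simp [E2.cmp, map_wd]

theorem ev_ser {B : Type*} [Ring B] [Algebra K B] {Φ : List Bool → K} {n : ℕ} (h1 : Φ [] = 1)
    (hz : ∀ u : List Bool, u.length < n → Odd u.length → Φ u = 0) (p q : B) :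
    Ev n (ser Φ p q) := by
  refine ⟨by simp [coeff_ser, W_zero, h1], fun i hi ho => ?_⟩
  rw [coeff_ser]
  refine sum_eq_zero fun u hu => ?_
  have e := mem_W.1 hu
  rw [hz u (e ▸ hi) (e ▸ ho), zero_smul]

/-- the lowest odd component satisfies the linear pentagon -/
theorem lpent_low {Φ : List Bool → K} (hΦ : Pentagon Φ) (h1 : Φ [] = 1) {n : ℕ} (ho : Odd n)
    (hz : ∀ u : List Bool, u.length < n → Odd u.length → Φ u = 0) : S39.LPent (E2.cmp Φ n) := by
  intro B _ _ T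
  have e := congrArg (coeff n) (st_LIFT K Φ hΦ B T)
  have s := fun p q : B => ev_ser h1 hz p q
  rw [(s _ _).coeff_mul (s _ _) le_rfl ho, ((s _ _).mul (s _ _)).coeff_mul (s _ _) le_rfl ho,
    (s _ _).coeff_mul (s _ _) le_rfl ho] at e
  simpa only [ev_cmp, coeff_ser] using e

theorem lpent_neg {c : List Bool → K} {n : ℕ} (h : S39.LPent (E2.cmp c n)) :
    S39.LPent (E2.cmp (fun u => -c u) n) := by
  intro B _ _ T
  have e := h B T
  simp only [ev_cmp, neg_smul, sum_neg_distrib] at e ⊢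
  rw [← neg_add, e, neg_add, neg_add]

theorem deg_one {Φ : List Bool → K} (hΦ : Pentagon Φ) (h1 : Φ [] = 1) (u : List Bool)
    (hu : u.length = 1) : Φ u = 0 := by
  have hx : Φ [false] = 0 := E2.pure_zero hΦ h1 0
  have h := lpent_low hΦ h1 odd_one (fun u hu ho => by
    obtain ⟨k, hk⟩ := ho
    omega) K ⟨0, 1, 0, 0, 0, by simp, by simp, by simp, by simp, by simp, by simp, by simp, by simp⟩
  have w1 : W 1 = {[false], [true]} := by
    ext u
    rw [mem_W, List.length_eq_one_iff]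
    simp
  have hy : Φ [true] = 0 := by simpa [ev_cmp, w1] using h
  obtain ⟨s, rfl⟩ := List.length_eq_one_iff.1 hu
  cases s <;> assumption

theorem d1_length {n : ℕ} (h : 1 ≤ n) : (d1 n).length = n := by
  simp [d1]
  omega

theorem d1_count (n : ℕ) : (d1 n).count true ≤ 1 := by simp [d1, List.count_replicate]

/-- the odd components can be removed one after the other -/
theorem clean {Φ : List Bool → ℝ} (hΦ : Pentagon Φ) (h1 : Φ [] = 1) (k : ℕ) :
    ∃ Ψ : List Bool → ℝ, Pentagon Ψ ∧ Ψ [] = 1 ∧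
      (∀ u : List Bool, u.length < 2 * k + 3 → Odd u.length → Ψ u = 0) ∧
      ∀ m, 2 * k + 3 ≤ m → Ψ (d1 m) = Φ (d1 m) := by
  induction k with
  | zero =>
    refine ⟨Φ, hΦ, h1, fun u hu ho => deg_one hΦ h1 u ?_, fun _ _ => rfl⟩
    obtain ⟨j, hj⟩ := ho
    omega
  | succ k ih =>
    obtain ⟨Ψ, hΨ, e1, hz, hd⟩ := ih
    have hg := H56.gr_of_lpent (n := 2 * k + 3) (by omega) (CO.sum_mem _ _)
      (lpent_neg (lpent_low hΨ e1 ⟨k + 1, by ring⟩ hz))
    obtain ⟨Ψ', a, b, c, d⟩ := E2.act_pent (by omega) hg hΨ e1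
    refine ⟨Ψ', a, by rw [b [] (by simp), e1], fun u hu ho => ?_, fun m hm => ?_⟩
    · rcases lt_trichotomy u.length (2 * k + 3) with h | h | h
      · rw [b u h, hz u h ho]
      · rw [c u h, add_neg_cancel]
      · obtain ⟨j, hj⟩ := ho
        omega
    · rw [d _ (d1_count m) (by rw [d1_length (by omega)]; omega), hd m (by omega)]

/-- descent along a rational functional -/
theorem lpent_desc (l : ℝ →ₗ[ℚ] ℚ) {c : List Bool → ℝ} {n : ℕ} (h : S39.LPent (E2.cmp c n)) :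
    S39.LPent (E2.cmp (fun u => l (c u)) n) := by
  intro B _ _ T
  let j : B →ₐ[ℚ] ℝ ⊗[ℚ] B := Algebra.TensorProduct.includeRight
  let μ : ℝ ⊗[ℚ] B →ₗ[ℚ] B := (TensorProduct.lid ℚ B).toLinearMap ∘ₗ l.rTensor B
  have key : ∀ p q : B, μ (ev (j p) (j q) (E2.cmp c n)) = ev p q (E2.cmp (fun u => l (c u)) n) := by
    intro p q
    rw [ev_cmp, ev_cmp, map_sum]
    refine sum_congr rfl fun u _ => ?_
    rw [← map_wd p q j u]
    simp [μ, j, TensorProduct.smul_tmul']
  have e := congrArg μ (h (ℝ ⊗[ℚ] B) ⟨j T.a0, j T.a1, j T.c, j T.b0, j T.b1,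
    map_add j _ _ ▸ T.h1.map j, map_add j _ _ ▸ T.h2.map j, map_add j _ _ ▸ T.h3.map j,
    map_add j _ _ ▸ T.h4.map j, map_add j _ _ ▸ T.h5.map j, map_add j _ _ ▸ T.h6.map j,
    T.h7.map j, T.h8.map j⟩)
  simpa only [← map_add j, map_add μ, key] using e

end H19

theorem st_EX : St_EX := by
  intro k
  obtain ⟨Φ, h1, hΦ, hne⟩ := KZ.st_KZ
  obtain ⟨Ψ, hΨ, e1, hz, hd⟩ := H19.clean hΦ h1 k
  have h0 : Ψ (d1 (2 * k + 3)) ≠ 0 := by
    rw [hd _ le_rfl]
    exact hne (2 * k + 1)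
  obtain ⟨l, hl⟩ : ∃ l : ℝ →ₗ[ℚ] ℚ, l (Ψ (d1 (2 * k + 3))) ≠ 0 := by
    by_contra hc
    push Not at hc
    exact h0 ((Module.forall_dual_apply_eq_zero_iff ℚ _).1 hc)
  have hp := H19.lpent_desc l (H19.lpent_low hΨ e1 ⟨k + 1, by ring⟩ hz)
  refine ⟨_, ⟨H56.isLie_of_lpent hp, CO.sum_mem _ _, hp⟩, ?_⟩
  rw [E2.cmp, CO.co_sum, if_pos (H19.d1_length (by omega))]
  exact hl

end Pool.Agent.DD.F
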