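import Pool.Agent.Lib.DD.F_DL
import Pool.Agent.Lib.DD.F_CO

set_option autoImplicit false
set_option linter.unusedSectionVars false

noncomputable section

namespace Pool.Agent.DD.F

open Pool.Agent.DR Pool.Agent.DD.S39 Pool.Agent.DD.H56

attribute [local instance 100] LieRing.ofAssociativeRing

namespace GRT

/-- the homogeneous component of degree `n` -/
def cmp (n : ℕ) : FA ℚ →ₗ[ℚ] FA ℚ :=
  ∑ u ∈ W n, (LinearMap.toSpanSingleton ℚ _ (wd (lx ℚ) (ly ℚ) u)).comp (co u)

theorem cmp_apply (n : ℕ) (f : FA ℚ) : cmp n f = ∑ u ∈ W n, co u f • wd (lx ℚ) (ly ℚ) u := by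
  simp [cmp]

theorem cmp_mem (n : ℕ) (f : FA ℚ) : cmp n f ∈ Hn ℚ n := cmp_apply n f ▸ CO.sum_mem n _

theorem cmp_of {m : ℕ} {f : FA ℚ} (h : f ∈ Hn ℚ m) (n : ℕ) :
    cmp n f = if n = m then f else 0 := by
  rw [cmp_apply]
  split_ifs with e
  · subst e
    exact (CO.eq_sum h).symm
  · exact Finset.sum_eq_zero fun u hu => by rw [CO.co_of_mem h (mem_W.1 hu ▸ e), zero_smul]

section pent
variable {B : Type} [Ring B] [Algebra ℚ B]

theorem wd_mon (p q : B) (u : List Bool) :
    wd (PowerSeries.monomial 1 p) (PowerSeries.monomial 1 q) u =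
      PowerSeries.monomial u.length (wd p q u) := by
  induction u with
  | nil => simp
  | cons s u ih =>
    cases s
    · rw [wd_false, wd_false, ih, PowerSeries.monomial_mul_monomial, List.length_cons, add_comm]
    · rw [wd_true, wd_true, ih, PowerSeries.monomial_mul_monomial, List.length_cons, add_comm]

theorem coeff_ev (p q : B) (n : ℕ) (f : FA ℚ) :
    PowerSeries.coeff n (S39.ev (PowerSeries.monomial 1 p) (PowerSeries.monomial 1 q) f) =
      S39.ev p q (cmp n f) := by
  have h := mem_span_words f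
  induction h using Submodule.span_induction with
  | mem f hf =>
    obtain ⟨u, rfl⟩ := hf
    rw [← H56.wd_eq, CO.ev_wd, wd_mon, PowerSeries.coeff_monomial, cmp_of (CO.wd_mem u)]
    split_ifs
    · rw [CO.ev_wd]
    · rw [map_zero]
  | zero => simp
  | add f g _ _ hf hg => simp only [map_add, hf, hg]
  | smul c f _ hf => rw [map_smul, PowerSeries.coeff_smul, hf, map_smul, map_smul]

theorem cm {a b c : B} (h : Commute a (b + c)) :
    Commute (PowerSeries.monomial 1 a) (PowerSeries.monomial 1 b + PowerSeries.monomial 1 c) := by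
  rw [← map_add, Commute, SemiconjBy, PowerSeries.monomial_mul_monomial,
    PowerSeries.monomial_mul_monomial, h.eq]

theorem cm' {a b : B} (h : Commute a b) :
    Commute (PowerSeries.monomial 1 a) (PowerSeries.monomial 1 b) := by
  rw [Commute, SemiconjBy, PowerSeries.monomial_mul_monomial, PowerSeries.monomial_mul_monomial,
    h.eq]

end pent

theorem pent_cmp {f : FA ℚ} (h : S39.LPent f) (n : ℕ) : S39.LPent (cmp n f) := by
  intro B _ _ T
  have h1 := congrArg (PowerSeries.coeff n) (h (PowerSeries B)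
    ⟨_, _, _, _, _, cm T.h1, cm T.h2, cm T.h3, cm T.h4, cm T.h5, cm T.h6, cm' T.h7, cm' T.h8⟩)
  simp only [← map_add (PowerSeries.monomial 1)] at h1
  simpa only [map_add (PowerSeries.coeff n), coeff_ev] using h1

theorem mon_hn {n : ℕ} {v : L} (h : Mon (fun _ => 1) (FreeLieAlgebra.of ℚ) n v) :
    iota ℚ Bool v ∈ Hn ℚ n := by
  induction h with
  | of s =>
    rw [iota_of]
    cases s
    exacts [CO.lx_mem, CO.ly_mem]
  | @br m n a b _ _ ha hb =>
    rw [LieHom.map_lie, LieRing.of_associative_ring_bracket]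
    exact sub_mem (CO.mul_mem ha hb) (add_comm n m ▸ CO.mul_mem hb ha)

theorem lie_mem {k : ℕ} (a : L) {b : L} (h : b ∈ LieModule.lowerCentralSeries ℚ L L k) :
    ⁅a, b⁆ ∈ LieModule.lowerCentralSeries ℚ L L (k + 1) := by
  rw [LieModule.lowerCentralSeries_succ]
  exact LieSubmodule.lie_mem_lie (LieSubmodule.mem_top a) h

theorem mon_one {n : ℕ} {v : L} (h : Mon (fun _ => 1) (FreeLieAlgebra.of ℚ) n v) (hn : 2 ≤ n) :
    v ∈ LieModule.lowerCentralSeries ℚ L L 1 := by
  cases h with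
  | of s => omega
  | br _ _ => exact lie_mem _ (LieSubmodule.mem_top _)

theorem mon_two {n : ℕ} {v : L} (h : Mon (fun _ => 1) (FreeLieAlgebra.of ℚ) n v) (hn : 3 ≤ n) :
    v ∈ LieModule.lowerCentralSeries ℚ L L 2 := by
  cases h with
  | of s => omega
  | @br m n a b ha hb =>
    by_cases h2 : 2 ≤ n
    · exact lie_mem _ (mon_one hb h2)
    · rw [← lie_skew]
      exact neg_mem (lie_mem _ (mon_one ha (by omega)))

theorem lcs_le (k : ℕ) {v : L} (h : v ∈ LieModule.lowerCentralSeries ℚ L L k) :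
    v ∈ Submodule.span ℚ {v | ∃ n, k + 1 ≤ n ∧ Mon (fun _ => 1) (FreeLieAlgebra.of ℚ) n v} := by
  induction k generalizing v with
  | zero =>
    refine Submodule.span_mono ?_ (mem_span_mon ℚ Bool (fun _ => 1) v)
    rintro a ⟨n, hn⟩
    exact ⟨n, hn.pos fun _ => Nat.one_pos, hn⟩
  | succ k ih =>
    rw [LieModule.lowerCentralSeries_succ, ← LieSubmodule.mem_toSubmodule,
      LieSubmodule.lieIdeal_oper_eq_linear_span'] at h
    refine Submodule.span_le.2 ?_ h
    rintro _ ⟨a, -, b, hb, rfl⟩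
    have h1 := mem_span_mon ℚ Bool (fun _ => 1) a
    have h2 := ih hb
    clear hb
    rw [SetLike.mem_coe]
    induction h1 using Submodule.span_induction with
    | mem a ha =>
      induction h2 using Submodule.span_induction with
      | mem b hb =>
        obtain ⟨m, hm⟩ := ha
        obtain ⟨n, h3, hn⟩ := hb
        have := hm.pos fun _ => Nat.one_pos
        exact Submodule.subset_span ⟨m + n, by omega, hm.br hn⟩
      | zero => simp
      | add b c _ _ hb hc => rw [lie_add]; exact add_mem hb hc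
      | smul c b _ hb => rw [lie_smul]; exact Submodule.smul_mem _ c hb
    | zero => simp
    | add a c _ _ ha hc => rw [add_lie]; exact add_mem ha hc
    | smul c a _ ha => rw [smul_lie]; exact Submodule.smul_mem _ c ha

theorem cmp_iota {n : ℕ} (hn : 3 ≤ n) (v : L) :
    ∃ b ∈ LieModule.lowerCentralSeries ℚ L L 2, iota ℚ Bool b = cmp n (iota ℚ Bool v) := by
  have h := mem_span_mon ℚ Bool (fun _ => 1) v
  induction h using Submodule.span_induction with
  | mem v hv =>
    obtain ⟨m, hm⟩ := hv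
    rw [cmp_of (mon_hn hm)]
    split_ifs with e
    · exact ⟨v, mon_two hm (e ▸ hn), rfl⟩
    · exact ⟨0, zero_mem _, map_zero _⟩
  | zero => exact ⟨0, zero_mem _, by simp⟩
  | add v w _ _ hv hw =>
    obtain ⟨a, h1, h2⟩ := hv
    obtain ⟨b, h3, h4⟩ := hw
    exact ⟨a + b, add_mem h1 h3, by simp only [map_add, h2, h4]⟩
  | smul c v _ hv =>
    obtain ⟨a, h1, h2⟩ := hv
    exact ⟨c • a, SMulMemClass.smul_mem c h1, by simp only [map_smul, h2]⟩

theorem eq_sum {v : L} (h : v ∈ LieModule.lowerCentralSeries ℚ L L 2) :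
    ∃ N, ∀ M, N ≤ M → iota ℚ Bool v = ∑ n ∈ Finset.Ico 3 M, cmp n (iota ℚ Bool v) := by
  have h1 := lcs_le 2 h
  clear h
  induction h1 using Submodule.span_induction with
  | mem v hv =>
    obtain ⟨m, h3, hm⟩ := hv
    refine ⟨m + 1, fun M hM => ?_⟩
    simp only [cmp_of (mon_hn hm)]
    rw [Finset.sum_ite_eq', if_pos (Finset.mem_Ico.2 ⟨h3, hM⟩)]
  | zero => exact ⟨0, by simp⟩
  | add v w _ _ hv hw =>
    obtain ⟨N, h1⟩ := hv
    obtain ⟨N', h2⟩ := hw
    refine ⟨max N N', fun M hM => ?_⟩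
    simp only [map_add, Finset.sum_add_distrib]
    rw [← h1 M (le_of_max_le_left hM), ← h2 M (le_of_max_le_right hM)]
  | smul c v _ hv =>
    obtain ⟨N, h1⟩ := hv
    refine ⟨N, fun M hM => ?_⟩
    simp only [map_smul, ← Finset.smul_sum]
    rw [← h1 M hM]

theorem iota_evL (a b ψ : L) :
    iota ℚ Bool (evL a b ψ) = S39.ev (iota ℚ Bool a) (iota ℚ Bool b) (iota ℚ Bool ψ) := by
  rw [map_evL, ← lift_iota]
  rfl

theorem pent_iff (ψ : L) : PentL (tL ℚ) ψ ↔ S39.LPent (iota ℚ Bool ψ) := by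
  rw [pentL_iff, H56.lpent_iff, PentL]
  simp only [← lift_iota]
  rfl

theorem grt_iff (ψ : L) : ψ ∈ grt ↔ ψ ∈ LieModule.lowerCentralSeries ℚ L L 2 ∧
    Anti (iota ℚ Bool ψ) ∧ Hex (iota ℚ Bool ψ) ∧ S39.LPent (iota ℚ Bool ψ) := by
  have hi : ∀ u : L, u = 0 ↔ iota ℚ Bool u = 0 := fun u =>
    (map_eq_zero_iff _ (iota_injective ℚ Bool)).symm
  rw [grt, Set.mem_ofPred_eq, pent_iff, hi, hi]
  simp only [map_add, iota_evL, map_sub, map_neg, H56.iota_x, H56.iota_y, Anti, Hex]

end GRT

open GRT in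
theorem st_GRT : St_GRT := by
  intro ψ
  rw [grt_iff]
  refine ⟨fun ⟨h1, _, _, h4⟩ => ?_, fun h => ?_⟩
  · obtain ⟨N, hN⟩ := eq_sum h1
    rw [hN N le_rfl]
    refine Submodule.sum_mem _ fun n hn => Submodule.subset_span ⟨n, (Finset.mem_Ico.1 hn).1, ?_,
      cmp_mem _ _, pent_cmp h4 n⟩
    exact H56.isLie_of_lpent (pent_cmp h4 n)
  · have key : ∀ f ∈ Submodule.span ℚ {f : FA ℚ | ∃ n, 3 ≤ n ∧ G n f},
        (∃ b ∈ LieModule.lowerCentralSeries ℚ L L 2, iota ℚ Bool b = f) ∧ Anti f ∧ Hex f ∧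
          S39.LPent f := by
      intro f hf
      induction hf using Submodule.span_induction with
      | mem f hf =>
        obtain ⟨n, hn, hG⟩ := hf
        obtain ⟨v, rfl⟩ := (H56.isLie_iff_range f).1 hG.lie
        obtain ⟨b, h1, h2⟩ := cmp_iota hn v
        rw [cmp_of hG.hom, if_pos rfl] at h2
        exact ⟨⟨b, h1, h2⟩, (st_FU ℚ n _ hn hG).1, (st_FU ℚ n _ hn hG).2, hG.pent⟩
      | zero => exact ⟨⟨0, zero_mem _, map_zero _⟩, by simp [Anti], by simp [Hex],
          fun B _ _ T => by simp⟩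
      | add f g _ _ hf hg =>
        obtain ⟨⟨a, a1, a2⟩, a3, a4, a5⟩ := hf
        obtain ⟨⟨b, b1, b2⟩, b3, b4, b5⟩ := hg
        refine ⟨⟨a + b, add_mem a1 b1, by rw [map_add, a2, b2]⟩, ?_, ?_, fun B _ _ T => ?_⟩
        · rw [Anti] at *
          rw [map_add]
          linear_combination (norm := abel1) a3 + b3
        · rw [Hex] at *
          rw [map_add, map_add]
          linear_combination (norm := abel1) a4 + b4
        · simp only [map_add]
          linear_combination (norm := abel1) a5 B T + b5 B T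
      | smul c f _ hf =>
        obtain ⟨⟨a, a1, a2⟩, a3, a4, a5⟩ := hf
        refine ⟨⟨c • a, SMulMemClass.smul_mem c a1, by rw [map_smul, a2]⟩, ?_, ?_,
          fun B _ _ T => ?_⟩
        · rw [Anti] at *
          rw [map_smul, ← smul_add, a3, smul_zero]
        · rw [Hex] at *
          rw [map_smul, map_smul, ← smul_add, ← smul_add, a4, smul_zero]
        · simp only [map_smul, ← smul_add]
          rw [a5 B T]
    obtain ⟨⟨b, h1, h2⟩, h3⟩ := key _ h
    exact ⟨iota_injective ℚ Bool h2 ▸ h1, h3⟩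

end Pool.Agent.DD.F
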