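import Pool.Agent.Lib.DD.Blue

/-! The integral lattice inside the rational solutions. -/

set_option autoImplicit false

noncomputable section

namespace Pool.Agent.DD.F

open Pool.Agent.DR Pool.Agent.DD.S39 Pool.Agent.DD.H56 TensorProduct

attribute [local instance 100] LieRing.ofAssociativeRing

namespace LAT

theorem zs {B : Type*} [Ring B] [Algebra ℚ B] (m : ℤ) (b : B) : m • b = (m : ℚ) • b :=
  (Int.cast_smul_eq_zsmul ℚ m b).symm

@[simp] theorem up_x : up (lx ℤ) = lx ℚ := ev_x _ _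
@[simp] theorem up_y : up (ly ℤ) = ly ℚ := ev_y _ _

theorem words (P : FA ℤ → Prop) (hw : ∀ u, P (wd (lx ℤ) (ly ℤ) u)) (h0 : P 0)
    (ha : ∀ f g, P f → P g → P (f + g)) (hn : ∀ f, P f → P (-f)) (ψ : FA ℤ) : P ψ := by
  have k1 : ∀ (c : FA ℤ), (∀ u, ∃ v, wd (lx ℤ) (ly ℤ) v = c * wd (lx ℤ) (ly ℤ) u) →
      ∀ t ∈ AddSubgroup.closure (Set.range (wd (lx ℤ) (ly ℤ))),
        c * t ∈ AddSubgroup.closure (Set.range (wd (lx ℤ) (ly ℤ))) := fun c hc t ht => by
    induction ht using AddSubgroup.closure_induction with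
    | mem f hf => obtain ⟨u, rfl⟩ := hf; exact AddSubgroup.subset_closure (hc u)
    | zero => rw [mul_zero]; exact zero_mem _
    | add f g _ _ hf hg => rw [mul_add]; exact add_mem hf hg
    | neg f _ hf => rw [mul_neg]; exact neg_mem hf
  have key : ∀ t ∈ AddSubgroup.closure (Set.range (wd (lx ℤ) (ly ℤ))),
      ψ * t ∈ AddSubgroup.closure (Set.range (wd (lx ℤ) (ly ℤ))) := by
    induction ψ using ind with
    | h0 r => intro t ht; rw [eq_intCast, ← zsmul_eq_mul]; exact zsmul_mem ht r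
    | hx => exact k1 _ fun u => ⟨false :: u, wd_false _ _ u⟩
    | hy => exact k1 _ fun u => ⟨true :: u, wd_true _ _ u⟩
    | hm f g hf hg => intro t ht; rw [mul_assoc]; exact hf _ (hg t ht)
    | ha f g hf hg => intro t ht; rw [add_mul]; exact add_mem (hf t ht) (hg t ht)
  have k2 := key 1 (AddSubgroup.subset_closure ⟨[], rfl⟩)
  rw [mul_one] at k2
  clear key
  induction k2 using AddSubgroup.closure_induction with
  | mem f hf => obtain ⟨u, rfl⟩ := hf; exact hw u
  | zero => exact h0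
  | add f g _ _ hf hg => exact ha f g hf hg
  | neg f _ hf => exact hn f hf

theorem co_up (hCO : St_CO) (w : List Bool) (ψ : FA ℤ) : co w (up ψ) = (co w ψ : ℤ) := by
  induction ψ using words with
  | hw u =>
    rw [map_wd, up_x, up_y, (hCO ℚ).1, (hCO ℤ).1]
    split_ifs <;> simp
  | h0 => simp
  | ha f g hf hg => simp only [map_add, hf, hg, Int.cast_add]
  | hn f hf => simp only [map_neg, hf, Int.cast_neg]

theorem up_inj (hCO : St_CO) : Function.Injective up := by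
  refine (injective_iff_map_eq_zero up).2 fun ψ h => ?_
  refine (FreeAlgebra.basisFreeMonoid ℤ Bool).forall_coord_eq_zero_iff.1 fun w => ?_
  have := co_up hCO w.toList ψ
  rw [h, map_zero] at this
  exact Int.cast_eq_zero.1 this.symm

theorem den {X : Type} (F : FreeAlgebra ℤ X →ₐ[ℤ] FreeAlgebra ℚ X)
    (hF : ∀ i, F (FreeAlgebra.ι ℤ i) = FreeAlgebra.ι ℚ i) (ψ : FreeAlgebra ℚ X) :
    ∃ m : ℤ, m ≠ 0 ∧ ∃ φ, F φ = m • ψ := by
  induction ψ using FreeAlgebra.induction with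
  | grade0 r =>
    refine ⟨r.den, by exact_mod_cast r.den_nz, (r.num : FreeAlgebra ℤ X), ?_⟩
    rw [map_intCast, zs, Algebra.smul_def, ← map_mul, Int.cast_natCast, Rat.den_mul_eq_num,
      map_intCast]
  | grade1 i => exact ⟨1, one_ne_zero, _, (hF i).trans (one_smul _ _).symm⟩
  | mul f g hf hg =>
    obtain ⟨m, hm, φ, h1⟩ := hf
    obtain ⟨n, hn, χ, h2⟩ := hg
    exact ⟨m * n, mul_ne_zero hm hn, φ * χ, by rw [map_mul, h1, h2, smul_mul_smul_comm]⟩
  | add f g hf hg =>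
    obtain ⟨m, hm, φ, h1⟩ := hf
    obtain ⟨n, hn, χ, h2⟩ := hg
    refine ⟨m * n, mul_ne_zero hm hn, n • φ + m • χ, ?_⟩
    rw [map_add, map_zsmul, map_zsmul, h1, h2, smul_smul, smul_smul, smul_add, mul_comm n]

theorem isLie_lie {K : Type} [CommRing K] {f g : FA K} (hf : IsLie f) (hg : IsLie g) :
    IsLie (f * g - g * f) := LieSubalgebra.lie_mem _ hf hg

theorem lie_up {ψ : FA ℤ} (h : IsLie ψ) : IsLie (up ψ) := by
  refine h.ind (P := fun ψ => IsLie (up ψ)) ?_ ?_ ?_ ?_ ?_ ?_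
  · rw [up_x]; exact LieSubalgebra.subset_lieSpan (by simp)
  · rw [up_y]; exact LieSubalgebra.subset_lieSpan (by simp)
  · rw [map_zero]; exact zero_mem _
  · intro f g _ _ hf hg; rw [map_add]; exact add_mem hf hg
  · intro r f _ hf
    rw [Algebra.smul_def, eq_intCast, ← zsmul_eq_mul, map_zsmul]
    exact zsmul_mem hf r
  · intro f g _ _ hf hg; rw [map_sub, map_mul, map_mul]; exact isLie_lie hf hg

theorem lie_down {ψ : FA ℚ} (h : IsLie ψ) : ∃ m : ℤ, m ≠ 0 ∧ ∃ φ, IsLie φ ∧ up φ = m • ψ := by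
  refine h.ind (P := fun ψ => ∃ m : ℤ, m ≠ 0 ∧ ∃ φ, IsLie φ ∧ up φ = m • ψ) ?_ ?_ ?_ ?_ ?_ ?_
  · exact ⟨1, one_ne_zero, _, LieSubalgebra.subset_lieSpan (by simp),
      up_x.trans (one_smul _ _).symm⟩
  · exact ⟨1, one_ne_zero, _, LieSubalgebra.subset_lieSpan (by simp),
      up_y.trans (one_smul _ _).symm⟩
  · exact ⟨1, one_ne_zero, 0, zero_mem _, by simp⟩
  · rintro f g _ _ ⟨m, hm, φ, h0, h1⟩ ⟨n, hn, χ, h3, h2⟩
    refine ⟨m * n, mul_ne_zero hm hn, n • φ + m • χ, add_mem (zsmul_mem h0 n) (zsmul_mem h3 m), ?_⟩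
    rw [map_add, map_zsmul, map_zsmul, h1, h2, smul_smul, smul_smul, smul_add, mul_comm n]
  · rintro r f _ ⟨m, hm, φ, h0, h1⟩
    refine ⟨r.den * m, mul_ne_zero (by exact_mod_cast r.den_nz) hm, r.num • φ, zsmul_mem h0 _, ?_⟩
    rw [map_zsmul, h1, zs, zs, zs, smul_smul, smul_smul]
    congr 1
    push_cast
    rw [← Rat.den_mul_eq_num]
    ring
  · rintro f g _ _ ⟨m, hm, φ, h0, h1⟩ ⟨n, hn, χ, h3, h2⟩
    refine ⟨m * n, mul_ne_zero hm hn, _, isLie_lie h0 h3, ?_⟩
    rw [map_sub, map_mul, map_mul, h1, h2, smul_mul_smul_comm, smul_mul_smul_comm, smul_sub,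
      mul_comm n]

theorem ev_up {B : Type*} [Ring B] [Algebra ℚ B] [Algebra ℤ B] (a b : B) (ψ : FA ℤ) :
    ev a b (up ψ) = ev a b ψ := by
  induction ψ using ind with
  | h0 r => simp
  | hx => simp
  | hy => simp
  | hm f g hf hg => simp only [map_mul, hf, hg]
  | ha f g hf hg => simp only [map_add, hf, hg]

theorem hom_ev {A B : Type*} [Ring A] [Ring B] [Algebra ℤ A] [Algebra ℤ B] (g : A →+* B) (a b : A)
    (ψ : FA ℤ) : g (ev a b ψ) = ev (g a) (g b) ψ := by
  induction ψ using ind with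
  | h0 r => simp
  | hx => simp
  | hy => simp
  | hm f g hf hg => simp only [map_mul, hf, hg]
  | ha f g hf hg => simp only [map_add, hf, hg]

theorem pent_up {ψ : FA ℤ} (h : S39.LPent ψ) : S39.LPent (up ψ) := by
  intro B _ _ T
  simp only [ev_up]
  exact h B T

theorem pent_down {ψ : FA ℤ} (h : S39.LPent (up ψ)) : S39.LPent ψ := by
  intro B _ _ T'
  obtain ⟨U, _, T, hU⟩ := st_UNIV
  have := Desc.flat T hU
  let gR : U →+* ℚ ⊗[ℤ] U := (Algebra.TensorProduct.includeRight : U →ₐ[ℤ] ℚ ⊗[ℤ] U).toRingHom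
  have hg : Function.Injective gR :=
    Algebra.TensorProduct.includeRight_injective (algebraMap ℤ ℚ).injective_int
  have e := h (ℚ ⊗[ℤ] U) (TENS.mapBr gR T)
  simp only [ev_up, TENS.mapBr, ← map_add, ← hom_ev gR] at e
  obtain ⟨g, g0, g1, gc, g2, g3⟩ := hU.lift B T'
  have e3 := congrArg g (hg e)
  simpa only [map_add, hom_ev g, g0, g1, gc, g2, g3] using e3

theorem gz_iff (hCO : St_CO) (n : ℕ) (ψ : FA ℤ) : GZ n ψ ↔ G n (up ψ) := by
  have hh : ψ ∈ Hn ℤ n ↔ up ψ ∈ Hn ℚ n := by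
    simp only [(hCO ℤ).2.1, (hCO ℚ).2.1, co_up hCO, Int.cast_eq_zero]
  constructor
  · rintro ⟨⟨m, hm, h1⟩, h2, h3⟩
    refine ⟨?_, hh.1 h2, pent_up h3⟩
    have h4 := lie_up h1
    rw [map_zsmul, zs] at h4
    have h5 : IsLie ((m : ℚ)⁻¹ • (m : ℚ) • up ψ) := LieSubalgebra.smul_mem _ _ h4
    rwa [inv_smul_smul₀ (Int.cast_ne_zero.2 hm)] at h5
  · rintro ⟨h1, h2, h3⟩
    obtain ⟨m, hm, φ, h4, h5⟩ := lie_down h1
    rw [← map_zsmul] at h5
    exact ⟨⟨m, hm, up_inj hCO h5 ▸ h4⟩, hh.2 h2, pent_down h3⟩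

theorem up_D (f g : FA ℤ) : up (D f g) = D (up f) (up g) := by
  induction g using ind with
  | h0 r =>
    rw [D_alg, map_zero, eq_intCast, map_intCast, ← map_intCast (algebraMap ℚ (FA ℚ)),
      D_alg]
  | hx => simp
  | hy => simp
  | hm g g' hg hg' => simp only [D_mul, map_add, map_mul, hg, hg']
  | ha g g' hg hg' => simp only [map_add, hg, hg']

theorem up_lift (s : ℕ → FA ℤ) (g : FN ℤ) : ∀ f : FA ℤ,
    up (FreeAlgebra.lift ℤ (fun k => S (s k)) g f) =
      FreeAlgebra.lift ℚ (fun k => S (up (s k))) (upN g) (up f) := by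
  induction g using FreeAlgebra.induction with
  | grade0 r =>
    intro f
    rw [eq_intCast, map_intCast, map_intCast, map_intCast, Module.End.intCast_apply,
      Module.End.intCast_apply, map_zsmul]
  | grade1 k => intro f; simp [upN, S_apply, up_D]
  | mul g h hg hh => intro f; simp only [map_mul, Module.End.mul_apply, hg, hh]
  | add g h hg hh => intro f; simp only [map_add, LinearMap.add_apply, hg, hh]

theorem ln_up {g : FN ℤ} (h : g ∈ LN ℤ) : upN g ∈ LN ℚ := by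
  induction h using LieSubalgebra.lieSpan_induction with
  | mem f hf =>
    obtain ⟨k, rfl⟩ := hf
    exact LieSubalgebra.subset_lieSpan ⟨k, by simp [upN]⟩
  | zero => rw [map_zero]; exact zero_mem _
  | add f g _ _ hf hg => rw [map_add]; exact add_mem hf hg
  | smul r f _ hf =>
    rw [Algebra.smul_def, eq_intCast, ← zsmul_eq_mul, map_zsmul]
    exact zsmul_mem hf r
  | lie f g _ _ hf hg =>
    rw [Ring.lie_def, map_sub, map_mul, map_mul]
    exact LieSubalgebra.lie_mem _ hf hg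

end LAT

open LAT in
theorem st_LAT (hCO : St_CO) : St_LAT :=
  ⟨up_inj hCO, gz_iff hCO, den up fun i => by cases i; exacts [up_x, up_y],
    fun f g => by simp only [ih, map_sub, map_add, map_mul, up_D], co_up hCO,
    fun s g => (up_lift s g 1).trans (by rw [map_one]; rfl), den upN fun i => by simp [upN],
    fun _ => ln_up⟩

end Pool.Agent.DD.F
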