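import Pool.Agent.Lib.DD.Blue

set_option autoImplicit false

noncomputable section

namespace Pool.Agent.DD.F

open Pool.Agent.DR Pool.Agent.DD.S39 Pool.Agent.DD.H56

attribute [local instance 100] LieRing.ofAssociativeRing

/-- the span of the homogeneous solutions -/
def SG : Submodule ℚ (FA ℚ) := Submodule.span ℚ {f : FA ℚ | ∃ n, 3 ≤ n ∧ G n f}

theorem D_add_left {K : Type} [CommRing K] (a b f : FA K) : D (a + b) f = D a f + D b f :=
  (D_unique (a + b) (D a + D b) (by simp) (by simp; noncomm_ring)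
    (fun f g => by simp only [LinearMap.add_apply, D_mul]; noncomm_ring) f).symm

theorem D_smul_left {K : Type} [CommRing K] (c : K) (a f : FA K) : D (c • a) f = c • D a f :=
  (D_unique (c • a) (c • D a) (by simp) (by simp [smul_sub])
    (fun f g => by simp [D_mul]) f).symm

theorem D_zero_left {K : Type} [CommRing K] (f : FA K) : D 0 f = 0 := by
  simpa using D_smul_left (0 : K) 0 f

theorem ih_mem (hCL : St_CL) {f g : FA ℚ} (hf : f ∈ SG) (hg : g ∈ SG) : ih f g ∈ SG := by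
  induction hf using Submodule.span_induction with
  | mem f hf =>
    induction hg using Submodule.span_induction with
    | mem g hg =>
      obtain ⟨m, h1, h2⟩ := hf
      obtain ⟨n, h3, h4⟩ := hg
      exact Submodule.subset_span ⟨m + n, by omega, hCL ℚ m n f g h1 h3 h2 h4⟩
    | zero =>
      rw [show ih f 0 = 0 by simp [ih, D_zero_left]]
      exact zero_mem _
    | add a b _ _ ha hb =>
      rw [show ih f (a + b) = ih f a + ih f b by simp only [ih, D_add_left, map_add]; noncomm_ring]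
      exact add_mem ha hb
    | smul c a _ ha =>
      rw [show ih f (c • a) = c • ih f a by simp [ih, D_smul_left, smul_sub]]
      exact Submodule.smul_mem _ c ha
  | zero =>
    rw [show ih 0 g = 0 by simp [ih, D_zero_left]]
    exact zero_mem _
  | add a b _ _ ha hb =>
    rw [show ih (a + b) g = ih a g + ih b g by simp only [ih, D_add_left, map_add]; noncomm_ring]
    exact add_mem ha hb
  | smul c a _ ha =>
    rw [show ih (c • a) g = c • ih a g by simp [ih, D_smul_left, smul_sub]]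
    exact Submodule.smul_mem _ c ha

theorem phi_mem (hP : St_PHI) (hCL : St_CL) {s : ℕ → FA ℚ} (hs : ∀ k, G (2 * k + 3) (s k))
    {g : FN ℚ} (hg : g ∈ LN ℚ) : phi s g ∈ SG := by
  induction hg using LieSubalgebra.lieSpan_induction with
  | mem u hu =>
    obtain ⟨k, rfl⟩ := hu
    rw [(hP ℚ s).1]
    exact Submodule.subset_span ⟨2 * k + 3, by omega, hs k⟩
  | zero =>
    rw [map_zero]
    exact zero_mem _
  | add a b _ _ ha hb =>
    rw [map_add]
    exact add_mem ha hb
  | smul c a _ ha =>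
    rw [map_smul]
    exact Submodule.smul_mem _ c ha
  | lie a b h1 h2 ha hb =>
    rw [show ⁅a, b⁆ = a * b - b * a from rfl, (hP ℚ s).2 a h1 b h2]
    exact ih_mem hCL ha hb

theorem SG_range {f : FA ℚ} (hf : f ∈ SG) : f ∈ LinearMap.range (iota ℚ Bool).toLinearMap := by
  refine Submodule.span_le.2 ?_ hf
  rintro f ⟨n, -, h⟩
  refine (mem_range_iota f).2 ?_
  have e : Set.range (FreeAlgebra.ι ℚ : Bool → FA ℚ) = {lx ℚ, ly ℚ} := by
    ext u
    simp only [Set.mem_range, Bool.exists_bool, Set.mem_insert_iff, Set.mem_singleton_iff, lx, ly,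
      eq_comm]
  rw [e]
  exact h.lie

theorem ev_smul_Hn {n : ℕ} {f : FA ℚ} (hf : f ∈ Hn ℚ n) (c : ℚ) :
    ev (c • lx ℚ) (c • ly ℚ) f = c ^ n • f := by
  induction hf using Submodule.span_induction with
  | mem f hf =>
    obtain ⟨u, rfl, rfl⟩ := hf
    rw [map_wd, ev_x, ev_y]
    induction u with
    | nil => simp
    | cons b u ih =>
      cases b <;> simp [ih, pow_succ, smul_smul, mul_comm]
  | zero => simp
  | add a b _ _ ha hb => rw [map_add, ha, hb, smul_add]
  | smul r a _ ha => rw [map_smul, ha, smul_comm]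

theorem main (hC : St_CORE) (hP : St_PHI) (hD : St_DL) (hG : St_GRT) (hCL : St_CL) : Main := by
  obtain ⟨s, hs, hinj, hsurj⟩ := hC
  obtain ⟨Dl, hD1, hD2⟩ := hD
  have hi := iota_injective ℚ Bool
  have hN : ∀ a : FreeLieAlgebra ℚ ℕ, iota ℚ ℕ a ∈ LN ℚ := fun a => (mem_range_iota _).1 ⟨a, rfl⟩
  have hm : ∀ a : FreeLieAlgebra ℚ ℕ, phi s (iota ℚ ℕ a) ∈ SG := fun a => phi_mem hP hCL hs (hN a)
  let e := LinearEquiv.ofInjective (iota ℚ Bool).toLinearMap hi
  let Φ : FreeLieAlgebra ℚ ℕ →ₗ[ℚ] L := e.symm.toLinearMap.comp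
    (LinearMap.codRestrict _ ((phi s).comp (iota ℚ ℕ).toLinearMap) fun a => SG_range (hm a))
  have hΦ : ∀ a, iota ℚ Bool (Φ a) = phi s (iota ℚ ℕ a) := fun a =>
    congrArg Subtype.val (e.apply_symm_apply ⟨_, SG_range (hm a)⟩)
  refine ⟨Dl, Φ, hD1, fun a b h => iota_injective ℚ ℕ (hinj ?_), ?_, fun a b => hi ?_,
    fun k c => hi ?_⟩
  · rw [← hΦ, ← hΦ, h]
  · ext ψ
    rw [hG ψ]
    refine ⟨?_, fun h => ?_⟩
    · rintro ⟨a, rfl⟩
      rw [hΦ]
      exact hm a
    · have h1 : iota ℚ Bool ψ ∈ (LN ℚ).toSubmodule.map (phi s) := by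
        refine Submodule.span_le.2 ?_ h
        rintro f ⟨n, h1, h2⟩
        obtain ⟨g, h3, h4⟩ := hsurj n f h1 h2
        exact ⟨g, h3, h4⟩
      obtain ⟨g, h2, h3⟩ := h1
      obtain ⟨a, rfl⟩ := (mem_range_iota g).2 h2
      exact ⟨a, hi (by rw [hΦ, h3])⟩
  · rw [map_sub, map_add, hD2, hD2, LieHom.map_lie, hΦ, hΦ, hΦ, LieHom.map_lie,
      show ⁅iota ℚ ℕ a, iota ℚ ℕ b⁆ = iota ℚ ℕ a * iota ℚ ℕ b - iota ℚ ℕ b * iota ℚ ℕ a from rfl,
      (hP ℚ s).2 _ (hN a) _ (hN b)]
    rfl
  · rw [map_evL, ← lift_iota, map_smul, map_smul, map_smul, hΦ, iota_of, (hP ℚ s).1, x, y, iota_of,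
      iota_of]
    exact ev_smul_Hn (hs k).hom c

end Pool.Agent.DD.F
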