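import Pool.Agent.Lib.DD.Blue

set_option autoImplicit false

noncomputable section

namespace Pool.Agent.DD.F

open Pool.Agent.DR Pool.Agent.DD.S39

namespace M42

/-- the quotient map modulo `J` -/
def q : FA ℤ →+* J.ringCon.Quotient := J.ringCon.mk'

theorem q_eq (f g : FA ℤ) : q f = q g ↔ f - g ∈ J := by
  rw [← TwoSidedIdeal.rel_iff]
  exact J.ringCon.eq

theorem q_zero (f : FA ℤ) (h : f ∈ J) : q f = 0 := by
  rw [← map_zero q, q_eq]; simpa using h

theorem q_two : (2 : J.ringCon.Quotient) = 0 := by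
  have := q_zero 2 (TwoSidedIdeal.subset_span (by simp))
  rwa [map_ofNat] at this

theorem q_yy : q (ly ℤ) * q (ly ℤ) = 0 := by
  rw [← map_mul]
  exact q_zero _ (TwoSidedIdeal.subset_span (by simp))

theorem c_aa : Commute (q (ly ℤ)) (q aa) := by
  have h2 := q_two
  have hy := q_yy
  simp only [aa, map_sub, map_mul, Commute, SemiconjBy]
  generalize q (ly ℤ) = Y at *
  generalize q (lx ℤ) = X at *
  have : Y * (Y * X - X * Y) - (Y * X - X * Y) * Y =
      (Y * Y) * X + X * (Y * Y) - 2 * (Y * X * Y) := by noncomm_ring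
  rw [← sub_eq_zero, this, hy, h2]; simp

theorem c_bb (k : ℕ) : Commute (q (ly ℤ)) (q (bb k)) := by
  induction k with
  | zero =>
    have h := c_aa
    have ha : q aa = q (ly ℤ) * q (lx ℤ) - q (lx ℤ) * q (ly ℤ) := by simp [aa]
    simp only [bb, map_sub, map_mul, Commute, SemiconjBy] at *
    generalize q (ly ℤ) = Y at *
    generalize q (lx ℤ) = X at *
    generalize q aa = A at *
    have : Y * (A * X - X * A) - (A * X - X * A) * Y =
        (Y * A - A * Y) * X - X * (Y * A - A * Y) + A * (Y * X - X * Y) - (Y * X - X * Y) * A := by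
      noncomm_ring
    rw [← sub_eq_zero, this, h, ← ha]; simp
  | succ k ih =>
    simp only [bb, map_sub, map_mul]
    exact (c_aa.mul_right ih).sub_right (ih.mul_right c_aa)

theorem q_D (ψ : FA ℤ) (h : Commute (q (ly ℤ)) (q ψ)) (f : FA ℤ) : q (D ψ f) = 0 := by
  induction f using ind with
  | h0 r => rw [D_alg, map_zero]
  | hx => rw [D_x, map_zero]
  | hy => rw [D_y, map_sub, map_mul, map_mul, h.eq, sub_self]
  | hm f g hf hg => rw [D_mul, map_add, map_mul, map_mul, hf, hg]; simp
  | ha f g hf hg => rw [map_add, map_add, hf, hg, add_zero]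

theorem q_lift (s : ℕ → FA ℤ) (hs : ∀ k, q (s k) = q (bb k)) (g : FN ℤ) :
    ∀ f, q ((FreeAlgebra.lift ℤ fun k => S (s k)) g f) = q (evb g) * q f := by
  induction g using FreeAlgebra.induction with
  | grade0 r =>
    intro f
    rw [AlgHom.commutes, AlgHom.commutes, ← map_mul]
    simp
  | grade1 k =>
    intro f
    rw [FreeAlgebra.lift_ι_apply, evb, FreeAlgebra.lift_ι_apply, S_apply, map_add, map_mul,
      q_D _ (by rw [hs]; exact c_bb k), add_zero, hs]
  | mul g h hg hh =>
    intro f
    rw [map_mul, Module.End.mul_apply, hg, hh, map_mul, map_mul, mul_assoc]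
  | add g h hg hh =>
    intro f
    rw [map_add, LinearMap.add_apply, map_add, hg, hh, map_add, map_add, add_mul]

end M42

theorem st_MOD : St_MOD := by
  intro s hs g
  rw [← M42.q_eq]
  have := M42.q_lift s (fun k => (M42.q_eq _ _).2 (hs k)) g 1
  rw [map_one M42.q, mul_one] at this
  exact this

end Pool.Agent.DD.F

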