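import Pool.Agent.Lib.DD.Blue

set_option autoImplicit false

noncomputable section

namespace Pool.Agent.DD.F

open Pool.Agent.DR Pool.Agent.DD.S39 Pool.Agent.DD.H56

attribute [local instance 100] LieRing.ofAssociativeRing

universe v

namespace PHI

variable {K : Type v} [CommRing K]

theorem D_add (f g : FA K) : D (f + g) = D f + D g :=
  LinearMap.ext fun h => (D_unique (f + g) (D f + D g) (by simp)
    (by simp only [LinearMap.add_apply, D_y]; noncomm_ring)
    (fun a b => by simp only [LinearMap.add_apply, D_mul]; noncomm_ring) h).symm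

theorem D_smul (c : K) (f : FA K) : D (c • f) = c • D f :=
  LinearMap.ext fun h => (D_unique (c • f) (c • D f) (by simp)
    (by simp [smul_sub]) (fun a b => by simp [D_mul]) h).symm

theorem D_zero : D (0 : FA K) = 0 := by simpa using D_smul (0 : K) (0 : FA K)

theorem D_ih (f g : FA K) : D (ih f g) = D f * D g - D g * D f :=
  LinearMap.ext fun h => (D_unique (ih f g) (D f * D g - D g * D f) (by simp)
    (by
      simp only [LinearMap.sub_apply, Module.End.mul_apply, D_y, map_sub, D_mul, ih]
      noncomm_ring)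
    (fun a b => by
      simp only [LinearMap.sub_apply, Module.End.mul_apply, map_add, D_mul]
      noncomm_ring) h).symm

theorem S_add (f g : FA K) : S (f + g) = S f + S g :=
  LinearMap.ext fun h => by
    simp only [S_apply, D_add, LinearMap.add_apply]; noncomm_ring

theorem S_smul (c : K) (f : FA K) : S (c • f) = c • S f :=
  LinearMap.ext fun h => by simp [S_apply, D_smul]

theorem S_zero : S (0 : FA K) = 0 := LinearMap.ext fun h => by simp [S_apply, D_zero]

theorem S_ih (f g : FA K) : S (ih f g) = S f * S g - S g * S f :=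
  LinearMap.ext fun h => by
    simp only [S_apply, D_ih, LinearMap.sub_apply, Module.End.mul_apply, map_add, D_mul]
    simp only [ih]
    noncomm_ring

theorem S_one (f : FA K) : S f 1 = f := by simp [S_apply]

theorem phi_apply (s : ℕ → FA K) (g : FN K) :
    phi s g = FreeAlgebra.lift K (fun k => S (s k)) g 1 := rfl

theorem phi_gen (s : ℕ → FA K) (k : ℕ) : phi s (FreeAlgebra.ι K k) = s k := by
  rw [phi_apply, FreeAlgebra.lift_ι_apply, S_one]

theorem lift_eq (s : ℕ → FA K) {g : FN K} (hg : g ∈ LN K) :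
    FreeAlgebra.lift K (fun k => S (s k)) g = S (phi s g) := by
  suffices h : ∃ ψ, FreeAlgebra.lift K (fun k => S (s k)) g = S ψ by
    obtain ⟨ψ, h⟩ := h
    rw [phi_apply, h, S_one]
  induction hg using LieSubalgebra.lieSpan_induction with
  | mem x hx => obtain ⟨k, rfl⟩ := hx; exact ⟨s k, FreeAlgebra.lift_ι_apply _ _⟩
  | zero => exact ⟨0, by rw [map_zero, S_zero]⟩
  | add a b _ _ ha hb =>
    obtain ⟨p, hp⟩ := ha
    obtain ⟨q, hq⟩ := hb
    exact ⟨p + q, by rw [map_add, hp, hq, S_add]⟩
  | smul c a _ ha =>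
    obtain ⟨p, hp⟩ := ha
    exact ⟨c • p, by rw [map_smul, hp, S_smul]⟩
  | lie a b _ _ ha hb =>
    obtain ⟨p, hp⟩ := ha
    obtain ⟨q, hq⟩ := hb
    exact ⟨ih p q, by rw [Ring.lie_def, map_sub, map_mul, map_mul, hp, hq, S_ih]⟩

theorem phi_lie (s : ℕ → FA K) {g h : FN K} (hg : g ∈ LN K) (hh : h ∈ LN K) :
    phi s (g * h - h * g) = ih (phi s g) (phi s h) := by
  rw [phi_apply, map_sub, map_mul, map_mul, lift_eq s hg, lift_eq s hh, ← S_ih, S_one]

end PHI

theorem st_PHI : St_PHI := fun _ _ s => ⟨PHI.phi_gen s, fun _ hg _ hh => PHI.phi_lie s hg hh⟩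

end Pool.Agent.DD.F
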