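import Pool.Agent.Lib.DD.F_CO
import Mathlib.Algebra.Algebra.ZMod
import Mathlib.Algebra.Module.ZMod

set_option autoImplicit false

noncomputable section

namespace Pool.Agent.DD.F

open Pool.Agent.DR Pool.Agent.DD.S39

theorem st_STAR39 : St_STAR := by
  intro n ψ hn h
  let q : FA ℤ →+* J.ringCon.Quotient := J.ringCon.mk'
  have hq : ∀ f, q f = 0 ↔ f ∈ J := fun f => by
    rw [TwoSidedIdeal.mem_iff, ← RingCon.eq]
    rfl
  have h2 : ∀ z : J.ringCon.Quotient, 2 • z = 0 := fun z => by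
    rw [two_nsmul, ← two_mul, ← map_ofNat q, (hq _).2 (TwoSidedIdeal.subset_span (by simp)),
      zero_mul]
  let _ : Module (ZMod 2) J.ringCon.Quotient := AddCommGroup.zmodModule h2
  let _ : Algebra (ZMod 2) J.ringCon.Quotient := ZMod.algebraOfModule 2 _
  have hp := lin_map (Int.castRingHom (ZMod 2)) ((CO.lpent_iff h.hom).1 h.pent).pent
  have h0 : co [] ψ = 0 := CO.co_of_mem h.hom (by simp; omega)
  have s := star_lin (k := ZMod 2) rfl (by simp [h0]) hp (x := q (lx ℤ)) (y := q (ly ℤ))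
    (by rw [← map_mul]; exact (hq _).2 (TwoSidedIdeal.subset_span (by simp))) n
  have e : q ψ = ∑ u ∈ W n, Int.castRingHom (ZMod 2) (co u ψ) • wd (q (lx ℤ)) (q (ly ℤ)) u := by
    conv_lhs => rw [CO.eq_sum h.hom, map_sum]
    refine Finset.sum_congr rfl fun u _ => ?_
    rw [Algebra.smul_def, Algebra.smul_def, map_mul, map_wd]
    simp
  rw [← e] at s
  suffices ∃ u ∈ Subring.closure {aa, bb 0}, q u = q ψ by
    obtain ⟨u, hu, e⟩ := this
    exact ⟨u, hu, (hq _).1 (by rw [map_sub, e, sub_self])⟩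
  generalize q ψ = z at s
  induction s using Algebra.adjoin_induction with
  | mem g hg =>
    rcases hg with rfl | rfl
    · exact ⟨aa, Subring.subset_closure (by simp), by simp [aa]⟩
    · exact ⟨bb 0, Subring.subset_closure (by simp), by simp [aa, bb]⟩
  | algebraMap r =>
    obtain ⟨c, rfl⟩ := ZMod.intCast_surjective r
    exact ⟨c, intCast_mem _ c, by simp⟩
  | add p r _ _ hp hr =>
    obtain ⟨u, hu, rfl⟩ := hp
    obtain ⟨w, hw, rfl⟩ := hr
    exact ⟨u + w, add_mem hu hw, map_add _ _ _⟩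
  | mul p r _ _ hp hr =>
    obtain ⟨u, hu, rfl⟩ := hp
    obtain ⟨w, hw, rfl⟩ := hr
    exact ⟨u * w, mul_mem hu hw, map_mul _ _ _⟩

end Pool.Agent.DD.F
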