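import Pool.Agent.Lib.DD.F_CL
import Pool.Agent.Lib.DD.F_CORE
import Pool.Agent.Lib.DD.F_DEP39
import Pool.Agent.Lib.DD.F_DL
import Pool.Agent.Lib.DD.F_DROP
import Pool.Agent.Lib.DD.F_EX
import Pool.Agent.Lib.DD.F_GAM
import Pool.Agent.Lib.DD.F_GRT
import Pool.Agent.Lib.DD.F_LAT
import Pool.Agent.Lib.DD.F_MAIN
import Pool.Agent.Lib.DD.F_MOD
import Pool.Agent.Lib.DD.F_PHI
import Pool.Agent.Lib.DD.F_STAR39

set_option autoImplicit false

namespace Pool.Agent.DD.F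

theorem core39 : St_CORE :=
  st_CORE (st_LAT st_CO) st_CL st_EX st_DEP39 (st_DROP st_CO) st_STAR39 st_GAM st_PHI st_MOD

theorem main39 : Main := main core39 st_PHI st_DL st_GRT st_CL

end Pool.Agent.DD.F
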