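import Pool.Agent.Lib.DD.Star12
import Pool.Agent.Lib.DR.B_SH2

set_option autoImplicit false

noncomputable section

namespace Pool.Agent.DD

open Pool.Agent.DR Finset

universe v

namespace S12

variable {R : Type v} [CommRing R]

/-- the free algebra on `x` and `a` -/
abbrev FA (R : Type v) [CommRing R] : Type v := FreeAlgebra R Bool

def gx (R : Type v) [CommRing R] : FA R := FreeAlgebra.ι R false

def ga (R : Type v) [CommRing R] : FA R := FreeAlgebra.ι R true

def gb (R : Type v) [CommRing R] : FA R := ga R * gx R - gx R * ga R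

section lf

variable {B B' : Type v} [Ring B] [Algebra R B] [Ring B'] [Algebra R B']

/-- substitution -/
def lf (x a : B) : FA R →ₐ[R] B := FreeAlgebra.lift R fun s => if s then a else x

@[simp] theorem lf_gx (x a : B) : lf x a (gx R) = x := by simp [lf, gx]

@[simp] theorem lf_ga (x a : B) : lf x a (ga R) = a := by simp [lf, ga]

theorem map_lf (f : B →ₐ[R] B') (x a : B) (F : FA R) : f (lf x a F) = lf (f x) (f a) F := by
  have : f.comp (lf x a) = lf (f x) (f a) := by
    ext s
    cases s <;> simp [lf]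
  exact DFunLike.congr_fun this F

theorem lf_id (F : FA R) : lf (gx R) (ga R) F = F := by
  have : lf (gx R) (ga R) = AlgHom.id R (FA R) := by
    ext s
    cases s <;> simp [lf, gx, ga]
  exact DFunLike.congr_fun this F

/-- one more state in front -/
def up (e x : B) : Matrix (Fin 2) (Fin 2) B := !![0, e; 0, x]

omit [Algebra R B] in
theorem up_mul (e x e' x' : B) : up e x * up e' x' = up (e * x') (x * x') := by simp [up]

omit [Algebra R B] in
theorem up_add (e x e' x' : B) : up e x + up e' x' = up (e + e') (x + x') := by simp [up]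

omit [Algebra R B] in
theorem up_zero : up (0 : B) 0 = 0 := by
  ext i j
  fin_cases i <;> fin_cases j <;> rfl

theorem up_row (e x e' a : B) (F : FA R) :
    lf (up e x) (up e' a) F 1 0 = 0 ∧ lf (up e x) (up e' a) F 1 1 = lf x a F := by
  induction F using FreeAlgebra.induction with
  | grade0 r => simp [Matrix.algebraMap_matrix_apply]
  | grade1 s => cases s <;> simp [lf, up]
  | mul F F' h h' => simp [Matrix.mul_apply, h.1, h.2, h'.1, h'.2]
  | add F F' h h' => simp [h.1, h.2, h'.1, h'.2]

theorem up_pre (e x e' a : B) (r : R) (F F' : FA R) :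
    lf (up e x) (up e' a) (algebraMap R _ r + gx R * F + ga R * F') 0 0 = algebraMap R B r ∧
    lf (up e x) (up e' a) (algebraMap R _ r + gx R * F + ga R * F') 0 1 =
      e * lf x a F + e' * lf x a F' := by
  have h := up_row e x e' a F
  have h' := up_row e x e' a F'
  simp only [map_add, map_mul, lf_gx, lf_ga, AlgHom.commutes, Matrix.add_apply, Matrix.mul_apply,
    Fin.sum_univ_two, h.1, h.2, h'.1, h'.2]
  simp [up, Matrix.algebraMap_matrix_apply]

end lf

/-- invariance under `x ↦ x + c` -/
def Inv (F : FA R) : Prop := ∀ (B : Type v) [Ring B] [Algebra R B] (x a c : B), c * c = 0 →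
  c * a = a * c → lf (x + c) a F = lf x a F

theorem Inv.cancel {H : FA R} (h : Inv (ga R * H)) : Inv H := by
  intro B _ _ x a c cc ca
  have e := h (Polynomial B) (Polynomial.C x) (Polynomial.X + Polynomial.C a) (Polynomial.C c)
    (by rw [← map_mul, cc, map_zero])
    (by rw [mul_add, add_mul, Polynomial.X_mul, ← map_mul, ← map_mul, ca])
  rw [map_mul, map_mul, lf_ga, lf_ga] at e
  have e' := congrArg (Polynomial.eval₂AlgHom (AlgHom.id R B) (0 : B) fun _ => Commute.zero_right _)
    ((Polynomial.monic_X_add_C a).isRegular.left e)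
  simpa [map_lf] using e'

theorem Inv.res {r : R} {F F' : FA R} (h : Inv (algebraMap R _ r + gx R * F + ga R * F')) :
    Inv F := by
  intro B _ _ x a c cc ca
  have e := h _ (up 1 x) (up 0 a) (up 0 c) (by rw [up_mul, cc, zero_mul, up_zero])
    (by simp [up_mul, ca])
  rw [up_add, add_zero] at e
  have e' := congrFun (congrFun e 0) 1
  rw [(up_pre _ _ _ _ _ _ _).2, (up_pre _ _ _ _ _ _ _).2] at e'
  simpa using e'

theorem Inv.kill {r r' : R} {F F' H : FA R}
    (h : Inv (algebraMap R _ r + gx R * (algebraMap R _ r' + gx R * F + ga R * H) + ga R * F')) :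
    algebraMap R _ r' + gx R * F + ga R * H = ga R * H := by
  have h0 : (!![1, 0; 0, 0] : Matrix (Fin 2) (Fin 2) (FA R)) * up 0 (ga R) = 0 := by
    ext i j
    fin_cases i <;> fin_cases j <;> simp [up, Matrix.mul_apply]
  have e := h _ (up 0 (up 1 (gx R))) (up 0 (up 0 (ga R))) (up !![1, 0; 0, 0] 0)
    (by rw [up_mul, mul_zero, mul_zero, up_zero]) (by simp [up_mul, h0])
  rw [up_add, add_zero, zero_add] at e
  have e' := congrFun (congrFun e 0) 1
  rw [(up_pre _ _ _ _ _ _ _).2, (up_pre _ _ _ _ _ _ _).2, zero_mul, zero_mul, add_zero,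
    add_zero] at e'
  have e0 := congrFun (congrFun e' 0) 0
  have e1 := congrFun (congrFun e' 0) 1
  simp only [Matrix.mul_apply, Fin.sum_univ_two, (up_pre _ _ _ _ _ _ _).1,
    (up_pre _ _ _ _ _ _ _).2, lf_id] at e0 e1
  simp at e0 e1
  simp [e0, e1]

/-- words of length less than `n` -/
def D (R : Type v) [CommRing R] (n : ℕ) : Submodule R (FA R) :=
  Submodule.span R (wd (gx R) (ga R) '' {u | u.length < n})

theorem D_mono {n m : ℕ} (h : n ≤ m) : D R n ≤ D R m :=
  Submodule.span_mono (Set.image_mono fun _ hu => lt_of_lt_of_le hu h)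

theorem D_all (F : FA R) : ∃ n, F ∈ D R n := by
  induction F using FreeAlgebra.induction with
  | grade0 r =>
    exact ⟨1, Algebra.algebraMap_eq_smul_one (A := FA R) r ▸
      Submodule.smul_mem _ _ (Submodule.subset_span ⟨[], by simp, rfl⟩)⟩
  | grade1 s => exact ⟨2, Submodule.subset_span ⟨[s], by simp, by cases s <;> simp [gx, ga]⟩⟩
  | mul F F' h h' =>
    obtain ⟨n, h⟩ := h
    obtain ⟨m, h'⟩ := h'
    have := Submodule.mul_mem_mul h h'
    rw [D, D, Submodule.span_mul_span] at this
    refine ⟨n + m, Submodule.span_mono ?_ this⟩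
    rintro _ ⟨_, ⟨u, hu, rfl⟩, _, ⟨u', hu', rfl⟩, rfl⟩
    refine ⟨u ++ u', ?_, wd_append _ _ _ _⟩
    simp only [Set.mem_ofPred_eq, List.length_append] at hu hu' ⊢
    omega
  | add F F' h h' =>
    obtain ⟨n, h⟩ := h
    obtain ⟨m, h'⟩ := h'
    exact ⟨n + m, add_mem (D_mono (by omega) h) (D_mono (by omega) h')⟩

theorem D_dec {n : ℕ} {F : FA R} (h : F ∈ D R n) : ∃ (r : R) (F₁ F₂ : FA R),
    F = algebraMap R _ r + gx R * F₁ + ga R * F₂ ∧ F₁ ∈ D R (n - 1) ∧ F₂ ∈ D R (n - 1) ∧
      gx R * F₂ ∈ D R n := by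
  induction h using Submodule.span_induction with
  | mem F hF =>
    obtain ⟨u, hu, rfl⟩ := hF
    have hu' : u.length < n := hu
    rcases u with _ | ⟨_ | _, u⟩
    · exact ⟨1, 0, 0, by simp, zero_mem _, zero_mem _, by simp⟩
    · exact ⟨0, _, 0, by simp, Submodule.subset_span ⟨u, Nat.lt_sub_of_add_lt hu', rfl⟩,
        zero_mem _, by simp⟩
    · exact ⟨0, 0, _, by simp, zero_mem _,
        Submodule.subset_span ⟨u, Nat.lt_sub_of_add_lt hu', rfl⟩,
        Submodule.subset_span ⟨false :: u, hu', by simp⟩⟩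
  | zero => exact ⟨0, 0, 0, by simp, zero_mem _, zero_mem _, by simp⟩
  | add F F' _ _ h h' =>
    obtain ⟨r, F₁, F₂, rfl, a, b, c⟩ := h
    obtain ⟨r', F₁', F₂', rfl, a', b', c'⟩ := h'
    exact ⟨r + r', F₁ + F₁', F₂ + F₂', by rw [map_add]; noncomm_ring, add_mem a a', add_mem b b',
      by rw [mul_add]; exact add_mem c c'⟩
  | smul t F _ h =>
    obtain ⟨r, F₁, F₂, rfl, a, b, c⟩ := h
    exact ⟨t * r, t • F₁, t • F₂, by simp [Algebra.smul_def, mul_add, Algebra.left_comm],
      Submodule.smul_mem _ _ a, Submodule.smul_mem _ _ b,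
      by rw [mul_smul_comm]; exact Submodule.smul_mem _ _ c⟩

/-- invariant elements are polynomials in `a` and `b = [a, x]` -/
theorem Inv.mem (S : Submodule R (FA R)) (h1 : (1 : FA R) ∈ S) (ha : ∀ F ∈ S, ga R * F ∈ S)
    (hb : ∀ F ∈ S, gb R * F ∈ S) {F : FA R} (h : Inv F) : F ∈ S := by
  obtain ⟨n, hn⟩ := D_all F
  induction n generalizing F with
  | zero => simpa [D] using (show F = 0 by simpa [D] using hn) ▸ zero_mem S
  | succ n ih =>
    obtain ⟨r, F₁, F₂, rfl, a, b, -⟩ := D_dec hn
    obtain ⟨r', F₃, H, rfl, -, c, d⟩ := D_dec a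
    have hH : Inv H := Inv.cancel (h.kill ▸ h.res)
    have hk := h.kill
    rw [hk] at h ⊢
    have hF : Inv (F₂ + gx R * H) := Inv.cancel fun B _ _ x a c cc ca => by
      have e := h B x a c cc ca
      have e' := hH B x a c cc ca
      simp only [map_add, map_mul, lf_gx, lf_ga, AlgHom.commutes, e'] at e ⊢
      linear_combination (norm := noncomm_ring) e - ca * lf x a H
    have e : algebraMap R (FA R) r + gx R * (ga R * H) + ga R * F₂ =
        r • (1 : FA R) + ga R * (F₂ + gx R * H) - gb R * H := by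
      rw [gb, Algebra.algebraMap_eq_smul_one]
      noncomm_ring
    rw [e]
    exact sub_mem (add_mem (S.smul_mem r h1) (ha _ (ih hF (add_mem b d))))
      (hb _ (ih hH (D_mono (by omega) c)))

theorem Inv.adjoin {F : FA R} (h : Inv F) : F ∈ Algebra.adjoin R {ga R, gb R} :=
  h.mem (Subalgebra.toSubmodule (Algebra.adjoin R {ga R, gb R})) (Subalgebra.one_mem _)
    (fun _ hF => Subalgebra.mul_mem _ (Algebra.subset_adjoin (by simp)) hF)
    fun _ hF => Subalgebra.mul_mem _ (Algebra.subset_adjoin (by simp)) hF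

variable {Φ : List Bool → R}

/-- the degree `n` part of `Φ` modulo `y ^ 2`, as a polynomial in `x` and `a = [y, x]` -/
def bar (Φ : List Bool → R) (n : ℕ) : FA R := PowerSeries.coeff n (G Φ 0 (gx R) (ga R))

theorem lf_bar {B : Type v} [Ring B] [Algebra R B] (x a : B) (n : ℕ) :
    lf x a (bar Φ n) = PowerSeries.coeff n (G Φ 0 x a) := by
  have := congrArg (PowerSeries.coeff n) (map_G (Φ := Φ) (lf x a) 0 (gx R) (ga R))
  simpa [bar] using this

theorem inv_bar (h : Pent Φ) (h1 : Φ [] = 1) (h2 : (2 : R) = 0) (n : ℕ) : Inv (bar Φ n) := by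
  intro B _ _ x a c cc ca
  rw [lf_bar, lf_bar, inv h h1 h2 x a c cc ca]

/-- modulo `y ^ 2` a solution of the pentagon is a series in `a` and `b` -/
theorem star {B : Type v} [Ring B] [Algebra R B] (h : Pent Φ) (h1 : Φ [] = 1) (h2 : (2 : R) = 0)
    {x y : B} (hy : y * y = 0) (n : ℕ) : PowerSeries.coeff n (ser Φ x y) ∈
      Algebra.adjoin R {y * x - x * y, (y * x - x * y) * x - x * (y * x - x * y)} := by
  rw [(sc_of_pent h h1).y0 h2 hy (a := y * x - x * y) (by abel), ← lf_bar]
  have := Subalgebra.mem_map.2 ⟨_, (inv_bar h h1 h2 n).adjoin, (rfl : lf x (y * x - x * y) _ = _)⟩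
  simpa [AlgHom.map_adjoin, Set.image_insert_eq, gb] using this

/-- left multiplication by `y` modulo `y ^ 2` -/
def sy (R : Type v) [CommRing R] : Module.End R (List Bool → R) where
  toFun ψ w := match w with
    | true :: w => if yh w then 0 else ψ w
    | _ => 0
  map_add' ψ ψ' := by
    funext w
    rcases w with _ | ⟨_ | _, w⟩
    · simp
    · simp
    · by_cases h : yh w <;> simp [h]
  map_smul' c ψ := by
    funext w
    rcases w with _ | ⟨_ | _, w⟩
    · simp
    · simp
    · by_cases h : yh w <;> simp [h]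

theorem sy_nil (ψ : List Bool → R) : sy R ψ [] = 0 := rfl
theorem sy_false (ψ : List Bool → R) (w : List Bool) : sy R ψ (false :: w) = 0 := rfl
theorem sy_true (ψ : List Bool → R) (w : List Bool) :
    sy R ψ (true :: w) = if yh w then 0 else ψ w := rfl

theorem sy_sq : sy R * sy R = 0 := by
  ext ψ w
  rcases w with _ | ⟨_ | _, _ | ⟨_ | _, w⟩⟩ <;> simp [sy_nil, sy_false, sy_true]

/-- no two adjacent letters `Y` -/
def NY : List Bool → Prop
  | [] => True
  | false :: w => NY w
  | true :: w => yh w = false ∧ NY w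

/-- words in `XY` and `XXY` -/
def hof : List Bool → Bool
  | [] => true
  | false :: true :: w => hof w
  | false :: false :: true :: w => hof w
  | _ => false

theorem wd_sy : ∀ (u w : List Bool), NY w →
    wd (SH2.st R false) (sy R) u (SH2.dl R) w = if u = w then 1 else 0
  | [], w, _ => by simp [SH2.dl, eq_comm]
  | false :: u, [], _ => by simp [SH2.st_nil]
  | false :: u, false :: w, h => by simp [SH2.st_cons, wd_sy u w h]
  | false :: u, true :: w, _ => by simp [SH2.st_cons]
  | true :: u, [], _ => by simp [sy_nil]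
  | true :: u, false :: w, _ => by simp [sy_false]
  | true :: u, true :: w, h => by simp [sy_true, h.1, wd_sy u w h.2]

theorem star_word (h : Pent Φ) (h1 : Φ [] = 1) (h2 : (2 : R) = 0) {w : List Bool} (hw : NY w)
    (hy : yh w = false) (hh : hof w = false) : Φ w = 0 := by
  let x := SH2.st R false
  let a := sy R * x - x * sy R
  let S : Submodule R (FA R) :=
    { carrier := {F | ∀ w, yh w = false → hof w = false → lf x a F (SH2.dl R) w = 0}
      add_mem' := fun hF hF' w a b => by simp [hF w a b, hF' w a b]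
      zero_mem' := fun w _ _ => by simp
      smul_mem' := fun t F hF w a b => by simp [hF w a b] }
  have hS : bar Φ w.length ∈ S := by
    refine (inv_bar h h1 h2 _).mem S (fun w _ hh => ?_) (fun F hF w hy hh => ?_)
      fun F hF w hy hh => ?_
    · rcases w with _ | ⟨s, w⟩
      · simp [hof] at hh
      · simp [SH2.dl]
    · rcases w with _ | ⟨_ | _, _ | ⟨_ | _, w⟩⟩ <;>
        simp [hof, a, x, sy_nil, sy_false, sy_true, SH2.st_cons, SH2.st_nil] at hy hh ⊢
      exact fun hy' => hF w hy' hh
    · have e : lf x a (gb R) = sy R * x * x + x * x * sy R := by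
        have e : ∀ x y : Module.End R (List Bool → R),
            (y * x - x * y) * x - x * (y * x - x * y) = y * x * x + x * x * y := fun x y => by
          rw [← sub_zero (y * x * x + x * x * y), ← two h2 (x * y * x)]
          simp only [mul_sub, sub_mul, mul_assoc]
          abel
        simp only [gb, map_sub, map_mul, lf_ga, lf_gx, a, e]
      rw [map_mul, e]
      rcases w with _ | ⟨_ | _, _ | ⟨_ | _, _ | ⟨_ | _, w⟩⟩⟩ <;>
        simp [hof, x, sy_nil, sy_false, sy_true, SH2.st_cons, SH2.st_nil] at hy hh ⊢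
      exact fun hy' => hF w hy' hh
  have e := hS w hy hh
  rw [lf_bar, ← (sc_of_pent h h1).y0 h2 sy_sq (by simp [a]), coeff_ser] at e
  simp only [LinearMap.sum_apply, LinearMap.smul_apply, Finset.sum_apply, Pi.smul_apply, x,
    wd_sy _ w hw] at e
  simpa [mem_W] using e

theorem idx_facts : ∀ k : List ℕ, (∀ j ∈ k, 2 ≤ j) →
    NY (idx k) ∧ yh (idx k) = false ∧ (hof (idx k) = true → ∀ j ∈ k, j ≤ 3)
  | [], _ => by simp [idx, NY]
  | j :: k, h => by
    obtain ⟨a, b, c⟩ := idx_facts k fun i hi => h i (by simp [hi])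
    obtain ⟨m, rfl⟩ := Nat.exists_eq_add_of_le' (h j (by simp))
    have e : idx ((m + 2) :: k) = false :: (List.replicate m false ++ true :: idx k) := by
      simp [idx, List.replicate_succ]
    have hn : ∀ m, NY (List.replicate m false ++ true :: idx k) := fun m => by
      induction m with
      | zero => exact ⟨b, a⟩
      | succ m ih => exact ih
    rw [e]
    refine ⟨hn m, rfl, fun hh => ?_⟩
    rcases m with _ | _ | m
    · simpa using c (by simpa [hof] using hh)
    · simpa using c (by simpa [hof] using hh)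
    · simp [hof, List.replicate_succ] at hh

end S12

/-- In characteristic two the coefficients at indices without ones vanish outside the Hoffman
indices. -/
theorem st_STAR {R : Type v} [CommRing R] {Φ : List Bool → R} (h : Pent Φ) (h1 : Φ [] = 1)
    (h2 : (2 : R) = 0) (k : List ℕ) (hk : ∀ j ∈ k, 2 ≤ j) (h4 : ∃ j ∈ k, 4 ≤ j) :
    Φ (idx k) = 0 := by
  obtain ⟨a, b, c⟩ := S12.idx_facts k hk
  refine S12.star_word h h1 h2 a b ?_
  by_contra hh
  obtain ⟨j, hj, h4⟩ := h4
  have := c (by simpa using hh) j hj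
  omega

end Pool.Agent.DD
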