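import Pool.Agent.Lib.DD.Desc91
import Pool.Agent.Lib.DD.Star12b
import Mathlib.Algebra.DualNumber

/-! The linear and integral form of the structure theorem modulo `(2, y ^ 2)`. -/

set_option autoImplicit false

noncomputable section

namespace Pool.Agent.DD

open Finset Pool.Agent.DR TrivSqZeroExt

universe v

/-- the series `1 + ε ψ` -/
def lin {R : Type*} [CommRing R] (ψ : List Bool → R) (w : List Bool) : DualNumber R :=
  inl (if w = [] then 1 else 0) + inr (ψ w)

@[simp] theorem fst_lin {R : Type*} [CommRing R] (ψ : List Bool → R) (w : List Bool) :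
    fst (lin ψ w) = if w = [] then 1 else 0 := by simp [lin]

@[simp] theorem snd_lin {R : Type*} [CommRing R] (ψ : List Bool → R) (w : List Bool) :
    snd (lin ψ w) = ψ w := by simp [lin]

/-- functoriality of dual numbers -/
def dmap {A B : Type*} [Ring A] [Ring B] (j : A →+* B) : DualNumber A →+* DualNumber B where
  toFun z := inl (j z.fst) + inr (j z.snd)
  map_one' := by ext <;> simp
  map_mul' a b := by ext <;> simp
  map_zero' := by ext <;> simp
  map_add' a b := by ext <;> simp

@[simp] theorem fst_dmap {A B : Type*} [Ring A] [Ring B] (j : A →+* B) (z : DualNumber A) :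
    fst (dmap j z) = j z.fst := by simp [dmap]

@[simp] theorem snd_dmap {A B : Type*} [Ring A] [Ring B] (j : A →+* B) (z : DualNumber A) :
    snd (dmap j z) = j z.snd := by simp [dmap]

theorem dmap_inj {A B : Type*} [Ring A] [Ring B] {j : A →+* B} (hj : Function.Injective j) :
    Function.Injective (dmap j) := fun a b h => by
  ext
  · exact hj (by simpa using congrArg fst h)
  · exact hj (by simpa using congrArg snd h)

theorem dmap_lin {A B : Type*} [CommRing A] [CommRing B] (j : A →+* B) (ψ : List Bool → A)
    (w : List Bool) : dmap j (lin ψ w) = lin (fun u => j (ψ u)) w := by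
  ext
  · simp only [fst_dmap, fst_lin]
    split_ifs <;> simp
  · simp

theorem lin_map {A B : Type v} [CommRing A] [CommRing B] (j : A →+* B) {ψ : List Bool → A}
    (h : Pent (lin ψ)) : Pent (lin fun u => j (ψ u)) := by
  simpa only [dmap_lin] using pent_map (dmap j) h

theorem lin_desc {A B : Type} [CommRing A] [CommRing B] {j : A →+* B} (hj : Function.Injective j)
    {ψ : List Bool → A} (h : Pent (lin fun u => j (ψ u))) : Pent (lin ψ) :=
  pent_desc (dmap j) (dmap_inj hj) (by simpa only [dmap_lin] using h)

/-- the linear structure theorem in characteristic two -/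
theorem star_lin {k : Type v} [CommRing k] (h2 : (2 : k) = 0) {ψ : List Bool → k} (h0 : ψ [] = 0)
    (h : Pent (lin ψ)) {B : Type v} [Ring B] [Algebra k B] {x y : B} (hy : y * y = 0) (n : ℕ) :
    ∑ u ∈ W n, ψ u • wd x y u ∈
      Algebra.adjoin k {y * x - x * y, (y * x - x * y) * x - x * (y * x - x * y)} := by
  let _ : Algebra (DualNumber k) (DualNumber B) := (dmap (algebraMap k B)).toAlgebra' fun r z => by
    ext <;> simp [Algebra.commutes, add_comm]
  have hm : ∀ r, algebraMap (DualNumber k) (DualNumber B) r = dmap (algebraMap k B) r := fun _ => rfl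
  have h1 : lin ψ [] = 1 := by ext <;> simp [h0]
  have h2' : (2 : DualNumber k) = 0 := by
    rw [← map_ofNat (algebraMap k (DualNumber k)), h2, map_zero]
  have s := S12.star (B := DualNumber B) (x := inl x) (y := inl y) h h1 h2'
    (by rw [← inl_mul, hy, inl_zero]) n
  set S := Algebra.adjoin k {y * x - x * y, (y * x - x * y) * x - x * (y * x - x * y)}
  have key : ∀ z ∈ Algebra.adjoin (DualNumber k) ({inl y * inl x - inl x * inl y,
      (inl y * inl x - inl x * inl y) * inl x - inl x * (inl y * inl x - inl x * inl y)} :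
        Set (DualNumber B)), fst z ∈ S ∧ snd z ∈ S := fun z hz => by
    induction hz using Algebra.adjoin_induction with
    | mem g hg =>
      rcases hg with rfl | rfl
      · exact ⟨by simpa using Algebra.subset_adjoin (by simp), by simp⟩
      · exact ⟨by simpa using Algebra.subset_adjoin (by simp), by simp⟩
    | algebraMap r => rw [hm]; simp
    | add p q _ _ hp hq => exact ⟨add_mem hp.1 hq.1, add_mem hp.2 hq.2⟩
    | mul p q _ _ hp hq =>
      rw [DualNumber.snd_mul]
      exact ⟨mul_mem hp.1 hq.1, add_mem (mul_mem hp.1 hq.2) (mul_mem hp.2 hq.1)⟩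
  have e := (key _ s).2
  rw [coeff_ser, snd_sum] at e
  convert e using 2 with u
  have : wd (inl x : DualNumber B) (inl y) u = inl (wd x y u) :=
    (map_wd x y (inlHom B B) u).symm
  rw [Algebra.smul_def, Algebra.smul_def, hm, this, DualNumber.snd_mul]
  simp

/-- the structure theorem for integral solutions of the linear pentagon -/
theorem star_int {O K k : Type} [CommRing O] [CommRing K] [CommRing k] {j : O →+* K}
    (hj : Function.Injective j) (f : O →+* k) (h2 : (2 : k) = 0) {ψ : List Bool → O}
    (h0 : ψ [] = 0) (h : Pent (lin fun u => j (ψ u))) {B : Type} [Ring B] [Algebra k B] {x y : B}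
    (hy : y * y = 0) (n : ℕ) : ∑ u ∈ W n, f (ψ u) • wd x y u ∈
      Algebra.adjoin k {y * x - x * y, (y * x - x * y) * x - x * (y * x - x * y)} :=
  star_lin h2 (by rw [h0, map_zero]) (lin_map f (lin_desc hj h)) hy n

/-- the linear pentagon in every algebra -/
def LPent {R : Type v} [CommRing R] (ψ : List Bool → R) : Prop :=
  ∀ (B : Type v) [Ring B] [Algebra R B] (T : Br B),
    ser ψ T.b0 (T.c + T.b1) + ser ψ (T.a0 + T.c) T.a1 =
      ser ψ T.c T.a1 + ser ψ (T.a0 + T.b0) (T.a1 + T.b1) + ser ψ T.b0 T.c

theorem ser_lin {R B : Type*} [CommRing R] [Ring B] [Algebra R B] [Algebra (DualNumber R) B]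
    (hR : ∀ r, algebraMap R B r = algebraMap (DualNumber R) B (inl r)) (ψ : List Bool → R)
    (p q : B) : ser (lin ψ) p q =
      1 + PowerSeries.C (algebraMap (DualNumber R) B DualNumber.eps) * ser ψ p q := by
  ext n
  have e : ∀ u, lin ψ u = (if u = [] then 1 else 0) + DualNumber.eps * inl (ψ u) :=
    fun u => by
      ext
      · split_ifs with h <;> simp [h]
      · split_ifs <;> simp
  rw [map_add, PowerSeries.coeff_C_mul, coeff_ser, coeff_ser, mul_sum]
  simp only [e, Algebra.smul_def, map_add, map_mul, add_mul, sum_add_distrib, hR, mul_assoc,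
    apply_ite (algebraMap (DualNumber R) B), map_one, map_zero, ite_mul, one_mul, zero_mul]
  rw [sum_ite_eq', PowerSeries.coeff_one]
  simp [mem_W, eq_comm]

theorem LPent.pent {R : Type v} [CommRing R] {ψ : List Bool → R} (h : LPent ψ) : Pent (lin ψ) := by
  intro B _ _ T
  let _ : Algebra R B := ((algebraMap (DualNumber R) B).comp (inlHom R R)).toAlgebra'
    fun r z => Algebra.commutes _ _
  set ε : PowerSeries B := PowerSeries.C (algebraMap (DualNumber R) B DualNumber.eps) with hε
  have c : ∀ F : PowerSeries B, F * ε = ε * F := fun F => by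
    ext n
    rw [PowerSeries.coeff_C_mul, PowerSeries.coeff_mul_C, Algebra.commutes]
  have z : ε * ε = 0 := by rw [← map_mul, ← map_mul, DualNumber.eps_mul_eps, map_zero, map_zero]
  have m : ∀ F G : PowerSeries B, (1 + ε * F) * (1 + ε * G) = 1 + ε * (F + G) := fun F G => by
    rw [add_mul, mul_add, mul_add, ← mul_assoc (ε * F), mul_assoc ε, c, ← mul_assoc ε ε, z]
    simp only [one_mul, mul_one, zero_mul, mul_add]
    abel
  simp only [ser_lin (R := R) (B := B) (fun _ => rfl), ← hε, m, h B T]

end Pool.Agent.DD
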