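import Pool.Agent.Lib.DD.DSW56
import Pool.Agent.Lib.DR.Defs
import Mathlib.Algebra.Lie.Quotient
import Mathlib.LinearAlgebra.Basis.VectorSpace

set_option autoImplicit false

noncomputable section

namespace Pool.Agent.DD.H56

attribute [local instance 100] LieRing.ofAssociativeRing

open Pool.Agent.DR

universe u

/-- A quotient `L` of a free Lie algebra embeds in an associative algebra `U` as soon as `U` acts
on `K × L` in the Dynkin way (characteristic zero; this replaces PBW). -/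
theorem inj_quot {K Y L U : Type*} [Field K] [CharZero K] [LieRing L] [LieAlgebra K L] [Ring U]
    [Algebra K U] (φ : FreeLieAlgebra K Y →ₗ⁅K⁆ L) (hφ : Function.Surjective φ)
    (π : FreeAlgebra K Y →ₐ[K] U) (h1 : ∀ m, φ m = 0 → π (iota K Y m) = 0)
    (act : U →ₐ[K] Module.End K (K × L))
    (hact : ∀ y, act (π (FreeAlgebra.ι K y)) = stepE (φ (FreeLieAlgebra.of K y)))
    (m : FreeLieAlgebra K Y) (hm : π (iota K Y m) = 0) : φ m = 0 := by
  have hc : act.comp π = actE (fun x => φ (FreeLieAlgebra.of K x)) := by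
    apply FreeAlgebra.hom_ext
    funext y
    simp [actE, hact]
  let E : FreeLieAlgebra K Y →ₗ[K] L :=
    (LinearMap.snd K K _) ∘ₗ (LinearMap.applyₗ ((1 : K), (0 : L))) ∘ₗ
      (actE (K := K) (fun x => φ (FreeLieAlgebra.of K x))).toLinearMap ∘ₗ (iota K Y).toLinearMap
  have hE : ∀ v, E v = (actE (K := K) (fun x => φ (FreeLieAlgebra.of K x))
      (iota K Y v) (1, 0)).2 := fun v => rfl
  have hE0 : ∀ v, π (iota K Y v) = 0 → E v = 0 := by
    intro v hv
    rw [hE, ← hc, AlgHom.comp_apply, hv]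
    simp
  obtain ⟨g, hg⟩ := LinearMap.exists_rightInverse_of_surjective φ.toLinearMap
    (LinearMap.range_eq_top.2 hφ)
  have hg' : ∀ l, φ (g l) = l := fun l => LinearMap.congr_fun hg l
  have hD : ∀ v, (E ∘ₗ g) (φ v) = E v := by
    intro v
    have := hE0 (g (φ v) - v) (h1 _ (by rw [map_sub, hg', sub_self]))
    rwa [map_sub, sub_eq_zero] at this
  refine inj_of_span_eigen (E ∘ₗ g) (fun l => ?_) _ (by rw [hD, hE0 m hm])
  obtain ⟨v, rfl⟩ := hφ l
  have hv := mem_span_mon K Y (fun _ => 1) v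
  induction hv using Submodule.span_induction with
  | mem a ha =>
    obtain ⟨n, hn⟩ := ha
    refine Submodule.subset_span ⟨n, Nat.cast_ne_zero.2 (hn.pos fun _ => Nat.one_pos).ne', ?_⟩
    rw [hD, hE, actE_mon φ hn]
    simp
  | zero => simp
  | add s t _ _ hs ht => rw [map_add]; exact add_mem hs ht
  | smul c s _ hs => rw [map_smul]; exact Submodule.smul_mem _ c hs

theorem stepE_add {K L : Type*} [CommRing K] [LieRing L] [LieAlgebra K L] (a b : L) :
    stepE (K := K) (a + b) = stepE a + stepE b := by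
  refine LinearMap.ext fun ⟨c, v⟩ => ?_
  simp only [stepE_apply, LinearMap.add_apply, Prod.mk_add_mk, add_zero, smul_add, add_lie]
  refine Prod.ext rfl ?_
  simp only
  abel

theorem stepE_zero {K L : Type*} [CommRing K] [LieRing L] [LieAlgebra K L] :
    stepE (K := K) (0 : L) = 0 := by
  refine LinearMap.ext fun ⟨c, v⟩ => ?_
  simp [stepE_apply]

theorem stepE_comm {K L : Type*} [CommRing K] [LieRing L] [LieAlgebra K L] {a b : L}
    (h : ⁅a, b⁆ = 0) : stepE (K := K) a * stepE b = stepE b * stepE a := by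
  refine LinearMap.ext fun ⟨c, v⟩ => ?_
  have h' : ⁅b, a⁆ = 0 := by rw [← lie_skew, h, neg_zero]
  have h2 : ⁅a, ⁅b, v⁆⁆ = ⁅b, ⁅a, v⁆⁆ := by rw [leibniz_lie a b v, h, zero_lie, zero_add]
  simp [stepE_apply, h, h', h2]

/-- The infinitesimal pure braid relations for a family `t` in a Lie algebra. -/
structure Braid {g : Type*} [LieRing g] (t : Fin 4 → Fin 4 → g) : Prop where
  diag : ∀ i, t i i = 0
  symm : ∀ i j, t i j = t j i
  tri : ∀ i j k, [i, j, k].Nodup → ⁅t i j, t i k + t j k⁆ = 0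
  far : ∀ i j k l, [i, j, k, l].Nodup → ⁅t i j, t k l⁆ = 0

variable (K : Type u)

/-- The relators of the Drinfeld-Kohno Lie algebra. -/
def relL [CommRing K] : Set (FreeLieAlgebra K (Fin 4 × Fin 4)) :=
  {m | (∃ i, m = FreeLieAlgebra.of K (i, i)) ∨
    (∃ i j, m = FreeLieAlgebra.of K (i, j) - FreeLieAlgebra.of K (j, i)) ∨
    (∃ i j k, [i, j, k].Nodup ∧
      m = ⁅FreeLieAlgebra.of K (i, j), FreeLieAlgebra.of K (i, k) + FreeLieAlgebra.of K (j, k)⁆) ∨
    ∃ i j k l, [i, j, k, l].Nodup ∧ m = ⁅FreeLieAlgebra.of K (i, j), FreeLieAlgebra.of K (k, l)⁆}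

/-- The Drinfeld-Kohno Lie algebra on four strands. -/
abbrev T4 [CommRing K] : Type u :=
  FreeLieAlgebra K (Fin 4 × Fin 4) ⧸
    LieSubmodule.lieSpan K (FreeLieAlgebra K (Fin 4 × Fin 4)) (relL K)

/-- The quotient map onto `T4`. -/
def mkT4 [CommRing K] : FreeLieAlgebra K (Fin 4 × Fin 4) →ₗ⁅K⁆ T4 K where
  toLinearMap := (LieSubmodule.Quotient.mk' _).toLinearMap
  map_lie' := rfl

/-- The generator `t_{i+1, j+1}` of `T4`. -/
def tL [CommRing K] (i j : Fin 4) : T4 K := mkT4 K (FreeLieAlgebra.of K (i, j))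

variable {K}

theorem mkT4_eq_zero [CommRing K] (m : FreeLieAlgebra K (Fin 4 × Fin 4)) :
    mkT4 K m = 0 ↔ m ∈ LieSubmodule.lieSpan K (FreeLieAlgebra K (Fin 4 × Fin 4)) (relL K) :=
  LieSubmodule.Quotient.mk_eq_zero'

theorem braid_tL [CommRing K] : Braid (tL K) where
  diag i := (mkT4_eq_zero _).2 (LieSubmodule.subset_lieSpan (Or.inl ⟨i, rfl⟩))
  symm i j := by
    rw [← sub_eq_zero, tL, tL, ← map_sub]
    exact (mkT4_eq_zero _).2 (LieSubmodule.subset_lieSpan (Or.inr (Or.inl ⟨i, j, rfl⟩)))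
  tri i j k h := by
    rw [tL, tL, tL, ← map_add, ← LieHom.map_lie]
    exact (mkT4_eq_zero _).2
      (LieSubmodule.subset_lieSpan (Or.inr (Or.inr (Or.inl ⟨i, j, k, h, rfl⟩))))
  far i j k l h := by
    rw [tL, tL, ← LieHom.map_lie]
    exact (mkT4_eq_zero _).2
      (LieSubmodule.subset_lieSpan (Or.inr (Or.inr (Or.inr ⟨i, j, k, l, h, rfl⟩))))

/-- Universal property of `T4`, in kernel form. -/
theorem Braid.kill [CommRing K] {g : Type*} [LieRing g] [LieAlgebra K g] {t : Fin 4 → Fin 4 → g}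
    (h : Braid t) {m : FreeLieAlgebra K (Fin 4 × Fin 4)} (hm : mkT4 K m = 0) :
    FreeLieAlgebra.lift K (fun p : Fin 4 × Fin 4 => t p.1 p.2) m = 0 := by
  have : LieSubmodule.lieSpan K (FreeLieAlgebra K (Fin 4 × Fin 4)) (relL K) ≤
      (FreeLieAlgebra.lift K (fun p : Fin 4 × Fin 4 => t p.1 p.2)).ker := by
    rw [LieSubmodule.lieSpan_le]
    rintro m (⟨i, rfl⟩ | ⟨i, j, rfl⟩ | ⟨i, j, k, hn, rfl⟩ | ⟨i, j, k, l, hn, rfl⟩) <;>
      rw [SetLike.mem_coe, LieHom.mem_ker]
    · simp [h.diag]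
    · simp [h.symm i j]
    · simpa using h.tri i j k hn
    · simpa using h.far i j k l hn
  exact LieHom.mem_ker.1 (this ((mkT4_eq_zero m).1 hm))

theorem braid_tt [CommRing K] : Braid (tt K) where
  diag i := by rw [tt, RingQuot.mkAlgHom_rel K (Rel.diag i), map_zero]
  symm i j := RingQuot.mkAlgHom_rel K (Rel.symm i j)
  tri i j k h := by
    have := RingQuot.mkAlgHom_rel K (Rel.tri (R := K) i j k h)
    rw [LieRing.of_associative_ring_bracket, sub_eq_zero]
    simpa [tt] using this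
  far i j k l h := by
    have := RingQuot.mkAlgHom_rel K (Rel.far (R := K) i j k l h)
    rw [LieRing.of_associative_ring_bracket, sub_eq_zero]
    simpa [tt] using this

theorem mk_iota [CommRing K] (m : FreeLieAlgebra K (Fin 4 × Fin 4)) :
    RingQuot.mkAlgHom K (Rel K) (iota K _ m) =
      FreeLieAlgebra.lift K (fun p : Fin 4 × Fin 4 => tt K p.1 p.2) m := by
  have : ((RingQuot.mkAlgHom K (Rel K) : _ →ₐ[K] _) : _ →ₗ⁅K⁆ _).comp (iota K _) =
      FreeLieAlgebra.lift K (fun p : Fin 4 × Fin 4 => tt K p.1 p.2) := by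
    apply FreeLieAlgebra.hom_ext
    intro p
    simp [tt]
  rw [← this]; rfl

/-- The Drinfeld-Kohno Lie algebra embeds in the associative algebra with the same presentation. -/
theorem t4_inj [Field K] [CharZero K] (m : FreeLieAlgebra K (Fin 4 × Fin 4)) :
    RingQuot.mkAlgHom K (Rel K) (iota K _ m) = 0 ↔ mkT4 K m = 0 := by
  refine ⟨fun hm => ?_, fun hm => by rw [mk_iota]; exact braid_tt.kill hm⟩
  have hb := braid_tL (K := K)
  have hw : ∀ ⦃x y⦄, Rel K x y → actE (fun p : Fin 4 × Fin 4 => tL K p.1 p.2) x =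
      actE (fun p : Fin 4 × Fin 4 => tL K p.1 p.2) y := by
    intro x y h
    cases h with
    | diag i => simp [actE, hb.diag, stepE_zero]
    | symm i j => simp [actE, hb.symm i j]
    | tri i j k h =>
      simp only [actE, map_mul, map_add, FreeAlgebra.lift_ι_apply, ← stepE_add]
      exact stepE_comm (hb.tri i j k h)
    | far i j k l h =>
      simp only [actE, map_mul, FreeAlgebra.lift_ι_apply]
      exact stepE_comm (hb.far i j k l h)
  refine inj_quot (mkT4 K) (LieSubmodule.Quotient.surjective_mk' _) (RingQuot.mkAlgHom K (Rel K))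
    (fun m hm => by rw [mk_iota]; exact braid_tt.kill hm)
    (RingQuot.liftAlgHom K ⟨_, hw⟩) (fun y => ?_) m hm
  rw [RingQuot.liftAlgHom_mkAlgHom_apply]
  simp [actE, tL]

/-- Substitution in a Lie polynomial in two letters. -/
def evL [CommRing K] {g : Type*} [LieRing g] [LieAlgebra K g] (a b : g) :
    FreeLieAlgebra K Bool →ₗ⁅K⁆ g :=
  FreeLieAlgebra.lift K fun s => if s then b else a

theorem map_evL [CommRing K] {g g' : Type*} [LieRing g] [LieAlgebra K g] [LieRing g']
    [LieAlgebra K g'] (F : g →ₗ⁅K⁆ g') (a b : g) (ψ : FreeLieAlgebra K Bool) :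
    F (evL a b ψ) = evL (F a) (F b) ψ := by
  have : F.comp (evL a b) = evL (F a) (F b) := by
    apply FreeLieAlgebra.hom_ext
    intro s
    cases s <;> simp [evL]
  rw [← this]; rfl

theorem lift_iota [CommRing K] {B : Type*} [Ring B] [Algebra K B] (p q : B)
    (ψ : FreeLieAlgebra K Bool) :
    FreeAlgebra.lift K (fun s : Bool => if s then q else p) (iota K Bool ψ) = evL p q ψ := by
  have : ((FreeAlgebra.lift K (fun s : Bool => if s then q else p) : _ →ₐ[K] _) : _ →ₗ⁅K⁆ _).comp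
      (iota K Bool) = evL p q := by
    apply FreeLieAlgebra.hom_ext
    intro s
    cases s <;> simp [evL]
  rw [← this]; rfl

/-- The linear pentagon equation for a family `t` in a Lie algebra. -/
def PentL [CommRing K] {g : Type*} [LieRing g] [LieAlgebra K g] (t : Fin 4 → Fin 4 → g)
    (ψ : FreeLieAlgebra K Bool) : Prop :=
  evL (t 0 1) (t 1 2 + t 1 3) ψ + evL (t 0 2 + t 1 2) (t 2 3) ψ =
    evL (t 1 2) (t 2 3) ψ + evL (t 0 1 + t 0 2) (t 1 3 + t 2 3) ψ + evL (t 0 1) (t 1 2) ψ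

/-- The defect of the pentagon equation in the free Lie algebra. -/
def defect [CommRing K] (ψ : FreeLieAlgebra K Bool) : FreeLieAlgebra K (Fin 4 × Fin 4) :=
  let t : Fin 4 → Fin 4 → FreeLieAlgebra K (Fin 4 × Fin 4) := fun i j => FreeLieAlgebra.of K (i, j)
  evL (t 0 1) (t 1 2 + t 1 3) ψ + evL (t 0 2 + t 1 2) (t 2 3) ψ -
    (evL (t 1 2) (t 2 3) ψ + evL (t 0 1 + t 0 2) (t 1 3 + t 2 3) ψ + evL (t 0 1) (t 1 2) ψ)

theorem map_defect [CommRing K] {g : Type*} [LieRing g] [LieAlgebra K g]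
    (F : FreeLieAlgebra K (Fin 4 × Fin 4) →ₗ⁅K⁆ g) (ψ : FreeLieAlgebra K Bool) :
    F (defect ψ) = 0 ↔ PentL (fun i j => F (FreeLieAlgebra.of K (i, j))) ψ := by
  simp only [defect, map_sub, map_add, map_evL, PentL, sub_eq_zero]

/-- The pentagon in the Lie algebra `T4` is the pentagon in the associative algebra. -/
theorem pentL_iff [Field K] [CharZero K] (ψ : FreeLieAlgebra K Bool) :
    PentL (tL K) ψ ↔ PentL (tt K) ψ := by
  have h1 := map_defect (mkT4 K) ψ
  have h2 := map_defect (FreeLieAlgebra.lift K (fun p : Fin 4 × Fin 4 => tt K p.1 p.2)) ψ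
  simp only [FreeLieAlgebra.lift_of_apply] at h2
  rw [← mk_iota, t4_inj] at h2
  exact h1.symm.trans h2

/-- The pentagon in `T4` holds in every Lie algebra with the braid relations. -/
theorem PentL.univ [CommRing K] {ψ : FreeLieAlgebra K Bool} (h : PentL (tL K) ψ) {g : Type*}
    [LieRing g] [LieAlgebra K g] {t : Fin 4 → Fin 4 → g} (ht : Braid t) : PentL t ψ := by
  have h2 := map_defect (FreeLieAlgebra.lift K (fun p : Fin 4 × Fin 4 => t p.1 p.2)) ψ
  simp only [FreeLieAlgebra.lift_of_apply] at h2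
  exact h2.1 (ht.kill ((map_defect (mkT4 K) ψ).2 h))

end Pool.Agent.DD.H56
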