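import Pool.Agent.Lib.DD.Spec39
import Pool.Agent.Lib.DD.T4Lie56
import Pool.Agent.Lib.DD.Lin91
import Mathlib.RingTheory.TwoSidedIdeal.Operations
import Mathlib.Algebra.Lie.Nilpotent
import Mathlib.Algebra.Lie.Derivation.Basic

set_option autoImplicit false

noncomputable section

namespace Pool.Agent.DD.F

open Pool.Agent.DR Pool.Agent.DD.S39 Pool.Agent.DD.H56

attribute [local instance 100] LieRing.ofAssociativeRing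

universe v

abbrev FA (K : Type v) [CommRing K] : Type v := FreeAlgebra K Bool
abbrev FN (K : Type v) [CommRing K] : Type v := FreeAlgebra K ℕ

section ring
variable {K : Type v} [CommRing K]

def Dm (ψ : FA K) : FA K →ₐ[K] Matrix (Fin 2) (Fin 2) (FA K) :=
  ev !![lx K, 0; 0, lx K] !![ly K, ly K * ψ - ψ * ly K; 0, ly K]

theorem Dm_sh (ψ f : FA K) : Dm ψ f 0 0 = f ∧ Dm ψ f 1 0 = 0 ∧ Dm ψ f 1 1 = f := by
  induction f using ind with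
  | h0 r => simp [Matrix.algebraMap_matrix_apply]
  | hx => simp [Dm]
  | hy => simp [Dm]
  | hm f g hf hg => simp [Matrix.mul_apply, hf, hg]
  | ha f g hf hg => simp [hf, hg]

/-- the derivation `x ↦ 0`, `y ↦ [y, ψ]` -/
def D (ψ : FA K) : Module.End K (FA K) :=
  (Matrix.entryLinearMap K _ 0 1).comp (Dm ψ).toLinearMap

@[simp] theorem D_x (ψ : FA K) : D ψ (lx K) = 0 := by simp [D, Dm]
@[simp] theorem D_y (ψ : FA K) : D ψ (ly K) = ly K * ψ - ψ * ly K := by simp [D, Dm]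
@[simp] theorem D_alg (ψ : FA K) (r : K) : D ψ (algebraMap K _ r) = 0 := by
  simp [D, Matrix.algebraMap_matrix_apply]
@[simp] theorem D_one (ψ : FA K) : D ψ 1 = 0 := by simpa using D_alg ψ 1
theorem D_mul (ψ f g : FA K) : D ψ (f * g) = D ψ f * g + f * D ψ g := by
  simp [D, Matrix.mul_apply, Dm_sh, add_comm]

/-- any other model of the derivation agrees with `D` -/
theorem D_unique (ψ : FA K) (d : FA K →ₗ[K] FA K) (hx : d (lx K) = 0)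
    (hy : d (ly K) = ly K * ψ - ψ * ly K) (hm : ∀ f g, d (f * g) = d f * g + f * d g) (f : FA K) :
    d f = D ψ f := by
  have h1 : d 1 = 0 := by simpa using hm 1 1
  induction f using ind with
  | h0 r => rw [D_alg, Algebra.algebraMap_eq_smul_one, map_smul, h1, smul_zero]
  | hx => simp [hx]
  | hy => simp [hy]
  | hm f g hf hg => rw [hm, D_mul, hf, hg]
  | ha f g hf hg => simp [hf, hg]

/-- `S ψ f = ψ f + D ψ f` -/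
def S (ψ : FA K) : Module.End K (FA K) := LinearMap.mulLeft K ψ + D ψ

theorem S_apply (ψ f : FA K) : S ψ f = ψ * f + D ψ f := rfl

/-- the Ihara bracket -/
def ih (f g : FA K) : FA K := f * g - g * f + D f g - D g f

/-- `g ↦ g(S s₀, S s₁, …) 1` -/
def phi (s : ℕ → FA K) : FN K →ₗ[K] FA K :=
  (LinearMap.applyₗ (1 : FA K)).comp (FreeAlgebra.lift K fun k => S (s k)).toLinearMap

/-- homogeneous of degree `n` -/
def Hn (K : Type v) [CommRing K] (n : ℕ) : Submodule K (FA K) :=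
  Submodule.span K (wd (lx K) (ly K) '' {u | u.length = n})

/-- the coefficient of a word -/
def co (w : List Bool) : FA K →ₗ[K] K := (FreeAlgebra.basisFreeMonoid K Bool).coord (FreeMonoid.ofList w)

/-- the word `x ^ (n - 1) y` -/
def d1 (n : ℕ) : List Bool := List.replicate (n - 1) false ++ [true]

structure G (n : ℕ) (ψ : FA K) : Prop where
  lie : IsLie ψ
  hom : ψ ∈ Hn K n
  pent : S39.LPent ψ

def Anti (ψ : FA K) : Prop := ψ + ev (ly K) (lx K) ψ = 0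

def Hex (ψ : FA K) : Prop :=
  ψ + ev (ly K) (-lx K - ly K) ψ + ev (-lx K - ly K) (lx K) ψ = 0

/-- Lie polynomials of weight `n` in letters of weight `2 k + 3` -/
def LW (K : Type v) [CommRing K] (n : ℕ) : Submodule K (FN K) :=
  Submodule.span K {u | Mon (fun k => 2 * k + 3) (FreeAlgebra.ι K) n u}

def LN (K : Type v) [CommRing K] : LieSubalgebra K (FN K) :=
  LieSubalgebra.lieSpan K (FN K) (Set.range (FreeAlgebra.ι K))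

end ring

/-! the integral lattice -/

structure GZ (n : ℕ) (ψ : FA ℤ) : Prop where
  lie : ∃ m : ℤ, m ≠ 0 ∧ IsLie (m • ψ)
  hom : ψ ∈ Hn ℤ n
  pent : S39.LPent ψ

def up : FA ℤ →ₐ[ℤ] FA ℚ := ev (lx ℚ) (ly ℚ)
def upN : FN ℤ →ₐ[ℤ] FN ℚ := FreeAlgebra.lift ℤ (FreeAlgebra.ι ℚ)

/-- the ideal `(2, y ^ 2)` -/
def J : TwoSidedIdeal (FA ℤ) := TwoSidedIdeal.span {2, ly ℤ * ly ℤ}

def aa : FA ℤ := ly ℤ * lx ℤ - lx ℤ * ly ℤ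

/-- `bb k = ad_a ^ k [a, x]` -/
def bb : ℕ → FA ℤ
  | 0 => aa * lx ℤ - lx ℤ * aa
  | k + 1 => aa * bb k - bb k * aa

def evb : FN ℤ →ₐ[ℤ] FA ℤ := FreeAlgebra.lift ℤ bb

/-! the statement -/

abbrev L : Type := FreeLieAlgebra ℚ Bool
def x : L := FreeLieAlgebra.of ℚ false
def y : L := FreeLieAlgebra.of ℚ true

/-- Drinfeld's `grt₁` -/
def grt : Set L :=
  {ψ | ψ ∈ LieModule.lowerCentralSeries ℚ L L 2 ∧ ψ + evL y x ψ = 0 ∧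
    ψ + evL y (-x - y) ψ + evL (-x - y) x ψ = 0 ∧ PentL (tL ℚ) ψ}

def Main : Prop :=
  ∃ (Dl : L → LieDerivation ℚ L L) (Φ : FreeLieAlgebra ℚ ℕ →ₗ[ℚ] L),
    (∀ ψ, Dl ψ x = 0 ∧ Dl ψ y = ⁅y, ψ⁆) ∧ Function.Injective Φ ∧ Set.range Φ = grt ∧
    (∀ a b, Φ ⁅a, b⁆ = ⁅Φ a, Φ b⁆ + Dl (Φ a) (Φ b) - Dl (Φ b) (Φ a)) ∧
    ∀ (k : ℕ) (c : ℚ), evL (c • x) (c • y) (Φ (FreeLieAlgebra.of ℚ k)) =
      c ^ (2 * k + 3) • Φ (FreeLieAlgebra.of ℚ k)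

/-! rows -/

def St_CO : Prop := ∀ (K : Type) [CommRing K],
  (∀ u w, co w (wd (lx K) (ly K) u) = if u = w then (1 : K) else 0) ∧
  (∀ n (ψ : FA K), ψ ∈ Hn K n ↔ ∀ w : List Bool, w.length ≠ n → co w ψ = 0) ∧
  (∀ n (ψ : FA K), ψ ∈ Hn K n → ψ = ∑ u ∈ W n, co u ψ • wd (lx K) (ly K) u) ∧
  (∀ n (ψ : FA K), ψ ∈ Hn K n → (S39.LPent ψ ↔ DD.LPent fun w => co w ψ)) ∧
  (∀ m n (f g : FA K), f ∈ Hn K m → g ∈ Hn K n → f * g ∈ Hn K (m + n) ∧ D f g ∈ Hn K (m + n))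

def St_FU : Prop := ∀ (K : Type) [Field K] [CharZero K] (n : ℕ) (ψ : FA K), 3 ≤ n → G n ψ →
  Anti ψ ∧ Hex ψ

def St_CL : Prop := ∀ (K : Type) [Field K] [CharZero K] (m n : ℕ) (f g : FA K), 3 ≤ m → 3 ≤ n →
  G m f → G n g → G (m + n) (ih f g)

def St_EX : Prop := ∀ k : ℕ, ∃ ψ : FA ℚ, G (2 * k + 3) ψ ∧ co (d1 (2 * k + 3)) ψ ≠ 0

def St_DEP : Prop := ∀ (K : Type) [CommRing K] (n : ℕ) (f g : FA K),
  ev (lx K) 0 f = 0 → ev (lx K) 0 g = 0 → co (d1 n) (ih f g) = 0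

def St_LAT : Prop :=
  Function.Injective up ∧ (∀ n ψ, GZ n ψ ↔ G n (up ψ)) ∧
  (∀ ψ : FA ℚ, ∃ m : ℤ, m ≠ 0 ∧ ∃ φ, up φ = m • ψ) ∧
  (∀ f g, up (ih f g) = ih (up f) (up g)) ∧ (∀ w ψ, co w (up ψ) = (co w ψ : ℤ)) ∧
  (∀ s g, up (phi s g) = phi (fun k => up (s k)) (upN g)) ∧
  (∀ g : FN ℚ, ∃ m : ℤ, m ≠ 0 ∧ ∃ g', upN g' = m • g) ∧ ∀ g ∈ LN ℤ, upN g ∈ LN ℚ

def St_DROP : Prop := ∀ n ψ, 1 ≤ n → GZ n ψ → ψ ∈ J → ∃ φ : FA ℤ, ψ = (2 : ℤ) • φ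

def St_STAR : Prop := ∀ n ψ, 1 ≤ n → GZ n ψ → ∃ u ∈ Subring.closure {aa, bb 0}, ψ - u ∈ J

def St_GAM : Prop := ∃ Γ : FA ℤ →ₗ[ℤ] FN ℤ,
  (∀ n ψ, 3 ≤ n → ψ ∈ Hn ℤ n → IsLie ψ → Γ ψ ∈ LW ℤ n) ∧
  (∀ g ψ, ψ - evb g ∈ J → ∃ h, Γ ψ = g + (2 : ℤ) • h) ∧
  ∀ n ψ, 3 ≤ n → ψ ∈ Hn ℤ n → (∃ m : ℤ, m ≠ 0 ∧ IsLie (m • ψ)) →
    (∃ u ∈ Subring.closure {aa, bb 0}, ψ - u ∈ J) → ψ - evb (Γ ψ) ∈ J

def St_PHI : Prop := ∀ (K : Type) [CommRing K] (s : ℕ → FA K),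
  (∀ k, phi s (FreeAlgebra.ι K k) = s k) ∧
  ∀ g ∈ LN K, ∀ h ∈ LN K, phi s (g * h - h * g) = ih (phi s g) (phi s h)

def St_MOD : Prop := ∀ s : ℕ → FA ℤ, (∀ k, s k - bb k ∈ J) → ∀ g, phi s g - evb g ∈ J

def St_CORE : Prop := ∃ s : ℕ → FA ℚ, (∀ k, G (2 * k + 3) (s k)) ∧ Function.Injective (phi s) ∧
  ∀ n ψ, 3 ≤ n → G n ψ → ∃ g ∈ LN ℚ, phi s g = ψ

def St_DL : Prop := ∃ Dl : L → LieDerivation ℚ L L, (∀ ψ, Dl ψ x = 0 ∧ Dl ψ y = ⁅y, ψ⁆) ∧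
  ∀ ψ f, iota ℚ Bool (Dl ψ f) = D (iota ℚ Bool ψ) (iota ℚ Bool f)

def St_GRT : Prop := ∀ ψ : L, ψ ∈ grt ↔
  iota ℚ Bool ψ ∈ Submodule.span ℚ {f : FA ℚ | ∃ n, 3 ≤ n ∧ G n f}

theorem rlz : True := by
  have := @bb.eq_def
  trivial

end Pool.Agent.DD.F
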