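import Mathlib.Algebra.Lie.Free
import Mathlib.Algebra.Lie.OfAssociative
import Mathlib.Algebra.FreeAlgebra
import Mathlib.RingTheory.TensorProduct.Maps
import Mathlib.LinearAlgebra.Eigenspace.Basic
import Mathlib.LinearAlgebra.Quotient.Basic
import Mathlib.Tactic.NoncommRing

set_option autoImplicit false

noncomputable section

namespace Pool.Agent.DD.H56

attribute [local instance 100] LieRing.ofAssociativeRing

open TensorProduct

/-! ## Lie monomials -/

section Mon

variable {K L X : Type*} [CommRing K] [LieRing L] [LieAlgebra K L]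

/-- `Mon w f n u`: `u` is an iterated bracket of the `f x`, of total weight `n`. -/
inductive Mon (w : X → ℕ) (f : X → L) : ℕ → L → Prop
  | of (x : X) : Mon w f (w x) (f x)
  | br {m n : ℕ} {u v : L} : Mon w f m u → Mon w f n v → Mon w f (m + n) ⁅u, v⁆

theorem Mon.mem {w : X → ℕ} {f : X → L} {n : ℕ} {u : L} (h : Mon w f n u) :
    u ∈ LieSubalgebra.lieSpan K L (Set.range f) := by
  induction h with
  | of x => exact LieSubalgebra.subset_lieSpan ⟨x, rfl⟩
  | br _ _ h1 h2 => exact LieSubalgebra.lie_mem _ h1 h2

theorem Mon.pos {w : X → ℕ} (hw : ∀ x, 0 < w x) {f : X → L} {n : ℕ} {u : L}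
    (h : Mon w f n u) : 0 < n := by
  induction h with
  | of x => exact hw x
  | br _ _ h1 h2 => omega

theorem Mon.map {L' : Type*} [LieRing L'] [LieAlgebra K L'] (φ : L →ₗ⁅K⁆ L') {w : X → ℕ}
    {f : X → L} {n : ℕ} {u : L} (h : Mon w f n u) : Mon w (fun x => φ (f x)) n (φ u) := by
  induction h with
  | of x => exact Mon.of x
  | br _ _ h1 h2 => rw [LieHom.map_lie]; exact Mon.br h1 h2

/-- The Lie span of a family is the linear span of its Lie monomials. -/
theorem mem_lieSpan_iff (w : X → ℕ) (f : X → L) (u : L) :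
    u ∈ LieSubalgebra.lieSpan K L (Set.range f) ↔
      u ∈ Submodule.span K {v | ∃ n, Mon w f n v} := by
  constructor
  · intro h
    induction h using LieSubalgebra.lieSpan_induction with
    | mem x hx =>
      obtain ⟨i, rfl⟩ := hx
      exact Submodule.subset_span ⟨_, Mon.of i⟩
    | zero => exact zero_mem _
    | add a b _ _ ha hb => exact add_mem ha hb
    | smul c a _ ha => exact Submodule.smul_mem _ c ha
    | lie a b _ _ ha hb =>
      induction ha using Submodule.span_induction with
      | mem a ha =>
        induction hb using Submodule.span_induction with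
        | mem b hb =>
          obtain ⟨m, hm⟩ := ha
          obtain ⟨n, hn⟩ := hb
          exact Submodule.subset_span ⟨_, Mon.br hm hn⟩
        | zero => simp
        | add b b' h1 h2 hb hb' =>
          rw [lie_add]
          exact add_mem (hb (span_le_aux w f h1)) (hb' (span_le_aux w f h2))
        | smul c b h1 hb =>
          rw [lie_smul]
          exact Submodule.smul_mem _ c (hb (span_le_aux w f h1))
      | zero => simp
      | add a a' h1 h2 ha ha' =>
        rw [add_lie]
        exact add_mem (ha (span_le_aux w f h1)) (ha' (span_le_aux w f h2))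
      | smul c a h1 ha =>
        rw [smul_lie]
        exact Submodule.smul_mem _ c (ha (span_le_aux w f h1))
  · exact span_le_aux w f
where
  span_le_aux (w : X → ℕ) (f : X → L) {u : L}
      (h : u ∈ Submodule.span K {v | ∃ n, Mon w f n v}) :
      u ∈ LieSubalgebra.lieSpan K L (Set.range f) := by
    have : Submodule.span K {v | ∃ n, Mon w f n v} ≤
        (LieSubalgebra.lieSpan K L (Set.range f)).toSubmodule := by
      rw [Submodule.span_le]
      rintro v ⟨n, hn⟩
      exact hn.mem
    exact this h

end Mon

/-- An endomorphism of a space spanned by eigenvectors with nonzero eigenvalues is injective. -/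
theorem inj_of_span_eigen {K V : Type*} [Field K] [AddCommGroup V] [Module K V]
    (f : Module.End K V)
    (h : ∀ v, v ∈ Submodule.span K {v | ∃ c : K, c ≠ 0 ∧ f v = c • v}) (v : V) (hv : f v = 0) :
    v = 0 := by
  have h1 := (Module.End.eigenspaces_iSupIndep f) 0
  have h2 : Submodule.span K {v | ∃ c : K, c ≠ 0 ∧ f v = c • v} ≤
      ⨆ j, ⨆ (_ : j ≠ (0 : K)), f.eigenspace j := by
    rw [Submodule.span_le]
    rintro u ⟨c, hc, hu⟩
    exact Submodule.mem_iSup_of_mem c
      (Submodule.mem_iSup_of_mem hc (Module.End.mem_eigenspace_iff.2 hu))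
  exact (Submodule.disjoint_def.1 h1) v (Module.End.mem_eigenspace_iff.2 (by simp [hv])) (h2 (h v))

/-! ## The free Lie algebra inside the free associative algebra -/

section DSW

variable (K X : Type*) [CommRing K]

/-- The canonical Lie map from the free Lie algebra to the free associative algebra. -/
def iota : FreeLieAlgebra K X →ₗ⁅K⁆ FreeAlgebra K X := FreeLieAlgebra.lift K (FreeAlgebra.ι K)

@[simp] theorem iota_of (x : X) : iota K X (FreeLieAlgebra.of K x) = FreeAlgebra.ι K x :=
  FreeLieAlgebra.lift_of_apply _ _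

theorem mem_lieSpan_of (u : FreeLieAlgebra K X) :
    u ∈ LieSubalgebra.lieSpan K (FreeLieAlgebra K X) (Set.range (FreeLieAlgebra.of K)) := by
  let S := LieSubalgebra.lieSpan K (FreeLieAlgebra K X) (Set.range (FreeLieAlgebra.of K))
  let g : X → S := fun x => ⟨FreeLieAlgebra.of K x, LieSubalgebra.subset_lieSpan ⟨x, rfl⟩⟩
  have h : S.incl.comp (FreeLieAlgebra.lift K g) = LieHom.id := by
    apply FreeLieAlgebra.hom_ext
    intro x
    simp [g]
  have h2 : (S.incl.comp (FreeLieAlgebra.lift K g)) u = u := by rw [h]; rfl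
  rw [← h2]
  exact (FreeLieAlgebra.lift K g u).2

/-- The free Lie algebra is spanned by its monomials (any weights). -/
theorem mem_span_mon (w : X → ℕ) (u : FreeLieAlgebra K X) :
    u ∈ Submodule.span K {v | ∃ n, Mon w (FreeLieAlgebra.of K) n v} :=
  (mem_lieSpan_iff w _ u).1 (mem_lieSpan_of K X u)

variable {K X}

/-- The range of a lifted map is the Lie span of the images of the generators. -/
theorem mem_range_lift {L : Type*} [LieRing L] [LieAlgebra K L] (f : X → L) (v : L) :
    (∃ u, FreeLieAlgebra.lift K f u = v) ↔ v ∈ LieSubalgebra.lieSpan K L (Set.range f) := by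
  constructor
  · rintro ⟨u, rfl⟩
    have h := mem_lieSpan_of K X u
    induction h using LieSubalgebra.lieSpan_induction with
    | mem x hx =>
      obtain ⟨i, rfl⟩ := hx
      rw [FreeLieAlgebra.lift_of_apply]
      exact LieSubalgebra.subset_lieSpan ⟨i, rfl⟩
    | zero => simp
    | add a b _ _ ha hb => rw [map_add]; exact add_mem ha hb
    | smul c a _ ha => rw [map_smul]; exact LieSubalgebra.smul_mem _ c ha
    | lie a b _ _ ha hb => rw [LieHom.map_lie]; exact LieSubalgebra.lie_mem _ ha hb
  · intro h
    have : LieSubalgebra.lieSpan K L (Set.range f) ≤ (FreeLieAlgebra.lift K f).range := by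
      rw [LieSubalgebra.lieSpan_le]
      rintro _ ⟨x, rfl⟩
      exact ⟨FreeLieAlgebra.of K x, FreeLieAlgebra.lift_of_apply _ _⟩
    exact this h

theorem mem_range_iota (v : FreeAlgebra K X) :
    (∃ u, iota K X u = v) ↔
      v ∈ LieSubalgebra.lieSpan K (FreeAlgebra K X) (Set.range (FreeAlgebra.ι K)) :=
  mem_range_lift _ v

/-- One letter acts on `K × L` by `(c, v) ↦ (0, c • f x + ⁅f x, v⁆)`. -/
def stepE {L : Type*} [LieRing L] [LieAlgebra K L] (a : L) : Module.End K (K × L) :=
  (LinearMap.inr K K L) ∘ₗ
    ((LinearMap.toSpanSingleton K L a).coprod (LieAlgebra.ad K L a))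

theorem stepE_apply {L : Type*} [LieRing L] [LieAlgebra K L] (a : L) (c : K) (v : L) :
    stepE a (c, v) = (0, c • a + ⁅a, v⁆) := by
  simp [stepE]

/-- The action of the free associative algebra on `K × L`. -/
def actE {L : Type*} [LieRing L] [LieAlgebra K L] (f : X → L) :
    FreeAlgebra K X →ₐ[K] Module.End K (K × L) :=
  FreeAlgebra.lift K fun x => stepE (f x)

theorem actE_mon {L : Type*} [LieRing L] [LieAlgebra K L] (φ : FreeLieAlgebra K X →ₗ⁅K⁆ L)
    {n : ℕ} {u : FreeLieAlgebra K X} (h : Mon (fun _ => 1) (FreeLieAlgebra.of K) n u)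
    (c : K) (v : L) :
    actE (fun x => φ (FreeLieAlgebra.of K x)) (iota K X u) (c, v) =
      (0, ((n : K) * c) • φ u + ⁅φ u, v⁆) := by
  induction h generalizing c v with
  | of x => simp [actE, stepE_apply]
  | @br m n a b _ _ ha hb =>
    rw [LieHom.map_lie, LieRing.of_associative_ring_bracket, map_sub, map_mul, map_mul]
    simp only [LinearMap.sub_apply, Module.End.mul_apply, ha, hb, LieHom.map_lie, mul_zero,
      zero_smul, zero_add, Prod.mk_sub_mk, sub_self, lie_add, lie_smul, lie_lie, Nat.cast_add]
    rw [← lie_skew (φ b) (φ a), add_mul, add_smul, smul_neg]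
    refine Prod.ext rfl ?_
    simp only
    abel

/-- **Dynkin-Specht-Wever**: over a field of characteristic zero the free Lie algebra embeds in
the free associative algebra. -/
theorem iota_injective (K X : Type*) [Field K] [CharZero K] : Function.Injective (iota K X) := by
  rw [injective_iff_map_eq_zero]
  intro u hu
  let D : Module.End K (FreeLieAlgebra K X) :=
    (LinearMap.snd K K _) ∘ₗ (LinearMap.applyₗ ((1 : K), (0 : FreeLieAlgebra K X))) ∘ₗ
      (actE (K := K) (fun x => (LieHom.id : FreeLieAlgebra K X →ₗ⁅K⁆ _)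
        (FreeLieAlgebra.of K x))).toLinearMap ∘ₗ (iota K X).toLinearMap
  have hD : ∀ v, D v = (actE (K := K) (fun x => (LieHom.id : FreeLieAlgebra K X →ₗ⁅K⁆ _)
        (FreeLieAlgebra.of K x)) (iota K X v) (1, 0)).2 := fun v => rfl
  refine inj_of_span_eigen D (fun v => ?_) u (by rw [hD, hu]; simp)
  refine Submodule.span_mono ?_ (mem_span_mon K X (fun _ => 1) v)
  rintro a ⟨n, hn⟩
  refine ⟨n, Nat.cast_ne_zero.2 (hn.pos fun _ => Nat.one_pos).ne', ?_⟩
  rw [hD, actE_mon LieHom.id hn]
  simp

end DSW

/-! ## Primitive elements (Friedrichs' criterion) -/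

section Prim

variable (K X : Type*) [CommRing K]

/-- The coproduct for which the letters are primitive. -/
def cop : FreeAlgebra K X →ₐ[K] FreeAlgebra K X ⊗[K] FreeAlgebra K X :=
  FreeAlgebra.lift K fun x => FreeAlgebra.ι K x ⊗ₜ 1 + 1 ⊗ₜ FreeAlgebra.ι K x

variable {K X}

@[simp] theorem cop_ι (x : X) :
    cop K X (FreeAlgebra.ι K x) = FreeAlgebra.ι K x ⊗ₜ 1 + 1 ⊗ₜ FreeAlgebra.ι K x := by
  simp [cop]

/-- Lie polynomials are primitive (any commutative ring). -/
theorem prim_of_lie {p : FreeAlgebra K X}
    (h : p ∈ LieSubalgebra.lieSpan K (FreeAlgebra K X) (Set.range (FreeAlgebra.ι K))) :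
    cop K X p = p ⊗ₜ 1 + 1 ⊗ₜ p := by
  induction h using LieSubalgebra.lieSpan_induction with
  | mem x hx =>
    obtain ⟨i, rfl⟩ := hx
    exact cop_ι i
  | zero => simp
  | add a b _ _ ha hb =>
    rw [map_add, ha, hb, add_tmul, tmul_add]; abel
  | smul c a _ ha =>
    rw [map_smul, ha, smul_add, smul_tmul', tmul_smul]
  | lie a b _ _ ha hb =>
    rw [LieRing.of_associative_ring_bracket, map_sub, map_mul, map_mul, ha, hb]
    simp only [add_mul, mul_add, Algebra.TensorProduct.tmul_mul_tmul, one_mul, mul_one, sub_tmul,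
      tmul_sub]
    abel

/-- The free algebra is spanned by words. -/
theorem mem_span_words (a : FreeAlgebra K X) :
    a ∈ Submodule.span K {v | ∃ l : List X, v = (l.map (FreeAlgebra.ι K)).prod} := by
  have key : ∀ a : FreeAlgebra K X,
      ∀ s ∈ Submodule.span K {v | ∃ l : List X, v = (l.map (FreeAlgebra.ι K)).prod},
      a * s ∈ Submodule.span K {v | ∃ l : List X, v = (l.map (FreeAlgebra.ι K)).prod} := by
    intro a
    induction a using FreeAlgebra.induction with
    | grade0 r =>
      intro s hs
      rw [← Algebra.smul_def]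
      exact Submodule.smul_mem _ r hs
    | grade1 x =>
      intro s hs
      induction hs using Submodule.span_induction with
      | mem s hs =>
        obtain ⟨l, rfl⟩ := hs
        exact Submodule.subset_span ⟨x :: l, by simp⟩
      | zero => simp
      | add s t _ _ hs ht => rw [mul_add]; exact add_mem hs ht
      | smul c s _ hs => rw [mul_smul_comm]; exact Submodule.smul_mem _ c hs
    | mul a b ha hb =>
      intro s hs
      rw [mul_assoc]
      exact ha _ (hb s hs)
    | add a b ha hb =>
      intro s hs
      rw [add_mul]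
      exact add_mem (ha s hs) (hb s hs)
  simpa using key a 1 (Submodule.subset_span ⟨[], by simp⟩)

/-- Left action on pairs: the letter `x` sends `(a, b)` to `(x a, x a + x b)`. -/
def lamE : FreeAlgebra K X →ₐ[K] Module.End K (FreeAlgebra K X × FreeAlgebra K X) :=
  FreeAlgebra.lift K fun x =>
    ((LinearMap.mulLeft K (FreeAlgebra.ι K x)) ∘ₗ LinearMap.fst K _ _).prod
      ((LinearMap.mulLeft K (FreeAlgebra.ι K x)).coprod (LinearMap.mulLeft K (FreeAlgebra.ι K x)))

/-- Right action on pairs: the letter `x` sends `(a, b)` to `(-a x, -b x)`. -/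
def rhoE : FreeAlgebra K X →ₐ[K] Module.End K (FreeAlgebra K X × FreeAlgebra K X) :=
  FreeAlgebra.lift K fun x =>
    -((LinearMap.mulRight K (FreeAlgebra.ι K x)).prodMap (LinearMap.mulRight K (FreeAlgebra.ι K x)))

theorem lamE_ι (x : X) (a b : FreeAlgebra K X) :
    lamE (FreeAlgebra.ι K x) (a, b) =
      (FreeAlgebra.ι K x * a, FreeAlgebra.ι K x * a + FreeAlgebra.ι K x * b) := by
  simp [lamE]

theorem rhoE_ι (x : X) (a b : FreeAlgebra K X) :
    rhoE (FreeAlgebra.ι K x) (a, b) = (-(a * FreeAlgebra.ι K x), -(b * FreeAlgebra.ι K x)) := by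
  simp [rhoE]

theorem commute_lam_rho (p q : FreeAlgebra K X) : Commute (lamE p) (rhoE q) := by
  have h1 : ∀ x y : X, Commute (lamE (FreeAlgebra.ι K x)) (rhoE (FreeAlgebra.ι K y)) := by
    intro x y
    refine LinearMap.ext fun ⟨a, b⟩ => ?_
    simp only [Module.End.mul_apply, lamE_ι, rhoE_ι]
    refine Prod.ext ?_ ?_ <;> simp only <;> noncomm_ring
  have h2 : ∀ (x : X) (q : FreeAlgebra K X), Commute (lamE (FreeAlgebra.ι K x)) (rhoE q) := by
    intro x q
    induction q using FreeAlgebra.induction with
    | grade0 r => rw [AlgHom.commutes]; exact (Algebra.commutes r _).symm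
    | grade1 y => exact h1 x y
    | mul a b ha hb => rw [map_mul]; exact ha.mul_right hb
    | add a b ha hb => rw [map_add]; exact ha.add_right hb
  induction p using FreeAlgebra.induction with
  | grade0 r => rw [AlgHom.commutes]; exact Algebra.commutes r _
  | grade1 x => exact h2 x q
  | mul a b ha hb => rw [map_mul]; exact ha.mul_left hb
  | add a b ha hb => rw [map_add]; exact ha.add_left hb

theorem rhoE_snd (q : FreeAlgebra K X) (a : FreeAlgebra K X) : (rhoE q (a, 0)).2 = 0 := by
  induction q using FreeAlgebra.induction generalizing a with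
  | grade0 r => rw [AlgHom.commutes]; simp
  | grade1 y => simp [rhoE_ι]
  | mul p q hp hq =>
    rw [map_mul, Module.End.mul_apply]
    have : rhoE q (a, 0) = ((rhoE q (a, 0)).1, 0) := Prod.ext rfl (hq a)
    rw [this]; exact hp _
  | add p q hp hq => rw [map_add, LinearMap.add_apply, Prod.snd_add, hp, hq, add_zero]

/-- The Euler derivation: a word is multiplied by its length. -/
def euler : Module.End K (FreeAlgebra K X) :=
  (LinearMap.snd K _ _) ∘ₗ (LinearMap.applyₗ ((1 : FreeAlgebra K X), (0 : FreeAlgebra K X))) ∘ₗ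
    (lamE (K := K) (X := X)).toLinearMap

theorem euler_def (p : FreeAlgebra K X) : euler p = (lamE p (1, 0)).2 := rfl

theorem lamE_word (l : List X) :
    lamE (l.map (FreeAlgebra.ι K)).prod (1, 0) =
      ((l.map (FreeAlgebra.ι K)).prod, (l.length : K) • (l.map (FreeAlgebra.ι K)).prod) := by
  induction l with
  | nil => simp
  | cons x l ih =>
    rw [List.map_cons, List.prod_cons, map_mul, Module.End.mul_apply, ih, lamE_ι]
    refine Prod.ext rfl ?_
    simp only [List.length_cons, Nat.cast_add, Nat.cast_one, add_smul, one_smul, mul_smul_comm]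
    abel

theorem euler_word (l : List X) :
    euler (l.map (FreeAlgebra.ι K)).prod = (l.length : K) • (l.map (FreeAlgebra.ι K)).prod := by
  rw [euler_def, lamE_word]

/-- The Euler derivative of a primitive element is a Lie polynomial (any commutative ring). -/
theorem euler_mem_of_prim {p : FreeAlgebra K X} (h : cop K X p = p ⊗ₜ 1 + 1 ⊗ₜ p) :
    euler p ∈ LieSubalgebra.lieSpan K (FreeAlgebra K X) (Set.range (FreeAlgebra.ι K)) := by
  let S := LieSubalgebra.lieSpan K (FreeAlgebra K X) (Set.range (FreeAlgebra.ι K))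
  let T := Algebra.TensorProduct.lift (lamE (K := K) (X := X)) rhoE commute_lam_rho
  have key : ∀ (a : FreeAlgebra K X) (c : K) (v : FreeAlgebra K X), v ∈ S →
      ∃ (c' : K) (v' : FreeAlgebra K X), v' ∈ S ∧
        T (cop K X a) (algebraMap K _ c, v) = (algebraMap K _ c', v') := by
    intro a
    induction a using FreeAlgebra.induction with
    | grade0 r =>
      intro c v hv
      refine ⟨r * c, r • v, LieSubalgebra.smul_mem _ r hv, ?_⟩
      rw [AlgHom.commutes, AlgHom.commutes]
      simp [Algebra.smul_def]
    | grade1 x =>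
      intro c v hv
      have hx : FreeAlgebra.ι K x ∈ S := LieSubalgebra.subset_lieSpan ⟨x, rfl⟩
      refine ⟨0, c • FreeAlgebra.ι K x + ⁅FreeAlgebra.ι K x, v⁆,
        add_mem (LieSubalgebra.smul_mem _ c hx) (LieSubalgebra.lie_mem _ hx hv), ?_⟩
      rw [cop_ι, map_add]
      simp only [T, Algebra.TensorProduct.lift_tmul, map_one, mul_one, one_mul,
        LinearMap.add_apply, lamE_ι, rhoE_ι, Prod.mk_add_mk, map_zero,
        LieRing.of_associative_ring_bracket]
      rw [← Algebra.commutes c, Algebra.smul_def]
      refine Prod.ext ?_ ?_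
      · simp
      · simp only; abel
    | mul a b ha hb =>
      intro c v hv
      obtain ⟨c1, v1, h1, e1⟩ := hb c v hv
      obtain ⟨c2, v2, h2, e2⟩ := ha c1 v1 h1
      exact ⟨c2, v2, h2, by rw [map_mul, map_mul, Module.End.mul_apply, e1, e2]⟩
    | add a b ha hb =>
      intro c v hv
      obtain ⟨c1, v1, h1, e1⟩ := hb c v hv
      obtain ⟨c2, v2, h2, e2⟩ := ha c v hv
      refine ⟨c2 + c1, v2 + v1, add_mem h2 h1, ?_⟩
      rw [map_add, map_add, LinearMap.add_apply, e1, e2, map_add]; rfl
  obtain ⟨c', v', hv', e⟩ := key p 1 0 (zero_mem _)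
  rw [h, map_add] at e
  simp only [T, Algebra.TensorProduct.lift_tmul, map_one, mul_one, one_mul,
    LinearMap.add_apply] at e
  have e2 := congrArg Prod.snd e
  rw [Prod.snd_add, rhoE_snd, add_zero] at e2
  rw [euler_def, e2]
  exact hv'

/-- A primitive element has no constant term. -/
theorem aug_prim {p : FreeAlgebra K X} (h : cop K X p = p ⊗ₜ 1 + 1 ⊗ₜ p) :
    FreeAlgebra.algebraMapInv p = 0 := by
  let E := Algebra.TensorProduct.lift (FreeAlgebra.algebraMapInv (R := K) (X := X))
    (FreeAlgebra.algebraMapInv (R := K) (X := X)) fun _ _ => Commute.all _ _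
  have h1 : E.comp (cop K X) = FreeAlgebra.algebraMapInv := by
    ext x
    simp [E, FreeAlgebra.algebraMapInv]
  have h2 : E (cop K X p) = FreeAlgebra.algebraMapInv p := by rw [← h1]; rfl
  rw [h, map_add] at h2
  simpa [E] using h2

/-- **Friedrichs' criterion**: over a field of characteristic zero primitive elements of the free
associative algebra are Lie polynomials. -/
theorem lie_of_prim {K X : Type*} [Field K] [CharZero K] {p : FreeAlgebra K X}
    (h : cop K X p = p ⊗ₜ 1 + 1 ⊗ₜ p) :
    p ∈ LieSubalgebra.lieSpan K (FreeAlgebra K X) (Set.range (FreeAlgebra.ι K)) := by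
  let S := (LieSubalgebra.lieSpan K (FreeAlgebra K X) (Set.range (FreeAlgebra.ι K))).toSubmodule
  let W := S ⊔ Submodule.span K {(1 : FreeAlgebra K X)}
  have hW : W ≤ W.comap euler := by
    refine sup_le ?_ ?_
    · intro s hs
      exact Submodule.mem_sup_left (euler_mem_of_prim (prim_of_lie hs))
    · rw [Submodule.span_le]
      rintro _ rfl
      have := euler_word (K := K) ([] : List X)
      simp only [List.map_nil, List.prod_nil, List.length_nil, Nat.cast_zero, zero_smul] at this
      simp [this]
  let D : Module.End K (FreeAlgebra K X ⧸ W) := Submodule.mapQ W W euler hW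
  have hp : W.mkQ p = 0 := by
    refine inj_of_span_eigen D (fun v => ?_) _ ?_
    · obtain ⟨a, rfl⟩ := W.mkQ_surjective v
      have ha := mem_span_words a
      induction ha using Submodule.span_induction with
      | mem s hs =>
        obtain ⟨l, rfl⟩ := hs
        rcases l with _ | ⟨x, l⟩
        · have : W.mkQ (([] : List X).map (FreeAlgebra.ι K)).prod = 0 := by
            simp only [List.map_nil, List.prod_nil, Submodule.mkQ_apply,
              Submodule.Quotient.mk_eq_zero]
            exact Submodule.mem_sup_right (Submodule.mem_span_singleton_self _)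
          rw [this]; exact zero_mem _
        · refine Submodule.subset_span ⟨((x :: l).length : K), ?_, ?_⟩
          · exact Nat.cast_ne_zero.2 (by simp)
          · simp only [D, Submodule.mkQ_apply, Submodule.mapQ_apply]
            rw [euler_word, Submodule.Quotient.mk_smul]
      | zero => simp
      | add s t _ _ hs ht => rw [map_add]; exact add_mem hs ht
      | smul c s _ hs => rw [map_smul]; exact Submodule.smul_mem _ c hs
    · simp only [D, Submodule.mkQ_apply, Submodule.mapQ_apply, Submodule.Quotient.mk_eq_zero]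
      exact Submodule.mem_sup_left (euler_mem_of_prim h)
  rw [Submodule.mkQ_apply, Submodule.Quotient.mk_eq_zero] at hp
  obtain ⟨s, hs, t, ht, e⟩ := Submodule.mem_sup.1 hp
  obtain ⟨c, rfl⟩ := Submodule.mem_span_singleton.1 ht
  have h1 := aug_prim h
  have h2 := aug_prim (prim_of_lie hs)
  rw [← e, map_add, h2, map_smul, map_one, zero_add, smul_eq_mul, mul_one] at h1
  rw [← e, h1, zero_smul, add_zero]
  exact hs

theorem prim_iff_lie {K X : Type*} [Field K] [CharZero K] (p : FreeAlgebra K X) :
    cop K X p = p ⊗ₜ 1 + 1 ⊗ₜ p ↔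
      p ∈ LieSubalgebra.lieSpan K (FreeAlgebra K X) (Set.range (FreeAlgebra.ι K)) :=
  ⟨lie_of_prim, prim_of_lie⟩

end Prim

end Pool.Agent.DD.H56
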