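import Pool.Agent.Lib.DR.B_FOX
import Pool.Agent.Lib.DR.B_UNIV
import Pool.Agent.Lib.DR.B_TENS
import Mathlib.RingTheory.Flat.TorsionFree
import Mathlib.LinearAlgebra.FreeAlgebra

/-! The universal braid ring is torsion free; the pentagon descends to subrings. -/

set_option autoImplicit false

noncomputable section

namespace Pool.Agent.DR

open Finset TensorProduct

namespace Desc

variable {U : Type} [Ring U] (T : Br U)

/-- fibre letters -/
def fl : Fin 3 → U := ![T.b0, T.b1, T.c]

/-- fibre words -/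
def fw (p : List (Fin 3)) : U := (p.map (fl T)).prod

theorem fw_cons (i : Fin 3) (p : List (Fin 3)) : fw T (i :: p) = fl T i * fw T p := by simp [fw]

/-- the section -/
def K : Subring U := Subring.closure {T.a0 + T.c, T.a1}

/-- normal forms -/
def nf : (List (Fin 3) →₀ K T) →+ U :=
  Finsupp.liftAddHom fun p => (AddMonoidHom.mulLeft (fw T p)).comp (K T).subtype.toAddMonoidHom

theorem nf_single (p : List (Fin 3)) (s : K T) : nf T (Finsupp.single p s) = fw T p * s := by
  simp [nf]

theorem mul_range {g : U} (h : ∀ p (s : K T), g * (fw T p * s) ∈ (nf T).range) {u : U}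
    (hu : u ∈ (nf T).range) : g * u ∈ (nf T).range := by
  obtain ⟨t, rfl⟩ := hu
  induction t using Finsupp.induction_linear with
  | zero => simp
  | add a b ha hb => rw [map_add, mul_add]; exact add_mem ha hb
  | single p s => rw [nf_single]; exact h p s

theorem fl_range (i : Fin 3) {u : U} (hu : u ∈ (nf T).range) : fl T i * u ∈ (nf T).range :=
  mul_range T (fun p s => ⟨Finsupp.single (i :: p) s, by rw [nf_single, fw_cons, mul_assoc]⟩) hu

theorem sec_range {g : U} (hg : g ∈ K T)
    (h : ∀ i u, u ∈ (nf T).range → g * (fl T i * u) - fl T i * (g * u) ∈ (nf T).range) {u : U}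
    (hu : u ∈ (nf T).range) : g * u ∈ (nf T).range := by
  refine mul_range T (fun p s => ?_) hu
  induction p with
  | nil => exact ⟨Finsupp.single [] (⟨g, hg⟩ * s), by rw [nf_single]; simp [fw]⟩
  | cons i p ih =>
    have h1 := h i (fw T p * s) ⟨Finsupp.single p s, nf_single T p s⟩
    have h2 := add_mem h1 (fl_range T i ih)
    rwa [sub_add_cancel, ← mul_assoc (fl T i), ← fw_cons] at h2

theorem nf_surj (hU : Univ T) (u : U) : u ∈ (nf T).range := by
  have b0 := fun {u : U} (hu : u ∈ (nf T).range) => (fl_range T 0 hu : T.b0 * u ∈ (nf T).range)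
  have b1 := fun {u : U} (hu : u ∈ (nf T).range) => (fl_range T 1 hu : T.b1 * u ∈ (nf T).range)
  have bc := fun {u : U} (hu : u ∈ (nf T).range) => (fl_range T 2 hu : T.c * u ∈ (nf T).range)
  have s0 : ∀ {u : U}, u ∈ (nf T).range → (T.a0 + T.c) * u ∈ (nf T).range := fun hu => by
    refine sec_range T (Subring.subset_closure (by simp)) (fun i u hu => ?_) hu
    fin_cases i
    · change (T.a0 + T.c) * (T.b0 * u) - T.b0 * ((T.a0 + T.c) * u) ∈ _
      rw [← mul_assoc, ← mul_assoc, T.h1.eq, sub_self]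
      exact zero_mem _
    · change (T.a0 + T.c) * (T.b1 * u) - T.b1 * ((T.a0 + T.c) * u) ∈ _
      have : (T.a0 + T.c) * (T.b1 * u) - T.b1 * ((T.a0 + T.c) * u) =
          T.c * (T.b1 * u) - T.b1 * (T.c * u) + (T.a0 * T.b1 - T.b1 * T.a0) * u := by noncomm_ring
      rw [this, T.h8.eq, sub_self, zero_mul, add_zero]
      exact sub_mem (bc (b1 hu)) (b1 (bc hu))
    · change (T.a0 + T.c) * (T.c * u) - T.c * ((T.a0 + T.c) * u) ∈ _
      have : (T.a0 + T.c) * (T.c * u) - T.c * ((T.a0 + T.c) * u) =
          T.c * (T.b0 * u) - T.b0 * (T.c * u) -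
            (T.c * (T.a0 + T.b0) - (T.a0 + T.b0) * T.c) * u := by noncomm_ring
      rw [this, T.h3.eq, sub_self, zero_mul, sub_zero]
      exact sub_mem (bc (b0 hu)) (b0 (bc hu))
  have s1 : ∀ {u : U}, u ∈ (nf T).range → T.a1 * u ∈ (nf T).range := fun hu => by
    refine sec_range T (Subring.subset_closure (by simp)) (fun i u hu => ?_) hu
    fin_cases i
    · change T.a1 * (T.b0 * u) - T.b0 * (T.a1 * u) ∈ _
      rw [← mul_assoc, ← mul_assoc, T.h7.eq, sub_self]
      exact zero_mem _
    · change T.a1 * (T.b1 * u) - T.b1 * (T.a1 * u) ∈ _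
      have : T.a1 * (T.b1 * u) - T.b1 * (T.a1 * u) =
          T.b1 * (T.c * u) - T.c * (T.b1 * u) -
            (T.b1 * (T.c + T.a1) - (T.c + T.a1) * T.b1) * u := by noncomm_ring
      rw [this, T.h5.eq, sub_self, zero_mul, sub_zero]
      exact sub_mem (b1 (bc hu)) (bc (b1 hu))
    · change T.a1 * (T.c * u) - T.c * (T.a1 * u) ∈ _
      have : T.a1 * (T.c * u) - T.c * (T.a1 * u) =
          T.c * (T.b1 * u) - T.b1 * (T.c * u) -
            (T.c * (T.a1 + T.b1) - (T.a1 + T.b1) * T.c) * u := by noncomm_ring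
      rw [this, T.h4.eq, sub_self, zero_mul, sub_zero]
      exact sub_mem (bc (b1 hu)) (b1 (bc hu))
  refine hU.ind (nf T).range ⟨Finsupp.single [] 1, by rw [nf_single]; simp [fw]⟩
    (fun u hu => ⟨?_, s1 hu, bc hu, b0 hu, b1 hu⟩) u
  have : (T.a0 + T.c) * u - T.c * u ∈ (nf T).range := sub_mem (s0 hu) (bc hu)
  rwa [add_mul, add_sub_cancel_right] at this

theorem proj (hU : Univ T) : ∃ π : U →+* FreeAlgebra ℤ Bool, (∀ i, π (fl T i) = 0) ∧
    ∀ s ∈ K T, π s = 0 → s = 0 := by
  obtain ⟨π, h0, h1, hc, hb0, hb1⟩ := hU.lift (FreeAlgebra ℤ Bool)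
    ⟨FreeAlgebra.ι ℤ false, FreeAlgebra.ι ℤ true, 0, 0, 0, Commute.zero_left _, by simp,
      Commute.zero_left _, Commute.zero_left _, Commute.zero_left _, by simp, Commute.zero_left _,
      Commute.zero_right _⟩
  refine ⟨π, fun i => ?_, fun s hs h => ?_⟩
  · fin_cases i
    exacts [hb0, hb1, hc]
  · let σ : FreeAlgebra ℤ Bool →ₐ[ℤ] U :=
      FreeAlgebra.lift ℤ fun b => if b then T.a1 else T.a0 + T.c
    have : σ (π s) = s := by
      clear h
      induction hs using Subring.closure_induction with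
      | mem g hg =>
        rcases hg with rfl | rfl
        · rw [map_add, h0, hc, add_zero]; simp [σ]
        · rw [h1]; simp [σ]
      | zero => simp
      | one => simp
      | add p q _ _ hp hq => rw [map_add, map_add, hp, hq]
      | neg p _ hp => rw [map_neg, map_neg, hp]
      | mul p q _ _ hp hq => rw [map_mul, map_mul, hp, hq]
    rw [← this, h, map_zero]

theorem dual (hU : Univ T) (π : U →+* FreeAlgebra ℤ Bool) (hπ : ∀ i, π (fl T i) = 0)
    (l : FreeAlgebra ℤ Bool →+ ℤ) (p : List (Fin 3)) : ∃ f : U →+ ℤ, ∀ p' (s : K T),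
      f (fw T p' * s) = if p' = p then l (π s) else 0 := by
  induction p with
  | nil =>
    refine ⟨l.comp π.toAddMonoidHom, fun p' s => ?_⟩
    cases p' with
    | nil => simp [fw]
    | cons i p' => simp [fw_cons, hπ]
  | cons i p ih =>
    obtain ⟨g, hg⟩ := ih
    obtain ⟨f, f0, f1, fc, fs⟩ := st_FOX U T hU (if i = 0 then g else 0) (if i = 1 then g else 0)
      (if i = 2 then g else 0)
    have hf : ∀ j u, f (fl T j * u) = if j = i then g u else 0 := fun j u => by
      fin_cases j
      · refine (f0 u).trans ?_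
        fin_cases i <;> simp
      · refine (f1 u).trans ?_
        fin_cases i <;> simp
      · refine (fc u).trans ?_
        fin_cases i <;> simp
    refine ⟨f, fun p' s => ?_⟩
    cases p' with
    | nil => simpa [fw] using fs s s.2
    | cons j p' =>
      rw [fw_cons, mul_assoc, hf, hg]
      by_cases h1 : j = i <;> by_cases h2 : p' = p <;> simp [h1, h2]

theorem sep (hU : Univ T) (u : U) (h : ∀ f : U →+ ℤ, f u = 0) : u = 0 := by
  obtain ⟨t, rfl⟩ := nf_surj T hU u
  obtain ⟨π, hπ, hinj⟩ := proj T hU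
  suffices t = 0 by rw [this, map_zero]
  ext p
  refine hinj _ (t p).2 ?_
  refine (FreeAlgebra.basisFreeMonoid ℤ Bool).forall_coord_eq_zero_iff.1 fun i => ?_
  obtain ⟨f, hf⟩ := dual T hU π hπ ((FreeAlgebra.basisFreeMonoid ℤ Bool).coord i).toAddMonoidHom p
  have key : ∀ t : List (Fin 3) →₀ K T,
      f (nf T t) = (FreeAlgebra.basisFreeMonoid ℤ Bool).coord i (π (t p)) := fun t => by
    induction t using Finsupp.induction_linear with
    | zero => simp
    | add a b ha hb => simp only [map_add, Finsupp.add_apply, Subring.coe_add, ha, hb]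
    | single q s =>
      rw [nf_single, hf, Finsupp.single_apply]
      split_ifs <;> simp
  rw [← key, h]

theorem flat (hU : Univ T) : Module.Flat ℤ U := by
  rw [Module.Flat.flat_iff_torsion_eq_bot_of_isBezout, eq_bot_iff]
  rintro u ⟨⟨n, hn⟩, hu⟩
  refine sep T hU u fun f => ?_
  have h1 : n * f u = 0 := by
    rw [← smul_eq_mul, ← map_zsmul]
    exact (congrArg f hu).trans (map_zero f)
  exact (mul_eq_zero.1 h1).resolve_left (nonZeroDivisors.ne_zero hn)

theorem map_ser' {R S A B : Type*} [CommRing R] [CommRing S] [Ring A] [Ring B] [Algebra R A]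
    [Algebra S B] (j : R →+* S) (g : A →+* B) (hg : ∀ r a, g (r • a) = j r • g a)
    (Φ : List Bool → R) (p q : A) :
    PowerSeries.map g (ser Φ p q) = ser (fun w => j (Φ w)) (g p) (g q) := by
  ext n
  rw [PowerSeries.coeff_map, coeff_ser, coeff_ser, map_sum]
  exact sum_congr rfl fun u _ => by rw [hg, map_wd]

end Desc

universe v

/-- base change of the pentagon -/
theorem pent_map {R S : Type v} [CommRing R] [CommRing S] (j : R →+* S) {Φ : List Bool → R}
    (h : Pent Φ) : Pent fun w => j (Φ w) := by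
  intro B _ _ T
  let _ : Algebra R B := ((algebraMap S B).comp j).toAlgebra' fun r x => Algebra.commutes _ _
  have e : ∀ p q : B, ser Φ p q = ser (fun w => j (Φ w)) p q := fun p q => by
    ext n
    rw [coeff_ser, coeff_ser]
    exact sum_congr rfl fun u _ => by rw [Algebra.smul_def, Algebra.smul_def]; rfl
  simpa only [e] using h B T

open Desc TENS in
/-- the pentagon descends to subrings -/
theorem pent_desc {O R : Type} [CommRing O] [CommRing R] (j : O →+* R) (hj : Function.Injective j)
    {Φ : List Bool → O} (h : Pent fun w => j (Φ w)) : Pent Φ := by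
  intro B _ _ T'
  obtain ⟨U, _, T, hU⟩ := st_UNIV
  have := flat T hU
  let gO : U →+* O ⊗[ℤ] U := (Algebra.TensorProduct.includeRight : U →ₐ[ℤ] O ⊗[ℤ] U).toRingHom
  let gR : U →+* R ⊗[ℤ] U := (Algebra.TensorProduct.includeRight : U →ₐ[ℤ] R ⊗[ℤ] U).toRingHom
  let φ : O ⊗[ℤ] U →+* R ⊗[ℤ] U :=
    (Algebra.TensorProduct.map j.toIntAlgHom (AlgHom.id ℤ U)).toRingHom
  have hφ : Function.Injective φ :=
    Module.Flat.rTensor_preserves_injective_linearMap (M := U) j.toIntAlgHom.toLinearMap hj
  have hφs : ∀ (r : O) a, φ (r • a) = j r • φ a := fun r a => by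
    induction a using TensorProduct.induction_on with
    | zero => simp
    | add a b ha hb => rw [smul_add, map_add, map_add, smul_add, ha, hb]
    | tmul s u => simp [φ, TensorProduct.smul_tmul']
  have hφg : ∀ u, φ (gO u) = gR u := fun u => by simp [φ, gO, gR]
  have e := h (R ⊗[ℤ] U) (mapBr gR T)
  simp only [mapBr, ← map_add, ← hφg, ← map_ser' j φ hφs, ← map_mul] at e
  have e2 := PowerSeries.map_injective φ hφ e
  obtain ⟨g, g0, g1, gc, g2, g3⟩ := hU.lift B T'
  let ψ : O ⊗[ℤ] U →ₐ[O] B := Algebra.TensorProduct.lift (Algebra.ofId O B) g.toIntAlgHom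
    fun r u => Algebra.commutes _ _
  have hψ : ∀ u, ψ.toRingHom (gO u) = g u := fun u => by simp [ψ, gO]
  have e3 := congrArg (PowerSeries.map ψ.toRingHom) e2
  simp only [map_mul, map_ser' (RingHom.id O) ψ.toRingHom (fun r a => map_smul ψ r a), hψ, map_add,
    g0, g1, gc, g2, g3, RingHom.id_apply] at e3
  exact e3

end Pool.Agent.DR
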