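import Pool.Agent.Lib.DD.F_UP
import Pool.Agent.Lib.DD.F_MAIN
import Pool.Agent.Lib.DD.F_GRT
import Pool.Agent.Lib.DD.Fur64b

/-! Reduction of `θ(grt) = ds` to two statements modulo 2. -/

set_option autoImplicit false

noncomputable section

namespace Pool.Agent.DD.F

open Pool.Agent.DR Pool.Agent.DD.S39 Pool.Agent.DD.H56 Pool.Agent.DD.DS Pool.Agent.DD.F64
  TensorProduct

attribute [local instance 100] LieRing.ofAssociativeRing

/-- Racinet's double shuffle Lie algebra -/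
def ds : Set L := {ψ | ψ ∈ LieModule.lowerCentralSeries ℚ L L 2 ∧ Stuffle (iota ℚ Bool ψ)}

/-- the question -/
def Q1 : Prop := evL x (-y) '' grt = ds

/-- integral points of `θ⁻¹ ds` in degree `n` -/
structure DZ (n : ℕ) (ψ : FA ℤ) : Prop where
  lie : ∃ m : ℤ, m ≠ 0 ∧ IsLie (m • ψ)
  hom : ψ ∈ Hn ℤ n
  st : Stuffle (theta (up ψ))

def St_DSDROP : Prop := ∀ n ψ, 3 ≤ n → DZ n ψ → ψ ∈ J → ∃ φ : FA ℤ, ψ = (2 : ℤ) • φ

def St_DSSTAR : Prop := ∀ n ψ, 3 ≤ n → DZ n ψ → ∃ u ∈ Subring.closure {aa, bb 0}, ψ - u ∈ J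

namespace D64

section field
variable {K : Type} [Field K]

theorem d1_inj : Function.Injective fun n => List.replicate n false ++ [true] := fun m n h => by
  simpa using congrArg List.length h

theorem fin_supp (ψ : FA K) (a : ℕ → K) (u : ℕ → FN K) : Function.HasFiniteSupport fun n =>
    (a n * DS.cf ψ (List.replicate n false ++ [true])) • u n := by
  refine (((FreeAlgebra.basisFreeMonoid K Bool).repr ψ).hasFiniteSupport.preimage
    (FreeMonoid.ofList.injective.comp d1_inj).injOn).subset fun n hn h => hn ?_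
  simp only [DS.cf]
  rw [show (FreeAlgebra.basisFreeMonoid K Bool).repr ψ (FreeMonoid.ofList _) = 0 from h]
  simp

/-- `star` is linear -/
def starL : FA K →ₗ[K] FN K where
  toFun := DS.star
  map_add' f g := by
    simp only [DS.star, map_add]
    rw [add_add_add_comm, ← finsum_add_distrib (fin_supp f _ _) (fin_supp g _ _)]
    simp [DS.cf, mul_add, add_smul]
  map_smul' c f := by
    simp only [DS.star, map_smul, smul_add, RingHom.id_apply]
    rw [smul_finsum' c (fin_supp f _ _)]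
    simp [DS.cf, smul_smul, mul_left_comm]

/-- the solutions of the stuffle relations -/
def SS (K : Type) [Field K] : Submodule K (FA K) :=
  LinearMap.ker (((dst K).toLinearMap - (TensorProduct.mk K _ _).flip 1 -
    TensorProduct.mk K _ _ 1) ∘ₗ starL)

theorem mem_SS {ψ : FA K} : ψ ∈ SS K ↔ Stuffle ψ := by
  simp only [SS, Stuffle, LinearMap.mem_ker, LinearMap.comp_apply, LinearMap.sub_apply, sub_sub,
    sub_eq_zero]
  rfl

/-- scaling -/
def sc (c : K) : FN K →ₐ[K] FN K := FreeAlgebra.lift K fun k => c ^ (k + 1) • FreeAlgebra.ι K k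

theorem sc_yy (c : K) (n : ℕ) : sc c (yy K n) = c ^ n • yy K n := by cases n <;> simp [sc, yy]

theorem sc_yw (c : K) (k : ℕ) (w : List Bool) :
    sc c (yw K k w) = c ^ (k + w.length) • yw K k w := by
  induction w generalizing k with
  | nil => by_cases h : k = 0 <;> simp [yw, h]
  | cons s w ih => cases s <;> simp [yw, ih, sc_yy, smul_smul, ← pow_add, add_comm, add_left_comm]

theorem dst_sc (c : K) (p : FN K) :
    dst K (sc c p) = Algebra.TensorProduct.map (sc c) (sc c) (dst K p) := by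
  refine AlgHom.congr_fun (FreeAlgebra.hom_ext (f := (dst K).comp (sc c))
    (g := (Algebra.TensorProduct.map (sc c) (sc c)).comp (dst K)) (funext fun k => ?_)) p
  have := sc_yy c (k + 1)
  rw [yy] at this
  simp only [Function.comp_apply, AlgHom.comp_apply, this, map_smul, dst, FreeAlgebra.lift_ι_apply,
    map_sum, Algebra.TensorProduct.map_tmul, sc_yy, Finset.smul_sum]
  refine Finset.sum_congr rfl fun p hp => ?_
  rw [smul_tmul_smul, ← pow_add, Finset.mem_antidiagonal.1 hp]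

theorem star_sc (c : K) (ψ : FA K) : DS.star (S39.ev (c • lx K) (c • ly K) ψ) = sc c (DS.star ψ) := by
  refine LinearMap.congr_fun (lext (F := starL ∘ₗ (S39.ev (c • lx K) (c • ly K)).toLinearMap)
    (G := (sc c).toLinearMap ∘ₗ starL) fun l => ?_) ψ
  have e : S39.ev (c • lx K) (c • ly K) (l.map (FreeAlgebra.ι K)).prod =
      c ^ l.length • (l.map (FreeAlgebra.ι K)).prod := by
    induction l with
    | nil => simp
    | cons s l ih =>
      rw [List.map_cons, List.prod_cons, map_mul, ih]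
      cases s <;> simp [S39.ev, lx, ly, smul_smul, pow_succ]
  simp only [LinearMap.comp_apply, AlgHom.toLinearMap_apply, e, map_smul]
  change _ • DS.star _ = sc c (DS.star _)
  rw [DS.star, map_add, piY_word, sc_yw, zero_add, smul_add, smul_finsum' _ (fin_supp _ _ _),
    map_finsum _ (fin_supp _ _ _)]
  refine congrArg _ (finsum_congr fun n => ?_)
  rw [map_smul, map_pow, sc_yy, ← bas, DS.cf, Module.Basis.repr_self]
  by_cases h : l = List.replicate n false ++ [true]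
  · simp [h, smul_pow, smul_smul, mul_comm]
  · rw [Finsupp.single_eq_of_ne' fun e => h (FreeMonoid.ofList.injective e)]
    simp

theorem st_sc (c : K) {ψ : FA K} (h : Stuffle ψ) : Stuffle (S39.ev (c • lx K) (c • ly K) ψ) := by
  rw [Stuffle, star_sc, dst_sc, h]
  simp

end field

theorem theta_eq {K : Type} [Field K] (f : FA K) : theta f = S39.ev (lx K) (-ly K) f := rfl

theorem theta_theta (f : FA ℚ) : theta (theta f) = f := by
  rw [theta_eq, theta_eq, S39.map_ev]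
  simp [S39.ev_self]

theorem comp (P : Submodule ℚ (FA ℚ)) (h : ∀ f ∈ P, S39.ev ((2 : ℚ) • lx ℚ) ((2 : ℚ) • ly ℚ) f ∈ P)
    {s : Finset ℕ} {v : ℕ → FA ℚ} (h1 : ∀ n, v n ∈ Hn ℚ n) (hf : ∑ n ∈ s, v n ∈ P) {n : ℕ}
    (hn : n ∈ s) : v n ∈ P :=
  (Submodule.Quotient.mk_eq_zero _).1 ((iSupIndep_iff_finsetSum_eq_zero_imp_eq_zero _).1
    ((Module.End.eigenspaces_iSupIndep
      (P.mapQ P (S39.ev ((2 : ℚ) • lx ℚ) ((2 : ℚ) • ly ℚ)).toLinearMap h)).comp
    (pow_right_injective₀ (a := (2 : ℚ)) two_pos (by norm_num))) s (fun n => P.mkQ (v n))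
    (fun n _ => by simp [ev_smul_Hn (h1 n)])
    (by rw [← map_sum]; exact (Submodule.Quotient.mk_eq_zero _).2 hf) n hn)

theorem lie_x {K : Type} [CommRing K] : IsLie (lx K) := LieSubalgebra.subset_lieSpan (by simp)
theorem lie_y {K : Type} [CommRing K] : IsLie (ly K) := LieSubalgebra.subset_lieSpan (by simp)

theorem lie_down {f : FA ℚ} (h : IsLie f) :
    ∃ m : ℤ, m ≠ 0 ∧ ∃ φ, IsLie φ ∧ up φ = m • f := by
  refine h.ind (P := fun f => ∃ m : ℤ, m ≠ 0 ∧ ∃ φ, IsLie φ ∧ up φ = m • f)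
    ⟨1, one_ne_zero, _, lie_x, by simp [up]⟩ ⟨1, one_ne_zero, _, lie_y, by simp [up]⟩
    ⟨1, one_ne_zero, 0, LieSubalgebra.zero_mem _, by simp⟩ ?_ ?_ ?_
  · rintro f g - - ⟨m, hm, φ, h1, h2⟩ ⟨n, hn, χ, h3, h4⟩
    exact ⟨m * n, mul_ne_zero hm hn, n • φ + m • χ, LieSubalgebra.add_mem _
      (LieSubalgebra.smul_mem _ n h1) (LieSubalgebra.smul_mem _ m h3), by
        rw [map_add, map_zsmul, map_zsmul, h2, h4]; module⟩
  · rintro r f - ⟨m, hm, φ, h1, h2⟩
    refine ⟨m * r.den, mul_ne_zero hm (by simp), r.num • φ, LieSubalgebra.smul_mem _ _ h1, ?_⟩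
    rw [map_zsmul, h2, smul_smul, ← Int.cast_smul_eq_zsmul ℚ, ← Int.cast_smul_eq_zsmul ℚ, smul_smul]
    push_cast
    rw [mul_assoc, Rat.den_mul_eq_num, mul_comm]
  · rintro f g - - ⟨m, hm, φ, h1, h2⟩ ⟨n, hn, χ, h3, h4⟩
    exact ⟨m * n, mul_ne_zero hm hn, φ * χ - χ * φ, LieSubalgebra.lie_mem _ h1 h3, by
      simp only [map_sub, map_mul, h2, h4, smul_mul_smul_comm]; module⟩

theorem iota_th (ψ : L) : iota ℚ Bool (evL x (-y) ψ) = theta (iota ℚ Bool ψ) := by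
  rw [GRT.iota_evL, map_neg, H56.iota_x, H56.iota_y, theta_eq]

theorem th_lcs {ψ : L} (h : ψ ∈ LieModule.lowerCentralSeries ℚ L L 2) :
    evL x (-y) ψ ∈ LieModule.lowerCentralSeries ℚ L L 2 :=
  LieIdeal.map_lowerCentralSeries_le 2 (LieIdeal.mem_map h)

end D64

open D64

/-- Furusho's inclusion -/
theorem grt_le_ds : evL x (-y) '' grt ⊆ ds := by
  rintro _ ⟨ψ, h, rfl⟩
  obtain ⟨h1, -, -, h2⟩ := (GRT.grt_iff ψ).1 h
  exact ⟨th_lcs h1, iota_th ψ ▸ stuffle_theta ((H56.isLie_iff_range _).2 ⟨ψ, rfl⟩) h2⟩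

/-- Lie solutions of degree `n` of the stuffle relations, up to `θ` -/
def PS (n : ℕ) : Submodule ℚ (FA ℚ) :=
  ((LieSubalgebra.lieSpan ℚ (FA ℚ) {lx ℚ, ly ℚ}).toSubmodule ⊓ Hn ℚ n) ⊓
    (SS ℚ).comap theta.toLinearMap

theorem mem_PS {n : ℕ} {f : FA ℚ} : f ∈ PS n ↔ (IsLie f ∧ f ∈ Hn ℚ n) ∧ Stuffle (theta f) :=
  and_congr_right' mem_SS

theorem dz_of (hL : St_LAT) {n : ℕ} {ψ : FA ℤ} (hψ : up ψ ∈ PS n) : DZ n ψ := by
  obtain ⟨⟨h1, h2⟩, h3⟩ := mem_PS.1 hψ
  obtain ⟨m, hm, χ, a1, a2⟩ := lie_down h1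
  have e : χ = m • ψ := hL.1 (by rw [a2, map_zsmul])
  refine ⟨⟨m, hm, e ▸ a1⟩, CO.mem_iff.2 fun w hw => ?_, h3⟩
  have := CO.co_of_mem h2 hw
  rw [hL.2.2.2.2.1] at this
  exact_mod_cast this

theorem st_cmp {s : Finset ℕ} {v : ℕ → FA ℚ} (h1 : ∀ n, v n ∈ Hn ℚ n)
    (hf : Stuffle (theta (∑ n ∈ s, v n))) {n : ℕ} (hn : n ∈ s) : Stuffle (theta (v n)) := by
  have e : ∀ f, f ∈ (SS ℚ).comap theta.toLinearMap ↔ Stuffle (theta f) := fun f => by
    rw [Submodule.mem_comap, mem_SS, AlgHom.toLinearMap_apply]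
  refine (e _).1 (comp _ (fun f hf => (e _).2 ?_) h1 ((e _).2 hf) hn)
  have := st_sc 2 ((e _).1 hf)
  simp only [theta_eq, S39.map_ev] at this ⊢
  simpa using this

theorem q1_of_PS (h0 : ∀ n, 3 ≤ n → PS n = GS n) : Q1 := by
  refine grt_le_ds.antisymm fun φ h => ⟨evL x (-y) φ, (st_GRT _).2 ?_,
    iota_injective ℚ Bool (by rw [iota_th, iota_th, theta_theta])⟩
  obtain ⟨N, hN⟩ := GRT.eq_sum (th_lcs h.1)
  have e := hN N le_rfl
  have e2 : Stuffle (theta (iota ℚ Bool (evL x (-y) φ))) := by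
    rw [iota_th, theta_theta]
    exact h.2
  rw [e] at e2 ⊢
  refine Submodule.sum_mem _ fun n hn => Submodule.subset_span ⟨n, (Finset.mem_Ico.1 hn).1, ?_⟩
  have h3 := (Finset.mem_Ico.1 hn).1
  obtain ⟨b, -, hb⟩ := GRT.cmp_iota h3 (evL x (-y) φ)
  have := mem_PS.2 ⟨⟨(H56.isLie_iff_range _).2 ⟨b, hb⟩, GRT.cmp_mem n _⟩,
    st_cmp (fun n => GRT.cmp_mem n _) e2 hn⟩
  rwa [h0 n h3] at this

theorem q1_of (hL : St_LAT) (hC : St_CL) (hE : St_EX) (hD : St_DEP) (hR : St_DROP) (hS : St_STAR)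
    (hG : St_GAM) (hP : St_PHI) (hM : St_MOD) (h1 : St_DSDROP) (h2 : St_DSSTAR) : Q1 :=
  q1_of_PS fun n h3 => upper hL hC hE hD hR hS hG hP hM h3 _
    (fun _ hf => mem_PS.2 ⟨⟨hf.lie, hf.hom⟩, stuffle_theta hf.lie hf.pent⟩)
    (fun _ hψ => ⟨(dz_of hL hψ).hom, (dz_of hL hψ).lie⟩) (fun ψ hψ => h1 n ψ h3 (dz_of hL hψ))
    fun ψ hψ => h2 n ψ h3 (dz_of hL hψ)

end Pool.Agent.DD.F
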