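import Pool.Agent.Lib.DD.F_FU
import Pool.Agent.Lib.DD.F_CO

set_option autoImplicit false

noncomputable section

namespace Pool.Agent.DD.F

open Pool.Agent.DR Pool.Agent.DD.S39

attribute [local instance 100] LieRing.ofAssociativeRing

universe v

namespace CL

variable {K : Type v} [CommRing K]

theorem Dp_eq (ψ f : FA K) : S39.Dp ψ f = D ψ f :=
  D_unique ψ (S39.Dp ψ) (by simp) (by simp [Ring.lie_def])
    (fun f g => by rw [S39.Dp_mul, add_comm]) f

theorem ih_eq (f g : FA K) : F.ih f g = S39.ih f g := by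
  rw [F.ih, S39.ih, Dp_eq, Dp_eq, Ring.lie_def]

theorem ih_mem {m n : ℕ} {f g : FA K} (hf : f ∈ Hn K m) (hg : g ∈ Hn K n) :
    F.ih f g ∈ Hn K (m + n) :=
  sub_mem (add_mem (sub_mem (CO.mul_mem hf hg) (add_comm n m ▸ CO.mul_mem hg hf))
    (CO.D_mem hf hg)) (add_comm n m ▸ CO.D_mem hg hf)

end CL

theorem st_CL : St_CL := fun _ _ _ _ _ f g hm hn hf hg =>
  have h : S39.Gr (F.ih f g) := CL.ih_eq f g ▸
    (H56.gr_of_lpent hm hf.hom hf.pent).ih (H56.gr_of_lpent hn hg.hom hg.pent)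
  ⟨h.lie, CL.ih_mem hf.hom hg.hom, h.pent⟩

end Pool.Agent.DD.F
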