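import Pool.Agent.Lib.DD.F_CO

set_option autoImplicit false

noncomputable section

namespace Pool.Agent.DD.F

open Pool.Agent.DR Pool.Agent.DD.S39 Polynomial

universe v

namespace DEP

variable {K : Type v} [CommRing K]

/-- the representation that sees depth one -/
def tau : FA K →ₐ[K] Matrix (Fin 2) (Fin 2) K[X] := ev !![X, 0; 0, 0] !![0, 1; 0, 0]

theorem tau_sh (f : FA K) : tau f 0 0 = ev (X : K[X]) 0 f ∧ tau f 1 0 = 0 ∧
    tau f 1 1 = ev (0 : K[X]) 0 f := by
  induction f using ind with
  | h0 r => simp [Matrix.algebraMap_matrix_apply]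
  | hx => simp [tau]
  | hy => simp [tau]
  | hm f g hf hg => simp [Matrix.mul_apply, hf, hg]
  | ha f g hf hg => simp [hf, hg]

theorem ev_zero {f : FA K} (h : ev (lx K) 0 f = 0) (a : K[X]) : ev a 0 f = 0 := by
  have e := map_ev (ev a (0 : K[X]) : FA K →ₐ[K] K[X]) (lx K) 0 f
  rw [h, map_zero, ev_x] at e
  exact e.symm

theorem tau_mul {f g : FA K} (hf : ev (lx K) 0 f = 0) (hg : ev (lx K) 0 g = 0) :
    tau (f * g) = 0 := by
  ext i j : 1
  fin_cases i <;> fin_cases j <;>
    simp [Matrix.mul_apply, tau_sh, ev_zero hf, ev_zero hg]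

theorem tau_D {f : FA K} (hf : ev (lx K) 0 f = 0) (g : FA K) : tau (D f g) = 0 := by
  induction g using ind with
  | h0 r => simp
  | hx => simp
  | hy => rw [D_y, map_sub, tau_mul (ev_y _ _) hf, tau_mul hf (ev_y _ _), sub_zero]
  | hm g h h1 h2 => rw [D_mul, map_add, map_mul, map_mul, h1, h2, zero_mul, mul_zero, add_zero]
  | ha g h h1 h2 => rw [map_add, map_add, h1, h2, add_zero]

theorem tau_wd (u : List Bool) (m : ℕ) : (tau (wd (lx K) (ly K) u) 0 1).coeff m =
    if u = List.replicate m false ++ [true] then 1 else 0 := by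
  induction u generalizing m with
  | nil => simp
  | cons s u ih =>
    cases s
    · have e : tau (wd (lx K) (ly K) (false :: u)) 0 1 = X * tau (wd (lx K) (ly K) u) 0 1 := by
        rw [wd_false, map_mul]
        simp [Matrix.mul_apply, tau]
      rw [e]
      cases m with
      | zero => simp
      | succ m => simp [coeff_X_mul, ih, List.replicate_succ]
    · have e : tau (wd (lx K) (ly K) (true :: u)) 0 1 = ev (0 : K[X]) 0 (wd (lx K) (ly K) u) := by
        rw [wd_true, map_mul, ← (tau_sh _).2.2]
        simp [Matrix.mul_apply, tau]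
      rw [e, CO.ev_wd]
      cases u with
      | nil => cases m <;> simp [coeff_one, List.replicate_succ]
      | cons t u => cases m <;> cases t <;> simp [List.replicate_succ]

theorem co_d1 (n : ℕ) (f : FA K) : co (d1 n) f = (tau f 0 1).coeff (n - 1) := by
  have e : co (K := K) (d1 n) = (lcoeff K (n - 1)).comp
      ((Matrix.entryLinearMap K _ 0 1).comp tau.toLinearMap) :=
    (FreeAlgebra.basisFreeMonoid K Bool).ext fun u => by
      rw [← FreeMonoid.ofList_toList u, CO.basis_eq, CO.co_wd]
      exact (tau_wd _ _).symm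
  rw [e]
  rfl

end DEP

open DEP in
theorem st_DEP : St_DEP := by
  intro K _ n f g hf hg
  rw [co_d1, ih, map_sub, map_add, map_sub, tau_mul hf hg, tau_mul hg hf, tau_D hf, tau_D hg]
  simp

end Pool.Agent.DD.F
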