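import Pool.Agent.Lib.DD.Blue

set_option autoImplicit false

noncomputable section

namespace Pool.Agent.DD.F

open Pool.Agent.DR Pool.Agent.DD.S39 Finset

theorem star_gen {B : Type} [Ring B] (q : FA ℤ →+* B) (h2 : (2 : B) = 0)
    (hy : q (ly ℤ) * q (ly ℤ) = 0) (hCO : St_CO) (n : ℕ) (ψ : FA ℤ) (hn : 1 ≤ n) (h : GZ n ψ) :
    ∃ u ∈ Subring.closure {aa, bb 0}, q u = q ψ := by
  obtain ⟨-, c2, c3, c4, -⟩ := hCO ℤ
  let I : Ideal ℤ := Ideal.span {2}
  let j : ℤ ⧸ I →+* B := Ideal.Quotient.lift I (Int.castRingHom B) fun a ha => by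
    obtain ⟨c, rfl⟩ := Ideal.mem_span_singleton'.1 ha
    simp [h2]
  let _ : Algebra (ℤ ⧸ I) B := j.toAlgebra' fun r z => by
    obtain ⟨m, rfl⟩ := Ideal.Quotient.mk_surjective r
    exact Int.cast_comm m z
  have hj : ∀ m : ℤ, algebraMap (ℤ ⧸ I) B (Ideal.Quotient.mk I m) = m := fun _ => rfl
  have p : Pent (lin fun w => co w ψ) := ((c4 n ψ h.hom).1 h.pent).pent
  have p2 : Pent (lin fun w => Ideal.Quotient.mk I (co w ψ)) := lin_map (Ideal.Quotient.mk I) p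
  have k2 : (2 : ℤ ⧸ I) = 0 := by
    rw [← map_ofNat (Ideal.Quotient.mk I), Ideal.Quotient.eq_zero_iff_mem]
    exact Ideal.mem_span_singleton_self _
  have k0 : co [] ψ = 0 := (c2 n ψ).1 h.hom [] (by simp; omega)
  have s := star_lin k2 (ψ := fun w => Ideal.Quotient.mk I (co w ψ)) (by simp [k0]) p2
    (x := q (lx ℤ)) hy n
  have e : ∑ u ∈ W n, Ideal.Quotient.mk I (co u ψ) • wd (q (lx ℤ)) (q (ly ℤ)) u = q ψ := by
    conv_rhs => rw [c3 n ψ h.hom, map_sum]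
    refine sum_congr rfl fun u _ => ?_
    rw [Algebra.smul_def, hj, Algebra.smul_def, map_mul, map_wd, eq_intCast, map_intCast]
  rw [e] at s
  have key : ∀ z ∈ Algebra.adjoin (ℤ ⧸ I) {q (ly ℤ) * q (lx ℤ) - q (lx ℤ) * q (ly ℤ),
      (q (ly ℤ) * q (lx ℤ) - q (lx ℤ) * q (ly ℤ)) * q (lx ℤ) -
        q (lx ℤ) * (q (ly ℤ) * q (lx ℤ) - q (lx ℤ) * q (ly ℤ))},
      ∃ u ∈ Subring.closure {aa, bb 0}, q u = z := fun z hz => by
    induction hz using Algebra.adjoin_induction with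
    | mem g hg =>
      rcases hg with rfl | rfl
      · exact ⟨aa, Subring.subset_closure (by simp), by simp [aa]⟩
      · exact ⟨bb 0, Subring.subset_closure (by simp), by simp [bb, aa]⟩
    | algebraMap r =>
      obtain ⟨m, rfl⟩ := Ideal.Quotient.mk_surjective r
      exact ⟨m, intCast_mem _ m, by rw [hj, map_intCast]⟩
    | add a b _ _ ha hb =>
      obtain ⟨u, hu, rfl⟩ := ha
      obtain ⟨v, hv, rfl⟩ := hb
      exact ⟨u + v, add_mem hu hv, map_add q u v⟩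
    | mul a b _ _ ha hb =>
      obtain ⟨u, hu, rfl⟩ := ha
      obtain ⟨v, hv, rfl⟩ := hb
      exact ⟨u * v, mul_mem hu hv, map_mul q u v⟩
  exact key _ s

theorem st_STAR (hCO : St_CO) : St_STAR := by
  intro n ψ hn h
  have hq : ∀ f, J.ringCon.mk' f = 0 ↔ f ∈ J := fun f => by
    rw [← map_zero J.ringCon.mk']
    exact (J.ringCon.eq).trans (J.mem_iff f).symm
  obtain ⟨u, hu, e⟩ := star_gen J.ringCon.mk'
    (by rw [← map_ofNat J.ringCon.mk', hq]; exact TwoSidedIdeal.subset_span (by simp))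
    (by rw [← map_mul, hq]; exact TwoSidedIdeal.subset_span (by simp)) hCO n ψ hn h
  exact ⟨u, hu, (hq _).1 (by rw [map_sub, e, sub_self])⟩

end Pool.Agent.DD.F
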