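import Pool.Agent.Lib.DD.F_GAM
import Pool.Agent.Lib.DD.F_FU

/-! The Lie polynomials form a pure subgroup of the free ring. -/

set_option autoImplicit false

noncomputable section

namespace Pool.Agent.DD.F.P64

open Pool.Agent.DR Pool.Agent.DD.S39 Pool.Agent.DD.F.GAM FreeAlgebra

attribute [local instance 100] LieRing.ofAssociativeRing

/-- Lie polynomials -/
def LS (K S : Type) [CommRing K] : LieSubalgebra K (FreeAlgebra K S) :=
  LieSubalgebra.lieSpan K _ (Set.range (ι K))

variable {K : Type} [CommRing K] {S : Type}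

theorem ι_LS (s : S) : ι K s ∈ LS K S := LieSubalgebra.subset_lieSpan ⟨s, rfl⟩

theorem LS_ind {p : FreeAlgebra K S → Prop} (hι : ∀ s, p (ι K s)) (h0 : p 0)
    (ha : ∀ u v, p u → p v → p (u + v)) (hs : ∀ (c : K) v, p v → p (c • v))
    (hl : ∀ u v, u ∈ LS K S → v ∈ LS K S → p u → p v → p (u * v - v * u)) {v : FreeAlgebra K S}
    (hv : v ∈ LS K S) : p v := by
  induction hv using LieSubalgebra.lieSpan_induction with
  | mem x hx => obtain ⟨s, rfl⟩ := hx; exact hι s
  | zero => exact h0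
  | add x y _ _ hx hy => exact ha _ _ hx hy
  | smul c x _ hx => exact hs c x hx
  | lie x y hx hy h1 h2 => exact hl _ _ hx hy h1 h2

theorem LS_hom {B : Type} [Ring B] [Algebra K B] (P : LieSubalgebra K B) (f : FreeAlgebra K S →ₐ[K] B)
    (h : ∀ s, f (ι K s) ∈ P) {v : FreeAlgebra K S} (hv : v ∈ LS K S) : f v ∈ P := by
  refine LS_ind (p := fun v => f v ∈ P) h (by simp) ?_ ?_ ?_ hv
  · intro u v hu hv; rw [map_add]; exact add_mem hu hv
  · intro c v hv; rw [map_smul]; exact P.smul_mem c hv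
  · intro u v _ _ hu hv
    rw [map_sub, map_mul, map_mul]; exact P.lie_mem hu hv

theorem der_LS {f : S → FreeAlgebra K S} (h : ∀ s, f s ∈ LS K S) {v : FreeAlgebra K S}
    (hv : v ∈ LS K S) : der f v ∈ LS K S := by
  refine LS_ind (p := fun v => der f v ∈ LS K S) (fun s => by simpa using h s) (by simp) ?_ ?_ ?_ hv
  · intro u v hu hv; rw [map_add]; exact add_mem hu hv
  · intro c v hv; rw [map_smul]; exact (LS K S).smul_mem c hv
  · intro u v h1 h2 hu hv
    have e : der f (u * v - v * u) = ⁅der f u, v⁆ + ⁅u, der f v⁆ := by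
      simp only [Ring.lie_def, map_sub, der_mul]; abel
    rw [e]
    exact add_mem ((LS K S).lie_mem hu h2) ((LS K S).lie_mem h1 hv)

variable (K) (a : S)

/-- the shift of the new letters -/
def DN : Module.End K (FreeAlgebra K (ℕ × {s // s ≠ a})) := der fun p => ι K (p.1 + 1, p.2)

/-- iterated brackets with `a` -/
def E (s : S) : ℕ → FreeAlgebra K S
  | 0 => ι K s
  | i + 1 => ι K a * E s i - E s i * ι K a

/-- the embedding -/
def upp : FreeAlgebra K (ℕ × {s // s ≠ a}) →ₐ[K] FreeAlgebra K S := lift K fun p => E K a p.2 p.1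

open Classical in
/-- the action -/
def rho : FreeAlgebra K S →ₐ[K] Module.End K (FreeAlgebra K (ℕ × {s // s ≠ a})) :=
  lift K fun s => if h : s = a then DN K a else LinearMap.mulLeft K (ι K (0, ⟨s, h⟩))

/-- the retraction -/
def r : FreeAlgebra K S →ₗ[K] FreeAlgebra K (ℕ × {s // s ≠ a}) :=
  (LinearMap.applyₗ 1).comp (rho K a).toLinearMap

variable {K a}

theorem r_apply (v : FreeAlgebra K S) : r K a v = rho K a v 1 := rfl

theorem rho_a : rho K a (ι K a) = DN K a := by simp [rho]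

theorem rho_E (s : {s // s ≠ a}) (i : ℕ) (m : FreeAlgebra K (ℕ × {s // s ≠ a})) :
    rho K a (E K a s i) m = ι K (i, s) * m := by
  induction i generalizing m with
  | zero => simp [E, rho, s.2]
  | succ i ih => simp [E, rho_a, ih, DN, der_mul]

theorem rho_upp (w m : FreeAlgebra K (ℕ × {s // s ≠ a})) : rho K a (upp K a w) m = w * m := by
  induction w using FreeAlgebra.induction generalizing m with
  | grade0 c => simp [Algebra.smul_def]
  | grade1 s => simp [upp, rho_E]
  | mul a b ha hb => simp [ha, hb, mul_assoc]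
  | add a b ha hb => simp [ha, hb, add_mul]

theorem upp_DN (w : FreeAlgebra K (ℕ × {s // s ≠ a})) :
    upp K a (DN K a w) = ι K a * upp K a w - upp K a w * ι K a := by
  induction w using FreeAlgebra.induction with
  | grade0 c => simp [DN, Algebra.commutes]
  | grade1 s => simp [upp, DN, E]
  | mul a b ha hb =>
    rw [DN, der_mul, map_add, map_mul, map_mul, map_mul, ← DN, ha, hb]; noncomm_ring
  | add a b ha hb => simp only [map_add, ha, hb]; noncomm_ring

theorem elim {v : FreeAlgebra K S} (hv : v ∈ LS K S) :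
    r K a v ∈ LS K _ ∧ ∃ c : K, v = c • ι K a + upp K a (r K a v) := by
  have hD : ∀ {w}, w ∈ LS K _ → DN K a w ∈ LS K _ := der_LS fun _ => ι_LS _
  have h : ∃ (c : K) (w : _), w ∈ LS K _ ∧ v = c • ι K a + upp K a w := by
    refine LS_ind (p := fun v => ∃ (c : K) (w : _), w ∈ LS K _ ∧ v = c • ι K a + upp K a w)
      (fun s => ?_) ⟨0, 0, zero_mem _, by simp⟩ ?_ ?_ ?_ hv
    · by_cases h : s = a
      · exact ⟨1, 0, zero_mem _, by simp [h]⟩
      · exact ⟨0, ι K (0, ⟨s, h⟩), ι_LS _, by simp [upp, E]⟩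
    · rintro f g ⟨c, w, hw, rfl⟩ ⟨c', w', hw', rfl⟩
      exact ⟨c + c', w + w', add_mem hw hw', by rw [map_add, add_smul]; abel⟩
    · rintro b f ⟨c, w, hw, rfl⟩
      exact ⟨b * c, b • w, (LS K _).smul_mem b hw, by rw [map_smul, smul_add, mul_smul]⟩
    · rintro f g _ _ ⟨c, w, hw, rfl⟩ ⟨c', w', hw', rfl⟩
      refine ⟨0, c • DN K a w' - c' • DN K a w + ⁅w, w'⁆, add_mem (sub_mem
        ((LS K _).smul_mem c (hD hw')) ((LS K _).smul_mem c' (hD hw))) ((LS K _).lie_mem hw hw'), ?_⟩
      simp only [Ring.lie_def, map_add, map_sub, map_smul, map_mul, upp_DN, mul_add, add_mul,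
        smul_mul_assoc, mul_smul_comm, smul_sub, smul_add, zero_smul, smul_comm c c']
      abel
  obtain ⟨c, w, hw, rfl⟩ := h
  have e : r K a (c • ι K a + upp K a w) = w := by
    rw [map_add, map_smul, r_apply, r_apply, rho_upp, rho_a]; simp [DN]
  rw [e]; exact ⟨hw, c, rfl⟩

theorem r_H {w : S → ℕ} {n : ℕ} {v : FreeAlgebra K S} (hv : v ∈ H K w n) :
    r K a v ∈ H K (fun p => w p.2 + p.1 * w a) n := by
  refine H_map _ (r K a) (fun l hl => ?_) hv
  subst hl
  clear hv
  induction l with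
  | nil => simpa [r_apply] using H_one _
  | cons s l ih =>
    rw [wrd_cons, r_apply, map_mul, Module.End.mul_apply, ← r_apply, List.map_cons, List.sum_cons]
    by_cases h : s = a
    · rw [h, rho_a, add_comm]
      refine der_H (k := w a) (fun p : ℕ × {s // s ≠ a} => ι K (p.1 + 1, p.2)) (fun p => ?_) ih
      have := H_ι (K := K) (fun p : ℕ × {s // s ≠ a} => w p.2 + p.1 * w a) (p.1 + 1, p.2)
      simpa [add_mul, add_assoc] using this
    · simpa [rho, h] using
        H_mul (H_ι (fun p : ℕ × {s // s ≠ a} => w p.2 + p.1 * w a) (0, ⟨s, h⟩)) ih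

theorem upp_H {w : S → ℕ} {n : ℕ} {v : FreeAlgebra K (ℕ × {s // s ≠ a})}
    (hv : v ∈ H K (fun p => w p.2 + p.1 * w a) n) : upp K a v ∈ H K w n := by
  refine H_hom _ (fun ⟨i, s⟩ => ?_) hv
  rw [upp, lift_ι_apply]
  induction i with
  | zero => simpa [E] using H_ι (K := K) w s
  | succ i ih =>
    have := H_br (H_ι (K := K) w a) ih
    rwa [show w a + (w s + i * w a) = w s + (i + 1) * w a by ring] at this

theorem upp_LS {v : FreeAlgebra K (ℕ × {s // s ≠ a})} (hv : v ∈ LS K _) : upp K a v ∈ LS K S := by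
  refine LS_hom _ _ (fun ⟨i, s⟩ => ?_) hv
  rw [upp, lift_ι_apply]
  induction i with
  | zero => exact ι_LS _
  | succ i ih => exact (LS K S).lie_mem (ι_LS a) ih

theorem elim' {w : S → ℕ} {n : ℕ} {v : FreeAlgebra K S} (hv : v ∈ LS K S) (h : v ∈ H K w n)
    (hn : n ≠ w a) : v = upp K a (r K a v) := by
  obtain ⟨c, hc⟩ := (elim (a := a) hv).2
  have h1 : c • ι K a ∈ H K w n := by
    rw [eq_sub_of_add_eq hc.symm]; exact sub_mem h (upp_H (r_H h))
  have h3 := (pr_H (w a) (Submodule.smul_mem _ c (H_ι w a))).symm.trans (pr_H (w a) h1)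
  rw [if_pos rfl, if_neg hn] at h3
  rwa [h3, zero_add] at hc

theorem pure_aux {N : ℕ} {m : ℤ} (hm : m ≠ 0) (j d : ℕ) (hd : 0 < d) (hj : d + j = N) (S : Type)
    (w : S → ℕ) (hf : {s | w s ≤ N}.Finite) (hw : ∀ s, d ≤ w s) (v : FreeAlgebra ℤ S)
    (hv : v ∈ H ℤ w N) (h : m • v ∈ LS ℤ S) : v ∈ LS ℤ S := by
  classical
  induction j generalizing d S with
  | zero =>
    refine H_map (LS ℤ S).toSubmodule LinearMap.id (fun l hl => ?_) hv
    match l with
    | [] => simp at hl; omega
    | [s] => simpa using ι_LS s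
    | s :: t :: l =>
      have := hw s
      have := hw t
      simp at hl; omega
  | succ j ih =>
    obtain ⟨F, hF⟩ : ∃ F : Finset S, ∀ s, w s = d → s ∈ F :=
      ⟨hf.toFinset, fun s hs => by simp; omega⟩
    induction hk : F.card using Nat.strong_induction_on generalizing S with
    | _ k ik =>
    by_cases ha : ∃ a, w a = d
    · obtain ⟨a, ha⟩ := ha
      have e := elim' (a := a) h (Submodule.smul_mem _ m hv) (by omega)
      rw [map_smul, map_smul] at e
      have h2 := (elim (a := a) h).1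
      rw [map_smul] at h2
      rw [smul_right_injective _ hm e]
      refine upp_LS (ik _ ?_ (ℕ × {s // s ≠ a}) (fun p => w p.2 + p.1 * w a) ?_ (fun p => ?_) _
        (r_H hv) h2 (((F.erase a).subtype (· ≠ a)).image (Prod.mk 0)) (fun p hp => ?_) rfl)
      · refine Finset.card_image_le.trans_lt ?_
        rw [Finset.card_subtype, ← hk]
        exact (Finset.card_filter_le _ _).trans_lt (Finset.card_erase_lt_of_mem (hF a ha))
      · refine ((Set.finite_Iic N).prod (hf.preimage Subtype.val_injective.injOn)).subset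
          fun p (hp : w p.2 + p.1 * w a ≤ N) => ⟨?_, (by omega : w p.2 ≤ N)⟩
        exact (Nat.le_mul_of_pos_right _ (ha ▸ hd)).trans (by omega : p.1 * w a ≤ N)
      · exact (hw _).trans (Nat.le_add_right _ _)
      · have := hw p.2
        have h0 : p.1 * w a = 0 := by omega
        have h1 : p.1 = 0 := (Nat.mul_eq_zero.1 h0).resolve_right (by omega)
        exact Finset.mem_image.2 ⟨p.2, Finset.mem_subtype.2
          (Finset.mem_erase.2 ⟨p.2.2, hF _ (by omega)⟩), Prod.ext h1.symm rfl⟩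
    · exact ih (d + 1) d.succ_pos (by omega) S w hf
        (fun s => lt_of_le_of_ne (hw s) fun e => ha ⟨s, e.symm⟩) v hv h

/-- purity -/
theorem pure {n : ℕ} (hn : 1 ≤ n) {ψ : FA ℤ} (hh : ψ ∈ Hn ℤ n) {m : ℤ} (hm : m ≠ 0)
    (h : IsLie (m • ψ)) : IsLie ψ := by
  rw [IsLie, ← H56.range_ι] at h ⊢
  refine pure_aux hm (n - 1) 1 one_pos (by omega : 1 + (n - 1) = n) Bool (fun _ => 1)
    (Set.toFinite _) (fun _ => le_rfl) ψ (Submodule.span_mono ?_ hh) h
  rintro _ ⟨u, hu, rfl⟩
  exact ⟨u, by simpa using hu, (H56.wd_eq u).symm⟩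

end Pool.Agent.DD.F.P64
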