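import Pool.Agent.Lib.DD.DsMain64
import Pool.Agent.Lib.DD.Pur64
import Pool.Agent.Lib.DD.F_CL
import Pool.Agent.Lib.DD.F_DEP
import Pool.Agent.Lib.DD.F_DROP
import Pool.Agent.Lib.DD.F_EX
import Pool.Agent.Lib.DD.F_LAT
import Pool.Agent.Lib.DD.F_MOD
import Pool.Agent.Lib.DD.F_PHI
import Pool.Agent.Lib.DD.F_STAR

/-! The two statements modulo 2 as statements over the field with two elements. -/

set_option autoImplicit false

noncomputable section

namespace Pool.Agent.DD.F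

open Pool.Agent.DR Pool.Agent.DD.S39 Pool.Agent.DD.DS Pool.Agent.DD.F64 TensorProduct FreeAlgebra
  Polynomial

attribute [local instance 100] LieRing.ofAssociativeRing

/-- Lie polynomials of degree `n` whose `y`-part is primitive up to polynomials in `y_1` -/
structure D2 {K : Type} [CommRing K] (n : ℕ) (ψ : FA K) : Prop where
  lie : IsLie ψ
  hom : ψ ∈ Hn K n
  st : ∃ c : K[X] ⊗[K] K[X],
    dst K (piY ψ) = piY ψ ⊗ₜ 1 + 1 ⊗ₜ piY ψ + Algebra.TensorProduct.map jj jj c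

/-- the ideal `(y ^ 2)` -/
def Y2 (K : Type) [CommRing K] : TwoSidedIdeal (FA K) := TwoSidedIdeal.span {ly K * ly K}

/-- `[y, x]` -/
def a2 (K : Type) [CommRing K] : FA K := ly K * lx K - lx K * ly K

/-- `[[y, x], x]` -/
def b2 (K : Type) [CommRing K] : FA K := a2 K * lx K - lx K * a2 K

def St_A1 : Prop := ∀ n (ψ : FA (ZMod 2)), 3 ≤ n → D2 n ψ → ψ ∈ Y2 _ → ψ = 0

def St_A2 : Prop := ∀ n (ψ : FA (ZMod 2)), 3 ≤ n → D2 n ψ →
  ∃ u ∈ Subring.closure {a2 (ZMod 2), b2 (ZMod 2)}, ψ - u ∈ Y2 _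

namespace M64

variable {R : Type} (K : Type) [CommRing R] [CommRing K] [Algebra R K] {S : Type}

/-- base change -/
def bc : FreeAlgebra R S →ₐ[R] FreeAlgebra K S := FreeAlgebra.lift R (ι K)

@[simp] theorem bc_ι (s : S) : bc K (ι R s) = ι K s := by simp [bc]

theorem bc_w (l : List S) : bc K (l.map (ι R)).prod = (l.map (ι K)).prod := by
  induction l <;> simp [*]

/-- base change -/
def bt : FN R ⊗[R] FN R →ₐ[R] FN K ⊗[K] FN K :=
  Algebra.TensorProduct.lift (Algebra.TensorProduct.includeLeft.comp (bc K))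
    ((Algebra.TensorProduct.includeRight.restrictScalars R).comp (bc K))
    fun _ _ => by simp [Commute, SemiconjBy]

@[simp] theorem bt_tmul (u v : FN R) : bt K (u ⊗ₜ v) = bc K u ⊗ₜ bc K v := by simp [bt]

variable {K}

theorem repr_bc (u : FreeAlgebra R S) (w : FreeMonoid S) :
    (basisFreeMonoid K S).repr (bc K u) w = algebraMap R K ((basisFreeMonoid R S).repr u w) := by
  classical
  refine LinearMap.congr_fun (lext
    (F := ((basisFreeMonoid K S).coord w).restrictScalars R ∘ₗ (bc K).toLinearMap)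
    (G := Algebra.linearMap R K ∘ₗ (basisFreeMonoid R S).coord w) fun l => ?_) u
  simp only [LinearMap.comp_apply, AlgHom.toLinearMap_apply, bc_w]
  simp [← bas, Finsupp.single_apply]

theorem bt_inj (hi : Function.Injective (algebraMap R K)) : Function.Injective (bt K (R := R)) := by
  let b := fun (K : Type) [CommRing K] => (basisFreeMonoid K ℕ).tensorProduct (basisFreeMonoid K ℕ)
  have h : ∀ z p, (b K).repr (bt K z) p = algebraMap R K ((b R).repr z p) := fun z ⟨p, q⟩ => by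
    induction z using TensorProduct.induction_on with
    | zero => simp
    | tmul u v => simp [b, repr_bc]
    | add u v hu hv => simp [hu, hv]
  exact fun z z' e => (b R).ext_elem fun p => hi (by rw [← h, ← h, e])

theorem bc_yy (n : ℕ) : bc K (yy R n) = yy K n := by cases n <;> simp [yy]

theorem bc_yw (k : ℕ) (w : List Bool) : bc K (yw R k w) = yw K k w := by
  induction w generalizing k with
  | nil => by_cases h : k = 0 <;> simp [yw, h]
  | cons s w ih => cases s <;> simp [yw, ih, bc_yy]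

theorem piY_bc (ψ : FA R) : piY (bc K ψ) = bc K (piY ψ) :=
  LinearMap.congr_fun (lext (F := piY.restrictScalars R ∘ₗ (bc K).toLinearMap)
    (G := (bc K).toLinearMap ∘ₗ piY) fun l => by simp [bc_w, piY_word, bc_yw]) ψ

theorem dst_bc (p : FN R) : dst K (bc K p) = bt K (dst R p) :=
  AlgHom.congr_fun (FreeAlgebra.hom_ext (f := ((dst K).restrictScalars R).comp (bc K))
    (g := (bt K).comp (dst R)) (funext fun s => by simp [dst, bc_yy])) p

theorem theta_bc (ψ : FA R) : theta (bc K ψ) = bc K (theta ψ) :=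
  AlgHom.congr_fun (FreeAlgebra.hom_ext (f := (theta.restrictScalars R).comp (bc K))
    (g := (bc K).comp theta) (funext fun s => by cases s <;> simp [theta])) ψ

/-- the projection onto the polynomials in `y_1` -/
def PP (K : Type) [CommRing K] : FN K ⊗[K] FN K →ₐ[K] FN K ⊗[K] FN K :=
  Algebra.TensorProduct.map (jj.comp r1) (jj.comp r1)

theorem PP_bt (z : FN R ⊗[R] FN R) : PP K (bt K z) = bt K (PP R z) := by
  have h : ∀ p : FN R, jj (r1 (bc K p)) = bc K (jj (r1 p)) :=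
    AlgHom.congr_fun (FreeAlgebra.hom_ext (f := ((jj.comp r1).restrictScalars R).comp (bc K))
      (g := (bc K).comp (jj.comp r1)) (funext fun s => by cases s <;> simp [jj, r1]))
  induction z using TensorProduct.induction_on <;> simp_all [PP]

theorem PP_jj (c : K[X] ⊗[K] K[X]) :
    PP K (Algebra.TensorProduct.map jj jj c) = Algebra.TensorProduct.map jj jj c := by
  induction c using TensorProduct.induction_on <;> simp_all [PP, r1_jj]

/-- the defect of primitivity -/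
def df (p : FN K) : FN K ⊗[K] FN K := dst K p - p ⊗ₜ 1 - 1 ⊗ₜ p

theorem df_bc (p : FN R) : df (bc K p) = bt K (df p) := by simp [df, dst_bc]

theorem st_iff (p : FN K) : (∃ c : K[X] ⊗[K] K[X],
    dst K p = p ⊗ₜ 1 + 1 ⊗ₜ p + Algebra.TensorProduct.map jj jj c) ↔ PP K (df p) = df p := by
  refine ⟨fun ⟨c, h⟩ => ?_, fun h => ⟨Algebra.TensorProduct.map r1 r1 (df p), ?_⟩⟩
  · rw [df, h, sub_sub, add_sub_cancel_left, PP_jj]
  · rw [← AlgHom.comp_apply, ← Algebra.TensorProduct.map_comp, ← PP, h, df]; abel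

theorem st_of {K : Type} [Field K] {ψ : FA K} (h : Stuffle ψ) :
    PP K (df (piY ψ)) = df (piY ψ) := by
  obtain ⟨g, hg⟩ : ∃ g, DS.star ψ = piY ψ + jj g := by
    rw [DS.star, finsum_eq_sum _ (D64.fin_supp _ _ _)]
    exact ⟨_, congrArg _ (by
      rw [map_sum]
      exact Finset.sum_congr rfl fun n _ => by rw [map_smul, map_pow, jj, aeval_X]; rfl)⟩
  rw [Stuffle, hg, map_add, dst_jj] at h
  refine (st_iff _).1 ⟨g ⊗ₜ 1 + 1 ⊗ₜ g - aeval (X ⊗ₜ 1 + 1 ⊗ₜ X : K[X] ⊗[K] K[X]) g, ?_⟩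
  rw [map_sub, ← add_sub_assoc, eq_sub_iff_add_eq, h]
  simp [add_tmul, tmul_add]
  abel

theorem lie_bc {ψ : FA R} (h : IsLie ψ) : IsLie (bc K ψ) := by
  refine h.ind (P := fun f => IsLie (bc K f)) ?_ ?_ ?_ ?_ ?_ ?_
  · simpa [lx] using D64.lie_x (K := K)
  · simpa [ly] using D64.lie_y (K := K)
  · rw [map_zero]; exact LieSubalgebra.zero_mem _
  · intro f g _ _ h1 h2; rw [map_add]; exact LieSubalgebra.add_mem _ h1 h2
  · intro r f _ h1; rw [map_smul, ← algebraMap_smul K]; exact LieSubalgebra.smul_mem _ _ h1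
  · intro f g _ _ h1 h2; rw [map_sub, map_mul, map_mul]; exact LieSubalgebra.lie_mem _ h1 h2

theorem d2_of {n : ℕ} (hn : 1 ≤ n) {ψ : FA ℤ} (h : DZ n ψ) : D2 n (bc (ZMod 2) ψ) := by
  obtain ⟨m, hm, h1⟩ := h.lie
  refine ⟨lie_bc (P64.pure hn h.hom hm h1), CO.mem_iff.2 fun w hw => ?_, (st_iff _).2 ?_⟩
  · exact (repr_bc ψ _).trans ((congrArg _ (CO.co_of_mem h.hom hw)).trans (map_zero _))
  · have h2 := st_of h.st
    have e0 : up ψ = bc ℚ ψ := AlgHom.congr_fun (FreeAlgebra.hom_ext (f := up) (g := bc ℚ)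
      (funext fun s => by cases s <;> simp [up, S39.ev, lx, ly])) ψ
    rw [e0, theta_bc, piY_bc, df_bc, PP_bt] at h2
    have e : ∀ f : FA (ZMod 2), theta f = f := fun f => by
      have : -ly (ZMod 2) = ly (ZMod 2) := by
        rw [← neg_one_smul (ZMod 2), show (-1 : ZMod 2) = 1 from rfl, one_smul]
      exact (congrArg (fun z => S39.ev (lx _) z f) this).trans (S39.ev_self f)
    rw [← e (bc _ ψ), theta_bc, piY_bc, df_bc, PP_bt, bt_inj (RingHom.injective_int _) h2]

theorem bc_surj : Function.Surjective (bc (ZMod 2) (R := ℤ) (S := S)) := fun v => by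
  induction v using FreeAlgebra.induction with
  | grade0 r =>
    obtain ⟨c, rfl⟩ := ZMod.intCast_surjective r
    exact ⟨c, by simp⟩
  | grade1 s => exact ⟨_, bc_ι _ s⟩
  | mul a b ha hb =>
    obtain ⟨u, rfl⟩ := ha
    obtain ⟨w, rfl⟩ := hb
    exact ⟨_, map_mul _ _ _⟩
  | add a b ha hb =>
    obtain ⟨u, rfl⟩ := ha
    obtain ⟨w, rfl⟩ := hb
    exact ⟨_, map_add _ _ _⟩

theorem bc_ker {ψ : FreeAlgebra ℤ S} (h : bc (ZMod 2) ψ = 0) : ∃ φ, ψ = (2 : ℤ) • φ := by
  refine ⟨(basisFreeMonoid ℤ S).repr.symm (((basisFreeMonoid ℤ S).repr ψ).mapRange (· / 2) rfl),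
    (basisFreeMonoid ℤ S).ext_elem fun w => ?_⟩
  have := repr_bc (K := ZMod 2) ψ w
  rw [h, map_zero, Finsupp.zero_apply, eq_comm, eq_intCast,
    ZMod.intCast_zmod_eq_zero_iff_dvd] at this
  rw [map_zsmul, LinearEquiv.apply_symm_apply]
  exact (Int.mul_ediv_cancel' (a := 2) this).symm

theorem mem_J {ψ : FA ℤ} : ψ ∈ J ↔ bc (ZMod 2) ψ ∈ Y2 _ := by
  constructor
  · refine fun h => (TwoSidedIdeal.mem_comap (bc (ZMod 2)).toRingHom).1
      (TwoSidedIdeal.span_le.2 ?_ h)
    rintro _ (rfl | rfl)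
    · refine (TwoSidedIdeal.mem_comap _).2 ?_
      rw [map_ofNat, ← map_ofNat (algebraMap (ZMod 2) (FA (ZMod 2))),
        show (OfNat.ofNat 2 : ZMod 2) = 0 from rfl, map_zero]
      exact zero_mem _
    · refine (TwoSidedIdeal.mem_comap _).2 (TwoSidedIdeal.subset_span ?_)
      simp [ly]
  · intro h
    have : ∀ v ∈ Y2 (ZMod 2), ∃ t ∈ J, bc _ t = v := fun v hv => by
      induction hv using TwoSidedIdeal.span_induction with
      | mem _ hx =>
        exact ⟨ly ℤ * ly ℤ, TwoSidedIdeal.subset_span (by simp), by rw [hx]; simp [ly]⟩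
      | zero => exact ⟨0, J.zero_mem, map_zero _⟩
      | add _ _ _ _ h1 h2 =>
        obtain ⟨u, hu, rfl⟩ := h1
        obtain ⟨w, hw, rfl⟩ := h2
        exact ⟨_, J.add_mem hu hw, map_add _ _ _⟩
      | neg _ _ h1 =>
        obtain ⟨u, hu, rfl⟩ := h1
        exact ⟨_, J.neg_mem hu, map_neg _ _⟩
      | left_absorb a _ _ h1 =>
        obtain ⟨u, hu, rfl⟩ := h1
        obtain ⟨w, rfl⟩ := bc_surj a
        exact ⟨_, J.mul_mem_left w _ hu, map_mul _ _ _⟩
      | right_absorb a _ _ h1 =>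
        obtain ⟨u, hu, rfl⟩ := h1
        obtain ⟨w, rfl⟩ := bc_surj a
        exact ⟨_, J.mul_mem_right _ w hu, map_mul _ _ _⟩
    obtain ⟨t, ht, e⟩ := this _ h
    obtain ⟨φ, e'⟩ := bc_ker (ψ := ψ - t) (by rw [map_sub, e, sub_self])
    rw [sub_eq_iff_eq_add.1 e', two_zsmul, ← two_mul]
    exact J.add_mem (J.mul_mem_right _ _ (TwoSidedIdeal.subset_span (by simp))) ht

end M64

open M64

theorem dsdrop_of (h : St_A1) : St_DSDROP := fun n ψ hn hψ hJ =>
  bc_ker (h n _ hn (d2_of (by omega) hψ) (mem_J.1 hJ))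

theorem dsstar_of (h : St_A2) : St_DSSTAR := fun n ψ hn hψ => by
  obtain ⟨u, hu, e⟩ := h n _ hn (d2_of (by omega) hψ)
  have : Subring.closure {a2 (ZMod 2), b2 (ZMod 2)} =
      (Subring.closure {aa, bb 0}).map (bc (ZMod 2)).toRingHom := by
    rw [RingHom.map_closure, Set.image_pair]
    simp [aa, bb, a2, b2, lx, ly]
  obtain ⟨v, hv, rfl⟩ := this ▸ hu
  exact ⟨v, hv, mem_J.2 (by rwa [map_sub])⟩

theorem q1_of_A (h1 : St_A1) (h2 : St_A2) : Q1 :=
  q1_of (st_LAT st_CO) st_CL st_EX st_DEP (st_DROP st_CO) (st_STAR st_CO) st_GAM st_PHI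
    st_MOD (dsdrop_of h1) (dsstar_of h2)

end Pool.Agent.DD.F
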