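import Pool.Agent.Lib.DD.Spec39
import Pool.Agent.Lib.DR.B_SH1
import Mathlib.Algebra.DualNumber
import Mathlib.Data.Nat.Choose.Sum

/-! The flow of an infinitesimal symmetry keeps the pentagon equation. -/

set_option autoImplicit false

noncomputable section

namespace Pool.Agent.DD.E2

open Pool.Agent.DR Pool.Agent.DD.S39 Finset PowerSeries

universe v

variable {K : Type v} [CommRing K]

section der

/-- deformation of the identity along `x ↦ 0`, `y ↦ [y, ψ]` -/
def dl (ψ : FreeAlgebra K Bool) : FreeAlgebra K Bool →ₐ[K] DualNumber (FreeAlgebra K Bool) :=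
  ev (TrivSqZeroExt.inl (lx K))
    (TrivSqZeroExt.inl (ly K) + TrivSqZeroExt.inr (ly K * ψ - ψ * ly K))

theorem dl_fst (ψ f : FreeAlgebra K Bool) : (dl ψ f).fst = f := by
  induction f using S39.ind with
  | h0 r => rw [AlgHom.commutes]; simp [TrivSqZeroExt.algebraMap_eq_inl']
  | hx => simp [dl]
  | hy => simp [dl]
  | hm f g h1 h2 => simp [h1, h2]
  | ha f g h1 h2 => simp [h1, h2]

/-- the derivation `x ↦ 0`, `y ↦ [y, ψ]` -/
def dP (ψ : FreeAlgebra K Bool) : FreeAlgebra K Bool →ₗ[K] FreeAlgebra K Bool where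
  toFun f := (dl ψ f).snd
  map_add' f g := by simp
  map_smul' r f := by simp

@[simp] theorem dP_x (ψ : FreeAlgebra K Bool) : dP ψ (lx K) = 0 := by simp [dP, dl]
@[simp] theorem dP_y (ψ : FreeAlgebra K Bool) : dP ψ (ly K) = ly K * ψ - ψ * ly K := by
  simp [dP, dl]
@[simp] theorem dP_one (ψ : FreeAlgebra K Bool) : dP ψ 1 = 0 := by simp [dP]

theorem dP_mul (ψ f g : FreeAlgebra K Bool) : dP ψ (f * g) = dP ψ f * g + f * dP ψ g := by
  simp [dP, dl_fst, add_comm]

variable {B : Type*} [Ring B] [Algebra K B]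

/-- Leibniz rule -/
def Leib (D : B →ₗ[K] B) : Prop := ∀ z z', D (z * z') = D z * z' + z * D z'

theorem Leib.one {D : B →ₗ[K] B} (h : Leib D) : D 1 = 0 := by simpa using h 1 1

/-- the edge `(a, b)` goes from the vertex with potential `s` to the vertex with potential `t` -/
structure Edge (D : B →ₗ[K] B) (ψ : FreeAlgebra K Bool) (a b s t : B) : Prop where
  ha : D a = a * s - s * a
  hb : D b = b * t - t * b
  hp : t - s = ev a b ψ

theorem Edge.ev_dP {D : B →ₗ[K] B} (hD : Leib D) {ψ : FreeAlgebra K Bool} {a b s t : B}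
    (h : Edge D ψ a b s t) (f : FreeAlgebra K Bool) :
    ev a b (dP ψ f) = D (ev a b f) - (ev a b f * s - s * ev a b f) := by
  induction f using S39.ind with
  | h0 r =>
    rw [Algebra.algebraMap_eq_smul_one]
    simp [hD.one]
  | hx => simp [h.ha]
  | hy =>
    simp only [dP_y, map_sub, map_mul, ev_y, h.hb, ← h.hp]
    noncomm_ring
  | hm f g h1 h2 =>
    simp only [dP_mul, map_add, map_mul, h1, h2, hD _ _]
    noncomm_ring
  | ha f g h1 h2 =>
    simp only [map_add, h1, h2]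
    noncomm_ring

/-- the twisted derivation -/
def tw (D : B →ₗ[K] B) (t s : B) : B →ₗ[K] B := D + LinearMap.mulLeft K t - LinearMap.mulRight K s

theorem tw_apply (D : B →ₗ[K] B) (t s z : B) : tw D t s z = D z + t * z - z * s := by simp [tw]

theorem tw_mul {D : B →ₗ[K] B} (hD : Leib D) (t m s z z' : B) :
    tw D t s (z * z') = tw D t m z * z' + z * tw D m s z' := by
  simp only [tw_apply, hD _ _]
  noncomm_ring

theorem Edge.ev_tw {D : B →ₗ[K] B} (hD : Leib D) {ψ : FreeAlgebra K Bool} {a b s t : B}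
    (h : Edge D ψ a b s t) (f : FreeAlgebra K Bool) :
    ev a b (tw (dP ψ) ψ 0 f) = tw D t s (ev a b f) := by
  simp only [tw_apply, map_sub, map_add, map_mul, h.ev_dP hD, ← h.hp, map_zero]
  noncomm_ring

end der

section ex
variable {B : Type*} [Ring B] [Algebra K B]

/-- an operator acting on coefficients and raising the degree by `n` -/
def up (n : ℕ) (E : B →ₗ[K] B) : PowerSeries B →ₗ[K] PowerSeries B where
  toFun z := mk fun m => if n ≤ m then E (coeff (m - n) z) else 0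
  map_add' z z' := by ext m; by_cases h : n ≤ m <;> simp [h]
  map_smul' r z := by ext m; by_cases h : n ≤ m <;> simp [h]

theorem coeff_up (n : ℕ) (E : B →ₗ[K] B) (z : PowerSeries B) (m : ℕ) :
    coeff m (up n E z) = if n ≤ m then E (coeff (m - n) z) else 0 := by simp [up]

theorem up_eq (n : ℕ) (E : B →ₗ[K] B) (z : PowerSeries B) : up n E z = X ^ n * up 0 E z := by
  ext m
  simp [coeff_X_pow_mul', coeff_up]

theorem up_mul (n : ℕ) {E₁ E₂ E₃ : B →ₗ[K] B} (h : ∀ z z', E₃ (z * z') = E₁ z * z' + z * E₂ z')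
    (z z' : PowerSeries B) : up n E₃ (z * z') = up n E₁ z * z' + z * up n E₂ z' := by
  have h0 : up 0 E₃ (z * z') = up 0 E₁ z * z' + z * up 0 E₂ z' := by
    ext m
    simp [coeff_up, coeff_mul, h, sum_add_distrib]
  rw [up_eq, up_eq n E₁, up_eq n E₂, h0, mul_add, ← mul_assoc z, ((commute_X z).pow_right n).eq,
    mul_assoc, mul_assoc]

theorem coeff_up_pow {n : ℕ} (hn : 0 < n) (E : B →ₗ[K] B) (z : PowerSeries B) (k m : ℕ)
    (h : m < k) : coeff m ((up n E ^ k) z) = 0 := by
  induction k generalizing m with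
  | zero => omega
  | succ k ih =>
    rw [pow_succ', Module.End.mul_apply, coeff_up]
    split_ifs with h1
    · rw [ih _ (by omega), map_zero]
    · rfl

theorem pow_mul_of {C : Type*} [Ring C] [Algebra K C] {E₁ E₂ E₃ : C →ₗ[K] C}
    (h : ∀ z z', E₃ (z * z') = E₁ z * z' + z * E₂ z') (z z' : C) (k : ℕ) :
    (E₃ ^ k) (z * z') =
      ∑ p ∈ antidiagonal k, k.choose p.1 • ((E₁ ^ p.1) z * (E₂ ^ p.2) z') := by
  induction k with
  | zero => simp
  | succ k ih =>
    rw [pow_succ', Module.End.mul_apply, ih,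
      sum_antidiagonal_choose_succ_nsmul (fun i j => (E₁ ^ i) z * (E₂ ^ j) z'), map_sum,
      ← sum_add_distrib]
    refine sum_congr rfl fun p hp => ?_
    rw [map_nsmul, h, ← Nat.choose_symm_of_eq_add (mem_antidiagonal.1 hp).symm, pow_succ', pow_succ',
      Module.End.mul_apply, Module.End.mul_apply, smul_add, add_comm]

variable [Algebra ℚ K]

/-- inverse factorials -/
def fq (K : Type v) [CommRing K] [Algebra ℚ K] (k : ℕ) : K := algebraMap ℚ K (k.factorial : ℚ)⁻¹

theorem fq_choose (i j : ℕ) : fq K (i + j) * ((i + j).choose i : K) = fq K i * fq K j := by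
  have h : ((i + j).factorial : ℚ) = (i + j).choose i * i.factorial * j.factorial := by
    rw [Nat.choose_symm_add]
    exact_mod_cast (Nat.add_choose_mul_factorial_mul_factorial i j).symm
  have h1 : (((i + j).choose i : ℕ) : ℚ) ≠ 0 := by
    exact_mod_cast (Nat.choose_pos (Nat.le_add_right i j)).ne'
  rw [fq, fq, fq, ← map_natCast (algebraMap ℚ K), ← map_mul, ← map_mul, h]
  congr 1
  field_simp

/-- the exponential of a degree raising operator -/
def ex (E : PowerSeries B →ₗ[K] PowerSeries B) (z : PowerSeries B) : PowerSeries B :=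
  mk fun m => ∑ k ∈ range (m + 1), fq K k • coeff m ((E ^ k) z)

theorem coeff_ex {n : ℕ} (hn : 0 < n) (E : B →ₗ[K] B) (z : PowerSeries B) {a m : ℕ} (h : a ≤ m) :
    coeff a (ex (up n E) z) = ∑ k ∈ range (m + 1), fq K k • coeff a ((up n E ^ k) z) := by
  rw [ex, coeff_mk]
  refine sum_subset (range_subset_range.2 (by omega)) fun k _ hk => ?_
  rw [coeff_up_pow hn _ _ _ _ (by simpa using hk), smul_zero]

theorem sum_tri {M : Type*} [AddCommMonoid M] (m : ℕ) (f : ℕ → ℕ → M)
    (h : ∀ i j, m < i + j → f i j = 0) :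
    ∑ k ∈ range (m + 1), ∑ p ∈ antidiagonal k, f p.1 p.2 =
      ∑ i ∈ range (m + 1), ∑ j ∈ range (m + 1), f i j := by
  rw [← sum_product', ← sum_filter_of_ne (p := fun p : ℕ × ℕ => p.1 + p.2 ≤ m)
    (fun p _ hp => by by_contra hc; exact hp (h _ _ (by omega))),
    ← sum_fiberwise_of_maps_to (g := fun p : ℕ × ℕ => p.1 + p.2) (t := range (m + 1))
      (fun p hp => by simp at hp ⊢; omega)]
  refine sum_congr rfl fun k hk => sum_congr ?_ fun _ _ => rfl
  ext p
  simp at hk ⊢
  omega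

theorem ex_mul {n : ℕ} (hn : 0 < n) {E₁ E₂ E₃ : B →ₗ[K] B}
    (h : ∀ z z', E₃ (z * z') = E₁ z * z' + z * E₂ z') (z z' : PowerSeries B) :
    ex (up n E₃) (z * z') = ex (up n E₁) z * ex (up n E₂) z' := by
  ext m
  let f : ℕ → ℕ → B := fun i j =>
    (fq K i * fq K j) • coeff m ((up n E₁ ^ i) z * (up n E₂ ^ j) z')
  have hf : ∀ i j, m < i + j → f i j = 0 := by
    intro i j hij
    simp only [f, coeff_mul]
    rw [sum_eq_zero, smul_zero]
    intro p hp
    have := mem_antidiagonal.1 hp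
    by_cases hi : p.1 < i
    · rw [coeff_up_pow hn _ _ _ _ hi, zero_mul]
    · rw [coeff_up_pow hn _ _ _ _ (show p.2 < j by omega), mul_zero]
  have h1 : coeff m (ex (up n E₃) (z * z')) =
      ∑ k ∈ range (m + 1), ∑ p ∈ antidiagonal k, f p.1 p.2 := by
    rw [ex, coeff_mk]
    refine sum_congr rfl fun k _ => ?_
    rw [pow_mul_of (up_mul n h), map_sum, smul_sum]
    refine sum_congr rfl fun p hp => ?_
    obtain rfl := mem_antidiagonal.1 hp
    rw [map_nsmul, ← Nat.cast_smul_eq_nsmul K, smul_smul, fq_choose]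
  rw [h1, sum_tri m f hf, coeff_mul]
  simp only [f, coeff_mul, smul_sum]
  symm
  rw [sum_congr rfl fun p hp => by
    rw [coeff_ex hn E₁ z (show p.1 ≤ m by have := mem_antidiagonal.1 hp; omega),
      coeff_ex hn E₂ z' (show p.2 ≤ m by have := mem_antidiagonal.1 hp; omega), sum_mul_sum],
    sum_comm]
  refine sum_congr rfl fun i _ => ?_
  rw [sum_comm]
  refine sum_congr rfl fun j _ => sum_congr rfl fun p _ => ?_
  rw [smul_mul_smul_comm]

theorem map_ex {B' : Type*} [Ring B'] [Algebra K B'] (g : B →ₐ[K] B') (n : ℕ) {E : B →ₗ[K] B}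
    {E' : B' →ₗ[K] B'} (h : ∀ z, g (E z) = E' (g z)) (z : PowerSeries B) :
    PowerSeries.map g.toRingHom (ex (up n E) z) = ex (up n E') (PowerSeries.map g.toRingHom z) := by
  have h1 : ∀ k m, g (coeff m ((up n E ^ k) z)) =
      coeff m ((up n E' ^ k) (PowerSeries.map g.toRingHom z)) := by
    intro k
    induction k with
    | zero => intro m; simp
    | succ k ih =>
      intro m
      rw [pow_succ', pow_succ', Module.End.mul_apply, Module.End.mul_apply, coeff_up, coeff_up]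
      split_ifs
      · rw [h, ih]
      · exact map_zero g
  ext m
  rw [coeff_map, ex, ex, coeff_mk, coeff_mk]
  show g _ = _
  simp only [map_sum, map_smul, h1]

end ex

section gr

/-- prepend a letter -/
def pre (s : Bool) : Module.End K (List Bool → K) where
  toFun g w := match w with
    | [] => 0
    | t :: w => if t = s then g w else 0
  map_add' g g' := by
    ext w
    rcases w with _ | ⟨t, w⟩
    · simp
    · by_cases h : t = s <;> simp [h]
  map_smul' r g := by
    ext w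
    rcases w with _ | ⟨t, w⟩
    · simp
    · by_cases h : t = s <;> simp [h]

/-- the coefficient of a word -/
def co (u : List Bool) : FreeAlgebra K Bool →ₗ[K] K :=
  LinearMap.proj u ∘ₗ LinearMap.applyₗ (Pi.single [] 1) ∘ₗ (ev (pre false) (pre true)).toLinearMap

theorem co_wd (u w : List Bool) : co u (wd (lx K) (ly K) w) = if w = u then 1 else 0 := by
  have h : ∀ w u : List Bool, wd (pre (K := K) false) (pre true) w (Pi.single [] 1) u =
      if w = u then 1 else 0 := by
    intro w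
    induction w with
    | nil => intro u; simp [Pi.single_apply, eq_comm]
    | cons s w ih =>
      intro u
      rcases u with _ | ⟨t, u⟩
      · cases s <;> simp [pre]
      · cases s <;> cases t <;> simp [pre] <;> exact ih u
  simpa [co, map_wd] using h w u

/-- the component of degree `n` -/
def cmp (c : List Bool → K) (n : ℕ) : FreeAlgebra K Bool :=
  ∑ u ∈ W n, c u • wd (lx K) (ly K) u

theorem co_cmp (c : List Bool → K) (u : List Bool) : co u (cmp c u.length) = c u := by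
  simp [cmp, co_wd, mem_W]

/-- degree `m`, depth at least `d` -/
def Gr (K : Type v) [CommRing K] (m d : ℕ) : Submodule K (FreeAlgebra K Bool) :=
  Submodule.span K (wd (lx K) (ly K) '' {w | w.length = m ∧ d ≤ w.count true})

theorem Gr.wd_mem {m d : ℕ} {w : List Bool} (h1 : w.length = m) (h2 : d ≤ w.count true) :
    wd (lx K) (ly K) w ∈ Gr K m d := Submodule.subset_span ⟨w, ⟨h1, h2⟩, rfl⟩

theorem Gr.mul {m d m' d' m'' d'' : ℕ} {f g : FreeAlgebra K Bool} (hf : f ∈ Gr K m d)
    (hg : g ∈ Gr K m' d') (h1 : m'' = m + m') (h2 : d'' ≤ d + d') : f * g ∈ Gr K m'' d'' := by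
  have h := Submodule.mul_mem_mul hf hg
  rw [Gr, Gr, Submodule.span_mul_span] at h
  refine Submodule.span_mono ?_ h
  rintro _ ⟨_, ⟨u, hu, rfl⟩, _, ⟨w, hw, rfl⟩, rfl⟩
  refine ⟨u ++ w, ⟨?_, ?_⟩, wd_append _ _ _ _⟩
  · simp [hu.1, hw.1, h1]
  · have := hu.2
    have := hw.2
    rw [List.count_append]
    omega

theorem Gr.co_eq {m d : ℕ} {f : FreeAlgebra K Bool} (hf : f ∈ Gr K m d) {u : List Bool}
    (hu : u.count true < d) : co u f = 0 := by
  refine (Submodule.span_le (p := LinearMap.ker (co u))).2 ?_ hf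
  rintro _ ⟨w, hw, rfl⟩
  have := hw.2
  simp only [SetLike.mem_coe, LinearMap.mem_ker, co_wd]
  rw [if_neg]
  rintro rfl
  omega

theorem Gr.eq_cmp {m d : ℕ} {f : FreeAlgebra K Bool} (hf : f ∈ Gr K m d) :
    cmp (fun u => co u f) m = f := by
  induction hf using Submodule.span_induction with
  | mem f hf =>
    obtain ⟨w, hw, rfl⟩ := hf
    simp [cmp, co_wd, mem_W, hw.1]
  | zero => simp [cmp]
  | add f g _ _ h1 h2 =>
    simp only [cmp, map_add, add_smul, sum_add_distrib] at h1 h2 ⊢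
    rw [h1, h2]
  | smul r f _ h1 =>
    simp only [cmp, map_smul, smul_eq_mul, mul_smul, ← smul_sum] at h1 ⊢
    rw [h1]

theorem cmp_mem (c : List Bool → K) (n : ℕ) : cmp c n ∈ Gr K n 0 :=
  Submodule.sum_mem _ fun _ hu => Submodule.smul_mem _ _ (Gr.wd_mem (mem_W.1 hu) (Nat.zero_le _))

theorem cmp_mem_one {c : List Bool → K} {n : ℕ} (h : c (List.replicate n false) = 0) :
    cmp c n ∈ Gr K n 1 := by
  refine Submodule.sum_mem _ fun u hu => ?_
  by_cases h1 : 1 ≤ u.count true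
  · exact Submodule.smul_mem _ _ (Gr.wd_mem (mem_W.1 hu) h1)
  · have h2 : u = List.replicate n false := by
      refine List.eq_replicate_iff.2 ⟨mem_W.1 hu, fun b hb => ?_⟩
      cases b
      · rfl
      · exact absurd (List.count_pos_iff.2 hb) h1
    rw [h2, h, zero_smul]
    exact zero_mem _

theorem Gr.dP {n : ℕ} {ψ : FreeAlgebra K Bool} (hψ : ψ ∈ Gr K n 1) {m d : ℕ}
    {f : FreeAlgebra K Bool} (hf : f ∈ Gr K m d) : dP ψ f ∈ Gr K (m + n) (d + 1) := by
  have hx : lx K ∈ Gr K 1 0 := by simpa using Gr.wd_mem (K := K) (w := [false]) rfl (Nat.zero_le _)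
  have hy : ly K ∈ Gr K 1 1 := by simpa using Gr.wd_mem (K := K) (w := [true]) (d := 1) rfl (by simp)
  have key : ∀ (w : List Bool) (d : ℕ), d ≤ w.count true →
      E2.dP ψ (wd (lx K) (ly K) w) ∈ Gr K (w.length + n) (d + 1) := by
    intro w
    induction w with
    | nil => intro d _; simp
    | cons s w ih =>
      intro d hd
      cases s
      · rw [wd_false, dP_mul, dP_x, zero_mul, zero_add]
        exact Gr.mul hx (ih d (by simpa using hd)) (by simp; omega) (by omega)
      · rw [wd_true, dP_mul, dP_y]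
        rw [List.count_cons_self] at hd
        refine add_mem (Gr.mul (sub_mem (Gr.mul hy hψ rfl le_rfl)
          (Gr.mul hψ hy (add_comm _ _) le_rfl)) (Gr.wd_mem rfl le_rfl) (by simp; omega) (by omega))
          (Gr.mul hy (ih _ le_rfl) (by simp; omega) (by omega))
  refine (Submodule.span_le (p := (Gr K (m + n) (d + 1)).comap (E2.dP ψ))).2 ?_ hf
  rintro _ ⟨w, hw, rfl⟩
  obtain rfl := hw.1
  exact key w d hw.2

theorem Gr.tw {n : ℕ} {ψ : FreeAlgebra K Bool} (hψ : ψ ∈ Gr K n 1) {m d : ℕ}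
    {f : FreeAlgebra K Bool} (hf : f ∈ Gr K m d) :
    tw (E2.dP ψ) ψ 0 f ∈ Gr K (m + n) (d + 1) := by
  rw [tw_apply, mul_zero, sub_zero]
  exact add_mem (Gr.dP hψ hf) (Gr.mul hψ hf (add_comm _ _) (add_comm d 1).le)

theorem coeff_ser_free (Φ : List Bool → K) (m : ℕ) :
    coeff m (ser Φ (lx K) (ly K)) = cmp Φ m := coeff_ser _ _ _ _

theorem Gr.up_pow {n : ℕ} {ψ : FreeAlgebra K Bool} (hψ : ψ ∈ Gr K n 1) (Φ : List Bool → K)
    (k m : ℕ) : coeff m ((up n (E2.tw (E2.dP ψ) ψ 0) ^ k) (ser Φ (lx K) (ly K))) ∈ Gr K m k := by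
  induction k generalizing m with
  | zero => simpa [coeff_ser_free] using cmp_mem Φ m
  | succ k ih =>
    rw [pow_succ', Module.End.mul_apply, coeff_up]
    split_ifs with h
    · simpa [Nat.sub_add_cancel h] using Gr.tw hψ (ih (m - n))
    · exact zero_mem _

theorem Gr.mono {m d d' : ℕ} (h : d' ≤ d) : Gr K m d ≤ Gr K m d' :=
  Submodule.span_mono (Set.image_mono fun _ hw => ⟨hw.1, h.trans hw.2⟩)

theorem pure_zero {Φ : List Bool → K} (hΦ : Pentagon Φ) (h1 : Φ [] = 1) (j : ℕ) :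
    Φ (List.replicate (j + 1) false) = 0 := by
  have h := congrArg (coeff (j + 1)) ((st_SH1 K Φ (st_LIFT K Φ hΦ) h1 K 0 0).1)
  have e0 : ∀ u : List Bool, wd (0 : K) 0 u = if u = [] then 1 else 0 := by
    rintro (_ | ⟨_ | _, u⟩) <;> simp
  have e1 : ∀ u : List Bool, wd (1 : K) 0 u = if u = List.replicate u.length false then 1 else 0 := by
    intro u
    induction u with
    | nil => simp
    | cons s u ih => cases s <;> simp [ih, List.replicate_succ]
  rw [coeff_ser, coeff_ser, zero_add, sum_eq_single (List.replicate (j + 1) false), sum_eq_zero] at h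
  · simpa [e1] using h
  · intro u hu
    rw [e0, if_neg, smul_zero]
    rintro rfl
    simp [mem_W] at hu
  · intro u hu hne
    rw [e1, mem_W.1 hu, if_neg hne, smul_zero]
  · simp [mem_W]

end gr

/-- a derivation of the braid algebra with potentials at the five vertices of the pentagon -/
def Der (ψ : FreeAlgebra K Bool) : Prop :=
  ∃ (D : RingQuot (Rel K) →ₗ[K] RingQuot (Rel K)) (U₀ U₁ U₂ U₃ U₄ : RingQuot (Rel K)), Leib D ∧
    Edge D ψ (tt K 0 1) (tt K 1 2 + tt K 1 3) U₀ U₂ ∧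
    Edge D ψ (tt K 0 2 + tt K 1 2) (tt K 2 3) U₁ U₀ ∧
    Edge D ψ (tt K 1 2) (tt K 2 3) U₄ U₂ ∧
    Edge D ψ (tt K 0 1 + tt K 0 2) (tt K 1 3 + tt K 2 3) U₃ U₄ ∧
    Edge D ψ (tt K 0 1) (tt K 1 2) U₁ U₃

variable [Algebra ℚ K]

/-- the coefficients of the flow at time one -/
def flow (n : ℕ) (ψ : FreeAlgebra K Bool) (Φ : List Bool → K) (u : List Bool) : K :=
  co u (coeff u.length (ex (up n (tw (dP ψ) ψ 0)) (ser Φ (lx K) (ly K))))

theorem ser_flow {n : ℕ} {ψ : FreeAlgebra K Bool} (hψ : ψ ∈ Gr K n 1) (Φ : List Bool → K) :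
    ser (flow n ψ Φ) (lx K) (ly K) = ex (up n (tw (dP ψ) ψ 0)) (ser Φ (lx K) (ly K)) := by
  ext1 m
  have h : coeff m (ex (up n (tw (dP ψ) ψ 0)) (ser Φ (lx K) (ly K))) ∈ Gr K m 0 := by
    rw [ex, coeff_mk]
    exact Submodule.sum_mem _ fun k _ =>
      Submodule.smul_mem _ _ (Gr.mono (Nat.zero_le k) (Gr.up_pow hψ Φ k m))
  rw [← Gr.eq_cmp h, coeff_ser_free]
  refine sum_congr rfl fun u hu => ?_
  rw [flow, mem_W.1 hu]

theorem Edge.ser_flow {B : Type v} [Ring B] [Algebra K B] {D : B →ₗ[K] B} (hD : Leib D) {n : ℕ}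
    {ψ : FreeAlgebra K Bool} (hψ : ψ ∈ Gr K n 1) {a b s t : B} (h : Edge D ψ a b s t)
    (Φ : List Bool → K) : ser (flow n ψ Φ) a b = ex (up n (tw D t s)) (ser Φ a b) := by
  have h1 := congrArg (PowerSeries.map (ev (K := K) a b).toRingHom) (E2.ser_flow hψ Φ)
  rwa [map_ex _ n (h.ev_tw hD), LIFT.map_ser, LIFT.map_ser, ev_x, ev_y] at h1

theorem flow_pent {n : ℕ} (hn : 0 < n) {ψ : FreeAlgebra K Bool} (hψ : ψ ∈ Gr K n 1) (hD : Der ψ)
    {Φ : List Bool → K} (hΦ : Pentagon Φ) : Pentagon (flow n ψ Φ) := by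
  obtain ⟨D, U₀, U₁, U₂, U₃, U₄, hL, e1, e2, e3, e4, e5⟩ := hD
  unfold Pentagon at hΦ ⊢
  rw [e1.ser_flow hL hψ, e2.ser_flow hL hψ, e3.ser_flow hL hψ, e4.ser_flow hL hψ,
    e5.ser_flow hL hψ, ← ex_mul hn (tw_mul hL U₂ U₀ U₁), ← ex_mul hn (tw_mul hL U₂ U₄ U₃),
    ← ex_mul hn (tw_mul hL U₂ U₃ U₁), hΦ]

theorem flow_eq (n : ℕ) (ψ : FreeAlgebra K Bool) (Φ : List Bool → K) (u : List Bool) :
    flow n ψ Φ u = Φ u + ∑ k ∈ range u.length, fq K (k + 1) *
      co u (coeff u.length ((up n (tw (dP ψ) ψ 0) ^ (k + 1)) (ser Φ (lx K) (ly K)))) := by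
  have h0 : fq K 0 = 1 := by simp [fq]
  rw [flow, ex, coeff_mk, sum_range_succ', map_add, map_sum, add_comm]
  simp only [map_smul, smul_eq_mul, h0, one_mul, pow_zero, Module.End.one_apply, coeff_ser_free,
    co_cmp]

theorem flow_lt {n : ℕ} (ψ : FreeAlgebra K Bool) (Φ : List Bool → K) {u : List Bool}
    (hu : u.length < n) : flow n ψ Φ u = Φ u := by
  rw [flow_eq, sum_eq_zero, add_zero]
  intro k _
  rw [pow_succ', Module.End.mul_apply, coeff_up, if_neg (by omega), map_zero, mul_zero]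

theorem flow_len {n : ℕ} (hn : 0 < n) (ψ : FreeAlgebra K Bool) {Φ : List Bool → K} (h1 : Φ [] = 1)
    {u : List Bool} (hu : u.length = n) : flow n ψ Φ u = Φ u + co u ψ := by
  rw [flow_eq, sum_eq_single 0]
  · simp [fq, coeff_up, hu, coeff_ser_free, cmp, W_zero, h1, tw_apply]
  · intro k _ hk
    rw [pow_succ', Module.End.mul_apply, coeff_up, if_pos hu.ge,
      coeff_up_pow hn _ _ _ _ (by omega), map_zero, map_zero, mul_zero]
  · simp [hu, hn]

theorem flow_depth {n : ℕ} {ψ : FreeAlgebra K Bool} (hψ : ψ ∈ Gr K n 1) {Φ : List Bool → K}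
    (h0 : ∀ j, Φ (List.replicate (j + 1) false) = 0) {u : List Bool} (hu : u.count true ≤ 1)
    (hn : u.length ≠ n) : flow n ψ Φ u = Φ u := by
  rw [flow_eq, sum_eq_zero, add_zero]
  intro k _
  rcases k with _ | k
  · rw [zero_add, pow_one, coeff_up]
    split_ifs with h
    · obtain ⟨j, hj⟩ : ∃ j, u.length - n = j + 1 := ⟨u.length - n - 1, by omega⟩
      rw [coeff_ser_free, hj, Gr.co_eq (Gr.tw hψ (cmp_mem_one (h0 j))) (by omega), mul_zero]
    · rw [map_zero, mul_zero]
  · rw [Gr.co_eq (Gr.up_pow hψ Φ _ _) (by omega), mul_zero]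

/-- The flow of `ψ = cmp c n` corrects a solution of the pentagon in degree `n`. -/
theorem exp_pent {n : ℕ} (hn : 0 < n) {c : List Bool → K} (hc : c (List.replicate n false) = 0)
    (hD : Der (cmp c n)) {Φ : List Bool → K} (hΦ : Pentagon Φ) (h1 : Φ [] = 1) :
    ∃ Φ' : List Bool → K, Pentagon Φ' ∧ (∀ u, u.length < n → Φ' u = Φ u) ∧
      (∀ u, u.length = n → Φ' u = Φ u + c u) ∧
      ∀ u, u.count true ≤ 1 → u.length ≠ n → Φ' u = Φ u :=
  ⟨flow n (cmp c n) Φ, flow_pent hn (cmp_mem_one hc) hD hΦ, fun _ hu => flow_lt _ _ hu,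
    fun u hu => by rw [flow_len hn _ h1 hu, ← hu, co_cmp],
    fun _ hu hl => flow_depth (cmp_mem_one hc) (pure_zero hΦ h1) hu hl⟩

end Pool.Agent.DD.E2
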