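import Pool.Agent.Lib.DD.T4Lie56
import Mathlib.Algebra.DualNumber
import Mathlib.Tactic.LinearCombination
import Mathlib.Tactic.FinCases

set_option autoImplicit false

noncomputable section

namespace Pool.Agent.DD.H56

attribute [local instance 100] LieRing.ofAssociativeRing

open Pool.Agent.DR

section Basic

variable {K : Type*} [CommRing K] {B B' : Type*} [Ring B] [Algebra K B] [Ring B'] [Algebra K B']

/-- Substitution of `p` for the letter `false` and `q` for the letter `true`. -/
def ev (p q : B) : FreeAlgebra K Bool →ₐ[K] B := FreeAlgebra.lift K fun s => if s then q else p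

@[simp] theorem ev_false (p q : B) : ev p q (FreeAlgebra.ι K false) = p := by simp [ev]

@[simp] theorem ev_true (p q : B) : ev p q (FreeAlgebra.ι K true) = q := by simp [ev]

theorem map_ev (F : B →ₐ[K] B') (p q : B) (f : FreeAlgebra K Bool) :
    F (ev p q f) = ev (F p) (F q) f := by
  have : F.comp (ev p q) = ev (F p) (F q) := by
    apply FreeAlgebra.hom_ext
    funext s
    cases s <;> simp
  rw [← this]; rfl

theorem ev_self (f : FreeAlgebra K Bool) :
    ev (FreeAlgebra.ι K false) (FreeAlgebra.ι K true) f = f := by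
  have : ev (FreeAlgebra.ι K false) (FreeAlgebra.ι K true) = AlgHom.id K (FreeAlgebra K Bool) := by
    apply FreeAlgebra.hom_ext
    funext s
    cases s <;> simp
  rw [this]; rfl

theorem commute_ev {s a b : B} (ha : Commute s a) (hb : Commute s b) (f : FreeAlgebra K Bool) :
    Commute s (ev a b f) := by
  induction f using FreeAlgebra.induction with
  | grade0 r => rw [AlgHom.commutes]; exact (Algebra.commutes r _).symm
  | grade1 y => cases y <;> simpa
  | mul u v hu hv => rw [map_mul]; exact hu.mul_right hv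
  | add u v hu hv => rw [map_add]; exact hu.add_right hv

/-- The span of the words of length at least `n`. -/
def Ge (K : Type*) [CommRing K] (n : ℕ) : Submodule K (FreeAlgebra K Bool) :=
  Submodule.span K {v | ∃ l : List Bool, n ≤ l.length ∧ v = (l.map (FreeAlgebra.ι K)).prod}

theorem Ge.mono {m n : ℕ} (h : m ≤ n) : Ge K n ≤ Ge K m :=
  Submodule.span_mono fun _ ⟨l, hl, e⟩ => ⟨l, h.trans hl, e⟩

/-- Lie polynomials in two letters. -/
abbrev Lie2 (K : Type*) [CommRing K] : LieSubalgebra K (FreeAlgebra K Bool) :=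
  LieSubalgebra.lieSpan K (FreeAlgebra K Bool) (Set.range (FreeAlgebra.ι K))

theorem shift_aux {a b s s' : B} (h1 : Commute s a) (h2 : Commute s b) (h3 : Commute s' a)
    (h4 : Commute s' b) (h5 : Commute s s') {u : FreeAlgebra K Bool} (hu : u ∈ Lie2 K) :
    ev (a + s) (b + s') u = ev a b u + (ev (DualNumber.eps : DualNumber K) 0 u).snd • s +
      (ev 0 (DualNumber.eps : DualNumber K) u).snd • s' := by
  induction hu using LieSubalgebra.lieSpan_induction with
  | mem x hx =>
    obtain ⟨i, rfl⟩ := hx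
    cases i <;> simp
  | zero => simp
  | add u v _ _ hu hv =>
    simp only [map_add, hu, hv, TrivSqZeroExt.snd_add, add_smul]; abel
  | smul c u _ hu =>
    simp only [map_smul, hu, TrivSqZeroExt.snd_smul, smul_add, smul_eq_mul, mul_smul]
  | lie u v _ _ hu hv =>
    have e1 : ∀ p q : DualNumber K, ev p q ⁅u, v⁆ = 0 := by
      intro p q
      rw [LieRing.of_associative_ring_bracket, map_sub, map_mul, map_mul, mul_comm, sub_self]
    rw [e1, e1, LieRing.of_associative_ring_bracket, map_sub, map_mul, map_mul, hu, hv, map_sub,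
      map_mul, map_mul]
    simp only [TrivSqZeroExt.snd_zero, zero_smul, add_zero]
    generalize (ev (DualNumber.eps : DualNumber K) 0 u).snd = c1
    generalize (ev 0 (DualNumber.eps : DualNumber K) u).snd = c2
    generalize (ev (DualNumber.eps : DualNumber K) 0 v).snd = c3
    generalize (ev 0 (DualNumber.eps : DualNumber K) v).snd = c4
    have k1 : Commute (c1 • s + c2 • s') (ev a b v) :=
      ((commute_ev h1 h2 v).smul_left c1).add_left ((commute_ev h3 h4 v).smul_left c2)
    have k2 : Commute (c3 • s + c4 • s') (ev a b u) :=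
      ((commute_ev h1 h2 u).smul_left c3).add_left ((commute_ev h3 h4 u).smul_left c4)
    have k3 : Commute (c1 • s + c2 • s') (c3 • s + c4 • s') :=
      ((((Commute.refl s).smul_left c1).smul_right c3).add_right
        ((h5.smul_left c1).smul_right c4)).add_left
      (((h5.symm.smul_left c2).smul_right c3).add_right
        (((Commute.refl s').smul_left c2).smul_right c4))
    rw [add_assoc, add_assoc]
    generalize c1 • s + c2 • s' = S at k1 k3
    generalize c3 • s + c4 • s' = S' at k2 k3
    rw [add_mul, add_mul, mul_add, mul_add, mul_add, mul_add, k1.eq, k2.eq, k3.eq]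
    abel

theorem ev_sq_zero {p q : B} (h1 : p * p = 0) (h2 : p * q = 0) (h3 : q * p = 0) (h4 : q * q = 0)
    {u : FreeAlgebra K Bool} (hu : u ∈ Ge K 2) : ev p q u = 0 := by
  induction hu using Submodule.span_induction with
  | mem v hv =>
    obtain ⟨l, hl, rfl⟩ := hv
    rcases l with _ | ⟨s, _ | ⟨t, l⟩⟩
    · simp at hl
    · simp at hl
    · simp only [List.map_cons, List.prod_cons, map_mul, ← mul_assoc]
      cases s <;> cases t <;> simp [h1, h2, h3, h4]
  | zero => simp
  | add u v _ _ hu hv => rw [map_add, hu, hv, add_zero]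
  | smul c u _ hu => rw [map_smul, hu, smul_zero]

/-- Shift invariance of a Lie polynomial without linear terms. -/
theorem shift {a b s s' : B} (h1 : Commute s a) (h2 : Commute s b) (h3 : Commute s' a)
    (h4 : Commute s' b) (h5 : Commute s s') {u : FreeAlgebra K Bool} (hu : u ∈ Lie2 K)
    (h : u ∈ Ge K 2) : ev (a + s) (b + s') u = ev a b u := by
  rw [shift_aux h1 h2 h3 h4 h5 hu,
    ev_sq_zero (p := (DualNumber.eps : DualNumber K)) (q := 0) (by simp) (by simp) (by simp)
      (by simp) h,
    ev_sq_zero (q := (DualNumber.eps : DualNumber K)) (p := 0) (by simp) (by simp) (by simp)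
      (by simp) h]
  simp

theorem shift_l {a b s : B} (h1 : Commute s a) (h2 : Commute s b) {u : FreeAlgebra K Bool}
    (hu : u ∈ Lie2 K) (h : u ∈ Ge K 2) : ev (a + s) b u = ev a b u := by
  simpa using shift h1 h2 (Commute.zero_left a) (Commute.zero_left b) (Commute.zero_right s) hu h

theorem shift_r {a b s : B} (h1 : Commute s a) (h2 : Commute s b) {u : FreeAlgebra K Bool}
    (hu : u ∈ Lie2 K) (h : u ∈ Ge K 2) : ev a (b + s) u = ev a b u := by
  simpa using shift (Commute.zero_left a) (Commute.zero_left b) h1 h2 (Commute.zero_left s) hu h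

theorem ev_comm {a b : B} (hab : Commute a b) {u : FreeAlgebra K Bool}
    (hu : u ∈ Lie2 K) (h : u ∈ Ge K 2) : ev a b u = 0 := by
  have := shift (a := 0) (b := 0) (Commute.zero_right a) (Commute.zero_right a)
    (Commute.zero_right b) (Commute.zero_right b) hab hu h
  rw [zero_add, zero_add] at this
  rw [this]
  exact ev_sq_zero (by simp) (by simp) (by simp) (by simp) h

/-- The linear pentagon equation for a family in an associative algebra. -/
def PentA (t : Fin 4 → Fin 4 → B) (ψ : FreeAlgebra K Bool) : Prop :=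
  ev (t 0 1) (t 1 2 + t 1 3) ψ + ev (t 0 2 + t 1 2) (t 2 3) ψ =
    ev (t 1 2) (t 2 3) ψ + ev (t 0 1 + t 0 2) (t 1 3 + t 2 3) ψ + ev (t 0 1) (t 1 2) ψ

theorem PentA.univ {ψ : FreeAlgebra K Bool} (h : PentA (tt K) ψ) {t : Fin 4 → Fin 4 → B}
    (ht : Braid t) : PentA t ψ := by
  have hw : ∀ ⦃x y⦄, Rel K x y → FreeAlgebra.lift K (fun p : Fin 4 × Fin 4 => t p.1 p.2) x =
      FreeAlgebra.lift K (fun p : Fin 4 × Fin 4 => t p.1 p.2) y := by
    intro x y h
    cases h with
    | diag i => simp [ht.diag]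
    | symm i j => simp [ht.symm i j]
    | tri i j k h =>
      have := ht.tri i j k h
      rw [LieRing.of_associative_ring_bracket, sub_eq_zero] at this
      simpa using this
    | far i j k l h =>
      have := ht.far i j k l h
      rw [LieRing.of_associative_ring_bracket, sub_eq_zero] at this
      simpa using this
  let F : RingQuot (Rel K) →ₐ[K] B := RingQuot.liftAlgHom K ⟨_, hw⟩
  have hF : ∀ i j, F (tt K i j) = t i j := by
    intro i j
    simp only [F, tt]
    rw [RingQuot.liftAlgHom_mkAlgHom_apply]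
    simp
  have := congrArg F h
  simp only [map_add, map_ev, hF] at this
  exact this

/-- The two-cycle relation follows from the pentagon. -/
theorem two_cycle {ψ : FreeAlgebra K Bool} (hL : ψ ∈ Lie2 K) (h2 : ψ ∈ Ge K 2)
    (h : PentA (tt K) ψ) (x y : B) : ev x y ψ + ev y x ψ = 0 := by
  let t : Fin 4 → Fin 4 → B :=
    ![![0, x, -x - y, y], ![x, 0, y, -x - y], ![-x - y, y, 0, x], ![y, -x - y, x, 0]]
  have ht : Braid t := by
    refine ⟨fun i => ?_, fun i j => ?_, fun i j k h => ?_, fun i j k l h => ?_⟩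
    · fin_cases i <;> rfl
    · fin_cases i <;> fin_cases j <;> rfl
    · fin_cases i <;> fin_cases j <;> fin_cases k <;>
        first
        | exact absurd h (by decide)
        | (simp only [t, LieRing.of_associative_ring_bracket]; simp; try noncomm_ring)
    · fin_cases i <;> fin_cases j <;> fin_cases k <;> fin_cases l <;>
        first
        | exact absurd h (by decide)
        | exact lie_self _
  have := h.univ ht
  change ev x (y + (-x - y)) ψ + ev (-x - y + y) x ψ =
    ev y x ψ + ev (x + (-x - y)) (-x - y + x) ψ + ev x y ψ at this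
  have e1 : y + (-x - y) = -x := by abel
  have e2 : -x - y + y = -x := by abel
  have e3 : x + (-x - y) = -y := by abel
  have e4 : -x - y + x = -y := by abel
  rw [e1, e2, e3, e4, ev_comm (Commute.refl x).neg_right hL h2,
    ev_comm (Commute.refl x).neg_left hL h2, ev_comm (Commute.refl (-y)) hL h2] at this
  rw [add_zero, add_zero, add_comm] at this
  exact this.symm

/-- The relations of the sphere braid Lie algebra on five points. -/
structure P5 (X : Fin 5 → Fin 5 → B) : Prop where
  diag : ∀ i, X i i = 0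
  symm : ∀ i j, X i j = X j i
  tri : ∀ i j k l m, [i, j, k, l, m].Nodup → X i j + X i k + X j k = X l m
  far : ∀ i j k l, [i, j, k, l].Nodup → Commute (X i j) (X k l)

theorem P5.braid {X : Fin 5 → Fin 5 → B} (h : P5 X) {f : Fin 4 → Fin 5}
    (hf : Function.Injective f) : Braid fun i j => X (f i) (f j) where
  diag i := h.diag _
  symm i j := h.symm _ _
  tri i j k hn := by
    have h3 : ∀ i j k : Fin 5, [i, j, k].Nodup →
        ∃ l m, [i, j, k, l, m].Nodup ∧ [i, j, l, m].Nodup := by decide
    obtain ⟨l, m, h5, h4⟩ := h3 (f i) (f j) (f k) (hn.map hf)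
    have e : X (f i) (f k) + X (f j) (f k) = X l m - X (f i) (f j) := by
      rw [← h.tri _ _ _ _ _ h5]; abel
    rw [e, lie_sub, lie_self, sub_zero, LieRing.of_associative_ring_bracket, sub_eq_zero]
    exact h.far _ _ _ _ h4
  far i j k l hn := by
    rw [LieRing.of_associative_ring_bracket, sub_eq_zero]
    exact h.far _ _ _ _ (hn.map hf)

/-- The five-cycle relation, for every order of the five points. -/
theorem five_cycle {ψ : FreeAlgebra K Bool} (hL : ψ ∈ Lie2 K) (h2 : ψ ∈ Ge K 2)
    (h : PentA (tt K) ψ) {X : Fin 5 → Fin 5 → B} (hX : P5 X) (i j k l m : Fin 5)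
    (hn : [i, j, k, l, m].Nodup) :
    ev (X i j) (X j k) ψ + ev (X j k) (X k l) ψ + ev (X k l) (X l m) ψ + ev (X l m) (X m i) ψ +
      ev (X m i) (X i j) ψ = 0 := by
  have hd : ∀ i j k l m : Fin 5, [i, j, k, l, m].Nodup → Function.Injective ![i, j, k, l] ∧
      [j, k, l, m, i].Nodup ∧ [k, l, i, j].Nodup ∧ [k, l, m, i].Nodup ∧ [i, j, l, m].Nodup ∧
      [i, j, k, l].Nodup ∧ [j, k, l, m].Nodup ∧ [j, k, m, i].Nodup := by decide
  obtain ⟨hf, n1, n2, n3, n4, n5, n6, n7⟩ := hd i j k l m hn
  have := h.univ (hX.braid hf)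
  change ev (X i j) (X j k + X j l) ψ + ev (X i k + X j k) (X k l) ψ =
    ev (X j k) (X k l) ψ + ev (X i j + X i k) (X j l + X k l) ψ + ev (X i j) (X j k) ψ at this
  have t1 := hX.tri _ _ _ _ _ hn
  have t2 := hX.tri _ _ _ _ _ n1
  have e1 : X j k + X j l = X m i + -X k l := by rw [← t2]; abel
  have e2 : X i k + X j k = X l m + -X i j := by rw [← t1]; abel
  have e3 : X i j + X i k = X l m + -X j k := by rw [← t1]; abel
  have e4 : X j l + X k l = X m i + -X j k := by rw [← t2]; abel
  rw [e1, e2, e3, e4, shift_r (hX.far _ _ _ _ n2).neg_left (hX.far _ _ _ _ n3).neg_left hL h2,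
    shift_l (hX.far _ _ _ _ n4).neg_left (hX.far _ _ _ _ n5).neg_left hL h2,
    shift (hX.far _ _ _ _ n6).neg_left (hX.far _ _ _ _ n7).neg_left (hX.far _ _ _ _ n6).neg_left
      (hX.far _ _ _ _ n7).neg_left (Commute.refl _) hL h2] at this
  have c1 := two_cycle hL h2 h (X m i) (X i j)
  have c2 := two_cycle hL h2 h (X k l) (X l m)
  linear_combination (norm := abel) c1 + c2 - this

set_option linter.unusedSimpArgs false in
/-- The signed sum of the twelve pentagons. -/
theorem twelve {M : Type*} [AddCommGroup M] (e : Fin 5 → Fin 5 → Fin 5 → M)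
    (hr : ∀ i j k, e k j i = -e i j k)
    (hP : ∀ i j k l m, [i, j, k, l, m].Nodup → e i j k + e j k l + e k l m + e l m i + e m i j = 0) :
    2 • ((e 3 4 0 + e 4 0 3 + e 0 3 4) + (e 3 4 1 + e 4 1 3 + e 1 3 4) +
      (e 3 4 2 + e 4 2 3 + e 2 3 4)) = 0 := by
  have h0 := hP 0 3 4 1 2 (by decide)
  have h1 := hP 0 3 4 2 1 (by decide)
  have h2 := hP 0 3 1 4 2 (by decide)
  have h3 := hP 0 3 1 2 4 (by decide)
  have h4 := hP 0 3 2 4 1 (by decide)
  have h5 := hP 0 3 2 1 4 (by decide)
  have h6 := hP 0 4 3 1 2 (by decide)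
  have h7 := hP 0 4 3 2 1 (by decide)
  have h8 := hP 0 4 1 3 2 (by decide)
  have h9 := hP 0 4 2 3 1 (by decide)
  have h10 := hP 0 1 3 4 2 (by decide)
  have h11 := hP 0 1 4 3 2 (by decide)
  simp only [hr 0 1 2, hr 0 1 3, hr 0 1 4, hr 0 2 1, hr 0 2 3, hr 0 2 4, hr 0 3 1, hr 0 3 2, hr
    0 3 4, hr 0 4 1, hr 0 4 2, hr 0 4 3, hr 1 0 2, hr 1 0 3, hr 1 0 4, hr 1 2 3, hr 1 2 4, hr 1
    3 2, hr 1 3 4, hr 1 4 2, hr 1 4 3, hr 2 0 3, hr 2 0 4, hr 2 1 3, hr 2 1 4, hr 2 3 4, hr 2 4
    3, hr 3 0 4, hr 3 1 4, hr 3 2 4] at h0 h1 h2 h3 h4 h5 h6 h7 h8 h9 h10 h11 ⊢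
  linear_combination (norm := abel) h0 + h1 - h2 + h3 - h4 + h5 - h6 - h7 + h8 + h9 + h10 - h11

/-- The left side of the three-cycle relation. -/
def hex (x y : B) (ψ : FreeAlgebra K Bool) : B :=
  ev x y ψ + ev y (-x - y) ψ + ev (-x - y) x ψ

theorem map_hex (F : B →ₐ[K] B') (x y : B) (ψ : FreeAlgebra K Bool) :
    F (hex x y ψ) = hex (F x) (F y) ψ := by
  simp only [hex, map_add, map_ev, map_sub, map_neg]

theorem P5.hex_eq {ψ : FreeAlgebra K Bool} (hL : ψ ∈ Lie2 K) (h2 : ψ ∈ Ge K 2)
    {X : Fin 5 → Fin 5 → B} (hX : P5 X) (i j k l m : Fin 5) (hn : [i, j, k, l, m].Nodup) :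
    ev (X i j) (X j k) ψ + ev (X j k) (X k i) ψ + ev (X k i) (X i j) ψ = hex (X i j) (X j k) ψ := by
  have hd : ∀ i j k l m : Fin 5, [i, j, k, l, m].Nodup →
      [l, m, i, j].Nodup ∧ [l, m, j, k].Nodup := by decide
  obtain ⟨n1, n2⟩ := hd i j k l m hn
  have e : X k i = (-X i j - X j k) + X l m := by
    rw [← hX.tri _ _ _ _ _ hn, hX.symm k i]; abel
  have c1 := hX.far _ _ _ _ n1
  have c2 := hX.far _ _ _ _ n2
  rw [e, shift_r c2 (c1.neg_right.sub_right c2) hL h2, shift_l (c1.neg_right.sub_right c2) c1 hL h2]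
  rfl

theorem P5.three_hex {ψ : FreeAlgebra K Bool} (hL : ψ ∈ Lie2 K) (h2 : ψ ∈ Ge K 2)
    (h : PentA (tt K) ψ) {X : Fin 5 → Fin 5 → B} (hX : P5 X) :
    2 • (hex (X 3 4) (X 4 0) ψ + hex (X 3 4) (X 4 1) ψ + hex (X 3 4) (X 4 2) ψ) = 0 := by
  have := twelve (fun i j k => ev (X i j) (X j k) ψ)
    (fun i j k => by
      rw [eq_neg_iff_add_eq_zero, hX.symm k j, hX.symm j i]
      exact two_cycle hL h2 h _ _)
    (five_cycle hL h2 h hX)
  rwa [hX.hex_eq hL h2 3 4 0 1 2 (by decide), hX.hex_eq hL h2 3 4 1 0 2 (by decide),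
    hX.hex_eq hL h2 3 4 2 0 1 (by decide)] at this

/-- The family with fibre generators `a, b, c` (point 4) and base generators `p, q`. -/
def fam (a b c p q : B) : Fin 5 → Fin 5 → B :=
  ![![0, -a - b - c - p - q, p, q + b + c, a],
    ![-a - b - c - p - q, 0, q, p + a + c, b],
    ![p, q, 0, -c - p - q, c],
    ![q + b + c, p + a + c, -c - p - q, 0, -a - b - c],
    ![a, b, c, -a - b - c, 0]]

theorem p5_fam {a b c p q : B} (pa : p * a = a * p + (a * c - c * a)) (pb : p * b = b * p)
    (pc : p * c = c * p + (c * a - a * c)) (qa : q * a = a * q)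
    (qb : q * b = b * q + (b * c - c * b)) (qc : q * c = c * q + (c * b - b * c)) :
    P5 (fam a b c p q) := by
  refine ⟨fun i => ?_, fun i j => ?_, fun i j k l m h => ?_, fun i j k l h => ?_⟩
  · fin_cases i <;> rfl
  · fin_cases i <;> fin_cases j <;> rfl
  · have h4 : [i, j, k, l].Nodup := h.sublist (by simp)
    have h3 : [i, j, k].Nodup := h.sublist (by simp)
    have h2 : [i, j].Nodup := h.sublist (by simp)
    fin_cases i <;> fin_cases j <;> (try exact absurd h2 (by decide)) <;> fin_cases k <;>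
      (try exact absurd h3 (by decide)) <;> fin_cases l <;> (try exact absurd h4 (by decide)) <;>
      fin_cases m <;>
      first
      | exact absurd h (by decide)
      | (simp only [fam]; simp; try abel)
  · have h3 : [i, j, k].Nodup := h.sublist (by simp)
    have h2 : [i, j].Nodup := h.sublist (by simp)
    fin_cases i <;> fin_cases j <;> (try exact absurd h2 (by decide)) <;> fin_cases k <;>
      (try exact absurd h3 (by decide)) <;> fin_cases l <;>
      first
      | exact absurd h (by decide)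
      | (change (_ : B) * _ = _ * _
         simp only [fam, Fin.mk_one, Fin.zero_eta, Fin.reduceFinMk, Matrix.cons_val,
           Matrix.cons_val_zero, Matrix.cons_val_one, mul_add, add_mul, mul_sub, sub_mul, mul_neg,
           neg_mul, pa, pb, pc, qa, qb, qc]
         try abel)

/-- The derivation of the free algebra with prescribed values on the letters. -/
def derAux {X : Type*} (δ : X → FreeAlgebra K X) :
    FreeAlgebra K X →ₐ[K] Module.End K (FreeAlgebra K X × FreeAlgebra K X) :=
  FreeAlgebra.lift K fun x =>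
    ((LinearMap.mulLeft K (FreeAlgebra.ι K x)) ∘ₗ LinearMap.fst K _ _).prod
      ((LinearMap.mulLeft K (δ x)).coprod (LinearMap.mulLeft K (FreeAlgebra.ι K x)))

theorem derAux_ι {X : Type*} (δ : X → FreeAlgebra K X) (x : X) (u v : FreeAlgebra K X) :
    derAux δ (FreeAlgebra.ι K x) (u, v) =
      (FreeAlgebra.ι K x * u, δ x * u + FreeAlgebra.ι K x * v) := by
  simp [derAux]

theorem derAux_fst {X : Type*} (δ : X → FreeAlgebra K X) (f u v : FreeAlgebra K X) :
    (derAux δ f (u, v)).1 = f * u := by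
  induction f using FreeAlgebra.induction generalizing u v with
  | grade0 r => rw [AlgHom.commutes]; simp [Algebra.smul_def]
  | grade1 x => rw [derAux_ι]
  | mul f g hf hg =>
    rw [map_mul, Module.End.mul_apply]
    have : derAux δ g (u, v) = (g * u, (derAux δ g (u, v)).2) := Prod.ext (hg u v) rfl
    rw [this, hf, mul_assoc]
  | add f g hf hg => rw [map_add, LinearMap.add_apply, Prod.fst_add, hf, hg, add_mul]

/-- The derivation of the free algebra sending the letter `x` to `δ x`. -/
def der {X : Type*} (δ : X → FreeAlgebra K X) : Module.End K (FreeAlgebra K X) :=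
  (LinearMap.snd K _ _) ∘ₗ (LinearMap.applyₗ ((1 : FreeAlgebra K X), (0 : FreeAlgebra K X))) ∘ₗ
    (derAux δ).toLinearMap

theorem der_ι_mul {X : Type*} (δ : X → FreeAlgebra K X) (x : X) (u : FreeAlgebra K X) :
    der δ (FreeAlgebra.ι K x * u) = δ x * u + FreeAlgebra.ι K x * der δ u := by
  change (derAux δ (FreeAlgebra.ι K x * u) (1, 0)).2 = _
  rw [map_mul, Module.End.mul_apply]
  have : derAux δ u (1, 0) = (u, der δ u) := Prod.ext (by rw [derAux_fst, mul_one]) rfl
  rw [this, derAux_ι]

theorem der_lmul {X : Type*} (δ : X → FreeAlgebra K X) (x : X) :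
    der δ * Algebra.lmul K _ (FreeAlgebra.ι K x) =
      Algebra.lmul K _ (FreeAlgebra.ι K x) * der δ + Algebra.lmul K _ (δ x) := by
  refine LinearMap.ext fun u => ?_
  simp only [Module.End.mul_apply, LinearMap.add_apply, Algebra.coe_lmul_eq_mul,
    LinearMap.mul_apply', der_ι_mul]
  abel

/-- A five-point family whose fibre is the free algebra on three letters. -/
theorem exists_p5_free (K : Type*) [CommRing K] :
    ∃ p q : Module.End K (FreeAlgebra K (Fin 3)),
      P5 (fam (Algebra.lmul K _ (FreeAlgebra.ι K 0)) (Algebra.lmul K _ (FreeAlgebra.ι K 1))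
        (Algebra.lmul K _ (FreeAlgebra.ι K 2)) p q) := by
  let a : FreeAlgebra K (Fin 3) := FreeAlgebra.ι K 0
  let b : FreeAlgebra K (Fin 3) := FreeAlgebra.ι K 1
  let c : FreeAlgebra K (Fin 3) := FreeAlgebra.ι K 2
  refine ⟨der ![a * c - c * a, 0, c * a - a * c], der ![0, b * c - c * b, c * b - b * c],
    p5_fam ?_ ?_ ?_ ?_ ?_ ?_⟩ <;> rw [der_lmul] <;>
    simp only [a, b, c, Matrix.cons_val_zero, Matrix.cons_val_one, Matrix.cons_val, map_sub,
      map_mul, map_zero, add_zero]

theorem hex_three {ψ : FreeAlgebra K Bool} (hL : ψ ∈ Lie2 K) (h2 : ψ ∈ Ge K 2)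
    (h : PentA (tt K) ψ) (a b c : B) :
    2 • (hex (-a - b - c) a ψ + hex (-a - b - c) b ψ + hex (-a - b - c) c ψ) = 0 := by
  obtain ⟨p, q, hX⟩ := exists_p5_free K
  have h1 := hX.three_hex hL h2 h
  let L := Algebra.lmul K (FreeAlgebra K (Fin 3))
  let a' : FreeAlgebra K (Fin 3) := FreeAlgebra.ι K 0
  let b' : FreeAlgebra K (Fin 3) := FreeAlgebra.ι K 1
  let c' : FreeAlgebra K (Fin 3) := FreeAlgebra.ι K 2
  change 2 • (hex (-L a' - L b' - L c') (L a') ψ + hex (-L a' - L b' - L c') (L b') ψ +
    hex (-L a' - L b' - L c') (L c') ψ) = 0 at h1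
  have h3 : 2 • (hex (-a' - b' - c') a' ψ + hex (-a' - b' - c') b' ψ +
      hex (-a' - b' - c') c' ψ) = 0 := by
    apply Algebra.lmul_injective (R := K)
    rw [map_zero, ← h1]
    simp only [map_nsmul, map_add, map_hex, map_sub, map_neg, L]
  have h4 := congrArg (FreeAlgebra.lift K ![a, b, c]) h3
  simpa only [map_nsmul, map_add, map_hex, map_sub, map_neg, map_zero, a', b', c',
    FreeAlgebra.lift_ι_apply, Matrix.cons_val_zero, Matrix.cons_val_one, Matrix.cons_val]
    using h4

theorem ev_smul_word (c : K) (p q : B) (l : List Bool) :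
    ev (c • p) (c • q) (l.map (FreeAlgebra.ι K)).prod =
      c ^ l.length • ev p q (l.map (FreeAlgebra.ι K)).prod := by
  induction l with
  | nil => simp
  | cons s l ih =>
    simp only [List.map_cons, List.prod_cons, map_mul, ih, List.length_cons, pow_succ]
    cases s <;> simp [smul_smul, mul_comm]

end Basic

theorem eq_zero_of_mem_span_eigen {K V : Type*} [Field K] [AddCommGroup V] [Module K V]
    (f : Module.End K V) {v : V} (h : v ∈ Submodule.span K {v | ∃ c : K, c ≠ 0 ∧ f v = c • v})
    (hv : f v = 0) : v = 0 := by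
  have h1 := (Module.End.eigenspaces_iSupIndep f) 0
  have h2 : Submodule.span K {v | ∃ c : K, c ≠ 0 ∧ f v = c • v} ≤
      ⨆ j, ⨆ (_ : j ≠ (0 : K)), f.eigenspace j := by
    rw [Submodule.span_le]
    rintro u ⟨c, hc, hu⟩
    exact Submodule.mem_iSup_of_mem c
      (Submodule.mem_iSup_of_mem hc (Module.End.mem_eigenspace_iff.2 hu))
  exact (Submodule.disjoint_def.1 h1) v (Module.End.mem_eigenspace_iff.2 (by simp [hv])) (h2 h)

section Main

variable {K : Type*} [Field K] [CharZero K] {B : Type*} [Ring B] [Algebra K B]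

theorem hex_add {ψ : FreeAlgebra K Bool} (hL : ψ ∈ Lie2 K) (h2 : ψ ∈ Ge K 2)
    (h : PentA (tt K) ψ) (d a b : B) : hex d (a + b) ψ = hex d a ψ + hex d b ψ := by
  have h1 := hex_three hL h2 h a b (-d - (a + b))
  have e : -a - b - (-d - (a + b)) = d := by abel
  rw [e, two_nsmul, ← two_smul K, smul_eq_zero_iff_right (two_ne_zero' K)] at h1
  have e2 : -d - (-d - (a + b)) = a + b := by abel
  have c1 := two_cycle hL h2 h d (a + b)
  have c2 := two_cycle hL h2 h (a + b) (-d - (a + b))
  have c3 := two_cycle hL h2 h (-d - (a + b)) d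
  simp only [hex, e2] at h1 ⊢
  linear_combination (norm := abel) c1 + c2 + c3 - h1

omit [CharZero K] in
theorem hex_swap {ψ : FreeAlgebra K Bool} (hL : ψ ∈ Lie2 K) (h2 : ψ ∈ Ge K 2)
    (h : PentA (tt K) ψ) (x y : B) : hex y x ψ = -hex x y ψ := by
  have e : -y - x = -x - y := by abel
  have c1 := two_cycle hL h2 h x y
  have c2 := two_cycle hL h2 h x (-x - y)
  have c3 := two_cycle hL h2 h y (-x - y)
  simp only [hex, e]
  linear_combination (norm := abel) c1 + c2 + c3

/-- **Furusho's theorem, Lie version**: the three-cycle relation follows from the pentagon. -/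
theorem three_cycle {ψ : FreeAlgebra K Bool} (hL : ψ ∈ Lie2 K) (h3 : ψ ∈ Ge K 3)
    (h : PentA (tt K) ψ) (x y : B) :
    ev x y ψ + ev y (-x - y) ψ + ev (-x - y) x ψ = 0 := by
  have h2 : ψ ∈ Ge K 2 := Ge.mono (by norm_num) h3
  let X : FreeAlgebra K Bool := FreeAlgebra.ι K false
  let Y : FreeAlgebra K Bool := FreeAlgebra.ι K true
  let σ : FreeAlgebra K Bool →ₐ[K] FreeAlgebra K Bool := ev ((2 : K) • X) ((2 : K) • Y)
  have hX : σ X = (2 : K) • X := by simp [σ, X]
  have hY : σ Y = (2 : K) • Y := by simp [σ, Y]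
  let f : Module.End K (FreeAlgebra K Bool) := σ.toLinearMap - (4 : K) • LinearMap.id
  have hf : ∀ v, f v = σ v - (4 : K) • v := fun v => rfl
  have key : ∀ p q : FreeAlgebra K Bool, σ p = (2 : K) • p → σ q = (2 : K) • q →
      ev p q ψ ∈ Submodule.span K {v | ∃ c : K, c ≠ 0 ∧ f v = c • v} := by
    intro p q hp hq
    clear hL h2 h
    induction h3 using Submodule.span_induction with
    | mem v hv =>
      obtain ⟨l, hl, rfl⟩ := hv
      refine Submodule.subset_span ⟨2 ^ l.length - 4, ?_, ?_⟩
      · have h8 : 2 ^ 3 ≤ 2 ^ l.length := Nat.pow_le_pow_right (by norm_num) hl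
        have h9 : ((2 ^ l.length : ℕ) : K) ≠ ((4 : ℕ) : K) := by
          rw [Ne, Nat.cast_inj]; omega
        rw [sub_ne_zero]
        exact_mod_cast h9
      · rw [hf, map_ev, hp, hq, ev_smul_word, sub_smul]
    | zero => simp
    | add u v _ _ hu hv => rw [map_add]; exact add_mem hu hv
    | smul c u _ hu => rw [map_smul]; exact Submodule.smul_mem _ c hu
  have hZ : σ (-X - Y) = (2 : K) • (-X - Y) := by
    rw [map_sub, map_neg, hX, hY, smul_sub, smul_neg]
  have h0 : hex X Y ψ = 0 := by
    refine eq_zero_of_mem_span_eigen f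
      (add_mem (add_mem (key _ _ hX hY) (key _ _ hY hZ)) (key _ _ hZ hX)) ?_
    rw [hf, map_hex, hX, hY, two_smul, two_smul, hex_add hL h2 h, hex_swap hL h2 h Y (X + X),
      hex_add hL h2 h, hex_swap hL h2 h X Y, show (4 : K) = 1 + 1 + 1 + 1 by norm_num]
    simp only [add_smul, one_smul]
    abel
  have := congrArg (ev x y) h0
  rw [map_hex, map_zero] at this
  simpa [X, Y, hex] using this

end Main

end Pool.Agent.DD.H56
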