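import Pool.Agent.Lib.DD.F_CORE

/-! Any larger family of Lie polynomials with the two properties modulo 2 equals `G`. -/

set_option autoImplicit false

noncomputable section

namespace Pool.Agent.DD.F

open Pool.Agent.DR Pool.Agent.DD.S39 Pool.Agent.DD.H56

attribute [local instance 100] LieRing.ofAssociativeRing

theorem upper (hL : St_LAT) (hC : St_CL) (hE : St_EX) (hD : St_DEP) (hR : St_DROP) (hS : St_STAR)
    (hG : St_GAM) (hP : St_PHI) (hM : St_MOD) {n : ℕ} (hn : 3 ≤ n) (P : Submodule ℚ (FA ℚ))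
    (h0 : GS n ≤ P)
    (h1 : ∀ ψ : FA ℤ, up ψ ∈ P → ψ ∈ Hn ℤ n ∧ ∃ m : ℤ, m ≠ 0 ∧ IsLie (m • ψ))
    (h2 : ∀ ψ : FA ℤ, up ψ ∈ P → ψ ∈ J → ∃ φ : FA ℤ, ψ = (2 : ℤ) • φ)
    (h3 : ∀ ψ : FA ℤ, up ψ ∈ P → ∃ u ∈ Subring.closure {aa, bb 0}, ψ - u ∈ J) : P = GS n := by
  refine le_antisymm (fun ψ hψ => ?_) h0
  choose s s1 s2 using gens hL hC hE hD hR hS hG hP hM
  obtain ⟨Γ, g1, -, g3⟩ := hG
  let Q : Submodule ℤ (FA ℤ) := (P.restrictScalars ℤ).comap up.toLinearMap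
  have hfg : Q.FG := by
    refine Submodule.FG.of_le (T := Hn ℤ n) ?_ fun ψ h => (h1 ψ h).1
    exact Submodule.fg_span ((List.finite_length_eq Bool n).image _)
  have hle : Q ≤ LZ n ⊔ Ideal.span {(2 : ℤ)} • Q := by
    intro φ h
    obtain ⟨a0, m, hm, hl⟩ := h1 φ h
    have a1 := g1 n _ hn (Submodule.smul_mem _ m a0) hl
    have a2 := g3 n φ hn a0 ⟨m, hm, hl⟩ (h3 φ h)
    have b1 : ∀ g ∈ LW ℤ n, phi s g ∈ LZ n := fun g hg => by
      induction hg using Submodule.span_induction with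
      | mem u hu => exact (monG hL hC hP s hu fun k _ => s1 k).1
      | zero => simp
      | add p q _ _ hp hq => exact map_add (phi s) p q ▸ add_mem hp hq
      | smul c p _ hp => exact map_smul (phi s) c p ▸ Submodule.smul_mem _ c hp
    have c1 := b1 _ a1
    rw [map_smul, map_smul] at c1
    have c2 := LZ_sat hm c1
    have c3 : φ - phi s (Γ φ) ∈ Q := sub_mem h (h0 c2)
    obtain ⟨χ, d2⟩ := h2 _ c3 (by simpa using J.sub_mem a2 (hM s s2 (Γ φ)))
    have d1 : χ ∈ Q := by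
      have : ((2 : ℤ) : ℚ) • up χ ∈ P := by
        rw [Int.cast_smul_eq_zsmul, ← map_zsmul, ← d2]
        exact c3
      exact (P.smul_mem_iff (by norm_num)).1 this
    rw [sub_eq_iff_eq_add'.1 d2]
    exact Submodule.add_mem_sup c2 (Submodule.smul_mem_smul (Ideal.mem_span_singleton_self _) d1)
  obtain ⟨r, hr, hr2⟩ := Submodule.exists_sub_one_mem_and_smul_le_of_fg_of_le_sup hfg le_rfl hle
  have r0 : r ≠ 0 := by
    rintro rfl
    rw [Ideal.mem_span_singleton] at hr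
    omega
  obtain ⟨m, hm, φ, e⟩ := hL.2.2.1 ψ
  have hφ : φ ∈ Q := by
    change up φ ∈ P
    rw [e]
    exact zsmul_mem hψ m
  have h5 : up φ ∈ GS n := LZ_sat r0 (hr2 (Submodule.smul_mem_pointwise_smul φ r _ hφ))
  rw [e, ← Int.cast_smul_eq_zsmul ℚ] at h5
  exact ((GS n).smul_mem_iff (by exact_mod_cast hm)).1 h5

end Pool.Agent.DD.F
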