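import Pool.Agent.Lib.DD.Spec39

/-! The pentagon in a representation of rank three. -/

set_option autoImplicit false

noncomputable section

namespace Pool.Agent.DD.F64

open Pool.Agent.DR Pool.Agent.DD.S39 LinearMap Module

universe v

variable {K : Type v} [CommRing K]

theorem itw {N N' : Type*} [AddCommGroup N] [Module K N] [AddCommGroup N'] [Module K N']
    (l : N →ₗ[K] N') {a b : End K N} {a' b' : End K N'} (ha : ∀ u, l (a u) = a' (l u))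
    (hb : ∀ u, l (b u) = b' (l u)) (ψ : FreeAlgebra K Bool) (u : N) :
    l (ev a b ψ u) = ev a' b' ψ (l u) := by
  induction ψ using ind generalizing u <;> simp [*]

theorem ev_dec {N : Type*} [AddCommGroup N] [Module K N] (a b : End K N) {ψ : FreeAlgebra K Bool}
    (h : IsLie ψ) (u : N) : ev a b ψ u = ev a b (dd 1 0 ψ) (a u) + ev a b (dd 0 1 ψ) (b u) := by
  conv_lhs => rw [dec ψ, h.ep]
  simp

variable {M : Type v} [AddCommGroup M] [Module K M]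

/-- first coordinate -/
def p1 : M × M × M →ₗ[K] M := fst K _ _
/-- second coordinate -/
def p2 : M × M × M →ₗ[K] M := fst K _ _ ∘ₗ snd K _ _
/-- third coordinate -/
def p3 : M × M × M →ₗ[K] M := snd K _ _ ∘ₗ snd K _ _

@[simp] theorem p1_app (w : M × M × M) : p1 (K := K) w = w.1 := rfl
@[simp] theorem p2_app (w : M × M × M) : p2 (K := K) w = w.2.1 := rfl
@[simp] theorem p3_app (w : M × M × M) : p3 (K := K) w = w.2.2 := rfl

variable (e0 e1 f0 f1 : End K M)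

/-- residue along `x = 0` -/
def X0 : End K (M × M × M) := (e0 ∘ₗ p1).prod ((f0 ∘ₗ p2 - f1 ∘ₗ p3).prod (e0 ∘ₗ p3))
/-- residue along `y = 0` -/
def Y0 : End K (M × M × M) := (f0 ∘ₗ p1 + f1 ∘ₗ p3).prod ((f0 ∘ₗ p2 - f1 ∘ₗ p3).prod (e0 ∘ₗ p3))
/-- residue along `x = 1` -/
def X1 : End K (M × M × M) := (e1 ∘ₗ (p1 + p2)).prod 0
/-- residue along `y = 1` -/
def Y1 : End K (M × M × M) := (f1 ∘ₗ (p1 - p3)).prod 0
/-- residue along `x y = 1` -/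
def ZZ : End K (M × M × M) := (0 : _ →ₗ[K] M).prod ((f1 ∘ₗ (p2 + p3)).prod (e1 ∘ₗ (p2 + p3)))
/-- the quotient of rank two -/
def T0 : End K (M × M) := (f0 ∘ₗ fst K _ _ - f1 ∘ₗ snd K _ _).prod (e0 ∘ₗ snd K _ _)
/-- the quotient of rank two -/
def T1 : End K (M × M) := (f1 ∘ₗ (fst K _ _ + snd K _ _)).prod (e1 ∘ₗ (fst K _ _ + snd K _ _))

section
variable (w : M × M × M) (u : M × M)
@[simp] theorem X0_app : X0 e0 f0 f1 w = (e0 w.1, f0 w.2.1 - f1 w.2.2, e0 w.2.2) := rfl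
@[simp] theorem Y0_app : Y0 e0 f0 f1 w = (f0 w.1 + f1 w.2.2, f0 w.2.1 - f1 w.2.2, e0 w.2.2) := rfl
@[simp] theorem X1_app : X1 e1 w = (e1 (w.1 + w.2.1), 0) := rfl
@[simp] theorem Y1_app : Y1 f1 w = (f1 (w.1 - w.2.2), 0) := rfl
@[simp] theorem ZZ_app : ZZ e1 f1 w = (0, f1 (w.2.1 + w.2.2), e1 (w.2.1 + w.2.2)) := rfl
@[simp] theorem T0_app : T0 e0 f0 f1 u = (f0 u.1 - f1 u.2, e0 u.2) := rfl
@[simp] theorem T1_app : T1 e1 f1 u = (f1 (u.1 + u.2), e1 (u.1 + u.2)) := rfl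
end

variable {e0 e1 f0 f1}

theorem pent3 (c00 : ∀ u, e0 (f0 u) = f0 (e0 u)) (c01 : ∀ u, e0 (f1 u) = f1 (e0 u))
    (c10 : ∀ u, e1 (f0 u) = f0 (e1 u)) (c11 : ∀ u, e1 (f1 u) = f1 (e1 u)) {o : M} (he : e0 o = 0) (hf : f0 o = 0) {ψ : FreeAlgebra K Bool}
    (hL : IsLie ψ) (hp : LPent ψ) :
    (ev (T0 e0 f0 f1) (T1 e1 f1) ψ (o, 0)).1 + (ev (T0 e0 f0 f1) (T1 e1 f1) ψ (o, 0)).2 =
      ev e0 e1 ψ o + ev f0 f1 ψ o + ev e1 f1 (dd 1 0 ψ) (e1 o) := by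
  have h10 : Commute e1 f0 := LinearMap.ext c10
  have h11 : Commute e1 f1 := LinearMap.ext c11
  obtain ⟨T, a0, a1, c, b0, b1⟩ : ∃ T : Br (End K (M × M × M)),
      T.a0 = Y0 e0 f0 f1 - X0 e0 f0 f1 - X1 e1 ∧ T.a1 = Y1 f1 ∧ T.c = X1 e1 ∧
        T.b0 = X0 e0 f0 f1 ∧ T.b1 = ZZ e1 f1 := by
    refine ⟨⟨_, _, _, _, _, ?_, ?_, ?_, ?_, ?_, ?_, ?_, ?_⟩, rfl, rfl, rfl, rfl, rfl⟩ <;>
      refine LinearMap.ext fun w => Prod.ext ?_ (Prod.ext ?_ ?_) <;> simp [*] <;> abel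
  have h := congrArg (fun S : End K (M × M × M) => (p1 - p3 : _ →ₗ[K] M) (S (0, o, 0))) (hp _ T)
  simp only [LinearMap.add_apply, map_add, a0, a1, c, b0, b1] at h
  rw [itw (p1 - p3) (a' := e0) (b' := e1) (fun w => by simp) (fun w => by simp; abel),
    ev_dec _ (Y1 f1) hL, ev_dec _ (Y1 f1) hL, ev_dec _ (X1 e1) hL] at h
  have i1 := itw (inl K M (M × M)) (a := e1) (b := f1) (a' := X1 e1) (b' := Y1 f1)
    (fun a => by simp) (fun a => by simp) (dd 1 0 ψ) (e1 o)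
  have i2 := itw (inl K M (M × M)) (a := e0) (b := e1) (a' := X0 e0 f0 f1) (b' := X1 e1)
    (fun a => by simp [Prod.mk_zero_zero]) (fun a => by simp) (dd 0 1 ψ) (e1 o)
  have i3 := itw (p1 + p2) (a := Y0 e0 f0 f1 - X0 e0 f0 f1 - X1 e1 + X0 e0 f0 f1)
    (b := Y1 f1 + ZZ e1 f1) (a' := f0 + -e1) (b' := f1 + 0) (fun w => by simp; abel)
    (fun w => by simp) ψ (0, o, 0)
  have i4 := itw (snd K M (M × M)) (a := Y0 e0 f0 f1 - X0 e0 f0 f1 - X1 e1 + X0 e0 f0 f1)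
    (b := Y1 f1 + ZZ e1 f1) (a' := T0 e0 f0 f1) (b' := T1 e1 f1) (fun w => by simp)
    (fun w => by simp) ψ (0, o, 0)
  rw [hp.shift hL h10.neg_left h11.neg_left (by simp) (by simp) (by simp)] at i3
  rw [ev_dec e0 e1 hL]
  generalize ev (Y0 e0 f0 f1 - X0 e0 f0 f1 - X1 e1 + X0 e0 f0 f1) (Y1 f1 + ZZ e1 f1) ψ (0, o, 0) =
    w at h i3 i4
  simp only [inl_apply, snd_apply] at i1 i2 i4
  simp only [hf, LinearMap.add_apply, LinearMap.sub_apply, X0_app, Y0_app, X1_app, Y1_app,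
    map_zero, zero_add, add_zero, sub_zero, Prod.mk_zero_zero,
    sub_self, p1_app, p2_app, p3_app, zero_sub, neg_add_cancel, ← i1, ← i2,
    Prod.snd_zero] at h i3
  rw [← i4, ← i3, he, map_zero]
  linear_combination (norm := abel) h

end Pool.Agent.DD.F64
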