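import Pool.Agent.Lib.DR.B_SH1
import Mathlib.Algebra.DualNumber

set_option autoImplicit false

noncomputable section

namespace Pool.Agent.DD.S12

open Pool.Agent.DR Finset

universe v

section mat

variable {E : Type*} [Ring E]

/-- right multiplication by `g` on the basis `1, y`, where `y g = g y + d` -/
def mk (g d : E) : Matrix (Fin 2) (Fin 2) E := !![g, 0; d, g]

/-- right multiplication by `y` -/
def Y (E : Type*) [Ring E] : Matrix (Fin 2) (Fin 2) E := !![0, 1; 0, 0]

theorem mk_mul (g d g' d' : E) : mk g d * mk g' d' = mk (g * g') (d * g' + g * d') := by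
  simp [mk]

theorem mk_add (g d g' d' : E) : mk g d + mk g' d' = mk (g + g') (d + d') := by
  simp [mk]

theorem mk_zero : mk (0 : E) 0 = 0 := by
  ext i j
  fin_cases i <;> fin_cases j <;> rfl

theorem mk_congr {g d g' d' : E} (h : g = g') (h' : d = d') : mk g d = mk g' d' := by
  rw [h, h']

theorem Y_sq : Y E * Y E = 0 := by
  ext i j
  fin_cases i <;> fin_cases j <;> simp [Y]

theorem Y_mk (g d : E) (h : d + d = 0) : Y E * mk g d = mk g d * Y E + mk d 0 := by
  ext i j
  fin_cases i <;> fin_cases j <;> simp [Y, mk, h]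

theorem Y_mk0 (g : E) : Y E * mk g 0 = mk g 0 * Y E := by
  rw [Y_mk g 0 (add_zero 0), mk_zero, add_zero]

theorem nf {x y a : E} (hy : y * y = 0) (h : y * x = x * y + a) (u : List Bool) :
    wd x y u = wd (mk x a) (Y E) u 0 0 + wd (mk x a) (Y E) u 0 1 * y ∧
      y * wd x y u = wd (mk x a) (Y E) u 1 0 + wd (mk x a) (Y E) u 1 1 * y := by
  induction u with
  | nil => simp
  | cons s u ih =>
    cases s
    · simp only [wd_false, Matrix.mul_apply, Fin.sum_univ_two, mk, Matrix.of_apply,
        Matrix.cons_val', Matrix.cons_val_zero, Matrix.cons_val_one, Matrix.cons_val_fin_one]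
        at ih ⊢
      constructor
      · linear_combination (norm := noncomm_ring) x * ih.1
      · linear_combination (norm := noncomm_ring) h * wd x y u + x * ih.2 + a * ih.1
    · simp only [wd_true, Matrix.mul_apply, Fin.sum_univ_two, Y, Matrix.of_apply,
        Matrix.cons_val', Matrix.cons_val_zero, Matrix.cons_val_one, Matrix.cons_val_fin_one]
        at ih ⊢
      constructor
      · linear_combination (norm := noncomm_ring) ih.2
      · linear_combination (norm := noncomm_ring) hy * wd x y u

end mat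

variable {R : Type v} [CommRing R] {Φ : List Bool → R}

/-- invariance under shifts by commuting elements -/
def SC (Φ : List Bool → R) : Prop := Φ [] = 1 ∧
  ∀ (B : Type v) [Ring B] [Algebra R B] (p q s : B), Commute s p → Commute s q →
    ser Φ (p + s) q = ser Φ p q ∧ ser Φ p (q + s) = ser Φ p q

/-- exchange the two letters -/
def sw (Φ : List Bool → R) : List Bool → R := fun u => Φ (u.map not)

section alg

variable {B B' : Type v} [Ring B] [Algebra R B] [Ring B'] [Algebra R B']

theorem two (h2 : (2 : R) = 0) (e : B) : e + e = 0 := by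
  rw [← two_smul R e, h2, zero_smul]

theorem wd_not {M : Type*} [Monoid M] (p q : M) (u : List Bool) :
    wd p q (u.map not) = wd q p u := by
  induction u with
  | nil => simp
  | cons s u ih => cases s <;> simp [ih]

theorem ser_sw (p q : B) : ser (sw Φ) p q = ser Φ q p := by
  ext n
  rw [coeff_ser, coeff_ser]
  refine sum_nbij' (List.map not) (List.map not) (by simp [mem_W]) (by simp [mem_W])
    (by simp [Function.comp_def]) (by simp [Function.comp_def]) fun u _ => ?_
  rw [wd_not, sw]

theorem SC.sw (h : SC Φ) : SC (sw Φ) :=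
  ⟨h.1, fun B _ _ p q s hp hq => by
    simp only [ser_sw]
    exact (h.2 B q p s hq hp).symm⟩

theorem ser_zero (h1 : Φ [] = 1) : ser Φ (0 : B) 0 = 1 := by
  ext n
  rw [coeff_ser]
  cases n with
  | zero => simp [W_zero, h1]
  | succ n => simp [sum_W_succ, PowerSeries.coeff_one]

theorem sc_of_pent (h : Pent Φ) (h1 : Φ [] = 1) : SC Φ := by
  refine ⟨h1, fun B _ _ p q s hp hq => ?_⟩
  have pent : ∀ p q s t : B, Commute s p → Commute s q → Commute t p → Commute t q →
      ser Φ s t * ser Φ p q = ser Φ 0 q * ser Φ (p + s) (q + t) * ser Φ s 0 := by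
    intro p q s t a b c d
    have := h B ⟨p, q, 0, s, t, by simpa using a, by simpa using a.symm, Commute.zero_left _,
      Commute.zero_left _, by simpa using d, by simpa using d.symm, b, c.symm⟩
    simpa using this
  have z : ∀ x : B, Commute 0 x := Commute.zero_left
  have e1 : ∀ x : B, ser Φ 0 x = 1 := fun x => by
    have a := pent 0 x 0 0 (z _) (z _) (z _) (z _)
    rw [add_zero, add_zero, ser_zero h1, one_mul, mul_one] at a
    exact SH1.idem h1 a
  have e2 : ∀ x : B, ser Φ x 0 = 1 := fun x => by
    have a := pent 0 0 x 0 (z _).symm (z _).symm (z _) (z _)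
    rw [zero_add, add_zero, ser_zero h1, one_mul, mul_one] at a
    exact SH1.idem h1 a
  constructor
  · have a := pent p q s 0 hp hq (z _) (z _)
    rw [e2, e1, one_mul, one_mul, mul_one, add_zero] at a
    exact a.symm
  · have a := pent p q 0 s (z _) (z _) hp hq
    rw [ser_zero h1, e1, e1, one_mul, one_mul, mul_one, add_zero] at a
    exact a.symm

theorem SC.comm (h : SC Φ) {p q : B} (hc : Commute p q) : ser Φ p q = 1 := by
  have a := (h.2 B 0 q p (Commute.zero_right _) hc).1
  have b := (h.2 B 0 0 q (Commute.zero_right _) (Commute.zero_right _)).2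
  rw [zero_add] at a b
  rw [a, b, ser_zero h.1]

theorem map_ser (f : B →ₐ[R] B') (p q : B) :
    PowerSeries.map (f : B →+* B') (ser Φ p q) = ser Φ (f p) (f q) := by
  ext n
  simp [coeff_ser, map_wd]

/-- the two components of `Φ` modulo `y ^ 2`, as series in `x` and `a = [y, x]` -/
def G (Φ : List Bool → R) (j : Fin 2) (x a : B) : PowerSeries B :=
  PowerSeries.mk fun n => PowerSeries.coeff n (ser Φ (mk x a) (Y B)) 0 j

theorem map_G (f : B →ₐ[R] B') (j : Fin 2) (x a : B) :
    PowerSeries.map (f : B →+* B') (G Φ j x a) = G Φ j (f x) (f a) := by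
  ext n
  have h1 : f.mapMatrix (mk x a) = mk (f x) (f a) := by
    ext i j
    fin_cases i <;> fin_cases j <;> simp [mk]
  have h2 : f.mapMatrix (Y B) = Y B' := by
    ext i j
    fin_cases i <;> fin_cases j <;> simp [Y]
  have h := congrArg (fun s : PowerSeries (Matrix (Fin 2) (Fin 2) B') => PowerSeries.coeff n s 0 j)
    (map_ser (Φ := Φ) f.mapMatrix (mk x a) (Y B))
  simp only [h1, h2, PowerSeries.coeff_map] at h
  simpa [G] using h

theorem ser_nf {x y a : B} (hy : y * y = 0) (h : y * x = x * y + a) (n : ℕ) :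
    PowerSeries.coeff n (ser Φ x y) =
      PowerSeries.coeff n (G Φ 0 x a) + PowerSeries.coeff n (G Φ 1 x a) * y := by
  simp only [G, PowerSeries.coeff_mk, coeff_ser, Matrix.sum_apply, Matrix.smul_apply, sum_mul,
    ← sum_add_distrib, smul_mul_assoc, ← smul_add]
  exact sum_congr rfl fun u _ => by rw [← (nf hy h u).1]

/-- dual numbers as triangular matrices -/
def io (R : Type v) [CommRing R] (B : Type v) [Ring B] [Algebra R B] :
    DualNumber B →ₐ[R] Matrix (Fin 2) (Fin 2) B :=
  DualNumber.lift ⟨(Matrix.scalarAlgHom (Fin 2) R, mk 0 1), by rw [mk_mul]; simpa using mk_zero,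
    fun a => by
      ext i j
      fin_cases i <;> fin_cases j <;> simp [mk]⟩

theorem io_apply (e : DualNumber B) : io R B e = mk e.fst e.snd := by
  rw [io, DualNumber.lift_apply_apply]
  ext i j
  fin_cases i <;> fin_cases j <;> simp [mk]

theorem io_inj : Function.Injective (io R B) := fun e e' h => by
  rw [io_apply, io_apply] at h
  exact TrivSqZeroExt.ext (congrFun (congrFun h 0) 0) (congrFun (congrFun h 1) 0)

theorem SC.y0 (h : SC Φ) (h2 : (2 : R) = 0) {x y a : B} (hy : y * y = 0) (hx : y * x = x * y + a) :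
    ser Φ x y = G Φ 0 x a := by
  ext n
  let f : B →ₐ[R] Matrix (Fin 2) (Fin 2) B := (io R B).comp (TrivSqZeroExt.inlAlgHom R B B)
  have hf : ∀ b, f b = mk b 0 := fun b => by simp [f, io_apply]
  have a1 := ser_nf (Φ := Φ) (x := f x) (y := f y) (a := f a) (by rw [← map_mul, hy, map_zero])
    (by rw [← map_mul, hx, map_add, map_mul]) n
  have a2 := ser_nf (Φ := Φ) (x := f x) (y := f y + mk 0 1) (a := f a)
    (by rw [hf, mk_add, mk_mul, ← mk_zero]; exact mk_congr (by simp [hy]) (by simpa using two h2 y))
    (by simp only [hf, mk_add, mk_mul]; exact mk_congr (by simpa using hx) (by simp)) n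
  rw [(h.2 _ (f x) (f y) (mk 0 1) (by simp [Commute, SemiconjBy, hf, mk_mul])
    (by simp [Commute, SemiconjBy, hf, mk_mul])).2, a1, add_right_inj, mul_add, left_eq_add,
    ← map_G, PowerSeries.coeff_map] at a2
  have a3 : PowerSeries.coeff n (G Φ 1 x a) = 0 := by
    have := congrFun (congrFun a2 1) 0
    simpa [hf, mk_mul, mk] using this
  rw [ser_nf hy hx, a3, zero_mul, add_zero]

theorem SC.heis (h : SC Φ) {w g : B} (hc : Commute w g) : G Φ 0 w g = G Φ 0 0 g := by
  have a := (h.2 _ (mk 0 g) (Y B) (mk w 0) (by simp [Commute, SemiconjBy, mk_mul, hc.eq])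
    (Y_mk0 w).symm).1
  rw [mk_add, zero_add, add_zero] at a
  rw [G, G, a]

theorem SC.G0 (h : SC Φ) (x : B) : G Φ 0 x 0 = 1 := by
  ext n
  rw [G, PowerSeries.coeff_mk, h.comm (Y_mk0 x).symm, PowerSeries.coeff_one, PowerSeries.coeff_one]
  split_ifs <;> simp

theorem G_unit (h1 : Φ [] = 1) (x a : B) : IsUnit (G Φ 0 x a) := by
  rw [PowerSeries.isUnit_iff_constantCoeff, ← PowerSeries.coeff_zero_eq_constantCoeff_apply, G,
    PowerSeries.coeff_mk, coeff_ser, W_zero]
  simp [h1]

/-- the pentagon inside the algebra generated by `u, c, a` -/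
def Id (Φ : List Bool → R) (u c a : B) : Prop :=
  G (sw Φ) 0 (u + c) a * G Φ 0 u a =
    G Φ 0 0 ((u + c) * (u + c)) * ser Φ u (u + c) * G (sw Φ) 0 0 (u * u)

theorem Id.map {u c a : B} (h : Id Φ u c a) (f : B →ₐ[R] B') : Id Φ (f u) (f c) (f a) := by
  have := congrArg (PowerSeries.map (f : B →+* B')) h
  simpa only [Id, map_mul, map_G, map_ser, map_add, map_zero] using this

theorem Id.of_map {u c a : B} (f : B →ₐ[R] B') (hf : Function.Injective f)
    (h : Id Φ (f u) (f c) (f a)) : Id Φ u c a := by
  apply PowerSeries.map_injective (f : B →+* B') hf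
  simpa only [Id, map_mul, map_G, map_ser, map_add, map_zero] using h

theorem desc {u c a du dc da : B} (h : Id Φ (mk u du) (mk c dc) (mk a da)) : Id Φ u c a := by
  have h1 : Id Φ (B := DualNumber B) ⟨u, du⟩ ⟨c, dc⟩ ⟨a, da⟩ :=
    Id.of_map (io R B) io_inj (by rw [io_apply, io_apply, io_apply]; exact h)
  exact h1.map (TrivSqZeroExt.fstHom R B B)

end alg

section tower

variable (h : Pent Φ) (h1 : Φ [] = 1) (h2 : (2 : R) = 0)
include h h1 h2

theorem id3 {B : Type v} [Ring B] [Algebra R B] {u c a w p q : B} (cc : c * c = 0)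
    (wu : w * u = u * w) (wc : w * c = c * w) (pp : p * p = 0) (pu : p * u = u * p)
    (pc : p * c = c * p + a) (pw : p * w = w * p + u * u) (qq : q * q = 0)
    (qu : q * u = u * q + a) (qc : q * c = c * q + a) (qw : q * w = w * q + (u + c) * (u + c))
    (qp : q * p = p * q) : Id Φ u c a := by
  have t := fun e : B => two h2 e
  have s := sc_of_pent h h1
  have wv : Commute w (u + c) := (show Commute w u from wu).add_right wc
  have qv : Commute q (u + c) := by
    rw [Commute, SemiconjBy]
    linear_combination (norm := noncomm_ring) qu + qc + t a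
  have pv : p * (u + c) = (u + c) * p + a := by
    linear_combination (norm := noncomm_ring) pu + pc
  have e := h B ⟨u - p - w, q, w, p, u + c - w - q,
    by rw [Commute, SemiconjBy]; linear_combination (norm := noncomm_ring) pu,
    by rw [Commute, SemiconjBy]; linear_combination (norm := noncomm_ring) -pu - wu,
    by rw [Commute, SemiconjBy]; linear_combination (norm := noncomm_ring) wu,
    by rw [Commute, SemiconjBy]; linear_combination (norm := noncomm_ring) wv.eq,
    by rw [Commute, SemiconjBy]; linear_combination (norm := noncomm_ring) -wv.eq - qv.eq,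
    by rw [Commute, SemiconjBy]; linear_combination (norm := noncomm_ring) qv.eq,
    qp.symm,
    by
      rw [Commute, SemiconjBy]
      linear_combination (norm := noncomm_ring) wu + qu - pv + pw - qp - wv.eq - qw - cc -
        t (c * u)⟩
  dsimp only at e
  rw [show w + (u + c - w - q) = u + c + -q by abel, show u - p - w + w = u + -p by abel,
    show u - p - w + p = u + -w by abel, show q + (u + c - w - q) = u + c + -w by abel,
    (s.2 B p (u + c) (-q) (Commute.neg_left qp) qv.neg_left).2,
    (s.2 B u q (-p) (Commute.neg_left pu) (Commute.neg_left qp.symm)).1,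
    (s.2 B u (u + c + -w) (-w) (Commute.neg_left wu)
      (wv.add_right (Commute.refl w).neg_right).neg_left).1,
    (s.2 B u (u + c) (-w) (Commute.neg_left wu) wv.neg_left).2,
    ← ser_sw (u + c) p, ← ser_sw w p, s.sw.y0 h2 pp pv, s.y0 h2 qq qu, s.y0 h2 qq qw,
    s.sw.y0 h2 pp pw, s.heis (wv.mul_right wv),
    s.sw.heis ((show Commute w u from wu).mul_right wu)] at e
  exact e

theorem id2 {B : Type v} [Ring B] [Algebra R B] {u c a w p : B} (cc : c * c = 0)
    (ca : c * a = a * c) (wu : w * u = u * w) (wc : w * c = c * w)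
    (wa : w * a = a * w + (u * u * c + c * (u * u))) (pp : p * p = 0) (pu : p * u = u * p)
    (pc : p * c = c * p + a) (pa : p * a = a * p) (pw : p * w = w * p + u * u) : Id Φ u c a := by
  have t := fun e : B => two h2 e
  refine desc (id3 h h1 h2 (u := mk u a) (c := mk c a) (a := mk a 0)
    (w := mk w ((u + c) * (u + c))) (p := mk p 0) (q := Y B) ?_ ?_ ?_ ?_ ?_ ?_ ?_ Y_sq
    (Y_mk _ _ (t _)) (Y_mk _ _ (t _)) ?_ (Y_mk0 _))
  · rw [mk_mul, ← mk_zero]
    exact mk_congr cc (by linear_combination (norm := noncomm_ring) ca + t (a * c))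
  · rw [mk_mul, mk_mul]
    exact mk_congr wu (by
      linear_combination (norm := noncomm_ring) wa + cc * u - u * cc + t (c * u * u))
  · rw [mk_mul, mk_mul]
    exact mk_congr wc (by
      linear_combination (norm := noncomm_ring) wa + u * cc - cc * u + t (u * u * c))
  · rw [mk_mul, ← mk_zero]
    exact mk_congr pp (by simp)
  · rw [mk_mul, mk_mul]
    exact mk_congr pu (by simpa using pa)
  · rw [mk_mul, mk_mul, mk_add]
    exact mk_congr pc (by simpa using pa)
  · rw [mk_mul, mk_mul, mk_mul, mk_add]
    exact mk_congr pw (by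
      linear_combination (norm := noncomm_ring) (pu + pc) * (u + c) + (u + c) * (pu + pc) + ca +
        t (a * c))
  · rw [Y_mk _ _ (t _), mk_add, mk_mul, t a]
    simp

theorem id1 {B : Type v} [Ring B] [Algebra R B] {u c a w : B} (cc : c * c = 0)
    (ca : c * a = a * c) (wu : w * u = u * w) (wc : w * c = c * w)
    (wa : w * a = a * w + (u * u * c + c * (u * u))) : Id Φ u c a := by
  have t := fun e : B => two h2 e
  refine desc (id2 h h1 h2 (u := mk u 0) (c := mk c a) (a := mk a 0) (w := mk w (u * u))
    (p := Y B) ?_ ?_ ?_ ?_ ?_ Y_sq (Y_mk0 _) (Y_mk _ _ (t _)) (Y_mk0 _) ?_)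
  · rw [mk_mul, ← mk_zero]
    exact mk_congr cc (by linear_combination (norm := noncomm_ring) ca + t (a * c))
  · rw [mk_mul, mk_mul]
    exact mk_congr ca (by simp)
  · rw [mk_mul, mk_mul]
    exact mk_congr wu (by noncomm_ring)
  · rw [mk_mul, mk_mul]
    exact mk_congr wc (by linear_combination (norm := noncomm_ring) wa + t (u * u * c))
  · simp only [mk_mul, mk_add]
    exact mk_congr wa (by linear_combination (norm := noncomm_ring) -t (a * u * u))
  · rw [Y_mk _ _ (t _), mk_mul]
    simp

theorem id0 {B : Type v} [Ring B] [Algebra R B] {u c a : B} (cc : c * c = 0)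
    (ca : c * a = a * c) : Id Φ u c a := by
  have t := fun e : B => two h2 e
  refine desc (id1 h h1 h2 (u := mk u 0) (c := mk c 0) (a := mk a (u * u * c + c * (u * u)))
    (w := Y B) ?_ ?_ (Y_mk0 _) (Y_mk0 _) ?_)
  · rw [mk_mul, ← mk_zero]
    exact mk_congr cc (by simp)
  · rw [mk_mul, mk_mul]
    exact mk_congr ca (by linear_combination (norm := noncomm_ring) cc * u * u - u * u * cc)
  · rw [Y_mk _ _ (t _)]
    simp only [mk_mul, mk_add]
    simp

/-- `Φ` modulo `y ^ 2` is invariant under `x ↦ x + c` -/
theorem inv {B : Type v} [Ring B] [Algebra R B] (x a c : B) (cc : c * c = 0)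
    (ca : c * a = a * c) : G Φ 0 (x + c) a = G Φ 0 x a := by
  have s := sc_of_pent h h1
  have key : ∀ u c a : B, c * c = 0 → c * a = a * c →
      G (sw Φ) 0 (u + c) a * G Φ 0 u a = 1 := fun u c a cc ca => by
    have e0 := id0 h h1 h2 (u := u) (c := c) (a := 0) cc (by simp)
    rw [id0 h h1 h2 cc ca, ← e0, s.G0, s.sw.G0, one_mul]
  have e1 := key (x + c) c a cc ca
  have e2 := key x 0 a (by simp) (by simp)
  rw [add_assoc, two h2 c] at e1
  exact (G_unit (Φ := sw Φ) h1 (x + 0) a).mul_left_cancel (e1.trans e2.symm)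

end tower

end Pool.Agent.DD.S12
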