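import Pool.Agent.Lib.DD.GI4
import Pool.Agent.Lib.DD.Star12

/-! The pentagon for series in a representation of rank three. -/

set_option autoImplicit false

noncomputable section

namespace Pool.Agent.DD.GD

open Pool.Agent.DR Pool.Agent.DD.F64 Finset PowerSeries Module LinearMap

variable {R : Type} [CommRing R] {M M' : Type} [AddCommGroup M] [Module R M] [AddCommGroup M']
  [Module R M']

theorem sum_tri {N : Type} [AddCommMonoid N] (n : ℕ) (f : ℕ → ℕ → ℕ → N) :
    ∑ p ∈ antidiagonal n, ∑ q ∈ antidiagonal p.1, f q.1 q.2 p.2 =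
      ∑ p ∈ antidiagonal n, ∑ q ∈ antidiagonal p.2, f p.1 q.1 q.2 := by
  rw [sum_sigma', sum_sigma']
  refine sum_bij' (fun q _ => ⟨(q.2.1, q.2.2 + q.1.2), (q.2.2, q.1.2)⟩)
    (fun q _ => ⟨(q.1.1 + q.2.1, q.2.2), (q.1.1, q.2.1)⟩) ?_ ?_ ?_ ?_ ?_
  all_goals
    rintro ⟨⟨a, b⟩, c, d⟩ hq
    simp only [mem_sigma, HasAntidiagonal.mem_antidiagonal] at hq
    obtain ⟨rfl, rfl⟩ := hq
    simp [add_assoc]

/-- series of operators act on sequences of vectors -/
def hat : PowerSeries (End R M) →+* End R (ℕ → M) where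
  toFun F :=
    { toFun := fun v n => ∑ p ∈ antidiagonal n, coeff p.1 F (v p.2)
      map_add' := fun v w => funext fun n => by simp [sum_add_distrib]
      map_smul' := fun r v => funext fun n => by simp [smul_sum] }
  map_one' := LinearMap.ext fun v => funext fun n => by
    show ∑ p ∈ antidiagonal n, _ = v n
    rw [sum_eq_single_of_mem (0, n) (by simp)]
    · simp
    · intro p hp h
      have : p.1 ≠ 0 := fun e => h (Prod.ext e (by simpa [e] using hp))
      simp [coeff_one, this]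
  map_mul' F G := LinearMap.ext fun v => funext fun n => by
    show ∑ p ∈ antidiagonal n, _ = ∑ p ∈ antidiagonal n, coeff p.1 F (∑ q ∈ antidiagonal p.2, _)
    simp only [coeff_mul, LinearMap.sum_apply, End.mul_apply, map_sum]
    exact sum_tri n fun a b c => coeff a F (coeff b G (v c))
  map_zero' := LinearMap.ext fun v => funext fun n => by simp
  map_add' F G := LinearMap.ext fun v => funext fun n => by simp [sum_add_distrib]

theorem hat_apply (F : PowerSeries (End R M)) (v : ℕ → M) (n : ℕ) :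
    hat F v n = ∑ p ∈ antidiagonal n, coeff p.1 F (v p.2) := rfl

/-- the series `Ψ(a, b)` as an operator -/
def H (Ψ : List Bool → R) (a b : End R M) : End R (ℕ → M) := hat (ser Ψ a b)

/-- an operator followed by the shift -/
def ta (a : End R M) : End R (ℕ → M) := hat (X * C a)

@[simp] theorem ta_zero (a : End R M) (v : ℕ → M) : ta a v 0 = 0 := by simp [ta, hat_apply]

@[simp] theorem ta_succ (a : End R M) (v : ℕ → M) (n : ℕ) : ta a v (n + 1) = a (v n) := by
  rw [ta, hat_apply, sum_eq_single_of_mem (1, n) (by simp [add_comm])]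
  · rw [show (1, n).1 = 0 + 1 from rfl, coeff_succ_X_mul]
    simp
  · rintro ⟨_ | i, j⟩ hp h
    · simp
    · have : i ≠ 0 := fun e => h (by simp [e] at hp ⊢; omega)
      simp [coeff_X, this]

theorem H_itw (l : M →ₗ[R] M') {a b : End R M} {a' b' : End R M'} (ha : ∀ u, l (a u) = a' (l u))
    (hb : ∀ u, l (b u) = b' (l u)) (Ψ : List Bool → R) (v : ℕ → M) :
    l.compLeft ℕ (H Ψ a b v) = H Ψ a' b' (l.compLeft ℕ v) := by
  funext n
  simp only [compLeft_apply, Function.comp_apply, H, hat_apply, map_sum, coeff_ser,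
    ← F.H19.ev_cmp, itw l ha hb]

/-- remove a last letter -/
def rd (s : Bool) (Ψ : List Bool → R) (u : List Bool) : R := Ψ (u ++ [s])

theorem ser_dec {B : Type} [Ring B] [Algebra R B] {Φ : List Bool → R} (h1 : Φ [] = 1) (a b : B) :
    ser Φ a b = 1 + ser (rd false Φ) a b * (X * C a) + ser (rd true Φ) a b * (X * C b) := by
  ext n
  simp only [← mul_assoc]
  rcases n with _ | n
  · simp [coeff_ser, W_zero, h1]
  · simp only [map_add, coeff_succ_mul_X, coeff_mul_C, coeff_ser, coeff_one,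
      n.succ_ne_zero, if_false, zero_add, sum_mul, smul_mul_assoc]
    rw [← sum_W_rev, sum_W_succ, ← sum_W_rev n fun u => rd false Φ u • (wd a b u * a),
      ← sum_W_rev n fun u => rd true Φ u • (wd a b u * b)]
    simp [rd, wd_append]

theorem H_dec {Φ : List Bool → R} (h1 : Φ [] = 1) (a b : End R M) (v : ℕ → M) :
    H Φ a b v = v + H (rd false Φ) a b (ta a v) + H (rd true Φ) a b (ta b v) := by
  rw [H, ser_dec h1]
  simp [H, ta]

variable {e0 e1 f0 f1 : End R M}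

theorem pent3G (c00 : ∀ u, e0 (f0 u) = f0 (e0 u)) (c01 : ∀ u, e0 (f1 u) = f1 (e0 u))
    (c10 : ∀ u, e1 (f0 u) = f0 (e1 u)) (c11 : ∀ u, e1 (f1 u) = f1 (e1 u)) {o : ℕ → M}
    (he : ∀ n, e0 (o n) = 0) (hf : ∀ n, f0 (o n) = 0) {Φ : List Bool → R} (hp : Pent Φ)
    (h1 : Φ [] = 1) {W : ℕ → M}
    (hW : W = (fst R M M + snd R M M).compLeft ℕ
      (H Φ (T0 e0 f0 f1) (T1 e1 f1) ((inl R M M).compLeft ℕ o))) :
    H Φ f0 f1 (H Φ e0 e1 o) = W - H (rd false Φ) e1 f1 (ta e1 W) := by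
  have h10 : Commute e1 f0 := LinearMap.ext c10
  have h11 : Commute e1 f1 := LinearMap.ext c11
  have sc := S12.sc_of_pent hp h1
  obtain ⟨T, a0, a1, c, b0, b1⟩ : ∃ T : Br (End R (M × M × M)),
      T.a0 = Y0 e0 f0 f1 - X0 e0 f0 f1 - X1 e1 ∧ T.a1 = Y1 f1 ∧ T.c = X1 e1 ∧
        T.b0 = X0 e0 f0 f1 ∧ T.b1 = ZZ e1 f1 := by
    refine ⟨⟨_, _, _, _, _, ?_, ?_, ?_, ?_, ?_, ?_, ?_, ?_⟩, rfl, rfl, rfl, rfl, rfl⟩ <;>
      refine LinearMap.ext fun w => Prod.ext ?_ (Prod.ext ?_ ?_) <;> simp [*] <;> abel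
  let v : ℕ → M × M × M := fun n => (0, o n, 0)
  let i := (inl R M (M × M)).compLeft ℕ
  have h := congrArg (fun S => (p1 - p3 : _ →ₗ[R] M).compLeft ℕ (hat S v)) (hp _ T)
  simp only [map_mul, End.mul_apply, a0, a1, c, b0, b1] at h
  change _ = (p1 - p3 : _ →ₗ[R] M).compLeft ℕ (H Φ _ _ (H Φ _ _ (H Φ _ _ v))) at h
  have z : ∀ a : End R (M × M × M), (∀ n, a (v n) = 0) → ta a v = 0 := fun a ha =>
    funext fun n => by cases n <;> simp [ha]
  have l1 : hat (ser Φ (Y0 e0 f0 f1 - X0 e0 f0 f1 - X1 e1 + X1 e1) (Y1 f1)) v = v := by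
    show H Φ _ _ v = v
    rw [H_dec h1, z _ fun n => by simp [v], z _ fun n => by simp [v]]
    simp
  have l2 := H_itw (p1 - p3 : _ →ₗ[R] M) (a := X0 e0 f0 f1) (b := X1 e1 + ZZ e1 f1) (a' := e0)
    (b' := e1) (fun w => by simp) (fun w => by simp; abel) Φ v
  rw [show (p1 - p3 : _ →ₗ[R] M).compLeft ℕ v = 0 from funext fun n => by simp [v], map_zero] at l2
  rw [l1] at h
  have h := l2.symm.trans h
  have l3 : H Φ (X0 e0 f0 f1) (X1 e1) v = v + i (H Φ e0 e1 o - o) := by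
    rw [H_dec h1, H_dec h1 e0, z _ fun n => by simp [v, hf, Prod.mk_zero_zero],
      show ta e0 o = 0 from funext fun n => by cases n <;> simp [he],
      show ta (X1 e1) v = i (ta e1 o) from funext fun n => by cases n <;> simp [v, i, Prod.mk_zero_zero],
      ← H_itw (inl R M (M × M)) (a := e0) (b := e1) (fun a => by simp [Prod.mk_zero_zero])
        fun a => by simp]
    simp [i]
  rw [l3] at h
  have i3 := H_itw (p1 + p2 : _ →ₗ[R] M) (a := Y0 e0 f0 f1 - X0 e0 f0 f1 - X1 e1 + X0 e0 f0 f1)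
    (b := Y1 f1 + ZZ e1 f1) (a' := f0 + -e1) (b' := f1) (fun w => by simp; abel)
    (fun w => by simp) Φ (v + i (H Φ e0 e1 o - o))
  have i4 := H_itw (snd R M (M × M)) (a := Y0 e0 f0 f1 - X0 e0 f0 f1 - X1 e1 + X0 e0 f0 f1)
    (b := Y1 f1 + ZZ e1 f1) (a' := T0 e0 f0 f1) (b' := T1 e1 f1) (fun w => by simp)
    (fun w => by simp) Φ (v + i (H Φ e0 e1 o - o))
  rw [show H Φ (f0 + -e1) f1 = H Φ f0 f1 from
      congrArg hat (sc.2 _ _ _ _ h10.neg_left h11.neg_left).1,
    show (p1 + p2 : _ →ₗ[R] M).compLeft ℕ (v + i (H Φ e0 e1 o - o)) = H Φ e0 e1 o from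
      funext fun n => by simp [v, i]] at i3
  rw [show (snd R M (M × M)).compLeft ℕ (v + i (H Φ e0 e1 o - o)) = (inl R M M).compLeft ℕ o from
      funext fun n => by simp [v, i]] at i4
  rw [← i4] at hW
  generalize H Φ (Y0 e0 f0 f1 - X0 e0 f0 f1 - X1 e1 + X0 e0 f0 f1) (Y1 f1 + ZZ e1 f1)
    (v + i (H Φ e0 e1 o - o)) = w at h i3 hW
  have k : ∀ s u, H (rd s Φ) (X1 e1) (Y1 f1) (i u) = i (H (rd s Φ) e1 f1 u) := fun s u =>
    (H_itw (inl R M (M × M)) (fun a => by simp) (fun a => by simp) _ u).symm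
  have k2 : ∀ u, (p1 - p3 : _ →ₗ[R] M).compLeft ℕ (i u) = u := fun u =>
    funext fun n => by simp [i]
  rw [H_dec h1, show ta (X1 e1) w = i (ta e1 ((p1 + p2 : _ →ₗ[R] M).compLeft ℕ w)) from
      funext fun n => by cases n <;> simp [i, Prod.mk_zero_zero],
    show ta (Y1 f1) w = i (ta f1 ((p1 - p3 : _ →ₗ[R] M).compLeft ℕ w)) from
      funext fun n => by cases n <;> simp [i, Prod.mk_zero_zero], k, k, map_add, map_add, k2, k2] at h
  have k3 := H_dec h1 e1 f1 ((p1 - p3 : _ →ₗ[R] M).compLeft ℕ w)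
  rw [H, sc.comm h11, map_one, End.one_apply] at k3
  have k4 : W = (p1 + p2 : _ →ₗ[R] M).compLeft ℕ w - (p1 - p3 : _ →ₗ[R] M).compLeft ℕ w :=
    hW.trans (funext fun n => by simp)
  rw [← i3, k4, map_sub, map_sub]
  linear_combination (norm := abel1) k3 - h

end Pool.Agent.DD.GD
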