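import Pool.Agent.Lib.DD.GStmt
import Mathlib.RingTheory.PowerSeries.Exp
import Mathlib.RingTheory.PowerSeries.Substitution

set_option autoImplicit false

noncomputable section

namespace Pool.Agent.DD.GStmt

open PowerSeries Finset

/-- The stuffles of two words in the letters `y_{n+1}` (written `n`), with multiplicity: the first
letter of the first word comes after `i` letters of the second word, or is merged with one. -/
def st : List ℕ → List ℕ → List (List ℕ)
  | [], v => [v]
  | a :: u, v =>
      ((List.range (v.length + 1)).flatMap fun i =>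
        (st u (v.drop i)).map fun w => v.take i ++ a :: w) ++
      (List.range v.length).flatMap fun i =>
        (st u (v.drop (i + 1))).map fun w => v.take i ++ (a + v.getD i 0 + 1) :: w

/-- The word in `x, y` given by `y_{n+1} = x ^ n y`. -/
def yx (k : List ℕ) : List Bool := k.flatMap fun n => List.replicate n false ++ [true]

variable {R : Type} [CommRing R] [Algebra ℚ R]

/-- `Φ_corr = exp (∑ (-1) ^ (n - 1) / n (Φ | x ^ (n - 1) y) t ^ n)`. -/
def corr (Φ : List Bool → R) : PowerSeries R :=
  (exp R).subst (mk fun n => ((-1) ^ (n - 1) / n : ℚ) • Φ (yx [n - 1]) : PowerSeries R)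

/-- The coefficients of `Φ_* = Φ_corr(y_1) π_y(Φ)`. -/
def reg (Φ : List Bool → R) (k : List ℕ) : R :=
  ∑ i ∈ range (k.length + 1),
    if k.take i = List.replicate i 0 then coeff i (corr Φ) * Φ (yx (k.drop i)) else 0

/-- The regularised double shuffle relations with `ζ(2) = 0`. -/
def DS (R : Type) [CommRing R] [Algebra ℚ R] : Set (List Bool → R) :=
  {Φ | GrpLike Φ ∧ Φ [false] = 0 ∧ Φ [true] = 0 ∧ Φ [false, true] = 0 ∧
    ∀ k l, reg Φ k * reg Φ l = ((st k l).map (reg Φ)).sum}

/-- `Φ(x, -y)`. -/
def th (Φ : List Bool → R) (w : List Bool) : R := (-1) ^ w.count true * Φ w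

end Pool.Agent.DD.GStmt
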