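import Pool.Agent.Lib.DD.GD1
import Pool.Agent.Lib.DD.GStmt2

/-! The pentagon gives a group-like series for the stuffle coproduct. -/

set_option autoImplicit false

noncomputable section

namespace Pool.Agent.DD.GD

open Pool.Agent.DR Pool.Agent.DD.F64 Pool.Agent.DD.DS Pool.Agent.DD.F Pool.Agent.DD.GStmt Finset
  Module TensorProduct FreeAlgebra
open PowerSeries hiding X C coeff_X
open Polynomial hiding coeff map coeff_mul coeff_one map_mul coeff_map

variable {R : Type} [CommRing R]

theorem theta_cmp (Φ : List Bool → R) (n : ℕ) [Algebra ℚ R] :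
    theta (E2.cmp Φ n) = E2.cmp (th Φ) n := by
  have h : ∀ u : List Bool, theta (wd (S39.lx R) (S39.ly R) u) =
      ((-1) ^ u.count true : R) • wd (S39.lx R) (S39.ly R) u := by
    intro u
    induction u with
    | nil => simp
    | cons s u ih =>
      cases s
      · rw [wd_false, map_mul, ih]
        simp [theta, S39.lx]
      · rw [wd_true, map_mul, ih]
        simp [theta, S39.ly, pow_succ]
  simp only [E2.cmp, map_sum, map_smul, h, smul_smul, th, mul_comm]

/-- the projection of the series `Φ(x, -y)` -/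
def PY (Φ : List Bool → R) : PowerSeries (FN R) := mk fun n => piY (theta (E2.cmp Φ n))

theorem coeff_PY (Φ : List Bool → R) (n : ℕ) : coeff n (PY Φ) = piY (theta (E2.cmp Φ n)) :=
  coeff_mk _ _

section hat
variable {M : Type} [AddCommGroup M] [Module R M]

theorem H_single (Φ : List Bool → R) (a b : End R M) (u : M) (n : ℕ) :
    H Φ a b (Pi.single 0 u) n = S39.ev a b (E2.cmp Φ n) u := by
  rw [H, hat_apply, sum_eq_single_of_mem (n, 0) (by simp), coeff_ser, H19.ev_cmp]
  · simp
  · intro p hp h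
    have : p.2 ≠ 0 := fun e => h (Prod.ext (by simpa [e] using hp) e)
    simp [this]

theorem hat_lmul {B : Type} [Ring B] [Algebra R B] (F : PowerSeries B) (v : ℕ → B) (n : ℕ) :
    hat (PowerSeries.map (Algebra.lmul R B).toRingHom F) v n = coeff n (F * mk v) := by
  simp [hat_apply, coeff_mul]

end hat

theorem map_dec {A B : Type} [Ring A] [Ring B] [Algebra R A] [Algebra R B] (k : A →ₐ[R] B)
    (Ψ : List Bool → R) (E F : A) :
    PowerSeries.map k.toRingHom (1 - ser Ψ E F * (PowerSeries.X * PowerSeries.C E)) =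
      1 - ser Ψ (k E) (k F) * (PowerSeries.X * PowerSeries.C (k E)) := by
  rw [map_sub, map_one, map_mul, LIFT.map_ser, map_mul, PowerSeries.map_X, PowerSeries.map_C]
  rfl

variable (R) in
/-- first factor -/
def i1 : FN R →ₐ[R] FN R ⊗[R] FN R := Algebra.TensorProduct.includeLeft

variable (R) in
/-- second factor -/
def i2 : FN R →ₐ[R] FN R ⊗[R] FN R := Algebra.TensorProduct.includeRight

theorem defectG {Φ : List Bool → R} (hp : Pent Φ) (h1 : Φ [] = 1) :
    ∃ a : PowerSeries (R[X] ⊗[R] R[X]),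
      (PY Φ).map (i2 R).toRingHom * (PY Φ).map (i1 R).toRingHom =
        a.map (Algebra.TensorProduct.map (jj (K := R)) jj).toRingHom *
          (PY Φ).map (dst R).toRingHom := by
  let e1 : End R (FN R ⊗[R] FN R) := -LinearMap.mulLeft R (ι R 0 ⊗ₜ 1)
  let f1 : End R (FN R ⊗[R] FN R) := -LinearMap.mulLeft R (1 ⊗ₜ ι R 0)
  let G := fox (dst R) fun k => ι R k ⊗ₜ 1
  have j1 := fun ψ => itw (((dst R).toLinearMap - G).prod G) (a := F64.sh)
    (b := -LinearMap.mulLeft R (ι R 0))
    (a' := T0 (F64.sh.rTensor _) (F64.sh.lTensor _) f1) (b' := T1 e1 f1)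
    (yext (F := ((dst R).toLinearMap - G).prod G ∘ₗ F64.sh)
      (G := T0 (F64.sh.rTensor _) (F64.sh.lTensor _) f1 ∘ₗ ((dst R).toLinearMap - G).prod G)
      (by simp [G, Algebra.TensorProduct.one_def]) fun k q => by
      simp [G, f1, r_sh, dst_ι, add_mul, sum_mul, l_sh, Nat.sum_antidiagonal_succ', ← mul_assoc, yy,
        add_comm])
    (fun u => by simp [G, e1, f1, dst_ι, add_mul, yy]) ψ 1
  have j2 := fun ψ => itw ((TensorProduct.mk R _ _).flip 1) (a := F64.sh)
    (b := -LinearMap.mulLeft R (ι R 0))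
    (a' := F64.sh.rTensor _) (b' := e1) (fun u => by simp) (fun u => by simp [e1]) ψ 1
  have j3 := fun p ψ => itw (TensorProduct.mk R (FN R) _ p) (a := F64.sh)
    (b := -LinearMap.mulLeft R (ι R 0))
    (a' := F64.sh.lTensor _) (b' := f1) (fun u => by simp) (fun u => by simp [f1, tmul_neg]) ψ 1
  simp only [← piY_theta, LinearMap.flip_apply, mk_apply, LinearMap.prod_apply,
    Function.prod_apply, G, fox_one, LinearMap.sub_apply, AlgHom.toLinearMap_apply, map_one,
    sub_zero, Algebra.TensorProduct.one_def] at j1 j2 j3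
  have h := pent3G (e0 := F64.sh.rTensor _) (e1 := e1) (f0 := F64.sh.lTensor _) (f1 := f1)
    (o := Pi.single 0 (1 ⊗ₜ 1)) (fun u => by induction u using TensorProduct.induction_on <;> simp [*])
    (fun u => by simp only [f1]; induction u using TensorProduct.induction_on <;> simp_all [mul_add])
    (fun u => by simp only [e1]; induction u using TensorProduct.induction_on <;> simp_all [mul_add])
    (fun u => by
      simp only [e1, f1, LinearMap.neg_apply, map_neg]; simp [← mul_assoc])
    (fun n => by cases n <;> simp) (fun n => by cases n <;> simp) hp h1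
    (W := fun n => dst R (coeff n (PY Φ))) (funext fun n => by
      rw [show (LinearMap.inl R (FN R ⊗[R] FN R) (FN R ⊗[R] FN R)).compLeft ℕ
        (Pi.single (0 : ℕ) (1 ⊗ₜ 1)) = Pi.single (0 : ℕ) (1 ⊗ₜ 1, 0) from
          funext fun n => by cases n <;> simp [Prod.mk_zero_zero]]
      simp [H_single, ← j1, coeff_PY])
  let E : R[X] ⊗[R] R[X] := -(X ⊗ₜ 1)
  let F : R[X] ⊗[R] R[X] := -(1 ⊗ₜ X)
  let k := (Algebra.lmul R (FN R ⊗[R] FN R)).comp (Algebra.TensorProduct.map (jj (K := R)) (jj (K := R)))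
  have kE : k E = e1 := LinearMap.ext fun u => by simp [k, E, e1, jj]
  have kF : k F = f1 := LinearMap.ext fun u => by simp [k, F, f1, jj]
  refine ⟨1 - ser (rd false Φ) E F * (PowerSeries.X * PowerSeries.C E), PowerSeries.ext fun n => ?_⟩
  have h2 := congrFun h n
  have h3 : (PY Φ).map (dst R).toRingHom = mk fun n => dst R (coeff n (PY Φ)) := by
    ext1 n
    simp
  have h4 := congrArg (fun z => hat z (fun n => dst R (coeff n (PY Φ))) n)
    (map_dec k (rd false Φ) E F)
  simp only [kE, kF] at h4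
  rw [map_sub hat, map_one, map_mul hat] at h4
  rw [h3, ← hat_lmul (R := R)]
  refine Eq.trans ?_ (h2.trans h4.symm)
  rw [H, hat_apply, coeff_mul]
  refine sum_congr rfl fun p _ => ?_
  have e := fun a b : End R (FN R ⊗[R] FN R) =>
    (coeff_ser Φ a b p.1).trans (H19.ev_cmp Φ p.1 a b).symm
  rw [H_single, ← j2]
  refine Eq.trans ?_ ((j3 _ _).trans (LinearMap.congr_fun (e _ _).symm _))
  simp [coeff_PY, i1, i2]

theorem piY_cmp (c : List Bool → R) (n : ℕ) : piY (E2.cmp c n) = ∑ u ∈ W n, c u • yw R 0 u := by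
  simp only [E2.cmp, map_sum, map_smul, H56.wd_eq, piY_word]

theorem comm_map (F G : PowerSeries (FN R)) :
    F.map (i1 R).toRingHom * G.map (i2 R).toRingHom =
      G.map (i2 R).toRingHom * F.map (i1 R).toRingHom := by
  ext1 n
  rw [coeff_mul, coeff_mul, ← Nat.sum_antidiagonal_swap]
  exact sum_congr rfl fun p _ => by simp [i1, i2]

theorem newton' (p : FN R) : Algebra.TensorProduct.lift
    ((aeval (.inl X : DualNumber R[X])).comp r1) ch (fun _ _ => Commute.all _ _) (dst R p) =
      aeval (.inl X + .inr X : DualNumber R[X]) (r1 p) := by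
  refine AlgHom.congr_fun (FreeAlgebra.hom_ext (f := (Algebra.TensorProduct.lift
    ((aeval (.inl X : DualNumber R[X])).comp r1) ch (fun _ _ => Commute.all _ _)).comp (dst R))
    (g := (aeval (.inl X + .inr X : DualNumber R[X])).comp r1) (funext fun k => ?_)) p
  cases k with
  | zero => simp [dst_ι, r1, ch, yy]
  | succ k =>
    simp only [Function.comp_apply, AlgHom.comp_apply, dst_ι, Nat.sum_antidiagonal_succ, map_add,
      map_sum, Algebra.TensorProduct.lift_tmul]
    rw [sum_eq_single (0, k) (fun p hp h => by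
      have : p.1 ≠ 0 := fun e => h (Prod.ext e (by simpa [e] using hp))
      simp [r1, yy, this]) (by simp)]
    ext1 <;> simp [r1, ch, yy, pow_succ, mul_comm]

variable [Algebra ℚ R]

/-- the character `exp (X t)` -/
def rx : FN R →ₐ[R] R[X] := FreeAlgebra.lift R fun k => E2.fq R (k + 1) • X ^ (k + 1)

theorem rx_jj (g : R[X]) : rx (jj g) = g := by simp [jj, ← aeval_algHom_apply, rx, E2.fq]

theorem rx_yy (n : ℕ) : rx (yy R n) = E2.fq R n • X ^ n := by cases n <;> simp [rx, yy, E2.fq]

theorem rx_dst (p : FN R) : Algebra.TensorProduct.map rx rx (dst R p) =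
    aeval (X ⊗ₜ 1 + 1 ⊗ₜ X : R[X] ⊗[R] R[X]) (rx p) := by
  refine AlgHom.congr_fun (FreeAlgebra.hom_ext (f := (Algebra.TensorProduct.map rx rx).comp (dst R))
    (g := (aeval (X ⊗ₜ 1 + 1 ⊗ₜ X : R[X] ⊗[R] R[X])).comp rx) (funext fun k => ?_)) p
  have := rx_yy (R := R) (k + 1)
  rw [yy] at this
  simp only [Function.comp_apply, AlgHom.comp_apply, dst, lift_ι_apply, map_sum, this, map_smul,
    map_pow, aeval_X, Algebra.TensorProduct.map_tmul, rx_yy]
  rw [Commute.add_pow' (Commute.all _ _), smul_sum]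
  refine sum_congr rfl fun p hp => ?_
  rw [← HasAntidiagonal.mem_antidiagonal.1 hp, ← Nat.cast_smul_eq_nsmul R, smul_smul,
    smul_tmul_smul, E2.fq_choose]
  simp

theorem rx_yw (k : ℕ) (w : List Bool) : ∃ c : R, rx (yw R k w) = c • X ^ (k + w.length) := by
  induction w generalizing k with
  | nil =>
    by_cases h : k = 0
    · exact ⟨1, by simp [yw, h]⟩
    · exact ⟨0, by simp [yw, h]⟩
  | cons s w ih =>
    cases s
    · obtain ⟨c, h⟩ := ih (k + 1)
      exact ⟨c, by rw [yw, h, List.length_cons, add_assoc, add_comm 1]⟩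
    · obtain ⟨c, h⟩ := ih 0
      exact ⟨E2.fq R (k + 1) * c, by
        rw [yw, map_mul, h, rx_yy, smul_mul_smul_comm, ← pow_add, List.length_cons, zero_add,
          add_assoc, add_comm 1]⟩

/-- `t ↦ X t` -/
def JP : PowerSeries R →+* PowerSeries R[X] := (rescale X).comp (PowerSeries.map C)

omit [Algebra ℚ R] in
theorem coeff_JP (F : PowerSeries R) (n : ℕ) : coeff n (JP F) = coeff n F • X ^ n := by
  rw [JP, RingHom.comp_apply, coeff_rescale, PowerSeries.coeff_map, Polynomial.smul_eq_C_mul,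
    mul_comm]

/-- the regularised series -/
def PR (η : PowerSeries R) (Φ : List Bool → R) : PowerSeries (FN R) :=
  (JP η).map (jj (K := R)).toRingHom * PY Φ

theorem exists_gl {Φ : List Bool → R} (hp : Pentagon Φ) (h1 : Φ [] = 1) :
    ∃ η : PowerSeries R, coeff 0 η = 1 ∧ coeff 1 η = 0 ∧ (PR η Φ).map (dst R).toRingHom =
      (PR η Φ).map (i2 R).toRingHom * (PR η Φ).map (i1 R).toRingHom := by
  obtain ⟨a, ha⟩ := defectG (st_LIFT R Φ hp) h1
  choose c hc using fun w => rx_yw (R := R) 0 w
  let E : PowerSeries R := mk fun n => ∑ u ∈ W n, th Φ u * c u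
  have hE : (PY Φ).map (rx (R := R)).toRingHom = JP E := by
    ext1 n
    rw [coeff_JP, PowerSeries.coeff_map, coeff_PY, theta_cmp, piY_cmp, coeff_mk, sum_smul]
    show rx _ = _
    rw [map_sum]
    exact sum_congr rfl fun u hu => by rw [map_smul, hc, zero_add, mem_W.1 hu, mul_smul]
  have c0 : c [] = 1 := by simpa [yw] using congrArg (Polynomial.coeff · 0) (hc []).symm
  have E0 : coeff 0 E = 1 := by simp [E, W_zero, th, h1, c0]
  have E1 : coeff 1 E = 0 := by
    rw [coeff_mk]
    exact sum_eq_zero fun u hu => by rw [th, H19.deg_one hp h1 u (mem_W.1 hu), mul_zero, zero_mul]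
  have hi : E * invOfUnit E 1 = 1 := mul_invOfUnit _ _ (by simpa using E0)
  generalize invOfUnit E 1 = η at hi
  have η0 : coeff 0 η = 1 := by
    have := congrArg (coeff 0) hi
    simpa only [coeff_zero_eq_constantCoeff, map_mul, map_one, one_mul,
      coeff_zero_eq_constantCoeff_apply E ▸ E0] using this
  refine ⟨η, η0, ?_, ?_⟩
  · have := congrArg (coeff 1) hi
    simpa [coeff_mul, Nat.antidiagonal_succ, E0, E1, coeff_one] using this
  let k := (Algebra.TensorProduct.map (jj (K := R)) (jj (K := R))).toRingHom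
  let r := (Algebra.TensorProduct.map (rx (R := R)) (rx (R := R))).toRingHom
  let j1 := (Algebra.TensorProduct.includeLeft : R[X] →ₐ[R] R[X] ⊗[R] R[X]).toRingHom
  let j2 := (Algebra.TensorProduct.includeRight : R[X] →ₐ[R] R[X] ⊗[R] R[X]).toRingHom
  let δ := (aeval (X ⊗ₜ 1 + 1 ⊗ₜ X : R[X] ⊗[R] R[X]) : R[X] →ₐ[R] _).toRingHom
  have m : ∀ {A B B' D : Type} [Ring A] [Ring B] [Ring B'] [Ring D] (f : A →+* B) (g : B →+* D)
      (f' : A →+* B') (g' : B' →+* D), (∀ z, g (f z) = g' (f' z)) → ∀ F : PowerSeries A,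
      (F.map f).map g = (F.map f').map g' := fun f g f' g' h F => by
    ext1 n
    simp only [PowerSeries.coeff_map, h]
  have h2 := congrArg (PowerSeries.map r) ha
  rw [map_mul, map_mul, m _ r rx.toRingHom j2 fun z => by simp [r, j2, i2],
    m _ r rx.toRingHom j1 fun z => by simp [r, j1, i1], m _ r rx.toRingHom δ rx_dst, hE,
    m _ r (RingHom.id _) (RingHom.id _) fun z => by
      induction z using TensorProduct.induction_on <;> simp_all [r, rx_jj],
    PowerSeries.map_id] at h2
  have h3 : ∀ f : R[X] →+* R[X] ⊗[R] R[X], (JP E).map f * (JP η).map f = 1 := fun f => by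
    rw [← map_mul, ← map_mul, hi, map_one, map_one]
  have h4 : (JP η).map δ = (JP η).map j2 * (JP η).map j1 * a := by
    simp only [id] at h2
    linear_combination (JP η).map δ * (JP η).map j2 * (JP η).map j1 * h2 +
      (JP η).map j2 * (JP η).map j1 * a * h3 δ - (JP η).map δ * h3 j1 -
      (JP η).map δ * (JP η).map j1 * (JP E).map j1 * h3 j2
  rw [PR, map_mul, map_mul, map_mul, m _ (dst R).toRingHom δ k dst_jj, h4, map_mul, map_mul,
    mul_assoc, ← ha, m j2 k jj.toRingHom (i2 R).toRingHom fun z => by simp [k, j2, i2],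
    m j1 k jj.toRingHom (i1 R).toRingHom fun z => by simp [k, j1, i1], mul_assoc, mul_assoc,
    ← mul_assoc _ ((PY Φ).map (i2 R).toRingHom), comm_map, mul_assoc]

theorem corr_rec (Ψ : List Bool → R) : coeff 0 (corr Ψ) = 1 ∧ ∀ n : ℕ, coeff (n + 1) (corr Ψ) *
    (n + 1) = ∑ p ∈ antidiagonal n, coeff p.1 (corr Ψ) * ((-1) ^ p.2 * Ψ (yx [p.2])) := by
  let L : PowerSeries R := mk fun n => ((-1) ^ (n - 1) / n : ℚ) • Ψ (yx [n - 1])
  have hL : constantCoeff L = 0 := by simp [L]
  have hs : HasSubst L := HasSubst.of_constantCoeff_zero' hL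
  have d := derivative_subst (f := exp R) hs
  rw [derivative_exp] at d
  refine ⟨?_, fun n => ?_⟩
  · rw [corr, coeff_subst' hs, finsum_eq_single _ 0 fun k hk => by simp [hL, hk]]
    simp
  have e := congrArg (coeff n) d
  rw [PowerSeries.coeff_derivative, coeff_mul] at e
  refine e.trans (sum_congr rfl fun p _ => ?_)
  rw [PowerSeries.coeff_derivative, coeff_mk, Algebra.smul_def, mul_right_comm,
    ← Nat.cast_succ, ← map_natCast (algebraMap ℚ R), ← map_mul,
    div_mul_cancel₀ _ (by exact_mod_cast p.2.succ_ne_zero)]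
  simp [corr, L]

theorem corr_eq {η : PowerSeries R} {Ψ : List Bool → R} (h0 : coeff 0 η = 1)
    (h : ∀ n : ℕ, coeff (n + 1) η * (n + 1) =
      ∑ p ∈ antidiagonal n, coeff p.1 η * ((-1) ^ p.2 * Ψ (yx [p.2]))) : η = corr Ψ := by
  ext n
  induction n using Nat.strong_induction_on with
  | _ n ih =>
    rcases n with _ | n
    · rw [h0, (corr_rec Ψ).1]
    rw [← sub_eq_zero]
    refine GI.nsmul_cancel n.succ_ne_zero ?_
    push_cast
    rw [mul_sub, mul_comm, h, mul_comm, (corr_rec Ψ).2, sub_eq_zero]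
    refine sum_congr rfl fun p hp => ?_
    have := HasAntidiagonal.mem_antidiagonal.1 hp
    rw [ih _ (by omega)]

theorem gl_corr {Φ : List Bool → R} (hp : Pentagon Φ) (h1 : Φ [] = 1) :
    (PR (corr (th Φ)) Φ).map (dst R).toRingHom =
      (PR (corr (th Φ)) Φ).map (i2 R).toRingHom * (PR (corr (th Φ)) Φ).map (i1 R).toRingHom := by
  obtain ⟨η, η0, η1, h⟩ := exists_gl hp h1
  refine corr_eq η0 (fun n => ?_) ▸ h
  have f1 : (PY Φ).map (r1 (K := R)).toRingHom = 1 := by
    ext1 n
    have := itw r1.toLinearMap (a := F64.sh) (b := -LinearMap.mulLeft R (ι R 0)) (a' := 0)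
      (b' := -LinearMap.mulLeft R X) (yext (F := r1.toLinearMap ∘ₗ F64.sh)
        (G := 0 ∘ₗ r1.toLinearMap) (by simp) fun k q => by simp [r1])
        (fun u => by simp [r1]) (E2.cmp Φ n) 1
    rw [← piY_theta, H19.ev_cmp, ← coeff_ser,
      (S12.sc_of_pent (st_LIFT R Φ hp) h1).comm (Commute.zero_left _)] at this
    rw [PowerSeries.coeff_map, coeff_PY]
    refine this.trans ?_
    by_cases hn : n = 0 <;> simp [coeff_one, hn]
  have f2 : ∀ m, r1 (coeff m (PR η Φ)) = coeff m η • X ^ m := fun m => by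
    have : (PR η Φ).map (r1 (K := R)).toRingHom = JP η := by
      rw [PR, map_mul, f1, mul_one]
      ext1 n
      exact r1_jj _
    rw [← coeff_JP, ← this]
    rfl
  have f3 : ∀ m, ch (coeff m (PR η Φ)) = ch (coeff m (PY Φ)) := fun m => by
    rw [PR, coeff_mul, map_sum, sum_eq_single_of_mem (0, m) (by simp)]
    · simp [coeff_JP, η0]
    · rintro ⟨_ | _ | i, j⟩ hp h
      · exact absurd (by simpa using hp) h
      · simp [coeff_JP, η1]
      · simp [coeff_JP, jj, ch, pow_succ, mul_assoc, ← mul_assoc DualNumber.eps]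
  have i : ∀ g : R[X], aeval (.inl X : DualNumber R[X]) g = .inl g := fun g => by
    simpa using aeval_algHom_apply (TrivSqZeroExt.inlAlgHom R R[X] R[X]) X g
  have e := newton' (coeff (n + 1) (PR η Φ))
  rw [show dst R (coeff (n + 1) (PR η Φ)) = _ from congrArg (coeff (n + 1)) h, coeff_mul, map_sum,
    aeval_add_of_sq_eq_zero _ _ _ (by simp [sq]), i, i, f2] at e
  have e2 := congrArg (fun z => Polynomial.coeff (TrivSqZeroExt.snd z) (n + 1)) e
  simp only [PowerSeries.coeff_map, i1, i2, AlgHom.toRingHom_eq_coe, RingHom.coe_coe,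
    Algebra.TensorProduct.includeLeft_apply, Algebra.TensorProduct.includeRight_apply,
    Algebra.TensorProduct.tmul_mul_tmul, mul_one, one_mul, Algebra.TensorProduct.lift_tmul,
    AlgHom.comp_apply, i, f2, f3, TrivSqZeroExt.snd_sum, finsetSum_coeff] at e2
  rw [Nat.sum_antidiagonal_succ, ← Nat.sum_antidiagonal_swap] at e2
  refine Eq.trans (by
    simp [add_mul, mul_add]) (e2.symm.trans ?_)
  have z : (ch (coeff 0 (PY Φ))).snd = 0 := by
    simp [coeff_PY, theta_cmp, piY_cmp, W_zero, yw]
  simp only [TrivSqZeroExt.snd_mul, TrivSqZeroExt.fst_inl, TrivSqZeroExt.snd_inl, smul_zero,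
    add_zero, z, Polynomial.coeff_zero, zero_add, Prod.fst_swap, Prod.snd_swap, smul_eq_mul, mul_zero]
  refine sum_congr rfl fun p hp => ?_
  rw [← HasAntidiagonal.mem_antidiagonal.1 hp, smul_mul_assoc, Polynomial.coeff_smul, add_assoc,
    add_comm p.1, Polynomial.coeff_X_pow_mul, coeff_PY, ch_piY, theta_cmp]
  have := CO.co_sum (p.2 + 1) (th Φ) (List.replicate p.2 false ++ [true])
  rw [if_pos (by simp)] at this
  simp only [yx, List.flatMap_cons, List.flatMap_nil, List.append_nil, ← this, smul_eq_mul]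
  rfl

end Pool.Agent.DD.GD
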