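import Pool.Agent.Lib.DD.GD2

/-! Coproducts and products of coefficients; the pentagon implies the double shuffle relations. -/

set_option autoImplicit false

noncomputable section

namespace Pool.Agent.DD.GD

open Pool.Agent.DR Pool.Agent.DD.F64 Pool.Agent.DD.DS Pool.Agent.DD.F Pool.Agent.DD.GStmt Finset
  Module TensorProduct FreeAlgebra PowerSeries

variable {R : Type} [CommRing R]

section co
variable {α : Type} [DecidableEq α]

/-- the coefficient of a word -/
def cw (m : List α) : FreeAlgebra R α →ₗ[R] R := (basisFreeMonoid R α).coord (FreeMonoid.ofList m)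

theorem cw_word (m l : List α) : cw m (l.map (ι R)).prod = if l = m then 1 else 0 := by
  by_cases h : l = m <;> simp [cw, ← bas, h]

theorem cw_one (m : List α) : cw m (1 : FreeAlgebra R α) = if [] = m then 1 else 0 := cw_word m []

theorem cw_mul (m : List α) (a : α) (q : FreeAlgebra R α) :
    cw m (ι R a * q) = if m.head? = some a then cw m.tail q else 0 := by
  refine (LinearMap.congr_fun (lext (F := cw m ∘ₗ LinearMap.mulLeft R (ι R a))
    (G := if m.head? = some a then cw m.tail else 0) fun l => ?_) q).trans ?_
  swap
  · by_cases h : m.head? = some a <;> simp [h]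
  have := cw_word (R := R) m (a :: l)
  rw [List.map_cons, List.prod_cons] at this
  rw [LinearMap.comp_apply, LinearMap.mulLeft_apply, this]
  rcases m with _ | ⟨b, m⟩
  · simp
  · by_cases h : b = a
    · simp [h, cw_word]
    · simp [h, Ne.symm h]

omit [DecidableEq α] in
theorem wext {N : Type} [AddCommGroup N] [Module R N] {F G : FreeAlgebra R α →ₗ[R] N}
    (h1 : F 1 = G 1) (h : ∀ k q, F (ι R k * q) = G (ι R k * q)) : F = G :=
  lext fun l => by cases l <;> simp [*]

/-- the coefficient of a pair of words -/
def c2 (k l : List α) : FreeAlgebra R α ⊗[R] FreeAlgebra R α →ₗ[R] R :=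
  LinearMap.mul' R R ∘ₗ TensorProduct.map (cw k) (cw l)

omit [DecidableEq α] in
@[simp] theorem c2_tmul (k l : List α) (p q : FreeAlgebra R α) :
    c2 k l (p ⊗ₜ q) = cw k p * cw l q := by simp [c2]

omit [DecidableEq α] in
theorem ext_c2 {z z' : FreeAlgebra R α ⊗[R] FreeAlgebra R α} (h : ∀ k l, c2 k l z = c2 k l z') :
    z = z' := by
  refine ((basisFreeMonoid R α).tensorProduct (basisFreeMonoid R α)).ext_elem fun ⟨k, l⟩ => ?_
  have e : ∀ z, ((basisFreeMonoid R α).tensorProduct (basisFreeMonoid R α)).repr z (k, l) =
      c2 k.toList l.toList z := fun z => by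
    induction z using TensorProduct.induction_on with
    | zero => simp
    | tmul u v => simp [cw, mul_comm]
    | add u v hu hv => simp [hu, hv]
  rw [e, e, h]

theorem c2_left (k l : List α) (a : α) (z : FreeAlgebra R α ⊗[R] FreeAlgebra R α) :
    c2 k l (ι R a ⊗ₜ 1 * z) = if k.head? = some a then c2 k.tail l z else 0 := by
  induction z using TensorProduct.induction_on with
  | zero => simp
  | tmul u v => simp [cw_mul]
  | add u v hu hv => rw [mul_add, map_add, hu, hv]; split_ifs <;> simp

theorem c2_right (k l : List α) (a : α) (z : FreeAlgebra R α ⊗[R] FreeAlgebra R α) :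
    c2 k l (1 ⊗ₜ ι R a * z) = if l.head? = some a then c2 k l.tail z else 0 := by
  induction z using TensorProduct.induction_on with
  | zero => simp
  | tmul u v => simp [cw_mul]
  | add u v hu hv => rw [mul_add, map_add, hu, hv]; split_ifs <;> simp

theorem sum_cons (L : List (List α)) (a b : α) (q : FreeAlgebra R α) :
    ((L.map (b :: ·)).map fun m => cw m (ι R a * q)).sum =
      if b = a then (L.map fun m => cw m q).sum else 0 := by
  by_cases h : b = a <;> simp [cw_mul, Function.comp_def, h]

omit [DecidableEq α] in
theorem sum_app (L : List (List α)) (p : FreeAlgebra R α) :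
    (L.map cw).sum p = (L.map fun m => cw m p).sum := by
  induction L <;> simp [*]

theorem c2_cop (p : FreeAlgebra R α) (k l : List α) :
    c2 k l (H56.cop R α p) = ((GStmt.sh k l).map fun m => cw m p).sum := by
  have h : ∀ w : List α, ∀ k l, c2 k l (H56.cop R α (w.map (ι R)).prod) =
      ((GStmt.sh k l).map fun m => cw m (w.map (ι R)).prod).sum := by
    intro w
    induction w with
    | nil =>
      rintro (_ | ⟨a, k⟩) (_ | ⟨b, l⟩) <;>
        simp [Algebra.TensorProduct.one_def, cw_one, GI.sh_cons, GI.sh_nil, Function.comp_def,
          GStmt.sh.eq_1]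
    | cons c w ih =>
      rintro (_ | ⟨a, k⟩) (_ | ⟨b, l⟩) <;>
        simp [add_mul, c2_left, c2_right, ih, GI.sh_cons, GI.sh_nil, Function.comp_def,
          cw_mul, GStmt.sh.eq_1]
      split_ifs <;> simp
  exact LinearMap.congr_fun (lext (F := c2 k l ∘ₗ (H56.cop R α).toLinearMap)
    (G := ((GStmt.sh k l).map cw).sum) fun w => by
      rw [sum_app]
      exact h w k l) p |>.trans (sum_app _ _)

end co

theorem st_nil (u : List ℕ) : st u [] = [u] := by
  induction u with
  | nil => rfl
  | cons a u ih => simp [st, ih]

theorem st_cons (a b : ℕ) (u v : List ℕ) (f : List ℕ → R) :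
    ((st (a :: u) (b :: v)).map f).sum = (((st u (b :: v)).map (a :: ·)).map f).sum +
      (((st (a :: u) v).map (b :: ·)).map f).sum + (((st u v).map ((a + b + 1) :: ·)).map f).sum := by
  rw [st, List.length_cons, List.range_succ_eq_map (n := v.length + 1),
    List.range_succ_eq_map (n := v.length), st]
  simp [List.flatMap_map, List.map_flatMap, Function.comp_def, List.range_succ_eq_map]
  ring

theorem c2_dst (p : FN R) (k l : List ℕ) :
    c2 k l (dst R p) = ((st k l).map fun m => cw m p).sum := by
  have e : ∀ (c : ℕ) (z : FN R ⊗[R] FN R), dst R (ι R c) * z = ι R c ⊗ₜ 1 * z + 1 ⊗ₜ ι R c * z +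
      ∑ p ∈ antidiagonal c, if p.1 = 0 then 0 else ι R (p.1 - 1) ⊗ₜ 1 * (1 ⊗ₜ ι R p.2 * z) := by
    intro c z
    rw [dst_ι, add_mul, add_assoc, sum_mul]
    cases c with
    | zero => simp [yy]
    | succ c => simp [Nat.sum_antidiagonal_succ, yy, ← mul_assoc]
  have h : ∀ w : List ℕ, ∀ k l, c2 k l (dst R (w.map (ι R)).prod) =
      ((st k l).map fun m => cw m (w.map (ι R)).prod).sum := by
    intro w
    induction w with
    | nil =>
      rintro (_ | ⟨a, k⟩) (_ | ⟨b, l⟩) <;>
        simp [Algebra.TensorProduct.one_def, cw_one, st_cons, st_nil, Function.comp_def, st.eq_1]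
    | cons c w ih =>
      intro k l
      rw [List.map_cons, List.prod_cons, map_mul, e, map_add, map_add, map_sum]
      simp only [apply_ite (c2 k l), c2_left, c2_right, ih, map_zero]
      rcases k with _ | ⟨a, k⟩ <;> rcases l with _ | ⟨b, l⟩
      · simp [st.eq_1, cw_mul]
      · simp [st.eq_1, cw_mul]
      · simp [st_nil, cw_mul]
      · rw [st_cons, sum_cons, sum_cons, sum_cons]
        simp only [List.head?_cons, Option.some.injEq, List.tail_cons]
        congr 1
        split_ifs with h
        · rw [sum_eq_single_of_mem (a + 1, b) (by simp; omega)]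
          · simp
          · rintro ⟨i, j⟩ _ hne
            split_ifs with h1 h2 h3
            · rfl
            · exact absurd (Prod.ext (by simp only at *; omega) h3.symm) hne
            · rfl
            · rfl
        · refine sum_eq_zero fun p hp => ?_
          have := HasAntidiagonal.mem_antidiagonal.1 hp
          split_ifs
          · rfl
          · omega
          · rfl
          · rfl
  exact LinearMap.congr_fun (lext (F := c2 k l ∘ₗ (dst R).toLinearMap)
    (G := ((st k l).map cw).sum) fun w => by
      rw [sum_app]
      exact h w k l) p |>.trans (sum_app _ _)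

theorem cw_yw (m : List ℕ) (j : ℕ) (w : List Bool) :
    cw m (yw R j w) = if List.replicate j false ++ w = yx m then 1 else 0 := by
  induction w generalizing m j with
  | nil =>
    rcases m with _ | ⟨a, m⟩
    · by_cases h : j = 0 <;> simp [yw, h, cw_one, yx]
    · have : List.replicate j false ≠ yx (a :: m) := fun h => by
        simpa [yx] using congrArg (true ∈ ·) h
      by_cases h : j = 0 <;> simp_all [yw, cw_one]
  | cons s w ih =>
    cases s
    · simpa [yw, List.replicate_succ'] using ih m (j + 1)
    · rw [yw, yy, cw_mul, ih]
      rcases m with _ | ⟨a, m⟩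
      · simp [yx]
      · have : ∀ a j, List.replicate j false ++ true :: w = List.replicate a false ++ true :: yx m ↔
            a = j ∧ w = yx m := by
          intro a j
          induction j generalizing a <;> cases a <;> simp_all [List.replicate_succ]
        have e : yx (a :: m) = List.replicate a false ++ true :: yx m := by simp [yx]
        rw [e]
        by_cases h : a = j <;> simp [this, h]

theorem cw_piY (m : List ℕ) (c : List Bool → R) (n : ℕ) :
    cw m (piY (E2.cmp c n)) = if (yx m).length = n then c (yx m) else 0 := by
  simp [piY_cmp, cw_yw, mem_W]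

theorem cw_pow (i : ℕ) (m : List ℕ) (q : FN R) :
    cw m (ι R 0 ^ i * q) = if m.take i = List.replicate i 0 then cw (m.drop i) q else 0 := by
  induction i generalizing m with
  | zero => simp
  | succ i ih =>
    rw [pow_succ', mul_assoc, cw_mul, ih]
    rcases m with _ | ⟨a, m⟩
    · simp [List.replicate_succ]
    · by_cases h : a = 0 <;> simp [List.replicate_succ, h]

theorem yx_len (m : List ℕ) : (yx m).length = (m.map (· + 1)).sum := by
  induction m with
  | nil => rfl
  | cons a m ih =>
    rw [List.map_cons, List.sum_cons, ← ih]
    simp only [yx, List.flatMap_cons, List.length_append, List.length_replicate,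
      List.length_singleton]

theorem yx_drop {i : ℕ} {m : List ℕ} (h : m.take i = List.replicate i 0) :
    (yx m).length = i + (yx (m.drop i)).length ∧ i ≤ m.length := by
  refine ⟨?_, by simpa using congrArg List.length h⟩
  conv_lhs => rw [← List.take_append_drop i m, h]
  simp [yx_len]

theorem len_le (m : List ℕ) : m.length ≤ (yx m).length := by
  rw [yx_len]
  induction m with
  | nil => simp
  | cons a m ih => simp only [List.length_cons, List.map_cons, List.sum_cons]; omega

theorem st_len (k l : List ℕ) : ∀ m ∈ st k l, (yx m).length = (yx k).length + (yx l).length := by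
  simp only [yx_len]
  induction k generalizing l with
  | nil => simp [st]
  | cons a k ih =>
    intro m hm
    simp only [st, List.mem_append, List.mem_flatMap, List.mem_map, List.mem_range] at hm
    rcases hm with ⟨i, _, w, hw, rfl⟩ | ⟨i, hi, w, hw, rfl⟩
    · have := congrArg (fun l => (l.map (· + 1)).sum) (List.take_append_drop i l)
      simp only [List.map_append, List.sum_append, List.map_cons, List.sum_cons, ih _ w hw] at this ⊢
      omega
    · have := congrArg (fun l => (l.map (· + 1)).sum) (List.take_append_drop i l)
      rw [List.drop_eq_getElem_cons hi] at this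
      simp only [List.map_append, List.sum_append, List.map_cons, List.sum_cons, ih _ w hw,
        List.getD_eq_getElem _ _ hi] at this ⊢
      omega

variable [Algebra ℚ R]

theorem cw_PR (Φ : List Bool → R) (m : List ℕ) (n : ℕ) :
    cw m (coeff n (PR (corr (th Φ)) Φ)) = if (yx m).length = n then reg (th Φ) m else 0 := by
  have e : ∀ i j, cw m (coeff i ((JP (corr (th Φ))).map (jj (K := R)).toRingHom) * coeff j (PY Φ)) =
      if m.take i = List.replicate i 0 ∧ (yx m).length = i + j then
        coeff i (corr (th Φ)) * th Φ (yx (m.drop i)) else 0 := by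
    intro i j
    rw [coeff_map, coeff_JP, coeff_PY, theta_cmp]
    simp only [AlgHom.toRingHom_eq_coe, RingHom.coe_coe, map_smul, map_pow, jj, Polynomial.aeval_X,
      smul_mul_assoc, cw_pow, cw_piY, smul_eq_mul]
    by_cases h : m.take i = List.replicate i 0
    · simp [h, (yx_drop h).1]
    · simp [h]
  rw [PR, coeff_mul, map_sum, Nat.sum_antidiagonal_eq_sum_range_succ_mk]
  simp only [e]
  split_ifs with h
  · rw [reg]
    symm
    refine (sum_subset (range_subset_range.2 (by have := len_le m; omega)) fun i _ hi => ?_).trans
      (sum_congr rfl fun i hi => ?_)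
    · exact if_neg fun hc => hi (mem_range.2 (Nat.lt_succ_of_le (yx_drop hc).2))
    · have := mem_range.1 hi
      simp [show (yx m).length = i + (n - i) by omega]
  · refine sum_eq_zero fun i hi => if_neg fun hc => h ?_
    have := mem_range.1 hi
    omega

omit [Algebra ℚ R] in
theorem gl_th {Φ : List Bool → R} [Algebra ℚ R] (h : GrpLike Φ) : GrpLike (th Φ) := by
  refine ⟨by simp [th, h.1], fun u v => ?_⟩
  rw [th, th, mul_mul_mul_comm, h.2, ← pow_add, ← List.sum_map_mul_left]
  refine congrArg _ (List.map_congr_left fun w hw => ?_)
  have := GI.sh_wt (fun s => if s = true then 1 else 0) u v w hw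
  have e : ∀ w : List Bool, (w.map fun s => if s = true then 1 else 0).sum = w.count true := by
    intro w
    induction w with
    | nil => rfl
    | cons s w ih => cases s <;> simp [ih, add_comm]
  rw [th, ← e w, this, e, e]

/-- Furusho: the pentagon implies the regularised double shuffle relations. -/
theorem th_mem {Φ : List Bool → R} (h : Φ ∈ GT R) : th Φ ∈ GStmt.DS R := by
  have z := GI.low_three h.2.2.2 h.1.1 (GI.xy_zero h)
  refine ⟨gl_th h.1, by simp [th, z], by simp [th, z], by simp [th, z], fun k l => ?_⟩
  have e := congrArg (fun F => c2 k l (coeff ((yx k).length + (yx l).length) F))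
    ((gl_corr h.2.2.2 h.1.1).trans (comm_map _ _).symm)
  simp only [coeff_mul, coeff_map, map_sum, i1, i2, AlgHom.toRingHom_eq_coe,
    RingHom.coe_coe, Algebra.TensorProduct.includeLeft_apply,
    Algebra.TensorProduct.includeRight_apply, Algebra.TensorProduct.tmul_mul_tmul, mul_one, one_mul,
    c2_tmul, c2_dst, cw_PR] at e
  rw [sum_eq_single_of_mem ((yx k).length, (yx l).length) (by simp), if_pos rfl, if_pos rfl] at e
  · rw [← e]
    exact congrArg _ (List.map_congr_left fun m hm => if_pos (st_len k l m hm))
  · intro p hp hne
    have := HasAntidiagonal.mem_antidiagonal.1 hp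
    rw [if_neg fun hc => hne (Prod.ext hc.symm (by simp only; omega)), zero_mul]

end Pool.Agent.DD.GD
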