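import Pool.Agent.Lib.DD.GD3

/-! The double shuffle group from the double shuffle Lie algebra. -/

set_option autoImplicit false

noncomputable section

namespace Pool.Agent.DD.GD

open Pool.Agent.DR Pool.Agent.DD.F64 Pool.Agent.DD.DS Pool.Agent.DD.F Pool.Agent.DD.GStmt Finset
  Module TensorProduct FreeAlgebra PowerSeries

attribute [local instance 100] LieRing.ofAssociativeRing

/-- the inclusion of the double shuffle Lie algebra -/
def HL : Prop := ∀ n, 3 ≤ n → ∀ f : FA ℚ, S39.IsLie f → f ∈ Hn ℚ n → Stuffle (theta f) →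
  S39.LPent f

theorem hl_of (h : Q1) : HL := by
  intro n hn f h1 h2 h3
  obtain ⟨ψ, rfl⟩ := (H56.isLie_iff_range _).1 h1
  obtain ⟨b, hb, e⟩ := GRT.cmp_iota hn ψ
  rw [GRT.cmp_of h2, if_pos rfl] at e
  have h4 : DD.H56.evL F.x (-F.y) b ∈ ds := ⟨D64.th_lcs hb, by rw [D64.iota_th, e]; exact h3⟩
  rw [← h] at h4
  obtain ⟨b', hb', e'⟩ := h4
  have h5 := congrArg (fun z => theta (DD.H56.iota ℚ Bool z)) e'
  simp only [D64.iota_th, D64.theta_theta, e] at h5
  exact h5 ▸ ((GRT.grt_iff b').1 hb').2.2.2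

variable {R : Type} [CommRing R]

theorem prim_of {α : Type} [DecidableEq α] {P : List α → List α → List (List α)}
    (h1 : ∀ l, P [] l = [l]) (h2 : ∀ k, P k [] = [k]) {p : FreeAlgebra R α}
    {z : FreeAlgebra R α ⊗[R] FreeAlgebra R α}
    (hz : ∀ k l, c2 k l z = ((P k l).map fun m => cw m p).sum) (h0 : cw [] p = 0)
    (h : ∀ k l, k ≠ [] → l ≠ [] → ((P k l).map fun m => cw m p).sum = 0) :
    z = p ⊗ₜ 1 + 1 ⊗ₜ p := by
  refine ext_c2 fun k l => ?_
  rw [hz]
  by_cases hk : k = []
  · simp [hk, h1, h0, cw_one]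
  by_cases hl : l = []
  · simp [hl, h2, h0, cw_one]
  simp [h k l hk hl, cw_one, Ne.symm hk, Ne.symm hl]

theorem pent_lim {Φ : List Bool → R}
    (h : ∀ n, ∃ Φ' : List Bool → R, Pentagon Φ' ∧ ∀ u : List Bool, u.length ≤ n → Φ' u = Φ u) :
    Pentagon Φ := by
  ext1 n
  obtain ⟨Φ', hp, e⟩ := h n
  have s : ∀ (p q : RingQuot (Rel R)), ∀ i ≤ n, coeff i (ser Φ p q) = coeff i (ser Φ' p q) :=
    fun p q i hi => by
      rw [coeff_ser, coeff_ser]
      exact sum_congr rfl fun u hu => by rw [e u (mem_W.1 hu ▸ hi)]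
  have m : ∀ {F F' G G' : PowerSeries (RingQuot (Rel R))}, (∀ i ≤ n, coeff i F = coeff i F') →
      (∀ i ≤ n, coeff i G = coeff i G') → ∀ i ≤ n, coeff i (F * G) = coeff i (F' * G') := by
    intro F F' G G' h1 h2 i hi
    rw [coeff_mul, coeff_mul]
    refine sum_congr rfl fun p hp => ?_
    have := HasAntidiagonal.mem_antidiagonal.1 hp
    rw [h1 _ (by omega), h2 _ (by omega)]
  rw [m (s _ _) (s _ _) n le_rfl, m (m (s _ _) (s _ _)) (s _ _) n le_rfl, hp]

theorem yx_pos {k : List ℕ} (h : k ≠ []) : 0 < (yx k).length :=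
  (List.length_pos_iff.2 h).trans_le (len_le k)

theorem sum_sub {β : Type} (L : List β) (f g : β → R) :
    (L.map fun b => f b - g b).sum = (L.map f).sum - (L.map g).sum := by
  induction L with
  | nil => simp
  | cons a L ih => simp only [List.map_cons, List.sum_cons, ih]; ring

theorem th_th (Φ : List Bool → R) : th (th Φ) = Φ := funext fun w => by
  rw [th, th, ← mul_assoc, ← mul_pow, neg_mul_neg, one_mul, one_pow, one_mul]

variable [Algebra ℚ R]

section agree
variable {Ψ Ψ' : List Bool → R} {N : ℕ} (h : ∀ u : List Bool, u.length < N + 1 → Ψ u = Ψ' u)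
include h

theorem corr_lt : ∀ i ≤ N, coeff i (corr Ψ) = coeff i (corr Ψ') := by
  intro n
  induction n using Nat.strong_induction_on with
  | _ n ih =>
    intro hn
    rcases n with _ | n
    · rw [(corr_rec Ψ).1, (corr_rec Ψ').1]
    rw [← sub_eq_zero]
    refine GI.nsmul_cancel n.succ_ne_zero ?_
    push_cast
    rw [mul_sub, mul_comm, (corr_rec Ψ).2, mul_comm, (corr_rec Ψ').2, sub_eq_zero]
    refine sum_congr rfl fun p hp => ?_
    have := HasAntidiagonal.mem_antidiagonal.1 hp
    rw [ih _ (by omega) (by omega), h _ (by simp [yx]; omega)]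

theorem corr_top : coeff (N + 1) (corr Ψ) - coeff (N + 1) (corr Ψ') =
    ((-1) ^ N / (N + 1) : ℚ) • (Ψ (yx [N]) - Ψ' (yx [N])) := by
  rw [← sub_eq_zero]
  refine GI.nsmul_cancel N.succ_ne_zero ?_
  rw [mul_sub, Algebra.smul_def, ← mul_assoc, ← map_natCast (algebraMap ℚ R), ← map_mul,
    Nat.cast_succ, mul_div_cancel₀ _ (by exact_mod_cast N.succ_ne_zero)]
  simp only [map_add, map_natCast, map_one, map_pow, map_neg]
  rw [mul_sub, mul_comm, (corr_rec Ψ).2, mul_comm, (corr_rec Ψ').2, ← sum_sub_distrib,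
    sum_eq_single_of_mem (0, N) (by simp)]
  · simp [(corr_rec Ψ).1, (corr_rec Ψ').1, mul_sub]
  · intro p hp hne
    have := HasAntidiagonal.mem_antidiagonal.1 hp
    have h1 : p.2 ≠ N := fun e => hne (Prod.ext (by simp only; omega) e)
    rw [corr_lt h _ (by omega), h _ (by simp [yx]; omega), sub_self]

theorem reg_lt {m : List ℕ} (hm : (yx m).length < N + 1) : reg Ψ m = reg Ψ' m := by
  refine sum_congr rfl fun i _ => ?_
  split_ifs with hi
  · have := (yx_drop hi).1
    rw [corr_lt h _ (by omega), h _ (by omega)]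
  · rfl

theorem reg_top (h1 : Ψ [] = 1) {m : List ℕ} (hm : (yx m).length = N + 1) :
    reg Ψ m - reg Ψ' m = Ψ (yx m) - Ψ' (yx m) + if m = List.replicate (N + 1) 0 then
      ((-1) ^ N / (N + 1) : ℚ) • (Ψ (yx [N]) - Ψ' (yx [N])) else 0 := by
  rw [reg, reg, ← sum_sub_distrib, sum_range_succ', add_comm]
  congr 1
  · simp [(corr_rec Ψ).1, (corr_rec Ψ').1]
  have z : ∀ i, i ≠ N → (if m.take (i + 1) = List.replicate (i + 1) 0 then
      coeff (i + 1) (corr Ψ) * Ψ (yx (m.drop (i + 1))) else 0) -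
      (if m.take (i + 1) = List.replicate (i + 1) 0 then
        coeff (i + 1) (corr Ψ') * Ψ' (yx (m.drop (i + 1))) else 0) = 0 := fun i hne => by
    split_ifs with hi
    · have := (yx_drop hi).1
      rw [corr_lt h _ (by omega), h _ (by omega), sub_self]
    · exact sub_self _
  split_ifs with e
  · rw [sum_eq_single_of_mem N (by simp [e]) fun i _ => z i, ← corr_top h]
    simp [e, yx, h1, ← h [] (by simp)]
  · refine sum_eq_zero fun i _ => ?_
    by_cases hi : i = N
    · rw [hi, if_neg, if_neg, sub_self] <;> intro hc <;> refine e ?_ <;>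
        rw [← hc, List.take_of_length_le (hm ▸ len_le m)]
    · exact z i hi

end agree

theorem cw_star (d : List Bool → ℚ) (N : ℕ) (m : List ℕ) :
    cw m (DS.star (E2.cmp d (N + 1))) = if (yx m).length = N + 1 then d (yx m) +
      if m = List.replicate (N + 1) 0 then ((-1) ^ N / (N + 1) : ℚ) * d (yx [N]) else 0 else 0 := by
  have c : ∀ n, cf (E2.cmp d (N + 1)) (List.replicate n false ++ [true]) =
      if n = N then d (yx [n]) else 0 := fun n =>
    (CO.co_sum (N + 1) d (List.replicate n false ++ [true])).trans (by simp [yx])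
  rw [DS.star, finsum_eq_single _ N fun n hn => by simp [c, hn], map_add, cw_piY, c, if_pos rfl,
    map_smul, yy, ← mul_one (ι ℚ 0 ^ _), cw_pow, cw_one]
  by_cases e : m = List.replicate (N + 1) 0
  · simp [e, yx_len]
  · have : ¬ (m.take (N + 1) = List.replicate (N + 1) 0 ∧ [] = m.drop (N + 1)) := fun h => e (by
      rw [← List.take_append_drop (N + 1) m, h.1, ← h.2, List.append_nil])
    rw [← ite_and, if_neg this, if_neg e]
    simp

theorem lpent_diff (H : HL) {Φ Φ' : List Bool → R} (h : th Φ ∈ GStmt.DS R) (h' : Φ' ∈ GT R) {N : ℕ}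
    (hN : 2 ≤ N) (e : ∀ u : List Bool, u.length < N + 1 → Φ u = Φ' u) :
    S39.LPent (E2.cmp (fun u => Φ u - Φ' u) (N + 1)) := by
  have g : GrpLike Φ := th_th Φ ▸ gl_th h.1
  have d := th_mem h'
  have e' : ∀ u : List Bool, u.length < N + 1 → th Φ u = th Φ' u := fun u hu => by
    rw [th, th, e u hu]
  refine Submodule.span_induction (p := fun f _ => S39.LPent f) ?_ (fun B _ _ T => by simp)
    (fun f g _ _ h1 h2 B _ _ T => ?_) (fun r f _ h1 B _ _ T => ?_) (GI.cmp_span _ _)
  · rintro _ ⟨l, rfl⟩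
    refine GI.lpent_bc (H _ (by omega) _ ?_ (CO.sum_mem _ _) ?_)
    · have c : ∀ m, cw m (E2.cmp (fun u => l (Φ u - Φ' u)) (N + 1)) =
          if m.length = N + 1 then l (Φ m - Φ' m) else 0 := CO.co_sum _ _
      refine (H56.isLie_iff _).2 (DD.H56.lie_of_prim ?_)
      refine prim_of (fun _ => rfl) GI.sh_nil (c2_cop _) (by rw [c]; simp) fun a b ha hb => ?_
      have hw : ∀ w ∈ GStmt.sh a b, w.length = a.length + b.length := fun w hw => by
        simpa using GI.sh_wt (fun _ => 1) a b w hw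
      have := List.length_pos_iff.2 ha
      have := List.length_pos_iff.2 hb
      by_cases hn : a.length + b.length = N + 1
      · rw [List.map_congr_left fun w h => (c w).trans (if_pos ((hw w h).trans hn)),
          ← Function.comp_def l, ← List.map_map, ← map_list_sum, sum_sub, ← g.2, ← h'.1.2,
          e a (by omega), e b (by omega), sub_self, map_zero]
      · rw [List.map_congr_left fun w h => (c w).trans (if_neg fun hc => hn ((hw w h).symm.trans hc))]
        simp
    · have c : ∀ m, cw m (DS.star (theta (E2.cmp (fun u => l (Φ u - Φ' u)) (N + 1)))) =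
          if (yx m).length = N + 1 then l (reg (th Φ) m - reg (th Φ') m) else 0 := fun m => by
        have t : ∀ u, th (fun u => l (Φ u - Φ' u)) u = l (th Φ u - th Φ' u) := fun u => by
          rw [th, th, th, ← mul_sub, ← smul_eq_mul, ← map_smul, Algebra.smul_def]
          simp
        rw [theta_cmp, cw_star]
        refine if_congr Iff.rfl ?_ rfl |>.trans (ite_congr rfl (fun hm => by
          rw [reg_top e' h.1.1 hm]) fun _ => rfl)
        rw [map_add, t, t, apply_ite l, map_smul, map_zero, smul_eq_mul]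
      refine prim_of (fun _ => rfl) st_nil (c2_dst _) (by rw [c]; simp [yx]) fun a b ha hb => ?_
      have := yx_pos ha
      have := yx_pos hb
      by_cases hn : (yx a).length + (yx b).length = N + 1
      · rw [List.map_congr_left fun w h => (c w).trans (if_pos ((st_len a b w h).trans hn)),
          ← Function.comp_def l, ← List.map_map, ← map_list_sum, sum_sub, ← h.2.2.2.2,
          ← d.2.2.2.2, reg_lt e' (m := a) (by omega), reg_lt e' (m := b) (by omega), sub_self,
          map_zero]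
      · rw [List.map_congr_left fun w h =>
          (c w).trans (if_neg fun hc => hn ((st_len a b w h).symm.trans hc))]
        simp
  · have a := h1 B T
    have b := h2 B T
    simp only [map_add]
    linear_combination (norm := abel1) a + b
  · simpa only [map_smul, smul_add] using congrArg (r • ·) (h1 B T)

theorem mem_of_th (H : HL) {Φ : List Bool → R} (h : th Φ ∈ GStmt.DS R) : Φ ∈ GT R := by
  have g : GrpLike Φ := th_th Φ ▸ gl_th h.1
  have a1 : ∀ s, Φ [s] = 0 := by
    rintro (_ | _)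
    · simpa [th] using h.2.1
    · simpa [th] using h.2.2.1
  have a2 : Φ [false, true] = 0 := by simpa [th] using h.2.2.2.1
  have a3 : ∀ a b, Φ [a, b] + Φ [b, a] = 0 := fun a b => by
    have := g.2 [a] [b]
    rw [a1, zero_mul, GI.sh_cons] at this
    simpa [GStmt.sh, GI.sh_nil] using this.symm
  have a4 : ∀ a, Φ [a, a] = 0 := fun a =>
    GI.nsmul_cancel (n := 2) (by simp) (by rw [← a3 a a]; push_cast; ring)
  have key : ∀ n, ∃ Φ' ∈ GT R, ∀ u : List Bool, u.length < n + 3 → Φ u = Φ' u := by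
    intro n
    induction n with
    | zero =>
      have s : ∀ p q : RingQuot (Rel R), ser (fun u => if u = [] then (1 : R) else 0) p q = 1 := by
        intro p q
        ext1 n
        cases n <;> simp [coeff_ser, mem_W, coeff_one]
      refine ⟨fun u => if u = [] then 1 else 0,
        GI.mem_GT.2 ⟨by simp, by simp [Pentagon, s], by simp⟩, fun u hu => ?_⟩
      match u, hu with
      | [], _ => simpa using g.1
      | [a], _ => simpa using a1 a
      | [false, false], _ => simpa using a4 _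
      | [true, true], _ => simpa using a4 _
      | [false, true], _ => simpa using a2
      | [true, false], _ => simpa [a2] using a3 false true
    | succ n ih =>
      obtain ⟨Φ', h', e⟩ := ih
      obtain ⟨Ψ, p1, p2, p3, -⟩ := E2.act_pent (by omega)
        (GI.gr_of (by omega) (lpent_diff H h h' (N := n + 2) (by omega) e)) h'.2.2.2 h'.1.1
      refine ⟨Ψ, GI.mem_GT.2 ⟨by rw [p2 _ (by simp), h'.1.1], p1,
        by rw [p2 _ (by simp), GI.xy_zero h']⟩, fun u hu => ?_⟩
      rcases (Nat.lt_succ_iff.1 hu).lt_or_eq with hl | hl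
      · rw [p2 u hl, e u hl]
      · rw [p3 u hl, add_sub_cancel]
  refine GI.mem_GT.2 ⟨g.1, pent_lim fun n => ?_, a2⟩
  obtain ⟨Φ', h', e⟩ := key n
  exact ⟨Φ', h'.2.2.2, fun u hu => (e u (by omega)).symm⟩

omit [Algebra ℚ R] in
theorem ser_th {B : Type} [Ring B] [Algebra R B] (Φ : List Bool → R) (p q : B) :
    ser (th Φ) p q = ser Φ p (-q) := by
  have h : ∀ u : List Bool, wd p (-q) u = ((-1) ^ u.count true : R) • wd p q u := by
    intro u
    induction u with
    | nil => simp
    | cons s u ih => cases s <;> simp [ih, pow_succ]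
  ext1 n
  simp only [coeff_ser, h, th, smul_smul, mul_comm]

omit [Algebra ℚ R] in
theorem comp_th {Φ Ψ Θ : List Bool → R} (h : Comp Φ Ψ Θ) : Comp (th Φ) (th Ψ) (th Θ) := by
  obtain ⟨Q, h1, h2⟩ := h
  let t := PowerSeries.mapAlgHom (theta (K := R))
  have tx : theta (GStmt.x R) = GStmt.x R := by simp [theta, GStmt.x]
  have ty : theta (GStmt.y R) = -GStmt.y R := by simp [theta, GStmt.y]
  have e : ∀ Φ : List Bool → R,
      t (ser Φ (GStmt.x R) (GStmt.y R)) = ser (th Φ) (GStmt.x R) (GStmt.y R) := fun Φ => by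
    rw [ser_th, ← ty]
    exact (LIFT.map_ser R theta Φ _ _).trans (by rw [tx])
  have c : ∀ a, t (C a) = C (theta a) := fun a => PowerSeries.map_C _ _
  refine ⟨-t Q, ?_, ?_⟩
  · have := congrArg t h1
    rw [map_mul, map_mul, e, c, ty, map_neg, neg_mul] at this
    rw [mul_neg, this, neg_neg]
  · rw [← e, h2, map_mul, e, ser_th Ψ, neg_neg, ← tx, ← c, ← LIFT.map_ser R t, tx]
    congr 1
    ext1 n
    simp [GStmt.diag, t, tx, PowerSeries.mapAlgHom_apply]

/-- `G^DS ≅ GT¹ ≅ U^mot` -/
def Full : Prop := ∃ c : List Bool → List ℕ →₀ ℚ,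
  (∀ w, ∀ u ∈ (c w).support, (u.map fun k => 2 * k + 3).sum = w.length) ∧
  ∀ (R : Type) [CommRing R] [Algebra ℚ R],
    Set.BijOn (M c) {g : List ℕ → R | GrpLike g} (GT R) ∧ Set.BijOn th (GT R) (GStmt.DS R) ∧
    (∀ g h : List ℕ → R, GrpLike g → GrpLike h → Comp (M c g) (M c h) (M c (conv g h))) ∧
    ∀ Φ Ψ Θ : List Bool → R, Comp Φ Ψ Θ → Comp (th Φ) (th Ψ) (th Θ)

theorem full_of (h : Q1) : Full := by
  obtain ⟨c, h1, h2⟩ := GI.iso
  refine ⟨c, h1, fun R _ _ => ⟨(h2 R).1, ⟨fun _ => th_mem,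
    (Function.Involutive.injective th_th).injOn, fun Ψ hΨ => ⟨th Ψ, ?_, th_th Ψ⟩⟩, (h2 R).2,
    fun _ _ _ => comp_th⟩⟩
  exact mem_of_th (hl_of h) ((th_th Ψ).symm ▸ hΨ)

theorem full_of_A (h1 : St_A1) (h2 : St_A2) : Full := full_of (q1_of_A h1 h2)

end Pool.Agent.DD.GD
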