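import Pool.Agent.Lib.DR.B_SH1

set_option autoImplicit false

noncomputable section

namespace Pool.Agent.DD.I17

open Finset Pool.Agent.DR

universe v

/-- normal form indices: a word in the three fibre letters and a word in the two base letters -/
abbrev Ix : Type := List (Fin 3) × List Bool

/-- the commutator of base letter `i` with fibre letter `t` -/
def qq {B : Type*} [Ring B] (β : Fin 3 → B) : Bool → Fin 3 → B
  | false => ![β 0 * β 2 - β 2 * β 0, 0, β 2 * β 0 - β 0 * β 2]
  | true => ![0, β 1 * β 2 - β 2 * β 1, β 2 * β 1 - β 1 * β 2]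

section mod
variable (R : Type*) [CommRing R]

def L (t : Fin 3) : Module.End R (Ix →₀ R) := Finsupp.lmapDomain R R fun x => (t :: x.1, x.2)

theorem L_single (t : Fin 3) (x : Ix) (r : R) :
    L R t (Finsupp.single x r) = Finsupp.single (t :: x.1, x.2) r := by
  simp [L]

def act (i : Bool) : List (Fin 3) → List Bool → Ix →₀ R
  | [], g => Finsupp.single ([], i :: g) 1
  | t :: f, g => L R t (act i f g) + qq (L R) i t (Finsupp.single (f, g) 1)

def A (i : Bool) : Module.End R (Ix →₀ R) := Finsupp.linearCombination R fun x => act R i x.1 x.2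

theorem A_single (i : Bool) (x : Ix) : A R i (Finsupp.single x 1) = act R i x.1 x.2 := by
  simp [A]

theorem AL (i : Bool) (t : Fin 3) : A R i * L R t = L R t * A R i + qq (L R) i t := by
  refine Finsupp.lhom_ext' fun x => LinearMap.ext_ring ?_
  simp only [LinearMap.comp_apply, Finsupp.lsingle_apply, Module.End.mul_apply, L_single, A_single,
    LinearMap.add_apply, act]

def TT : Br (Module.End R (Ix →₀ R)) where
  a0 := A R false
  a1 := A R true
  c := L R 2
  b0 := L R 0
  b1 := L R 1
  h1 := by simp [Commute, SemiconjBy, mul_add, add_mul, AL, qq]; abel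
  h2 := by simp [Commute, SemiconjBy, mul_add, add_mul, AL, qq]; abel
  h3 := by simp [Commute, SemiconjBy, mul_add, add_mul, AL, qq]; abel
  h4 := by simp [Commute, SemiconjBy, mul_add, add_mul, AL, qq]; abel
  h5 := by simp [Commute, SemiconjBy, mul_add, add_mul, AL, qq]; abel
  h6 := by simp [Commute, SemiconjBy, mul_add, add_mul, AL, qq]; abel
  h7 := by simp [Commute, SemiconjBy, AL, qq]
  h8 := by simp [Commute, SemiconjBy, AL, qq]

def vac : Ix →₀ R := Finsupp.single ([], []) 1

end mod

section sec
variable {R : Type*} [CommRing R] {B : Type*} [Ring B] [Algebra R B] (T : Br B)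

def fb : Fin 3 → B := ![T.b0, T.b1, T.c]

def bs (i : Bool) : B := if i then T.a1 else T.a0

def mon (x : Ix) : B := (x.1.map (fb T)).prod * wd T.a0 T.a1 x.2

theorem bs_fb (i : Bool) (t : Fin 3) : bs T i * fb T t = fb T t * bs T i + qq (fb T) i t := by
  have h1 := T.h1.eq
  have h3 := T.h3.eq
  have h4 := T.h4.eq
  have h5 := T.h5.eq
  have h7 := T.h7.eq
  have h8 := T.h8.eq
  simp only [mul_add, add_mul] at h1 h3 h4 h5
  cases i <;> fin_cases t <;> simp [bs, fb, qq]
  · linear_combination (norm := abel_nf) -h1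
  · exact h8
  · linear_combination (norm := abel_nf) -h3
  · exact h7.symm
  · linear_combination (norm := abel_nf) -h5
  · linear_combination (norm := abel_nf) -h4

variable (R) in
def sc : (Ix →₀ R) →ₗ[R] B := Finsupp.linearCombination R (mon T)

/-- the operator `e` corresponds to left multiplication by `b` -/
def Rl (e : Module.End R (Ix →₀ R)) (b : B) : Prop := ∀ z, sc R T (e z) = b * sc R T z

variable {T}

theorem Rl.of {e : Module.End R (Ix →₀ R)} {b : B}
    (h : ∀ x, sc R T (e (Finsupp.single x 1)) = b * mon T x) : Rl T e b := fun z => by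
  have : (sc R T) ∘ₗ e = (LinearMap.mulLeft R b) ∘ₗ sc R T :=
    Finsupp.lhom_ext' fun x => LinearMap.ext_ring (by simpa [sc] using h x)
  exact LinearMap.congr_fun this z

theorem Rl.add {e e' : Module.End R (Ix →₀ R)} {b b' : B} (h : Rl T e b) (h' : Rl T e' b') :
    Rl T (e + e') (b + b') := fun z => by rw [LinearMap.add_apply, map_add, h, h', add_mul]

theorem Rl.sub {e e' : Module.End R (Ix →₀ R)} {b b' : B} (h : Rl T e b) (h' : Rl T e' b') :
    Rl T (e - e') (b - b') := fun z => by rw [LinearMap.sub_apply, map_sub, h, h', sub_mul]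

theorem Rl.mul {e e' : Module.End R (Ix →₀ R)} {b b' : B} (h : Rl T e b) (h' : Rl T e' b') :
    Rl T (e * e') (b * b') := fun z => by rw [Module.End.mul_apply, h, h', mul_assoc]

theorem Rl.smul {e : Module.End R (Ix →₀ R)} {b : B} (h : Rl T e b) (r : R) :
    Rl T (r • e) (r • b) := fun z => by rw [LinearMap.smul_apply, map_smul, h, smul_mul_assoc]

theorem Rl.zero : Rl T (0 : Module.End R (Ix →₀ R)) 0 := fun z => by simp

theorem Rl.one : Rl T (1 : Module.End R (Ix →₀ R)) 1 := fun z => by simp

theorem Rl.sum {ι : Type*} {s : Finset ι} {e : ι → Module.End R (Ix →₀ R)} {b : ι → B}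
    (h : ∀ i ∈ s, Rl T (e i) (b i)) : Rl T (∑ i ∈ s, e i) (∑ i ∈ s, b i) := fun z => by
  rw [LinearMap.sum_apply, map_sum, sum_mul]
  exact sum_congr rfl fun i hi => h i hi z

theorem rl_L (t : Fin 3) : Rl T (L R t) (fb T t) := Rl.of fun x => by
  simp [L_single, sc, mon, mul_assoc]

theorem rl_q (i : Bool) (t : Fin 3) : Rl T (qq (L R) i t) (qq (fb T) i t) := by
  cases i <;> fin_cases t <;> first
    | exact Rl.zero
    | exact ((rl_L _).mul (rl_L _)).sub ((rl_L _).mul (rl_L _))

theorem rl_A (i : Bool) : Rl T (A R i) (bs T i) := Rl.of fun x => by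
  obtain ⟨f, g⟩ := x
  rw [A_single]
  induction f with
  | nil => cases i <;> simp [act, sc, mon, bs]
  | cons t f ih =>
    have e : sc R T (Finsupp.single (f, g) 1) = mon T (f, g) := by simp [sc]
    have e2 : mon T (t :: f, g) = fb T t * mon T (f, g) := by simp [mon, mul_assoc]
    simp only [act] at ih ⊢
    rw [map_add, rl_L, rl_q, ih, e, e2, ← mul_assoc, ← mul_assoc, bs_fb, add_mul]

theorem Rl.wd {p q : Module.End R (Ix →₀ R)} {p' q' : B} (hp : Rl T p p') (hq : Rl T q q')
    (u : List Bool) : Rl T (wd p q u) (wd p' q' u) := by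
  induction u with
  | nil => exact Rl.one
  | cons s u ih =>
    cases s
    · simpa using hp.mul ih
    · simpa using hq.mul ih

variable (T) in
def RS (F : PowerSeries (Module.End R (Ix →₀ R))) (G : PowerSeries B) : Prop :=
  ∀ n, Rl T (PowerSeries.coeff n F) (PowerSeries.coeff n G)

theorem RS.mul {F F' : PowerSeries (Module.End R (Ix →₀ R))} {G G' : PowerSeries B}
    (h : RS T F G) (h' : RS T F' G') : RS T (F * F') (G * G') := fun n => by
  rw [PowerSeries.coeff_mul, PowerSeries.coeff_mul]
  exact Rl.sum fun x _ => (h _).mul (h' _)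

theorem Rl.ser {p q : Module.End R (Ix →₀ R)} {p' q' : B} (hp : Rl T p p') (hq : Rl T q q')
    (Φ : List Bool → R) : RS T (ser Φ p q) (ser Φ p' q') := fun n => by
  rw [coeff_ser Φ p' q', show PowerSeries.coeff n (DR.ser Φ p q) = _ from coeff_ser Φ p q n]
  exact Rl.sum fun u _ => (hp.wd hq u).smul _

variable (T) in
/-- the defect of the pentagon -/
def df (Φ : List Bool → R) : PowerSeries B :=
  ser Φ T.b0 (T.c + T.b1) * ser Φ (T.a0 + T.c) T.a1 -
    ser Φ T.c T.a1 * ser Φ (T.a0 + T.b0) (T.a1 + T.b1) * ser Φ T.b0 T.c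

variable (T) in
theorem sc_df (Φ : List Bool → R) (n : ℕ) :
    sc R T (PowerSeries.coeff n (df (TT R) Φ) (vac R)) = PowerSeries.coeff n (df T Φ) := by
  have a0 : Rl T (TT R).a0 T.a0 := rl_A false
  have a1 : Rl T (TT R).a1 T.a1 := rl_A true
  have b0 : Rl T (TT R).b0 T.b0 := rl_L 0
  have b1 : Rl T (TT R).b1 T.b1 := rl_L 1
  have c : Rl T (TT R).c T.c := rl_L 2
  have h := ((((b0.ser (c.add b1) Φ).mul ((a0.add c).ser a1 Φ)) n).sub
    ((((c.ser a1 Φ).mul ((a0.add b0).ser (a1.add b1) Φ)).mul (b0.ser c Φ)) n)) (vac R)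
  have e : sc R T (vac R) = 1 := by simp [sc, vac, mon]
  rw [e, mul_one] at h
  rw [df, df, map_sub, map_sub]
  exact h

end sec

theorem mon_vac (R : Type*) [CommRing R] (x : Ix) :
    mon (TT R) x (vac R) = Finsupp.single x 1 := by
  obtain ⟨f, g⟩ := x
  have h : wd (TT R).a0 (TT R).a1 g (vac R) = Finsupp.single ([], g) 1 := by
    induction g with
    | nil => rfl
    | cons s g ih =>
      cases s
      · rw [wd_false, Module.End.mul_apply, ih]; exact A_single R false _
      · rw [wd_true, Module.End.mul_apply, ih]; exact A_single R true _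
  have hf : fb (TT R) = L R := by
    funext t
    fin_cases t <;> rfl
  simp only [mon, Module.End.mul_apply, h, hf]
  induction f with
  | nil => rfl
  | cons t f ih => rw [List.map_cons, List.prod_cons, Module.End.mul_apply, ih, L_single]

theorem ser_comp {R R' B : Type*} [CommRing R] [CommRing R'] [Ring B] [Algebra R R'] [Algebra R' B]
    [Algebra R B] [IsScalarTower R R' B] (Φ : List Bool → R) (p q : B) :
    ser (fun u => algebraMap R R' (Φ u)) p q = ser Φ p q := by
  ext n
  simp only [coeff_ser, algebraMap_smul]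

theorem df_comp {R R' B : Type*} [CommRing R] [CommRing R'] [Ring B] [Algebra R R'] [Algebra R' B]
    [Algebra R B] [IsScalarTower R R' B] (Φ : List Bool → R) (T : Br B) :
    df T (fun u => algebraMap R R' (Φ u)) = df T Φ := by
  simp only [df, ser_comp]

/-- the coordinates of the defect -/
def co {R : Type*} [CommRing R] (Φ : List Bool → R) (n : ℕ) : Ix →₀ R :=
  PowerSeries.coeff n (df (TT R) Φ) (vac R)

/-- The pentagon is a system of polynomial equations with integer coefficients. -/
theorem pent_iff {P : Type*} [CommRing P] {R : Type v} [CommRing R] (ρ : P →+* R)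
    (Φ : List Bool → P) : Pent (fun u => ρ (Φ u)) ↔ ∀ n x, ρ (co Φ n x) = 0 := by
  let : Algebra P R := ρ.toAlgebra
  have key : ∀ (B : Type v) [Ring B] [Algebra R B] (T : Br B) (n : ℕ),
      PowerSeries.coeff n (df T fun u => ρ (Φ u)) = (co Φ n).sum fun x r => ρ r • mon T x := by
    intro B _ _ T n
    let : Algebra P B := ((algebraMap R B).comp ρ).toAlgebra' fun r b => Algebra.commutes (ρ r) b
    have : IsScalarTower P R B := IsScalarTower.of_algebraMap_eq fun _ => rfl
    have h := sc_df T Φ n
    rw [← df_comp (R' := R) Φ T] at h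
    refine h.symm.trans ?_
    rw [sc, Finsupp.linearCombination_apply]
    exact Finsupp.sum_congr fun x _ => (algebraMap_smul R _ _).symm
  constructor
  · intro h n x
    have h1 := key _ (TT R) n
    rw [df, h _ (TT R), sub_self, map_zero] at h1
    have h2 := congrArg (fun e : Module.End R (Ix →₀ R) => e (vac R) x) h1
    simp only [Finsupp.sum, LinearMap.zero_apply, Finsupp.zero_apply, LinearMap.sum_apply,
      LinearMap.smul_apply, mon_vac, Finsupp.smul_single, smul_eq_mul, mul_one,
      Finsupp.finsetSum_apply] at h2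
    by_cases hx : x ∈ (co Φ n).support
    · rw [sum_eq_single x (fun y _ hy => Finsupp.single_eq_of_ne hy.symm) (fun h => absurd hx h),
        Finsupp.single_eq_same] at h2
      exact h2.symm
    · rw [Finsupp.notMem_support_iff.1 hx, map_zero]
  · intro h B _ _ T
    rw [← sub_eq_zero]
    ext n
    refine (key B T n).trans ?_
    simp [Finsupp.sum, h]

theorem Pent.map {R : Type*} [CommRing R] {R' : Type v} [CommRing R'] (ρ : R →+* R')
    {Φ : List Bool → R} (h : Pent Φ) : Pent fun u => ρ (Φ u) :=
  (pent_iff ρ Φ).2 fun n x => by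
    rw [show co Φ n x = 0 from (pent_iff (RingHom.id R) Φ).1 h n x, map_zero]

/-- the pentagon gives the product rule for commuting pairs -/
theorem glike {R : Type v} [CommRing R] {Φ : List Bool → R} (h : Pent Φ) (h1 : Φ [] = 1)
    {B : Type v} [Ring B] [Algebra R B] {p q s t : B} (a : Commute s p) (b : Commute s q)
    (c : Commute t p) (d : Commute t q) : ser Φ (p + s) (q + t) = ser Φ s t * ser Φ p q := by
  have z : ∀ x : B, Commute 0 x := Commute.zero_left
  have key : ∀ p q s t : B, Commute s p → Commute s q → Commute t p → Commute t q →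
      ser Φ s t * ser Φ p q = ser Φ 0 q * ser Φ (p + s) (q + t) * ser Φ s 0 := by
    intro p q s t a b c d
    have := h B ⟨p, q, 0, s, t, by simpa using a, by simpa using a.symm, z _, z _,
      by simpa using d, by simpa using d.symm, b, c.symm⟩
    simpa using this
  have e0 : ser Φ (0 : B) 0 = 1 := by
    have a := key 0 0 0 0 (z _) (z _) (z _) (z _)
    obtain ⟨y, hy⟩ := SH1.rinv h1 (0 : B) 0
    rw [add_zero] at a
    refine SH1.idem h1 ?_
    calc ser Φ (0 : B) 0 = ser Φ 0 0 * ser Φ 0 0 * y := by rw [mul_assoc, hy, mul_one]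
      _ = ser Φ 0 0 * ser Φ 0 0 * ser Φ 0 0 * y := congrArg (· * y) a
      _ = _ := by rw [mul_assoc, hy, mul_one]
  have e1 : ser Φ 0 q = 1 := by
    have a := key 0 q 0 0 (z _) (z _) (z _) (z _)
    rw [add_zero, add_zero, e0, one_mul, mul_one] at a
    exact SH1.idem h1 a
  have e2 : ser Φ s 0 = 1 := by
    have a := key 0 0 s 0 (z _).symm (z _).symm (z _) (z _)
    rw [zero_add, add_zero, e0, one_mul, mul_one] at a
    exact SH1.idem h1 a
  rw [key p q s t a b c d, e1, e2, one_mul, mul_one]

/-- the number of ways to split `w` into complementary subwords `u`, `v` -/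
def shn : List Bool → List Bool → List Bool → ℕ
  | [], u, v => if u = [] ∧ v = [] then 1 else 0
  | s :: w, u, v => (if u.head? = some s then shn w u.tail v else 0) +
      if v.head? = some s then shn w u v.tail else 0

section shf
variable (R : Type*) [CommRing R]

def lf (s : Bool) : Module.End R (List Bool × List Bool → R) where
  toFun f x := if x.1.head? = some s then f (x.1.tail, x.2) else 0
  map_add' f g := funext fun x => by
    simp only [Pi.add_apply]
    split_ifs <;> simp
  map_smul' r f := funext fun x => by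
    simp only [Pi.smul_apply]
    split_ifs <;> simp

def rg (s : Bool) : Module.End R (List Bool × List Bool → R) where
  toFun f x := if x.2.head? = some s then f (x.1, x.2.tail) else 0
  map_add' f g := funext fun x => by
    simp only [Pi.add_apply]
    split_ifs <;> simp
  map_smul' r f := funext fun x => by
    simp only [Pi.smul_apply]
    split_ifs <;> simp

def dl (a b : List Bool) : List Bool × List Bool → R := fun x => if x.1 = a ∧ x.2 = b then 1 else 0

variable {R}

theorem lf_apply (s : Bool) (f : List Bool × List Bool → R) (x : List Bool × List Bool) :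
    lf R s f x = if x.1.head? = some s then f (x.1.tail, x.2) else 0 := rfl

theorem rg_apply (s : Bool) (f : List Bool × List Bool → R) (x : List Bool × List Bool) :
    rg R s f x = if x.2.head? = some s then f (x.1, x.2.tail) else 0 := rfl

theorem lf_rg (s t : Bool) : Commute (lf R s) (rg R t) :=
  LinearMap.ext fun f => funext fun x => by
    simp only [Module.End.mul_apply, lf_apply, rg_apply]
    split_ifs <;> rfl

theorem wd_cons {B : Type*} [Monoid B] (g : Bool → B) (s : Bool) (w : List Bool) :
    wd (g false) (g true) (s :: w) = g s * wd (g false) (g true) w := by cases s <;> simp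

theorem wd_lf (w b : List Bool) : wd (lf R false) (lf R true) w (dl R [] b) = dl R w b := by
  induction w with
  | nil => rfl
  | cons s w ih =>
    rw [wd_cons (lf R), Module.End.mul_apply, ih]
    funext ⟨a, c⟩
    rcases a with _ | ⟨t, a⟩
    · simp [lf_apply, dl]
    · by_cases hs : t = s <;> by_cases h : a = w ∧ c = b <;> simp [lf_apply, dl, hs, h]

theorem wd_rg (w : List Bool) : wd (rg R false) (rg R true) w (dl R [] []) = dl R [] w := by
  induction w with
  | nil => rfl
  | cons s w ih =>
    rw [wd_cons (rg R), Module.End.mul_apply, ih]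
    funext ⟨a, c⟩
    rcases c with _ | ⟨t, c⟩
    · simp [rg_apply, dl]
    · by_cases hs : t = s <;> by_cases h : a = [] ∧ c = w <;> simp [rg_apply, dl, hs, h]

theorem wd_sh (w : List Bool) (x : List Bool × List Bool) :
    wd (rg R false + lf R false) (rg R true + lf R true) w (dl R [] []) x = shn w x.1 x.2 := by
  induction w generalizing x with
  | nil => simp [shn, dl]
  | cons s w ih =>
    rw [wd_cons fun s => rg R s + lf R s, Module.End.mul_apply, LinearMap.add_apply, Pi.add_apply,
      lf_apply, rg_apply, ih, ih, shn, add_comm]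
    push_cast
    rfl

end shf

/-- the shuffle relations follow from the pentagon -/
theorem shuffle {R : Type v} [CommRing R] {Φ : List Bool → R} (h : Pent Φ) (h1 : Φ [] = 1)
    (u v : List Bool) : Φ u * Φ v = ∑ w ∈ W (u.length + v.length), shn w u v • Φ w := by
  have g := congrArg (fun F : PowerSeries (Module.End R (List Bool × List Bool → R)) =>
    PowerSeries.coeff (u.length + v.length) F (dl R [] []) (u, v))
    (glike h h1 (lf_rg false false) (lf_rg false true) (lf_rg true false) (lf_rg true true))
  have cs : ∀ (p q : Module.End R (List Bool × List Bool → R)) (n : ℕ),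
      PowerSeries.coeff n (ser Φ p q) = ∑ u ∈ W n, Φ u • wd p q u := fun p q n => coeff_ser Φ p q n
  simp only [PowerSeries.coeff_mul, cs, sum_mul_sum, smul_mul_smul_comm, LinearMap.sum_apply,
    LinearMap.smul_apply, Module.End.mul_apply, wd_rg, wd_lf, Finset.sum_apply, Pi.smul_apply,
    wd_sh, smul_eq_mul] at g
  have e : ∑ x ∈ antidiagonal (u.length + v.length), ∑ a ∈ W x.1, ∑ b ∈ W x.2,
      Φ a * Φ b * dl R a b (u, v) = Φ u * Φ v := by
    rw [sum_eq_single_of_mem (u.length, v.length) (mem_antidiagonal.2 rfl),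
      sum_eq_single_of_mem u (mem_W.2 rfl), sum_eq_single_of_mem v (mem_W.2 rfl)]
    · simp [dl]
    · intro b _ hb
      simp [dl, hb.symm]
    · intro a _ ha
      simp [dl, ha.symm]
    · intro x _ hx
      refine sum_eq_zero fun a ha => sum_eq_zero fun b hb => ?_
      rw [dl, if_neg, mul_zero]
      rintro ⟨rfl, rfl⟩
      exact hx (Prod.ext (mem_W.1 ha).symm (mem_W.1 hb).symm)
  rw [← e, ← g]
  exact sum_congr rfl fun w _ => by rw [nsmul_eq_mul, mul_comm]

/-- the universal solution -/
theorem univ : ∃ (O : Type) (_ : CommRing O) (Ψ : List Bool → O), Pent Ψ ∧ Ψ [] = 1 ∧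
    (∀ z : O, ∃ c : List Bool →₀ ℤ, z = c.sum fun u n => n • Ψ u) ∧
    ∀ (R : Type v) [CommRing R] (Φ : List Bool → R), Pent Φ → Φ [] = 1 →
      ∃ e : O →+* R, ∀ u, e (Ψ u) = Φ u := by
  let P := MvPolynomial (List Bool) ℤ
  let X : List Bool → P := MvPolynomial.X
  let J : Ideal P := Ideal.span ({X [] - 1} ∪ {z | ∃ n x, co X n x = z})
  have hP : Pent fun u => Ideal.Quotient.mk J (X u) := (pent_iff _ X).2 fun n x =>
    Ideal.Quotient.eq_zero_iff_mem.2 (Ideal.subset_span (Or.inr ⟨n, x, rfl⟩))
  have h1 : Ideal.Quotient.mk J (X []) = 1 := by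
    rw [← map_one (Ideal.Quotient.mk J), Ideal.Quotient.eq]
    exact Ideal.subset_span (Or.inl rfl)
  refine ⟨P ⧸ J, inferInstance, fun u => Ideal.Quotient.mk J (X u), hP, h1, fun z => ?_,
    fun R _ Φ h h1' => ?_⟩
  · let S := Submodule.span ℤ (Set.range fun u => Ideal.Quotient.mk J (X u))
    have hm : ∀ u, ∀ y ∈ S, y * Ideal.Quotient.mk J (X u) ∈ S := by
      intro u y hy
      induction hy using Submodule.span_induction with
      | mem y hy =>
        obtain ⟨w, rfl⟩ := hy
        rw [shuffle hP h1 w u]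
        exact sum_mem fun t _ => nsmul_mem (Submodule.subset_span (Set.mem_range_self t)) _
      | zero => simp
      | add a b _ _ ha hb => rw [add_mul]; exact add_mem ha hb
      | smul n a _ ha => rw [smul_mul_assoc]; exact S.smul_mem n ha
    have hz : z ∈ S := by
      obtain ⟨p, rfl⟩ := Ideal.Quotient.mk_surjective z
      induction p using MvPolynomial.induction_on with
      | C n =>
        rw [eq_intCast (MvPolynomial.C : ℤ →+* P), map_intCast, ← zsmul_one, ← h1]
        exact S.smul_mem n (Submodule.subset_span ⟨[], rfl⟩)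
      | add a b ha hb => rw [map_add]; exact add_mem ha hb
      | mul_X a u ha => rw [map_mul]; exact hm u _ ha
    obtain ⟨c, hc⟩ := Finsupp.mem_span_range_iff_exists_finsupp.1 hz
    exact ⟨c, hc.symm⟩
  · let ρ : P →+* R := MvPolynomial.eval₂Hom (Int.castRingHom R) Φ
    have hρ : ∀ u, ρ (X u) = Φ u := fun u => MvPolynomial.eval₂Hom_X' _ _ u
    have hp : Pent fun u => ρ (X u) := by simpa only [hρ] using h
    refine ⟨Ideal.Quotient.lift J ρ fun a ha => ?_, fun u => hρ u⟩
    refine (Ideal.span_le (I := RingHom.ker ρ)).2 ?_ ha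
    rintro _ (rfl | ⟨n, x, rfl⟩)
    · show ρ _ = 0
      rw [map_sub, hρ, h1', map_one, sub_self]
    · exact (pent_iff ρ X).1 hp n x

/-- A linear identity valid in characteristic two lifts to a congruence valid over every ring. -/
theorem int_of (d : List Bool →₀ ℤ)
    (h : ∀ (R : Type) [CommRing R] (Φ : List Bool → R), (2 : R) = 0 → Pent Φ → Φ [] = 1 →
      (d.sum fun u n => n • Φ u) = 0) :
    ∃ c : List Bool →₀ ℤ, ∀ (R : Type v) [CommRing R] (Φ : List Bool → R), Pent Φ → Φ [] = 1 →
      (d.sum fun u n => n • Φ u) = 2 * c.sum fun u n => n • Φ u := by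
  obtain ⟨O, _, Ψ, hP, h1, hs, hu⟩ := univ.{v}
  let π := Ideal.Quotient.mk (Ideal.span {(2 : O)})
  have h2 := h _ (fun u => π (Ψ u)) (by
    rw [← map_ofNat π 2]
    exact Ideal.Quotient.eq_zero_iff_mem.2 (Ideal.mem_span_singleton_self _))
    (Pent.map π hP) (by rw [h1, map_one])
  have h3 : π (d.sum fun u n => n • Ψ u) = 0 := by
    rw [← h2, map_finsuppSum]
    simp only [map_zsmul]
  obtain ⟨z, hz⟩ := Ideal.mem_span_singleton.1 (Ideal.Quotient.eq_zero_iff_mem.1 h3)
  obtain ⟨c, rfl⟩ := hs z
  refine ⟨c, fun R _ Φ hΦ h1' => ?_⟩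
  obtain ⟨e, he⟩ := hu R Φ hΦ h1'
  have := congrArg e hz
  simpa only [map_finsuppSum, map_zsmul, map_mul, map_ofNat, he] using this

theorem int_word (w : List Bool)
    (h : ∀ (R : Type) [CommRing R] (Φ : List Bool → R), (2 : R) = 0 → Pent Φ → Φ [] = 1 →
      Φ w = 0) :
    ∃ c : List Bool →₀ ℤ, ∀ (R : Type v) [CommRing R] (Φ : List Bool → R), Pent Φ → Φ [] = 1 →
      Φ w = 2 * c.sum fun u n => n • Φ u := by
  obtain ⟨c, hc⟩ := int_of.{v} (Finsupp.single w 1) fun R _ Φ a b e => by simpa using h R Φ a b e
  exact ⟨c, fun R _ Φ a b => by simpa using hc R Φ a b⟩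

end Pool.Agent.DD.I17
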