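import Pool.Agent.Lib.DD.GStmt
import Pool.Agent.Lib.DD.Int17
import Mathlib.Data.Set.Finite.List

/-! Shuffles, splittings and the Leibniz rule for words of operators. -/

set_option autoImplicit false

noncomputable section

namespace Pool.Agent.DD.GI

open Pool.Agent.DR Pool.Agent.DD.GStmt Finset PowerSeries

section sh
variable {α : Type}

theorem sh_nil (u : List α) : sh u [] = [u] := by
  induction u with
  | nil => rfl
  | cons a u ih => simp [sh, ih]

theorem sh_cons (a b : α) (u v : List α) :
    sh (a :: u) (b :: v) = (sh u (b :: v)).map (a :: ·) ++ (sh (a :: u) v).map (b :: ·) := by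
  rw [sh, List.length_cons, List.range_succ_eq_map, List.flatMap_cons]
  simp [sh, List.flatMap_map, List.map_flatMap, Function.comp_def]

/-- the splittings of a word into two complementary subwords -/
def ds : List α → List (List α × List α)
  | [] => [([], [])]
  | a :: w => (ds w).map (fun p => (a :: p.1, p.2)) ++ (ds w).map fun p => (p.1, a :: p.2)

variable [BEq α] [LawfulBEq α] [DecidableEq α]

theorem count_cons_map (a b : α) (w : List α) (l : List (List α)) :
    (l.map (b :: ·)).count (a :: w) = if b = a then l.count w else 0 := by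
  split_ifs with h
  · subst h
    exact List.count_map_of_injective _ _ (fun _ _ h => List.tail_eq_of_cons_eq h) _
  · exact List.count_eq_zero.2 (by simp [h])

theorem count_ds_cons (a : α) (w u v : List α) : (ds (a :: w)).count (u, v) =
    (if u.head? = some a then (ds w).count (u.tail, v) else 0) +
      if v.head? = some a then (ds w).count (u, v.tail) else 0 := by
  rw [ds, List.count_append]
  congr 1
  · split_ifs with h
    · obtain ⟨u, rfl⟩ : ∃ u', u = a :: u' := ⟨u.tail, (List.cons_head?_tail h).symm⟩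
      exact List.count_map_of_injective _ (fun p : List α × List α => (a :: p.1, p.2))
        (fun p q h => by simpa [Prod.ext_iff] using h) (u, v)
    · refine List.count_eq_zero.2 fun hc => h ?_
      obtain ⟨p, -, hp⟩ := List.mem_map.1 hc
      obtain ⟨rfl, -⟩ := Prod.mk.inj hp
      rfl
  · split_ifs with h
    · obtain ⟨v, rfl⟩ : ∃ v', v = a :: v' := ⟨v.tail, (List.cons_head?_tail h).symm⟩
      exact List.count_map_of_injective _ (fun p : List α × List α => (p.1, a :: p.2))
        (fun p q h => by simpa [Prod.ext_iff] using h) (u, v)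
    · refine List.count_eq_zero.2 fun hc => h ?_
      obtain ⟨p, -, hp⟩ := List.mem_map.1 hc
      obtain ⟨-, rfl⟩ := Prod.mk.inj hp
      rfl

theorem count_ds_left (w v : List α) : (ds w).count ([], v) = if v = w then 1 else 0 := by
  induction w generalizing v with
  | nil => cases v <;> simp [ds]
  | cons a w ih =>
    rw [count_ds_cons]
    rcases v with _ | ⟨b, v⟩
    · simp
    · by_cases h : b = a <;> simp [ih, h]

theorem count_ds_right (w u : List α) : (ds w).count (u, []) = if u = w then 1 else 0 := by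
  induction w generalizing u with
  | nil => cases u <;> simp [ds]
  | cons a w ih =>
    rw [count_ds_cons]
    rcases u with _ | ⟨b, u⟩
    · simp
    · by_cases h : b = a <;> simp [ih, h]

theorem count_sh (w u v : List α) : (sh u v).count w = (ds w).count (u, v) := by
  induction w generalizing u v with
  | nil =>
    rcases u with _ | ⟨a, u⟩
    · simp [sh, count_ds_left, List.count_cons]
    rcases v with _ | ⟨b, v⟩
    · simp [sh_nil, count_ds_right]
    · rw [sh_cons]
      simp [ds, List.count_eq_zero]
  | cons c w ih =>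
    rcases u with _ | ⟨a, u⟩
    · simp [sh, count_ds_left, List.count_cons]
    rcases v with _ | ⟨b, v⟩
    · simp [sh_nil, count_ds_right, List.count_cons]
    · rw [sh_cons, count_ds_cons, List.count_append, count_cons_map, count_cons_map, ih, ih]
      simp

theorem sum_count {β N : Type*} [BEq β] [LawfulBEq β] [AddCommMonoid N] {l : List β} {s : Finset β}
    (h : ∀ b ∈ l, b ∈ s) (f : β → N) : (l.map f).sum = ∑ b ∈ s, l.count b • f b := by
  induction l with
  | nil => simp
  | cons a l ih =>
    rw [List.map_cons, List.sum_cons, ih fun b hb => h b (List.mem_cons_of_mem _ hb)]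
    simp only [List.count_cons, add_smul, sum_add_distrib]
    rw [add_comm]
    congr 1
    rw [sum_eq_single_of_mem a (h a List.mem_cons_self)]
    · simp
    · intro b _ hb
      simp [hb.symm]

omit [BEq α] [LawfulBEq α] [DecidableEq α] in
theorem ds_wt (f : α → ℕ) (w : List α) :
    ∀ p ∈ ds w, (p.1.map f).sum + (p.2.map f).sum = (w.map f).sum := by
  induction w with
  | nil => simp [ds]
  | cons a w ih =>
    intro p hp
    rcases List.mem_append.1 hp with hp | hp <;> obtain ⟨q, hq, rfl⟩ := List.mem_map.1 hp <;>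
      have := ih q hq <;> simp only [List.map_cons, List.sum_cons] <;> omega

theorem sh_wt (f : α → ℕ) (u v : List α) :
    ∀ w ∈ sh u v, (w.map f).sum = (u.map f).sum + (v.map f).sum := fun w hw =>
  (ds_wt f w (u, v) (List.count_pos_iff.1 (count_sh w u v ▸ List.count_pos_iff.2 hw))).symm

end sh

theorem shn_eq (w u v : List Bool) : I17.shn w u v = (ds w).count (u, v) := by
  induction w generalizing u v with
  | nil => cases u <;> cases v <;> simp [I17.shn, ds]
  | cons a w ih => rw [I17.shn, count_ds_cons, ih, ih]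

theorem gl_of_pent {R : Type} [CommRing R] {Φ : List Bool → R} (h : Pent Φ) (h1 : Φ [] = 1) :
    GrpLike Φ := by
  refine ⟨h1, fun u v => ?_⟩
  rw [I17.shuffle h h1, sum_count (s := W (u.length + v.length))]
  · simp only [shn_eq, count_sh]
  · intro w hw
    simpa [mem_W] using sh_wt (fun _ => 1) u v w hw

/-- the weight of a word -/
def wt (u : List ℕ) : ℕ := (u.map fun k => 2 * k + 3).sum

@[simp] theorem wt_nil : wt [] = 0 := rfl
@[simp] theorem wt_cons (a : ℕ) (u : List ℕ) : wt (a :: u) = 2 * a + 3 + wt u := by simp [wt]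
theorem wt_append (u v : List ℕ) : wt (u ++ v) = wt u + wt v := by simp [wt]

theorem wt_fin (n : ℕ) : {u : List ℕ | wt u = n}.Finite := by
  refine ((List.finite_length_le (Fin (n + 1)) n).image (List.map Fin.val)).subset fun u hu => ?_
  have h : ∀ u : List ℕ, wt u ≤ n → ∃ l : List (Fin (n + 1)), l.length ≤ wt u ∧ l.map Fin.val = u := by
    intro u
    induction u with
    | nil => exact fun _ => ⟨[], by simp⟩
    | cons a u ih =>
      intro hu
      rw [wt_cons] at hu ⊢
      obtain ⟨l, h1, h2⟩ := ih (by omega)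
      exact ⟨⟨a, by omega⟩ :: l, by simp; omega, by simp [h2]⟩
  obtain ⟨l, h1, h2⟩ := h u hu.le
  exact ⟨l, h1.trans hu.le, h2⟩

/-- the words of weight `n` -/
def WN (n : ℕ) : Finset (List ℕ) := (wt_fin n).toFinset

theorem mem_WN {n : ℕ} {u : List ℕ} : u ∈ WN n ↔ wt u = n := by simp [WN]

theorem WN_zero : WN 0 = {[]} := by
  ext u
  rcases u with _ | ⟨a, u⟩ <;> simp [mem_WN]

/-- pairs of words of total weight `n` -/
def PN (n : ℕ) : Finset (List ℕ × List ℕ) :=
  (antidiagonal n).biUnion fun p => WN p.1 ×ˢ WN p.2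

theorem mem_PN {n : ℕ} {p : List ℕ × List ℕ} : p ∈ PN n ↔ wt p.1 + wt p.2 = n := by
  simp [PN, mem_WN]

theorem sum_PN {N : Type*} [AddCommMonoid N] (n : ℕ) (f : List ℕ × List ℕ → N) :
    ∑ p ∈ PN n, f p = ∑ p ∈ antidiagonal n, ∑ v ∈ WN p.1, ∑ w ∈ WN p.2, f (v, w) := by
  rw [PN, sum_biUnion]
  · exact sum_congr rfl fun p _ => sum_product _ _ _
  · intro p _ q _ hne
    refine disjoint_left.2 fun z h1 h2 => hne ?_
    simp only [mem_product, mem_WN] at h1 h2
    exact Prod.ext (h1.1.symm.trans h2.1) (h1.2.symm.trans h2.2)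

section op
variable {R : Type} [CommRing R] {B : Type} [Ring B] [Algebra R B]

/-- a word of operators -/
def op (E : ℕ → Module.End R B) (u : List ℕ) : Module.End R B := (u.map E).prod

@[simp] theorem op_nil (E : ℕ → Module.End R B) (z : B) : op E [] z = z := rfl
@[simp] theorem op_cons (E : ℕ → Module.End R B) (a : ℕ) (u : List ℕ) (z : B) :
    op E (a :: u) z = E a (op E u z) := by simp [op]
theorem op_append (E : ℕ → Module.End R B) (u v : List ℕ) (z : B) :
    op E (u ++ v) z = op E u (op E v z) := by simp [op]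

/-- the series `g(E) z` -/
def serO (g : List ℕ → R) (E : ℕ → Module.End R B) (z : B) : PowerSeries B :=
  mk fun n => ∑ u ∈ WN n, g u • op E u z

theorem coeff_serO (g : List ℕ → R) (E : ℕ → Module.End R B) (z : B) (n : ℕ) :
    coeff n (serO g E z) = ∑ u ∈ WN n, g u • op E u z := coeff_mk _ _

variable {E₁ E₂ E₃ : ℕ → Module.End R B}

theorem op_mul (h : ∀ k z z', E₃ k (z * z') = E₁ k z * z' + z * E₂ k z') (z z' : B) (u : List ℕ) :
    op E₃ u (z * z') = ((ds u).map fun p => op E₁ p.1 z * op E₂ p.2 z').sum := by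
  induction u with
  | nil => simp [ds]
  | cons a u ih =>
    rw [op_cons, ih, map_list_sum, ds]
    simp [h, Function.comp_def, List.sum_map_add]

theorem serO_mul' (h : ∀ k z z', E₃ k (z * z') = E₁ k z * z' + z * E₂ k z') (g : List ℕ → R)
    (z z' : B) (n : ℕ) : coeff n (serO g E₃ (z * z')) =
      ∑ p ∈ PN n, ((sh p.1 p.2).map g).sum • (op E₁ p.1 z * op E₂ p.2 z') := by
  rw [coeff_serO, sum_congr rfl fun u hu => by
    rw [op_mul h, sum_count (s := PN n) fun p hp =>
      mem_PN.2 ((ds_wt _ u p hp).trans (mem_WN.1 hu)), smul_sum], sum_comm]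
  refine sum_congr rfl fun p hp => ?_
  rw [sum_count (s := WN n) fun u hu => mem_WN.2 ((sh_wt _ _ _ u hu).trans (mem_PN.1 hp)), sum_smul]
  refine sum_congr rfl fun u _ => ?_
  rw [count_sh, smul_comm, smul_assoc]

theorem coeff_serO_mul (g h : List ℕ → R) (z z' : B) (n : ℕ) :
    coeff n (serO g E₁ z * serO h E₂ z') =
      ∑ p ∈ PN n, (g p.1 * h p.2) • (op E₁ p.1 z * op E₂ p.2 z') := by
  simp only [sum_PN, coeff_mul, coeff_serO, sum_mul_sum, smul_mul_smul_comm]

theorem serO_mul (h : ∀ k z z', E₃ k (z * z') = E₁ k z * z' + z * E₂ k z') {g : List ℕ → R}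
    (hg : GrpLike g) (z z' : B) : serO g E₃ (z * z') = serO g E₁ z * serO g E₂ z' := by
  ext n
  simp only [serO_mul' h, coeff_serO_mul, hg.2]

theorem serO_const {g : List ℕ → R} (hg : g [] = 1) {z : B} (h : ∀ k, E₁ k z = 0) :
    serO g E₁ z = C z := by
  have h0 : ∀ u : List ℕ, u ≠ [] → op E₁ u z = 0 := by
    intro u hu
    obtain ⟨v, a, rfl⟩ := (List.eq_nil_or_concat' u).resolve_left hu
    rw [op_append, op_cons, op_nil, h, map_zero]
  ext n
  rw [coeff_serO, coeff_C]
  split_ifs with hn
  · simp [hn, WN_zero, hg]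
  · refine sum_eq_zero fun u hu => ?_
    rw [h0 u, smul_zero]
    rintro rfl
    exact hn (mem_WN.1 hu).symm

theorem map_serO {B' : Type} [Ring B'] [Algebra R B'] (f : B →ₐ[R] B') {E : ℕ → Module.End R B}
    {E' : ℕ → Module.End R B'} (h : ∀ k z, f (E k z) = E' k (f z)) (g : List ℕ → R) (z : B) :
    PowerSeries.map f.toRingHom (serO g E z) = serO g E' (f z) := by
  have h1 : ∀ u, f (op E u z) = op E' u (f z) := by
    intro u
    induction u with
    | nil => rfl
    | cons a u ih => rw [op_cons, op_cons, h, ih]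
  ext n
  rw [coeff_map, coeff_serO, coeff_serO]
  show f _ = _
  simp only [map_sum, map_smul, h1]

end op

end Pool.Agent.DD.GI
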