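import Pool.Agent.Lib.DD.GI1
import Pool.Agent.Lib.DD.DsMod64

/-! Base change from the rational numbers, the matrix of the isomorphism. -/

set_option autoImplicit false

noncomputable section

namespace Pool.Agent.DD.GI

open Pool.Agent.DR Pool.Agent.DD.GStmt Pool.Agent.DD.S39 Pool.Agent.DD.F Finset PowerSeries
  TensorProduct

attribute [local instance 100] LieRing.ofAssociativeRing

variable (R : Type) [CommRing R] [Algebra ℚ R]

/-- base change -/
def bc : FA ℚ →ₐ[ℚ] FA R := M64.bc R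

@[simp] theorem bc_x : bc R (lx ℚ) = lx R := M64.bc_ι _ _
@[simp] theorem bc_y : bc R (ly ℚ) = ly R := M64.bc_ι _ _

variable {R}

theorem co_bc (w : List Bool) (f : FA ℚ) : co w (bc R f) = algebraMap ℚ R (co w f) :=
  M64.repr_bc f _

theorem hn_bc {n : ℕ} {f : FA ℚ} (h : f ∈ Hn ℚ n) : bc R f ∈ Hn R n :=
  CO.mem_iff.2 fun w hw => by rw [co_bc, CO.co_of_mem h hw, map_zero]

theorem ev_bc {B : Type} [Ring B] [Algebra R B] [Algebra ℚ B] [IsScalarTower ℚ R B] (a b : B)
    (f : FA ℚ) : ev a b (bc R f) = ev a b f := by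
  induction f using S39.ind with
  | h0 r => rw [AlgHom.commutes, AlgHom.commutes, IsScalarTower.algebraMap_apply ℚ R (FA R),
      AlgHom.commutes, ← IsScalarTower.algebraMap_apply]
  | hx => simp
  | hy => simp
  | hm f g h1 h2 => simp [h1, h2]
  | ha f g h1 h2 => simp [h1, h2]

theorem lpent_bc {f : FA ℚ} (h : S39.LPent f) : S39.LPent (bc R f) := by
  intro B _ _ T
  let _ : Algebra ℚ B := Algebra.compHom B (algebraMap ℚ R)
  have : IsScalarTower ℚ R B := IsScalarTower.of_algebraMap_eq' rfl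
  simpa only [ev_bc] using h B T

theorem gr_bc {f : FA ℚ} (h : S39.Gr f) : S39.Gr (bc R f) where
  lie := M64.lie_bc h.lie
  pent := lpent_bc h.pent
  anti := by simpa [map_ev, ev_bc] using congrArg (bc R) h.anti
  hex := by simpa [map_ev, ev_bc] using congrArg (bc R) h.hex

theorem bc_D (ψ f : FA ℚ) : bc R (D ψ f) = D (bc R ψ) (bc R f) := by
  induction f using S39.ind with
  | h0 r => rw [AlgHom.commutes, IsScalarTower.algebraMap_apply ℚ R (FA R), D_alg, D_alg, map_zero]
  | hx => simp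
  | hy => simp
  | hm f g h1 h2 => simp [D_mul, h1, h2]
  | ha f g h1 h2 => simp [h1, h2]

theorem bc_S (ψ f : FA ℚ) : bc R (S ψ f) = S (bc R ψ) (bc R f) := by
  simp [S_apply, bc_D]

omit [Algebra ℚ R] in
theorem dP_eq (ψ : FA R) : E2.dP ψ = D ψ :=
  LinearMap.ext (D_unique ψ _ (E2.dP_x ψ) (E2.dP_y ψ) (E2.dP_mul ψ))

omit [Algebra ℚ R] in
theorem tw_eq (ψ : FA R) : E2.tw (E2.dP ψ) ψ 0 = S ψ :=
  LinearMap.ext fun f => by simp [E2.tw_apply, S_apply, dP_eq, add_comm]

/-- descent along a rational functional -/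
theorem lpent_desc (l : R →ₗ[ℚ] ℚ) {c : List Bool → R} {n : ℕ} (h : S39.LPent (E2.cmp c n)) :
    S39.LPent (E2.cmp (fun u => l (c u)) n) := by
  intro B _ _ T
  let j : B →ₐ[ℚ] R ⊗[ℚ] B := Algebra.TensorProduct.includeRight
  let μ : R ⊗[ℚ] B →ₗ[ℚ] B := (TensorProduct.lid ℚ B).toLinearMap ∘ₗ l.rTensor B
  have key : ∀ p q : B, μ (ev (j p) (j q) (E2.cmp c n)) = ev p q (E2.cmp (fun u => l (c u)) n) := by
    intro p q
    rw [H19.ev_cmp, H19.ev_cmp, map_sum]
    refine sum_congr rfl fun u _ => ?_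
    rw [← map_wd p q j u]
    simp [μ, j, TensorProduct.smul_tmul']
  have e := congrArg μ (h (R ⊗[ℚ] B) ⟨j T.a0, j T.a1, j T.c, j T.b0, j T.b1,
    map_add j _ _ ▸ T.h1.map j, map_add j _ _ ▸ T.h2.map j, map_add j _ _ ▸ T.h3.map j,
    map_add j _ _ ▸ T.h4.map j, map_add j _ _ ▸ T.h5.map j, map_add j _ _ ▸ T.h6.map j,
    T.h7.map j, T.h8.map j⟩)
  simpa only [← map_add j, map_add μ, key] using e

theorem cmp_span (c : List Bool → R) (n : ℕ) : E2.cmp c n ∈
    Submodule.span R {f | ∃ l : R →ₗ[ℚ] ℚ, f = bc R (E2.cmp (fun u => l (c u)) n)} := by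
  classical
  let b := Module.Basis.ofVectorSpace ℚ R
  let s := (W n).biUnion fun u => (b.repr (c u)).support
  have e : E2.cmp c n = ∑ i ∈ s, b i • bc R (E2.cmp (fun u => b.coord i (c u)) n) := by
    simp only [E2.cmp, map_sum, map_smul, map_wd, bc_x, bc_y, smul_sum]
    rw [sum_comm]
    refine sum_congr rfl fun u hu => ?_
    have h1 : c u = ∑ i ∈ s, b.repr (c u) i • b i := by
      conv_lhs => rw [← b.linearCombination_repr (c u), Finsupp.linearCombination_apply]
      exact Finsupp.sum_of_support_subset _ (subset_biUnion_of_mem (fun u => (b.repr (c u)).support) hu)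
        _ (by simp)
    conv_lhs => rw [h1, sum_smul]
    refine sum_congr rfl fun i _ => ?_
    rw [smul_comm, smul_assoc]
    rfl
  rw [e]
  exact Submodule.sum_mem _ fun i _ => Submodule.smul_mem _ _ (Submodule.subset_span ⟨_, rfl⟩)

/-- a linear solution over `R` is a combination of rational ones -/
theorem desc {c : List Bool → R} {n : ℕ} (h : S39.LPent (E2.cmp c n)) {P : FA R → Prop}
    (h0 : P 0) (ha : ∀ f g, P f → P g → P (f + g)) (hs : ∀ (r : R) f, P f → P (r • f))
    (hb : ∀ f, G n f → P (bc R f)) : P (E2.cmp c n) := by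
  refine Submodule.span_induction (p := fun f _ => P f) ?_ h0 (fun f g _ _ => ha f g)
    (fun r f _ => hs r f) (cmp_span c n)
  rintro _ ⟨l, rfl⟩
  exact hb _ ⟨H56.isLie_of_lpent (lpent_desc l h), CO.sum_mem _ _, lpent_desc l h⟩

theorem gr_of {c : List Bool → R} {n : ℕ} (hn : 3 ≤ n) (h : S39.LPent (E2.cmp c n)) :
    S39.Gr (E2.cmp c n) := by
  have := desc h (P := fun f => IsLie f ∧ Anti f ∧ Hex f)
    ⟨zero_mem _, by simp [Anti], by simp [Hex]⟩
    (fun f g h1 h2 => ⟨add_mem h1.1 h2.1, by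
      have a := h1.2.1
      have b := h2.2.1
      simp only [Anti, map_add] at a b ⊢
      linear_combination (norm := abel1) a + b, by
      have a := h1.2.2
      have b := h2.2.2
      simp only [Hex, map_add] at a b ⊢
      linear_combination (norm := abel1) a + b⟩)
    (fun r f h1 => ⟨LieSubalgebra.smul_mem _ r h1.1, by
      simpa only [Anti, map_smul, smul_add, smul_zero] using congrArg (r • ·) h1.2.1, by
      simpa only [Hex, map_smul, smul_add, smul_zero] using congrArg (r • ·) h1.2.2⟩)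
    fun f hf =>
      have h2 := gr_bc (R := R) (H56.gr_of_lpent hn hf.hom hf.pent)
      ⟨h2.lie, h2.anti, h2.hex⟩
  exact ⟨this.1, h, this.2.1, this.2.2⟩

variable (s : ℕ → FA ℚ)

variable (R) in
/-- the operators attached to the generators -/
def SR (k : ℕ) : Module.End R (FA R) := S (bc R (s k))

/-- a word in the generators -/
def wn (u : List ℕ) : FN ℚ := (u.map (FreeAlgebra.ι ℚ)).prod

theorem bc_phi (u : List ℕ) : bc R (phi s (wn u)) = op (SR R s) u 1 := by
  induction u with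
  | nil => simp [wn, PHI.phi_apply]
  | cons a u ih =>
    rw [op_cons, ← ih, SR, ← bc_S]
    simp [wn, PHI.phi_apply]

theorem exists_lam (hi : Function.Injective (phi s)) : ∃ lam : List ℕ → FA R →ₗ[R] R,
    ∀ v u, lam v (op (SR R s) u 1) = if u = v then 1 else 0 := by
  obtain ⟨ρ, hρ⟩ := (phi s).exists_leftInverse_of_injective (LinearMap.ker_eq_bot.2 hi)
  let d : List ℕ → FA ℚ →ₗ[ℚ] ℚ := fun v =>
    (FreeAlgebra.basisFreeMonoid ℚ ℕ).coord (FreeMonoid.ofList v) ∘ₗ ρ
  let lam : List ℕ → FA R →ₗ[R] R := fun v => (FreeAlgebra.basisFreeMonoid R Bool).constr R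
    fun w => algebraMap ℚ R (d v (FreeAlgebra.basisFreeMonoid ℚ Bool w))
  have h : ∀ v f, lam v (bc R f) = algebraMap ℚ R (d v f) := fun v =>
    LinearMap.congr_fun (F64.lext (F := (lam v).restrictScalars ℚ ∘ₗ (bc R).toLinearMap)
      (G := Algebra.linearMap ℚ R ∘ₗ d v) fun l => by
        simp only [LinearMap.comp_apply, AlgHom.toLinearMap_apply, bc, M64.bc_w]
        simp [← F64.bas, lam])
  refine ⟨lam, fun v u => ?_⟩
  have e : ρ (phi s (wn u)) = wn u := LinearMap.congr_fun hρ _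
  rw [← bc_phi, h, LinearMap.comp_apply, e]
  by_cases huv : u = v <;> simp [wn, ← F64.bas, huv]

/-- the matrix -/
def cc (w : List Bool) : List ℕ →₀ ℚ :=
  Finsupp.onFinset (WN w.length) (fun u => if wt u = w.length then co w (phi s (wn u)) else 0)
    fun u hu => mem_WN.2 (by
      by_contra h
      exact hu (if_neg h))

theorem cc_wt (w : List Bool) : ∀ u ∈ (cc s w).support, wt u = w.length := fun _ hu =>
  mem_WN.1 (Finsupp.support_onFinset_subset hu)

theorem M_eq (g : List ℕ → R) (w : List Bool) :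
    M (cc s) g w = co w (coeff w.length (serO g (SR R s) 1)) := by
  rw [M, cc, Finsupp.onFinset_sum _ (by simp), coeff_serO, map_sum]
  refine sum_congr rfl fun u hu => ?_
  rw [if_pos (mem_WN.1 hu), map_smul, ← bc_phi, co_bc, Algebra.smul_def, smul_eq_mul, mul_comm]

variable {s}

theorem op_mem (hs : ∀ k, G (2 * k + 3) (s k)) (u : List ℕ) : op (SR R s) u 1 ∈ Hn R (wt u) := by
  induction u with
  | nil => simpa using CO.wd_mem (K := R) []
  | cons a u ih =>
    rw [op_cons, SR, S_apply, wt_cons]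
    exact add_mem (CO.mul_mem (hn_bc (hs a).hom) ih) (CO.D_mem (hn_bc (hs a).hom) ih)

theorem ser_M (hs : ∀ k, G (2 * k + 3) (s k)) (g : List ℕ → R) :
    ser (M (cc s) g) (lx R) (ly R) = serO g (SR R s) 1 := by
  ext1 n
  have h : coeff n (serO g (SR R s) 1) ∈ Hn R n := by
    rw [coeff_serO]
    exact Submodule.sum_mem _ fun u hu => Submodule.smul_mem _ _ (mem_WN.1 hu ▸ op_mem hs u)
  rw [CO.eq_sum h, coeff_ser]
  exact sum_congr rfl fun w hw => by rw [M_eq, mem_W.1 hw]

theorem ser_edge (hs : ∀ k, G (2 * k + 3) (s k)) (g : List ℕ → R) {B : Type} [Ring B] [Algebra R B]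
    {d : ℕ → B →ₗ[R] B} (hd : ∀ k, E2.Leib (d k)) {a b : B} {p t : ℕ → B}
    (h : ∀ k, E2.Edge (d k) (bc R (s k)) a b (p k) (t k)) :
    ser (M (cc s) g) a b = serO g (fun k => E2.tw (d k) (t k) (p k)) 1 := by
  have h1 := congrArg (PowerSeries.map (ev (K := R) a b).toRingHom) (ser_M hs g)
  rwa [map_serO _ (fun k z => by rw [SR, ← tw_eq, (h k).ev_tw (hd k)]), LIFT.map_ser, ev_x, ev_y,
    map_one] at h1

end Pool.Agent.DD.GI
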