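import Pool.Agent.Lib.DD.GI2

/-! The image satisfies the associator relations, and the map is a homomorphism. -/

set_option autoImplicit false

noncomputable section

namespace Pool.Agent.DD.GI

open Pool.Agent.DR Pool.Agent.DD.GStmt Pool.Agent.DD.S39 Pool.Agent.DD.F Finset PowerSeries

attribute [local instance 100] LieRing.ofAssociativeRing

variable {R : Type} [CommRing R] [Algebra ℚ R] {s : ℕ → FA ℚ} (hs : ∀ k, G (2 * k + 3) (s k))
  {g : List ℕ → R}

include hs

theorem gr_s (k : ℕ) : S39.Gr (bc R (s k)) :=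
  gr_bc (H56.gr_of_lpent (by omega) (hs k).hom (hs k).pent)

theorem M_pent (hg : GrpLike g) : Pentagon (M (cc s) g) := by
  choose d U₀ U₁ U₂ U₃ U₄ hL e1 e2 e3 e4 e5 using fun k => E2.der_of (gr_s (R := R) hs k)
  unfold Pentagon
  rw [ser_edge hs g hL e1, ser_edge hs g hL e2, ser_edge hs g hL e3, ser_edge hs g hL e4,
    ser_edge hs g hL e5, ← serO_mul (fun k => E2.tw_mul (hL k) (U₂ k) (U₀ k) (U₁ k)) hg,
    ← serO_mul (fun k => E2.tw_mul (hL k) (U₂ k) (U₄ k) (U₃ k)) hg,
    ← serO_mul (fun k => E2.tw_mul (hL k) (U₂ k) (U₃ k) (U₁ k)) hg, mul_one, mul_one]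

omit hs in
theorem M_nil : M (cc s) g [] = g [] := by
  have := CO.co_wd (K := R) [] []
  rw [wd_nil] at this
  simp [M_eq, coeff_serO, WN_zero, this]

omit hs [Algebra ℚ R] in
theorem leib_D (ψ : FA R) : E2.Leib (D ψ) := D_mul ψ

omit hs [Algebra ℚ R] in
theorem edge_xy (ψ : FA R) : E2.Edge (D ψ) ψ (lx R) (ly R) 0 ψ :=
  ⟨by simp, by simp, by simp [ev_self]⟩

omit hs [Algebra ℚ R] in
theorem serO_one (hg : g [] = 1) (d : ℕ → FA R) :
    serO g (fun k => E2.tw (D (d k)) 0 0) 1 = 1 :=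
  (serO_const hg fun k => by simp [E2.tw_apply]).trans (map_one _)

theorem M_two (hg : GrpLike g) :
    ser (M (cc s) g) (ly R) (lx R) * ser (M (cc s) g) (lx R) (ly R) = 1 := by
  have e : ∀ k, E2.Edge (D (bc R (s k))) (bc R (s k)) (ly R) (lx R) (bc R (s k)) 0 := fun k =>
    ⟨by simp, by simp, by rw [zero_sub]; exact neg_eq_of_add_eq_zero_right (gr_s hs k).anti⟩
  rw [ser_edge hs g (fun _ => leib_D _) e, ser_edge hs g (fun _ => leib_D _) fun _ => edge_xy _,
    ← serO_mul (fun k => E2.tw_mul (leib_D _) 0 (bc R (s k)) 0) hg, mul_one, serO_one hg.1]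

theorem M_three (hg : GrpLike g) : ser (M (cc s) g) (-lx R - ly R) (lx R) *
    ser (M (cc s) g) (ly R) (-lx R - ly R) * ser (M (cc s) g) (lx R) (ly R) = 1 := by
  let t : ℕ → FA R := fun k => -ev (-lx R - ly R) (lx R) (bc R (s k))
  have hz : ∀ k, D (bc R (s k)) (-lx R - ly R) = (-lx R - ly R) * t k - t k * (-lx R - ly R) := by
    intro k
    have h := gr_s (R := R) hs k
    have e3 := special h.lie h.pent h.anti h.hex
    rw [eq_neg_of_add_eq_zero_left (h.anti' (lx R) (-lx R - ly R))] at e3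
    rw [map_sub, map_neg, D_x, D_y, neg_zero, zero_sub]
    exact neg_eq_of_add_eq_zero_right e3
  have e1 : ∀ k, E2.Edge (D (bc R (s k))) (bc R (s k)) (ly R) (-lx R - ly R) (bc R (s k)) (t k) :=
    fun k => ⟨by simp, hz k, by
      have := (gr_s (R := R) hs k).hex
      simp only [t]
      linear_combination (norm := abel1) -this⟩
  have e2 : ∀ k, E2.Edge (D (bc R (s k))) (bc R (s k)) (-lx R - ly R) (lx R) (t k) 0 :=
    fun k => ⟨hz k, by simp, by simp [t]⟩
  rw [ser_edge hs g (fun _ => leib_D _) e1, ser_edge hs g (fun _ => leib_D _) e2,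
    ser_edge hs g (fun _ => leib_D _) fun _ => edge_xy _,
    ← serO_mul (fun k => E2.tw_mul (leib_D _) 0 (t k) (bc R (s k))) hg,
    ← serO_mul (fun k => E2.tw_mul (leib_D _) 0 (bc R (s k)) 0) hg, mul_one, mul_one,
    serO_one hg.1]

theorem M_mem (hg : GrpLike g) : M (cc s) g ∈ GT R :=
  ⟨gl_of_pent (st_LIFT R _ (M_pent hs hg)) (M_nil.trans hg.1), M_two hs hg, M_three hs hg,
    M_pent hs hg⟩

theorem M_inj (hi : Function.Injective (phi s)) :
    Function.Injective (M (cc s) : (List ℕ → R) → List Bool → R) := by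
  obtain ⟨lam, hl⟩ := exists_lam (R := R) s hi
  have h : ∀ (g : List ℕ → R) v, lam v (coeff (wt v) (ser (M (cc s) g) (lx R) (ly R))) = g v := by
    intro g v
    simp [ser_M hs, coeff_serO, hl, mem_WN]
  intro g g' e
  funext v
  rw [← h g, ← h g', e]

omit hs [Algebra ℚ R] in
theorem sum_conv {N : Type} [AddCommGroup N] [Module R N] (g h : List ℕ → R) (F : List ℕ → N)
    (n : ℕ) : ∑ u ∈ WN n, conv g h u • F u = ∑ p ∈ PN n, (g p.1 * h p.2) • F (p.1 ++ p.2) := by
  simp only [conv, sum_smul]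
  rw [sum_sigma']
  refine sum_bij' (fun q _ => (q.1.take q.2, q.1.drop q.2)) (fun p _ => ⟨p.1 ++ p.2, p.1.length⟩)
    ?_ ?_ ?_ ?_ ?_
  · intro q hq
    rw [mem_PN, ← wt_append, List.take_append_drop]
    exact mem_WN.1 (mem_sigma.1 hq).1
  · intro p hp
    simp [mem_WN, wt_append, mem_PN.1 hp]
  · rintro ⟨u, i⟩ hq
    have : i ≤ u.length := by simpa [Nat.lt_succ_iff] using (mem_sigma.1 hq).2
    simp [this]
  · intro p _
    simp
  · intro q _
    simp

omit hs [Algebra ℚ R] in
theorem diag_mul {B : Type} [Ring B] (F : PowerSeries B) (H : PowerSeries (PowerSeries B)) :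
    GStmt.diag (C F * H) = F * GStmt.diag H := by
  ext n
  simp only [GStmt.diag, coeff_mk, coeff_C_mul]
  simp only [coeff_mul, coeff_mk, mul_sum]
  rw [sum_sigma', sum_sigma']
  refine sum_bij' (fun q _ => ⟨(q.2.1, q.2.2 + q.1.2), (q.2.2, q.1.2)⟩)
    (fun q _ => ⟨(q.1.1 + q.2.1, q.2.2), (q.1.1, q.2.1)⟩) ?_ ?_ ?_ ?_ ?_
  all_goals
    rintro ⟨⟨a, b⟩, c, d⟩ hq
    simp only [mem_sigma, HasAntidiagonal.mem_antidiagonal] at hq
    obtain ⟨rfl, rfl⟩ := hq
    simp [add_assoc]

theorem M_conv (hg : GrpLike g) (h : List ℕ → R) :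
    Comp (M (cc s) g) (M (cc s) h) (M (cc s) (conv g h)) := by
  let d : ℕ → Module.End R (FA R) := fun k => D (bc R (s k))
  have l1 : ∀ k z z', SR R s k (z * z') = SR R s k z * z' + z * d k z' := fun k z z' => by
    simp only [SR, S_apply, D_mul, d]
    noncomm_ring
  have l2 : ∀ z, serO g (SR R s) z = serO g (SR R s) 1 * serO g d z := fun z => by
    rw [← serO_mul l1 hg, one_mul]
  have l3 : ∀ u, serO g d (wd (lx R) (ly R) u) = wd (C (lx R)) (serO g d (ly R)) u := by
    intro u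
    induction u with
    | nil => exact (serO_const hg.1 fun k => D_one _).trans (map_one _)
    | cons a u ih =>
      cases a
      · rw [wd_false, wd_false, serO_mul (fun k => D_mul _) hg, ih, serO_const hg.1 fun k => D_x _]
      · rw [wd_true, wd_true, serO_mul (fun k => D_mul _) hg, ih]
  have l4 : ∀ u z, op (SR R s) u (ly R * z) = ly R * op (SR R s) u z := by
    intro u z
    induction u with
    | nil => rfl
    | cons a u ih =>
      simp only [op_cons, ih, SR, S_apply, D_mul, D_y]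
      noncomm_ring
  refine ⟨serO g d (ly R), ?_, ?_⟩
  · show ser _ (lx R) (ly R) * _ = C (ly R) * ser _ (lx R) (ly R)
    rw [ser_M hs, ← l2]
    ext1 n
    rw [coeff_C_mul, coeff_serO, coeff_serO, mul_sum]
    refine sum_congr rfl fun u _ => ?_
    rw [mul_smul_comm, ← l4, mul_one]
  · show ser _ (lx R) (ly R) = ser _ (lx R) (ly R) * GStmt.diag (ser _ (C (lx R)) _)
    rw [← diag_mul, ser_M hs, ser_M hs]
    ext1 n
    rw [coeff_serO, sum_conv, sum_PN, GStmt.diag, coeff_mk]
    refine sum_congr rfl fun p _ => ?_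
    have e := congrArg (coeff p.2) (ser_M hs h)
    rw [coeff_ser, coeff_serO] at e
    simp only [coeff_C_mul, coeff_ser, mul_sum, mul_smul_comm, ← l3, ← l2, map_sum, coeff_smul,
      coeff_serO, smul_sum]
    rw [sum_comm (s := W p.2)]
    refine sum_congr rfl fun v _ => ?_
    have e2 := congrArg (fun z => g v • op (SR R s) v z) e
    simp only [map_sum, map_smul, smul_sum] at e2
    simp only [op_append, mul_smul, ← e2]
    exact sum_congr rfl fun w _ => smul_comm _ _ _

end Pool.Agent.DD.GI
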