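import Pool.Agent.Lib.DD.GI3
import Pool.Agent.Lib.DD.F_CORE
import Pool.Agent.Lib.DD.F_GAM

/-! Every solution of the pentagon without quadratic term is in the image. -/

set_option autoImplicit false

noncomputable section

namespace Pool.Agent.DD.GI

open Pool.Agent.DR Pool.Agent.DD.GStmt Pool.Agent.DD.S39 Pool.Agent.DD.F Finset PowerSeries
  TensorProduct

attribute [local instance 100] LieRing.ofAssociativeRing

section low
variable {B : Type*} [Ring B]

/-- constant term one and nothing else below `n` -/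
def Low (n : ℕ) (F : PowerSeries B) : Prop := coeff 0 F = 1 ∧ ∀ i, 0 < i → i < n → coeff i F = 0

theorem Low.coeff_mul {n m : ℕ} {F G : PowerSeries B} (hF : Low n F) (hG : Low n G) (hm : m ≤ n)
    (h0 : 0 < m) : coeff m (F * G) = coeff m F + coeff m G := by
  rw [PowerSeries.coeff_mul, sum_eq_add (m, 0) (0, m) (by simp [h0.ne'])]
  · rw [hF.1, hG.1, mul_one, one_mul]
  · rintro ⟨i, j⟩ hij hne
    have e : i + j = m := HasAntidiagonal.mem_antidiagonal.1 hij
    have h1 : j ≠ 0 := by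
      rintro rfl
      exact hne.1 (by simpa using e)
    have h2 : i ≠ 0 := by
      rintro rfl
      exact hne.2 (by simpa using e)
    rw [hF.2 i (by omega) (by omega), zero_mul]
  · simp
  · simp

theorem Low.mul {n : ℕ} {F G : PowerSeries B} (hF : Low n F) (hG : Low n G) : Low n (F * G) := by
  refine ⟨by simp [PowerSeries.coeff_mul, hF.1, hG.1], fun i h0 hi => ?_⟩
  rw [hF.coeff_mul hG hi.le h0, hF.2 i h0 hi, hG.2 i h0 hi, add_zero]

end low

variable {R : Type} [CommRing R]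

theorem low_ser {B : Type*} [Ring B] [Algebra R B] {Φ : List Bool → R} {n : ℕ} (h1 : Φ [] = 1)
    (hz : ∀ u : List Bool, 0 < u.length → u.length < n → Φ u = 0) (p q : B) :
    Low n (ser Φ p q) := by
  refine ⟨by simp [coeff_ser, W_zero, h1], fun i h0 hi => ?_⟩
  rw [coeff_ser]
  refine sum_eq_zero fun u hu => ?_
  have e := mem_W.1 hu
  rw [hz u (e ▸ h0) (e ▸ hi), zero_smul]

theorem lpent_low {Φ : List Bool → R} (hΦ : Pentagon Φ) (h1 : Φ [] = 1) {n : ℕ} (h0 : 0 < n)
    (hz : ∀ u : List Bool, 0 < u.length → u.length < n → Φ u = 0) : S39.LPent (E2.cmp Φ n) := by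
  intro B _ _ T
  have e := congrArg (coeff n) (st_LIFT R Φ hΦ B T)
  have s := fun p q : B => low_ser h1 hz p q
  rw [(s _ _).coeff_mul (s _ _) le_rfl h0, ((s _ _).mul (s _ _)).coeff_mul (s _ _) le_rfl h0,
    (s _ _).coeff_mul (s _ _) le_rfl h0] at e
  simpa only [H19.ev_cmp, coeff_ser] using e

variable [Algebra ℚ R]

theorem nsmul_cancel {n : ℕ} (hn : n ≠ 0) {a : R} (h : (n : R) * a = 0) : a = 0 := by
  have e : algebraMap ℚ R (n : ℚ)⁻¹ * (n : R) = 1 := by
    rw [← map_natCast (algebraMap ℚ R), ← map_mul, inv_mul_cancel₀ (by exact_mod_cast hn), map_one]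
  rw [← one_mul a, ← e, mul_assoc, h, mul_zero]

omit [Algebra ℚ R] in
theorem deg_two {Φ : List Bool → R} (hΦ : Pentagon Φ) (h1 : Φ [] = 1) (a b : Bool) :
    Φ [a, b] + Φ [b, a] = 0 := by
  have := (gl_of_pent (st_LIFT R _ hΦ) h1).2 [a] [b]
  rw [H19.deg_one hΦ h1 [a] rfl, zero_mul, sh_cons] at this
  simpa [sh, sh_nil] using this.symm

theorem deg_two' {Φ : List Bool → R} (hΦ : Pentagon Φ) (h1 : Φ [] = 1) (a : Bool) :
    Φ [a, a] = 0 :=
  nsmul_cancel (n := 2) (by simp) (by rw [← deg_two hΦ h1 a a]; push_cast; ring)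

theorem low_three {Φ : List Bool → R} (hΦ : Pentagon Φ) (h1 : Φ [] = 1)
    (h2 : Φ [false, true] = 0) (u : List Bool) (h0 : 0 < u.length) (hu : u.length < 3) :
    Φ u = 0 := by
  match u, h0, hu with
  | [a], _, _ => exact H19.deg_one hΦ h1 _ rfl
  | [false, false], _, _ => exact deg_two' hΦ h1 _
  | [true, true], _, _ => exact deg_two' hΦ h1 _
  | [false, true], _, _ => exact h2
  | [true, false], _, _ => simpa [h2] using deg_two hΦ h1 false true

theorem xy_zero {Φ : List Bool → R} (h : Φ ∈ GT R) : Φ [false, true] = 0 := by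
  obtain ⟨⟨h1, -⟩, -, h3, hΦ⟩ := h
  have s := fun p q : FA R => low_ser (n := 2) h1
    (fun u h0 hu => H19.deg_one hΦ h1 u (by omega)) p q
  have e := congrArg (coeff 2) h3
  rw [((s _ _).mul (s _ _)).coeff_mul (s _ _) le_rfl two_pos,
    (s _ _).coeff_mul (s _ _) le_rfl two_pos] at e
  have e2 := congrArg (fun f => ev (K := R) !![0, 1, 0; 0, 0, 0; 0, 0, (0 : R)]
    !![0, 0, 0; 0, 0, 1; 0, 0, (0 : R)] f 0 2) e
  have h4 : Φ [true, false] = -Φ [false, true] := eq_neg_of_add_eq_zero_right (deg_two hΦ h1 _ _)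
  refine nsmul_cancel (n := 3) (by simp) ?_
  simp only [coeff_ser, sum_W_succ, W_zero, sum_singleton, deg_two' hΦ h1, h4, wd_false, wd_true,
    wd_nil, show x R = lx R from rfl, show y R = ly R from rfl, map_add, map_smul, map_mul, map_sub,
    map_neg, ev_x, ev_y, coeff_one] at e2
  simp at e2
  push_cast
  linear_combination e2

variable (R) in
/-- the span of the image -/
def Im (s : ℕ → FA ℚ) : Submodule R (FA R) := Submodule.span R (Set.range fun g => bc R (phi s g))

variable {s : ℕ → FA ℚ}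

theorem S_im (hc : ∀ n ψ, 3 ≤ n → G n ψ → ∃ g ∈ LN ℚ, phi s g = ψ) {c : List Bool → R} {n : ℕ}
    (hn : 3 ≤ n) (h : S39.LPent (E2.cmp c n)) : ∀ f ∈ Im R s, S (E2.cmp c n) f ∈ Im R s := by
  refine desc h (P := fun ψ => ∀ f ∈ Im R s, S ψ f ∈ Im R s) (fun f _ => by simp [PHI.S_zero])
    (fun p q h1 h2 f hf => by rw [PHI.S_add]; exact add_mem (h1 f hf) (h2 f hf))
    (fun r p h1 f hf => by rw [PHI.S_smul]; exact Submodule.smul_mem _ r (h1 f hf)) ?_
  intro ψ hψ f hf
  obtain ⟨g, hg, rfl⟩ := hc n ψ hn hψ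
  refine (Submodule.span_le (p := (Im R s).comap (S (bc R (phi s g))))).2 ?_ hf
  rintro _ ⟨g', rfl⟩
  refine Submodule.subset_span ⟨g * g', ?_⟩
  simp only [← bc_S, ← PHI.lift_eq s hg, PHI.phi_apply s (g * g'), map_mul, PHI.phi_apply s g']
  rfl

theorem cmp_im (hc : ∀ n ψ, 3 ≤ n → G n ψ → ∃ g ∈ LN ℚ, phi s g = ψ) (N j : ℕ) :
    ∀ k, 3 ≤ k → N < k + j → ∀ Φ : List Bool → R, Pentagon Φ → Φ [] = 1 →
      (∀ u : List Bool, 0 < u.length → u.length < k → Φ u = 0) →
      ∀ m ≤ N, E2.cmp Φ m ∈ Im R s := by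
  induction j with
  | zero =>
    intro k _ hk Φ _ h1 hz m hm
    have l := low_ser h1 hz (lx R) (ly R)
    rw [← E2.coeff_ser_free]
    rcases m.eq_zero_or_pos with rfl | h0
    · rw [l.1]
      exact Submodule.subset_span ⟨1, by simp [PHI.phi_apply]⟩
    · rw [l.2 m h0 (by omega)]
      exact zero_mem _
  | succ j ih =>
    intro k h3 hk Φ hΦ h1 hz
    have hp := H19.lpent_neg (lpent_low hΦ h1 (by omega : 0 < k) hz)
    have hg := E2.cmp_mem_one (E2.pure_zero_lin hp)
    have h2 := ih (k + 1) (by omega) (by omega) _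
      (E2.flow_pent (by omega) hg (E2.der_of (gr_of h3 hp)) hΦ)
      (by rw [E2.flow_lt _ _ (by simp; omega), h1]) fun u h0 hu => by
        rcases (Nat.lt_succ_iff.1 hu).lt_or_eq with h | h
        · rw [E2.flow_lt _ _ h, hz u h0 h]
        · rw [E2.flow_len (by omega) _ h1 h, ← h, E2.co_cmp, add_neg_cancel]
    intro m
    induction m using Nat.strong_induction_on with
    | _ m ihm =>
      intro hm
      have h4 : ∀ i, ∀ a < m, coeff a ((E2.up k (S (E2.cmp (fun u => -Φ u) k)) ^ i)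
          (ser Φ (lx R) (ly R))) ∈ Im R s := by
        intro i
        induction i with
        | zero => intro a ha; simpa [E2.coeff_ser_free] using ihm a ha (by omega)
        | succ i ihi =>
          intro a ha
          rw [pow_succ', Module.End.mul_apply, E2.coeff_up]
          split_ifs
          · exact S_im hc h3 hp _ (ihi _ (by omega))
          · exact zero_mem _
      have h5 := h2 m hm
      rw [← E2.coeff_ser_free, E2.ser_flow hg, tw_eq, E2.ex, coeff_mk, sum_range_succ'] at h5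
      have h6 := (Submodule.add_mem_iff_right _ (Submodule.sum_mem _ fun i _ =>
        Submodule.smul_mem _ _ (by
          rw [pow_succ', Module.End.mul_apply, E2.coeff_up]
          split_ifs
          · exact S_im hc h3 hp _ (h4 _ _ (by omega))
          · exact zero_mem _))).1 h5
      simpa [E2.fq, E2.coeff_ser_free] using h6

theorem co_im (hs : ∀ k, G (2 * k + 3) (s k)) {lam : List ℕ → FA R →ₗ[R] R}
    (hl : ∀ v u, lam v (op (SR R s) u 1) = if u = v then 1 else 0) {f : FA R} (hf : f ∈ Im R s)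
    (w : List Bool) : co w f = ∑ u ∈ WN w.length, lam u f * co w (op (SR R s) u 1) := by
  let A : FA R →ₗ[R] R := co w - ∑ u ∈ WN w.length, co w (op (SR R s) u 1) • lam u
  have hA : ∀ g, A (bc R (phi s g)) = 0 := fun g =>
    LinearMap.congr_fun (F64.lext (G := 0)
      (F := A.restrictScalars ℚ ∘ₗ (bc R).toLinearMap ∘ₗ phi s) fun v => by
        have e := bc_phi (R := R) s v
        rw [wn] at e
        simp only [LinearMap.comp_apply, AlgHom.toLinearMap_apply, e]
        by_cases h : wt v = w.length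
        · simp [A, hl, mem_WN, h]
        · simp [A, hl, mem_WN, h, CO.co_of_mem (op_mem hs v) (Ne.symm h)]) g
  have := (Submodule.span_le (p := LinearMap.ker A)).2 (by rintro _ ⟨g, rfl⟩; exact hA g) hf
  simpa [A, sub_eq_zero, mul_comm] using this

theorem M_surj_of (hs : ∀ k, G (2 * k + 3) (s k)) (hi : Function.Injective (phi s))
    {Φ : List Bool → R} (hΦ : Pentagon Φ) (h1 : Φ [] = 1) (hm : ∀ m, E2.cmp Φ m ∈ Im R s) :
    ∃ g, GrpLike g ∧ M (cc s) g = Φ := by
  obtain ⟨lam, hl⟩ := exists_lam (R := R) s hi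
  let g : List ℕ → R := fun u => lam u (E2.cmp Φ (wt u))
  have e : M (cc s) g = Φ := by
    funext w
    have := co_im hs hl (hm w.length) w
    rw [E2.cmp, CO.co_sum, if_pos rfl] at this
    rw [this, M_eq, coeff_serO, map_sum]
    exact sum_congr rfl fun u hu => by rw [map_smul, smul_eq_mul, ← mem_WN.1 hu]; rfl
  have g1 : g [] = 1 := by rw [← M_nil (s := s) (g := g), e, h1]
  refine ⟨g, ⟨g1, fun u v => ?_⟩, e⟩
  let i1 : FA R →ₐ[R] FA R ⊗[R] FA R := Algebra.TensorProduct.includeLeft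
  let i2 : FA R →ₐ[R] FA R ⊗[R] FA R := Algebra.TensorProduct.includeRight
  let ψ : ℕ → FA R := fun k => bc R (s k)
  let d : ℕ → FA R ⊗[R] FA R →ₗ[R] FA R ⊗[R] FA R := fun k =>
    (D (ψ k)).rTensor _ + (D (ψ k)).lTensor _
  have hd : ∀ k, E2.Leib (d k) := by
    intro k z z'
    induction z using TensorProduct.induction_on with
    | zero => simp
    | add a b h1 h2 => simp only [add_mul, map_add, h1, h2]; abel
    | tmul a b =>
      induction z' using TensorProduct.induction_on with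
      | zero => simp
      | add a b h1 h2 => simp only [mul_add, map_add, h1, h2]; abel
      | tmul a' b' => simp [d, D_mul, add_tmul, tmul_add, add_mul, mul_add]; abel
  have cm : ∀ a b, Commute (i2 b) (i1 a) := fun a b => by simp [i1, i2, Commute, SemiconjBy]
  have v1 : ∀ f, ev (i1 (lx R)) (i1 (ly R)) f = i1 f := fun f => by rw [← map_ev, ev_self]
  have v2 : ∀ f, ev (i2 (lx R)) (i2 (ly R)) f = i2 f := fun f => by rw [← map_ev, ev_self]
  have e1 : ∀ k, E2.Edge (d k) (ψ k) (i1 (lx R)) (i1 (ly R)) (i2 (ψ k)) (i1 (ψ k) + i2 (ψ k)) :=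
    fun k => ⟨by simp [d, i1, i2], by simp [d, i1, i2, sub_tmul, mul_add, add_mul], by simp [v1]⟩
  have e2 : ∀ k, E2.Edge (d k) (ψ k) (i2 (lx R)) (i2 (ly R)) 0 (i2 (ψ k)) :=
    fun k => ⟨by simp [d, i2], by simp [d, i2, tmul_sub], by simp [v2]⟩
  have e3 : ∀ k, E2.Edge (d k) (ψ k) (i2 (lx R) + i1 (lx R)) (i2 (ly R) + i1 (ly R)) 0
      (i1 (ψ k) + i2 (ψ k)) := fun k => ⟨by simp [d, i1, i2], by
      simp [d, i1, i2, sub_tmul, tmul_sub, mul_add, add_mul]; abel, by
      rw [(gr_s hs k).lie.add_ev (cm _ _).symm (cm _ _).symm (cm _ _).symm (cm _ _).symm, v1, v2,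
        sub_zero, add_comm]⟩
  have e4 := I17.glike (st_LIFT R _ hΦ) h1 (cm (lx R) (lx R)).symm (cm (lx R) (ly R)).symm
    (cm (ly R) (lx R)).symm (cm (ly R) (ly R)).symm
  rw [← e, ser_edge hs g hd e1, ser_edge hs g hd e2, ser_edge hs g hd e3] at e4
  have e5 := congrArg (coeff (wt u + wt v)) e4
  rw [coeff_serO_mul, ← mul_one (1 : FA R ⊗[R] FA R),
    serO_mul' fun k => E2.tw_mul (hd k) _ (i2 (ψ k)) _, mul_one] at e5
  have o1 : ∀ a, op (fun k => E2.tw (d k) (i1 (ψ k) + i2 (ψ k)) (i2 (ψ k))) a 1 =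
      op (SR R s) a 1 ⊗ₜ 1 := by
    intro a
    induction a with
    | nil => rfl
    | cons k a ih =>
      rw [op_cons, ih]
      simp [E2.tw_apply, SR, S_apply, d, i1, i2, ψ, add_mul, add_tmul]
      abel
  have o2 : ∀ a, op (fun k => E2.tw (d k) (i2 (ψ k)) 0) a 1 = 1 ⊗ₜ op (SR R s) a 1 := by
    intro a
    induction a with
    | nil => rfl
    | cons k a ih =>
      rw [op_cons, ih]
      simp [E2.tw_apply, SR, S_apply, d, i2, ψ, tmul_add, add_comm]
  have e6 := congrArg (LinearMap.mul' R R ∘ₗ TensorProduct.map (lam u) (lam v)) e5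
  have pick : ∀ c : List ℕ × List ℕ → R, ∑ p ∈ PN (wt u + wt v),
      c p * ((if p.1 = u then 1 else 0) * if p.2 = v then 1 else 0) = c (u, v) := fun c => by
    rw [sum_eq_single_of_mem (u, v) (mem_PN.2 rfl)]
    · simp
    · intro p _ hp
      by_cases h : p.1 = u
      · rw [if_neg fun h' : p.2 = v => hp (Prod.ext h h'), mul_zero, mul_zero]
      · rw [if_neg h, zero_mul, mul_zero]
  simp only [o1, o2, Algebra.TensorProduct.tmul_mul_tmul, mul_one, one_mul, map_sum, map_smul,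
    LinearMap.comp_apply, map_tmul, LinearMap.mul'_apply, hl, smul_eq_mul, pick] at e6
  exact e6.symm

theorem M_surj (hs : ∀ k, G (2 * k + 3) (s k)) (hi : Function.Injective (phi s))
    (hc : ∀ n ψ, 3 ≤ n → G n ψ → ∃ g ∈ LN ℚ, phi s g = ψ) {Φ : List Bool → R} (hΦ : Pentagon Φ)
    (h1 : Φ [] = 1) (h2 : Φ [false, true] = 0) : ∃ g, GrpLike g ∧ M (cc s) g = Φ :=
  M_surj_of hs hi hΦ h1 fun m =>
    cmp_im hc m (m + 1) 3 le_rfl (by omega) Φ hΦ h1 (low_three hΦ h1 h2) _ le_rfl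

/-- `GT¹ ≅ U^mot` -/
def Iso : Prop := ∃ c : List Bool → List ℕ →₀ ℚ,
  (∀ w, ∀ u ∈ (c w).support, (u.map fun k => 2 * k + 3).sum = w.length) ∧
  ∀ (R : Type) [CommRing R] [Algebra ℚ R],
    Set.BijOn (M c) {g : List ℕ → R | GrpLike g} (GT R) ∧
    ∀ g h : List ℕ → R, GrpLike g → GrpLike h → Comp (M c g) (M c h) (M c (conv g h))

theorem core : St_CORE := st_CORE (st_LAT st_CO) st_CL st_EX st_DEP (st_DROP st_CO)
  (F.st_STAR st_CO) st_GAM st_PHI st_MOD

theorem iso : Iso := by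
  obtain ⟨s, hs, hi, hc⟩ := core
  refine ⟨cc s, cc_wt s, fun R _ _ => ⟨⟨fun g hg => M_mem hs hg, (M_inj hs hi).injOn,
    fun Φ h => ?_⟩, fun g h hg _ => M_conv hs hg h⟩⟩
  exact M_surj hs hi hc h.2.2.2 h.1.1 (xy_zero h)

/-- the pentagon and the vanishing of the quadratic term define the same set -/
theorem mem_GT {Φ : List Bool → R} :
    Φ ∈ GT R ↔ Φ [] = 1 ∧ Pentagon Φ ∧ Φ [false, true] = 0 := by
  refine ⟨fun h => ⟨h.1.1, h.2.2.2, xy_zero h⟩, fun h => ?_⟩
  obtain ⟨s, hs, hi, hc⟩ := core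
  obtain ⟨g, hg, rfl⟩ := M_surj hs hi hc h.2.1 h.1 h.2.2
  exact M_mem hs hg

end Pool.Agent.DD.GI
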