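import Pool.Agent.Lib.DR.Defs
import Mathlib.Data.Finsupp.Defs
import Mathlib.Algebra.BigOperators.Finsupp.Basic

set_option autoImplicit false

noncomputable section

namespace Pool.Agent.DD.GStmt

open Pool.Agent.DR PowerSeries Finset

/-- The shuffles of two words, with multiplicity: the first letter of the first word comes after
`i` letters of the second word. -/
def sh {α : Type} : List α → List α → List (List α)
  | [], v => [v]
  | a :: u, v => (List.range (v.length + 1)).flatMap fun i =>
      (sh u (v.drop i)).map fun w => v.take i ++ a :: w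

variable {R : Type} [CommRing R]

/-- Group-like series, given by their coefficients. -/
def GrpLike {α : Type} (g : List α → R) : Prop := g [] = 1 ∧ ∀ u v, g u * g v = ((sh u v).map g).sum

/-- The product of two series. -/
def conv (g h : List ℕ → R) (u : List ℕ) : R :=
  ∑ i ∈ range (u.length + 1), g (u.take i) * h (u.drop i)

def x (R : Type) [CommRing R] : FreeAlgebra R Bool := FreeAlgebra.ι R false

def y (R : Type) [CommRing R] : FreeAlgebra R Bool := FreeAlgebra.ι R true

/-- The associator relations with `ζ(2) = 0`. -/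
def GT (R : Type) [CommRing R] : Set (List Bool → R) :=
  {Φ | GrpLike Φ ∧ ser Φ (y R) (x R) * ser Φ (x R) (y R) = 1 ∧
    ser Φ (-x R - y R) (x R) * ser Φ (y R) (-x R - y R) * ser Φ (x R) (y R) = 1 ∧ Pentagon Φ}

/-- The two variables of a double series are made equal. -/
def diag {B : Type} [Ring B] (F : PowerSeries (PowerSeries B)) : PowerSeries B :=
  mk fun n => ∑ p ∈ antidiagonal n, coeff p.1 (coeff p.2 F)

/-- `Θ = Φ · Ψ(x, Φ⁻¹ y Φ)`. -/
def Comp (Φ Ψ Θ : List Bool → R) : Prop :=
  ∃ Q : PowerSeries (FreeAlgebra R Bool), ser Φ (x R) (y R) * Q = C (y R) * ser Φ (x R) (y R) ∧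
    ser Θ (x R) (y R) = ser Φ (x R) (y R) * diag (ser Ψ (C (x R)) Q)

/-- The map on points given by a rational matrix. -/
def M [Algebra ℚ R] (c : List Bool → List ℕ →₀ ℚ) (g : List ℕ → R) (w : List Bool) : R :=
  (c w).sum fun u q => q • g u

end Pool.Agent.DD.GStmt
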