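import Pool.Agent.Lib.DD.GStmt2
import Mathlib.LinearAlgebra.Finsupp.LinearCombination

set_option autoImplicit false

namespace Pool.Agent.DD.GStmt

/-- The matrix `c` defines a graded homomorphism from the group-like series in `s₃, s₅, …` to the
double shuffle group which does not kill the single zeta values. -/
def MotHom (c : List Bool → List ℕ →₀ ℚ) : Prop :=
  (∀ w, ∀ u ∈ (c w).support, (u.map fun k => 2 * k + 3).sum = w.length) ∧
  (∀ k, c (yx [2 * k + 2]) ≠ 0) ∧
  ∀ (R : Type) [CommRing R] [Algebra ℚ R],
    Set.MapsTo (M c) {g : List ℕ → R | GrpLike g} (DS R) ∧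
    ∀ g h : List ℕ → R, GrpLike g → GrpLike h → Comp (M c g) (M c h) (M c (conv g h))

/-- The points of the algebra spanned by the vectors `c w`: the group-like series which satisfy
every rational linear relation between these vectors. -/
def MZ (c : List Bool → List ℕ →₀ ℚ) (R : Type) [CommRing R] [Algebra ℚ R] :
    Set (List Bool → R) :=
  {Φ | GrpLike Φ ∧ ∀ a : List Bool →₀ ℚ,
    Finsupp.linearCombination ℚ c a = 0 → Finsupp.linearCombination ℚ Φ a = 0}

end Pool.Agent.DD.GStmt
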