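import Pool.Agent.Lib.DD.GStmt2
import Pool.Agent.Lib.DR.Sums
import Mathlib.LinearAlgebra.Finsupp.LinearCombination
import Mathlib.Topology.Instances.Real.Lemmas

set_option autoImplicit false

namespace Pool.Agent.DD.GStmt

open Pool.Agent.DR

/-- `Z` is the generating series of the real multiple zeta values (Drinfeld's associator): it is
group-like, has no linear term, and the coefficient of `x ^ (k₁ - 1) y ⋯ x ^ (k_r - 1) y` is
`(-1) ^ r ζ(k₁, …, k_r)` when `k₁ ≥ 2`. -/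
def IsMZV (Z : List Bool → ℝ) : Prop :=
  GrpLike Z ∧ Z [false] = 0 ∧ Z [true] = 0 ∧ ∀ k : List ℕ, k.head? ≠ some 0 →
    Filter.Tendsto (fun N => (mhs (k.map (· + 1)) N : ℝ)) Filter.atTop (nhds (th Z (yx k)))

/-- The group-like series which satisfy the rational linear relations in `J`. -/
def Ann (J : Set (List Bool →₀ ℚ)) (R : Type) [CommRing R] [Algebra ℚ R] : Set (List Bool → R) :=
  {Φ | GrpLike Φ ∧ ∀ a ∈ J, Finsupp.linearCombination ℚ Φ a = 0}

/-- `J` is graded, holds for `Z`, and is stable under the coaction. -/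
def Motivic (Z : List Bool → ℝ) (J : Set (List Bool →₀ ℚ)) : Prop :=
  (∀ a ∈ J, ∀ n, a.filter (·.length = n) ∈ J) ∧ Z ∈ Ann J ℝ ∧
  ∀ (R : Type) [CommRing R] [Algebra ℚ R], ∀ Φ ∈ Ann J R, ∀ Ψ ∈ Ann J R, ∀ Θ,
    Φ [false, true] = 0 → Comp Φ Ψ Θ → ∀ a ∈ J, Finsupp.linearCombination ℚ Θ a = 0

/-- The points of the algebra of words modulo `ζ(2)` and all motivic relations. -/
def GMZ (Z : List Bool → ℝ) (R : Type) [CommRing R] [Algebra ℚ R] : Set (List Bool → R) :=
  {Φ | Φ [false, true] = 0 ∧ ∀ J, Motivic Z J → Φ ∈ Ann J R}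

end Pool.Agent.DD.GStmt
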