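import Pool.Agent.Lib.DD.GD4
import Pool.Agent.Lib.DD.GStmt3

/-! Change of generators. -/

set_option autoImplicit false

noncomputable section

namespace Pool.Agent.DD.GU

open Pool.Agent.DR Pool.Agent.DD.GStmt Pool.Agent.DD.F Pool.Agent.DD.GI Finset

attribute [local instance 100] LieRing.ofAssociativeRing

theorem co_eq (u : List Bool) (f : FA ℚ) : E2.co u f = co u f :=
  LinearMap.congr_fun (F64.lext (F := E2.co u) (G := co u) fun l => by
    rw [← H56.wd_eq, E2.co_wd, CO.co_wd]) f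

variable {s : ℕ → FA ℚ}

theorem phi_cons (a : ℕ) (u : List ℕ) : phi s (wn (a :: u)) = S (s a) (phi s (wn u)) := by
  simp [wn, PHI.phi_apply]

theorem phi_depth (hs : ∀ k, G (2 * k + 3) (s k)) (u : List ℕ) :
    phi s (wn u) ∈ E2.Gr ℚ (wt u) u.length := by
  induction u with
  | nil => simpa [wn, PHI.phi_apply] using E2.Gr.wd_mem (K := ℚ) (w := []) rfl le_rfl
  | cons a u ih =>
    have e : s a = E2.cmp (fun w => co w (s a)) (2 * a + 3) := CO.eq_sum (hs a).hom
    have h : s a ∈ E2.Gr ℚ (2 * a + 3) 1 :=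
      e ▸ E2.cmp_mem_one (E2.pure_zero_lin (e ▸ (hs a).pent))
    rw [phi_cons, ← tw_eq, wt_cons, add_comm _ (wt u)]
    exact E2.Gr.tw h ih

/-- words of weight `n` with at least `m` letters -/
def Fl (m n : ℕ) : Submodule ℚ (FN ℚ) := Submodule.span ℚ (wn '' {u | m ≤ u.length ∧ wt u = n})

theorem wn_append (u v : List ℕ) : wn (u ++ v) = wn u * wn v := by simp [wn]

theorem Fl.mul {m n m' n' m'' : ℕ} {f g : FN ℚ} (hf : f ∈ Fl m n) (hg : g ∈ Fl m' n')
    (h : m'' ≤ m + m') : f * g ∈ Fl m'' (n + n') := by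
  have h1 := Submodule.mul_mem_mul hf hg
  rw [Fl, Fl, Submodule.span_mul_span] at h1
  refine Submodule.span_mono ?_ h1
  rintro _ ⟨_, ⟨u, hu, rfl⟩, _, ⟨w, hw, rfl⟩, rfl⟩
  refine ⟨u ++ w, ⟨?_, by rw [wt_append, hu.2, hw.2]⟩, wn_append _ _⟩
  have := hu.1
  have := hw.1
  rw [List.length_append]
  omega

theorem Fl.cw {m n : ℕ} {f : FN ℚ} (hf : f ∈ Fl m n) {u : List ℕ} (hu : u.length < m) :
    GD.cw u f = 0 := by
  refine (Submodule.span_le (p := LinearMap.ker (GD.cw u))).2 ?_ hf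
  rintro _ ⟨w, hw, rfl⟩
  have := hw.1
  simp only [SetLike.mem_coe, LinearMap.mem_ker, wn, GD.cw_word]
  rw [if_neg]
  rintro rfl
  omega

theorem len_wt (u : List ℕ) : u.length ≤ wt u := by
  induction u with
  | nil => simp
  | cons a u ih => rw [wt_cons, List.length_cons]; omega

theorem lead (hs : ∀ k, G (2 * k + 3) (s k)) (hi : Function.Injective (phi s)) {k : ℕ} {h : FN ℚ}
    (hh : phi s h ∈ Hn ℚ (2 * k + 3)) : ∃ a : ℚ, h - a • FreeAlgebra.ι ℚ k ∈ Fl 2 (2 * k + 3) ∧
      co (d1 (2 * k + 3)) (phi s h) = a * co (d1 (2 * k + 3)) (s k) := by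
  obtain ⟨lam, hl⟩ := exists_lam (R := ℚ) s hi
  have b : ∀ f : FA ℚ, bc ℚ f = f := fun f => CO.ext_co fun w => co_bc w f
  have e : h = ∑ u ∈ WN (2 * k + 3), lam u (phi s h) • wn u := by
    refine hi (CO.ext_co fun w => ?_)
    by_cases hw : w.length = 2 * k + 3
    · rw [co_im hs hl (Submodule.subset_span ⟨h, b _⟩), hw]
      simp [← bc_phi, b]
    · rw [CO.co_of_mem hh hw, map_sum, map_sum, sum_eq_zero]
      intro u hu
      rw [map_smul, map_smul, ← b (phi s (wn u)), bc_phi,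
        CO.co_of_mem (op_mem hs u) (mem_WN.1 hu ▸ hw), smul_zero]
  have h1 : h - lam [k] (phi s h) • FreeAlgebra.ι ℚ k ∈ Fl 2 (2 * k + 3) := by
    rw [← add_sum_erase _ _ (mem_WN.2 (by simp) : [k] ∈ WN (2 * k + 3)),
      show wn [k] = FreeAlgebra.ι ℚ k by simp [wn]] at e
    rw [sub_eq_of_eq_add' e]
    refine Submodule.sum_mem _ fun u hu => Submodule.smul_mem _ _
      (Submodule.subset_span ⟨u, ⟨?_, mem_WN.1 (mem_of_mem_erase hu)⟩, rfl⟩)
    have h2 := mem_WN.1 (mem_of_mem_erase hu)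
    match u, h2, ne_of_mem_erase hu with
    | [a], h2, h3 => exact absurd (by simp at h2 ⊢; omega) h3
    | _ :: _ :: _, _, _ => simp
  refine ⟨_, h1, ?_⟩
  have h2 : co (d1 (2 * k + 3)) (phi s (h - lam [k] (phi s h) • FreeAlgebra.ι ℚ k)) = 0 := by
    refine (Submodule.span_le (p := LinearMap.ker (co (d1 (2 * k + 3)) ∘ₗ phi s))).2 ?_ h1
    rintro _ ⟨u, hu, rfl⟩
    exact (co_eq _ _).symm.trans (E2.Gr.co_eq (phi_depth hs u)
      ((H19.d1_count _).trans_lt hu.1))
  simpa [sub_eq_zero, PHI.phi_gen] using h2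

section tri
variable {h : ℕ → FN ℚ} {a : ℕ → ℚ} (ha : ∀ k, a k ≠ 0)
  (hh : ∀ k, h k - a k • FreeAlgebra.ι ℚ k ∈ Fl 2 (2 * k + 3))
include hh

theorem tri (v : List ℕ) :
    FreeAlgebra.lift ℚ h (wn v) - (v.map a).prod • wn v ∈ Fl (v.length + 1) (wt v) := by
  induction v with
  | nil => simp [wn]
  | cons k v ih =>
    have w : ∀ u, wn u ∈ Fl u.length (wt u) := fun u => Submodule.subset_span ⟨u, ⟨le_rfl, rfl⟩, rfl⟩
    have e : FreeAlgebra.lift ℚ h (wn (k :: v)) - ((k :: v).map a).prod • wn (k :: v) =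
        (h k - a k • FreeAlgebra.ι ℚ k) * (FreeAlgebra.lift ℚ h (wn v) - (v.map a).prod • wn v) +
        (v.map a).prod • ((h k - a k • FreeAlgebra.ι ℚ k) * wn v) +
        a k • (wn [k] * (FreeAlgebra.lift ℚ h (wn v) - (v.map a).prod • wn v)) := by
      simp only [wn, List.map_cons, List.prod_cons, map_mul, FreeAlgebra.lift_ι_apply, List.map_nil,
        List.prod_nil, mul_one, mul_sub, sub_mul, smul_sub, mul_smul_comm, smul_mul_assoc, mul_smul]
      rw [smul_comm (a k)]
      abel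
    rw [e, wt_cons]
    exact add_mem (add_mem (Fl.mul (hh k) ih (by simp only [List.length_cons]; omega))
      (Submodule.smul_mem _ _ (Fl.mul (hh k) (w v) (by simp; omega))))
      (Submodule.smul_mem _ _ (by
        simpa using Fl.mul (m'' := v.length + 1 + 1) (w [k]) ih (by simp [add_comm])))

include ha

omit hh in
theorem prod_ne (v : List ℕ) : (v.map a).prod ≠ 0 :=
  List.prod_ne_zero fun hc => by
    obtain ⟨k, -, e⟩ := List.mem_map.1 hc
    exact ha k e

theorem tri_surj : Function.Surjective (FreeAlgebra.lift ℚ h) := by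
  let P := LinearMap.range (FreeAlgebra.lift ℚ h).toLinearMap
  have key : ∀ n j m, n < m + j → Fl m n ≤ P := by
    intro n j
    induction j with
    | zero =>
      refine fun m hm => Submodule.span_le.2 ?_
      rintro _ ⟨u, hu, rfl⟩
      have := len_wt u
      have := hu.1
      have := hu.2
      omega
    | succ j ih =>
      refine fun m hm => Submodule.span_le.2 ?_
      rintro _ ⟨u, hu, rfl⟩
      have h1 := ih (u.length + 1) (by have := hu.1; omega) (hu.2 ▸ tri hh u)
      exact (P.smul_mem_iff (prod_ne ha u)).1 ((P.sub_mem_iff_right ⟨_, rfl⟩).1 h1)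
  intro f
  have : ⊤ ≤ P := by
    rw [← (FreeAlgebra.basisFreeMonoid ℚ ℕ).span_eq, Submodule.span_le]
    rintro _ ⟨u, rfl⟩
    rw [← FreeMonoid.ofList_toList u, F64.bas]
    exact key _ (wt u.toList + 1) 0 (by omega)
      (Submodule.subset_span ⟨u.toList, ⟨Nat.zero_le _, rfl⟩, rfl⟩)
  exact this trivial

theorem tri_inj : Function.Injective (FreeAlgebra.lift ℚ h) := by
  refine (injective_iff_map_eq_zero _).2 fun f hf => ?_
  have key : ∀ m, ∀ u : List ℕ, u.length < m → GD.cw u f = 0 := by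
    intro m
    induction m with
    | zero => intro u hu; omega
    | succ m ih =>
      intro u hu
      let b := FreeAlgebra.basisFreeMonoid ℚ ℕ
      have e := congrArg (fun z => GD.cw u (FreeAlgebra.lift ℚ h z)) (b.linearCombination_repr f)
      simp only [hf, map_zero, Finsupp.linearCombination_apply, Finsupp.sum, map_sum, map_smul] at e
      have c : ∀ v : List ℕ, m ≤ v.length → GD.cw u (FreeAlgebra.lift ℚ h (b (FreeMonoid.ofList v))) =
          if v = u then (v.map a).prod else 0 := fun v hv => by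
        have := Fl.cw (tri hh v) (u := u) (by omega)
        rw [map_sub, sub_eq_zero, map_smul, wn, GD.cw_word] at this
        rw [F64.bas, this]
        simp
      by_cases hm : u.length < m
      · exact ih u hm
      rw [sum_eq_single (FreeMonoid.ofList u), c u (by omega), if_pos rfl] at e
      · exact (mul_eq_zero.1 e).resolve_right (prod_ne ha u)
      · intro v _ hv
        by_cases hl : v.toList.length < m
        · rw [show b.repr f v = 0 from ih _ hl, zero_smul]
        · rw [← FreeMonoid.ofList_toList v, c _ (by omega), if_neg, smul_zero]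
          rintro rfl
          exact hv rfl
      · intro hv
        rw [Finsupp.notMem_support_iff.1 hv, zero_smul]
  exact (FreeAlgebra.basisFreeMonoid ℚ ℕ).ext_elem fun w => by
    rw [map_zero]
    exact key _ w.toList (Nat.lt_succ_self _)

end tri

theorem d1_ne (hs : ∀ k, G (2 * k + 3) (s k)) (hi : Function.Injective (phi s))
    (hc : ∀ n ψ, 3 ≤ n → G n ψ → ∃ g ∈ LN ℚ, phi s g = ψ) (k : ℕ) :
    co (d1 (2 * k + 3)) (s k) ≠ 0 := by
  obtain ⟨ψ, h1, h2⟩ := st_EX k
  obtain ⟨g, -, rfl⟩ := hc _ ψ (by omega) h1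
  obtain ⟨a, -, e⟩ := lead hs hi h1.hom
  exact fun h => h2 (by rw [e, h, mul_zero])

/-- every family with non-zero coefficients of depth one is a family of free generators -/
theorem bij {s' : ℕ → FA ℚ} (hs' : ∀ k, G (2 * k + 3) (s' k))
    (h0 : ∀ k, co (d1 (2 * k + 3)) (s' k) ≠ 0) (R : Type) [CommRing R] [Algebra ℚ R] :
    Set.BijOn (M (cc s')) {g : List ℕ → R | GrpLike g} (GT R) := by
  obtain ⟨s, hs, hi, hc⟩ := core
  choose h h1 h2 using fun k => hc _ (s' k) (by omega) (hs' k)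
  choose a h3 h4 using fun k => lead hs hi (h := h k) (h2 k ▸ (hs' k).hom)
  have ha : ∀ k, a k ≠ 0 := fun k e => h0 k (by rw [← h2, h4, e, zero_mul])
  have e : ∀ g, phi s' g = phi s (FreeAlgebra.lift ℚ h g) := fun g => by
    rw [PHI.phi_apply, PHI.phi_apply, ← AlgHom.comp_apply]
    congr 2
    exact FreeAlgebra.hom_ext (funext fun k => by simp [PHI.lift_eq s (h1 k), h2])
  have hi' : Function.Injective (phi s') := fun f g hfg =>
    tri_inj ha h3 (hi (by rw [← e, ← e, hfg]))
  refine ⟨fun g hg => M_mem hs' hg, (M_inj hs' hi').injOn, fun Φ hΦ => ?_⟩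
  refine M_surj_of hs' hi' hΦ.2.2.2 hΦ.1.1 fun m => Submodule.span_mono ?_
    (cmp_im hc m (m + 1) 3 le_rfl (by omega) Φ hΦ.2.2.2 hΦ.1.1
      (low_three hΦ.2.2.2 hΦ.1.1 (xy_zero hΦ)) _ le_rfl)
  rintro _ ⟨g, rfl⟩
  obtain ⟨g, rfl⟩ := tri_surj ha h3 g
  exact ⟨g, by simp only [e]⟩

end Pool.Agent.DD.GU
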