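import Pool.Agent.Lib.DD.GU1

/-! Every graded homomorphism which does not kill the generators is an isomorphism. -/

set_option autoImplicit false

noncomputable section

namespace Pool.Agent.DD.GU

open Pool.Agent.DR Pool.Agent.DD.GStmt Pool.Agent.DD.F Pool.Agent.DD.GI Finset TrivSqZeroExt

variable {R : Type} [CommRing R]

theorem comp_uniq {Φ Ψ Θ Θ' : List Bool → R} (h1 : Φ [] = 1) (h : Comp Φ Ψ Θ) (h' : Comp Φ Ψ Θ') :
    Θ = Θ' := by
  obtain ⟨Q, a, b⟩ := h
  obtain ⟨Q', a', b'⟩ := h'
  obtain rfl : Q = Q' := (PowerSeries.isUnit_iff_constantCoeff.2 (by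
    rw [← PowerSeries.coeff_zero_eq_constantCoeff_apply, coeff_ser]
    simp [W_zero, h1])).mul_left_cancel (a.trans a'.symm)
  funext w
  have := congrArg (fun F => co w (PowerSeries.coeff w.length F)) (b.trans b'.symm)
  simp only [coeff_ser] at this
  exact ((if_pos rfl).symm.trans (CO.co_sum _ Θ w).symm).trans
    (this.trans ((CO.co_sum _ Θ' w).trans (if_pos rfl)))

/-- the series `1 + ε s_k` -/
def ge (R : Type) [CommRing R] (k : ℕ) (u : List ℕ) : DualNumber R :=
  if u = [] then 1 else if u = [k] then inr 1 else 0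

/-- remove a first letter -/
def dh (k : ℕ) (h : List ℕ → R) (u : List ℕ) : R := if u.head? = some k then h u.tail else 0

theorem conv_ge (k : ℕ) (h : List ℕ → R) (u : List ℕ) :
    conv (ge R k) (fun v => inl (h v)) u = inl (h u) + inr (dh k h u) := by
  rcases u with _ | ⟨a, u⟩
  · simp [conv, ge, dh]
  · rw [conv, List.length_cons, sum_range_succ', sum_range_succ', sum_eq_zero]
    · by_cases e : a = k <;> ext <;> simp [ge, dh, e]
    · intro i hi
      have := mem_range.1 hi
      rcases u with _ | ⟨b, u⟩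
      · simp at this
      · simp [ge]

theorem gl_conv (k : ℕ) {h : List ℕ → R} (hg : GrpLike h) :
    GrpLike (conv (ge R k) fun v => inl (h v)) := by
  refine ⟨by simp [conv_ge, hg.1, dh], fun u v => ?_⟩
  have e : dh k h u * h v + h u * dh k h v = ((sh u v).map (dh k h)).sum := by
    rcases u with _ | ⟨a, u⟩
    · simp [sh, dh, hg.1]
    rcases v with _ | ⟨b, v⟩
    · simp [sh_nil, dh, hg.1]
    rw [sh_cons]
    by_cases h1 : a = k <;> by_cases h2 : b = k <;> simp [dh, h1, h2, hg.2, Function.comp_def]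
  have s : ∀ L : List (List ℕ), (L.map (conv (ge R k) fun v => inl (h v))).sum =
      inl (L.map h).sum + inr (L.map (dh k h)).sum := fun L => by
    induction L with
    | nil => simp
    | cons a L ih => rw [List.map_cons, List.sum_cons, ih, conv_ge]; ext <;> simp
  rw [s, ← e, ← hg.2, conv_ge, conv_ge]
  ext <;> simp [add_comm, mul_comm]

/-- the unit -/
def un (R : Type) [CommRing R] (u : List ℕ) : R := if u = [] then 1 else 0

theorem gl_un : GrpLike (un R) := by
  refine ⟨rfl, fun u v => ?_⟩
  rcases u with _ | ⟨a, u⟩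
  · simp [sh, un]
  rcases v with _ | ⟨b, v⟩
  · simp [sh_nil, un]
  simp [sh_cons, un, Function.comp_def]

theorem gl_ge (k : ℕ) : GrpLike (ge R k) := by
  have : ge R k = conv (ge R k) fun v => inl (un R v) := funext fun u => by
    rw [conv_ge]
    rcases u with _ | ⟨a, u⟩
    · simp [ge, un, dh]
    · by_cases h1 : a = k <;> by_cases h2 : u = [] <;> simp [ge, un, dh, h1, h2]
  rw [this]
  exact gl_conv k gl_un

theorem gl_inl {h : List ℕ → R} (hg : GrpLike h) :
    GrpLike fun v => (inl (h v) : DualNumber R) :=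
  ⟨by simp [hg.1], fun u v => by
    rw [← inl_mul, hg.2]
    exact (map_list_sum (inlHom R R) _).trans (by simp [Function.comp_def])⟩

variable [Algebra ℚ R]

theorem M_un (c : List Bool → List ℕ →₀ ℚ) (w : List Bool) :
    M c (un R) w = algebraMap ℚ R (c w []) := by
  rw [M, Finsupp.sum_eq_single [] (fun b _ hb => by simp [un, hb]) (by simp)]
  simp [un, Algebra.smul_def]

theorem M_ge (c : List Bool → List ℕ →₀ ℚ) (k : ℕ) (w : List Bool) :
    M c (ge R k) w = inl (algebraMap ℚ R (c w [])) + inr (algebraMap ℚ R (c w [k])) := by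
  have : ∀ u, ge R k u = (if u = [] then 1 else 0) + if u = [k] then inr 1 else 0 := fun u => by
    by_cases h : u = [] <;> simp [ge, h]
  simp only [M, this, smul_add, Finsupp.sum_add, smul_ite, smul_zero, Finsupp.sum_ite_eq']
  congr 1 <;> split_ifs with h
  · ext <;> simp [Algebra.algebraMap_eq_smul_one]
  · simp [Finsupp.notMem_support_iff.1 h]
  · ext <;> simp [Algebra.smul_def]
  · simp [Finsupp.notMem_support_iff.1 h]

theorem M_inl (c : List Bool → List ℕ →₀ ℚ) (h : List ℕ → R) (w : List Bool) :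
    M c (fun v => (inl (h v) : DualNumber R)) w = inl (M c h w) := by
  simp only [M, Finsupp.sum, inl_sum, inl_smul]

/-- the form for the associator relations -/
theorem univ_GT {c : List Bool → List ℕ →₀ ℚ} (h1 : ∀ w, ∀ u ∈ (c w).support, wt u = w.length)
    (h2 : ∀ k, c (yx [2 * k + 2]) ≠ 0)
    (h3 : ∀ (R : Type) [CommRing R] [Algebra ℚ R],
      Set.MapsTo (M c) {g : List ℕ → R | GrpLike g} (GT R) ∧
      ∀ g h : List ℕ → R, GrpLike g → GrpLike h → Comp (M c g) (M c h) (M c (conv g h)))
    (R : Type) [CommRing R] [Algebra ℚ R] :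
    Set.BijOn (M c) {g : List ℕ → R | GrpLike g} (GT R) := by
  have z : ∀ w u, wt u ≠ w.length → c w u = 0 := fun w u h =>
    Finsupp.notMem_support_iff.1 fun hc => h (h1 w u hc)
  have c0 : c [] [] = 1 := by simpa [M_un] using ((h3 ℚ).1 gl_un).1.1
  let s : ℕ → FA ℚ := fun k => E2.cmp (fun w => c w [k]) (2 * k + 3)
  have cs : ∀ k w, co w (s k) = c w [k] := fun k w => (CO.co_sum _ _ w).trans (by
    split_ifs with h
    · rfl
    · exact (z w [k] (by simpa using Ne.symm h)).symm)
  have hs : ∀ k, G (2 * k + 3) (s k) := fun k => by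
    have hΦ := (h3 _).1 (gl_ge (R := ℚ) k)
    have := lpent_desc ((sndHom ℚ ℚ).restrictScalars ℚ) (lpent_low hΦ.2.2.2 hΦ.1.1
      (by omega : 0 < 2 * k + 3) fun u h0 hu => by
        rw [M_ge, z u [] (by simp; omega), z u [k] (by simp; omega)]
        simp)
    simp only [M_ge] at this
    have hp : S39.LPent (s k) := by simpa using this
    exact ⟨H56.isLie_of_lpent hp, CO.sum_mem _ _, hp⟩
  have e0 : ∀ w, cc s w [] = c w [] := fun w => by
    by_cases h : w = []
    · simpa [M_un, h, c0, un] using M_nil (s := s) (g := un ℚ)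
    · have : wt [] ≠ w.length := by simpa [eq_comm] using h
      rw [z w [] this, Finsupp.notMem_support_iff.1 fun hc => this (cc_wt s w _ hc)]
  have e1 : ∀ w k, cc s w [k] = c w [k] := fun w k => by
    rw [cc, Finsupp.onFinset_apply]
    split_ifs with h
    · rw [← cs]
      simp [wn, PHI.phi_gen]
    · exact (z w _ h).symm
  have key : ∀ u : List ℕ, ∃ (R : Type) (_ : CommRing R) (_ : Algebra ℚ R) (h : List ℕ → R)
      (l : R →ₗ[ℚ] ℚ), GrpLike h ∧ M c h = M (cc s) h ∧ ∀ v, l (h v) = if v = u then 1 else 0 := by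
    intro u
    induction u with
    | nil =>
      exact ⟨ℚ, inferInstance, inferInstance, un ℚ, LinearMap.id, gl_un,
        funext fun w => by rw [M_un, M_un, e0], fun v => rfl⟩
    | cons k u ih =>
      obtain ⟨R, _, _, h, l, a1, a2, a3⟩ := ih
      refine ⟨DualNumber R, inferInstance, inferInstance, conv (ge R k) fun v => inl (h v),
        l ∘ₗ (sndHom R R).restrictScalars ℚ, gl_conv k a1, ?_, fun v => ?_⟩
      · have b1 : M c (ge R k) = M (cc s) (ge R k) := funext fun w => by rw [M_ge, M_ge, e0, e1]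
        have b2 : M c (fun v => (inl (h v) : DualNumber R)) = M (cc s) fun v => inl (h v) :=
          funext fun w => by rw [M_inl, M_inl, a2]
        refine comp_uniq ((h3 _).1 (gl_ge k)).1.1 ((h3 _).2 _ _ (gl_ge k) (gl_inl a1)) ?_
        rw [b1, b2]
        exact M_conv hs (gl_ge k) _
      · rcases v with _ | ⟨b, v⟩
        · simp [conv_ge, dh]
        · by_cases hb : b = k <;> simp [conv_ge, dh, hb, a3]
  have e : c = cc s := funext fun w => Finsupp.ext fun u => by
    obtain ⟨R, _, _, h, l, -, a2, a3⟩ := key u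
    have m : ∀ c : List Bool → List ℕ →₀ ℚ, l (M c h w) = c w u := fun c => by
      simp only [M, map_finsuppSum, map_smul, a3, smul_eq_mul, mul_ite, mul_one, mul_zero,
        Finsupp.sum_ite_eq']
      split_ifs with hu
      · rfl
      · exact (Finsupp.notMem_support_iff.1 hu).symm
    rw [← m c, a2, m]
  rw [e] at h2 ⊢
  refine bij hs (fun k hk => h2 k (Finsupp.ext fun u => ?_)) R
  have l : (yx [2 * k + 2]).length = 2 * k + 3 := by simp [yx]
  have d : yx [2 * k + 2] = d1 (2 * k + 3) := by simp [yx, d1]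
  rw [cc, Finsupp.onFinset_apply, l, d]
  split_ifs with hu
  · match u, hu with
    | [a], hu =>
      obtain rfl : a = k := by simp at hu; omega
      simpa [wn, PHI.phi_gen] using hk
    | a :: b :: u, _ =>
      exact (co_eq _ _).symm.trans (E2.Gr.co_eq (phi_depth hs _)
        ((H19.d1_count _).trans_lt (by simp)))
  · rfl

/-- the matrix of the composite with `y ↦ -y` -/
def tc (c : List Bool → List ℕ →₀ ℚ) (w : List Bool) : List ℕ →₀ ℚ :=
  ((-1) ^ w.count true : ℚ) • c w

theorem M_tc (c : List Bool → List ℕ →₀ ℚ) (g : List ℕ → R) : M (tc c) g = th (M c g) := by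
  funext w
  rw [M, tc, Finsupp.sum_smul_index (by simp), th, M, Finsupp.mul_sum]
  simp [Algebra.smul_def, mul_assoc]

theorem tc_wt {c : List Bool → List ℕ →₀ ℚ} (h1 : ∀ w, ∀ u ∈ (c w).support, wt u = w.length) :
    ∀ w, ∀ u ∈ (tc c w).support, wt u = w.length :=
  fun w u hu => h1 w u (Finsupp.support_smul hu)

end Pool.Agent.DD.GU
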