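import Pool.Agent.Lib.DD.GU2

/-! The four groups. -/

set_option autoImplicit false

noncomputable section

namespace Pool.Agent.DD.GU

open Pool.Agent.DR Pool.Agent.DD.GStmt Pool.Agent.DD.F Pool.Agent.DD.GI Finset TrivSqZeroExt
  Finsupp

/-- group-like series separate the words -/
theorem sep (u : List ℕ) : ∃ (R : Type) (_ : CommRing R) (_ : Algebra ℚ R) (h : List ℕ → R)
    (l : R →ₗ[ℚ] ℚ), GrpLike h ∧ ∀ v, l (h v) = if v = u then 1 else 0 := by
  induction u with
  | nil => exact ⟨ℚ, inferInstance, inferInstance, un ℚ, LinearMap.id, gl_un, fun v => rfl⟩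
  | cons k u ih =>
    obtain ⟨R, _, _, h, l, a1, a3⟩ := ih
    refine ⟨DualNumber R, inferInstance, inferInstance, conv (ge R k) fun v => inl (h v),
      l ∘ₗ (sndHom R R).restrictScalars ℚ, gl_conv k a1, fun v => ?_⟩
    rcases v with _ | ⟨b, v⟩
    · simp [conv_ge, dh]
    · by_cases hb : b = k <;> simp [conv_ge, dh, hb, a3]

/-- functions which are linear on group-like series -/
def Lin (F : ∀ (R : Type) [CommRing R] [Algebra ℚ R], (List Bool → R) → R) : Prop :=
  ∃ a : List Bool →₀ ℚ, ∀ (R : Type) [CommRing R] [Algebra ℚ R] (Φ : List Bool → R), GrpLike Φ →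
    F R Φ = linearCombination ℚ Φ a

namespace Lin

variable {F G : ∀ (R : Type) [CommRing R] [Algebra ℚ R], (List Bool → R) → R}

theorem cg (h : Lin F) (e : ∀ (R : Type) [CommRing R] [Algebra ℚ R] (Φ : List Bool → R),
    GrpLike Φ → G R Φ = F R Φ) : Lin G :=
  h.imp fun _ ha R _ _ Φ hΦ => (e R Φ hΦ).trans (ha R Φ hΦ)

theorem co (w : List Bool) : Lin fun _ _ _ Φ => Φ w := ⟨single w 1, fun R _ _ Φ _ => by simp⟩

theorem zero : Lin fun _ _ _ _ => 0 := ⟨0, fun R _ _ Φ _ => by simp⟩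

theorem one : Lin fun _ _ _ _ => 1 := (co []).cg fun _ _ _ _ h => h.1.symm

theorem add (h : Lin F) (h' : Lin G) : Lin fun R _ _ Φ => F R Φ + G R Φ := by
  obtain ⟨a, ha⟩ := h
  obtain ⟨b, hb⟩ := h'
  exact ⟨a + b, fun R _ _ Φ hΦ => by rw [map_add, ← ha R Φ hΦ, ← hb R Φ hΦ]⟩

theorem smul (q : ℚ) (h : Lin F) : Lin fun R _ _ Φ => q • F R Φ := by
  obtain ⟨a, ha⟩ := h
  exact ⟨q • a, fun R _ _ Φ hΦ => by rw [map_smul, ← ha R Φ hΦ]⟩

theorem lsum {β : Type} (L : List β)
    {H : β → ∀ (R : Type) [CommRing R] [Algebra ℚ R], (List Bool → R) → R} (h : ∀ b, Lin (H b)) :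
    Lin fun R _ _ Φ => (L.map fun b => H b R Φ).sum := by
  induction L with
  | nil => exact zero
  | cons b L ih => exact ((h b).add ih).cg fun _ _ _ _ _ => by simp

theorem sum {β : Type} (s : Finset β)
    {H : β → ∀ (R : Type) [CommRing R] [Algebra ℚ R], (List Bool → R) → R}
    (h : ∀ b ∈ s, Lin (H b)) : Lin fun R _ _ Φ => ∑ b ∈ s, H b R Φ := by
  classical
  induction s using Finset.induction_on with
  | empty => exact zero
  | insert b s hb ih =>
    exact ((h b (mem_insert_self _ _)).add (ih fun c hc => h c (mem_insert_of_mem hc))).cg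
      fun _ _ _ _ _ => sum_insert hb

theorem mul (h : Lin F) (h' : Lin G) : Lin fun R _ _ Φ => F R Φ * G R Φ := by
  obtain ⟨a, ha⟩ := h
  obtain ⟨b, hb⟩ := h'
  refine (sum a.support fun u _ => sum b.support fun v _ =>
    smul (a u * b v) (lsum (sh u v) co)).cg fun R _ _ Φ hΦ => ?_
  rw [ha R Φ hΦ, hb R Φ hΦ, linearCombination_apply, linearCombination_apply, Finsupp.sum,
    Finsupp.sum, sum_mul_sum]
  simp only [smul_mul_smul_comm, hΦ.2]

theorem cor (i : ℕ) : Lin fun _ _ _ Φ => PowerSeries.coeff i (corr Φ) := by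
  induction i using Nat.strong_induction_on with
  | _ i ih =>
    rcases i with _ | n
    · exact one.cg fun _ _ _ Φ _ => (GD.corr_rec Φ).1
    refine (smul ((n : ℚ) + 1)⁻¹ (sum (antidiagonal n) fun p hp =>
      (ih p.1 (by have := mem_antidiagonal.1 hp; omega)).mul
        (smul ((-1) ^ p.2) (co (yx [p.2]))))).cg fun R _ _ Φ _ => ?_
    have e := (GD.corr_rec Φ).2 n
    rw [eq_inv_smul_iff₀ (by positivity), Algebra.smul_def, mul_comm]
    simpa [Algebra.smul_def] using e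

theorem rg (k : List ℕ) : Lin fun _ _ _ Φ => reg Φ k := by
  refine sum (range (k.length + 1)) fun i _ => ?_
  split_ifs
  · exact (cor i).mul (co _)
  · exact zero

end Lin

theorem lc_M {R : Type} [CommRing R] [Algebra ℚ R] (c : List Bool → List ℕ →₀ ℚ) (g : List ℕ → R)
    (a : List Bool →₀ ℚ) :
    linearCombination ℚ (M c g) a = linearCombination ℚ g (linearCombination ℚ c a) :=
  (apply_linearCombination ℚ (linearCombination ℚ g) c a).symm

theorem mz_sub {c : List Bool → List ℕ →₀ ℚ} (hc : MotHom c) (R : Type) [CommRing R]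
    [Algebra ℚ R] : MZ c R ⊆ GStmt.DS R := by
  intro Φ hΦ
  have key : ∀ {F : ∀ (R : Type) [CommRing R] [Algebra ℚ R], (List Bool → R) → R}, Lin F →
      (∀ (S : Type) [CommRing S] [Algebra ℚ S], ∀ Ψ ∈ GStmt.DS S, F S Ψ = 0) → F R Φ = 0 := by
    rintro F ⟨a, ha⟩ h
    rw [ha R Φ hΦ.1]
    refine hΦ.2 a (Finsupp.ext fun u => ?_)
    obtain ⟨S, _, _, g, l, hg, hl⟩ := sep u
    have m := (hc.2.2 S).1 hg
    have e := congrArg l ((ha S _ m.1).symm.trans (h S _ m))
    rw [lc_M, apply_linearCombination, linearCombination_apply, Finsupp.sum_eq_single u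
      (fun v _ hv => by simp [hl, hv]) (by simp)] at e
    simpa [hl] using e
  refine ⟨hΦ.1, key (Lin.co _) fun _ _ _ _ h => h.2.1, key (Lin.co _) fun _ _ _ _ h => h.2.2.1,
    key (Lin.co _) fun _ _ _ _ h => h.2.2.2.1, fun k l => ?_⟩
  have := key (((Lin.rg k).mul (Lin.rg l)).add ((Lin.lsum (st k l) Lin.rg).smul (-1)))
    fun _ _ _ _ h => by simp [h.2.2.2.2 k l]
  simpa [add_neg_eq_zero] using this

/-- the final statement -/
def Final : Prop :=
  (∀ (R : Type) [CommRing R] [Algebra ℚ R], Set.BijOn th (GT R) (DS R) ∧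
    ∀ Φ Ψ Θ : List Bool → R, Comp Φ Ψ Θ → Comp (th Φ) (th Ψ) (th Θ)) ∧
  (∃ c, MotHom c) ∧
  ∀ c, MotHom c → ∀ (R : Type) [CommRing R] [Algebra ℚ R],
    Set.BijOn (M c) {g : List ℕ → R | GrpLike g} (MZ c R) ∧ MZ c R = DS R

theorem final_of (h : Q1) : Final := by
  have b : ∀ (R : Type) [CommRing R] [Algebra ℚ R], Set.BijOn th (GT R) (DS R) := fun R _ _ =>
    ⟨fun _ => GD.th_mem, (Function.Involutive.injective GD.th_th).injOn, fun Ψ hΨ =>
      ⟨th Ψ, GD.mem_of_th (GD.hl_of h) ((GD.th_th Ψ).symm ▸ hΨ), GD.th_th Ψ⟩⟩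
  refine ⟨fun R _ _ => ⟨b R, fun _ _ _ => GD.comp_th⟩, ?_, fun c hc R _ _ => ?_⟩
  · obtain ⟨s, hs, hi, hc⟩ := core
    refine ⟨tc (cc s), tc_wt (cc_wt s), fun k e => ?_, fun R _ _ => ⟨fun g hg => ?_,
      fun g h hg _ => ?_⟩⟩
    · exact d1_ne hs hi hc k (by
        simpa [tc, cc, yx, wn, PHI.phi_gen, d1] using congrArg (· [k]) e)
    · exact M_tc _ g ▸ GD.th_mem (M_mem hs hg)
    · simpa only [M_tc] using GD.comp_th (M_conv hs hg h)
  · have := (b R).comp (univ_GT (tc_wt hc.1) (fun k => by simpa [tc] using hc.2.1 k)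
      (fun R _ _ => ⟨fun g hg => GD.mem_of_th (GD.hl_of h) (by
        rw [M_tc, GD.th_th]
        exact (hc.2.2 R).1 hg), fun g h hg hh => by
          simpa only [M_tc] using GD.comp_th ((hc.2.2 R).2 g h hg hh)⟩) R)
    rw [show th ∘ M (tc c) = M c from funext fun g => by
      rw [Function.comp_apply, M_tc, GD.th_th]] at this
    have e : MZ c R = DS R := (mz_sub hc R).antisymm fun Φ hΦ => ⟨hΦ.1, fun a ha => by
      obtain ⟨g, -, rfl⟩ := this.surjOn hΦ
      rw [lc_M, ha, map_zero]⟩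
    exact ⟨e ▸ this, e⟩

theorem final_of_A (h1 : St_A1) (h2 : St_A2) : Final := final_of (q1_of_A h1 h2)

end Pool.Agent.DD.GU
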