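import Mathlib

/-! Lemma K, combinatorial half: a two-dimensional representation over the free algebra on two
letters and a peeling argument. Words are read from the right end. -/

set_option autoImplicit false

noncomputable section

namespace Pool.Agent.DD.K15

open MulOpposite

/-- Coefficient functions on words in two letters. -/
abbrev F : Type := List Bool → ZMod 2

/-- The ring in which the two letters act. -/
abbrev D : Type := (Module.End (ZMod 2) F)ᵐᵒᵖ

/-- Adding a letter. -/
def sh (b : Bool) : Module.End (ZMod 2) F where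
  toFun f := fun om => match om with
    | [] => 0
    | c :: om => if c = b then f om else 0
  map_add' f g := by
    funext om; cases om with
    | nil => simp
    | cons c om => by_cases h : c = b <;> simp [h]
  map_smul' r f := by
    funext om; cases om with
    | nil => simp
    | cons c om => by_cases h : c = b <;> simp [h]

def Q : D := op (sh true)
def C : D := op (sh false)

/-- The coefficient of a word. -/
def cf (d : D) (om : List Bool) : ZMod 2 := unop d (Pi.single [] 1) om

@[simp] theorem cf_add (d d' : D) (om : List Bool) : cf (d + d') om = cf d om + cf d' om := rfl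
@[simp] theorem cf_zero (om : List Bool) : cf 0 om = 0 := rfl
@[simp] theorem cf_smul (c : ZMod 2) (d : D) (om : List Bool) : cf (c • d) om = c * cf d om := rfl
@[simp] theorem cf_one_nil : cf 1 [] = 1 := by simp [cf]
@[simp] theorem cf_one_cons (b : Bool) (om : List Bool) : cf 1 (b :: om) = 0 := by simp [cf]
@[simp] theorem cf_Q_nil (d : D) : cf (d * Q) [] = 0 := rfl
@[simp] theorem cf_C_nil (d : D) : cf (d * C) [] = 0 := rfl
@[simp] theorem cf_Q_t (d : D) (om : List Bool) : cf (d * Q) (true :: om) = cf d om := rfl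
@[simp] theorem cf_Q_f (d : D) (om : List Bool) : cf (d * Q) (false :: om) = 0 := rfl
@[simp] theorem cf_C_t (d : D) (om : List Bool) : cf (d * C) (true :: om) = 0 := rfl
@[simp] theorem cf_C_f (d : D) (om : List Bool) : cf (d * C) (false :: om) = cf d om := rfl

theorem cf_sum {ι : Type} (s : Finset ι) (f : ι → D) (om : List Bool) :
    cf (∑ i ∈ s, f i) om = ∑ i ∈ s, cf (f i) om := by
  classical
  induction s using Finset.induction_on with
  | empty => simp
  | insert i s h ih => simp [Finset.sum_insert h, ih]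

theorem two (d : D) : d + d = 0 := by
  rw [← two_smul (ZMod 2) d]; exact (congrArg (· • d) (rfl : (2 : ZMod 2) = 0)).trans (zero_smul _ d)

/-! ### Length and degree -/

/-- All words have length at least `n`. -/
def Fil (n : ℕ) (d : D) : Prop := ∀ om : List Bool, om.length < n → cf d om = 0

/-- All words contain the letter `Q` exactly `n` times. -/
def Hom (n : ℕ) (d : D) : Prop := ∀ om : List Bool, om.count true ≠ n → cf d om = 0

variable {n : ℕ} {d d' : D}

theorem Fil.add (h : Fil n d) (h' : Fil n d') : Fil n (d + d') := fun om ho => by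
  simp [h om ho, h' om ho]

theorem Fil.mono (h : Fil (n + 1) d) : Fil n d := fun om ho => h om (by omega)

theorem Fil.Q (h : Fil n d) : Fil (n + 1) (d * Q) := fun om ho => by
  rcases om with _ | ⟨_ | _, om⟩ <;> simp
  exact h om (by simpa using ho)

theorem Fil.C (h : Fil n d) : Fil (n + 1) (d * C) := fun om ho => by
  rcases om with _ | ⟨_ | _, om⟩ <;> simp
  exact h om (by simpa using ho)

theorem Fil.C1 (h : Fil n d) : Fil n (d * (1 + K15.C)) := by
  rw [mul_add, mul_one]; exact h.add h.C.mono

theorem Fil.Qp (h : Fil n d) (e : ℕ) : Fil (n + e) (d * K15.Q ^ e) := by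
  induction e with
  | zero => simpa using h
  | succ e ih => rw [pow_succ, ← mul_assoc]; exact ih.Q

theorem Fil.le {m : ℕ} (h : Fil n d) (hm : m ≤ n) : Fil m d := fun om ho => h om (by omega)

theorem Fil.vp (h : Fil n d) (e : ℕ) : Fil n (d * (1 + K15.Q) ^ e) ∧
    ∀ om : List Bool, om.length = n → cf (d * (1 + K15.Q) ^ e) om = cf d om := by
  induction e with
  | zero => simpa using h
  | succ e ih =>
    rw [pow_succ, ← mul_assoc, mul_add, mul_one]
    exact ⟨ih.1.add ih.1.Q.mono, fun om ho => by
      rw [cf_add, ih.2 om ho, ih.1.Q om (by omega), add_zero]⟩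

theorem Hom.add (h : Hom n d) (h' : Hom n d') : Hom n (d + d') := fun om ho => by
  simp [h om ho, h' om ho]

theorem Hom.Q (h : Hom n d) : Hom (n + 1) (d * Q) := fun om ho => by
  rcases om with _ | ⟨_ | _, om⟩ <;> simp
  exact h om (by simpa using ho)

theorem Hom.C (h : Hom n d) : Hom n (d * C) := fun om ho => by
  rcases om with _ | ⟨_ | _, om⟩ <;> simp
  exact h om (by simpa using ho)

theorem Hom.C1 (h : Hom n d) : Hom n (d * (1 + K15.C)) := by
  rw [mul_add, mul_one]; exact h.add h.C

theorem Hom.Qp (h : Hom n d) (e : ℕ) : Hom (n + e) (d * K15.Q ^ e) := by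
  induction e with
  | zero => simpa using h
  | succ e ih => rw [pow_succ, ← mul_assoc]; exact ih.Q

theorem hom_one : Hom 0 1 := fun om ho => by
  rcases om with _ | ⟨b, om⟩
  · simp at ho
  · simp

theorem cf_Qp (d : D) (k j : ℕ) (om : List Bool) :
    cf (d * Q ^ (j + k)) (List.replicate k true ++ om) = cf (d * Q ^ j) om := by
  induction k with
  | zero => simp
  | succ k ih => rw [← add_assoc, pow_succ, ← mul_assoc, List.replicate_succ, List.cons_append,
      cf_Q_t, ih]

/-! ### The representation -/

/-- The matrix attached to two parameters. -/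
def Mg (p q : D) : Matrix (Fin 2) (Fin 2) D :=
  !![p * C + (p + q * (1 + Q)) * Q, p + q * Q; (1 + C) * q * (1 + Q) * Q, (1 + C) * q * Q]

/-- The matrices of the letters. -/
def M : ℕ → Matrix (Fin 2) (Fin 2) D
  | 0 => !![C, 0; (1 + C) * Q, C]
  | e + 1 => Mg (Q ^ (e + 1)) ((1 + Q) ^ e)

/-- The first row of the matrix of a word, read from the right. -/
def r (w : List ℕ) (j : Fin 2) : D := (w.reverse.map M).prod 0 j

theorem r_cons (e : ℕ) (w : List ℕ) (j : Fin 2) :
    r (e :: w) j = r w 0 * M e 0 j + r w 1 * M e 1 j := by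
  simp [r, Matrix.mul_apply, Fin.sum_univ_two]

theorem fa (e : ℕ) (w : List ℕ) (om : List Bool) :
    cf (r (e :: w) 0) (false :: om) = cf (r w 0 * Q ^ e) om := by
  rw [r_cons]
  cases e <;> simp [M, Mg, mul_add, ← mul_assoc]

theorem fb (w : List ℕ) : Fil w.length (r w 0) ∧ Fil w.length (r w 1) := by
  induction w with
  | nil => exact ⟨fun om ho => by simp at ho, fun om ho => by simp at ho⟩
  | cons e w ih =>
    obtain ⟨h0, h1⟩ := ih
    rw [r_cons, r_cons, List.length_cons]
    cases e with
    | zero =>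
      simp only [M, Matrix.of_apply, Matrix.cons_val', Matrix.cons_val_zero, Matrix.cons_val_one,
        Matrix.cons_val_fin_one, ← mul_assoc, mul_zero, zero_add]
      exact ⟨h0.C.add h1.C1.Q, h1.C⟩
    | succ e =>
      have a1 := (h0.Qp (e + 1)).le (m := w.length) (by omega)
      have a2 := (h0.vp e).1
      have a3 := (h1.C1.vp e).1
      have a4 := (a2.vp 1).1
      have a5 := (a3.vp 1).1
      rw [pow_one] at a4 a5
      simp only [M, Mg, Matrix.of_apply, Matrix.cons_val', Matrix.cons_val_zero,
        Matrix.cons_val_one, Matrix.cons_val_fin_one, mul_add (r w 0), add_mul (Q ^ (e + 1)),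
        ← mul_assoc]
      exact ⟨(a1.C.add (a1.Q.add a4.Q)).add a5.Q,
        (((h0.Qp (e + 1)).le (by omega)).add a2.Q).add a3.Q⟩

/-- All letters are `0` or `1`. -/
def Small (g : List ℕ) : Prop := ∀ e ∈ g, e ≤ 1

theorem Small.tl {e : ℕ} {g : List ℕ} (h : Small (e :: g)) : Small g :=
  fun a ha => h a (List.mem_cons_of_mem _ ha)

theorem M1 : M 1 0 0 = Q * (1 + C) ∧ M 1 0 1 = 0 := by
  constructor
  · simp only [M, Mg, Matrix.of_apply, Matrix.cons_val', Matrix.cons_val_zero,
      Matrix.cons_val_fin_one, zero_add, pow_one, pow_zero, one_mul]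
    rw [add_left_comm Q 1 Q, two, add_zero, one_mul, mul_add, mul_one, add_comm]
  · simp [M, Mg, two]

theorem fc (g : List ℕ) (hg : Small g) : r g 1 = 0 ∧ Hom g.sum (r g 0) ∧
    ∀ g0 : List ℕ, Small g0 → g0.length = g.length →
      cf (r g 0) (g0.map fun e => decide (e = 1)) = if g = g0 then 1 else 0 := by
  induction g with
  | nil =>
    refine ⟨by simp [r], by simpa [r] using hom_one, fun g0 _ h => ?_⟩
    obtain rfl : g0 = [] := List.length_eq_zero_iff.1 h
    simp [r]
  | cons e g ih =>
    obtain ⟨h1, h2, h3⟩ := ih hg.tl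
    have he : e ≤ 1 := hg e List.mem_cons_self
    rw [r_cons, r_cons, h1, zero_mul, zero_mul, add_zero, add_zero]
    have key : ∀ g0 : List ℕ, Small g0 → g0.length = (e :: g).length → ∃ e0 g1, g0 = e0 :: g1 ∧
        (e0 = 0 ∨ e0 = 1) ∧ cf (r g 0) (g1.map fun e => decide (e = 1)) = (if g = g1 then 1 else 0) ∧
        cf (r g 0 * Q) (g1.map fun e => decide (e = 1)) = 0 := by
      rintro (_ | ⟨e0, g1⟩) h0 hl
      · simp at hl
      · have hl' : g1.length = g.length := by simpa using hl
        have := h0 e0 List.mem_cons_self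
        exact ⟨e0, g1, rfl, by omega, h3 g1 h0.tl hl', (fb g).1.Q _ (by simp [hl'])⟩
    obtain rfl | rfl : e = 0 ∨ e = 1 := by omega
    · refine ⟨by simp [M], by simpa [M] using h2.C, fun g0 h0 hl => ?_⟩
      obtain ⟨e0, g1, rfl, rfl | rfl, a, b⟩ := key g0 h0 hl <;> simp [M, a]
    · rw [M1.1, M1.2, ← mul_assoc]
      refine ⟨mul_zero _, by simpa [add_comm] using h2.Q.C1, fun g0 h0 hl => ?_⟩
      obtain ⟨e0, g1, rfl, rfl | rfl, a, b⟩ := key g0 h0 hl <;> simp [mul_add, a, b]

theorem fd (e : ℕ) (g g0 : List ℕ) (hg : Small g) (h0 : Small g0) (hl : g0.length = g.length) :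
    cf (r ((e + 1) :: g) 0) (true :: g0.map fun e => decide (e = 1)) = if g = g0 then 1 else 0 := by
  obtain ⟨h1, -, h3⟩ := fc g hg
  have a1 := (fb g).1.Qp (e + 1) (g0.map fun e => decide (e = 1)) (by simp [hl])
  have a2 := ((fb g).1.vp (e + 1)).2 (g0.map fun e => decide (e = 1)) (by simp [hl])
  rw [pow_succ, ← mul_assoc] at a2
  rw [r_cons, h1, zero_mul, add_zero]
  simp only [M, Mg, Matrix.of_apply, Matrix.cons_val', Matrix.cons_val_zero,
    Matrix.cons_val_fin_one, mul_add (r g 0), ← mul_assoc, cf_add, cf_C_t, cf_Q_t, a1, a2,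
    zero_add, h3 g0 h0 hl]

/-- The vanishing condition. -/
def HE (E : ℕ) (S : Finset (List ℕ)) : Prop :=
  ∀ om : List Bool, om.count true < E → ∑ w ∈ S, cf (r w 0) (false :: om) = 0

theorem comb (n : ℕ) : ∀ (E : ℕ) (S : Finset (List ℕ)),
    (∀ w ∈ S, w.length = n + 1 ∧ w.sum = E) → HE E S → ∀ w ∈ S, Small w.tail := by
  classical
  induction n with
  | zero =>
    rintro E S h - (_ | ⟨e, _ | ⟨e', w⟩⟩) hw a ha
    · simp at ha
    · simp at ha
    · simpa using (h _ hw).1
  | succ n ih =>
    intro E S hS hH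
    by_contra hc
    set B := S.filter fun w => ¬ Small w.tail with hB
    have hBS : ∀ w ∈ B, w ∈ S ∧ ¬ Small w.tail := fun w hw => Finset.mem_filter.1 hw
    have hne : B.Nonempty := by
      push Not at hc
      obtain ⟨w, hw, h⟩ := hc
      exact ⟨w, Finset.mem_filter.2 ⟨hw, h⟩⟩
    have hHB : HE E B := fun om ho => by
      rw [← hH om ho, hB, Finset.sum_filter]
      refine Finset.sum_congr rfl fun w hw => ?_
      split_ifs with h
      · obtain ⟨h1, h2⟩ := hS w hw
        rcases w with _ | ⟨e, g⟩
        · simp at h1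
        · rw [fa, ((fc g h).2.1.Qp e) om (by rw [List.sum_cons] at h2; omega)]
      · rfl
    obtain ⟨w0, hw0, hmin⟩ := B.exists_min_image List.headI hne
    have dec : ∀ w ∈ B, ∃ j w', w = (j + w0.headI) :: w' ∧ w'.length = n + 1 := by
      rintro (_ | ⟨e, w'⟩) hw
      · simpa using (hS _ (hBS _ hw).1).1
      · have := hmin _ hw
        exact ⟨e - w0.headI, w', by simp at this ⊢; omega, by simpa using (hS _ (hBS _ hw).1).1⟩
    obtain ⟨k, hk⟩ : ∃ k, w0.headI = k := ⟨_, rfl⟩
    rw [hk] at dec
    have inj : Set.InjOn (List.cons k) (List.cons k ⁻¹' (B : Set (List ℕ))) :=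
      List.cons_injective.injOn
    have hS' : ∀ w ∈ B.preimage (List.cons k) inj, w.length = n + 1 ∧ w.sum = E - k := by
      intro w hw
      obtain ⟨h1, h2⟩ := hS _ (hBS _ (Finset.mem_preimage.1 hw)).1
      rw [List.sum_cons] at h2
      exact ⟨by simpa using h1, by omega⟩
    have hsm := ih (E - k) _ hS' fun om ho => by
      rw [← hHB (List.replicate k true ++ false :: om) (by simp; omega),
        ← Finset.sum_preimage (List.cons k) B inj]
      · refine Finset.sum_congr rfl fun w _ => ?_
        rw [fa]; simpa using (cf_Qp (r w 0) k 0 (false :: om)).symm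
      · intro w hw hr
        obtain ⟨_ | j, w', rfl, -⟩ := dec w hw
        · exact absurd ⟨w', by simp⟩ hr
        · rw [fa, cf_Qp, pow_succ, ← mul_assoc, cf_Q_f]
    have dec2 : ∀ w', k :: w' ∈ B → ∃ e g, w' = (e + 2) :: g ∧ Small g ∧ g.length = n ∧
        k + (e + 2 + g.sum) = E := by
      intro w' hw
      have hw' : w' ∈ B.preimage (List.cons k) inj := Finset.mem_preimage.2 hw
      have h1 := hsm w' hw'
      have h2 := (hBS _ hw).2
      obtain ⟨h3, h4⟩ := hS _ (hBS _ hw).1
      rcases w' with _ | ⟨e, g⟩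
      · simp at h3
      · have : 2 ≤ e := by
          by_contra h
          exact h2 fun a ha => (List.mem_cons.1 ha).elim (fun h' => by omega) (h1 a)
        exact ⟨e - 2, g, by simp; omega, h1, by simpa using h3, by simp at h4; omega⟩
    obtain ⟨j0, w1, rfl, -⟩ := dec w0 hw0
    obtain rfl : j0 = 0 := by simpa using hk
    rw [zero_add] at hw0
    obtain ⟨e0, g0, rfl, hg0, hl0, hs0⟩ := dec2 w1 hw0
    have hcnt : ∀ g : List ℕ, (g.map fun e => decide (e = 1)).count true ≤ g.sum := by
      intro g
      induction g with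
      | nil => simp
      | cons a g ih => by_cases h : a = 1 <;> simp [h] at ih ⊢ <;> omega
    have h := hHB (List.replicate k true ++ true :: g0.map fun e => decide (e = 1))
      (by have := hcnt g0; simp at this ⊢; omega)
    rw [Finset.sum_eq_single_of_mem _ hw0] at h
    · have h' := cf_Qp (r ((e0 + 2) :: g0) 0) k 0 (true :: g0.map fun e => decide (e = 1))
      rw [zero_add, pow_zero, mul_one, fd (e0 + 1) g0 g0 hg0 hg0 rfl, if_pos rfl] at h'
      rw [fa, h'] at h
      exact one_ne_zero h
    · intro w hw hne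
      obtain ⟨_ | j, w', rfl, hl⟩ := dec w hw
      · rw [zero_add] at hw hne ⊢
        obtain ⟨e, g, rfl, hg, hl1, hs⟩ := dec2 w' hw
        have h' := cf_Qp (r ((e + 2) :: g) 0) k 0 (true :: g0.map fun e => decide (e = 1))
        rw [zero_add, pow_zero, mul_one, fd (e + 1) g g0 hg hg0 (by omega)] at h'
        rw [fa, h', if_neg]
        rintro rfl
        exact hne (by simp; omega)
      · rw [fa, cf_Qp]
        exact (fb w').1.Qp (j + 1) _ (by simp; omega)

end Pool.Agent.DD.K15
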