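import Pool.Agent.Lib.DD.Desc91
import Mathlib.LinearAlgebra.TensorProduct.Basis
import Mathlib.Algebra.MvPolynomial.Eval

set_option autoImplicit false

noncomputable section

namespace Pool.Agent.DD

open Pool.Agent.DR Finset TensorProduct Desc TENS

universe v

namespace U12

variable {U : Type} [Ring U] {T : Br U}

theorem free (hU : Univ T) : Module.Free ℤ U := by
  obtain ⟨π, h0, h1, hc, hb0, hb1⟩ := hU.lift (FreeAlgebra ℤ Bool)
    ⟨FreeAlgebra.ι ℤ false, FreeAlgebra.ι ℤ true, 0, 0, 0, Commute.zero_left _, by simp,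
      Commute.zero_left _, Commute.zero_left _, Commute.zero_left _, by simp, Commute.zero_left _,
      Commute.zero_right _⟩
  have hπ : ∀ i, π (fl T i) = 0 := fun i => by
    fin_cases i
    exacts [hb0, hb1, hc]
  let σ : FreeAlgebra ℤ Bool →ₐ[ℤ] U :=
    FreeAlgebra.lift ℤ fun b => if b then T.a1 else T.a0 + T.c
  have e1 : ∀ s ∈ K T, σ (π s) = s := fun s hs => by
    induction hs using Subring.closure_induction with
    | mem g hg =>
      rcases hg with rfl | rfl
      · rw [map_add, h0, hc, add_zero]; simp [σ]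
      · rw [h1]; simp [σ]
    | zero => simp
    | one => simp
    | add p q _ _ hp hq => rw [map_add, map_add, hp, hq]
    | neg p _ hp => rw [map_neg, map_neg, hp]
    | mul p q _ _ hp hq => rw [map_mul, map_mul, hp, hq]
  have e2 : ∀ F, σ F ∈ K T ∧ π (σ F) = F := fun F => by
    induction F using FreeAlgebra.induction with
    | grade0 r => exact ⟨by simp, by simp⟩
    | grade1 s =>
      cases s
      · exact ⟨Subring.subset_closure (by simp [σ]), by simp [σ, h0, hc]⟩
      · exact ⟨Subring.subset_closure (by simp [σ]), by simp [σ, h1]⟩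
    | mul F F' h h' => exact ⟨by rw [map_mul]; exact mul_mem h.1 h'.1, by simp [h.2, h'.2]⟩
    | add F F' h h' => exact ⟨by rw [map_add]; exact add_mem h.1 h'.1, by simp [h.2, h'.2]⟩
  let b := FreeAlgebra.basisFreeMonoid ℤ Bool
  choose f hf using fun x : List (Fin 3) × FreeMonoid Bool =>
    dual T hU π hπ (b.coord x.2).toAddMonoidHom x.1
  let w : List (Fin 3) × FreeMonoid Bool → U := fun x => fw T x.1 * σ (b x.2)
  have hw : ∀ x y, f x (w y) = if y.1 = x.1 then b.coord x.2 (b y.2) else 0 := fun x y => by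
    have := hf x y.1 ⟨σ (b y.2), (e2 _).1⟩
    simpa [(e2 _).2] using this
  have li : LinearIndependent ℤ w :=
    LinearIndependent.of_pairwise_dual_eq_zero_one w (fun x => (f x).toIntLinearMap)
      (fun x y hxy => by
        change f x (w y) = 0
        rw [hw]
        split_ifs with h
        · have : y.2 ≠ x.2 := fun h' => hxy (Prod.ext h h').symm
          simp [Finsupp.single_apply, this]
        · rfl) fun x => by
        rw [AddMonoidHom.coe_toIntLinearMap, hw]
        simp
  have sp : ∀ p F, fw T p * σ F ∈ Submodule.span ℤ (Set.range w) := fun p F => by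
    have hF := b.mem_span F
    induction hF using Submodule.span_induction with
    | mem F hF =>
      obtain ⟨i, rfl⟩ := hF
      exact Submodule.subset_span ⟨(p, i), rfl⟩
    | zero => simp
    | add F F' _ _ h h' => rw [map_add, mul_add]; exact add_mem h h'
    | smul t F _ h => rw [map_smul, mul_smul_comm]; exact Submodule.smul_mem _ _ h
  refine Module.Free.of_basis (Module.Basis.mk li fun u _ => ?_)
  obtain ⟨t, rfl⟩ := nf_surj T hU u
  induction t using Finsupp.induction_linear with
  | zero => simp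
  | add a b ha hb => rw [map_add]; exact add_mem (ha trivial) (hb trivial)
  | single p s => rw [nf_single, ← e1 s s.2]; exact sp p _

/-- the defect of the pentagon -/
def df {R B : Type*} [CommRing R] [Ring B] [Algebra R B] (Φ : List Bool → R) (T : Br B) :
    PowerSeries B :=
  ser Φ T.b0 (T.c + T.b1) * ser Φ (T.a0 + T.c) T.a1 -
    ser Φ T.c T.a1 * ser Φ (T.a0 + T.b0) (T.a1 + T.b1) * ser Φ T.b0 T.c

theorem map_df {R S A B : Type*} [CommRing R] [CommRing S] [Ring A] [Ring B] [Algebra R A]
    [Algebra S B] (j : R →+* S) (g : A →+* B) (hg : ∀ r a, g (r • a) = j r • g a)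
    (Φ : List Bool → R) (T : Br A) :
    PowerSeries.map g (df Φ T) = df (fun w => j (Φ w)) (mapBr g T) := by
  simp only [df, map_sub, map_mul, map_ser' j g hg, mapBr, map_add]

/-- extension of scalars -/
def inc (R : Type*) [CommRing R] (U : Type) [Ring U] : U →+* R ⊗[ℤ] U :=
  (Algebra.TensorProduct.includeRight : U →ₐ[ℤ] R ⊗[ℤ] U).toRingHom

/-- change of scalars -/
def chg {R S : Type*} [CommRing R] [CommRing S] (j : R →+* S) (U : Type) [Ring U] :
    R ⊗[ℤ] U →+* S ⊗[ℤ] U :=
  (Algebra.TensorProduct.map j.toIntAlgHom (AlgHom.id ℤ U)).toRingHom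

theorem chg_df {R S : Type*} [CommRing R] [CommRing S] (j : R →+* S) (Φ : List Bool → R) :
    PowerSeries.map (chg j U) (df Φ (mapBr (inc R U) T)) =
      df (fun w => j (Φ w)) (mapBr (inc S U) T) := by
  rw [map_df j (chg j U) fun r a => by
    induction a using TensorProduct.induction_on with
    | zero => simp
    | add a b ha hb => rw [smul_add, map_add, map_add, smul_add, ha, hb]
    | tmul s u => simp [chg, TensorProduct.smul_tmul']]
  simp [df, mapBr, chg, inc]

theorem chg_repr {R S ι : Type*} [CommRing R] [CommRing S] (j : R →+* S)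
    (b : Module.Basis ι ℤ U) (z : R ⊗[ℤ] U) (i : ι) :
    (b.baseChange S).repr (chg j U z) i = j ((b.baseChange R).repr z i) := by
  induction z using TensorProduct.induction_on with
  | zero => simp
  | add a b ha hb => simp [ha, hb]
  | tmul s u => simp [chg]

theorem df_zero {R S ι : Type*} [CommRing R] [CommRing S] (j : R →+* S)
    (b : Module.Basis ι ℤ U) (Φ : List Bool → R) (h : ∀ n i,
      j ((b.baseChange R).repr (PowerSeries.coeff n (df Φ (mapBr (inc R U) T))) i) = 0) :
    df (fun w => j (Φ w)) (mapBr (inc S U) T) = 0 := by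
  rw [← chg_df]
  ext n
  refine (b.baseChange S).repr.injective (Finsupp.ext fun i => ?_)
  rw [PowerSeries.coeff_map, chg_repr, map_zero, map_zero, Finsupp.zero_apply, h]

theorem pent_of (hU : Univ T) {O : Type} [CommRing O] {Φ : List Bool → O}
    (h : df Φ (mapBr (inc O U) T) = 0) : Pent Φ := by
  intro B _ _ T'
  obtain ⟨g, g0, g1, gc, g2, g3⟩ := hU.lift B T'
  let ψ : O ⊗[ℤ] U →ₐ[O] B := Algebra.TensorProduct.lift (Algebra.ofId O B) g.toIntAlgHom
    fun r u => Algebra.commutes _ _
  have hψ : ∀ u, ψ.toRingHom (inc O U u) = g u := fun u => by simp [ψ, inc]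
  have e := congrArg (PowerSeries.map ψ.toRingHom) h
  rw [map_df (RingHom.id O) ψ.toRingHom (fun r a => map_smul ψ r a), map_zero] at e
  simp only [df, mapBr, hψ, g0, g1, gc, g2, g3, RingHom.id_apply, sub_eq_zero] at e
  exact e

end U12

open U12 in
/-- the pentagon equation has a universal solution -/
theorem univ_sol : ∃ (O : Type) (_ : CommRing O) (Ψ : List Bool → O), Ψ [] = 1 ∧ Pent Ψ ∧
    ∀ (R : Type v) [CommRing R] (Φ : List Bool → R), Φ [] = 1 → Pent Φ →
      ∃ e : O →+* R, ∀ w, e (Ψ w) = Φ w := by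
  obtain ⟨U, _, T, hU⟩ := st_UNIV
  have := free hU
  let b := Module.Free.chooseBasis ℤ U
  obtain ⟨P, _, X, hX⟩ : ∃ (P : Type) (_ : CommRing P) (X : List Bool → P),
      ∀ (R : Type v) [CommRing R] (Φ : List Bool → R), ∃ e : P →+* R, ∀ w, e (X w) = Φ w :=
    ⟨MvPolynomial (List Bool) ℤ, inferInstance, MvPolynomial.X, fun R _ Φ =>
      ⟨MvPolynomial.eval₂Hom (Int.castRingHom R) Φ, fun w => by simp⟩⟩
  let z := df X (mapBr (inc P U) T)
  let I : Ideal P := Ideal.span (insert (X [] - 1)
    (Set.range fun x : ℕ × _ => (b.baseChange P).repr (PowerSeries.coeff x.1 z) x.2))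
  refine ⟨P ⧸ I, inferInstance, fun w => Ideal.Quotient.mk I (X w), ?_, ?_,
    fun R _ Φ h1 h => ?_⟩
  · rw [← map_one (Ideal.Quotient.mk I), Ideal.Quotient.eq]
    exact Ideal.subset_span (Set.mem_insert _ _)
  · exact pent_of hU (df_zero (Ideal.Quotient.mk I) b X fun n i =>
      Ideal.Quotient.eq_zero_iff_mem.2
        (Ideal.subset_span (Set.mem_insert_of_mem _ ⟨(n, i), rfl⟩)))
  · obtain ⟨e, he⟩ := hX R Φ
    have hz : PowerSeries.map (chg e U) z = 0 := by
      rw [chg_df]
      simp only [he]
      exact sub_eq_zero.2 (h _ (mapBr (inc R U) T))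
    refine ⟨Ideal.Quotient.lift I e fun a ha => ?_, fun w => by simp [he]⟩
    refine (Ideal.span_le.2 ?_ : I ≤ RingHom.ker e) ha
    rintro _ (rfl | ⟨⟨n, i⟩, rfl⟩)
    · simp [he, h1]
    · have := congrArg (fun s => (b.baseChange R).repr (PowerSeries.coeff n s) i) hz
      simp only [PowerSeries.coeff_map, chg_repr, map_zero, Finsupp.zero_apply] at this
      exact this

end Pool.Agent.DD
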