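import Pool.Agent.Lib.DD.Star12b
import Pool.Agent.Lib.DD.Univ12
import Mathlib.RingTheory.Nakayama

set_option autoImplicit false

noncomputable section

namespace Pool.Agent.DD

open Pool.Agent.DR Finset

universe v

namespace N12

section sh

variable {R : Type v} [CommRing R]

theorem wd_st : ∀ (u w : List Bool),
    wd (SH2.st R false) (SH2.st R true) u (SH2.dl R) w = if u = w then 1 else 0
  | [], w => by simp [SH2.dl, eq_comm]
  | false :: u, [] => by simp [SH2.st_nil]
  | true :: u, [] => by simp [SH2.st_nil]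
  | false :: u, false :: w => by simp [SH2.st_cons, wd_st u w]
  | false :: u, true :: w => by simp [SH2.st_cons]
  | true :: u, false :: w => by simp [SH2.st_cons]
  | true :: u, true :: w => by simp [SH2.st_cons, wd_st u w]

/-- operators on the first variable -/
def o1 (R : Type v) [CommRing R] :
    Module.End R (List Bool → R) →* Module.End R (List Bool → List Bool → R) where
  toFun f :=
    { toFun := fun ψ u v => f (fun u => ψ u v) u
      map_add' := fun ψ ψ' => by
        funext u v
        exact congrFun (f.map_add (fun u => ψ u v) fun u => ψ' u v) u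
      map_smul' := fun c ψ => by
        funext u v
        exact congrFun (f.map_smul c fun u => ψ u v) u }
  map_one' := rfl
  map_mul' _ _ := rfl

/-- operators on the second variable -/
def o2 (R : Type v) [CommRing R] :
    Module.End R (List Bool → R) →* Module.End R (List Bool → List Bool → R) where
  toFun f := f.compLeft (List Bool)
  map_one' := rfl
  map_mul' _ _ := rfl

theorem comm12 (s t : Bool) : Commute (o1 R (SH2.st R s)) (o2 R (SH2.st R t)) := by
  ext ψ u v
  rcases u with _ | ⟨a, u⟩ <;> rcases v with _ | ⟨b, v⟩ <;>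
    simp [o1, o2, SH2.st_nil, SH2.st_cons]
  split_ifs <;> simp

theorem int_wd (w : List Bool) : ∀ u v, wd (o2 R (SH2.st R false) + o1 R (SH2.st R false))
    (o2 R (SH2.st R true) + o1 R (SH2.st R true)) w (fun u v => SH2.dl R u * SH2.dl R v) u v ∈
      (⊥ : Subring R) := by
  have key : ∀ (s : Bool) (ψ : List Bool → List Bool → R), (∀ u v, ψ u v ∈ (⊥ : Subring R)) →
      ∀ u v, (o2 R (SH2.st R s) + o1 R (SH2.st R s)) ψ u v ∈ (⊥ : Subring R) := by
    intro s ψ h u v
    refine add_mem (?_ : SH2.st R s (ψ u) v ∈ _) (?_ : SH2.st R s (fun u => ψ u v) u ∈ _)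
    · rcases v with _ | ⟨b, v⟩
      · exact zero_mem _
      · rw [SH2.st_cons]
        split_ifs
        exacts [h _ _, zero_mem _]
    · rcases u with _ | ⟨b, u⟩
      · exact zero_mem _
      · rw [SH2.st_cons]
        split_ifs
        exacts [h _ _, zero_mem _]
  induction w with
  | nil =>
    intro u v
    refine mul_mem (?_ : SH2.dl R u ∈ _) (?_ : SH2.dl R v ∈ _) <;> rw [SH2.dl] <;> split_ifs <;>
      simp
  | cons s w ih =>
    cases s
    · rw [wd_false]
      exact key _ _ ih
    · rw [wd_true]
      exact key _ _ ih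

/-- integral span of the coefficients of weight `n` -/
def La (Φ : List Bool → R) (n : ℕ) : Submodule ℤ R :=
  Submodule.span ℤ (Φ '' {w | w.length = n})

theorem prod {Φ : List Bool → R} (h : Pent Φ) (h1 : Φ [] = 1) {B : Type v} [Ring B] [Algebra R B]
    {p q s t : B} (a : Commute s p) (b : Commute s q) (c : Commute t p) (d : Commute t q) :
    ser Φ s t * ser Φ p q = ser Φ (p + s) (q + t) := by
  have e := h B ⟨p, q, 0, s, t, by simpa using a, by simpa using a.symm, Commute.zero_left _,
    Commute.zero_left _, by simpa using d, by simpa using d.symm, b, c.symm⟩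
  have sc := S12.sc_of_pent h h1
  simpa [sc.comm (Commute.zero_left q), sc.comm (Commute.zero_right s)] using e

theorem mul_La {Φ : List Bool → R} (h : Pent Φ) (h1 : Φ [] = 1) (u v : List Bool) :
    Φ u * Φ v ∈ La Φ (u.length + v.length) := by
  have e := congrArg (fun s : PowerSeries (Module.End R (List Bool → List Bool → R)) =>
    PowerSeries.coeff (u.length + v.length) s (fun u v => SH2.dl R u * SH2.dl R v) u v)
    (prod h h1 (comm12 false false) (comm12 false true) (comm12 true false) (comm12 true true))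
  have k : ∀ u' v', (o1 R (wd (SH2.st R false) (SH2.st R true) u') *
      o2 R (wd (SH2.st R false) (SH2.st R true) v')) (fun u v => SH2.dl R u * SH2.dl R v) u v =
        (if u' = u then 1 else 0) * if v' = v then 1 else 0 := fun u' v' => by
    have e1 : (fun u => wd (SH2.st R false) (SH2.st R true) v' (fun v => SH2.dl R u * SH2.dl R v) v)
        = (if v' = v then (1 : R) else 0) • SH2.dl R := by
      funext u
      rw [show (fun v => SH2.dl R u * SH2.dl R v) = SH2.dl R u • SH2.dl R from rfl, map_smul,
        Pi.smul_apply, wd_st, Pi.smul_apply, smul_eq_mul, smul_eq_mul, mul_comm]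
    change wd (SH2.st R false) (SH2.st R true) u' (fun u => wd (SH2.st R false) (SH2.st R true) v'
      (fun v => SH2.dl R u * SH2.dl R v) v) u = _
    rw [e1, map_smul, Pi.smul_apply, wd_st, smul_eq_mul, mul_comm]
  simp only [PowerSeries.coeff_mul, coeff_ser, sum_mul_sum, smul_mul_smul_comm, ← map_wd,
    LinearMap.sum_apply, LinearMap.smul_apply, Finset.sum_apply, Pi.smul_apply, k] at e
  rw [sum_eq_single (u.length, v.length) (fun x hx hne => sum_eq_zero fun u' hu' =>
    sum_eq_zero fun v' hv' => by
      by_cases a : u' = u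
      · by_cases b : v' = v
        · exact absurd (Prod.ext (by rw [← mem_W.1 hu', a]) (by rw [← mem_W.1 hv', b])) hne
        · simp [b]
      · simp [a]) (by simp)] at e
  simp only [smul_eq_mul, mul_ite, ite_mul, mul_one, one_mul, mul_zero, sum_ite_eq', mem_W,
    if_true] at e
  rw [e]
  refine Submodule.sum_mem _ fun w hw => ?_
  obtain ⟨z, hz⟩ := Subring.mem_bot.1 (int_wd (R := R) w u v)
  rw [← hz, mul_comm, ← zsmul_eq_mul]
  exact Submodule.smul_mem _ _ (Submodule.subset_span ⟨w, mem_W.1 hw, rfl⟩)

theorem La_mul {Φ : List Bool → R} (h : Pent Φ) (h1 : Φ [] = 1) {i j : ℕ} {a b : R}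
    (ha : a ∈ La Φ i) (hb : b ∈ La Φ j) : a * b ∈ La Φ (i + j) := by
  have := Submodule.mul_mem_mul ha hb
  rw [La, La, Submodule.span_mul_span] at this
  refine Submodule.span_le.2 ?_ this
  rintro _ ⟨_, ⟨u, rfl, rfl⟩, _, ⟨v, rfl, rfl⟩, rfl⟩
  exact mul_La h h1 u v

theorem pent_scale {Φ : List Bool → R} (h : Pent Φ) (t : R) :
    Pent fun w => t ^ w.length * Φ w := by
  intro B _ _ T
  have e : ∀ p q : B, ser (fun w => t ^ w.length * Φ w) p q = ser Φ (t • p) (t • q) := fun p q => by
    ext n
    rw [coeff_ser, coeff_ser]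
    refine sum_congr rfl fun u _ => ?_
    rw [mul_comm, mul_smul]
    refine congrArg (Φ u • ·) ?_
    clear * -
    induction u with
    | nil => simp
    | cons s u ih => cases s <;> simp [← ih, pow_succ, smul_smul, mul_comm]
  have c : ∀ {a b : B}, Commute a b → Commute (t • a) (t • b) := fun h =>
    (h.smul_left t).smul_right t
  have := h B ⟨t • T.a0, t • T.a1, t • T.c, t • T.b0, t • T.b1, smul_add t T.a0 T.c ▸ c T.h1,
    smul_add t T.b0 T.c ▸ c T.h2, smul_add t T.a0 T.b0 ▸ c T.h3, smul_add t T.a1 T.b1 ▸ c T.h4,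
    smul_add t T.c T.a1 ▸ c T.h5, smul_add t T.c T.b1 ▸ c T.h6, c T.h7, c T.h8⟩
  simpa only [e, smul_add] using this

end sh

theorem half {R : Type} [CommRing R] {Φ : List Bool → R} (h : Pent Φ) (h1 : Φ [] = 1)
    (k : List ℕ) (hk : ∀ j ∈ k, 2 ≤ j) (h4 : ∃ j ∈ k, 4 ≤ j) :
    ∃ z ∈ La Φ (idx k).length, Φ (idx k) = (2 : ℤ) • z := by
  let O : Subring (Polynomial R) :=
    { carrier := {p | ∀ n, p.coeff n ∈ La Φ n}
      mul_mem' := fun {p q} hp hq n => by
        rw [Polynomial.coeff_mul]
        exact Submodule.sum_mem _ fun x hx => mem_antidiagonal.1 hx ▸ La_mul h h1 (hp _) (hq _)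
      one_mem' := fun n => by
        rw [Polynomial.coeff_one]
        split_ifs with hn
        · exact Submodule.subset_span ⟨[], hn.symm, h1⟩
        · exact zero_mem _
      add_mem' := fun hp hq n => by
        rw [Polynomial.coeff_add]
        exact add_mem (hp n) (hq n)
      zero_mem' := fun n => by simp
      neg_mem' := fun hp n => by
        rw [Polynomial.coeff_neg]
        exact neg_mem (hp n) }
  let Ψ : List Bool → O := fun w => ⟨Polynomial.X ^ w.length * Polynomial.C (Φ w), fun n => by
    rw [Polynomial.coeff_mul_C, Polynomial.coeff_X_pow]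
    split_ifs with hn
    · exact Submodule.subset_span ⟨w, hn.symm, by simp⟩
    · simp⟩
  have hΨ : Pent Ψ := pent_desc O.subtype O.subtype_injective
    (pent_scale (pent_map Polynomial.C h) Polynomial.X)
  have e := st_STAR (pent_map (Ideal.Quotient.mk (Ideal.span {(2 : O)})) hΨ)
    (by rw [show Ψ [] = 1 from Subtype.ext (by simp [Ψ, h1]), map_one])
    (Ideal.Quotient.eq_zero_iff_mem.2 (Ideal.subset_span rfl)) k hk h4
  obtain ⟨z, hz⟩ := Ideal.mem_span_singleton'.1 (Ideal.Quotient.eq_zero_iff_mem.1 e)
  refine ⟨_, z.2 _, ?_⟩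
  have := congrArg (fun p : O => (p : Polynomial R).coeff (idx k).length) hz
  simp only [Ψ, mul_two, Subring.coe_add, Polynomial.coeff_add, Polynomial.coeff_mul_C,
    Polynomial.coeff_X_pow, if_true, one_mul] at this
  rw [← this, two_zsmul]

end N12

/-- coefficients at indices without ones and with an entry at least four are even -/
theorem st_EVEN (k : List ℕ) (hk : ∀ j ∈ k, 2 ≤ j) (h4 : ∃ j ∈ k, 4 ≤ j) :
    ∃ c : List Bool → ℤ, ∀ (R : Type v) [CommRing R] (Φ : List Bool → R), Φ [] = 1 → Pent Φ →
      Φ (idx k) = (2 : ℤ) • ∑ u ∈ W (idx k).length, c u • Φ u := by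
  obtain ⟨O, _, Ψ, h1, h, hu⟩ := univ_sol.{v}
  obtain ⟨z, hz, e⟩ := N12.half h h1 k hk h4
  rw [N12.La, show {w : List Bool | w.length = (idx k).length} = ↑(W (idx k).length) by
    ext w; simp [mem_W], Submodule.mem_span_image_finset_iff_exists_fun'] at hz
  obtain ⟨c, rfl⟩ := hz
  refine ⟨c, fun R _ Φ g1 g => ?_⟩
  obtain ⟨f, hf⟩ := hu R Φ g1 g
  simpa only [map_zsmul, map_sum, hf] using congrArg f e

end Pool.Agent.DD
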