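import Pool.Agent.Lib.KZ.Sign67b
import Pool.Agent.Lib.DR.Sums
import Pool.Agent.Lib.DD.GStmt2

/-! The coefficients of the KZ associator are the multiple zeta values. -/

set_option autoImplicit false

noncomputable section

namespace Pool.Agent.DD.PZ

open Filter Topology Finset Pool.Agent.DR Pool.Agent.DD.GStmt Pool.Agent.KZ Pool.Agent.KZ.S67

/-- Taylor coefficients of the multiple polylogarithm of a word -/
def lc : List Bool → ℕ → ℝ
  | [], n => if n = 0 then 1 else 0
  | false :: v, n => lc v n / n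
  | true :: v, n => (∑ m ∈ range n, lc v m) / n

theorem lc_bd (v : List Bool) : ∀ n, 0 ≤ lc v n ∧ lc v n ≤ 1 := by
  induction v with
  | nil => intro n; rw [lc]; split_ifs <;> simp
  | cons s v ih =>
    intro n
    rcases n with _ | n
    · cases s <;> simp [lc]
    have hn : (0 : ℝ) < (n + 1 : ℕ) := by positivity
    cases s
    · exact ⟨div_nonneg (ih _).1 hn.le, (div_le_one hn).2 ((ih _).2.trans (by simp))⟩
    · refine ⟨div_nonneg (sum_nonneg fun m _ => (ih m).1) hn.le, (div_le_one hn).2 ?_⟩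
      simpa using sum_le_card_nsmul (range (n + 1)) _ 1 fun m _ => (ih m).2

theorem lc_zero (s : Bool) (v : List Bool) : lc (s :: v) 0 = 0 := by cases s <;> simp [lc]

/-- the multiple polylogarithm -/
def Li (v : List Bool) (z : ℝ) : ℝ := ∑' n, lc v n * z ^ n

theorem sm (v : List Bool) {z : ℝ} (h0 : 0 ≤ z) (h1 : z < 1) : HasSum (fun n => lc v n * z ^ n) (Li v z) :=
  (Summable.of_nonneg_of_le (fun n => mul_nonneg (lc_bd v n).1 (pow_nonneg h0 n))
    (fun n => mul_le_of_le_one_left (pow_nonneg h0 n) (lc_bd v n).2)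
    (summable_geometric_of_lt_one h0 h1)).hasSum

theorem der (v : List Bool) {z : ℝ} (h0 : 0 ≤ z) (h1 : z < 1) :
    Summable (fun n : ℕ => lc v n * (n * z ^ (n - 1))) ∧
      HasDerivAt (Li v) (∑' n : ℕ, lc v n * (n * z ^ (n - 1))) z := by
  obtain ⟨ρ, a, b⟩ := exists_between h1
  have hρ : 0 < ρ := h0.trans_lt a
  have hu : Summable fun n : ℕ => (n : ℝ) * ρ ^ (n - 1) := by
    have := (summable_pow_mul_geometric_of_norm_lt_one 1
      (show ‖ρ‖ < 1 by rwa [Real.norm_of_nonneg hρ.le])).mul_left ρ⁻¹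
    refine this.congr fun n => ?_
    rcases n with _ | n
    · simp
    · rw [Nat.add_sub_cancel, pow_succ ρ]
      field_simp
  have hb : ∀ (n : ℕ) (y : ℝ), y ∈ Set.Ioo (-ρ) ρ →
      ‖lc v n * (n * y ^ (n - 1))‖ ≤ (n : ℝ) * ρ ^ (n - 1) := fun n y hy => by
    rw [norm_mul, norm_mul, norm_pow, Real.norm_of_nonneg (lc_bd v n).1, Real.norm_natCast]
    refine (mul_le_of_le_one_left (by positivity) (lc_bd v n).2).trans ?_
    gcongr
    exact (abs_lt.2 hy).le
  have hz : z ∈ Set.Ioo (-ρ) ρ := ⟨by linarith, a⟩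
  refine ⟨Summable.of_norm_bounded hu fun n => hb n z hz, ?_⟩
  exact hasDerivAt_tsum_of_isPreconnected hu isOpen_Ioo isPreconnected_Ioo
    (fun n y _ => (hasDerivAt_pow n y).const_mul (lc v n)) hb hz (sm v h0 h1).summable hz

theorem der_x {v : List Bool} (hv : lc v 0 = 0) {z : ℝ} (h0 : 0 < z) (h1 : z < 1) :
    HasDerivAt (Li (false :: v)) (z⁻¹ * Li v z) z := by
  convert (der (false :: v) h0.le h1).2 using 1
  rw [Li, ← tsum_mul_left]
  refine tsum_congr fun n => ?_
  rcases n with _ | n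
  · simp [hv]
  · rw [lc, Nat.add_sub_cancel, pow_succ]
    field_simp

theorem der_y (v : List Bool) {z : ℝ} (h0 : 0 < z) (h1 : z < 1) :
    HasDerivAt (Li (true :: v)) ((1 - z)⁻¹ * Li v z) z := by
  obtain ⟨a, b⟩ := der (true :: v) h0.le h1
  convert b using 1
  set A := ∑' n : ℕ, lc (true :: v) n * (n * z ^ (n - 1))
  have e1 : HasSum (fun n : ℕ => (∑ m ∈ range (n + 1), lc v m) * z ^ n) A := by
    have := (hasSum_nat_add_iff' 1).2 a.hasSum
    simp only [sum_range_one, Nat.cast_zero, zero_mul, mul_zero, sub_zero] at this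
    refine (congrArg (HasSum · A) (funext fun n => ?_)).mp this
    rw [lc, Nat.add_sub_cancel]
    field_simp
  have e2 : HasSum (fun n : ℕ => (∑ m ∈ range n, lc v m) * z ^ n) (A * z) := by
    rw [← hasSum_nat_add_iff' 1]
    simpa [pow_succ, mul_assoc] using e1.mul_right z
  have e3 := e1.sub e2
  simp only [sum_range_succ, add_mul, add_sub_cancel_left] at e3
  rw [(sm v h0.le h1).unique e3, inv_mul_eq_iff_eq_mul₀ (by linarith)]
  ring

theorem Li_zero (v : List Bool) : Tendsto (Li v) (𝓝[>] 0) (𝓝 (lc v 0)) := by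
  have h : Li v 0 = lc v 0 := by rw [Li, tsum_eq_single 0 fun n hn => by simp [hn]]; simp
  exact h ▸ tendsto_nhdsWithin_of_tendsto_nhds (der v le_rfl one_pos).2.continuousAt.tendsto

theorem Li_nil (z : ℝ) : Li [] z = 1 := by
  rw [Li, tsum_eq_single 0 fun n hn => by simp [lc, hn]]; simp [lc]

theorem eq_of_der {f g d : ℝ → ℝ} {c : ℝ} (hf : ∀ z ∈ Set.Ioo (0 : ℝ) 1, HasDerivAt f (d z) z)
    (hg : ∀ z ∈ Set.Ioo (0 : ℝ) 1, HasDerivAt g (d z) z) (lf : Tendsto f (𝓝[>] 0) (𝓝 c))
    (lg : Tendsto g (𝓝[>] 0) (𝓝 c)) : ∀ z ∈ Set.Ioo (0 : ℝ) 1, f z = g z := by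
  intro z hz
  have hd : ∀ u ∈ Set.Ioo (0 : ℝ) 1, HasDerivAt (fun t => f t - g t) 0 u := fun u hu => by
    simpa using (hf u hu).fun_sub (hg u hu)
  have h1 := lf.sub lg
  rw [sub_self] at h1
  refine sub_eq_zero.1 (tendsto_nhds_unique (l := 𝓝[>] (0 : ℝ)) (tendsto_const_nhds.congr' ?_) h1)
  filter_upwards [Ioo_mem_nhdsGT (zero_lt_one' ℝ)] with w hw
  exact isOpen_Ioo.is_const_of_deriv_eq_zero (f := fun t => f t - g t) isPreconnected_Ioo
    (fun u hu => (hd u hu).differentiableAt.differentiableWithinAt) (fun u hu => (hd u hu).deriv)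
    hz hw

theorem abel (v : List Bool) {l : ℝ} (h : Tendsto (Li v) (𝓝[<] 1) (𝓝 l)) :
    Tendsto (fun N => ∑ n ∈ range N, lc v n) atTop (𝓝 l) := by
  have h1 : ∀ N, ∑ n ∈ range N, lc v n ≤ l := fun N => by
    have : Tendsto (fun z : ℝ => ∑ n ∈ range N, lc v n * z ^ n) (𝓝[<] 1)
        (𝓝 (∑ n ∈ range N, lc v n * 1 ^ n)) :=
      tendsto_nhdsWithin_of_tendsto_nhds (Continuous.tendsto (by fun_prop) 1)
    simp only [one_pow, mul_one] at this
    refine le_of_tendsto_of_tendsto this h ?_
    filter_upwards [Ioo_mem_nhdsLT (zero_lt_one' ℝ)] with z hz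
    exact sum_le_hasSum _ (fun n _ => mul_nonneg (lc_bd v n).1 (pow_nonneg hz.1.le n))
      (sm v hz.1.le hz.2)
  have h2 := summable_of_sum_range_le (fun n => (lc_bd v n).1) h1
  have h3 : l ≤ ∑' n, lc v n := by
    refine le_of_tendsto h ?_
    filter_upwards [Ioo_mem_nhdsLT (zero_lt_one' ℝ)] with z hz
    exact hasSum_le (fun n => mul_le_of_le_one_right (lc_bd v n).1 (pow_le_one₀ hz.1.le hz.2.le))
      (sm v hz.1.le hz.2) h2.hasSum
  rw [le_antisymm h3 (Real.tsum_le_of_sum_range_le (fun n => (lc_bd v n).1) h1)]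
  exact h2.hasSum.tendsto_sum_nat

theorem lc_rep (a : ℕ) (v : List Bool) (n : ℕ) :
    lc (List.replicate a false ++ true :: v) n = (∑ m ∈ range n, lc v m) / n ^ (a + 1) := by
  induction a with
  | zero => simp [lc]
  | succ a ih => rw [List.replicate_succ, List.cons_append, lc, ih, div_div, ← pow_succ]

theorem mhs_nil (N : ℕ) : mhs [] N = 1 := rfl

theorem mhs_cons (a : ℕ) (k : List ℕ) (N : ℕ) :
    mhs (a :: k) N = ∑ n ∈ Ico 1 N, mhs k n / (n : ℚ) ^ a := rfl

theorem sum_lc (k : List ℕ) : ∀ N, 0 < N →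
    ∑ n ∈ range N, lc (yx k) n = (mhs (k.map (· + 1)) N : ℝ) := by
  induction k with
  | nil => intro N hN; simp [yx, lc, mhs_nil, hN]
  | cons a k ih =>
    intro N hN
    have e : yx (a :: k) = List.replicate a false ++ true :: yx k := by simp [yx]
    rw [e, List.map_cons, mhs_cons, range_eq_Ico, sum_eq_sum_Ico_succ_bot hN, lc_rep]
    push_cast
    rw [zero_pow (by omega), div_zero, zero_add]
    exact sum_congr rfl fun n hn => by rw [lc_rep, ih n (mem_Ico.1 hn).1]

variable (r : ℕ → Bool)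

/-- the word `r (j - 1) ⋯ r 0` -/
def sf : ℕ → List Bool
  | 0 => []
  | j + 1 => r j :: sf j

theorem sf_len (j : ℕ) : (sf r j).length = j := by induction j <;> simp [sf, *]

theorem sf_rev (w : List Bool) : sf (fun j => w.reverse.getD j false) w.length = w := by
  have h : ∀ (r r' : ℕ → Bool) (j : ℕ), (∀ i < j, r i = r' i) → sf r j = sf r' j := by
    intro r r' j h
    induction j with
    | zero => rfl
    | succ j ih => rw [sf, sf, h j (by omega), ih fun i hi => h i (by omega)]
  induction w with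
  | nil => rfl
  | cons s w ih =>
    rw [List.length_cons, sf]
    congr 1
    · simp
    · exact (h _ _ _ fun i hi => by simp [List.getElem?_append_left, hi]).trans ih

/-- half of a sum of elementary matrices -/
def ops (n : ℕ) (s : Bool) : V n →L[ℝ] V n := ContinuousLinearMap.pi fun i =>
  if 1 ≤ i.val ∧ r (i.val - 1) = s then (1 / 2 : ℝ) • ContinuousLinearMap.proj ⟨i.val - 1, by omega⟩
  else 0

theorem co_ops {n : ℕ} (s : Bool) (v : V n) (j : ℕ) : co j (ops r n s v) =
    if (1 ≤ j ∧ r (j - 1) = s) ∧ j < n + 2 then 1 / 2 * co (j - 1) v else 0 := by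
  by_cases h : j < n + 2
  · have h' : j - 1 < n + 2 := by omega
    by_cases h2 : 1 ≤ j ∧ r (j - 1) = s <;> simp [co, ops, h, h', h2]
  · simp [co, h]

theorem wd_ops (n : ℕ) (s : Bool) (u : List Bool) : wd (ops r n false) (ops r n true) (s :: u) =
    ops r n s * wd (ops r n false) (ops r n true) u := by cases s <;> simp [wd]

theorem nil_ops (n : ℕ) : Nil (n + 1) (ops r n false) (ops r n true) := by
  have low : ∀ (v : V n) (u : List Bool), ∀ j < u.length,
      co j (wd (ops r n false) (ops r n true) u v) = 0 := fun v u => by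
    induction u with
    | nil => simp
    | cons s u ih =>
      intro j hj
      rw [wd_ops, mul_apply_eq_comp, co_ops]
      split_ifs with h
      · rw [ih _ (by simp at hj; omega), mul_zero]
      · rfl
  intro u hu
  ext v i
  simpa [co_val] using low v u i.val (by omega)

theorem co_wd_ops (n : ℕ) (u : List Bool) : ∀ j ≤ n + 1,
    co j (wd (ops r n false) (ops r n true) u (e0 n)) = if u = sf r j then (1 / 2) ^ j else 0 := by
  induction u with
  | nil => intro j _; cases j <;> simp [wd, co_e0, sf]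
  | cons s u ih =>
    intro j hj
    rw [wd_ops, mul_apply_eq_comp, co_ops]
    rcases j with _ | j
    · simp [sf]
    · rw [Nat.add_sub_cancel, ih j (by omega), sf]
      by_cases h1 : r j = s <;> by_cases h2 : u = sf r j <;>
        simp [h1, h2, pow_succ', show j + 1 < n + 2 by omega, eq_comm (a := s)]

theorem norm_ops (n : ℕ) (s : Bool) : ‖ops r n s‖ < 1 := by
  refine lt_of_le_of_lt (ContinuousLinearMap.opNorm_le_bound _ (M := 1 / 2) (by norm_num)
    fun v => ?_) (by norm_num)
  refine (pi_norm_le_iff_of_nonneg (by positivity)).2 fun i => ?_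
  rw [← co_val (ops r n s v) i, co_ops]
  split_ifs with h
  · rw [co_val v ⟨i.val - 1, by omega⟩, norm_mul, Real.norm_of_nonneg (by norm_num)]
    exact mul_le_mul_of_nonneg_left (norm_le_pi_norm v _) (by norm_num)
  · rw [norm_zero]
    positivity

theorem mc_tr_ops (Φ : List Bool → ℝ) (n : ℕ) :
    mc n (n + 1) (tr Φ (n + 1) (ops r n false) (ops r n true)) =
      Φ (sf r (n + 1)) * (1 / 2) ^ (n + 1) := by
  unfold tr
  simp only [map_sum, map_smul, mc_apply, co_wd_ops r n _ (n + 1) le_rfl, smul_eq_mul]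
  rw [sum_eq_single (n + 1)]
  · obtain ⟨w, hw⟩ : ∃ w : List.Vector Bool (n + 1), w.toList = sf r (n + 1) :=
      ⟨⟨_, sf_len r _⟩, rfl⟩
    rw [sum_eq_single w (fun u _ hu => ?_) (by simp), hw, if_pos rfl]
    rw [if_neg fun h => hu (List.Vector.toList_injective (h.trans hw.symm)), mul_zero]
  · intro m _ hm
    refine sum_eq_zero fun u _ => ?_
    rw [if_neg fun h => hm (by simpa [sf_len] using congrArg List.length h), mul_zero]
  · simp

theorem lim {Φ : List Bool → ℝ} (hΦ : Univ Φ) (n : ℕ) (r0 : r 0 = true) (rn : r n = false) :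
    Tendsto (Li (sf r (n + 1))) (𝓝[<] 1) (𝓝 (th Φ (sf r (n + 1)))) := by
  obtain ⟨g0, g1, h0, h1, hC⟩ := hΦ _ _ _ _ (nil_ops r n)
  have a0 : ops r n false (e0 n) = 0 := by
    ext i
    rw [← co_val (ops r n false (e0 n)) i, co_ops, co_e0]
    split_ifs with a b
    · rw [b, r0] at a
      simp at a
    · simp
    · rfl
  have hD : ∀ j, ∀ z ∈ Set.Ioo (0 : ℝ) 1, HasDerivAt (fun u => mc n j (g0 u))
      (z⁻¹ * mc n j (ops r n false * g0 z) + (z - 1)⁻¹ * mc n j (ops r n true * g0 z)) z := by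
    intro j z hz
    have := (mc n j).hasFDerivAt.comp_hasDerivAt z (h0.1 z hz)
    rw [add_mul, smul_mul_assoc, smul_mul_assoc, map_add, map_smul, map_smul] at this
    exact this
  have hL := fun j => Pool.Agent.Lib.KZ.H67.tendsto_l (mc n j) _
    (fun g => by simp [mc_apply, a0]) g0 h0.2
  have key : ∀ j ≤ n + 1, ∀ z ∈ Set.Ioo (0 : ℝ) 1,
      mc n j (g0 z) = (-1) ^ (sf r j).count true * (1 / 2) ^ j * Li (sf r j) z := by
    intro j
    induction j with
    | zero =>
      intro _
      refine eq_of_der (c := 1) (hD 0) (fun z _ => ?_) (by simpa [mc_apply, co_e0] using hL 0) ?_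
      · simpa [sf, Li_nil, mc_apply, co_ops] using hasDerivAt_const z (1 : ℝ)
      · simp [sf, Li_nil]
    | succ j ih =>
      intro hj
      refine eq_of_der (c := 0) (hD _) (fun z hz => ?_) (by simpa [mc_apply, co_e0] using hL (j + 1))
        (by simpa only [sf, lc_zero, mul_zero] using (Li_zero (sf r (j + 1))).const_mul
              ((-1) ^ (sf r (j + 1)).count true * (1 / 2) ^ (j + 1)))
      have e := ih (by omega) z hz
      rw [mc_apply] at e
      simp only [mc_apply, mul_apply_eq_comp, co_ops, Nat.add_sub_cancel, e, sf]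
      cases hr : r j
      · obtain ⟨i, rfl⟩ : ∃ i, j = i + 1 := ⟨j - 1, by
          have : j ≠ 0 := fun h => by simp [h, r0] at hr
          omega⟩
        refine ((der_x (lc_zero (r i) (sf r i)) hz.1 hz.2).const_mul _).congr_deriv ?_
        simp [show i + 1 + 1 < n + 2 by omega, sf]
        ring
      · refine ((der_y (sf r j) hz.1 hz.2).const_mul _).congr_deriv ?_
        rw [← neg_sub 1 z, inv_neg]
        simp [show j + 1 < n + 2 by omega]
        ring
  have hR := Pool.Agent.Lib.KZ.H67.tendsto_r (mc n (n + 1)) _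
    (tr Φ (n + 1) (ops r n false) (ops r n true)) (norm_ops r n true)
    (fun g => by simp [mc_apply, co_ops, rn]) g1 h1.2
  have hs : Tendsto (fun z : ℝ => 1 - z) (𝓝[<] 1) (𝓝[>] 0) := by
    refine tendsto_nhdsWithin_iff.2 ⟨?_, ?_⟩
    · simpa using tendsto_nhdsWithin_of_tendsto_nhds
        ((continuous_const.sub continuous_id).tendsto (1 : ℝ) (f := fun z : ℝ => 1 - z))
    · filter_upwards [self_mem_nhdsWithin] with z hz
      simpa using hz
  have := (hR.comp hs).const_mul ((-1) ^ (sf r (n + 1)).count true * 2 ^ (n + 1))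
  rw [mc_tr_ops] at this
  have e2 : (2 : ℝ) ^ (n + 1) * (1 / 2) ^ (n + 1) = 1 := by rw [← mul_pow]; simp
  have e3 : ((-1 : ℝ) ^ (sf r (n + 1)).count true) ^ 2 = 1 := by
    rw [← pow_mul, mul_comm, pow_mul]; simp
  convert this.congr' _ using 2
  · rw [th]
    linear_combination -((-1) ^ (sf r (n + 1)).count true * Φ (sf r (n + 1))) * e2
  · filter_upwards [Ioo_mem_nhdsLT (zero_lt_one' ℝ)] with z hz
    rw [Function.comp, ← hC z hz, key _ le_rfl z hz]
    linear_combination (Li (sf r (n + 1)) z * ((-1) ^ (sf r (n + 1)).count true) ^ 2) * e2 +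
      Li (sf r (n + 1)) z * e3

theorem mzv {Φ : List Bool → ℝ} (hΦ : Univ Φ) (h1 : Φ [] = 1) (k : List ℕ)
    (hk : k.head? ≠ some 0) :
    Tendsto (fun N => (mhs (k.map (· + 1)) N : ℝ)) atTop (𝓝 (th Φ (yx k))) := by
  rcases k with _ | ⟨_ | a, k⟩
  · simp [mhs_nil, yx, th, h1]
  · simp at hk
  obtain ⟨u, hu⟩ : ∃ u, yx ((a + 1) :: k) = u ++ [true] := by
    induction k using List.reverseRecOn with
    | nil => exact ⟨List.replicate (a + 1) false, by simp [yx]⟩
    | append_singleton k b _ =>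
      exact ⟨yx ((a + 1) :: k) ++ List.replicate b false, by simp [yx]⟩
  obtain ⟨v, hv⟩ : ∃ v, yx ((a + 1) :: k) = false :: v :=
    ⟨List.replicate a false ++ true :: yx k, by simp [yx, List.replicate_succ]⟩
  have e := sf_rev (yx ((a + 1) :: k))
  have h := lim (fun j => (yx ((a + 1) :: k)).reverse.getD j false) hΦ v.length (by simp [hu])
    (by simp [hv])
  rw [show v.length + 1 = (yx ((a + 1) :: k)).length by simp [hv], e] at h
  refine (abel _ h).congr' ?_
  filter_upwards [eventually_gt_atTop 0] with N hN using sum_lc _ N hN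

end Pool.Agent.DD.PZ
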