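import Pool.Agent.Lib.DD.GU3
import Pool.Agent.Lib.DD.GStmt4

/-! The action of the group on arbitrary series. -/

set_option autoImplicit false

noncomputable section

namespace Pool.Agent.DD.PZ

open Pool.Agent.DR Pool.Agent.DD.GStmt Pool.Agent.DD.S39 Pool.Agent.DD.F Pool.Agent.DD.GI Finset
  PowerSeries

section act
variable {R : Type} [CommRing R] {B : Type} [Ring B] [Algebra R B]

theorem diag_mul2 (F H : PowerSeries (PowerSeries B)) :
    GStmt.diag (F * H) = GStmt.diag F * GStmt.diag H := by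
  ext n
  simp only [GStmt.diag, coeff_mk, coeff_mul, map_sum, sum_mul_sum, sum_sigma']
  refine sum_bij' (fun q _ => ⟨(q.2.2.1 + q.2.1.1, q.2.2.2 + q.2.1.2), (q.2.2.1, q.2.1.1),
      (q.2.2.2, q.2.1.2)⟩)
    (fun q _ => ⟨(q.2.1.1 + q.2.2.1, q.2.1.2 + q.2.2.2), (q.2.1.2, q.2.2.2), (q.2.1.1, q.2.2.1)⟩)
    ?_ ?_ ?_ ?_ ?_
  all_goals
    rintro ⟨⟨a, b⟩, ⟨c, d⟩, e, f⟩ hq
    simp only [mem_sigma, HasAntidiagonal.mem_antidiagonal] at hq
    obtain ⟨rfl, rfl, rfl⟩ := hq
    simp [add_assoc, add_left_comm]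

/-- `g(E)` applied to a series -/
def actO (g : List ℕ → R) (E : ℕ → Module.End R B) (F : PowerSeries B) : PowerSeries B :=
  GStmt.diag (mk fun j => serO g E (coeff j F))

theorem coeff_actO (g : List ℕ → R) (E : ℕ → Module.End R B) (F : PowerSeries B) (n : ℕ) :
    coeff n (actO g E F) =
      ∑ p ∈ antidiagonal n, ∑ u ∈ WN p.1, g u • op E u (coeff p.2 F) := by
  simp only [actO, GStmt.diag, coeff_mk, coeff_serO]

theorem serO_sum {ι : Type} (g : List ℕ → R) (E : ℕ → Module.End R B) (t : Finset ι) (c : ι → R)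
    (f : ι → B) : serO g E (∑ i ∈ t, c i • f i) = ∑ i ∈ t, c i • serO g E (f i) := by
  ext n
  simp only [coeff_serO, map_sum, map_smul, coeff_smul, smul_sum]
  rw [sum_comm]
  exact sum_congr rfl fun _ _ => sum_congr rfl fun _ _ => smul_comm _ _ _

theorem actO_mul {E₁ E₂ E₃ : ℕ → Module.End R B}
    (h : ∀ k z z', E₃ k (z * z') = E₁ k z * z' + z * E₂ k z') {g : List ℕ → R} (hg : GrpLike g)
    (F H : PowerSeries B) : actO g E₃ (F * H) = actO g E₁ F * actO g E₂ H := by
  rw [actO, actO, actO, ← diag_mul2]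
  congr 1
  ext1 j
  have := serO_sum g E₃ (antidiagonal j) (fun _ => 1) fun p => coeff p.1 F * coeff p.2 H
  simp only [one_smul, serO_mul h hg] at this
  simp only [coeff_mk, coeff_mul, this]

theorem map_actO {B' : Type} [Ring B'] [Algebra R B'] (f : B →ₐ[R] B') {E : ℕ → Module.End R B}
    {E' : ℕ → Module.End R B'} (h : ∀ k z, f (E k z) = E' k (f z)) (g : List ℕ → R)
    (F : PowerSeries B) : PowerSeries.map f.toRingHom (actO g E F) =
      actO g E' (PowerSeries.map f.toRingHom F) := by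
  ext n
  simp only [actO, GStmt.diag, coeff_map, coeff_mk, map_sum]
  exact sum_congr rfl fun p _ => (coeff_map _ _ _).symm.trans
    (congrArg (coeff p.1) (map_serO f h g _))

/-- base change and rescaling keep the pentagon -/
theorem pent_map {R' : Type} [CommRing R'] (f : R →+* R') (t : R') {Φ : List Bool → R}
    (h : Pentagon Φ) : Pentagon fun w => t ^ w.length * f (Φ w) := by
  let _ : Algebra R (RingQuot (Rel R')) := Algebra.compHom _ f
  let T := T0 R'
  have c : ∀ {a b : RingQuot (Rel R')}, Commute a b → Commute (t • a) (t • b) :=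
    fun h => (h.smul_left t).smul_right t
  have c' : ∀ {a b b' : RingQuot (Rel R')}, Commute a (b + b') →
      Commute (t • a) (t • b + t • b') := fun h => by simpa only [smul_add] using c h
  have e := st_LIFT R Φ h _ ⟨t • T.a0, t • T.a1, t • T.c, t • T.b0, t • T.b1,
    c' T.h1, c' T.h2, c' T.h3, c' T.h4, c' T.h5, c' T.h6, c T.h7, c T.h8⟩
  have k : ∀ p q : RingQuot (Rel R'),
      ser Φ (t • p) (t • q) = ser (fun w => t ^ w.length * f (Φ w)) p q := fun p q => by
    have hw : ∀ u : List Bool, wd (t • p) (t • q) u = t ^ u.length • wd p q u := fun u => by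
      induction u with
      | nil => simp
      | cons a u ih => cases a <;> simp [ih, pow_succ, mul_smul]
    ext1 n
    rw [coeff_ser, coeff_ser]
    refine sum_congr rfl fun u _ => ?_
    rw [hw, mul_comm, mul_smul]
    rfl
  simp only [← smul_add, k] at e
  rw [add_comm T.a0 T.b0, add_comm T.a1 T.b1] at e
  exact e

end act

variable {R : Type} [CommRing R] [Algebra ℚ R] (s : ℕ → FA ℚ)

/-- the action on coefficients -/
def act (g : List ℕ → R) (Ψ : List Bool → R) (w : List Bool) : R :=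
  co w (coeff w.length (actO g (SR R s) (ser Ψ (lx R) (ly R))))

variable {s} (hs : ∀ k, G (2 * k + 3) (s k)) {g : List ℕ → R}
include hs

theorem op_hn (u : List ℕ) {m : ℕ} {f : FA R} (hf : f ∈ Hn R m) :
    op (SR R s) u f ∈ Hn R (wt u + m) := by
  induction u with
  | nil => simpa using hf
  | cons a u ih =>
    rw [op_cons, SR, S_apply, wt_cons, add_assoc]
    exact add_mem (CO.mul_mem (hn_bc (hs a).hom) ih) (CO.D_mem (hn_bc (hs a).hom) ih)

theorem ser_act (g : List ℕ → R) (Ψ : List Bool → R) :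
    ser (act s g Ψ) (lx R) (ly R) = actO g (SR R s) (ser Ψ (lx R) (ly R)) := by
  ext1 n
  have h : coeff n (actO g (SR R s) (ser Ψ (lx R) (ly R))) ∈ Hn R n := by
    rw [coeff_actO]
    refine Submodule.sum_mem _ fun p hp => Submodule.sum_mem _ fun u hu => Submodule.smul_mem _ _ ?_
    rw [← HasAntidiagonal.mem_antidiagonal.1 hp, ← mem_WN.1 hu, coeff_ser]
    exact op_hn hs u (CO.sum_mem _ _)
  rw [CO.eq_sum h, coeff_ser]
  exact sum_congr rfl fun w hw => by rw [act, mem_W.1 hw]

theorem act_edge (g : List ℕ → R) (Ψ : List Bool → R) {B : Type} [Ring B] [Algebra R B]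
    {d : ℕ → B →ₗ[R] B} (hd : ∀ k, E2.Leib (d k)) {a b : B} {p t : ℕ → B}
    (h : ∀ k, E2.Edge (d k) (bc R (s k)) a b (p k) (t k)) :
    ser (act s g Ψ) a b = actO g (fun k => E2.tw (d k) (t k) (p k)) (ser Ψ a b) := by
  have h1 := congrArg (PowerSeries.map (ev (K := R) a b).toRingHom) (ser_act hs g Ψ)
  rwa [map_actO _ (fun k z => by rw [SR, ← tw_eq, (h k).ev_tw (hd k)]), LIFT.map_ser, LIFT.map_ser,
    ev_x, ev_y] at h1

theorem act_pent (hg : GrpLike g) {Ψ : List Bool → R} (h : Pentagon Ψ) : Pentagon (act s g Ψ) := by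
  choose d U₀ U₁ U₂ U₃ U₄ hL e1 e2 e3 e4 e5 using fun k => E2.der_of (gr_s (R := R) hs k)
  unfold Pentagon at h ⊢
  rw [act_edge hs g Ψ hL e1, act_edge hs g Ψ hL e2, act_edge hs g Ψ hL e3, act_edge hs g Ψ hL e4,
    act_edge hs g Ψ hL e5, ← actO_mul (fun k => E2.tw_mul (hL k) (U₂ k) (U₀ k) (U₁ k)) hg,
    ← actO_mul (fun k => E2.tw_mul (hL k) (U₂ k) (U₄ k) (U₃ k)) hg,
    ← actO_mul (fun k => E2.tw_mul (hL k) (U₂ k) (U₃ k) (U₁ k)) hg, h]

omit hs in
theorem act_nil (g : List ℕ → R) (Ψ : List Bool → R) : act s g Ψ [] = g [] * Ψ [] := by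
  have := CO.co_wd (K := R) [] []
  rw [wd_nil] at this
  simp [act, coeff_actO, WN_zero, coeff_ser, W_zero, this]

theorem act_comp (hg : GrpLike g) (Ψ : List Bool → R) : Comp (M (cc s) g) Ψ (act s g Ψ) := by
  let d : ℕ → Module.End R (FA R) := fun k => D (bc R (s k))
  have l1 : ∀ k z z', SR R s k (z * z') = SR R s k z * z' + z * d k z' := fun k z z' => by
    simp only [SR, S_apply, D_mul, d]
    noncomm_ring
  have l2 : ∀ z, serO g (SR R s) z = serO g (SR R s) 1 * serO g d z := fun z => by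
    rw [← serO_mul l1 hg, one_mul]
  have l3 : ∀ u, serO g d (wd (lx R) (ly R) u) = wd (C (lx R)) (serO g d (ly R)) u := by
    intro u
    induction u with
    | nil => exact (serO_const hg.1 fun k => D_one _).trans (map_one _)
    | cons a u ih =>
      cases a
      · rw [wd_false, wd_false, serO_mul (fun k => D_mul _) hg, ih, serO_const hg.1 fun k => D_x _]
      · rw [wd_true, wd_true, serO_mul (fun k => D_mul _) hg, ih]
  have l4 : ∀ u z, op (SR R s) u (ly R * z) = ly R * op (SR R s) u z := by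
    intro u z
    induction u with
    | nil => rfl
    | cons a u ih =>
      simp only [op_cons, ih, SR, S_apply, D_mul, D_y]
      noncomm_ring
  refine ⟨serO g d (ly R), ?_, ?_⟩
  · show ser _ (lx R) (ly R) * _ = C (ly R) * ser _ (lx R) (ly R)
    rw [ser_M hs, ← l2]
    ext1 n
    rw [coeff_C_mul, coeff_serO, coeff_serO, mul_sum]
    refine sum_congr rfl fun u _ => ?_
    rw [mul_smul_comm, ← l4, mul_one]
  · show ser _ (lx R) (ly R) = ser _ (lx R) (ly R) * GStmt.diag (ser _ (C (lx R)) _)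
    rw [← diag_mul, ser_M hs, ser_act hs, actO]
    congr 1
    ext1 j
    rw [coeff_mk, coeff_C_mul, coeff_ser, coeff_ser, serO_sum, mul_sum]
    exact sum_congr rfl fun u _ => by rw [mul_smul_comm, ← l3, ← l2]

end Pool.Agent.DD.PZ
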