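import Pool.Agent.Lib.DD.PZ2

/-! Motivic relations hold on the group of the associator relations, and define it. -/

set_option autoImplicit false

noncomputable section

namespace Pool.Agent.DD.PZ

open Pool.Agent.DR Pool.Agent.DD.GStmt Pool.Agent.DD.S39 Pool.Agent.DD.F Pool.Agent.DD.GI
  Pool.Agent.DD.GU Finset TrivSqZeroExt Finsupp

/-- rational functionals -/
abbrev Fn : Type := FA ℚ →ₗ[ℚ] ℚ

/-- families of points -/
abbrev Pts : Type 1 := ∀ (R : Type) [CommRing R] [Algebra ℚ R], Set (List Bool → R)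

/-- extension of scalars of a functional -/
def xt (lam : Fn) (R : Type) [CommRing R] [Algebra ℚ R] : FA R →ₗ[R] R :=
  (FreeAlgebra.basisFreeMonoid R Bool).constr R
    fun w => algebraMap ℚ R (lam (FreeAlgebra.basisFreeMonoid ℚ Bool w))

/-- the common kernel -/
def KK (L : Set Fn) (R : Type) [CommRing R] [Algebra ℚ R] : Submodule R (FA R) :=
  ⨅ lam ∈ L, LinearMap.ker (xt lam R)

/-- the functionals which vanish on all components of all points -/
def Kil (P : Pts) : Set Fn := {lam | ∀ (R : Type) [CommRing R] [Algebra ℚ R], ∀ Ψ ∈ P R, ∀ n,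
  xt lam R (E2.cmp Ψ n) = 0}

/-- the functional of a relation -/
def fa (a : List Bool →₀ ℚ) : Fn := linearCombination ℚ (co (K := ℚ)) a

variable {R : Type} [CommRing R] [Algebra ℚ R]

theorem mem_KK {L : Set Fn} {f : FA R} : f ∈ KK L R ↔ ∀ lam ∈ L, xt lam R f = 0 := by
  simp [KK, Submodule.mem_iInf]

theorem xt_wd (lam : Fn) (u : List Bool) :
    xt lam R (wd (lx R) (ly R) u) = algebraMap ℚ R (lam (wd (lx ℚ) (ly ℚ) u)) := by
  rw [← CO.basis_eq, ← CO.basis_eq, xt, Module.Basis.constr_basis]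

omit [Algebra ℚ R] in
theorem wext {N : Type} [AddCommGroup N] [Module R N] {F H : FA R →ₗ[R] N}
    (h : ∀ u, F (wd (lx R) (ly R) u) = H (wd (lx R) (ly R) u)) : F = H :=
  (FreeAlgebra.basisFreeMonoid R Bool).ext fun w => by
    rw [← FreeMonoid.ofList_toList w, CO.basis_eq]; exact h _

theorem xt_bc (lam : Fn) (f : FA ℚ) : xt lam R (bc R f) = algebraMap ℚ R (lam f) :=
  LinearMap.congr_fun (wext (F := (xt lam R).restrictScalars ℚ ∘ₗ (bc R).toLinearMap)
    (H := Algebra.linearMap ℚ R ∘ₗ lam) fun u => by simp [map_wd, xt_wd]) f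

theorem xt_S (lam : Fn) (ψ : FA ℚ) (f : FA R) :
    xt (lam ∘ₗ S ψ) R f = xt lam R (S (bc R ψ) f) :=
  LinearMap.congr_fun (wext (H := xt lam R ∘ₗ S (bc R ψ)) fun u => by
    rw [xt_wd, LinearMap.comp_apply, LinearMap.comp_apply, ← xt_bc, bc_S, map_wd, bc_x, bc_y]) f

theorem xt_cmp (lam : Fn) (Ψ : List Bool → R) (n : ℕ) :
    xt lam R (E2.cmp Ψ n) = ∑ u ∈ W n, lam (wd (lx ℚ) (ly ℚ) u) • Ψ u := by
  simp only [E2.cmp, map_sum, map_smul, xt_wd]
  simp only [smul_eq_mul, Algebra.smul_def, mul_comm]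

theorem fa_wd (a : List Bool →₀ ℚ) (u : List Bool) : fa a (wd (lx ℚ) (ly ℚ) u) = a u := by
  rw [fa, linearCombination_apply, Finsupp.sum, LinearMap.sum_apply]
  simp only [LinearMap.smul_apply, CO.co_wd, smul_eq_mul, mul_ite, mul_one, mul_zero,
    Finset.sum_ite_eq]
  split_ifs with h
  · rfl
  · exact (Finsupp.notMem_support_iff.1 h).symm

theorem lc_filter (a : List Bool →₀ ℚ) (Ψ : List Bool → R) (n : ℕ) :
    linearCombination ℚ Ψ (a.filter (·.length = n)) = xt (fa a) R (E2.cmp Ψ n) := by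
  rw [xt_cmp, linearCombination_apply, Finsupp.sum_of_support_subset _ (s := W n)
    (fun u hu => mem_W.2 (by simp at hu; exact hu.2)) _ (by simp)]
  exact sum_congr rfl fun u hu => by rw [fa_wd, filter_apply, if_pos (mem_W.1 hu)]

theorem lc_zero_of {a : List Bool →₀ ℚ} {Ψ : List Bool → R}
    (h : ∀ n, xt (fa a) R (E2.cmp Ψ n) = 0) : linearCombination ℚ Ψ a = 0 := by
  have e : a = ∑ n ∈ a.support.image List.length, a.filter (·.length = n) := by
    ext u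
    simp only [Finsupp.finsetSum_apply, filter_apply, Finset.sum_ite_eq]
    split_ifs with hu
    · rfl
    · exact Finsupp.notMem_support_iff.1 fun hc => hu (mem_image_of_mem _ hc)
  rw [e, map_sum]
  exact sum_eq_zero fun n _ => (lc_filter a Ψ n).trans (h n)

omit [Algebra ℚ R] in
theorem cmp_zero {Ψ : List Bool → R} (h : Ψ [] = 1) : E2.cmp Ψ 0 = 1 := by
  simp [E2.cmp, W_zero, h]

theorem S_KK {L : Set Fn} {ψ : FA ℚ} (h : ∀ lam ∈ L, lam ∘ₗ S ψ ∈ L) {f : FA R}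
    (hf : f ∈ KK L R) : S (bc R ψ) f ∈ KK L R :=
  mem_KK.2 fun lam hl => by rw [← xt_S]; exact mem_KK.1 hf _ (h lam hl)

variable {s : ℕ → FA ℚ}

theorem op_KK {L : Set Fn} (h : ∀ k, ∀ lam ∈ L, lam ∘ₗ S (s k) ∈ L) (u : List ℕ) {f : FA R}
    (hf : f ∈ KK L R) : op (SR R s) u f ∈ KK L R := by
  induction u with
  | nil => exact hf
  | cons k u ih => exact S_KK (h k) ih

theorem step (hs : ∀ k, G (2 * k + 3) (s k)) {P : Pts} (k : ℕ)
    (hP : ∀ (R : Type) [CommRing R] [Algebra ℚ R], ∀ Ψ ∈ P R,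
      act s (ge R k) (fun w => inl (Ψ w)) ∈ P (DualNumber R)) :
    ∀ lam ∈ Kil P, lam ∘ₗ S (s k) ∈ Kil P := by
  intro lam hl R _ _ Ψ hΨ n
  have e := congrArg snd (hl _ _ (hP R Ψ hΨ) (2 * k + 3 + n))
  have i : ∀ (l : Fn) m, xt l (DualNumber R) (E2.cmp (fun w => inl (Ψ w)) m) =
      inl (xt l R (E2.cmp Ψ m)) := fun l m => by simp only [xt_cmp, inl_sum, inl_smul]
  have t : ∀ u m, snd (xt lam (DualNumber R) (ge R k u • op (SR (DualNumber R) s) u
      (E2.cmp (fun w => inl (Ψ w)) m))) =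
      if u = [k] then xt (lam ∘ₗ S (s k)) R (E2.cmp Ψ m) else 0 := fun u m => by
    rw [map_smul, ge]
    split_ifs with h1 h2 h2
    · simp [h1] at h2
    · simp [h1, i]
    · rw [h2, op_cons, op_nil, SR, ← xt_S, i]
      simp
    · simp
  rw [← E2.coeff_ser_free, ser_act hs, coeff_actO] at e
  simp only [map_sum, snd_sum, E2.coeff_ser_free, t, Finset.sum_ite_eq', mem_WN, wt_cons, wt_nil,
    add_zero, snd_zero] at e
  rwa [sum_eq_single_of_mem (2 * k + 3, n) (by simp) fun p hp hne => if_neg fun hc => hne (by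
    have := HasAntidiagonal.mem_antidiagonal.1 hp
    exact Prod.ext hc.symm (by simp only; omega)), if_pos rfl] at e

omit [Algebra ℚ R] in
theorem pent_inl {Ψ : List Bool → R} (h : Pentagon Ψ) :
    Pentagon fun w => (inl (Ψ w) : DualNumber R) := by
  simpa using pent_map (inlHom R R) 1 h

omit [Algebra ℚ R] in
theorem gl {Ψ : List Bool → R} (h : Pentagon Ψ) (h1 : Ψ [] = 1) : GrpLike Ψ :=
  gl_of_pent (st_LIFT R _ h) h1

theorem cmp_M (hs : ∀ k, G (2 * k + 3) (s k)) (g : List ℕ → R) (n : ℕ) :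
    E2.cmp (M (cc s) g) n = ∑ u ∈ WN n, g u • op (SR R s) u 1 := by
  rw [← E2.coeff_ser_free, ser_M hs, coeff_serO]

section low
variable {Z : List Bool → ℝ} {J : Set (List Bool →₀ ℚ)} (hZ : Pentagon Z) (hJ : Motivic Z J)

/-- solutions of the pentagon which satisfy `J` -/
def PJ (J : Set (List Bool →₀ ℚ)) : Pts := fun R _ _ => {Ψ | Pentagon Ψ ∧ Ψ ∈ Ann J R}

include hJ in
theorem fa_mem {a : List Bool →₀ ℚ} (ha : a ∈ J) : fa a ∈ Kil (PJ J) :=
  fun _ _ _ _ h n => (lc_filter a _ n).symm.trans (h.2.2 _ (hJ.1 a ha n))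

include hZ hJ

theorem one_KK : (1 : FA R) ∈ KK (Kil (PJ J)) R := mem_KK.2 fun lam hl => by
  have := hl ℝ Z ⟨hZ, hJ.2.1⟩ 0
  rw [cmp_zero hJ.2.1.1.1, ← map_one (bc ℝ), xt_bc, map_eq_zero] at this
  rw [← map_one (bc R), xt_bc, this, map_zero]

theorem tangent {k : ℕ} {ψ : FA ℚ} (h : G (2 * k + 3) ψ) (h0 : ∀ a ∈ J, fa a ψ = 0) :
    ∀ lam ∈ Kil (PJ J), lam ∘ₗ S ψ ∈ Kil (PJ J) := by
  obtain ⟨s₀, hs₀, -⟩ := core
  have hs : ∀ j, G (2 * j + 3) (Function.update s₀ k ψ j) := fun j => by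
    rcases eq_or_ne j k with rfl | hj
    · simpa using h
    · simpa [hj] using hs₀ j
  have := step hs (P := PJ J) k fun R _ _ Ψ hΨ => by
    have p := act_pent hs (gl_ge k) (pent_inl hΨ.1)
    have m := M_mem hs (gl_ge (R := R) k)
    refine ⟨p, gl p (by simp [act_nil, ge, hΨ.2.1.1]), hJ.2.2 _ _ ⟨m.1, fun a ha => ?_⟩ _
      ⟨gl (pent_inl hΨ.1) (by simp [hΨ.2.1.1]), fun a ha => ?_⟩ _ (xy_zero m)
      (act_comp hs (gl_ge k) _)⟩
    · refine lc_zero_of fun n => ?_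
      rw [cmp_M hs, map_sum]
      refine sum_eq_zero fun u _ => ?_
      rw [map_smul, ge]
      split_ifs with h1 h2
      · rw [h1, op_nil, mem_KK.1 (one_KK hZ hJ) _ (fa_mem hJ ha), smul_zero]
      · rw [h2, op_cons, op_nil, SR, PHI.S_one, xt_bc, Function.update_self, h0 a ha, map_zero,
          smul_zero]
      · rw [zero_smul]
    · have := congrArg (inl : R → DualNumber R) (hΨ.2.2 a ha)
      simpa only [linearCombination_apply, Finsupp.sum, inl_sum, inl_smul, inl_zero] using this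
  simpa using this

omit hZ in
theorem fa_desc {Ψ : List Bool → ℝ} (h : Ψ ∈ PJ J ℝ) (l : ℝ →ₗ[ℚ] ℚ) (n : ℕ) :
    ∀ a ∈ J, fa a (E2.cmp (fun u => l (Ψ u)) n) = 0 := fun a ha => by
  have := congrArg l (fa_mem hJ ha ℝ Ψ h n)
  rw [xt_cmp] at this
  simpa [E2.cmp, mul_comm] using this

theorem clean (k : ℕ) : ∃ Ψ ∈ PJ J ℝ,
    (∀ u : List Bool, u.length < 2 * k + 3 → Odd u.length → Ψ u = 0) ∧
      ∀ m, 2 * k + 3 ≤ m → Ψ (d1 m) = Z (d1 m) := by
  induction k with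
  | zero =>
    refine ⟨Z, ⟨hZ, hJ.2.1⟩, fun u hu ho => H19.deg_one hZ hJ.2.1.1.1 u ?_, fun _ _ => rfl⟩
    obtain ⟨j, hj⟩ := ho
    omega
  | succ k ih =>
    obtain ⟨Ψ, hΨ, hz, hd⟩ := ih
    have e1 := hΨ.2.1.1
    have lp := H19.lpent_low hΨ.1 e1 (n := 2 * k + 3) ⟨k + 1, by ring⟩ hz
    have hg := gr_of (by omega) (H19.lpent_neg lp)
    have hm := E2.cmp_mem_one (E2.pure_zero_lin hg.pent)
    have p := E2.flow_pent (by omega) hm (E2.der_of hg) hΨ.1
    have st : ∀ f ∈ KK (Kil (PJ J)) ℝ, S (E2.cmp Ψ (2 * k + 3)) f ∈ KK (Kil (PJ J)) ℝ := by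
      refine Submodule.span_induction
        (p := fun ψ _ => ∀ f ∈ KK (Kil (PJ J)) ℝ, S ψ f ∈ KK (Kil (PJ J)) ℝ) ?_
        (fun f _ => by simp [PHI.S_zero])
        (fun _ _ _ _ a b f hf => by rw [PHI.S_add]; exact add_mem (a f hf) (b f hf))
        (fun r _ _ a f hf => by rw [PHI.S_smul]; exact Submodule.smul_mem _ r (a f hf))
        (cmp_span Ψ _)
      rintro _ ⟨l, rfl⟩ f hf
      have q := lpent_desc l lp
      exact S_KK (tangent hZ hJ ⟨H56.isLie_of_lpent q, CO.sum_mem _ _, q⟩ (fa_desc hJ hΨ l _)) hf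
    have ng : E2.cmp (fun u => -Ψ u) (2 * k + 3) = (-1 : ℝ) • E2.cmp Ψ (2 * k + 3) := by
      simp [E2.cmp]
    have pw : ∀ j m, PowerSeries.coeff m ((E2.up (2 * k + 3) (S (E2.cmp (fun u => -Ψ u)
        (2 * k + 3))) ^ j) (ser Ψ (lx ℝ) (ly ℝ))) ∈ KK (Kil (PJ J)) ℝ := fun j => by
      induction j with
      | zero =>
        refine fun m => mem_KK.2 fun lam hl => ?_
        simpa [E2.coeff_ser_free] using hl ℝ Ψ hΨ m
      | succ j ih =>
        intro m
        rw [pow_succ', Module.End.mul_apply, E2.coeff_up]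
        split_ifs
        · have := ih (m - (2 * k + 3))
          have st' : ∀ f ∈ KK (Kil (PJ J)) ℝ, S (E2.cmp (fun u => -Ψ u) (2 * k + 3)) f ∈
              KK (Kil (PJ J)) ℝ := fun f hf => by
            rw [ng, PHI.S_smul]
            exact Submodule.smul_mem _ _ (st f hf)
          exact st' _ this
        · exact zero_mem _
    have b := fun u (hu : List.length u < 2 * k + 3) =>
      E2.flow_lt (E2.cmp (fun u => -Ψ u) (2 * k + 3)) Ψ hu
    refine ⟨_, ⟨p, gl p (by rw [b [] (by simp), e1]), fun a ha => lc_zero_of fun n => ?_⟩,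
      fun u hu ho => ?_, fun m hm' => ?_⟩
    · refine mem_KK.1 ?_ _ (fa_mem hJ ha)
      rw [← E2.coeff_ser_free, E2.ser_flow hm, E2.ex, PowerSeries.coeff_mk, tw_eq]
      exact Submodule.sum_mem _ fun j _ => Submodule.smul_mem _ _ (pw j n)
    · rcases lt_trichotomy u.length (2 * k + 3) with h | h | h
      · rw [b u h, hz u h ho]
      · rw [E2.flow_len (by omega) _ e1 h, ← h, E2.co_cmp, add_neg_cancel]
      · obtain ⟨j, hj⟩ := ho
        omega
    · rw [E2.flow_depth hm (E2.pure_zero hΨ.1 e1) (H19.d1_count m)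
        (by rw [H19.d1_length (by omega)]; omega), hd m (by omega)]

theorem GT_sub (h0 : ∀ k, Z (d1 (2 * k + 3)) ≠ 0) : GT R ⊆ Ann J R := by
  have ex : ∀ k, ∃ ψ : FA ℚ, G (2 * k + 3) ψ ∧ co (d1 (2 * k + 3)) ψ ≠ 0 ∧ ∀ a ∈ J, fa a ψ = 0 := by
    intro k
    obtain ⟨Ψ, hΨ, hz, hd⟩ := clean hZ hJ k
    obtain ⟨l, hl⟩ : ∃ l : ℝ →ₗ[ℚ] ℚ, l (Ψ (d1 (2 * k + 3))) ≠ 0 := by
      by_contra hc
      push Not at hc
      exact h0 k ((hd _ le_rfl).symm.trans ((Module.forall_dual_apply_eq_zero_iff ℚ _).1 hc))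
    have q := lpent_desc l (H19.lpent_low hΨ.1 hΨ.2.1.1 ⟨k + 1, by ring⟩ hz)
    refine ⟨_, ⟨H56.isLie_of_lpent q, CO.sum_mem _ _, q⟩, ?_, fa_desc hJ hΨ l _⟩
    rw [E2.cmp, CO.co_sum, if_pos (H19.d1_length (by omega))]
    exact hl
  choose s hs h1 h2 using ex
  intro Φ hΦ
  obtain ⟨g, -, rfl⟩ := (bij hs h1 R).surjOn hΦ
  refine ⟨hΦ.1, fun a ha => lc_zero_of fun n => mem_KK.1 ?_ _ (fa_mem hJ ha)⟩
  rw [cmp_M hs]
  exact Submodule.sum_mem _ fun u _ => Submodule.smul_mem _ _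
    (op_KK (fun k => tangent hZ hJ (hs k) (h2 k)) u (one_KK hZ hJ))

end low

end Pool.Agent.DD.PZ
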