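import Pool.Agent.Lib.DD.PZ3
import Pool.Agent.Lib.DD.PZ1
import Pool.Agent.Lib.DD.A1Fin65
import Pool.Agent.Lib.DD.A2_FIN

/-! The relations common to all associators are motivic; uniqueness; the four groups. -/

set_option autoImplicit false

noncomputable section

namespace Pool.Agent.DD.PZ

open Pool.Agent.DR Pool.Agent.DD.GStmt Pool.Agent.DD.S39 Pool.Agent.DD.F Pool.Agent.DD.GI
  Pool.Agent.DD.GU Pool.Agent.DD.GD Finset Finsupp

variable {R : Type} [CommRing R] [Algebra ℚ R]

/-- solutions of the pentagon -/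
def P0 : Pts := fun _ _ _ => {Ψ | Pentagon Ψ ∧ Ψ [] = 1}

/-- the relations which hold for all of them -/
def J0 : Set (List Bool →₀ ℚ) := {a | fa a ∈ Kil P0}

theorem st_of_pent {Φ : List Bool → R} (h : Pentagon Φ) (h1 : Φ [] = 1) (k l : List ℕ) :
    reg (th Φ) k * reg (th Φ) l = ((st k l).map (reg (th Φ))).sum := by
  have e := congrArg (fun F => c2 k l (PowerSeries.coeff ((yx k).length + (yx l).length) F))
    ((gl_corr h h1).trans (comm_map _ _).symm)
  simp only [PowerSeries.coeff_mul, PowerSeries.coeff_map, map_sum, i1, i2, AlgHom.toRingHom_eq_coe,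
    RingHom.coe_coe, Algebra.TensorProduct.includeLeft_apply,
    Algebra.TensorProduct.includeRight_apply, Algebra.TensorProduct.tmul_mul_tmul, mul_one, one_mul,
    c2_tmul, c2_dst, cw_PR] at e
  rw [sum_eq_single_of_mem ((yx k).length, (yx l).length) (by simp), if_pos rfl, if_pos rfl] at e
  · rw [← e]
    exact congrArg _ (List.map_congr_left fun m hm => if_pos (st_len k l m hm))
  · intro p hp hne
    have := HasAntidiagonal.mem_antidiagonal.1 hp
    rw [if_neg fun hc => hne (Prod.ext hc.symm (by simp only; omega)), zero_mul]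

theorem lin_th {F : ∀ (R : Type) [CommRing R] [Algebra ℚ R], (List Bool → R) → R} (h : Lin F) :
    Lin fun R _ _ Φ => F R (th Φ) := by
  obtain ⟨a, ha⟩ := h
  refine (Lin.sum a.support fun u _ => (Lin.co u).smul (a u * (-1) ^ u.count true)).cg
    fun R _ _ Φ hΦ => ?_
  rw [ha R _ (gl_th hΦ), linearCombination_apply, Finsupp.sum]
  exact sum_congr rfl fun u _ => by simp [th, Algebra.smul_def, mul_assoc]

theorem mem_J0 {a : List Bool →₀ ℚ} (h : ∀ (S : Type) [CommRing S] [Algebra ℚ S], ∀ Ψ ∈ P0 S,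
    linearCombination ℚ Ψ a = 0) : a ∈ J0 := by
  intro S _ _ Ψ hΨ n
  have e := congrArg (Polynomial.coeff · n) (h _ _
    ⟨pent_map (Polynomial.C : S →+* _) Polynomial.X hΨ.1, by simp [hΨ.2]⟩)
  rw [← lc_filter, linearCombination_apply, Finsupp.sum, support_filter, sum_filter]
  simp only [linearCombination_apply, Finsupp.sum, Polynomial.finsetSum_coeff, Polynomial.coeff_smul,
    Polynomial.coeff_mul_C, Polynomial.coeff_X_pow, Polynomial.coeff_zero] at e
  refine Eq.trans (sum_congr rfl fun u _ => ?_) e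
  by_cases hu : u.length = n <;> simp [hu, eq_comm (a := n)]

theorem sub_GT {Φ : List Bool → R} (hΦ : Φ ∈ Ann J0 R) (h0 : Φ [false, true] = 0) : Φ ∈ GT R := by
  have key : ∀ {F : ∀ (R : Type) [CommRing R] [Algebra ℚ R], (List Bool → R) → R}, Lin F →
      (∀ (S : Type) [CommRing S] [Algebra ℚ S], ∀ Ψ ∈ P0 S, F S Ψ = 0) → F R Φ = 0 := by
    rintro F ⟨a, ha⟩ h
    rw [ha R Φ hΦ.1]
    exact hΦ.2 a (mem_J0 fun S _ _ Ψ m => (ha S Ψ (gl m.1 m.2)).symm.trans (h S Ψ m))
  have z : ∀ b, Φ [b] = 0 := fun b => key (Lin.co _) fun _ _ _ _ h => H19.deg_one h.1 h.2 _ rfl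
  refine mem_of_th (hl_of (q1_of_A st_A1 st_A2))
    ⟨gl_th hΦ.1, by simp [th, z], by simp [th, z], by simp [th, h0], fun k l => ?_⟩
  have := key (lin_th (((Lin.rg k).mul (Lin.rg l)).add ((Lin.lsum (st k l) Lin.rg).smul (-1))))
    fun _ _ _ _ h => by simp [st_of_pent h.1 h.2 k l]
  simpa [add_neg_eq_zero] using this

theorem cmp_KK {Ψ : List Bool → R} (h : Ψ ∈ Ann J0 R) (q : ℕ) : E2.cmp Ψ q ∈ KK (Kil P0) R := by
  refine mem_KK.2 fun lam hl => ?_
  have e : ∀ (S : Type) [CommRing S] [Algebra ℚ S] (Ψ : List Bool → S), linearCombination ℚ Ψ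
      (∑ u ∈ W q, single u (lam (wd (lx ℚ) (ly ℚ) u))) = xt lam S (E2.cmp Ψ q) :=
    fun S _ _ Ψ => by simp [xt_cmp]
  exact (e R Ψ).symm.trans (h.2 _ (mem_J0 fun S _ _ Ψ m => (e S Ψ).trans (hl S Ψ m q)))

theorem motivic_J0 {Z : List Bool → ℝ} (hZ : Pentagon Z) (h1 : Z [] = 1) : Motivic Z J0 := by
  refine ⟨fun a ha n => mem_J0 fun S _ _ Ψ m => (lc_filter a Ψ n).trans (ha S Ψ m n),
    ⟨gl hZ h1, fun a ha => lc_zero_of (ha ℝ Z ⟨hZ, h1⟩)⟩, fun R _ _ Φ hΦ Ψ hΨ Θ h0 hc a ha => ?_⟩
  obtain ⟨s, hs, hi, hc'⟩ := core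
  obtain ⟨g, hg, rfl⟩ := (bij hs (d1_ne hs hi hc') R).surjOn (sub_GT hΦ h0)
  rw [comp_uniq hΦ.1.1 hc (act_comp hs hg Ψ)]
  refine lc_zero_of fun n => mem_KK.1 ?_ _ ha
  rw [← E2.coeff_ser_free, ser_act hs, coeff_actO]
  refine Submodule.sum_mem _ fun p _ => Submodule.sum_mem _ fun u _ => Submodule.smul_mem _ _
    (op_KK (fun k => step hs (P := P0) k fun R _ _ Ψ m => ⟨act_pent hs (gl_ge k) (pent_inl m.1), ?_⟩) u ?_)
  · simp [act_nil, ge, m.2]
  · exact E2.coeff_ser_free Ψ _ ▸ cmp_KK hΨ _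

theorem peel (s : Bool) {D : List Bool → ℝ}
    (hD : ∀ u : List Bool, ∑ i ∈ range (u.length + 1), D (u.take i ++ s :: u.drop i) = 0)
    {Q : List Bool → Prop} (hQ : ∀ v j, Q v → Q (v.take j ++ s :: v.drop j))
    (ht : ∀ v, Q (s :: v) → Q v) (h0 : ∀ v, v.head? ≠ some s → Q v → D v = 0) (w : List Bool)
    (hw : Q w) : D w = 0 := by
  have key : ∀ a v, v.head? ≠ some s → Q v → D (List.replicate a s ++ v) = 0 := by
    intro a
    induction a with
    | zero => simpa using h0
    | succ a ih =>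
      intro v hv q
      have e := hD (List.replicate a s ++ v)
      rw [List.length_append, List.length_replicate, add_right_comm, sum_range_add,
        sum_congr rfl (g := fun _ => D (List.replicate (a + 1) s ++ v)) fun i hi => ?_,
        sum_eq_zero (s := range v.length) fun j hj => ?_] at e
      · simpa [Nat.cast_add_one_ne_zero] using e
      · rw [List.take_append, List.drop_append, List.take_of_length_le (by simp; omega),
          List.drop_of_length_le (by simp; omega), List.append_assoc, List.nil_append]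
        refine ih _ ?_ (hQ v _ q)
        rcases v with _ | ⟨b, v⟩
        · simp at hj
        · simpa [show a + 1 + j - a = j + 1 by omega] using hv
      · have hi' : i ≤ a := by simpa [Nat.lt_succ_iff] using hi
        obtain ⟨c, rfl⟩ := Nat.exists_eq_add_of_le hi'
        congr 1
        rw [List.replicate_add, List.append_assoc, List.take_left' (by simp),
          List.drop_left' (by simp), add_assoc, List.replicate_add, List.replicate_succ]
        simp
  have dec : ∀ w, Q w → ∃ a v, v.head? ≠ some s ∧ Q v ∧ w = List.replicate a s ++ v := by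
    intro w
    induction w with
    | nil => exact fun q => ⟨0, [], by simp, q, rfl⟩
    | cons b w ih =>
      intro q
      rcases eq_or_ne b s with rfl | hb
      · obtain ⟨a, v, h1, h2, rfl⟩ := ih (ht _ q)
        exact ⟨a + 1, v, h1, h2, rfl⟩
      · exact ⟨0, b :: w, by simpa using hb, q, rfl⟩
  obtain ⟨a, v, h1, h2, rfl⟩ := dec w hw
  exact key a v h1 h2

theorem exists_yx (v : List Bool) (h : OK v) :
    ∃ k, yx k = v ∧ (k.head? = some 0 → v.head? = some true) := by
  induction v with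
  | nil => exact ⟨[], rfl, by simp⟩
  | cons b v ih =>
    obtain ⟨k, rfl, -⟩ := ih h.tail
    cases b
    · rcases k with _ | ⟨a, k⟩
      · simp [yx] at h
      · exact ⟨(a + 1) :: k, by simp [yx, List.replicate_succ], by simp⟩
    · exact ⟨0 :: k, by simp [yx], by simp⟩

theorem uniq {Z Z' : List Bool → ℝ} (h : IsMZV Z) (h' : IsMZV Z') : Z = Z' := by
  have ins : ∀ {Z : List Bool → ℝ}, IsMZV Z → ∀ (s : Bool) (u : List Bool),
      ∑ i ∈ range (u.length + 1), Z (u.take i ++ s :: u.drop i) = 0 := fun {Z} h s u => by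
    have e := h.1.2 [s] u
    rw [show Z [s] = 0 by cases s; exacts [h.2.1, h.2.2.1], zero_mul] at e
    have l : ∀ (n : ℕ) (f : ℕ → ℝ), ((List.range n).flatMap fun i => [f i]).sum =
        ∑ i ∈ range n, f i := fun n f => by
      induction n with
      | zero => simp
      | succ n ih => simp [List.range_succ, sum_range_succ, ih]
    simpa [GStmt.sh, List.map_flatMap, l] using e.symm
  have hD : ∀ (s : Bool) (u : List Bool), ∑ i ∈ range (u.length + 1),
      (Z - Z') (u.take i ++ s :: u.drop i) = 0 := fun s u => by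
    simp [sum_sub_distrib, ins h s u, ins h' s u]
  have h1 : ∀ w, OK w → (Z - Z') w = 0 := peel true (hD true) (fun v j q => by
      rcases (v.drop j).eq_nil_or_concat' with e | ⟨t, b, e⟩
      · simp [OK, e]
      · rw [← List.take_append_drop j v, e] at q
        rw [e, OK, ← List.cons_append, ← List.append_assoc, List.getLast?_concat]
        rwa [OK, ← List.append_assoc, List.getLast?_concat] at q)
    (fun _ q => q.tail) fun v hv q => by
      obtain ⟨k, rfl, hk⟩ := exists_yx v q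
      have e := tendsto_nhds_unique (h.2.2.2 k fun c => hv (hk c)) (h'.2.2.2 k fun c => hv (hk c))
      simpa [th, sub_eq_zero] using e
  funext w
  refine sub_eq_zero.1 ?_
  simpa using peel false (D := fun w => (Z - Z') w.reverse) (Q := fun _ => True) (fun u => by
      rw [← hD false u.reverse, List.length_reverse, ← sum_range_reflect]
      refine sum_congr rfl fun i hi => congrArg _ ?_
      have := mem_range.1 hi
      simp [List.take_reverse, List.drop_reverse])
    (fun _ _ _ => trivial) (fun _ _ => trivial)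
    (fun v hv _ => h1 _ (by simpa [OK] using hv)) w.reverse trivial

theorem final :
    (∀ (R : Type) [CommRing R] [Algebra ℚ R], Set.BijOn th (GT R) (DS R) ∧
      ∀ Φ Ψ Θ : List Bool → R, Comp Φ Ψ Θ → Comp (th Φ) (th Ψ) (th Θ)) ∧
    (∃ c : List Bool → List ℕ →₀ ℚ,
      (∀ w, ∀ u ∈ (c w).support, (u.map fun k => 2 * k + 3).sum = w.length) ∧
      ∀ (R : Type) [CommRing R] [Algebra ℚ R],
        Set.BijOn (M c) {g : List ℕ → R | GrpLike g} (GT R) ∧ ∀ g h : List ℕ → R,
          GrpLike g → GrpLike h → Comp (M c g) (M c h) (M c (conv g h))) ∧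
    (∃! Z, IsMZV Z) ∧
    ∀ Z, IsMZV Z → ∀ (R : Type) [CommRing R] [Algebra ℚ R], GMZ Z R = GT R := by
  obtain ⟨Z, h1, hU⟩ := KZ.st_UNIV KZ.K5.st_EX KZ.K5.st_UQ KZ.st_NAT
  have hP := KZ.st_TRANS49 KZ.K5.st_INV KZ.st_SHIFT KZ.K5.st_PENT Z hU
  have hZ : IsMZV Z := ⟨gl hP h1, H19.deg_one hP h1 _ rfl, H19.deg_one hP h1 _ rfl, mzv hU h1⟩
  obtain ⟨s, hs, hi, hc⟩ := core
  refine ⟨(final_of_A st_A1 st_A2).1, ⟨cc s, cc_wt s, fun R _ _ =>
    ⟨bij hs (d1_ne hs hi hc) R, fun g h hg _ => M_conv hs hg h⟩⟩,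
    ⟨Z, hZ, fun _ h => uniq h hZ⟩, fun Z' h' R _ _ => ?_⟩
  obtain rfl := uniq hZ h'
  exact Set.Subset.antisymm (fun Φ h => sub_GT (h.2 _ (motivic_J0 hP h1)) h.1) fun Φ h =>
    ⟨xy_zero h, fun J hJ => GT_sub hP hJ (fun k => (KZ.S67.st_SIGN Z hU (2 * k + 1)).ne) h⟩

end Pool.Agent.DD.PZ
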