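import Pool.Agent.Lib.DD.A2_FIN
import Pool.Agent.Lib.DD.A1Fin65

/-! The equality of the two Lie algebras. -/

namespace Pool.Agent.DD.F

theorem q1 : Q1 := q1_of_A st_A1 st_A2

end Pool.Agent.DD.F
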