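import Pool.Agent.Lib.DD.Stmt
import Pool.Agent.Lib.DD.DsDefs64
import Mathlib.Algebra.Lie.OfAssociative

set_option autoImplicit false

noncomputable section

namespace Pool.Agent.DD.Stmt

attribute [local instance 100] LieRing.ofAssociativeRing

/-- Racinet's double shuffle Lie algebra; a Lie polynomial is read in the free associative algebra,
with the commutator as bracket. -/
def ds : Set L :=
  {ψ | ψ ∈ LieModule.lowerCentralSeries ℚ L L 2 ∧
    DS.Stuffle (ev (FreeAlgebra.ι ℚ false) (FreeAlgebra.ι ℚ true) ψ)}

end Pool.Agent.DD.Stmt
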