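import Pool.Agent.Lib.DD.DsMain64
import Pool.Agent.Lib.DD.Stmt2

/-! The question in the terms of the final statement. -/

set_option autoImplicit false

namespace Pool.Agent.DD.Stmt

attribute [local instance 100] LieRing.ofAssociativeRing

theorem q1_fin (h : Pool.Agent.DD.F.Q1) : ev x (-y) '' grt = ds := by
  have e : ev (FreeAlgebra.ι ℚ false) (FreeAlgebra.ι ℚ true) = Pool.Agent.DD.H56.iota ℚ Bool := by
    refine congrArg (FreeLieAlgebra.lift ℚ) (funext fun s => ?_)
    cases s <;> rfl
  rw [ds, e]
  exact h

end Pool.Agent.DD.Stmt
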