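import Pool.Agent.Lib.DR.B_LIFT
import Mathlib.Algebra.Lie.OfAssociative
import Mathlib.Algebra.Lie.Subalgebra
import Mathlib.Algebra.Polynomial.Degree.Lemmas
import Mathlib.Tactic.NoncommRing

/-! Lie solutions of the pentagon with the 2-cycle and 3-cycle relations are special. -/

set_option autoImplicit false

noncomputable section

namespace Pool.Agent.DD.S39

open Pool.Agent.DR MulOpposite

attribute [local instance 100] LieRing.ofAssociativeRing

universe v

variable {K : Type v} [CommRing K]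

/-- the letters -/
def lx (K : Type v) [CommRing K] : FreeAlgebra K Bool := FreeAlgebra.ι K false
def ly (K : Type v) [CommRing K] : FreeAlgebra K Bool := FreeAlgebra.ι K true

section ev
variable {B : Type*} [Ring B] [Algebra K B]

/-- substitution -/
def ev (a b : B) : FreeAlgebra K Bool →ₐ[K] B := FreeAlgebra.lift K fun s => if s then b else a

@[simp] theorem ev_x (a b : B) : ev a b (lx K) = a := by simp [ev, lx]
@[simp] theorem ev_y (a b : B) : ev a b (ly K) = b := by simp [ev, ly]

theorem ind {P : FreeAlgebra K Bool → Prop} (h0 : ∀ r, P (algebraMap K _ r)) (hx : P (lx K))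
    (hy : P (ly K)) (hm : ∀ f g, P f → P g → P (f * g)) (ha : ∀ f g, P f → P g → P (f + g))
    (f : FreeAlgebra K Bool) : P f := by
  induction f using FreeAlgebra.induction with
  | grade0 r => exact h0 r
  | grade1 s => cases s; exacts [hx, hy]
  | mul f g => exact hm f g ‹_› ‹_›
  | add f g => exact ha f g ‹_› ‹_›

theorem map_ev {B' : Type*} [Ring B'] [Algebra K B'] (g : B →ₐ[K] B') (a b : B)
    (f : FreeAlgebra K Bool) : g (ev a b f) = ev (g a) (g b) f := by
  induction f using ind <;> simp [*]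

theorem ev_self (f : FreeAlgebra K Bool) : ev (lx K) (ly K) f = f := by
  induction f using ind <;> simp [*]

theorem comm_ev {z a b : B} (ha : Commute z a) (hb : Commute z b) (f : FreeAlgebra K Bool) :
    Commute z (ev a b f) := by
  induction f using ind with
  | h0 r => rw [AlgHom.commutes]; exact (Algebra.commutes r z).symm
  | hx => simpa
  | hy => simpa
  | hm f g h1 h2 => rw [map_mul]; exact h1.mul_right h2
  | ha f g h1 h2 => rw [map_add]; exact h1.add_right h2

end ev

/-- Lie polynomials -/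
def IsLie (ψ : FreeAlgebra K Bool) : Prop :=
  ψ ∈ LieSubalgebra.lieSpan K (FreeAlgebra K Bool) {lx K, ly K}

theorem IsLie.ind {P : FreeAlgebra K Bool → Prop} (hx : P (lx K)) (hy : P (ly K)) (h0 : P 0)
    (ha : ∀ f g, IsLie f → IsLie g → P f → P g → P (f + g))
    (hs : ∀ (r : K) f, IsLie f → P f → P (r • f))
    (hb : ∀ f g, IsLie f → IsLie g → P f → P g → P (f * g - g * f))
    {ψ : FreeAlgebra K Bool} (h : IsLie ψ) : P ψ := by
  induction h using LieSubalgebra.lieSpan_induction with
  | mem x hx' => rcases hx' with rfl | rfl; exacts [hx, hy]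
  | zero => exact h0
  | add f g h1 h2 h3 h4 => exact ha f g h1 h2 h3 h4
  | smul r f h1 h2 => exact hs r f h1 h2
  | lie f g h1 h2 h3 h4 => exact hb f g h1 h2 h3 h4

theorem IsLie.add_ev {B : Type*} [Ring B] [Algebra K B] {ψ : FreeAlgebra K Bool} (h : IsLie ψ)
    {a b s t : B} (h1 : Commute s a) (h2 : Commute s b) (h3 : Commute t a) (h4 : Commute t b) :
    ev (a + s) (b + t) ψ = ev a b ψ + ev s t ψ := by
  have hc : ∀ f g : FreeAlgebra K Bool, ev a b f * ev s t g = ev s t g * ev a b f := fun f g =>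
    (comm_ev (comm_ev h1 h2 f).symm (comm_ev h3 h4 f).symm g).eq
  refine h.ind (P := fun ψ => ev (a + s) (b + t) ψ = ev a b ψ + ev s t ψ) (by simp) (by simp)
    (by simp) ?_ ?_ ?_
  · intro f g _ _ h1 h2
    simp only [map_add, h1, h2]; abel
  · intro r f _ h1
    simp only [map_smul, h1, smul_add]
  · intro f g _ _ h1 h2
    simp only [map_sub, map_mul, h1, h2]
    linear_combination (norm := noncomm_ring) hc f g - hc g f

/-- the linear pentagon in every braid algebra -/
def LPent (ψ : FreeAlgebra K Bool) : Prop :=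
  ∀ (B : Type v) [Ring B] [Algebra K B] (T : Br B),
    ev T.b0 (T.c + T.b1) ψ + ev (T.a0 + T.c) T.a1 ψ =
      ev T.c T.a1 ψ + ev (T.a0 + T.b0) (T.a1 + T.b1) ψ + ev T.b0 T.c ψ

theorem lpent_of {ψ : FreeAlgebra K Bool}
    (h : ev (tt K 0 1) (tt K 1 2 + tt K 1 3) ψ + ev (tt K 0 2 + tt K 1 2) (tt K 2 3) ψ =
      ev (tt K 1 2) (tt K 2 3) ψ + ev (tt K 0 1 + tt K 0 2) (tt K 1 3 + tt K 2 3) ψ +
        ev (tt K 0 1) (tt K 1 2) ψ) : LPent ψ := by
  intro B _ _ T
  have h2 := congrArg (LIFT.gg T K) h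
  simp only [map_add, map_ev, LIFT.gg_tt] at h2
  rw [add_comm T.a0 T.b0, add_comm T.a1 T.b1]
  exact h2

theorem LPent.shift {ψ : FreeAlgebra K Bool} (hp : LPent ψ) (hL : IsLie ψ) {B : Type v} [Ring B]
    [Algebra K B] {a b s t : B} (h1 : Commute s a) (h2 : Commute s b) (h3 : Commute t a)
    (h4 : Commute t b) (h5 : Commute s t) : ev (a + s) (b + t) ψ = ev a b ψ := by
  have e1 := hp B ⟨0, 0, 0, s, 0, by simp, by simp, by simp, by simp, by simp, by simp, by simp,
    by simp⟩
  have e2 := hp B ⟨0, t, 0, 0, 0, by simp, by simp, by simp, by simp, by simp, by simp, by simp,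
    by simp⟩
  have e3 := hL.add_ev (a := s) (b := 0) (s := 0) (t := t) (by simp) (by simp) h5.symm (by simp)
  simp only [add_zero, zero_add] at e1 e2 e3
  have e4 : ev s 0 ψ = (0 : B) := by linear_combination (norm := abel1) -e1
  have e5 : ev 0 t ψ = (0 : B) := by linear_combination (norm := abel1) -e2
  rw [hL.add_ev h1 h2 h3 h4, e3, e4, e5, add_zero, add_zero]

/-! right derivatives -/

/-- constant term -/
def ep : FreeAlgebra K Bool →ₐ[K] K := ev 0 0

@[simp] theorem ep_x : ep (lx K) = 0 := ev_x _ _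
@[simp] theorem ep_y : ep (ly K) = 0 := ev_y _ _

def rho (i j : FreeAlgebra K Bool) :
    FreeAlgebra K Bool →ₐ[K] Matrix (Fin 2) (Fin 2) (FreeAlgebra K Bool) :=
  ev !![lx K, i; 0, 0] !![ly K, j; 0, 0]

theorem rho_sh (i j f : FreeAlgebra K Bool) : rho i j f 0 0 = f ∧ rho i j f 1 0 = 0 ∧
    rho i j f 1 1 = algebraMap K _ (ep f) := by
  induction f using ind with
  | h0 r => simp [Matrix.algebraMap_matrix_apply]
  | hx => simp [rho]
  | hy => simp [rho]
  | hm f g h1 h2 => simp [Matrix.mul_apply, h1, h2]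
  | ha f g h1 h2 => simp [h1, h2]

/-- `dd 1 0` removes a last letter `x`, `dd 0 1` a last letter `y` -/
def dd (i j : FreeAlgebra K Bool) : FreeAlgebra K Bool →ₗ[K] FreeAlgebra K Bool :=
  (Matrix.entryLinearMap K _ 0 1).comp (rho i j).toLinearMap

theorem dd_mul (i j f g : FreeAlgebra K Bool) : dd i j (f * g) = f * dd i j g + ep g • dd i j f := by
  simp [dd, Matrix.mul_apply, rho_sh, Algebra.smul_def, Algebra.commutes]

@[simp] theorem dd_x (i j : FreeAlgebra K Bool) : dd i j (lx K) = i := by simp [dd, rho]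
@[simp] theorem dd_y (i j : FreeAlgebra K Bool) : dd i j (ly K) = j := by simp [dd, rho]
@[simp] theorem dd_c (i j : FreeAlgebra K Bool) (r : K) : dd i j (algebraMap K _ r) = 0 := by
  simp [dd, Matrix.algebraMap_matrix_apply]
@[simp] theorem dd_one (i j : FreeAlgebra K Bool) : dd i j 1 = 0 := by simpa using dd_c i j 1

theorem dec (f : FreeAlgebra K Bool) :
    f = algebraMap K _ (ep f) + dd 1 0 f * lx K + dd 0 1 f * ly K := by
  induction f using ind with
  | h0 r => simp
  | hx => simp
  | hy => simp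
  | hm f g h1 h2 =>
    simp only [dd_mul, map_mul, Algebra.smul_def]
    have h3 := Algebra.commutes (ep g) f
    have h4 := Algebra.commutes (ep g) (algebraMap K (FreeAlgebra K Bool) (ep f))
    linear_combination (norm := noncomm_ring) f * h2 + algebraMap K _ (ep g) * h1 - h3 + h4
  | ha f g h1 h2 =>
    simp only [map_add]
    linear_combination (norm := noncomm_ring) h1 + h2

theorem uniq {f g : FreeAlgebra K Bool} (h : f * lx K + g * ly K = 0) : f = 0 ∧ g = 0 := by
  have h1 := congrArg (dd 1 0) h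
  have h2 := congrArg (dd 0 1) h
  simpa [dd_mul] using And.intro h1 h2

theorem IsLie.ep {ψ : FreeAlgebra K Bool} (h : IsLie ψ) : ep ψ = 0 := by
  refine h.ind (P := fun ψ => S39.ep ψ = 0) (by simp) (by simp) (by simp) ?_ ?_ ?_
  · intro f g _ _ h1 h2; simp [h1, h2]
  · intro r f _ h1; simp [h1]
  · intro f g _ _ h1 h2; simp [h1, h2]

/-- the antipode -/
def sg (f : FreeAlgebra K Bool) : FreeAlgebra K Bool :=
  unop (ev (op (-lx K)) (op (-ly K)) f)

@[simp] theorem sg_x : sg (lx K) = -lx K := by simp [sg]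
@[simp] theorem sg_y : sg (ly K) = -ly K := by simp [sg]
@[simp] theorem sg_c (r : K) : sg (algebraMap K _ r) = algebraMap K (FreeAlgebra K Bool) r := by
  simp [sg]
@[simp] theorem sg_mul (f g : FreeAlgebra K Bool) : sg (f * g) = sg g * sg f := by simp [sg]
@[simp] theorem sg_add (f g : FreeAlgebra K Bool) : sg (f + g) = sg f + sg g := by simp [sg]
@[simp] theorem sg_neg (f : FreeAlgebra K Bool) : sg (-f) = -sg f := by simp [sg]

theorem IsLie.sg {ψ : FreeAlgebra K Bool} (h : IsLie ψ) : sg ψ = -ψ := by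
  refine h.ind (P := fun ψ => S39.sg ψ = -ψ) (by simp) (by simp) (by simp [S39.sg]) ?_ ?_ ?_
  · intro f g _ _ h1 h2; simp [h1, h2, add_comm]
  · intro r f _ h1
    rw [Algebra.smul_def, sg_mul, sg_c, h1, Algebra.commutes, neg_mul]
  · intro f g _ _ h1 h2; simp [sub_eq_add_neg, h1, h2]

theorem sg_sw (f : FreeAlgebra K Bool) :
    sg (ev (ly K) (lx K) f) = ev (ly K) (lx K) (sg f) := by
  induction f using ind <;> simp [*]

/-! the test module -/

abbrev MM (K : Type v) [CommRing K] := FreeAlgebra K Bool × FreeAlgebra K Bool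

def LL : FreeAlgebra K Bool →ₐ[K] Module.End K (MM K) := Algebra.lsmul K K (MM K)

def oo (f g : FreeAlgebra K Bool →ₗ[K] FreeAlgebra K Bool) : Module.End K (MM K) :=
  (LinearMap.inr K _ _).comp (f.coprod g)

@[simp] theorem LL_app (g u v : FreeAlgebra K Bool) : LL g (u, v) = (g * u, g * v) := rfl
@[simp] theorem oo_app (f g : FreeAlgebra K Bool →ₗ[K] FreeAlgebra K Bool)
    (u v : FreeAlgebra K Bool) : oo f g (u, v) = (0, f u + g v) := rfl

def Lb (K : Type v) [CommRing K] : Module.End K (MM K) :=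
  oo ((Algebra.linearMap K _).comp ep.toLinearMap) 0
def PP (K : Type v) [CommRing K] : Module.End K (MM K) :=
  oo ((LinearMap.mulRight K (lx K)).comp (dd 1 0)) (LinearMap.mulRight K (-lx K))
def NN (K : Type v) [CommRing K] : Module.End K (MM K) :=
  oo LinearMap.id (LinearMap.mulRight K (-lx K - ly K))

@[simp] theorem Lb_app (u v : FreeAlgebra K Bool) : Lb K (u, v) = (0, ep u • 1) := by
  simp [Lb, Algebra.algebraMap_eq_smul_one]
@[simp] theorem PP_app (u v : FreeAlgebra K Bool) :
    PP K (u, v) = (0, dd 1 0 u * lx K - v * lx K) := by simp [PP, sub_eq_add_neg]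
@[simp] theorem NN_app (u v : FreeAlgebra K Bool) :
    NN K (u, v) = (0, u - v * lx K - v * ly K) := by
  simp [NN, sub_eq_add_neg, mul_add, add_assoc]

theorem cm {S T : Module.End K (MM K)} (h : ∀ u v, S (T (u, v)) = T (S (u, v))) : Commute S T :=
  LinearMap.ext fun m => h m.1 m.2

theorem c1 : Commute (PP K) (LL (lx K) + Lb K) :=
  cm fun u v => by simp [dd_mul, mul_sub, add_mul, mul_assoc]
theorem c2 : Commute (PP K) (LL (ly K)) := cm fun u v => by simp [dd_mul, mul_sub, mul_assoc]
theorem c3 : Commute (PP K + Lb K) (LL (lx K)) :=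
  cm fun u v => by simp [dd_mul, mul_sub, add_mul, mul_add, mul_assoc]; abel
theorem c4 (g : FreeAlgebra K Bool) : Commute (NN K) (LL g) :=
  cm fun u v => by simp [mul_sub, mul_assoc]
theorem c5 : Commute (NN K - PP K - Lb K) (Lb K + LL (ly K)) :=
  cm fun u v => by simp [dd_mul, mul_sub, add_mul, mul_assoc]; abel

theorem sub_act {S T : Module.End K (MM K)} (hS : ∀ v, S (0, v) = (0, v * -lx K))
    (hT : ∀ v, T (0, v) = (0, v * -ly K)) (f : FreeAlgebra K Bool) :
    ∀ v, ev S T f (0, v) = (0, v * sg f) := by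
  induction f using ind with
  | h0 r => intro v; simp [Module.algebraMap_end_apply, ← Algebra.commutes, Algebra.smul_def]
  | hx => simpa using hS
  | hy => simpa using hT
  | hm f g h1 h2 => intro v; simp [h1, h2, mul_assoc]
  | ha f g h1 h2 => intro v; simp [h1, h2, mul_add]

theorem left_act {a b : FreeAlgebra K Bool} (ha : ep a = 0) (hb : ep b = 0) (i j : K)
    (f : FreeAlgebra K Bool) : ∀ u v, ev (LL a + i • Lb K) (LL b + j • Lb K) f (u, v) =
      (ev a b f * u, ev a b f * v + ep u • (i • ev a b (dd 1 0 f) + j • ev a b (dd 0 1 f))) := by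
  have he : ∀ g, ep (ev a b g) = ep g := fun g => by rw [map_ev, ha, hb]; rfl
  induction f using ind with
  | h0 r => intro u v; simp [Module.algebraMap_end_apply, Algebra.smul_def]
  | hx => intro u v; simp [smul_smul, mul_comm]
  | hy => intro u v; simp [smul_smul, mul_comm]
  | hm f g h1 h2 =>
    intro u v
    simp only [map_mul, Module.End.mul_apply, h1, h2, he, dd_mul, map_add, map_smul, mul_assoc,
      mul_add, mul_smul_comm, Prod.mk.injEq, true_and]
    module
  | ha f g h1 h2 =>
    intro u v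
    simp only [map_add, LinearMap.add_apply, h1, h2, add_mul, Prod.mk_add_mk, Prod.mk.injEq,
      true_and]
    module

/-- the braid tuple on the test module -/
def TT (K : Type v) [CommRing K] : Br (Module.End K (MM K)) where
  a0 := -LL (lx K) - LL (ly K) - NN K
  a1 := PP K + (LL (lx K) + Lb K)
  c := NN K - PP K - Lb K
  b0 := PP K
  b1 := -NN K
  h1 := by
    rw [show -LL (lx K) - LL (ly K) - NN K + (NN K - PP K - Lb K) =
      -(PP K + (LL (lx K) + Lb K) + LL (ly K)) by abel]
    exact (((Commute.refl _).add_right c1).add_right c2).neg_right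
  h2 := cm fun u v => by simp [dd_mul, mul_sub, mul_add, add_mul, sub_mul, mul_assoc]; abel
  h3 := cm fun u v => by simp [dd_mul, mul_sub, add_mul, sub_mul, mul_assoc]; abel
  h4 := cm fun u v => by simp [dd_mul, mul_sub, add_mul, sub_mul, mul_assoc]; abel
  h5 := cm fun u v => by simp [mul_sub, add_mul, sub_mul, mul_assoc]; abel
  h6 := cm fun u v => by simp [dd_mul, mul_sub, mul_add, add_mul, sub_mul, mul_assoc]; abel
  h7 := (Commute.refl _).add_right c1
  h8 := cm fun u v => by simp [mul_sub, sub_mul, mul_assoc]; abel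

@[simp] theorem m1 : (-1 : K) • Lb K = -Lb K := neg_one_smul K (Lb K)

theorem key {ψ : FreeAlgebra K Bool} (hL : IsLie ψ) (hp : LPent ψ) :
    lx K * sg (dd 1 0 ψ) = lx K * ev (-lx K) (lx K) (dd 1 0 ψ) -
      lx K * ev (-lx K - ly K) (lx K) (dd 0 1 ψ) := by
  have h := hp _ (TT K)
  have ca : Commute (LL (lx K)) (PP K + (LL (lx K) + Lb K)) := by
    rw [add_left_comm]; exact (Commute.refl _).add_right c3.symm
  have cq : Commute (LL (lx K)) (NN K - PP K - Lb K) := by
    rw [sub_sub]; exact (c4 _).symm.sub_right c3.symm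
  have cd : Commute (NN K - PP K - Lb K) (LL (-lx K - ly K) + (-1 : K) • Lb K) := by
    rw [show LL (-lx K - ly K) + (-1 : K) • Lb K = -(LL (lx K) + (Lb K + LL (ly K))) by
      simp; abel]
    exact (cq.symm.add_right c5).neg_right
  have cp : Commute (PP K) (LL (-lx K - ly K) + (-1 : K) • Lb K) := by
    rw [show LL (-lx K - ly K) + (-1 : K) • Lb K = -(LL (lx K) + Lb K + LL (ly K)) by simp; abel]
    exact (c1.add_right c2).neg_right
  have cq1 : Commute (PP K + (LL (lx K) + Lb K)) (LL (-lx K) + (-1 : K) • Lb K) := by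
    rw [show LL (-lx K) + (-1 : K) • Lb K = -(LL (lx K) + Lb K) by simp; abel]
    exact (c1.add_left (Commute.refl _)).neg_right
  have cq2 : Commute (PP K + (LL (lx K) + Lb K)) (LL (lx K) + (0 : K) • Lb K) := by
    simpa using ca.symm
  have cq3 : Commute (NN K - PP K - Lb K) (LL (lx K) + (0 : K) • Lb K) := by simpa using cq.symm
  have cq4 : Commute (PP K) (LL (lx K) + (1 : K) • Lb K) := by simpa using c1
  have e1 := hp.shift hL cq1 cq2 cq1.neg_left cq2.neg_left (Commute.refl _).neg_right
  have e2 := hp.shift hL cp.neg_left cq4.neg_left cp cq4 (Commute.refl _).neg_left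
  have e3 := hp.shift hL cd.neg_left cq3.neg_left cd.neg_left cq3.neg_left (Commute.refl _)
  rw [show (TT K).b0 = LL (-lx K) + (-1 : K) • Lb K + (PP K + (LL (lx K) + Lb K)) by
      simp only [TT, m1, map_neg]; abel, show (TT K).c + (TT K).b1 = LL (lx K) + (0 : K) • Lb K +
      -(PP K + (LL (lx K) + Lb K)) by simp [TT]; abel, e1,
    show (TT K).a0 + (TT K).c = LL (-lx K - ly K) + (-1 : K) • Lb K + -PP K by simp [TT]; abel,
    show (TT K).a1 + (TT K).b1 = LL (lx K) + (0 : K) • Lb K + -(NN K - PP K - Lb K) by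
      simp [TT]; abel,
    show (TT K).a0 + (LL (-lx K) + (-1 : K) • Lb K + (PP K + (LL (lx K) + Lb K))) =
      LL (-lx K - ly K) + (-1 : K) • Lb K + -(NN K - PP K - Lb K) by simp [TT]; abel, e3,
    show LL (-lx K) + (-1 : K) • Lb K + (PP K + (LL (lx K) + Lb K)) = PP K by
      simp only [m1, map_neg]; abel,
    show (TT K).c = NN K - PP K - Lb K from rfl] at h
  have e4 := (comm_ev cq ca ψ).eq
  rw [show (TT K).a1 = PP K + (LL (lx K) + Lb K) from rfl] at h
  rw [add_comm (LL (lx K) + (1 : K) • Lb K), one_smul] at e2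
  rw [e2] at h
  have hs := sub_act (S := PP K) (T := NN K - PP K - Lb K) (by simp)
    (fun v => by simp; abel)
  have hd : ∀ m, ev (PP K) (NN K - PP K - Lb K) ψ m =
      ev (PP K) (NN K - PP K - Lb K) (dd 1 0 ψ) (PP K m) +
      ev (PP K) (NN K - PP K - Lb K) (dd 0 1 ψ) ((NN K - PP K - Lb K) m) := by
    intro m
    conv_lhs => rw [dec ψ, hL.ep]
    simp
  have h1 := congrArg Prod.snd (LinearMap.congr_fun h (1, 0))
  have h2 := congrArg Prod.snd (LinearMap.congr_fun h (lx K, 0))
  have h3 := congrArg Prod.snd (LinearMap.congr_fun e4 (1, 0))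
  have l1 := left_act (a := -lx K) (b := lx K) (by simp) (by simp) (-1) 0 ψ
  have l2 := left_act (a := -lx K - ly K) (b := lx K) (by simp) (by simp) (-1) 1 ψ
  have l3 := left_act (a := -lx K - ly K) (b := lx K) (by simp) (by simp) (-1) 0 ψ
  rw [one_smul] at l2
  simp only [LinearMap.add_apply, l1, l2, l3, hd, Prod.snd_add] at h1 h2
  simp [hs] at h1 h2 h3
  generalize ev (NN K - PP K - Lb K) (PP K + (LL (lx K) + Lb K)) ψ (1, 0) = m at h1 h3
  obtain ⟨m1, m2⟩ := m
  simp only [LL_app] at h1 h3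
  linear_combination (norm := noncomm_ring) -h2 + h3 + lx K * h1

theorem poly0 [Algebra ℚ K] (k : Polynomial K)
    (h : ∀ s : Polynomial K, s = Polynomial.X → s * k * s + s * k * s +
      (-s - s) * Polynomial.aeval (-s - s) k * (-s - s) = 0) :
    Polynomial.X * k * Polynomial.X = 0 := by
  have h1 := h _ rfl
  have h2 : (-Polynomial.X - Polynomial.X : Polynomial K) = Polynomial.C (-2) * Polynomial.X := by
    rw [map_neg, map_ofNat]; ring
  have h3 : k + k + Polynomial.C 4 * k.comp (Polynomial.C (-2) * Polynomial.X) = 0 := by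
    refine Polynomial.isRegular_X.left (Polynomial.isRegular_X.left ?_)
    rw [h2, ← Polynomial.comp_eq_aeval] at h1
    simp only [map_neg, map_ofNat] at h1 ⊢
    linear_combination h1
  have h4 : k = 0 := by
    ext n
    have h5 := congrArg (Polynomial.coeff · n) h3
    simp only [Polynomial.coeff_add, Polynomial.coeff_C_mul, Polynomial.comp_C_mul_X_coeff,
      Polynomial.coeff_zero] at h5
    have h6 : (2 + 4 * (-2) ^ n : ℚ) ≠ 0 := by
      have : (2 + 4 * (-2) ^ n : ℤ) ≠ 0 := by omega
      exact_mod_cast this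
    have h7 : (2 + 4 * (-2) ^ n : ℚ) • k.coeff n = 0 := by
      rw [Algebra.smul_def]
      simp only [map_add, map_mul, map_pow, map_neg, map_ofNat]
      linear_combination h5
    simpa [h6] using congrArg ((2 + 4 * (-2) ^ n : ℚ)⁻¹ • ·) h7
  rw [h4, mul_zero, zero_mul]

/-- specialness -/
theorem special [Algebra ℚ K] {ψ : FreeAlgebra K Bool} (hL : IsLie ψ) (hp : LPent ψ)
    (h2 : ψ + ev (ly K) (lx K) ψ = 0)
    (h3 : ψ + ev (ly K) (-lx K - ly K) ψ + ev (-lx K - ly K) (lx K) ψ = 0) :
    ⁅ly K, ψ⁆ + ⁅-lx K - ly K, ev (lx K) (-lx K - ly K) ψ⁆ = 0 := by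
  have hd := dec ψ
  rw [hL.ep, map_zero, zero_add] at hd
  obtain ⟨r, hr⟩ : ∃ r, r = dd 1 0 ψ := ⟨_, rfl⟩
  have hy : dd 0 1 ψ = -ev (ly K) (lx K) r := by
    have h4 := congrArg (ev (ly K) (lx K)) hd
    simp only [map_add, map_mul, ev_x, ev_y] at h4
    have h5 := (uniq (f := dd 1 0 ψ + ev (ly K) (lx K) (dd 0 1 ψ))
      (g := dd 0 1 ψ + ev (ly K) (lx K) (dd 1 0 ψ))
      (by linear_combination (norm := noncomm_ring) h2 - hd - h4)).2
    rw [hr]
    exact eq_neg_of_add_eq_zero_left h5
  have hk := key hL hp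
  rw [hy, ← hr] at hd hk
  have hl := congrArg sg hd
  simp only [hL.sg, sg_add, sg_mul, sg_x, sg_y, sg_neg, sg_sw] at hl
  have R : ∀ s t : FreeAlgebra K Bool, ev s t ψ = ev s t r * s - ev t s r * t := by
    intro s t
    have h4 := congrArg (ev s t) hd
    simp only [map_add, map_mul, map_neg, ev_x, ev_y, map_ev] at h4
    linear_combination (norm := noncomm_ring) h4
  have E : ∀ s t : FreeAlgebra K Bool,
      s * ev s t (sg r) = s * ev (-s) s r + s * ev s (-s - t) r := by
    intro s t
    have h4 := congrArg (ev s t) hk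
    simp only [map_sub, map_mul, map_neg, ev_x, ev_y, map_ev] at h4
    linear_combination (norm := noncomm_ring) h4
  have L : ∀ s t u : FreeAlgebra K Bool, u = -s - t → ev s t ψ =
      s * ev s u r - t * ev t u r + s * ev (-s) s r - t * ev (-t) t r := by
    rintro s t u rfl
    have h4 := congrArg (ev s t) hl
    have h5 := E t s
    simp only [map_add, map_mul, map_neg, ev_x, ev_y, map_ev] at h4
    rw [show -t - s = -s - t by abel] at h5
    linear_combination (norm := noncomm_ring) -h4 + E s t - h5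
  obtain ⟨d, hdd⟩ : ∃ d, d = -lx K - ly K := ⟨_, rfl⟩
  rw [← hdd] at h3 ⊢
  have h4 := uniq (f := ev (lx K) (ly K) r - ev (lx K) d r - (ev d (lx K) r - ev d (ly K) r))
    (g := ev (ly K) d r - ev (ly K) (lx K) r - (ev d (lx K) r - ev d (ly K) r)) (by
      have e1 := R (lx K) (ly K)
      have e2 := R (ly K) d
      have e3 := R d (lx K)
      rw [ev_self] at e1
      linear_combination (norm := noncomm_ring) h3 - e1 - e2 - e3 -
        (ev d (lx K) r - ev d (ly K) r) * hdd)
  have h5 : ⁅ly K, ψ⁆ + ⁅d, ev (lx K) d ψ⁆ = ly K * ev (-ly K) (ly K) r * ly K +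
      d * ev (-d) d r * d - lx K * ev (-lx K) (lx K) r * (ly K + d) := by
    have e1 := R (lx K) (ly K)
    have e2 := R (lx K) d
    have e3 := L (lx K) (ly K) d hdd
    have e4 := L (lx K) d (ly K) (by rw [hdd]; abel)
    rw [ev_self] at e1 e3
    obtain ⟨ρ, hρ⟩ : ∃ ρ, ρ = ev d (lx K) r - ev d (ly K) r := ⟨_, rfl⟩
    have a1 : ev (lx K) (ly K) r = ev (lx K) d r + ρ := by
      linear_combination (norm := noncomm_ring) h4.1 - hρ
    have a2 : ev (ly K) d r = ev (ly K) (lx K) r + ρ := by
      linear_combination (norm := noncomm_ring) h4.2 - hρ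
    have a3 : ev d (lx K) r = ev d (ly K) r + ρ := by
      linear_combination (norm := noncomm_ring) -hρ
    rw [a1] at e1 e4
    rw [a2] at e3
    rw [a3] at e2
    simp only [Ring.lie_def]
    generalize ev (lx K) d r = r1 at *
    generalize ev (lx K) d ψ = ψ' at *
    generalize ev (-d) d r = kd at *
    generalize ev d (ly K) r = r2 at *
    subst hdd
    linear_combination (norm := noncomm_ring) ly K * e1 - e3 * ly K + (-lx K - ly K) * e2 -
      e4 * (-lx K - ly K)
  have hκ : ∀ {B : Type v} [Ring B] [Algebra K B] (s : B), ev (-s) s r =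
      Polynomial.aeval s (ev (-Polynomial.X) Polynomial.X r : Polynomial K) := by
    intro B _ _ s
    rw [map_ev]; simp
  have h6 := poly0 (ev (-Polynomial.X) Polynomial.X r : Polynomial K) (by
    rintro s hs
    have e := congrArg (ev s s) h5
    simp only [Ring.lie_def, map_add, map_sub, map_mul, map_neg, ev_x, ev_y, map_ev, hdd] at e
    rw [← hκ, ← hs]
    linear_combination -e)
  have h7 : ∀ s : FreeAlgebra K Bool, s * ev (-s) s r * s = 0 := by
    intro s
    simpa [← hκ] using congrArg (Polynomial.aeval s) h6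
  rw [h5, h7, h7, hdd, show ly K + (-lx K - ly K) = -lx K by abel, mul_neg, h7]
  simp

end Pool.Agent.DD.S39
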