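import Mathlib.Algebra.Lie.Free
import Mathlib.Algebra.Lie.Quotient
import Mathlib.Algebra.Lie.Nilpotent
import Mathlib.Algebra.Lie.Derivation.Basic

set_option autoImplicit false

noncomputable section

namespace Pool.Agent.DD.Stmt

open FreeLieAlgebra

/-- The free Lie algebra on `x, y`. -/
abbrev L : Type := FreeLieAlgebra ℚ Bool

def x : L := of ℚ false

def y : L := of ℚ true

/-- The substitution `ψ ↦ ψ(a, b)`. -/
def ev {g : Type} [LieRing g] [LieAlgebra ℚ g] (a b : g) : L →ₗ⁅ℚ⁆ g :=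
  lift ℚ fun s => if s then b else a

/-- The relators of the Drinfeld-Kohno Lie algebra on four strands. -/
def rel : Set (FreeLieAlgebra ℚ (Fin 4 × Fin 4)) :=
  {m | (∃ i, m = of ℚ (i, i)) ∨ (∃ i j, m = of ℚ (i, j) - of ℚ (j, i)) ∨
    (∃ i j k, [i, j, k].Nodup ∧ m = ⁅of ℚ (i, j), of ℚ (i, k) + of ℚ (j, k)⁆) ∨
    ∃ i j k l, [i, j, k, l].Nodup ∧ m = ⁅of ℚ (i, j), of ℚ (k, l)⁆}

/-- The Drinfeld-Kohno Lie algebra on four strands. -/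
abbrev T4 : Type :=
  FreeLieAlgebra ℚ (Fin 4 × Fin 4) ⧸ LieSubmodule.lieSpan ℚ (FreeLieAlgebra ℚ (Fin 4 × Fin 4)) rel

/-- The generator `t_{i+1, j+1}`. -/
def t (i j : Fin 4) : T4 := LieSubmodule.Quotient.mk (of ℚ (i, j))

/-- Drinfeld's `grt₁`. -/
def grt : Set L :=
  {ψ | ψ ∈ LieModule.lowerCentralSeries ℚ L L 2 ∧ ψ + ev y x ψ = 0 ∧
    ψ + ev y (-x - y) ψ + ev (-x - y) x ψ = 0 ∧
    ev (t 0 1) (t 1 2 + t 1 3) ψ + ev (t 0 2 + t 1 2) (t 2 3) ψ =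
      ev (t 1 2) (t 2 3) ψ + ev (t 0 1 + t 0 2) (t 1 3 + t 2 3) ψ + ev (t 0 1) (t 1 2) ψ}

end Pool.Agent.DD.Stmt
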