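import Mathlib
import Pool.Agent.Lib.DR.Blue

/-! From an associator in every Banach algebra to universal coefficients with the pentagon. -/

set_option autoImplicit false
set_option linter.unusedSectionVars false

noncomputable section

namespace Pool.Agent.Lib.DD.H55

open Finset Pool.Agent.DR PowerSeries

section ev
variable {B B' : Type} [Ring B] [Algebra ℝ B] [Ring B'] [Algebra ℝ B'] {N M : ℕ} {a b : B}

/-- all words of length `N + 1` vanish -/
def NL (N : ℕ) (a b : B) : Prop := ∀ u : List Bool, u.length = N + 1 → wd a b u = 0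

/-- truncated evaluation -/
def ev (N : ℕ) (c : List Bool → ℝ) (a b : B) : B :=
  ∑ n ∈ range (N + 1), ∑ u ∈ W n, c u • wd a b u

theorem prod_gt {ι : Type} {t : ι → B} (h : ∀ l : List ι, l.length = N + 1 → (l.map t).prod = 0)
    {l : List ι} (hl : N < l.length) : (l.map t).prod = 0 := by
  rw [← List.take_append_drop (N + 1) l, List.map_append, List.prod_append,
    h _ (by rw [List.length_take]; omega), zero_mul]

theorem NL.gt (h : NL N a b) {u : List Bool} (hu : N < u.length) : wd a b u = 0 := prod_gt h hu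

theorem NL.le (h : NL N a b) (hM : N ≤ M) : NL M a b := fun _ hu => h.gt (by omega)

theorem ev_le (h : NL N a b) (hM : N ≤ M) (c : List Bool → ℝ) : ev M c a b = ev N c a b :=
  (sum_subset (range_subset_range.2 (by omega)) fun n _ hn => sum_eq_zero fun u hu => by
    rw [h.gt (by rw [mem_W.1 hu]; simpa using hn), smul_zero]).symm

theorem ev_congr {c c' : List Bool → ℝ} (h : ∀ u, u.length ≤ N → c u = c' u) :
    ev N c a b = ev N c' a b :=
  sum_congr rfl fun n hn => sum_congr rfl fun u hu => by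
    rw [h u (by rw [mem_W.1 hu]; simpa [Nat.lt_succ_iff] using hn)]

theorem map_ev (f : B →ₐ[ℝ] B') (c : List Bool → ℝ) : f (ev N c a b) = ev N c (f a) (f b) := by
  simp only [ev, map_sum, map_smul, map_wd]

theorem wd_smul (l : ℝ) (u : List Bool) : wd (l • a) (l • b) u = l ^ u.length • wd a b u := by
  induction u with
  | nil => simp
  | cons s u ih => cases s <;> simp [ih, pow_succ, smul_smul, mul_comm]

theorem ev_smul (l : ℝ) (c : List Bool → ℝ) :
    ev N c (l • a) (l • b) = ev N (fun u => c u * l ^ u.length) a b := by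
  simp only [ev, wd_smul, smul_smul]

theorem adj_le {ι : Type} {t : ι → B} (h : ∀ l : List ι, l.length = N + 1 → (l.map t).prod = 0) :
    Subalgebra.toSubmodule (Algebra.adjoin ℝ (Set.range t)) ≤
      Submodule.span ℝ ((fun l : List ι => (l.map t).prod) '' {l | l.length ≤ N}) := by
  rw [Algebra.adjoin_eq_span, Submodule.span_le]
  intro x hx
  obtain ⟨l, rfl⟩ : ∃ l : List ι, (l.map t).prod = x := by
    induction hx using Submonoid.closure_induction with
    | mem x hx => obtain ⟨i, rfl⟩ := hx; exact ⟨[i], by simp⟩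
    | one => exact ⟨[], rfl⟩
    | mul x y _ _ hx hy =>
      obtain ⟨l, rfl⟩ := hx
      obtain ⟨l', rfl⟩ := hy
      exact ⟨l ++ l', by simp⟩
  by_cases hl : l.length ≤ N
  · exact Submodule.subset_span ⟨l, hl, rfl⟩
  · rw [prod_gt h (by omega)]
    exact Submodule.zero_mem _

theorem fin_adj {ι : Type} [Finite ι] {t : ι → B}
    (h : ∀ l : List ι, l.length = N + 1 → (l.map t).prod = 0) :
    Module.Finite ℝ (Algebra.adjoin ℝ (Set.range t)) := by
  have := FiniteDimensional.span_of_finite ℝ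
    ((List.finite_length_le ι N).image fun l : List ι => (l.map t).prod)
  exact Submodule.finiteDimensional_of_le (adj_le h)

theorem exists_ev (h : NL N a b) {x : B}
    (hx : x ∈ Algebra.adjoin ℝ (Set.range fun s : Bool => if s then b else a)) :
    ∃ c, x = ev N c a b := by
  have h1 := adj_le h hx
  clear hx
  induction h1 using Submodule.span_induction with
  | mem x hx =>
    obtain ⟨u, hu, rfl⟩ := hx
    refine ⟨fun v => if v = u then 1 else 0, ?_⟩
    rw [ev, sum_eq_single u.length]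
    · simp [mem_W, wd]
    · exact fun n _ hn => sum_eq_zero fun v hv => by
        rw [if_neg fun h => hn (by rw [← mem_W.1 hv, h]), zero_smul]
    · exact fun hn => absurd (mem_range.2 (Nat.lt_succ_of_le hu)) hn
  | zero => exact ⟨0, by simp [ev]⟩
  | add x y _ _ hx hy =>
    obtain ⟨c, rfl⟩ := hx
    obtain ⟨c', rfl⟩ := hy
    exact ⟨c + c', by simp [ev, add_smul, sum_add_distrib]⟩
  | smul r x _ hx =>
    obtain ⟨c, rfl⟩ := hx
    exact ⟨r • c, by simp [ev, smul_sum, smul_smul]⟩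

end ev

theorem banach (F : Type) [Ring F] [Algebra ℝ F] [Module.Finite ℝ F] :
    ∃ (A : Type) (_ : NormedRing A) (_ : NormedAlgebra ℝ A) (_ : CompleteSpace A),
      Nonempty (F ≃ₐ[ℝ] A) := by
  let φ := ((Module.End.toContinuousLinearMap (𝕜 := ℝ) (Fin (Module.finrank ℝ F) → ℝ)).toAlgHom.comp
    Matrix.toLinAlgEquiv'.toAlgHom).comp (Algebra.leftMulMatrix (Module.finBasis ℝ F))
  have hφ : Function.Injective φ :=
    ((Module.End.toContinuousLinearMap (𝕜 := ℝ) _).injective.comp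
      Matrix.toLinAlgEquiv'.injective).comp (Algebra.leftMulMatrix_injective _)
  have e := AlgEquiv.ofInjective φ hφ
  have : FiniteDimensional ℝ φ.range := Module.Finite.equiv e.toLinearEquiv
  exact ⟨φ.range, inferInstance, inferInstance, FiniteDimensional.complete ℝ _, ⟨e⟩⟩

theorem small {ι A : Type} [Fintype ι] [NormedRing A] [NormedAlgebra ℝ A] (t : ι → A) {d : ℝ}
    (hd : 0 < d) : ∃ l : ℝ, 0 < l ∧ ∀ i, ‖l • t i‖ ≤ d := by
  have h0 : 0 ≤ ∑ i, ‖t i‖ := sum_nonneg fun _ _ => norm_nonneg _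
  refine ⟨d / (1 + ∑ i, ‖t i‖), by positivity, fun i => ?_⟩
  have h1 : ‖t i‖ ≤ ∑ i, ‖t i‖ := single_le_sum (fun _ _ => norm_nonneg _) (mem_univ i)
  rw [norm_smul, Real.norm_of_nonneg (by positivity), div_mul_eq_mul_div, div_le_iff₀ (by positivity)]
  nlinarith

section emb
variable {B : Type} [Ring B] [Algebra ℝ B]

/-- series of order larger than `N` -/
def I (N : ℕ) (B : Type) [Ring B] : Ideal (PowerSeries B) where
  carrier := {f | ∀ n ≤ N, coeff n f = 0}
  add_mem' hf hg n hn := by rw [map_add, hf n hn, hg n hn, add_zero]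
  zero_mem' n _ := map_zero _
  smul_mem' g f hf n hn := by
    rw [smul_eq_mul, coeff_mul]
    exact sum_eq_zero fun p hp => by
      rw [hf p.2 (by have := mem_antidiagonal.1 hp; omega), mul_zero]

instance (N : ℕ) (B : Type) [Ring B] : (I N B).IsTwoSided where
  mul_mem_of_left g hf n hn := by
    rw [coeff_mul]
    exact sum_eq_zero fun p hp => by
      rw [hf p.1 (by have := mem_antidiagonal.1 hp; omega), zero_mul]

/-- the truncation -/
def mk (N : ℕ) : PowerSeries B →ₐ[ℝ] PowerSeries B ⧸ I N B := Ideal.Quotient.mkₐ ℝ _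

theorem mk_eq {N : ℕ} {f g : PowerSeries B} : mk N f = mk N g ↔ ∀ n ≤ N, coeff n f = coeff n g := by
  refine Ideal.Quotient.eq.trans (forall₂_congr fun n _ => ?_)
  rw [map_sub, sub_eq_zero]

theorem prod_X {ι : Type} (p : ι → B) (l : List ι) :
    (l.map fun i => X * C (p i)).prod = X ^ l.length * C (l.map p).prod := by
  induction l with
  | nil => simp
  | cons i l ih =>
    rw [List.map_cons, List.prod_cons, ih, List.map_cons, List.prod_cons, map_mul,
      List.length_cons, pow_succ', mul_assoc, mul_assoc, ← mul_assoc (C _), ← mul_assoc (X ^ _),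
      (commute_X_pow (C (p i)) l.length).eq]

theorem wd_X (p q : B) (u : List Bool) :
    wd (X * C p) (X * C q) u = X ^ u.length * C (wd p q u) := by
  rw [wd, wd, ← prod_X]
  congr 2
  funext s
  cases s <;> rfl

theorem mk_pow {N n : ℕ} (h : N < n) (f : PowerSeries B) : mk N (X ^ n * f) = 0 := by
  rw [← map_zero (mk N), mk_eq]
  intro m hm
  rw [coeff_X_pow_mul', if_neg (by omega), map_zero]

theorem mk_ev (N : ℕ) (c : List Bool → ℝ) (p q : B) :
    mk N (ev N c (X * C p) (X * C q)) = mk N (ser c p q) := by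
  rw [mk_eq]
  intro n hn
  rw [coeff_ser, ev, map_sum, sum_eq_single n]
  · rw [map_sum]
    refine sum_congr rfl fun u hu => ?_
    rw [wd_X, mem_W.1 hu, coeff_smul, coeff_X_pow_mul', if_pos le_rfl, Nat.sub_self, coeff_zero_C]
  · intro m _ hm
    rw [map_sum]
    refine sum_eq_zero fun u hu => ?_
    rw [wd_X, mem_W.1 hu, coeff_smul, coeff_X_pow_mul', coeff_C]
    split_ifs
    · omega
    all_goals exact smul_zero _
  · exact fun h => absurd (mem_range.2 (by omega)) h

theorem emb {ι : Type} [Fintype ι] (N : ℕ) (p : ι → B) {d : ℝ} (hd : 0 < d) :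
    ∃ (A : Type) (_ : NormedRing A) (_ : NormedAlgebra ℝ A) (_ : CompleteSpace A)
      (j : A →ₐ[ℝ] PowerSeries B ⧸ I N B) (τ : ι → A) (l : ℝ), 0 < l ∧ Function.Injective j ∧
      ∀ i, j (τ i) = mk N (X * C (l • p i)) ∧ ‖τ i‖ ≤ d := by
  have := fin_adj (t := fun i => mk N (X * C (p i))) (N := N) fun l hl => by
    have h := map_list_prod (mk N) (l.map fun i => X * C (p i))
    rw [List.map_map] at h
    exact h.symm.trans (by rw [prod_X, mk_pow (by omega)])
  obtain ⟨A, _, _, _, ⟨e⟩⟩ := banach (Algebra.adjoin ℝ (Set.range fun i => mk N (X * C (p i))))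
  obtain ⟨l, hl, h⟩ := small (fun i => e ⟨_, Algebra.subset_adjoin ⟨i, rfl⟩⟩) hd
  refine ⟨A, _, _, ‹_›, (Subalgebra.val _).comp e.symm.toAlgHom, _, l, hl,
    Subtype.val_injective.comp e.symm.injective, fun i => ⟨?_, h i⟩⟩
  rw [map_smul]
  have h1 : X * C (l • p i) = l • (X * C (p i)) := by
    ext n
    rcases n with _ | n
    · simp
    · rw [coeff_smul, coeff_succ_X_mul, coeff_succ_X_mul, coeff_C, coeff_C]
      split_ifs <;> simp
  rw [h1, map_smul]
  simp

variable {N : ℕ} {A : Type} [Ring A] [Algebra ℝ A] {j : A →ₐ[ℝ] PowerSeries B ⧸ I N B}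
  {a b : A} {p q : B}

theorem r_add (ha : j a = mk N (X * C p)) (hb : j b = mk N (X * C q)) :
    j (a + b) = mk N (X * C (p + q)) := by
  rw [map_add, ha, hb, map_add, mul_add, map_add]

theorem r_comm (hj : Function.Injective j) (ha : j a = mk N (X * C p))
    (hb : j b = mk N (X * C q)) (h : Commute p q) : Commute a b := by
  have h1 := wd_X p q [false, true]
  have h2 := wd_X p q [true, false]
  simp only [wd_false, wd_true, wd_nil, mul_one, List.length_cons] at h1 h2
  apply hj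
  rw [map_mul, map_mul, ha, hb, ← map_mul, ← map_mul, h1, h2, h.eq]

theorem r_NL (hj : Function.Injective j) (ha : j a = mk N (X * C p))
    (hb : j b = mk N (X * C q)) : NL N a b := fun u hu => hj <| by
  rw [map_wd, ha, hb, ← map_wd, wd_X, mk_pow (by omega), map_zero]

theorem r_ev (ha : j a = mk N (X * C p)) (hb : j b = mk N (X * C q)) (c : List Bool → ℝ) :
    j (ev N c a b) = mk N (ser c p q) := by
  rw [map_ev, ha, hb, ← map_ev, mk_ev]

/-- rescaling -/
def sc (l : ℝ) (f : PowerSeries B) : PowerSeries B := PowerSeries.mk fun n => l ^ n • coeff n f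

theorem sc_mul (l : ℝ) (f g : PowerSeries B) : sc l f * sc l g = sc l (f * g) := by
  ext n
  simp only [sc, coeff_mul, coeff_mk, smul_sum]
  exact sum_congr rfl fun x hx => by
    rw [smul_mul_smul_comm, ← pow_add, mem_antidiagonal.1 hx]

theorem ser_smul (l : ℝ) (c : List Bool → ℝ) (p q : B) :
    ser c (l • p) (l • q) = sc l (ser c p q) := by
  ext n
  rw [sc, coeff_mk, coeff_ser, coeff_ser, smul_sum]
  exact sum_congr rfl fun u hu => by rw [wd_smul, mem_W.1 hu, smul_comm]

theorem sc_cancel {l : ℝ} (hl : 0 < l) {f g : PowerSeries B} (h : mk N (sc l f) = mk N (sc l g))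
    {n : ℕ} (hn : n ≤ N) : coeff n f = coeff n g := by
  have h1 := mk_eq.1 h n hn
  rw [sc, sc, coeff_mk, coeff_mk] at h1
  exact smul_right_injective B (pow_pos hl n).ne' h1

end emb

section main

variable (P : ∀ (A : Type) [NormedRing A] [NormedAlgebra ℝ A] [CompleteSpace A], A → A → A → Prop)

/-- `c` gives the associator in every algebra where the words of length `N + 1` vanish -/
def U (N : ℕ) (c : List Bool → ℝ) : Prop :=
  ∀ (A : Type) [NormedRing A] [NormedAlgebra ℝ A] [CompleteSpace A] (a b : A),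
    NL N a b → P A a b (ev N c a b)

/-- the hypotheses on the associator predicate -/
structure Ass (d : ℝ) : Prop where
  pos : 0 < d
  ex : ∀ (A : Type) [NormedRing A] [NormedAlgebra ℝ A] [CompleteSpace A] (a b : A),
    ‖a‖ ≤ d → ‖b‖ ≤ d → ∃ C, P A a b C
  uq : ∀ (A : Type) [NormedRing A] [NormedAlgebra ℝ A] [CompleteSpace A] (a b C C' : A),
    ‖a‖ ≤ d → ‖b‖ ≤ d → P A a b C → P A a b C' → C = C'
  nat : ∀ (A : Type) [NormedRing A] [NormedAlgebra ℝ A] [CompleteSpace A] (A' : Type)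
    [NormedRing A'] [NormedAlgebra ℝ A'] [CompleteSpace A'] (f : A →ₐ[ℝ] A') (a b C : A),
    Continuous f → P A a b C → P A' (f a) (f b) (f C)

variable {P} {d : ℝ}

theorem U.le {N M : ℕ} {c : List Bool → ℝ} (h : U P M c) (hM : N ≤ M) : U P N c :=
  fun A _ _ _ a b hn => ev_le hn hM c ▸ h A a b (hn.le hM)

theorem exists_U (H : Ass P d) (N : ℕ) : ∃ c, U P N c := by
  let r : FreeAlgebra ℝ Bool → FreeAlgebra ℝ Bool → Prop := fun p q => q = 0 ∧
    ∃ u : List Bool, u.length = N + 1 ∧ p = wd (FreeAlgebra.ι ℝ false) (FreeAlgebra.ι ℝ true) u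
  let m := RingQuot.mkAlgHom ℝ r
  have hN : NL N (m (FreeAlgebra.ι ℝ false)) (m (FreeAlgebra.ι ℝ true)) := fun u hu => by
    rw [← map_wd, RingQuot.mkAlgHom_rel ℝ (s := r) ⟨rfl, u, hu, rfl⟩, map_zero]
  have ht : Algebra.adjoin ℝ (Set.range fun s : Bool =>
      if s then m (FreeAlgebra.ι ℝ true) else m (FreeAlgebra.ι ℝ false)) = ⊤ := by
    have h1 : (fun s : Bool => if s then m (FreeAlgebra.ι ℝ true) else m (FreeAlgebra.ι ℝ false)) =
        m ∘ FreeAlgebra.ι ℝ := funext fun s => by cases s <;> rfl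
    rw [h1, Set.range_comp, Algebra.adjoin_image, FreeAlgebra.adjoin_range_ι, Algebra.map_top,
      AlgHom.range_eq_top]
    exact RingQuot.mkAlgHom_surjective ℝ r
  have hf : Module.Finite ℝ (RingQuot r) := by
    have h1 := fin_adj hN
    rw [ht] at h1
    exact Module.Finite.equiv Subalgebra.topEquiv.toLinearEquiv
  obtain ⟨A0, _, _, _, ⟨e⟩⟩ := banach (RingQuot r)
  have : FiniteDimensional ℝ A0 := Module.Finite.equiv e.toLinearEquiv
  obtain ⟨l, hl, hs⟩ := small (fun s => e (m (FreeAlgebra.ι ℝ s))) H.pos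
  obtain ⟨C0, hC⟩ := H.ex A0 _ _ (hs false) (hs true)
  obtain ⟨c, hc⟩ := exists_ev hN (x := e.symm C0) (ht ▸ Algebra.mem_top)
  refine ⟨fun u => c u * l⁻¹ ^ u.length, fun A _ _ _ a b hn => ?_⟩
  let g : RingQuot r →ₐ[ℝ] A := RingQuot.liftAlgHom ℝ
    ⟨FreeAlgebra.lift ℝ fun s => if s then l⁻¹ • b else l⁻¹ • a, by
      rintro _ _ ⟨rfl, u, hu, rfl⟩
      simp [map_wd, wd_smul, hn u hu]⟩
  have ga : g (m (FreeAlgebra.ι ℝ false)) = l⁻¹ • a := by simp [g, m]
  have gb : g (m (FreeAlgebra.ι ℝ true)) = l⁻¹ • b := by simp [g, m]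
  have h := H.nat A0 A (g.comp e.symm.toAlgHom) _ _ _
    (g.comp e.symm.toAlgHom).toLinearMap.continuous_of_finiteDimensional hC
  have k : ∀ x, (g.comp e.symm.toAlgHom) x = g (e.symm x) := fun _ => rfl
  simp only [k, map_smul, AlgEquiv.symm_apply_apply, ga, gb, hc, map_ev, ev_smul,
    smul_inv_smul₀ hl.ne'] at h
  exact h

/-- appending a letter -/
def sh (s : Bool) : Module.End ℝ (List Bool → ℝ) := LinearMap.funLeft ℝ ℝ fun w => w ++ [s]

theorem wd_sh (u : List Bool) (f : List Bool → ℝ) :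
    ∀ w, wd (sh false) (sh true) u f w = f (w ++ u) := by
  induction u with
  | nil => simp
  | cons s u ih => cases s <;> simp [sh, LinearMap.funLeft_apply] <;> simp [← sh.eq_1, ih]

theorem U.unique (H : Ass P d) {N : ℕ} {c c' : List Bool → ℝ} (h : U P N c) (h' : U P N c')
    {u : List Bool} (hu : u.length ≤ N) : c u = c' u := by
  obtain ⟨A, _, _, _, j, τ, l, hl, hj, hτ⟩ := emb N sh H.pos
  have hn := r_NL hj (hτ false).1 (hτ true).1
  have h1 := congrArg j (H.uq A _ _ _ _ (hτ false).2 (hτ true).2 (h A _ _ hn) (h' A _ _ hn))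
  rw [r_ev (hτ false).1 (hτ true).1, r_ev (hτ false).1 (hτ true).1, ser_smul, ser_smul] at h1
  have h2 := congrArg (fun T => T (fun v => if v = u then 1 else 0) []) (sc_cancel hl h1 hu)
  simpa [coeff_ser, wd_sh, mem_W] using h2

theorem exists_Phi (H : Ass P d) : ∃ Φ, ∀ N, U P N Φ := by
  choose c hc using exists_U H
  refine ⟨fun u => c u.length u, fun N A _ _ _ a b hn => ?_⟩
  rw [ev_congr (c' := c N) fun u hu => (hc _).unique H ((hc N).le hu) le_rfl]
  exact hc N A a b hn

/-- the pentagon in Banach algebras -/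
def BP (P : ∀ (A : Type) [NormedRing A] [NormedAlgebra ℝ A] [CompleteSpace A], A → A → A → Prop)
    (d : ℝ) : Prop :=
  ∀ (A : Type) [NormedRing A] [NormedAlgebra ℝ A] [CompleteSpace A] (T : Br A)
    (C1 C2 C3 C4 C5 : A), ‖T.a0‖ ≤ d → ‖T.a1‖ ≤ d → ‖T.c‖ ≤ d → ‖T.b0‖ ≤ d → ‖T.b1‖ ≤ d →
    P A T.b0 (T.c + T.b1) C1 → P A (T.a0 + T.c) T.a1 C2 → P A T.c T.a1 C3 →
    P A (T.a0 + T.b0) (T.a1 + T.b1) C4 → P A T.b0 T.c C5 → C1 * C2 = C3 * C4 * C5

theorem pent_of_U {d' : ℝ} (hd : 0 < d') (hp : BP P d') {Φ : List Bool → ℝ} (h : ∀ N, U P N Φ) :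
    Pent Φ := by
  intro B _ _ T
  ext N
  obtain ⟨A, _, _, _, j, τ, l, hl, hj, hτ⟩ := emb N ![T.a0, T.a1, T.c, T.b0, T.b1] hd
  have a0 : j (τ 0) = mk N (X * C (l • T.a0)) := (hτ 0).1
  have a1 : j (τ 1) = mk N (X * C (l • T.a1)) := (hτ 1).1
  have c : j (τ 2) = mk N (X * C (l • T.c)) := (hτ 2).1
  have b0 : j (τ 3) = mk N (X * C (l • T.b0)) := (hτ 3).1
  have b1 : j (τ 4) = mk N (X * C (l • T.b1)) := (hτ 4).1
  have ad : ∀ {a b : A} {p q : B}, j a = mk N (X * C (l • p)) → j b = mk N (X * C (l • q)) →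
      j (a + b) = mk N (X * C (l • (p + q))) := fun ha hb => by rw [smul_add, r_add ha hb]
  have cm : ∀ {a b : A} {p q : B}, j a = mk N (X * C (l • p)) → j b = mk N (X * C (l • q)) →
      Commute p q → Commute a b := fun ha hb h => r_comm hj ha hb ((h.smul_left l).smul_right l)
  have h1 := congrArg j (hp A ⟨τ 0, τ 1, τ 2, τ 3, τ 4, cm b0 (ad a0 c) T.h1,
    cm a0 (ad b0 c) T.h2, cm c (ad a0 b0) T.h3, cm c (ad a1 b1) T.h4, cm b1 (ad c a1) T.h5,
    cm a1 (ad c b1) T.h6, cm b0 a1 T.h7, cm a0 b1 T.h8⟩ _ _ _ _ _ (hτ 0).2 (hτ 1).2 (hτ 2).2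
    (hτ 3).2 (hτ 4).2 (h N A _ _ (r_NL hj b0 (ad c b1))) (h N A _ _ (r_NL hj (ad a0 c) a1))
    (h N A _ _ (r_NL hj c a1)) (h N A _ _ (r_NL hj (ad a0 b0) (ad a1 b1)))
    (h N A _ _ (r_NL hj b0 c)))
  rw [map_mul, map_mul, map_mul, r_ev b0 (ad c b1), r_ev (ad a0 c) a1, r_ev c a1,
    r_ev (ad a0 b0) (ad a1 b1), r_ev b0 c, ← map_mul, ← map_mul, ← map_mul] at h1
  simp only [ser_smul, sc_mul] at h1
  exact sc_cancel hl h1 le_rfl

/-- universal coefficients satisfying the pentagon -/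
theorem transfer (H : Ass P d) {d' : ℝ} (hd : 0 < d') (hp : BP P d') :
    ∃ Φ : List Bool → ℝ, Pent Φ ∧ ∀ N, U P N Φ := by
  obtain ⟨Φ, h⟩ := exists_Phi H
  exact ⟨Φ, pent_of_U hd hp h, h⟩

end main

end Pool.Agent.Lib.DD.H55
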